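import Mathlib

/-! # Trigonometric majorants of `∓ log |1 - ρ e^(iφ)|` of degree `M` (Hermite interpolation at the
roots of `z^(M+1) = ±1`), and the Dirichlet sum lemma

`TD M ρ φ ≥ - log |1 - ρ e^(iφ)|` with constant term `-(1/(M+1)) log (1 - ρ^(M+1))`,
`TE M ρ φ ≥ + log |1 - ρ e^(iφ)|` with constant term `(1/(M+1)) log (1 + ρ^(M+1))`. -/

namespace Pool.Agent.SignedQ.Herm

open Real Finset intervalIntegral

/-- `|1 - ρ e^(iφ)|²`. -/
noncomputable def D (ρ φ : ℝ) : ℝ := 1 - 2 * ρ * cos φ + ρ ^ 2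

theorem D_eq (ρ φ : ℝ) : D ρ φ = (1 - ρ) ^ 2 + 2 * ρ * (1 - cos φ) := by unfold D; ring

theorem D_pos {ρ : ℝ} (h0 : 0 ≤ ρ) (h1 : ρ < 1) (φ : ℝ) : 0 < D ρ φ := by
  rw [D_eq]
  have := cos_le_one φ
  have h2 : 0 < (1 - ρ) ^ 2 := by positivity [sub_pos.2 h1]
  nlinarith [mul_nonneg h0 (sub_nonneg.2 this)]

theorem D_nonneg {ρ : ℝ} (h0 : 0 ≤ ρ) (φ : ℝ) : 0 ≤ D ρ φ := by
  rw [D_eq]
  have := cos_le_one φ
  nlinarith [mul_nonneg h0 (sub_nonneg.2 this), sq_nonneg (1 - ρ)]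

theorem cos_rec (i : ℕ) (φ : ℝ) :
    2 * cos φ * cos (((i : ℝ) + 1) * φ) = cos (((i : ℝ) + 2) * φ) + cos ((i : ℝ) * φ) := by
  have h1 : ((i : ℝ) + 2) * φ = ((i : ℝ) + 1) * φ + φ := by ring
  have h2 : (i : ℝ) * φ = ((i : ℝ) + 1) * φ - φ := by ring
  rw [h1, h2, cos_add, cos_sub]
  ring

theorem sumA (M : ℕ) (s φ : ℝ) :
    D s φ * ∑ i ∈ range M, s ^ i * cos (((i : ℝ) + 1) * φ) =
      cos φ - s - s ^ M * cos (((M : ℝ) + 1) * φ) + s ^ (M + 1) * cos ((M : ℝ) * φ) := by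
  induction M with
  | zero => simp
  | succ M ih =>
    rw [sum_range_succ, mul_add, ih]
    have h := cos_rec M φ
    push_cast
    rw [show ((M : ℝ) + 1 + 1) = (M : ℝ) + 2 by ring]
    unfold D
    linear_combination (-s ^ (M + 1)) * h

theorem sumB (M : ℕ) (s φ : ℝ) :
    D s φ * ∑ i ∈ range M, s ^ (2 * M - i) * cos (((i : ℝ) + 1) * φ) =
      s ^ (M + 1) * cos ((M : ℝ) * φ) - s ^ (2 * M + 1) + s ^ (2 * M + 2) * cos φ -
        s ^ (M + 2) * cos (((M : ℝ) + 1) * φ) := by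
  induction M with
  | zero => simp
  | succ M ih =>
    have h0 : ∑ i ∈ range M, s ^ (2 * (M + 1) - i) * cos (((i : ℝ) + 1) * φ) =
        s ^ 2 * ∑ i ∈ range M, s ^ (2 * M - i) * cos (((i : ℝ) + 1) * φ) := by
      rw [mul_sum]
      refine sum_congr rfl fun i hi => ?_
      rw [mem_range] at hi
      rw [show 2 * (M + 1) - i = 2 + (2 * M - i) by omega, pow_add]
      ring
    rw [sum_range_succ, h0, mul_add, mul_left_comm, ih, show 2 * (M + 1) - M = M + 2 by omega]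
    have h := cos_rec M φ
    push_cast
    rw [show ((M : ℝ) + 1 + 1) = (M : ℝ) + 2 by ring, show 2 * (M + 1) + 1 = 2 * M + 3 by ring,
      show 2 * (M + 1) + 2 = 2 * M + 4 by ring]
    unfold D
    linear_combination (-s ^ (M + 3)) * h

theorem key_D (M : ℕ) (s φ : ℝ) :
    D s φ * (s ^ M * (1 - s ^ (M + 1)) +
      ∑ i ∈ range M, (s ^ i - s ^ (2 * M - i)) * cos (((i : ℝ) + 1) * φ)) =
    (1 - s ^ (M + 1)) ^ 2 * (cos φ - s) +
      (1 - cos (((M : ℝ) + 1) * φ)) * (s ^ M * (1 - s ^ 2)) := by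
  have h : ∑ i ∈ range M, (s ^ i - s ^ (2 * M - i)) * cos (((i : ℝ) + 1) * φ) =
      ∑ i ∈ range M, s ^ i * cos (((i : ℝ) + 1) * φ) -
        ∑ i ∈ range M, s ^ (2 * M - i) * cos (((i : ℝ) + 1) * φ) := by
    rw [← sum_sub_distrib]; exact sum_congr rfl fun i _ => by ring
  rw [h, mul_add, mul_sub (D s φ), sumA, sumB]
  unfold D
  ring

theorem key_E (M : ℕ) (s φ : ℝ) :
    D s φ * (s ^ M * (1 + s ^ (M + 1)) -
      ∑ i ∈ range M, (s ^ i - s ^ (2 * M - i)) * cos (((i : ℝ) + 1) * φ)) =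
    (1 + s ^ (M + 1)) ^ 2 * (s - cos φ) +
      (1 + cos (((M : ℝ) + 1) * φ)) * (s ^ M * (1 - s ^ 2)) := by
  have h : ∑ i ∈ range M, (s ^ i - s ^ (2 * M - i)) * cos (((i : ℝ) + 1) * φ) =
      ∑ i ∈ range M, s ^ i * cos (((i : ℝ) + 1) * φ) -
        ∑ i ∈ range M, s ^ (2 * M - i) * cos (((i : ℝ) + 1) * φ) := by
    rw [← sum_sub_distrib]; exact sum_congr rfl fun i _ => by ring
  rw [h, mul_sub (D s φ), mul_sub (D s φ), sumA, sumB]
  unfold D
  ring

noncomputable def kerD (M i : ℕ) (s : ℝ) : ℝ := (s ^ i - s ^ (2 * M - i)) / (1 - s ^ (M + 1)) ^ 2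
noncomputable def kerE (M i : ℕ) (s : ℝ) : ℝ := (s ^ i - s ^ (2 * M - i)) / (1 + s ^ (M + 1)) ^ 2

/-- coefficient of `cos ((i+1) φ)` in the majorant of `- log |1 - ρ e^(iφ)|`. -/
noncomputable def cD (M i : ℕ) (ρ : ℝ) : ℝ := ∫ s in (0:ℝ)..ρ, kerD M i s
/-- minus the coefficient of `cos ((i+1) φ)` in the majorant of `log |1 - ρ e^(iφ)|`. -/
noncomputable def cE (M i : ℕ) (ρ : ℝ) : ℝ := ∫ s in (0:ℝ)..ρ, kerE M i s

noncomputable def TD (M : ℕ) (ρ φ : ℝ) : ℝ := -(log (1 - ρ ^ (M + 1)) / (M + 1)) +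
  ∑ i ∈ range M, cD M i ρ * cos (((i : ℝ) + 1) * φ)
noncomputable def TE (M : ℕ) (ρ φ : ℝ) : ℝ := log (1 + ρ ^ (M + 1)) / (M + 1) -
  ∑ i ∈ range M, cE M i ρ * cos (((i : ℝ) + 1) * φ)

theorem one_sub_pow_pos {s : ℝ} (h0 : 0 ≤ s) (h1 : s < 1) (M : ℕ) : 0 < 1 - s ^ (M + 1) :=
  sub_pos.2 (pow_lt_one₀ h0 h1 (Nat.succ_ne_zero M))

theorem continuousAt_kerD {M i : ℕ} {s : ℝ} (h0 : 0 ≤ s) (h1 : s < 1) :
    ContinuousAt (kerD M i) s := by
  unfold kerD
  have h := one_sub_pow_pos h0 h1 M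
  exact ContinuousAt.div (by fun_prop) (by fun_prop) (by positivity)

theorem continuousAt_kerE {M i : ℕ} {s : ℝ} (h0 : 0 ≤ s) : ContinuousAt (kerE M i) s := by
  unfold kerE
  exact ContinuousAt.div (by fun_prop) (by fun_prop) (by positivity)

theorem intervalIntegrable_kerD {M i : ℕ} {a b : ℝ} (ha : 0 ≤ a) (hb : 0 ≤ b) (ha1 : a < 1)
    (hb1 : b < 1) : IntervalIntegrable (kerD M i) MeasureTheory.volume a b := by
  refine ContinuousOn.intervalIntegrable fun _ hx => (continuousAt_kerD ?_ ?_).continuousWithinAt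
  · exact le_trans (le_min ha hb) hx.1
  · exact lt_of_le_of_lt hx.2 (max_lt ha1 hb1)

theorem intervalIntegrable_kerE {M i : ℕ} {a b : ℝ} (ha : 0 ≤ a) (hb : 0 ≤ b) :
    IntervalIntegrable (kerE M i) MeasureTheory.volume a b :=
  ContinuousOn.intervalIntegrable fun _ hx =>
    (continuousAt_kerE (le_trans (le_min ha hb) hx.1)).continuousWithinAt

theorem measurable_kerD (M i : ℕ) : Measurable (kerD M i) := by unfold kerD; fun_prop
theorem measurable_kerE (M i : ℕ) : Measurable (kerE M i) := by unfold kerE; fun_prop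

theorem hasDerivAt_cD {M i : ℕ} {s : ℝ} (h0 : 0 ≤ s) (h1 : s < 1) :
    HasDerivAt (cD M i) (kerD M i s) s :=
  integral_hasDerivAt_right (intervalIntegrable_kerD le_rfl h0 one_pos h1)
    (measurable_kerD M i).stronglyMeasurable.stronglyMeasurableAtFilter (continuousAt_kerD h0 h1)

theorem hasDerivAt_cE {M i : ℕ} {s : ℝ} (h0 : 0 ≤ s) : HasDerivAt (cE M i) (kerE M i s) s :=
  integral_hasDerivAt_right (intervalIntegrable_kerE le_rfl h0)
    (measurable_kerE M i).stronglyMeasurable.stronglyMeasurableAtFilter (continuousAt_kerE h0)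

theorem hasDerivAt_TD {M : ℕ} {s : ℝ} (h0 : 0 ≤ s) (h1 : s < 1) (φ : ℝ) :
    HasDerivAt (fun s => TD M s φ) ((s ^ M * (1 - s ^ (M + 1)) +
      ∑ i ∈ range M, (s ^ i - s ^ (2 * M - i)) * cos (((i : ℝ) + 1) * φ)) /
        (1 - s ^ (M + 1)) ^ 2) s := by
  have hp := one_sub_pow_pos h0 h1 M
  have hM : (0 : ℝ) < (M : ℝ) + 1 := by positivity
  have e1 : HasDerivAt (fun s : ℝ => -(log (1 - s ^ (M + 1)) / (M + 1)))
      (s ^ M / (1 - s ^ (M + 1))) s := by
    have h2 : HasDerivAt (fun s : ℝ => 1 - s ^ (M + 1)) (-(((M + 1 : ℕ) : ℝ) * s ^ M)) s := by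
      simpa using (hasDerivAt_pow (M + 1) s).const_sub 1
    refine (((h2.log hp.ne').div_const ((M : ℝ) + 1)).fun_neg).congr_deriv ?_
    push_cast
    field_simp
  have e2 : HasDerivAt (fun s : ℝ => ∑ i ∈ range M, cD M i s * cos (((i : ℝ) + 1) * φ))
      (∑ i ∈ range M, kerD M i s * cos (((i : ℝ) + 1) * φ)) s :=
    HasDerivAt.fun_sum fun i _ => (hasDerivAt_cD h0 h1).mul_const _
  refine (e1.fun_add e2).congr_deriv ?_
  rw [add_div, sum_div]
  congr 1
  · field_simp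
  · exact sum_congr rfl fun i _ => by unfold kerD; ring

theorem hasDerivAt_TE {M : ℕ} {s : ℝ} (h0 : 0 ≤ s) (φ : ℝ) :
    HasDerivAt (fun s => TE M s φ) ((s ^ M * (1 + s ^ (M + 1)) -
      ∑ i ∈ range M, (s ^ i - s ^ (2 * M - i)) * cos (((i : ℝ) + 1) * φ)) /
        (1 + s ^ (M + 1)) ^ 2) s := by
  have hp : 0 < 1 + s ^ (M + 1) := by positivity
  have hM : (0 : ℝ) < (M : ℝ) + 1 := by positivity
  have e1 : HasDerivAt (fun s : ℝ => log (1 + s ^ (M + 1)) / (M + 1))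
      (s ^ M / (1 + s ^ (M + 1))) s := by
    have h2 : HasDerivAt (fun s : ℝ => 1 + s ^ (M + 1)) (((M + 1 : ℕ) : ℝ) * s ^ M) s := by
      simpa using (hasDerivAt_pow (M + 1) s).const_add 1
    refine ((h2.log hp.ne').div_const ((M : ℝ) + 1)).congr_deriv ?_
    push_cast
    field_simp
  have e2 : HasDerivAt (fun s : ℝ => ∑ i ∈ range M, cE M i s * cos (((i : ℝ) + 1) * φ))
      (∑ i ∈ range M, kerE M i s * cos (((i : ℝ) + 1) * φ)) s :=
    HasDerivAt.fun_sum fun i _ => (hasDerivAt_cE h0).mul_const _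
  refine (e1.fun_sub e2).congr_deriv ?_
  rw [sub_div, sum_div]
  congr 1
  · field_simp
  · exact sum_congr rfl fun i _ => by unfold kerE; ring

theorem hasDerivAt_half_log_D {s : ℝ} (h0 : 0 ≤ s) (h1 : s < 1) (φ : ℝ) :
    HasDerivAt (fun s => (1 / 2) * log (D s φ)) ((s - cos φ) / D s φ) s := by
  have hD := D_pos h0 h1 φ
  have h2 : HasDerivAt (fun s : ℝ => D s φ) (-(2 * cos φ) + 2 * s) s := by
    unfold D
    have e1 : HasDerivAt (fun s : ℝ => 1 - 2 * s * cos φ) (-(2 * cos φ)) s := by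
      have := (((hasDerivAt_id s).const_mul 2).mul_const (cos φ)).const_sub 1
      simpa using this
    have e2 : HasDerivAt (fun s : ℝ => s ^ 2) (2 * s) s := by simpa using hasDerivAt_pow 2 s
    exact e1.fun_add e2
  refine ((h2.log hD.ne').const_mul (1 / 2 : ℝ)).congr_deriv ?_
  field_simp
  ring

theorem kerD_nonneg {M i : ℕ} (hi : i < M) {s : ℝ} (h0 : 0 ≤ s) (h1 : s < 1) :
    0 ≤ kerD M i s := by
  unfold kerD
  have : s ^ (2 * M - i) ≤ s ^ i := pow_le_pow_of_le_one h0 h1.le (by omega)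
  have := sub_nonneg.2 this
  positivity

theorem kerE_nonneg {M i : ℕ} (hi : i < M) {s : ℝ} (h0 : 0 ≤ s) (h1 : s ≤ 1) :
    0 ≤ kerE M i s := by
  unfold kerE
  have : s ^ (2 * M - i) ≤ s ^ i := pow_le_pow_of_le_one h0 h1 (by omega)
  have := sub_nonneg.2 this
  positivity

theorem cD_mono {M i : ℕ} (hi : i < M) {a b : ℝ} (h0 : 0 ≤ a) (hab : a ≤ b) (h1 : b < 1) :
    cD M i a ≤ cD M i b := by
  unfold cD
  rw [← integral_add_adjacent_intervals (intervalIntegrable_kerD le_rfl h0 one_pos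
    (hab.trans_lt h1)) (intervalIntegrable_kerD h0 (h0.trans hab) (hab.trans_lt h1) h1)]
  have : 0 ≤ ∫ s in a..b, kerD M i s := integral_nonneg hab fun x hx =>
    kerD_nonneg hi (h0.trans hx.1) (hx.2.trans_lt h1)
  linarith

theorem cE_mono {M i : ℕ} (hi : i < M) {a b : ℝ} (h0 : 0 ≤ a) (hab : a ≤ b) (h1 : b ≤ 1) :
    cE M i a ≤ cE M i b := by
  unfold cE
  rw [← integral_add_adjacent_intervals (intervalIntegrable_kerE le_rfl h0)
    (intervalIntegrable_kerE h0 (h0.trans hab))]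
  have : 0 ≤ ∫ s in a..b, kerE M i s := integral_nonneg hab fun x hx =>
    kerE_nonneg hi (h0.trans hx.1) (hx.2.trans h1)
  linarith

theorem cD_zero (M i : ℕ) : cD M i 0 = 0 := by unfold cD; simp
theorem cE_zero (M i : ℕ) : cE M i 0 = 0 := by unfold cE; simp

theorem cD_nonneg {M i : ℕ} (hi : i < M) {ρ : ℝ} (h0 : 0 ≤ ρ) (h1 : ρ < 1) : 0 ≤ cD M i ρ := by
  rw [← cD_zero M i]; exact cD_mono hi le_rfl h0 h1

theorem cE_nonneg {M i : ℕ} (hi : i < M) {ρ : ℝ} (h0 : 0 ≤ ρ) (h1 : ρ ≤ 1) : 0 ≤ cE M i ρ := by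
  rw [← cE_zero M i]; exact cE_mono hi le_rfl h0 h1

/-- **Majorant of `- log |1 - ρ e^(iφ)|`.** -/
theorem neg_log_le_TD (M : ℕ) {ρ : ℝ} (h0 : 0 ≤ ρ) (h1 : ρ < 1) (φ : ℝ) :
    -(1 / 2 * log (D ρ φ)) ≤ TD M ρ φ := by
  have hd : ∀ s ∈ Set.Icc 0 ρ, HasDerivAt (fun s => TD M s φ + 1 / 2 * log (D s φ))
      ((1 - cos (((M : ℝ) + 1) * φ)) * (s ^ M * (1 - s ^ 2)) /
        ((1 - s ^ (M + 1)) ^ 2 * D s φ)) s := by
    intro s hs
    have hs1 : s < 1 := hs.2.trans_lt h1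
    refine ((hasDerivAt_TD (M := M) hs.1 hs1 φ).fun_add
      (hasDerivAt_half_log_D hs.1 hs1 φ)).congr_deriv ?_
    have hD := D_pos hs.1 hs1 φ
    have hp := one_sub_pow_pos hs.1 hs1 M
    have hk := key_D M s φ
    rw [div_add_div _ _ (by positivity) hD.ne', div_eq_div_iff (by positivity) (by positivity)]
    linear_combination ((1 - s ^ (M + 1)) ^ 2 * D s φ) * hk
  have hm : MonotoneOn (fun s => TD M s φ + 1 / 2 * log (D s φ)) (Set.Icc 0 ρ) := by
    refine monotoneOn_of_deriv_nonneg (convex_Icc 0 ρ)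
      (fun s hs => (hd s hs).continuousAt.continuousWithinAt)
      (fun s hs => (hd s (interior_subset hs)).differentiableAt.differentiableWithinAt) ?_
    intro s hs
    have hs' := interior_subset hs
    rw [(hd s hs').deriv]
    have hs1 : s < 1 := hs'.2.trans_lt h1
    have hD := D_pos hs'.1 hs1 φ
    have hp := one_sub_pow_pos hs'.1 hs1 M
    have := cos_le_one (((M : ℝ) + 1) * φ)
    have h2 : s ^ 2 ≤ 1 := by have := hs'.1; nlinarith
    have h3 := pow_nonneg hs'.1 M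
    have h4 := sub_nonneg.2 this
    have h5 := sub_nonneg.2 h2
    positivity
  have h := hm (Set.left_mem_Icc.2 h0) (Set.right_mem_Icc.2 h0) h0
  have hz : TD M 0 φ + 1 / 2 * log (D 0 φ) = 0 := by
    unfold TD D
    simp [cD_zero]
  simp only [hz] at h
  linarith

theorem log_le_TE (M : ℕ) {ρ : ℝ} (h0 : 0 ≤ ρ) (h1 : ρ < 1) (φ : ℝ) :
    1 / 2 * log (D ρ φ) ≤ TE M ρ φ := by
  have hd : ∀ s ∈ Set.Icc 0 ρ, HasDerivAt (fun s => TE M s φ - 1 / 2 * log (D s φ))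
      ((1 + cos (((M : ℝ) + 1) * φ)) * (s ^ M * (1 - s ^ 2)) /
        ((1 + s ^ (M + 1)) ^ 2 * D s φ)) s := by
    intro s hs
    have hs1 : s < 1 := hs.2.trans_lt h1
    refine ((hasDerivAt_TE (M := M) hs.1 φ).fun_sub
      (hasDerivAt_half_log_D hs.1 hs1 φ)).congr_deriv ?_
    have hD := D_pos hs.1 hs1 φ
    have hp : 0 < 1 + s ^ (M + 1) := by have := pow_nonneg hs.1 (M + 1); positivity
    have hk := key_E M s φ
    rw [div_sub_div _ _ (by positivity) hD.ne', div_eq_div_iff (by positivity) (by positivity)]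
    linear_combination ((1 + s ^ (M + 1)) ^ 2 * D s φ) * hk
  have hm : MonotoneOn (fun s => TE M s φ - 1 / 2 * log (D s φ)) (Set.Icc 0 ρ) := by
    refine monotoneOn_of_deriv_nonneg (convex_Icc 0 ρ)
      (fun s hs => (hd s hs).continuousAt.continuousWithinAt)
      (fun s hs => (hd s (interior_subset hs)).differentiableAt.differentiableWithinAt) ?_
    intro s hs
    have hs' := interior_subset hs
    rw [(hd s hs').deriv]
    have hs1 : s < 1 := hs'.2.trans_lt h1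
    have hD := D_pos hs'.1 hs1 φ
    have hp : 0 < 1 + s ^ (M + 1) := by have := pow_nonneg hs'.1 (M + 1); positivity
    have := neg_one_le_cos (((M : ℝ) + 1) * φ)
    have h2 : s ^ 2 ≤ 1 := by have := hs'.1; nlinarith
    have h3 := pow_nonneg hs'.1 M
    have h4 : 0 ≤ 1 + cos (((M : ℝ) + 1) * φ) := by linarith
    have h5 := sub_nonneg.2 h2
    positivity
  have h := hm (Set.left_mem_Icc.2 h0) (Set.right_mem_Icc.2 h0) h0
  have hz : TE M 0 φ - 1 / 2 * log (D 0 φ) = 0 := by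
    unfold TE D
    simp [cE_zero]
  simp only [hz] at h
  linarith

/-- **Majorant of `|1 - ρ e^(iφ)|²`**, also at `ρ = 1`. -/
theorem D_le_exp_TE (M : ℕ) {ρ : ℝ} (h0 : 0 ≤ ρ) (h1 : ρ ≤ 1) (φ : ℝ) :
    D ρ φ ≤ exp (2 * TE M ρ φ) := by
  have hlt : ∀ ρ : ℝ, 0 ≤ ρ → ρ < 1 → D ρ φ ≤ exp (2 * TE M ρ φ) := by
    intro ρ h0 h1
    have h := log_le_TE M h0 h1 φ
    calc D ρ φ = exp (log (D ρ φ)) := (exp_log (D_pos h0 h1 φ)).symm
      _ ≤ _ := exp_le_exp.2 (by linarith)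
  rcases h1.lt_or_eq with h | h
  · exact hlt ρ h0 h
  · subst h
    have hc1 : ContinuousAt (fun s => D s φ) 1 := by unfold D; fun_prop
    have hc2 : ContinuousAt (fun s => exp (2 * TE M s φ)) 1 :=
      ((hasDerivAt_TE zero_le_one φ).continuousAt.const_mul 2).rexp
    refine le_of_tendsto_of_tendsto (b := nhdsWithin (1 : ℝ) (Set.Iio 1))
      (hc1.tendsto.mono_left nhdsWithin_le_nhds)
      (hc2.tendsto.mono_left nhdsWithin_le_nhds) ?_
    have hmem : Set.Ioo (0 : ℝ) 1 ∈ nhdsWithin (1 : ℝ) (Set.Iio 1) := Ioo_mem_nhdsLT one_pos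
    filter_upwards [hmem] with s hs
    exact hlt s hs.1.le hs.2

theorem inv_D_le_exp_TD (M : ℕ) {ρ : ℝ} (h0 : 0 ≤ ρ) (h1 : ρ < 1) (φ : ℝ) :
    (D ρ φ)⁻¹ ≤ exp (2 * TD M ρ φ) := by
  have h := neg_log_le_TD M h0 h1 φ
  have hD := D_pos h0 h1 φ
  rw [← exp_log (inv_pos.2 hD), log_inv]
  exact exp_le_exp.2 (by linarith)

/-! ## Dirichlet sums with monotone weights -/

theorem abel_aux {w F : ℕ → ℝ} (hw : ∀ j, w (j + 1) ≤ w j) {C : ℝ}
    (hF : ∀ j, |F j| ≤ C) (m : ℕ) :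
    |∑ j ∈ range (m + 1), w j * (F (j + 1) - F j) - w m * F (m + 1)| ≤ C * (2 * w 0 - w m) +
      C * (|w 0| - w 0) := by
  induction m with
  | zero =>
    have h1 : |w 0| * |F 0| ≤ |w 0| * C := mul_le_mul_of_nonneg_left (hF 0) (abs_nonneg _)
    have h2 : |(∑ j ∈ range (0 + 1), w j * (F (j + 1) - F j) - w 0 * F (0 + 1))| = |w 0| * |F 0| := by
      rw [zero_add, sum_range_one, zero_add, ← abs_mul, ← abs_neg]
      congr 1; ring
    rw [h2]
    linarith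
  | succ m ih =>
    rw [sum_range_succ]
    have e : ∑ j ∈ range (m + 1), w j * (F (j + 1) - F j) + w (m + 1) * (F (m + 1 + 1) - F (m + 1)) -
        w (m + 1) * F (m + 1 + 1) = (∑ j ∈ range (m + 1), w j * (F (j + 1) - F j) - w m * F (m + 1)) +
          (w m - w (m + 1)) * F (m + 1) := by ring
    rw [e]
    have h1 : |(w m - w (m + 1)) * F (m + 1)| ≤ (w m - w (m + 1)) * C := by
      rw [abs_mul, abs_of_nonneg (sub_nonneg.2 (hw m))]
      exact mul_le_mul_of_nonneg_left (hF _) (sub_nonneg.2 (hw m))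
    have h2 := abs_add_le (∑ j ∈ range (m + 1), w j * (F (j + 1) - F j) - w m * F (m + 1))
      ((w m - w (m + 1)) * F (m + 1))
    nlinarith

/-- **Abel summation for cosines**: nonnegative nonincreasing weights. -/
theorem abel_cos {w : ℕ → ℝ} (hw : ∀ j, w (j + 1) ≤ w j) (hw0 : ∀ j, 0 ≤ w j) (m : ℕ)
    (α β : ℝ) (hα : sin (α / 2) ≠ 0) :
    |∑ j ∈ range m, w j * cos (j * α + β)| ≤ w 0 / |sin (α / 2)| := by
  rcases m with _ | m
  · simp only [range_zero, sum_empty, abs_zero]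
    exact div_nonneg (hw0 0) (abs_nonneg _)
  · set F : ℕ → ℝ := fun j => sin (((j : ℝ) - 1 / 2) * α + β) / (2 * sin (α / 2)) with hF
    have hdiff : ∀ j : ℕ, cos (j * α + β) = F (j + 1) - F j := by
      intro j
      simp only [hF]
      rw [← sub_div, eq_div_iff (mul_ne_zero two_ne_zero hα)]
      push_cast
      rw [show ((j : ℝ) + 1 - 1 / 2) * α + β = (j * α + β) + α / 2 by ring,
        show ((j : ℝ) - 1 / 2) * α + β = (j * α + β) - α / 2 by ring, sin_add, sin_sub]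
      ring
    have hb : ∀ j, |F j| ≤ 1 / (2 * |sin (α / 2)|) := by
      intro j
      simp only [hF]
      rw [abs_div, abs_mul, abs_two]
      exact div_le_div_of_nonneg_right (abs_sin_le_one _) (by positivity)
    have h := abel_aux hw hb m
    rw [abs_of_nonneg (hw0 0), sub_self, mul_zero, add_zero] at h
    have e : ∑ j ∈ range (m + 1), w j * cos (j * α + β) =
        ∑ j ∈ range (m + 1), w j * (F (j + 1) - F j) := sum_congr rfl fun j _ => by rw [hdiff]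
    rw [e]
    have h3 : |w m * F (m + 1)| ≤ w m * (1 / (2 * |sin (α / 2)|)) := by
      rw [abs_mul, abs_of_nonneg (hw0 m)]
      exact mul_le_mul_of_nonneg_left (hb _) (hw0 m)
    have h4 := abs_add_le (∑ j ∈ range (m + 1), w j * (F (j + 1) - F j) - w m * F (m + 1))
      (w m * F (m + 1))
    rw [sub_add_cancel] at h4
    refine h4.trans ((add_le_add h h3).trans (le_of_eq ?_))
    field_simp
    ring

end Pool.Agent.SignedQ.Herm
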