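import Mathlib
import Pool.Agent.Lib.MP_cf17a0_co.Mg.G017

/-!
S1 part F, file F2d: the numerator bounds `N5`, `N3`, `NT`.
-/

namespace MPcf17a0.S1F

open Finset

lemma J0_ge : (1.2336:ℝ) ≤ J 0 := by
  rw [J_zero]
  have := Real.pi_gt_d4
  nlinarith

lemma log3_le : Real.log 3 ≤ 1.0987 := by
  have h1 : Real.log 3 = Real.log 2 + Real.log (3/2) := by
    rw [← Real.log_mul (by norm_num) (by norm_num)]; norm_num
  have h2 : Real.log (3/2) ≤ 0.4055 := by
    rw [Real.log_le_iff_le_exp (by norm_num)]
    have := Real.sum_le_exp_of_nonneg (x := 0.4055) (by norm_num) 7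
    refine le_trans ?_ this
    norm_num [sum_range_succ, Nat.factorial]
  have := Real.log_two_lt_d9
  linarith

/-- `log x ≤ -c` from `x ≤ b` and `b^6 * 2.7182818286^q ≤ 1`, `c = q/6`. -/
lemma log_le_of_pow {x b : ℝ} (p q : ℕ) (hp : 0 < p) (hx : 0 < x) (hxb : x ≤ b)
    (h : b ^ p * 2.7182818286 ^ q ≤ 1) : Real.log x ≤ -((q:ℝ) / p) := by
  have hb : 0 < b := hx.trans_le hxb
  have h1 : Real.log x ≤ Real.log b := Real.log_le_log hx hxb
  have h2 : (p:ℝ) * Real.log b ≤ -q := by
    have e1 : (p:ℝ) * Real.log b = Real.log (b ^ p) := by rw [Real.log_pow]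
    rw [e1, Real.log_le_iff_le_exp (by positivity), Real.exp_neg]
    have e2 : Real.exp q = Real.exp 1 ^ q := by rw [← Real.exp_nat_mul]; simp
    have h3 : Real.exp 1 ^ q ≤ 2.7182818286 ^ q :=
      pow_le_pow_left₀ (Real.exp_pos _).le Real.exp_one_lt_d9.le q
    rw [e2]
    have h4 : 0 < Real.exp 1 ^ q := by positivity
    rw [le_inv_comm₀ (by positivity) h4]
    calc Real.exp 1 ^ q ≤ 2.7182818286 ^ q := h3
      _ ≤ (b ^ p)⁻¹ := by
        rw [le_inv_comm₀ (by positivity) (by positivity)]
        rw [← one_div, le_div_iff₀ (by positivity)]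
        exact h
  have hp' : (0:ℝ) < p := by exact_mod_cast hp
  have : Real.log b ≤ -((q:ℝ) / p) := by
    rw [← neg_div, le_div_iff₀ hp']
    linarith
  linarith

theorem N5 (s ψ T : ℝ) (hs : 0 < s) (n k : ℕ) (hnk : Even (n * k)) (hT0 : 0 ≤ T)
    (hT : -(1/2) - T ≤ G s ψ 1 (n + k)) : NC s ψ n k ≤ J 0 / s + 1/2 + T := by
  have hJ0 := J0_ge
  have hn0 : (0:ℝ) ≤ n := Nat.cast_nonneg n
  rcases le_or_gt ((n:ℝ) * s) 0.57 with hx | hx
  · have l1 := lsum1 s ψ T hs n k hT
    rw [NC_split]
    rcases rsum_le s hs n k hnk with ⟨hn, r1⟩ | ⟨hn1, r1⟩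
    · have key : (n:ℝ) * s + J (n * s + s / 2) ≤ J 0 := by
        rcases Nat.eq_zero_or_pos n with rfl | hn1
        · simp only [Nat.cast_zero, zero_mul, zero_add]
          exact J_anti le_rfl (by linarith)
        · have hn1' : (1:ℝ) ≤ n := by exact_mod_cast hn1
          have hsx : s ≤ n * s := by nlinarith
          have hx' : 0 < (n:ℝ) * s + s / 2 := by nlinarith
          have h2 := J_low hx'
          have h3 : Real.log ((n:ℝ) * s + s / 2) ≤ 0 := Real.log_nonpos hx'.le (by linarith)
          nlinarith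
      have e : J 0 / s = (n:ℝ) + J (n * s + s / 2) / s + (J 0 - (n * s + J (n * s + s / 2))) / s := by
        field_simp; ring
      rw [e]
      have : 0 ≤ (J 0 - (n * s + J (n * s + s / 2))) / s := div_nonneg (by linarith) hs.le
      linarith
    · have hn1' : (1:ℝ) ≤ n := by exact_mod_cast hn1
      have hsx : s ≤ n * s := by nlinarith
      have hx' : 0 < (n:ℝ) * s := by nlinarith
      have h2 := J_low hx'
      have h3 : Real.log ((n:ℝ) * s) ≤ -(Real.log 3 / 2) := by
        have h4 : Real.log ((n:ℝ) * s) ≤ Real.log 0.57 := Real.log_le_log hx' hx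
        have h5 : 2 * Real.log 0.57 + Real.log 3 ≤ 0 := by
          have e1 : 2 * Real.log 0.57 + Real.log 3 = Real.log (0.57 ^ 2 * 3) := by
            rw [Real.log_mul (by norm_num) (by norm_num), Real.log_pow]; norm_num
          rw [e1]
          exact Real.log_nonpos (by norm_num) (by norm_num)
        linarith
      have hl3 : 0 ≤ Real.log 3 := Real.log_nonneg (by norm_num)
      have key : (n:ℝ) * s + J (n * s) + s / 2 * Real.log 3 ≤ J 0 := by nlinarith
      have e : J 0 / s = (n:ℝ) + J (n * s) / s + 1 / 2 * Real.log 3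
          + (J 0 - (n * s + J (n * s) + s / 2 * Real.log 3)) / s := by
        field_simp; ring
      rw [e]
      have : 0 ≤ (J 0 - (n * s + J (n * s) + s / 2 * Real.log 3)) / s := div_nonneg (by linarith) hs.le
      linarith
  · have h1 := NC_triv s ψ hs n k
    have h2 : J ((n:ℝ) * s / 2) ≤ J 0.285 := J_anti (by norm_num) (by linarith)
    have h3 := J_285
    have h4 : 2 * J ((n:ℝ) * s / 2) / s ≤ J 0 / s := div_le_div_of_nonneg_right (by linarith) hs.le
    linarith

theorem N3 (s ψ T : ℝ) (hs : 0 < s) (hs1 : s ≤ 0.0466) (n k : ℕ) (hnk : Even (n * k)) (hT0 : 0 ≤ T)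
    (hT : -(1/2) - T ≤ G s ψ 1 (n + k)) : NC s ψ n k ≤ (J 0 - 1/4) / s + 25/24 + T
      + Real.exp (-(2 * ((n + k : ℕ) * s))) / s + 8/9 * Real.exp (-(3 * ((n + k : ℕ) * s))) / s := by
  have hJ0 := J0_ge
  have hn0 : (0:ℝ) ≤ n := Nat.cast_nonneg n
  have hl3 := log3_le
  have hl30 : 0 ≤ Real.log 3 := Real.log_nonneg (by norm_num)
  have hE2 : 0 ≤ Real.exp (-(2 * ((n + k : ℕ) * s))) / s := by positivity
  have hE3 : 0 ≤ 8/9 * Real.exp (-(3 * ((n + k : ℕ) * s))) / s := by positivity
  rcases le_or_gt ((n:ℝ) * s) 0.4 with hx | hx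
  · have l3 := lsum3 s ψ T hs n k hT
    rw [NC_split]
    rcases rsum_le s hs n k hnk with ⟨hn, r1⟩ | ⟨hn1, r1⟩
    · have key : 11/6 * ((n:ℝ) * s) + J (n * s + s / 2) ≤ J 0 := by
        rcases Nat.eq_zero_or_pos n with rfl | hn1
        · simp only [Nat.cast_zero, zero_mul, zero_add, mul_zero]
          exact J_anti le_rfl (by linarith)
        · have hn1' : (1:ℝ) ≤ n := by exact_mod_cast hn1
          have hx' : 0 < (n:ℝ) * s + s / 2 := by nlinarith
          have h2 := J_low hx'
          have h3 := log_le_of_pow (x := (n:ℝ) * s + s / 2) (b := 0.43) 6 5 (by norm_num) hx'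
            (by linarith) (by norm_num)
          push_cast at h3
          nlinarith
      have e : (J 0 - 1/4) / s = -(1/4) / s + 11/6 * (n:ℝ) + J (n * s + s / 2) / s
          + (J 0 - (11/6 * (n * s) + J (n * s + s / 2))) / s := by
        field_simp; ring
      rw [e]
      have : 0 ≤ (J 0 - (11/6 * (n * s) + J (n * s + s / 2))) / s := div_nonneg (by linarith) hs.le
      linarith
    · have hn1' : (1:ℝ) ≤ n := by exact_mod_cast hn1
      have hsx : s ≤ n * s := by nlinarith
      have hx' : 0 < (n:ℝ) * s := by nlinarith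
      have h2 := J_low hx'
      have key : 11/6 * ((n:ℝ) * s) + J (n * s) + s / 2 * Real.log 3 ≤ J 0 := by
        rcases le_or_gt ((n:ℝ) * s) 0.25 with h25 | h25
        · have h4 : Real.log ((n:ℝ) * s) ≤ -(5/6) - Real.log 3 / 2 := by
            have h5 : Real.log ((n:ℝ) * s) ≤ Real.log 0.25 := Real.log_le_log hx' h25
            have h6 := log_le_of_pow (x := (27:ℝ) / 4 ^ 6) (b := (27:ℝ) / 4 ^ 6) 1 5 (by norm_num)
              (by norm_num) le_rfl (by norm_num)
            have e1 : Real.log ((27:ℝ) / 4 ^ 6) = 3 * Real.log 3 + 6 * Real.log 0.25 := by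
              have : (27:ℝ) / 4 ^ 6 = 3 ^ 3 * 0.25 ^ 6 := by norm_num
              rw [this, Real.log_mul (by norm_num) (by norm_num), Real.log_pow, Real.log_pow]
              norm_num
            rw [e1] at h6
            push_cast at h6
            linarith
          nlinarith
        · rcases le_or_gt ((n:ℝ) * s) 0.36 with h36 | h36
          · have h3 := log_le_of_pow (x := (n:ℝ) * s) (b := 0.36) 100 102 (by norm_num) hx'
              (by linarith) (by norm_num)
            push_cast at h3
            nlinarith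
          · have h3 := log_le_of_pow (x := (n:ℝ) * s) (b := 0.4) 200 183 (by norm_num) hx'
              (by linarith) (by norm_num)
            push_cast at h3
            nlinarith
      have e : (J 0 - 1/4) / s = -(1/4) / s + 11/6 * (n:ℝ) + J (n * s) / s + 1 / 2 * Real.log 3
          + (J 0 - (11/6 * (n * s) + J (n * s) + s / 2 * Real.log 3)) / s := by
        field_simp; ring
      rw [e]
      have : 0 ≤ (J 0 - (11/6 * (n * s) + J (n * s) + s / 2 * Real.log 3)) / s :=
        div_nonneg (by linarith) hs.le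
      linarith
  · rcases le_or_gt ((n:ℝ) * s) 0.75 with hx7 | hx7
    · have l1 := lsum1 s ψ T hs n k hT
      rw [NC_split]
      have hx' : 0 < (n:ℝ) * s := by linarith
      have r1 : ∑ m ∈ Ioc n (n + k), -Real.log (1 - (-1) ^ m * y s m)
          ≤ J (n * s) / s + 1 / 2 * Real.log 3 := by
        rcases rsum_le s hs n k hnk with ⟨hn, r1⟩ | ⟨hn1, r1⟩
        · have : J (n * s + s / 2) / s ≤ J (n * s) / s :=
            div_le_div_of_nonneg_right (J_anti hx'.le (by linarith)) hs.le
          linarith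
        · exact r1
      have hA : A ((n:ℝ) * s) ≤ 1 := by
        refine (A_anti (by norm_num : (0:ℝ) < 0.4) hx.le).trans ?_
        unfold A
        have h1 : Real.exp (-1) ≤ Real.tanh 0.4 := by
          have e1 := exp_neg_le 1 0.368 8 (by norm_num) (by norm_num [sum_range_succ, Nat.factorial])
          have e2 := exp_neg_le 0.8 0.4494 10 (by norm_num) (by norm_num [sum_range_succ, Nat.factorial])
          refine e1.trans ?_
          rw [Real.tanh_eq_sinh_div_cosh, le_div_iff₀ (Real.cosh_pos _), Real.sinh_eq, Real.cosh_eq]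
          have e3 : Real.exp (-0.4) = Real.exp (-0.8) * Real.exp 0.4 := by
            rw [← Real.exp_add]; norm_num
          rw [e3]
          have := Real.exp_pos 0.4
          nlinarith
        have h2 := Real.log_le_log (Real.exp_pos _) h1
        rw [Real.log_exp] at h2
        linarith
      have h2 := J_conv hx' hx7
      have h3 := J_75
      have key : (n:ℝ) * s + J (n * s) + s / 2 * Real.log 3 ≤ J 0 - 1/4 + 13/24 * s := by nlinarith
      have e : (J 0 - 1/4) / s = (n:ℝ) + J (n * s) / s + 1 / 2 * Real.log 3 - 13/24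
          + (J 0 - 1/4 + 13/24 * s - (n * s + J (n * s) + s / 2 * Real.log 3)) / s := by
        field_simp; ring
      rw [e]
      have : 0 ≤ (J 0 - 1/4 + 13/24 * s - (n * s + J (n * s) + s / 2 * Real.log 3)) / s :=
        div_nonneg (by linarith) hs.le
      linarith
    · have h1 := NC_triv s ψ hs n k
      have h2 : J ((n:ℝ) * s / 2) ≤ J 0.375 := J_anti (by norm_num) (by linarith)
      have h3 := J_375
      have h4 : 2 * J ((n:ℝ) * s / 2) / s ≤ (J 0 - 1/4) / s :=
        div_le_div_of_nonneg_right (by linarith) hs.le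
      linarith

theorem NT (s ψ : ℝ) (hs : 0 < s) (n k : ℕ) (hx : 1.5 ≤ (n:ℝ) * s) : NC s ψ n k ≤ 0.4492 / s := by
  have h1 := NC_triv s ψ hs n k
  have h2 : J ((n:ℝ) * s / 2) ≤ J 0.75 := J_anti (by norm_num) (by linarith)
  have h3 := J_75
  have h4 : 2 * J ((n:ℝ) * s / 2) / s ≤ 0.4492 / s := div_le_div_of_nonneg_right (by linarith) hs.le
  linarith

end MPcf17a0.S1F
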