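import Pool.Agent.Lib.MP_cf17a0_co.Mg.G003

/-! # The common domain of the circle estimates, and the regions

All statements of the circle method for `f_{n,k,a}` are made on `DOM k t`, for odd `a ≥ 3`, even
`n k` and `¬ Small k n a`. `rho` is the modulus ratio, `sig2` the variance. -/

namespace Pool.Agent.SignedQ.An

open Polynomial Finset

/-- The domain of the circle method. -/
def DOM (k : ℕ) (t : ℝ) : Prop :=
  26 ≤ k ∧ 0 < t ∧ t ≤ 31 / 2000 ∧ 4000 * t ≤ k ∧ k * t ≤ 27 / 20 * Real.log k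

/-- The pairs with small `a (n + k) / k`, which are checked by computation. -/
def Small (k n a : ℕ) : Prop :=
  (k < 30 ∧ a * (n + k) < 31 * k) ∨ (k < 60 ∧ a * (n + k) < 20 * k) ∨
    (k < 100 ∧ a * (n + k) < 8 * k) ∨ (k < 200 ∧ a = 3 ∧ 3 * (n + k) < 5 * k) ∨
    (k < 140 ∧ a = 5 ∧ 20 * n < k)

/-- Our parameters. -/
def Par (n k a : ℕ) : Prop := Even (n * k) ∧ Odd a ∧ 3 ≤ a ∧ ¬ Small k n a

theorem Par.lt30 {n k a : ℕ} (h : Par n k a) (hk : k < 30) : 31 * k ≤ a * (n + k) := by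
  by_contra hc
  exact h.2.2.2 (Or.inl ⟨hk, by omega⟩)

theorem Par.lt60 {n k a : ℕ} (h : Par n k a) (hk : k < 60) : 20 * k ≤ a * (n + k) := by
  by_contra hc
  exact h.2.2.2 (Or.inr (Or.inl ⟨hk, by omega⟩))

theorem Par.lt100 {n k a : ℕ} (h : Par n k a) (hk : k < 100) : 8 * k ≤ a * (n + k) := by
  by_contra hc
  exact h.2.2.2 (Or.inr (Or.inr (Or.inl ⟨hk, by omega⟩)))

theorem Par.lt200 {n k a : ℕ} (h : Par n k a) (hk : k < 200) (ha : a = 3) :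
    5 * k ≤ 3 * (n + k) := by
  by_contra hc
  exact h.2.2.2 (Or.inr (Or.inr (Or.inr (Or.inl ⟨hk, ha, by omega⟩))))

theorem Par.lt140 {n k a : ℕ} (h : Par n k a) (hk : k < 140) (ha : a = 5) : k ≤ 20 * n := by
  by_contra hc
  exact h.2.2.2 (Or.inr (Or.inr (Or.inr (Or.inr ⟨hk, ha, by omega⟩))))

/-- The modulus ratio `|f(e^(-t+iθ))| / f(e^(-t))`. -/
noncomputable def rho (n k a : ℕ) (t θ : ℝ) : ℝ := Real.sqrt (GG n k a t θ / GG n k a t 0)

/-- Second derivative of `(1/2) log (fac v t 0)`. -/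
noncomputable def var1 (v : ℕ) (t : ℝ) : ℝ :=
  if Even v then -((v : ℝ) / 2) ^ 2 / Real.sinh (v * t / 2) ^ 2
  else ((v : ℝ) / 2) ^ 2 / Real.cosh (v * t / 2) ^ 2

/-- The variance `σ²(t) = (d/dt) slope n k a t`. -/
noncomputable def sig2 (n k a : ℕ) (t : ℝ) : ℝ :=
  ((k + 1) / 2 : ℕ) * var1 1 t + ∑ v ∈ range k, (var1 (a * (n + v + 1)) t - var1 (v + 1) t)

noncomputable def sigma (n k a : ℕ) (t : ℝ) : ℝ := Real.sqrt (sig2 n k a t)

/-- End of the core region. -/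
noncomputable def th1 (k : ℕ) (t : ℝ) : ℝ := max (1 / k) (3 / 2 * t)

/-- End of the intermediate region. -/
noncomputable def th2 (k : ℕ) (t : ℝ) : ℝ := max (6 / k) (6 * t)

/-- Beginning of the last region. -/
noncomputable def th3 (k : ℕ) : ℝ := Real.pi - 5 / k

/-- The (real) saddle index of `t`: `μ(t) = D/2 - slope(t)`, `D` the degree of `f`. -/
noncomputable def mu (n k a : ℕ) (f : ℚ[X]) (t : ℝ) : ℝ := (f.natDegree : ℝ) / 2 - slope n k a t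

/-- Real part of `f (e^(-t + iθ)) e^(-iμθ)`, `μ` real. -/
noncomputable def reR (f : ℚ[X]) (t μ θ : ℝ) : ℝ :=
  (cev f (pt t θ) * Complex.exp (-((μ * θ : ℝ) : ℂ) * Complex.I)).re

theorem reT_eq_reR (f : ℚ[X]) (t : ℝ) (m : ℕ) (θ : ℝ) : reT f t m θ = reR f t m θ := rfl

/-! ### The parts -/

/-- `f_{n,k,a} ≥ 0`. -/
def Pos (n k a : ℕ) : Prop :=
  ∀ f : ℚ[X], f * poch (-X : ℚ[X]) k = num n k a → ∀ i, 0 ≤ f.coeff i

/-- Nonnegativity for smaller `k` and all `n` (the induction hypothesis). -/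
def PosAll (k a : ℕ) : Prop := ∀ k' < k, 24 ≤ k' → ∀ n : ℕ, Even (n * k') → Pos n k' a

/-- The variance is positive, and bounded as `t → 0` (helper97). -/
def SIG : Prop := (∀ (n k a : ℕ) (t : ℝ), Par n k a → DOM k t → 0 < sig2 n k a t) ∧
  ∀ n k a : ℕ, Par n k a → ∃ C : ℝ, ∀ t : ℝ, DOM k t → sig2 n k a t ≤ C

/-- Location of the saddle point (helper97). -/
def LOC : Prop := ∀ (n k a : ℕ) (t : ℝ) (f : ℚ[X]), Even (n * k) → Odd a → 3 ≤ a → 26 ≤ k →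
  0 < t → f * poch (-X : ℚ[X]) k = num n k a →
  (k ≤ 560 → 2048 ≤ mu n k a f t → DOM k t) ∧
  (560 < k → (k / (2 * Real.log k)) ^ 2 ≤ mu n k a f t → DOM k t) ∧
  (560 < k → mu n k a f t ≤ (k / (2 * Real.log k)) ^ 2 → Real.log k / k ≤ t) ∧
  (560 < k → ((k - 2 : ℕ) / (2 * Real.log (k - 2 : ℕ))) ^ 2 ≤ mu n k a f t → DOM k t)

/-- CORE (helper53): inside minus near tail, at the saddle point. -/
def CORE : Prop := ∀ (n k a : ℕ) (t : ℝ) (f : ℚ[X]), Par n k a → DOM k t →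
  f * poch (-X : ℚ[X]) k = num n k a → PosAll k a →
  (if 500 ≤ k then 0.45 else 0.24) * rev f (Real.exp (-t)) / sigma n k a t ≤
    ∫ θ in (0 : ℝ)..(th1 k t), reR f t (mu n k a f t) θ

/-- CORE', for the growth constant: the total mass of the core region. -/
def CORE' : Prop := ∀ (n k a : ℕ) (t : ℝ), Par n k a → DOM k t → 500 ≤ k →
  sigma n k a t * ∫ θ in (0 : ℝ)..(th1 k t), rho n k a t θ ≤ 2

/-! The outer region; `Q k t` is a restriction of the domain (`k t ≤ 1` or `1 ≤ k t`). -/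

/-- `k t ≤ 1`. -/
def Qlo (k : ℕ) (t : ℝ) : Prop := k * t ≤ 1

/-- `1 ≤ k t`. -/
def Qhi (k : ℕ) (t : ℝ) : Prop := 1 ≤ k * t

/-- The whole outer region. -/
def OUT (Q : ℕ → ℝ → Prop) : Prop := ∀ (n k a : ℕ) (t : ℝ), Par n k a → DOM k t → Q k t →
  sigma n k a t * ∫ θ in (th1 k t)..Real.pi, rho n k a t θ ≤ 0.161

/-- INTER (helper68). -/
def INTER (Q : ℕ → ℝ → Prop) : Prop := ∀ (n k a : ℕ) (t : ℝ), Par n k a → DOM k t → Q k t →
  sigma n k a t * ∫ θ in (th1 k t)..(th2 k t), rho n k a t θ ≤ 0.05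

/-- FAR (helper16): pointwise bound off the neighbourhood of `π/3`. -/
def FAR (Q : ℕ → ℝ → Prop) : Prop := ∀ (n k a : ℕ) (t θ : ℝ), Par n k a → DOM k t → Q k t →
  th2 k t ≤ θ → θ ≤ th3 k → 1 / k ≤ |θ - Real.pi / 3| → sigma n k a t * rho n k a t θ ≤ 0.016

/-- Z3 (helper83): the neighbourhood of `π/3`. -/
def Z3 (Q : ℕ → ℝ → Prop) : Prop := ∀ (n k a : ℕ) (t θ : ℝ), Par n k a → DOM k t → Q k t →
  |θ - Real.pi / 3| ≤ 1 / k → sigma n k a t * rho n k a t θ ≤ k / 40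

/-- PI (helper78). -/
def PI (Q : ℕ → ℝ → Prop) : Prop := ∀ (n k a : ℕ) (t : ℝ), Par n k a → DOM k t → Q k t →
  sigma n k a t * ∫ θ in (th3 k)..Real.pi, rho n k a t θ ≤ 0.01

/-- S (helpers 89, 33). -/
def SMALLK : Prop := ∀ n k a : ℕ, 4 ≤ k → k ≤ 25 → Even (n * k) → Odd a → 3 ≤ a → Pos n k a

/-- FD (helper27). -/
def FD : Prop := ∀ n k a : ℕ, 26 ≤ k → Even (n * k) → Odd a → 3 ≤ a → Small k n a → Pos n k a

/-- EDGE (helper87). -/
def EDGE : Prop := ∀ (n k a : ℕ) (f : ℚ[X]), 26 ≤ k → k ≤ 560 → Even (n * k) → Odd a → 3 ≤ a →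
  f * poch (-X : ℚ[X]) k = num n k a → ∀ m < 2048, 0 ≤ f.coeff m

/-- Growth at the saddle point (output of the circle method). -/
def GROW : Prop := ∀ (n k a : ℕ) (t : ℝ) (m : ℕ) (f : ℚ[X]), Par n k a → DOM k t → 500 ≤ k →
  f * poch (-X : ℚ[X]) k = num n k a → PosAll k a → mu n k a f t = m →
  0 < f.coeff m ∧ ∀ m' : ℕ, 0.13 * ((f.coeff m' : ℝ) * Real.exp (-(t * m'))) ≤
    (f.coeff m : ℝ) * Real.exp (-(t * m))

/-- TAIL (helper37, helper27): the tail lemma. -/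
def TAIL : Prop := LOC → GROW → ∀ k : ℕ, 560 < k →
  (∀ k' < k, 4 ≤ k' → ∀ n a : ℕ, Even (n * k') → Odd a → 3 ≤ a → Pos n k' a) →
  ∀ (n a : ℕ) (f : ℚ[X]), Even (n * k) → Odd a → 3 ≤ a →
  f * poch (-X : ℚ[X]) k = num n k a →
  ∀ m : ℕ, (m : ℝ) ≤ (k / (2 * Real.log k)) ^ 2 → 0 ≤ f.coeff m

end Pool.Agent.SignedQ.An
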