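import Pool.Agent.Lib.MP_cf17a0_co.S1.NearPi
import Pool.Agent.Lib.MP_cf17a0_co.S1.Dom

/-! # The arc near `π`, integrated (helper78) -/

namespace Pool.Agent.SignedQ.An

open Polynomial Finset Real

namespace PIarc

/-- `sech² ≤ w²/sinh² w`. -/
lemma one_sub_le {w : ℝ} (hw : 0 < w) : 1 - w ^ 2 / sinh w ^ 2 ≤ tanh w ^ 2 := by
  have hs : 0 < sinh w := sinh_pos_iff.2 hw
  have hc : 0 < cosh w := cosh_pos w
  have h1 : tanh w ^ 2 = 1 - 1 / cosh w ^ 2 := by
    rw [tanh_eq_sinh_div_cosh, div_pow, eq_sub_iff_add_eq, ← add_div, div_eq_one_iff_eq (by positivity),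
      cosh_sq]
  rw [h1]
  have h2 : 1 / cosh w ^ 2 ≤ w ^ 2 / sinh w ^ 2 := by
    rw [div_le_div_iff₀ (by positivity) (by positivity)]
    have h3 := tanh_le (u := w) hw.le
    rw [div_le_iff₀ hc] at h3
    have h4 : sinh w ^ 2 ≤ (w * cosh w) ^ 2 := pow_le_pow_left₀ hs.le h3 2
    nlinarith
  linarith

lemma tanh_le_of_le {x y : ℝ} (hx : 0 ≤ x) (h : x ≤ y) : tanh x ^ 2 ≤ tanh y ^ 2 := by
  have h1 := tanh_mono_aux h
  rw [← tanh_eq_sinh_div_cosh, ← tanh_eq_sinh_div_cosh] at h1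
  have h2 : 0 ≤ tanh x := by
    rw [tanh_eq_sinh_div_cosh]
    have := cosh_pos x
    have := sinh_nonneg_iff.2 hx
    positivity
  exact pow_le_pow_left₀ h2 h1 2

lemma var1_upper {v : ℕ} (hv : 1 ≤ v) {t : ℝ} (ht : 0 < t) :
    var1 v t ≤ (tanh (v * t / 2) ^ 2 - (if Even v then 1 else 0)) / t ^ 2 := by
  have hv' : (1 : ℝ) ≤ v := by exact_mod_cast hv
  have hw : 0 < (v : ℝ) * t / 2 := by positivity
  have hs : 0 < sinh ((v : ℝ) * t / 2) := sinh_pos_iff.2 hw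
  have hc : 0 < cosh ((v : ℝ) * t / 2) := cosh_pos _
  unfold var1
  split_ifs
  · have h1 := one_sub_le hw
    have e : -((v : ℝ) / 2) ^ 2 / sinh (v * t / 2) ^ 2 =
        (-((v * t / 2) ^ 2 / sinh (v * t / 2) ^ 2)) / t ^ 2 := by
      field_simp
    rw [e]
    apply div_le_div_of_nonneg_right _ (by positivity)
    linarith
  · have e : tanh ((v : ℝ) * t / 2) ^ 2 = sinh (v * t / 2) ^ 2 / cosh (v * t / 2) ^ 2 := by
      rw [tanh_eq_sinh_div_cosh, div_pow]
    rw [sub_zero, e, div_div, div_le_div_iff₀ (by positivity) (by positivity)]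
    have h1 : (v : ℝ) * t / 2 ≤ sinh (v * t / 2) := self_le_sinh_iff.2 hw.le
    have h2 : ((v : ℝ) * t / 2) ^ 2 ≤ sinh (v * t / 2) ^ 2 := pow_le_pow_left₀ hw.le h1 2
    have h3 : ((v : ℝ) / 2) ^ 2 * t ^ 2 ≤ sinh (v * t / 2) ^ 2 := by
      calc ((v : ℝ) / 2) ^ 2 * t ^ 2 = (v * t / 2) ^ 2 := by ring
        _ ≤ _ := h2
    calc ((v : ℝ) / 2) ^ 2 * (cosh (v * t / 2) ^ 2 * t ^ 2)
        = ((v : ℝ) / 2) ^ 2 * t ^ 2 * cosh (v * t / 2) ^ 2 := by ring
      _ ≤ sinh (v * t / 2) ^ 2 * cosh (v * t / 2) ^ 2 :=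
          mul_le_mul_of_nonneg_right h3 (by positivity)

lemma var1_lower {v : ℕ} (hv : 1 ≤ v) {t : ℝ} (ht : 0 < t) :
    -((if Even v then 1 else 0) / t ^ 2) ≤ var1 v t := by
  have hv' : (1 : ℝ) ≤ v := by exact_mod_cast hv
  have hw : 0 < (v : ℝ) * t / 2 := by positivity
  have hs : 0 < sinh ((v : ℝ) * t / 2) := sinh_pos_iff.2 hw
  unfold var1
  split_ifs
  · rw [neg_div, neg_le_neg_iff, div_le_div_iff₀ (by positivity) (by positivity), one_mul]
    have h1 : (v : ℝ) * t / 2 ≤ sinh (v * t / 2) := self_le_sinh_iff.2 hw.le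
    have h2 : ((v : ℝ) * t / 2) ^ 2 ≤ sinh (v * t / 2) ^ 2 := pow_le_pow_left₀ hw.le h1 2
    calc ((v : ℝ) / 2) ^ 2 * t ^ 2 = (v * t / 2) ^ 2 := by ring
      _ ≤ _ := h2
  · rw [zero_div, neg_zero]
    positivity

/-- **Upper bound for `σ²`.** -/
theorem sig2_le {n k a : ℕ} (h : Even (n * k)) (ha : Odd a) {t : ℝ} (ht : 0 < t) :
    sig2 n k a t ≤ (((k + 1) / 2 : ℕ) : ℝ) / 4 + k * tanh ((a * (n + k) : ℕ) * t / 2) ^ 2 / t ^ 2 := by
  have h4 : ∀ m : ℕ, Even (m * k) → ∑ v ∈ range k, ((if Even (m + v + 1) then 1 else 0) / t ^ 2 : ℝ) =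
      ((k / 2 : ℕ) : ℝ) / t ^ 2 := by
    intro m hm
    rw [← sum_div, ← sum_filter, sum_const, nsmul_eq_mul, mul_one]
    have := card_ev hm
    unfold ev at this
    rw [this]
  have hev : ∀ v : ℕ, Even (a * (n + v + 1)) ↔ Even (n + v + 1) := by
    intro v
    rw [Nat.even_mul]
    have := Nat.not_even_iff_odd.2 ha
    tauto
  have h5 : ∀ v ∈ range k, var1 (a * (n + v + 1)) t - var1 (v + 1) t ≤
      tanh ((a * (n + k) : ℕ) * t / 2) ^ 2 / t ^ 2 - (if Even (n + v + 1) then 1 else 0) / t ^ 2 +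
        (if Even (0 + v + 1) then 1 else 0) / t ^ 2 := by
    intro v hv
    have hv' := mem_range.1 hv
    have h1 := var1_upper (v := a * (n + v + 1)) (Nat.mul_pos ha.pos (by omega)) ht
    have h2 := var1_lower (v := v + 1) (by omega) ht
    rw [zero_add]
    have h3 : tanh ((a * (n + v + 1) : ℕ) * t / 2) ^ 2 ≤ tanh ((a * (n + k) : ℕ) * t / 2) ^ 2 := by
      apply tanh_le_of_le (by positivity)
      have : a * (n + v + 1) ≤ a * (n + k) := Nat.mul_le_mul_left a (by omega)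
      have h6 : ((a * (n + v + 1) : ℕ) : ℝ) ≤ ((a * (n + k) : ℕ) : ℝ) := by exact_mod_cast this
      have := mul_le_mul_of_nonneg_right h6 ht.le
      linarith
    have h7 : tanh ((a * (n + v + 1) : ℕ) * t / 2) ^ 2 / t ^ 2 ≤
        tanh ((a * (n + k) : ℕ) * t / 2) ^ 2 / t ^ 2 :=
      div_le_div_of_nonneg_right h3 (by positivity)
    rw [sub_div] at h1
    simp only [hev] at h1
    linarith
  have h6 := sum_le_sum h5
  have e6 : ∑ v ∈ range k, (tanh ((a * (n + k) : ℕ) * t / 2) ^ 2 / t ^ 2 -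
      (if Even (n + v + 1) then 1 else 0) / t ^ 2 + (if Even (0 + v + 1) then 1 else 0) / t ^ 2) =
      (k : ℝ) * (tanh ((a * (n + k) : ℕ) * t / 2) ^ 2 / t ^ 2) -
      ((k / 2 : ℕ) : ℝ) / t ^ 2 + ((k / 2 : ℕ) : ℝ) / t ^ 2 := by
    rw [sum_add_distrib, sum_sub_distrib, h4 n h, h4 0 (by simp), sum_const, card_range,
      nsmul_eq_mul]
  rw [e6] at h6
  have h7 : var1 1 t ≤ 1 / 4 := by
    unfold var1
    rw [if_neg (by decide)]
    have : 1 ≤ cosh (((1 : ℕ) : ℝ) * t / 2) := one_le_cosh _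
    have h8 : (1 : ℝ) ≤ cosh (((1 : ℕ) : ℝ) * t / 2) ^ 2 := by nlinarith
    rw [div_le_iff₀ (by positivity)]
    push_cast at h8 ⊢
    linarith
  unfold sig2
  have h8 : (((k + 1) / 2 : ℕ) : ℝ) * var1 1 t ≤ (((k + 1) / 2 : ℕ) : ℝ) * (1 / 4) :=
    mul_le_mul_of_nonneg_left h7 (Nat.cast_nonneg _)
  calc _ ≤ (((k + 1) / 2 : ℕ) : ℝ) * (1 / 4) + ((k : ℝ) * (tanh ((a * (n + k) : ℕ) * t / 2) ^ 2 / t ^ 2) -
      ((k / 2 : ℕ) : ℝ) / t ^ 2 + ((k / 2 : ℕ) : ℝ) / t ^ 2) := add_le_add h8 h6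
    _ = _ := by ring

/-! ### From pointwise to integrated -/

lemma fac_continuous (v : ℕ) (t : ℝ) : Continuous fun θ => fac v t θ := by
  unfold fac
  split_ifs <;> fun_prop

lemma rho_continuous {n k a : ℕ} {t : ℝ} (ht : 0 < t) :
    Continuous fun θ => rho n k a t θ := by
  unfold rho GG
  apply Continuous.sqrt
  apply Continuous.div_const
  apply Continuous.mul
  · exact (fac_continuous 1 t).pow _
  · apply continuous_finsetProd
    intro v _
    exact (fac_continuous _ t).div (fac_continuous _ t) fun θ => (fac_pos (by omega) ht θ).ne'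

lemma rho_eq {n k a : ℕ} (ha : 1 ≤ a) {f : ℚ[X]} (hf : f * poch (-X : ℚ[X]) k = num n k a)
    {t : ℝ} (ht : 0 < t) (θ : ℝ) :
    rho n k a t θ = ‖cev f (pt t θ)‖ / rev f (Real.exp (-t)) := by
  have h := ratio_sq ha hf ht θ
  have h0 : 0 < rev f (Real.exp (-t)) :=
    rev_pos ha hf (Real.exp_pos _).le (by rw [Real.exp_lt_one_iff]; linarith)
  unfold rho
  rw [← h, Real.sqrt_sq (by positivity)]

lemma integral_weight {lam c : ℝ} (hlam : 0 < lam) :
    ∫ e in (0 : ℝ)..c, 1 / (1 + (e * lam) ^ 2) ≤ π / 2 / lam := by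
  have h1 := intervalIntegral.integral_comp_mul_right (a := 0) (b := c)
    (fun y : ℝ => 1 / (1 + y ^ 2)) hlam.ne'
  rw [h1, integral_one_div_one_add_sq, zero_mul, arctan_zero, sub_zero, smul_eq_mul,
    inv_mul_eq_div]
  exact div_le_div_of_nonneg_right (arctan_lt_pi_div_two _).le hlam.le

lemma T_pos {n k a : ℕ} (ha : 1 ≤ a) (hk : 1 ≤ k) {t : ℝ} (ht : 0 < t) :
    0 < tanh ((a * (n + k) : ℕ) * (t / 2)) := by
  have h : 1 ≤ a * (n + k) := Nat.mul_pos ha (by omega)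
  rw [tanh_eq_sinh_div_cosh]
  exact div_pos (NearPi.sinh_pos_mul ht h) (cosh_pos _)

/-- From the pointwise bound to the integrated bound. -/
lemma integrated {n k a : ℕ} (ha : 1 ≤ a) (hk : 1 ≤ k) {t E D : ℝ} (ht : 0 < t) (hE : 0 ≤ E)
    (hD : 0 < D)
    (hpt : ∀ ε : ℝ, 0 ≤ ε → k * ε ≤ 5 → rho n k a t (π - ε) ≤
      E * (1 / (1 + (ε * tanh ((a * (n + k) : ℕ) * (t / 2)) / (D * t)) ^ 2))) :
    ∫ θ in (th3 k)..π, rho n k a t θ ≤
      E * (π / 2) * (D * t / tanh ((a * (n + k) : ℕ) * (t / 2))) := by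
  have hT := T_pos (n := n) ha hk ht
  obtain ⟨T, hTe⟩ : ∃ T, T = tanh (((a * (n + k) : ℕ) : ℝ) * (t / 2)) := ⟨_, rfl⟩
  rw [← hTe] at hT hpt ⊢
  have hk0 : (0 : ℝ) < k := by exact_mod_cast hk
  have h1 : ∫ θ in (th3 k)..π, rho n k a t θ = ∫ e in (0 : ℝ)..(5 / k), rho n k a t (π - e) := by
    have := intervalIntegral.integral_comp_sub_left (a := 0) (b := 5 / k)
      (fun θ => rho n k a t θ) π
    rw [this, sub_zero]
    rfl
  rw [h1]
  have hlam : 0 < T / (D * t) := by positivity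
  have h2 : ∫ e in (0 : ℝ)..(5 / k), rho n k a t (π - e) ≤
      ∫ e in (0 : ℝ)..(5 / k), E * (1 / (1 + (e * (T / (D * t))) ^ 2)) := by
    apply intervalIntegral.integral_mono_on (by positivity)
    · apply Continuous.intervalIntegrable
      exact (rho_continuous ht).comp (by fun_prop)
    · apply Continuous.intervalIntegrable
      apply Continuous.mul continuous_const
      apply Continuous.div continuous_const (by fun_prop)
      intro x
      positivity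
    · intro e he
      have h3 := hpt e he.1 (by
        have := he.2
        rw [le_div_iff₀ hk0] at this
        linarith)
      rw [show e * (T / (D * t)) = e * T / (D * t) by ring]
      exact h3
  refine h2.trans ?_
  rw [intervalIntegral.integral_const_mul]
  have h4 := mul_le_mul_of_nonneg_left (integral_weight (c := 5 / k) hlam) hE
  refine h4.trans (le_of_eq ?_)
  field_simp

/-- `T/t` is large on the domain. -/
lemma T_lower {n k a : ℕ} (ha : 3 ≤ a) (hk : 26 ≤ k) {t : ℝ} (ht : 0 < t) (ht' : t ≤ 31 / 2000) :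
    1000 * t ^ 2 ≤ tanh ((a * (n + k) : ℕ) * (t / 2)) ^ 2 := by
  have h1 : tanh (39 * t) ^ 2 ≤ tanh ((a * (n + k) : ℕ) * (t / 2)) ^ 2 := by
    apply tanh_le_of_le (by positivity)
    have h : 3 * 26 ≤ a * (n + k) := Nat.mul_le_mul ha (by omega)
    have h2 : (78 : ℝ) ≤ ((a * (n + k) : ℕ) : ℝ) := by exact_mod_cast h
    have := mul_le_mul_of_nonneg_right h2 (show (0 : ℝ) ≤ t / 2 by positivity)
    linarith
  refine le_trans ?_ h1
  have hc : 0 < cosh (39 * t) := cosh_pos _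
  have hs : 39 * t ≤ sinh (39 * t) := self_le_sinh_iff.2 (by positivity)
  have hc1 : cosh (39 * t) ≤ 123 / 100 := by
    have h3 := cosh_le_exp_half_sq (39 * t)
    have h4 : (39 * t) ^ 2 / 2 ≤ 24 / 130 := by nlinarith
    have h5 : Real.exp ((39 * t) ^ 2 / 2) ≤ Real.exp (24 / 130) := Real.exp_le_exp.2 h4
    have h6 : Real.exp (24 / 130) ≤ 123 / 100 := by
      have h7 := Real.add_one_le_exp (-(24 / 130 : ℝ))
      have h8 : Real.exp (-(24 / 130 : ℝ)) * Real.exp (24 / 130) = 1 := by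
        rw [← Real.exp_add]; norm_num
      have h9 := Real.exp_pos (24 / 130 : ℝ)
      nlinarith
    linarith
  rw [tanh_eq_sinh_div_cosh, div_pow, le_div_iff₀ (by positivity)]
  have h5 : (39 * t) ^ 2 ≤ sinh (39 * t) ^ 2 := pow_le_pow_left₀ (by positivity) hs 2
  have h6 : cosh (39 * t) ^ 2 ≤ (123 / 100) ^ 2 := pow_le_pow_left₀ hc.le hc1 2
  have h7 : 1000 * t ^ 2 * cosh (39 * t) ^ 2 ≤ 1000 * t ^ 2 * (123 / 100) ^ 2 :=
    mul_le_mul_of_nonneg_left h6 (by positivity)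
  nlinarith [sq_nonneg t]

/-- `σ ≤ √(1.001 k) T/t`. -/
theorem sigma_le {n k a : ℕ} (h : Even (n * k)) (hao : Odd a) (ha : 3 ≤ a) (hk : 26 ≤ k) {t : ℝ}
    (ht : 0 < t) (ht' : t ≤ 31 / 2000) :
    sigma n k a t ≤ √(1001 / 1000 * k) * (tanh ((a * (n + k) : ℕ) * (t / 2)) / t) := by
  have hT := T_pos (n := n) (k := k) (by omega : 1 ≤ a) (by omega) ht
  have h1 := sig2_le h hao ht
  have h2 := T_lower (n := n) ha hk ht ht'
  rw [show ((a * (n + k) : ℕ) : ℝ) * t / 2 = ((a * (n + k) : ℕ) : ℝ) * (t / 2) by ring] at h1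
  obtain ⟨T, hTe⟩ : ∃ T, T = tanh (((a * (n + k) : ℕ) : ℝ) * (t / 2)) := ⟨_, rfl⟩
  rw [← hTe] at hT h1 h2 ⊢
  have hk0 : (26 : ℝ) ≤ k := by exact_mod_cast hk
  have h3 : (((k + 1) / 2 : ℕ) : ℝ) ≤ (k + 1) / 2 := by
    have : (((k + 1) / 2 : ℕ) : ℝ) ≤ ((k + 1 : ℕ) : ℝ) / ((2 : ℕ) : ℝ) := Nat.cast_div_le
    push_cast at this
    linarith
  have h4 : sig2 n k a t ≤ 1001 / 1000 * k * (T / t) ^ 2 := by
    refine h1.trans ?_
    rw [div_pow, mul_div_assoc]
    have h5 : 1000 ≤ T ^ 2 / t ^ 2 := by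
      rw [le_div_iff₀ (by positivity)]; exact h2
    nlinarith
  unfold sigma
  have h6 : √(1001 / 1000 * k * (T / t) ^ 2) = √(1001 / 1000 * k) * (T / t) := by
    rw [Real.sqrt_mul (by positivity), Real.sqrt_sq (by positivity)]
  rw [← h6]
  exact Real.sqrt_le_sqrt h4

lemma combine {n k a : ℕ} (h : Even (n * k)) (hao : Odd a) (ha : 3 ≤ a) (hk : 26 ≤ k) {t E D : ℝ}
    (ht : 0 < t) (ht' : t ≤ 31 / 2000) (hE : 0 ≤ E) (hD : 0 < D)
    (hpt : ∀ ε : ℝ, 0 ≤ ε → k * ε ≤ 5 → rho n k a t (π - ε) ≤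
      E * (1 / (1 + (ε * tanh ((a * (n + k) : ℕ) * (t / 2)) / (D * t)) ^ 2))) :
    sigma n k a t * ∫ θ in (th3 k)..π, rho n k a t θ ≤ √(1001 / 1000 * k) * (E * (π / 2) * D) := by
  have hT := T_pos (n := n) (k := k) (by omega : 1 ≤ a) (by omega) ht
  have h1 := integrated (by omega) (by omega) ht hE hD hpt
  have h2 := sigma_le (n := n) h hao ha hk ht ht'
  have h3 : 0 ≤ sigma n k a t := Real.sqrt_nonneg _
  obtain ⟨T, hTe⟩ : ∃ T, T = tanh (((a * (n + k) : ℕ) : ℝ) * (t / 2)) := ⟨_, rfl⟩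
  rw [← hTe] at hT h1 h2
  calc sigma n k a t * ∫ θ in (th3 k)..π, rho n k a t θ
      ≤ sigma n k a t * (E * (π / 2) * (D * t / T)) := mul_le_mul_of_nonneg_left h1 h3
    _ ≤ √(1001 / 1000 * k) * (T / t) * (E * (π / 2) * (D * t / T)) :=
        mul_le_mul_of_nonneg_right h2 (by positivity)
    _ = _ := by field_simp

/-! ### The three ranges of `kt` -/

lemma rangeA {n k a : ℕ} (h : Even (n * k)) (hao : Odd a) (ha : 3 ≤ a) (hk : 26 ≤ k) {t : ℝ}
    (ht : 0 < t) (ht' : t ≤ 31 / 2000) (hkt : k * t ≤ 1) :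
    sigma n k a t * ∫ θ in (th3 k)..π, rho n k a t θ ≤ 0.01 := by
  obtain ⟨f, hf'⟩ := den_dvd n k a (by omega)
  have hf : f * poch (-X : ℚ[X]) k = num n k a := by rw [hf', mul_comm]
  have h1 := combine (E := 1 / 2000 * (1 / 5) ^ ((k + 1) / 2 - 12)) (D := 10) h hao ha hk ht ht'
    (by positivity) (by norm_num) (fun ε he hke => by
      rw [rho_eq (by omega) hf ht]
      exact near_pi_one ha hao h (by omega) hf ht hkt he hke)
  refine h1.trans ?_
  have key : ∀ K : ℕ, 13 ≤ K → 1001 / 1000 * (2 * K : ℝ) * (1 / 25) ^ (K - 13) ≤ 1001 / 1000 * 26 := by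
    intro K hK
    induction K, hK using Nat.le_induction with
    | base => norm_num
    | succ K hK ih =>
      rw [show K + 1 - 13 = (K - 13) + 1 by omega, pow_succ]
      have hK' : (13 : ℝ) ≤ K := by exact_mod_cast hK
      have h5 : 0 ≤ (1 / 25 : ℝ) ^ (K - 13) := by positivity
      push_cast
      nlinarith
  obtain ⟨K, hK⟩ : ∃ K, K = (k + 1) / 2 := ⟨_, rfl⟩
  rw [← hK]
  have hK13 : 13 ≤ K := by omega
  have hkK : (k : ℝ) ≤ 2 * K := by
    have : k ≤ 2 * K := by omega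
    exact_mod_cast this
  have h2 : √(1001 / 1000 * k) * (1 / 5) ^ (K - 12) ≤ 103 / 100 := by
    have e1 : (1 / 5 : ℝ) ^ (K - 12) = √((1 / 25) ^ (K - 12)) := by
      rw [show (1 / 25 : ℝ) = (1 / 5) ^ 2 by norm_num, ← pow_mul, mul_comm, pow_mul,
        Real.sqrt_sq (by positivity)]
    rw [e1, ← Real.sqrt_mul (by positivity)]
    apply Real.sqrt_le_iff.2
    refine ⟨by norm_num, ?_⟩
    have h3 := key K hK13
    rw [show K - 12 = (K - 13) + 1 by omega, pow_succ]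
    have h5 : 0 ≤ (1 / 25 : ℝ) ^ (K - 13) := by positivity
    nlinarith
  have hpi := pi_lt_d2
  have e2 : √(1001 / 1000 * k) * (1 / 2000 * (1 / 5) ^ (K - 12) * (π / 2) * 10) =
      (√(1001 / 1000 * k) * (1 / 5) ^ (K - 12)) * (π / 400) := by ring
  rw [e2]
  have h6 : (√(1001 / 1000 * k) * (1 / 5) ^ (K - 12)) * (π / 400) ≤ 103 / 100 * (π / 400) :=
    mul_le_mul_of_nonneg_right h2 (by positivity)
  norm_num at h6 ⊢
  linarith

lemma rangeB {n k a : ℕ} (h : Even (n * k)) (hao : Odd a) (ha : 3 ≤ a) (hk : 59 ≤ k) {t : ℝ}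
    (ht : 0 < t) (ht' : t ≤ 31 / 2000) (hkt : k * t ≤ 4) :
    sigma n k a t * ∫ θ in (th3 k)..π, rho n k a t θ ≤ 0.01 := by
  obtain ⟨f, hf'⟩ := den_dvd n k a (by omega)
  have hf : f * poch (-X : ℚ[X]) k = num n k a := by rw [hf', mul_comm]
  have h1 := combine (E := 1 / 20000 * (27 / 100) ^ ((k + 1) / 2 - 30)) (D := 16) h hao ha
    (by omega) ht ht' (by positivity) (by norm_num) (fun ε he hke => by
      rw [rho_eq (by omega) hf ht]
      exact near_pi_four ha hao h hk hf ht hkt he hke)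
  refine h1.trans ?_
  have key : ∀ K : ℕ, 30 ≤ K → 1001 / 1000 * (2 * K : ℝ) * (729 / 10000) ^ (K - 30) ≤
      1001 / 1000 * 60 := by
    intro K hK
    induction K, hK using Nat.le_induction with
    | base => norm_num
    | succ K hK ih =>
      rw [show K + 1 - 30 = (K - 30) + 1 by omega, pow_succ]
      have hK' : (30 : ℝ) ≤ K := by exact_mod_cast hK
      have h5 : 0 ≤ (729 / 10000 : ℝ) ^ (K - 30) := by positivity
      push_cast
      nlinarith
  obtain ⟨K, hK⟩ : ∃ K, K = (k + 1) / 2 := ⟨_, rfl⟩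
  rw [← hK]
  have hK13 : 30 ≤ K := by omega
  have hkK : (k : ℝ) ≤ 2 * K := by
    have : k ≤ 2 * K := by omega
    exact_mod_cast this
  have h2 : √(1001 / 1000 * k) * (27 / 100) ^ (K - 30) ≤ 776 / 100 := by
    have e1 : (27 / 100 : ℝ) ^ (K - 30) = √((729 / 10000) ^ (K - 30)) := by
      rw [show (729 / 10000 : ℝ) = (27 / 100) ^ 2 by norm_num, ← pow_mul, mul_comm, pow_mul,
        Real.sqrt_sq (by positivity)]
    rw [e1, ← Real.sqrt_mul (by positivity)]
    apply Real.sqrt_le_iff.2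
    refine ⟨by norm_num, ?_⟩
    have h3 := key K hK13
    have h5 : 0 ≤ (729 / 10000 : ℝ) ^ (K - 30) := by positivity
    nlinarith
  have hpi := pi_lt_d2
  have e2 : √(1001 / 1000 * k) * (1 / 20000 * (27 / 100) ^ (K - 30) * (π / 2) * 16) =
      (√(1001 / 1000 * k) * (27 / 100) ^ (K - 30)) * (π / 2500) := by ring
  rw [e2]
  have h6 : (√(1001 / 1000 * k) * (27 / 100) ^ (K - 30)) * (π / 2500) ≤ 776 / 100 * (π / 2500) :=
    mul_le_mul_of_nonneg_right h2 (by positivity)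
  norm_num at h6 ⊢
  linarith

lemma exp_three_le : Real.exp 3 ≤ 202 / 10 := by
  have h := Real.exp_one_lt_d9
  have h1 : Real.exp 3 = Real.exp 1 ^ 3 := by
    rw [← Real.exp_nat_mul]; norm_num
  rw [h1]
  have h2 : Real.exp 1 ^ 3 ≤ (2.7182818286 : ℝ) ^ 3 := pow_le_pow_left₀ (Real.exp_pos _).le h.le 3
  refine h2.trans (by norm_num)

lemma exp_31_le : Real.exp (31 / 10) ≤ 225 / 10 := by
  have h := exp_three_le
  have h1 : Real.exp (31 / 10) = Real.exp 3 * Real.exp (1 / 10) := by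
    rw [← Real.exp_add]; norm_num
  have h2 := Real.add_one_le_exp (-(1 / 10) : ℝ)
  have h3 : Real.exp (-(1 / 10)) * Real.exp (1 / 10) = 1 := by
    rw [← Real.exp_add]; norm_num
  have h4 := Real.exp_pos (1 / 10 : ℝ)
  have h5 : Real.exp (1 / 10) ≤ 10 / 9 := by nlinarith
  rw [h1]
  calc Real.exp 3 * Real.exp (1 / 10) ≤ 202 / 10 * (10 / 9) :=
        mul_le_mul h h5 h4.le (by norm_num)
    _ ≤ 225 / 10 := by norm_num

lemma exp_four_le : Real.exp 4 ≤ 547 / 10 := by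
  have h := Real.exp_one_lt_d9
  have h1 : Real.exp 4 = Real.exp 1 ^ 4 := by
    rw [← Real.exp_nat_mul]; norm_num
  rw [h1]
  have h2 : Real.exp 1 ^ 4 ≤ (2.7182818286 : ℝ) ^ 4 := pow_le_pow_left₀ (Real.exp_pos _).le h.le 4
  refine h2.trans (by norm_num)

lemma cosh_le_of_exp {y B : ℝ} (hy : 0 ≤ y) (h : Real.exp y ≤ B) : cosh y ≤ (B + 1) / 2 := by
  rw [Real.cosh_eq]
  have h1 : Real.exp (-y) ≤ 1 := by
    rw [Real.exp_le_one_iff]; linarith
  linarith

/-- `cosh (kt/2) ≤ 7k/100` for large `kt` on the domain. -/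
lemma cosh_dom {k : ℕ} {t : ℝ} (ht : 0 < t) (ht' : t ≤ 31 / 2000)
    (hlog : k * t ≤ 27 / 20 * Real.log k) (h4 : 4 < k * t) :
    cosh (k * (t / 2)) ≤ 7 / 100 * k := by
  have hk : 259 ≤ k := by
    by_contra hcon
    have h1 : k ≤ 258 := by omega
    have h2 : (k : ℝ) ≤ 258 := by exact_mod_cast h1
    nlinarith
  have hk0 : (259 : ℝ) ≤ k := by exact_mod_cast hk
  have hy : 0 ≤ (k : ℝ) * (t / 2) := by positivity
  rcases le_total k 400 with h400 | h400
  · have h1 : (k : ℝ) ≤ 400 := by exact_mod_cast h400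
    have h2 : (k : ℝ) * (t / 2) ≤ 31 / 10 := by nlinarith
    have h3 := cosh_le_of_exp hy ((Real.exp_le_exp.2 h2).trans exp_31_le)
    linarith
  · have h1 : (400 : ℝ) ≤ k := by exact_mod_cast h400
    rcases le_total k 500 with h500 | h500
    · have h1' : (k : ℝ) ≤ 500 := by exact_mod_cast h500
      have h2 : (k : ℝ) * (t / 2) ≤ 4 := by nlinarith
      have h3 := cosh_le_of_exp hy ((Real.exp_le_exp.2 h2).trans exp_four_le)
      linarith
    · have h1' : (500 : ℝ) ≤ k := by exact_mod_cast h500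
      have hkpos : (0 : ℝ) < k := by linarith
      have h2 : (k : ℝ) * (t / 2) ≤ Real.log k - 13 / 40 * Real.log k := by linarith
      have h3 : Real.log (15 / 2) ≤ 13 / 40 * Real.log k := by
        have h5 : Real.log ((15 / 2) ^ 40) ≤ Real.log (k ^ 13) := by
          apply Real.log_le_log (by positivity)
          calc ((15 / 2 : ℝ)) ^ 40 ≤ 500 ^ 13 := by norm_num
            _ ≤ (k : ℝ) ^ 13 := pow_le_pow_left₀ (by norm_num) h1' 13
        rw [Real.log_pow, Real.log_pow] at h5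
        push_cast at h5
        linarith
      have h6 : Real.exp (k * (t / 2)) ≤ k / (15 / 2) := by
        calc Real.exp (k * (t / 2)) ≤ Real.exp (Real.log k - Real.log (15 / 2)) :=
              Real.exp_le_exp.2 (by linarith)
          _ = k / (15 / 2) := by
              rw [Real.exp_sub, Real.exp_log hkpos, Real.exp_log (by norm_num)]
      have h7 := cosh_le_of_exp hy h6
      linarith

/-- the product for large `k`. -/
noncomputable def AA (K : ℕ) : ℝ := ∏ i ∈ range K, (119 / 200 * (K : ℝ) / (2 * i + 1 : ℕ))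

lemma AA_step (K : ℕ) (hK : 129 ≤ K) :
    AA (K + 1) * (2 * ((K + 1 : ℕ) : ℝ)) ^ 2 ≤ AA K * (2 * (K : ℝ)) ^ 2 := by
  have hK0 : (129 : ℝ) ≤ K := by exact_mod_cast hK
  have hKp : (0 : ℝ) < K := by linarith
  have h1 : AA (K + 1) = (((K : ℝ) + 1) / K) ^ K * AA K *
      (119 / 200 * ((K : ℝ) + 1) / (2 * K + 1)) := by
    unfold AA
    rw [prod_range_succ]
    push_cast
    congr 1
    have h2 : ∀ i ∈ range K, 119 / 200 * ((K : ℝ) + 1) / (2 * i + 1) =
        (((K : ℝ) + 1) / K) * (119 / 200 * (K : ℝ) / (2 * i + 1)) := by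
      intro i _
      field_simp
    rw [prod_congr rfl h2, prod_mul_distrib, prod_const, card_range]
  have h3 : (((K : ℝ) + 1) / K) ^ K ≤ 272 / 100 := by
    have h4 : ((K : ℝ) + 1) / K ≤ Real.exp (1 / K) := by
      have h5 := Real.add_one_le_exp (1 / (K : ℝ))
      have h6 : ((K : ℝ) + 1) / K = 1 / K + 1 := by field_simp; ring
      rw [h6]; exact h5
    calc (((K : ℝ) + 1) / K) ^ K ≤ Real.exp (1 / K) ^ K := pow_le_pow_left₀ (by positivity) h4 K
      _ = Real.exp 1 := by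
          rw [← Real.exp_nat_mul]
          congr 1
          field_simp
      _ ≤ 272 / 100 := by
          have := Real.exp_one_lt_d9
          linarith
  have hA : 0 ≤ AA K := by unfold AA; positivity
  rw [h1]
  have h7 : (((K : ℝ) + 1) / K) ^ K * AA K * (119 / 200 * ((K : ℝ) + 1) / (2 * K + 1)) *
      (2 * ((K + 1 : ℕ) : ℝ)) ^ 2 = (((K : ℝ) + 1) / K) ^ K *
      (AA K * ((119 / 200 * ((K : ℝ) + 1) / (2 * K + 1)) * (2 * ((K : ℝ) + 1)) ^ 2)) := by
    push_cast; ring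
  rw [h7]
  have h8 : 272 / 100 * ((119 / 200 * ((K : ℝ) + 1) / (2 * K + 1)) * (2 * ((K : ℝ) + 1)) ^ 2) ≤
      (2 * (K : ℝ)) ^ 2 := by
    have h9 : 272 / 100 * ((119 / 200 * ((K : ℝ) + 1) / (2 * K + 1)) * (2 * ((K : ℝ) + 1)) ^ 2) =
        (272 / 100 * (119 / 200) * 4 * ((K : ℝ) + 1) ^ 3) / (2 * K + 1) := by
      field_simp
      ring
    rw [h9, div_le_iff₀ (by positivity)]
    nlinarith [sq_nonneg ((K : ℝ) - 129), mul_pos hKp hKp]
  have h10 : 0 ≤ AA K * ((119 / 200 * ((K : ℝ) + 1) / (2 * K + 1)) * (2 * ((K : ℝ) + 1)) ^ 2) := by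
    positivity
  calc (((K : ℝ) + 1) / K) ^ K *
      (AA K * ((119 / 200 * ((K : ℝ) + 1) / (2 * K + 1)) * (2 * ((K : ℝ) + 1)) ^ 2))
      ≤ 272 / 100 * (AA K * ((119 / 200 * ((K : ℝ) + 1) / (2 * K + 1)) *
          (2 * ((K : ℝ) + 1)) ^ 2)) := mul_le_mul_of_nonneg_right h3 h10
    _ = AA K * (272 / 100 * ((119 / 200 * ((K : ℝ) + 1) / (2 * K + 1)) *
          (2 * ((K : ℝ) + 1)) ^ 2)) := by ring
    _ ≤ AA K * (2 * (K : ℝ)) ^ 2 := mul_le_mul_of_nonneg_left h8 hA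

set_option maxRecDepth 10000 in
lemma AA_base : AA 129 * (2 * ((129 : ℕ) : ℝ)) ^ 2 ≤ 1 / 1000 := by
  unfold AA
  rw [prod_div_distrib, prod_const, card_range]
  have h : ∏ i ∈ range 129, ((2 * i + 1 : ℕ) : ℝ) = ((∏ i ∈ range 129, (2 * i + 1) : ℕ) : ℝ) := by
    push_cast; rfl
  rw [h]
  have h2 : (119 / 200 * ((129 : ℕ) : ℝ)) ^ 129 * (2 * ((129 : ℕ) : ℝ)) ^ 2 * 1000 ≤
      ((∏ i ∈ range 129, (2 * i + 1) : ℕ) : ℝ) := by
    have h3 : (119 * 129) ^ 129 * (2 * 129) ^ 2 * 1000 ≤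
        200 ^ 129 * ∏ i ∈ range 129, (2 * i + 1) := by
      decide +kernel
    have h4 : (((119 * 129) ^ 129 * (2 * 129) ^ 2 * 1000 : ℕ) : ℝ) ≤
        ((200 ^ 129 * ∏ i ∈ range 129, (2 * i + 1) : ℕ) : ℝ) := by exact_mod_cast h3
    rw [Nat.cast_mul (200 ^ 129)] at h4
    have h5 : ((200 ^ 129 : ℕ) : ℝ) = 200 ^ 129 := by rw [Nat.cast_pow, Nat.cast_ofNat]
    rw [h5] at h4
    have h6 : (119 / 200 * ((129 : ℕ) : ℝ)) ^ 129 * (2 * ((129 : ℕ) : ℝ)) ^ 2 * 1000 =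
        (((119 * 129) ^ 129 * (2 * 129) ^ 2 * 1000 : ℕ) : ℝ) / 200 ^ 129 := by
      push_cast
      rw [show (119 / 200 * 129 : ℝ) = 119 * 129 / 200 by norm_num, div_pow]
      ring
    rw [h6, div_le_iff₀ (by positivity)]
    linarith
  have hpos : (0 : ℝ) < ((∏ i ∈ range 129, (2 * i + 1) : ℕ) : ℝ) := by
    exact_mod_cast prod_pos fun i _ => by omega
  rw [div_mul_eq_mul_div, div_le_iff₀ hpos]
  linarith

lemma AA_le (K : ℕ) (hK : 129 ≤ K) : AA K * (2 * (K : ℝ)) ^ 2 ≤ 1 / 1000 := by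
  induction K, hK using Nat.le_induction with
  | base => exact AA_base
  | succ K hK ih => exact (AA_step K hK).trans ih

lemma rangeC {n k a : ℕ} (h : Even (n * k)) (hao : Odd a) (ha : 3 ≤ a) {t : ℝ}
    (ht : 0 < t) (ht' : t ≤ 31 / 2000) (hlog : k * t ≤ 27 / 20 * Real.log k) (h4 : 4 < k * t) :
    sigma n k a t * ∫ θ in (th3 k)..π, rho n k a t θ ≤ 0.01 := by
  have hk : 259 ≤ k := by
    by_contra hcon
    have h1 : k ≤ 258 := by omega
    have h2 : (k : ℝ) ≤ 258 := by exact_mod_cast h1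
    nlinarith
  have hk0 : (259 : ℝ) ≤ k := by exact_mod_cast hk
  obtain ⟨f, hf'⟩ := den_dvd n k a (by omega)
  have hf : f * poch (-X : ℚ[X]) k = num n k a := by rw [hf', mul_comm]
  have hc := cosh_dom ht ht' hlog h4
  have hs : sinh (k * (t / 2)) ≤ 7 / 200 * k * (k * (t / 2)) := by
    have h1 := (sinh_lt_cosh (k * (t / 2))).le
    nlinarith
  have h1 := combine (E := ∏ i ∈ range ((k + 1) / 2), (17 / 4 * cosh (k * (t / 2)) / (2 * i + 1 : ℕ)))
    (D := 31 / 100 * k) h hao ha (by omega) ht ht' (by positivity) (by positivity)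
    (fun ε he hke => by
      rw [rho_eq (by omega) hf ht]
      exact near_pi_gen ha hao h (by omega) hf ht he hke hs (by positivity) (by nlinarith))
  refine h1.trans ?_
  obtain ⟨K, hK⟩ : ∃ K, K = (k + 1) / 2 := ⟨_, rfl⟩
  rw [← hK]
  have hK129 : 129 ≤ K := by omega
  have hkK : (k : ℝ) ≤ 2 * K := by
    have : k ≤ 2 * K := by omega
    exact_mod_cast this
  have hE : ∏ i ∈ range K, (17 / 4 * cosh (k * (t / 2)) / (2 * i + 1 : ℕ)) ≤ AA K := by
    unfold AA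
    apply prod_le_prod
    · intro i _; positivity
    · intro i _
      apply div_le_div_of_nonneg_right _ (by positivity)
      nlinarith
  have hA := AA_le K hK129
  have hA0 : 0 ≤ AA K := by unfold AA; positivity
  have hsq : √(1001 / 1000 * k) ≤ k := by
    rw [Real.sqrt_le_left (by positivity)]
    nlinarith
  have hpi := pi_lt_d2
  have h5 : AA K * (k : ℝ) ^ 2 ≤ 1 / 1000 := by
    refine le_trans ?_ hA
    apply mul_le_mul_of_nonneg_left _ hA0
    exact pow_le_pow_left₀ (by positivity) hkK 2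
  calc √(1001 / 1000 * k) * ((∏ i ∈ range K, (17 / 4 * cosh (k * (t / 2)) / (2 * i + 1 : ℕ))) *
      (π / 2) * (31 / 100 * k))
      ≤ k * (AA K * (π / 2) * (31 / 100 * k)) := by
        apply mul_le_mul hsq _ (by positivity) (by positivity)
        apply mul_le_mul_of_nonneg_right _ (by positivity)
        exact mul_le_mul_of_nonneg_right hE (by positivity)
    _ = (AA K * (k : ℝ) ^ 2) * (31 / 100 * (π / 2)) := by ring
    _ ≤ 1 / 1000 * (31 / 100 * (π / 2)) := mul_le_mul_of_nonneg_right h5 (by positivity)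
    _ ≤ 0.01 := by norm_num; linarith

end PIarc

/-- **PI**: the arc `[π - 5/k, π]`. -/
theorem PI_proof (Q : ℕ → ℝ → Prop) : PI Q := by
  intro n k a t hpar hdom _
  obtain ⟨hnk, hao, ha, -⟩ := hpar
  obtain ⟨hk, ht, ht', -, hlog⟩ := hdom
  rcases le_or_gt ((k : ℝ) * t) 1 with h1 | h1
  · exact PIarc.rangeA hnk hao ha hk ht ht' h1
  · rcases le_or_gt ((k : ℝ) * t) 4 with h4 | h4
    · have hk67 : 59 ≤ k := by
        by_contra hcon
        have h2 : k ≤ 58 := by omega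
        have h3 : (k : ℝ) ≤ 58 := by exact_mod_cast h2
        nlinarith
      exact PIarc.rangeB hnk hao ha hk67 ht ht' h4
    · exact PIarc.rangeC hnk hao ha ht ht' hlog h4

end Pool.Agent.SignedQ.An

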