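import Pool.Agent.Lib.MP_cf17a0_co.S1.Dom

/-! # Assembly, first part: from the regions to the coefficient -/

namespace Pool.Agent.SignedQ.An

open Polynomial Finset MeasureTheory

theorem rho_eq {n k a : ℕ} (ha : 1 ≤ a) {f : ℚ[X]} (hf : f * poch (-X : ℚ[X]) k = num n k a)
    {t : ℝ} (ht : 0 < t) (θ : ℝ) :
    rho n k a t θ = ‖cev f (pt t θ)‖ / rev f (Real.exp (-t)) := by
  have hF : 0 < rev f (Real.exp (-t)) :=
    rev_pos ha hf (Real.exp_pos _).le (by rw [Real.exp_lt_one_iff]; linarith)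
  unfold rho
  rw [← ratio_sq ha hf ht θ, Real.sqrt_sq (by positivity)]

theorem pt_continuous (t : ℝ) : Continuous (pt t) := by
  unfold pt
  fun_prop

theorem cev_continuous (f : ℚ[X]) : Continuous (cev f) := by
  have : cev f = fun z => ∑ j ∈ Finset.range (f.natDegree + 1), (f.coeff j : ℂ) * z ^ j :=
    funext fun z => cev_eq_sum f z
  rw [this]
  fun_prop

theorem rho_continuous {n k a : ℕ} (ha : 1 ≤ a) {t : ℝ} (ht : 0 < t) :
    Continuous (rho n k a t) := by
  obtain ⟨f, hf'⟩ := den_dvd n k a ha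
  have hf : f * poch (-X : ℚ[X]) k = num n k a := by rw [hf', mul_comm]
  have : rho n k a t = fun θ => ‖cev f (pt t θ)‖ / rev f (Real.exp (-t)) :=
    funext fun θ => rho_eq ha hf ht θ
  rw [this]
  exact ((cev_continuous f).comp (pt_continuous t)).norm.div_const _

theorem reR_continuous (f : ℚ[X]) (t μ : ℝ) : Continuous (reR f t μ) := by
  unfold reR
  refine Complex.continuous_re.comp ?_
  refine ((cev_continuous f).comp (pt_continuous t)).mul ?_
  fun_prop

theorem rho_nonneg (n k a : ℕ) (t θ : ℝ) : 0 ≤ rho n k a t θ := Real.sqrt_nonneg _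

theorem abs_reR_le (f : ℚ[X]) (t μ θ : ℝ) : |reR f t μ θ| ≤ ‖cev f (pt t θ)‖ := by
  unfold reR
  refine (Complex.abs_re_le_norm _).trans ?_
  rw [norm_mul]
  have : ‖Complex.exp (-((μ * θ : ℝ) : ℂ) * Complex.I)‖ = 1 := by
    rw [← Complex.ofReal_neg]
    exact Complex.norm_exp_ofReal_mul_I _
  rw [this, mul_one]

theorem abs_reR_le' {n k a : ℕ} (ha : 1 ≤ a) {f : ℚ[X]}
    (hf : f * poch (-X : ℚ[X]) k = num n k a) {t : ℝ} (ht : 0 < t) (μ θ : ℝ) :
    |reR f t μ θ| ≤ rev f (Real.exp (-t)) * rho n k a t θ := by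
  have hF : 0 < rev f (Real.exp (-t)) :=
    rev_pos ha hf (Real.exp_pos _).le (by rw [Real.exp_lt_one_iff]; linarith)
  rw [rho_eq ha hf ht, mul_div_cancel₀ _ hF.ne']
  exact abs_reR_le f t μ θ

/-- The order of the cut points. -/
theorem cuts {k : ℕ} {t : ℝ} (h : DOM k t) : 0 ≤ th1 k t ∧ th1 k t ≤ th2 k t ∧
    th2 k t ≤ Real.pi / 3 - 1 / k ∧ 0 < 1 / (k : ℝ) ∧
    Real.pi / 3 + 1 / k ≤ th3 k ∧ th3 k ≤ Real.pi := by
  obtain ⟨hk, ht, ht1, _, _⟩ := h
  have hk' : (26 : ℝ) ≤ k := by exact_mod_cast hk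
  have hk0 : (0 : ℝ) < k := by linarith
  have hi : (1 : ℝ) / k ≤ 1 / 26 := one_div_le_one_div_of_le (by norm_num) hk'
  have hi0 : (0 : ℝ) < 1 / k := by positivity
  have h6 : (6 : ℝ) / k = 6 * (1 / k) := by ring
  have h5 : (5 : ℝ) / k = 5 * (1 / k) := by ring
  have hpi := Real.pi_gt_three
  unfold th1 th2 th3
  rw [h6, h5]
  refine ⟨?_, ?_, ?_, by linarith, by linarith, by linarith⟩
  · exact le_max_of_le_left hi0.le
  · exact max_le_max (by linarith) (by linarith)
  · refine max_le ?_ ?_ <;> linarith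

/-- All parts of the circle method. -/
structure Parts : Prop where
  sig : SIG
  core : CORE
  core' : CORE'
  lo : OUT Qlo
  hi : OUT Qhi

/-- The outer region from its four parts. -/
theorem out_of_parts {Q : ℕ → ℝ → Prop} (hinter : INTER Q) (hfar : FAR Q) (hz3 : Z3 Q)
    (hPI : PI Q) : OUT Q := by
  intro n k a t hp hd hQ
  have ha : 1 ≤ a := by have := hp.2.2.1; omega
  have ht : 0 < t := hd.2.1
  obtain ⟨c0, c1, c2, c3, c4, c5⟩ := cuts hd
  set σ := sigma n k a t with hσ
  have hσ0 : 0 ≤ σ := Real.sqrt_nonneg _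
  have hi : ∀ a' b' : ℝ, IntervalIntegrable (rho n k a t) volume a' b' := fun a' b' =>
    (rho_continuous ha ht).intervalIntegrable a' b'
  set A := Real.pi / 3 - 1 / k with hA
  set B := Real.pi / 3 + 1 / k with hB
  have e1 := intervalIntegral.integral_add_adjacent_intervals (hi (th1 k t) (th2 k t))
    (hi (th2 k t) A)
  have e2 := intervalIntegral.integral_add_adjacent_intervals (hi (th1 k t) A) (hi A B)
  have e3 := intervalIntegral.integral_add_adjacent_intervals (hi (th1 k t) B) (hi B (th3 k))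
  have e4 := intervalIntegral.integral_add_adjacent_intervals (hi (th1 k t) (th3 k))
    (hi (th3 k) Real.pi)
  have i1 := hinter n k a t hp hd hQ
  have i5 := hPI n k a t hp hd hQ
  have hAB : A ≤ B := by rw [hA, hB]; linarith
  have i2 : σ * ∫ θ in (th2 k t)..A, rho n k a t θ ≤ 0.016 * (A - th2 k t) := by
    rw [← intervalIntegral.integral_const_mul]
    have : ∫ θ in (th2 k t)..A, σ * rho n k a t θ ≤ ∫ θ in (th2 k t)..A, (0.016 : ℝ) := by
      refine intervalIntegral.integral_mono_on c2 ((hi _ _).const_mul _) (by simp) fun θ hθ => ?_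
      refine hfar n k a t θ hp hd hQ hθ.1 (hθ.2.trans (hAB.trans c4)) ?_
      have : θ - Real.pi / 3 ≤ -(1 / (k : ℝ)) := by have := hθ.2; rw [hA] at this; linarith
      rw [abs_of_nonpos (by linarith)]
      linarith
    refine this.trans (le_of_eq ?_)
    rw [intervalIntegral.integral_const, smul_eq_mul, mul_comm]
  have i3 : σ * ∫ θ in A..B, rho n k a t θ ≤ 0.05 := by
    rw [← intervalIntegral.integral_const_mul]
    have : ∫ θ in A..B, σ * rho n k a t θ ≤ ∫ θ in A..B, ((k : ℝ) / 40) := by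
      refine intervalIntegral.integral_mono_on hAB ((hi _ _).const_mul _) (by simp) fun θ hθ => ?_
      refine hz3 n k a t θ hp hd hQ ?_
      rw [abs_le]
      have h1 := hθ.1
      have h2 := hθ.2
      rw [hA] at h1
      rw [hB] at h2
      constructor <;> linarith
    refine this.trans (le_of_eq ?_)
    rw [intervalIntegral.integral_const, smul_eq_mul, hA, hB]
    have hk : (0 : ℝ) < k := by have := hd.1; exact_mod_cast (by omega : 0 < k)
    field_simp
    norm_num
  have i4 : σ * ∫ θ in B..(th3 k), rho n k a t θ ≤ 0.016 * (th3 k - B) := by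
    rw [← intervalIntegral.integral_const_mul]
    have : ∫ θ in B..(th3 k), σ * rho n k a t θ ≤ ∫ θ in B..(th3 k), (0.016 : ℝ) := by
      refine intervalIntegral.integral_mono_on c4 ((hi _ _).const_mul _) (by simp) fun θ hθ => ?_
      refine hfar n k a t θ hp hd hQ ((c2.trans hAB).trans hθ.1) hθ.2 ?_
      have : 1 / (k : ℝ) ≤ θ - Real.pi / 3 := by have := hθ.1; rw [hB] at this; linarith
      rw [abs_of_nonneg (by linarith)]
      exact this
    refine this.trans (le_of_eq ?_)
    rw [intervalIntegral.integral_const, smul_eq_mul, mul_comm]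
  have hpi := Real.pi_lt_d2
  have : ∫ θ in (th1 k t)..Real.pi, rho n k a t θ =
      (∫ θ in (th1 k t)..(th2 k t), rho n k a t θ) + (∫ θ in (th2 k t)..A, rho n k a t θ) +
      (∫ θ in A..B, rho n k a t θ) + (∫ θ in B..(th3 k), rho n k a t θ) +
      ∫ θ in (th3 k)..Real.pi, rho n k a t θ := by
    rw [← e4, ← e3, ← e2, ← e1]
  rw [this]
  have hth2 : 0 ≤ th2 k t := c0.trans c1
  have : 0.016 * (A - th2 k t) + 0.016 * (th3 k - B) ≤ 0.0505 := by
    have h1 : th3 k ≤ Real.pi := c5
    nlinarith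
  nlinarith

theorem outer (P : Parts) {n k a : ℕ} {t : ℝ} (hp : Par n k a) (hd : DOM k t) :
    sigma n k a t * ∫ θ in (th1 k t)..Real.pi, rho n k a t θ ≤ 0.161 := by
  rcases le_total ((k : ℝ) * t) 1 with h | h
  · exact P.lo n k a t hp hd h
  · exact P.hi n k a t hp hd h

/-- The lower bound for the real part at the real saddle index. -/
theorem lower (P : Parts) {n k a : ℕ} {t : ℝ} (hp : Par n k a) (hd : DOM k t) {f : ℚ[X]}
    (hf : f * poch (-X : ℚ[X]) k = num n k a) (hpos : PosAll k a) :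
    ((if 500 ≤ k then 0.45 else 0.24) - 0.161) * (rev f (Real.exp (-t)) / sigma n k a t) ≤
      ∫ θ in (0 : ℝ)..Real.pi, reR f t (mu n k a f t) θ := by
  have ha : 1 ≤ a := by have := hp.2.2.1; omega
  have ht : 0 < t := hd.2.1
  have hF : 0 < rev f (Real.exp (-t)) :=
    rev_pos ha hf (Real.exp_pos _).le (by rw [Real.exp_lt_one_iff]; linarith)
  have hσ : 0 < sigma n k a t := Real.sqrt_pos.2 (P.sig.1 n k a t hp hd)
  obtain ⟨c0, c1, c2, c3, c4, c5⟩ := cuts hd
  have c6 : th1 k t ≤ Real.pi := by linarith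
  have hi : ∀ a' b' : ℝ, IntervalIntegrable (rho n k a t) volume a' b' := fun a' b' =>
    (rho_continuous ha ht).intervalIntegrable a' b'
  have hj : ∀ a' b' : ℝ, IntervalIntegrable (reR f t (mu n k a f t)) volume a' b' := fun a' b' =>
    (reR_continuous f t _).intervalIntegrable a' b'
  have h1 := P.core n k a t f hp hd hf hpos
  have h2 := outer P hp hd
  have h3 : - (rev f (Real.exp (-t)) * ∫ θ in (th1 k t)..Real.pi, rho n k a t θ) ≤
      ∫ θ in (th1 k t)..Real.pi, reR f t (mu n k a f t) θ := by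
    rw [← intervalIntegral.integral_const_mul, ← intervalIntegral.integral_neg]
    refine intervalIntegral.integral_mono_on c6 ((hi _ _).const_mul _).neg (hj _ _) fun θ _ => ?_
    have := abs_reR_le' ha hf ht (mu n k a f t) θ
    exact (abs_le.1 this).1
  rw [← intervalIntegral.integral_add_adjacent_intervals (hj 0 (th1 k t)) (hj (th1 k t) Real.pi)]
  have h4 : rev f (Real.exp (-t)) * ∫ θ in (th1 k t)..Real.pi, rho n k a t θ ≤
      0.161 * (rev f (Real.exp (-t)) / sigma n k a t) := by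
    have : ∫ θ in (th1 k t)..Real.pi, rho n k a t θ ≤ 0.161 / sigma n k a t := by
      rw [le_div_iff₀ hσ, mul_comm]; exact h2
    calc _ ≤ rev f (Real.exp (-t)) * (0.161 / sigma n k a t) :=
          mul_le_mul_of_nonneg_left this hF.le
      _ = _ := by ring
  have h5 : (if 500 ≤ k then (0.45 : ℝ) else 0.24) * rev f (Real.exp (-t)) / sigma n k a t =
      (if 500 ≤ k then (0.45 : ℝ) else 0.24) * (rev f (Real.exp (-t)) / sigma n k a t) := by ring
  rw [h5] at h1
  linarith

/-- The output of the circle method for the coefficient with saddle point `t`. -/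
theorem coeff_pos (P : Parts) {n k a : ℕ} {t : ℝ} (hp : Par n k a) (hd : DOM k t) {f : ℚ[X]}
    (hf : f * poch (-X : ℚ[X]) k = num n k a) (hpos : PosAll k a) {m : ℕ}
    (hm : mu n k a f t = m) : 0 < f.coeff m := by
  have ha : 1 ≤ a := by have := hp.2.2.1; omega
  have ht : 0 < t := hd.2.1
  have hF : 0 < rev f (Real.exp (-t)) :=
    rev_pos ha hf (Real.exp_pos _).le (by rw [Real.exp_lt_one_iff]; linarith)
  have hσ : 0 < sigma n k a t := Real.sqrt_pos.2 (P.sig.1 n k a t hp hd)
  have h1 := lower P hp hd hf hpos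
  rw [hm] at h1
  have h2 := coeff_eq_integral f t m
  have h3 : ∫ θ in (0 : ℝ)..Real.pi, reR f t m θ = ∫ θ in (0 : ℝ)..Real.pi, reT f t m θ := rfl
  rw [h3, h2] at h1
  have h4 : 0 < ((if 500 ≤ k then (0.45 : ℝ) else 0.24) - 0.161) *
      (rev f (Real.exp (-t)) / sigma n k a t) := by
    refine mul_pos ?_ (div_pos hF hσ)
    split <;> norm_num
  have h5 : 0 < Real.pi * (f.coeff m : ℝ) * Real.exp (-(t * m)) := h4.trans_le h1
  have h6 : 0 < Real.pi * (f.coeff m : ℝ) := (pos_iff_pos_of_mul_pos h5).2 (Real.exp_pos _)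
  have h7 : (0 : ℝ) < (f.coeff m : ℝ) := (pos_iff_pos_of_mul_pos h6).1 Real.pi_pos
  exact_mod_cast h7

theorem grow (P : Parts) : GROW := by
  intro n k a t m f hp hd hk hf hpos hm
  refine ⟨coeff_pos P hp hd hf hpos hm, fun m' => ?_⟩
  have ha : 1 ≤ a := by have := hp.2.2.1; omega
  have ht : 0 < t := hd.2.1
  have hF : 0 < rev f (Real.exp (-t)) :=
    rev_pos ha hf (Real.exp_pos _).le (by rw [Real.exp_lt_one_iff]; linarith)
  have hσ : 0 < sigma n k a t := Real.sqrt_pos.2 (P.sig.1 n k a t hp hd)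
  obtain ⟨c0, c1, c2, c3, c4, c5⟩ := cuts hd
  have hi : ∀ a' b' : ℝ, IntervalIntegrable (rho n k a t) volume a' b' := fun a' b' =>
    (rho_continuous ha ht).intervalIntegrable a' b'
  have h1 := lower P hp hd hf hpos
  rw [hm, if_pos hk] at h1
  have h3 : ∫ θ in (0 : ℝ)..Real.pi, reR f t m θ = ∫ θ in (0 : ℝ)..Real.pi, reT f t m θ := rfl
  rw [h3, coeff_eq_integral] at h1
  -- the upper bound for `m'`
  have h4 : Real.pi * (f.coeff m' : ℝ) * Real.exp (-(t * m')) ≤
      rev f (Real.exp (-t)) * ∫ θ in (0 : ℝ)..Real.pi, rho n k a t θ := by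
    rw [← coeff_eq_integral, ← intervalIntegral.integral_const_mul]
    refine intervalIntegral.integral_mono_on Real.pi_pos.le
      ((reT_continuous f t m').intervalIntegrable _ _) ((hi _ _).const_mul _) fun θ _ => ?_
    exact (abs_le.1 (abs_reR_le' ha hf ht m' θ)).2
  have h5 : ∫ θ in (0 : ℝ)..Real.pi, rho n k a t θ ≤ 2.161 / sigma n k a t := by
    rw [le_div_iff₀ hσ, mul_comm,
      ← intervalIntegral.integral_add_adjacent_intervals (hi 0 (th1 k t)) (hi (th1 k t) Real.pi),
      mul_add]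
    have := outer P hp hd
    have := P.core' n k a t hp hd hk
    linarith
  set Q := rev f (Real.exp (-t)) / sigma n k a t with hQ
  have hQ0 : 0 < Q := div_pos hF hσ
  have h6 : Real.pi * ((f.coeff m' : ℝ) * Real.exp (-(t * m'))) ≤ 2.161 * Q := by
    calc _ = Real.pi * (f.coeff m' : ℝ) * Real.exp (-(t * m')) := by ring
      _ ≤ _ := h4
      _ ≤ rev f (Real.exp (-t)) * (2.161 / sigma n k a t) := mul_le_mul_of_nonneg_left h5 hF.le
      _ = _ := by rw [hQ]; ring
  have h7 : 0.289 * Q ≤ Real.pi * ((f.coeff m : ℝ) * Real.exp (-(t * m))) := by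
    calc _ = (0.45 - 0.161) * Q := by ring
      _ ≤ _ := h1
      _ = _ := by ring
  have hpi := Real.pi_pos
  have h8 : 0.13 * (Real.pi * ((f.coeff m' : ℝ) * Real.exp (-(t * m')))) ≤
      Real.pi * ((f.coeff m : ℝ) * Real.exp (-(t * m))) := by
    nlinarith
  have h9 : Real.pi * (0.13 * ((f.coeff m' : ℝ) * Real.exp (-(t * m')))) ≤
      Real.pi * ((f.coeff m : ℝ) * Real.exp (-(t * m))) := by linarith
  exact le_of_mul_le_mul_left h9 hpi

end Pool.Agent.SignedQ.An
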