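import Pool.Agent.Lib.MP_cf17a0_co.Mg.G050

/-!
# The modular tool, part F: exact formula for the tail of the product, the lower bound at `x = - r`
-/

set_option autoImplicit false

namespace Pool.Agent.Lib.MP_cf17a0_co.S1

open Complex Filter
open scoped Real Topology

/-- the term `x ^ (l (k + 1)) / (l (1 - x ^ l))` (index shifted by one) -/
noncomputable def skTerm (x : ℂ) (k l : ℕ) : ℂ :=
  x ^ ((l + 1) * (k + 1)) / (((l : ℂ) + 1) * (1 - x ^ (l + 1)))

/-- `- log` of the tail `∏_{j > k} (1 - x ^ j)` -/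
noncomputable def Sk (x : ℂ) (k : ℕ) : ℂ := ∑' l : ℕ, skTerm x k l

theorem norm_skTerm (x : ℂ) (k l : ℕ) : ‖skTerm x k l‖ =
    ‖x‖ ^ ((l + 1) * (k + 1)) / (((l : ℝ) + 1) * ‖1 - x ^ (l + 1)‖) := by
  unfold skTerm
  have h10 : ‖((l : ℂ) + 1)‖ = (l : ℝ) + 1 := by
    have : ((l : ℂ) + 1) = (((l : ℝ) + 1 : ℝ) : ℂ) := by push_cast; ring
    rw [this, Complex.norm_real, Real.norm_of_nonneg (by positivity)]
  rw [norm_div, norm_mul, h10, norm_pow]

theorem summable_skTerm {x : ℂ} (hx : ‖x‖ < 1) (k : ℕ) : Summable (skTerm x k) := by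
  refine Summable.of_norm ?_
  simp_rw [norm_skTerm]
  exact summable_finExp hx k

theorem norm_Sk_le {x : ℂ} (hx : ‖x‖ < 1) (k : ℕ) : ‖Sk x k‖ ≤ finExp x k := by
  unfold Sk finExp
  refine tsum_of_norm_bounded (summable_finExp hx k).hasSum fun l => ?_
  rw [norm_skTerm]

theorem finExp_le {x : ℂ} (hx : ‖x‖ < 1) (k : ℕ) :
    finExp x k ≤ ‖x‖ ^ (k + 1) / ((1 - ‖x‖) * (1 - ‖x‖)) := by
  have hs1 := summable_finExp hx k
  have hs2 := summable_geo hx k
  have h1 : finExp x k ≤ ∑' l : ℕ, (‖x‖ ^ (k + 1)) ^ (l + 1) / (1 - ‖x‖) :=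
    hs1.tsum_le_tsum (fun l => finExp_term_le hx k l) hs2
  refine h1.trans ?_
  have hr : ‖x‖ ^ (k + 1) ≤ ‖x‖ := by
    rw [pow_succ]
    exact mul_le_of_le_one_left (norm_nonneg _) (pow_le_one₀ (norm_nonneg _) hx.le)
  have hr0 : 0 ≤ ‖x‖ ^ (k + 1) := by positivity
  have hx1 : 0 < 1 - ‖x‖ := by linarith
  have h14 : ∑' l : ℕ, (‖x‖ ^ (k + 1)) ^ (l + 1) / (1 - ‖x‖) =
      ‖x‖ ^ (k + 1) / (1 - ‖x‖ ^ (k + 1)) / (1 - ‖x‖) := by
    rw [tsum_div_const]
    congr 1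
    have h15 : ∀ l : ℕ, (‖x‖ ^ (k + 1)) ^ (l + 1) =
        ‖x‖ ^ (k + 1) * (‖x‖ ^ (k + 1)) ^ l := fun l => by ring
    simp_rw [h15]
    rw [tsum_mul_left, tsum_geometric_of_lt_one hr0 (lt_of_le_of_lt hr hx)]
    rfl
  rw [h14, div_div]
  exact div_le_div_of_nonneg_left hr0 (by positivity)
    (mul_le_mul_of_nonneg_right (by linarith) hx1.le)

/-- the finite product between `k` and `k + m` -/
theorem prod_eq_exp {x : ℂ} (hx : ‖x‖ < 1) (k m : ℕ) :
    ∏ j ∈ Finset.range m, (1 - x ^ (k + j + 1)) = Complex.exp (-(Sk x k - Sk x (k + m))) := by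
  have hxp : ∀ n : ℕ, ‖x ^ (n + 1)‖ < 1 := fun n => by
    rw [norm_pow]
    exact pow_lt_one₀ (norm_nonneg _) hx (by omega)
  have hne : ∀ n : ℕ, (1 - x ^ (n + 1)) ≠ 0 := fun n h => by
    have h1 : x ^ (n + 1) = 1 := (sub_eq_zero.1 h).symm
    have := hxp n
    rw [h1, norm_one] at this
    exact lt_irrefl _ this
  have h1 : ∏ j ∈ Finset.range m, (1 - x ^ (k + j + 1)) =
      Complex.exp (∑ j ∈ Finset.range m, Complex.log (1 - x ^ (k + j + 1))) := by
    rw [Complex.exp_sum]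
    exact Finset.prod_congr rfl fun j _ => (Complex.exp_log (hne (k + j))).symm
  have h2 : HasSum (fun l : ℕ => ∑ j ∈ Finset.range m, (x ^ (k + j + 1)) ^ (l + 1) / ((l : ℂ) + 1))
      (∑ j ∈ Finset.range m, -Complex.log (1 - x ^ (k + j + 1))) :=
    hasSum_sum fun j _ => neg_log_one_sub (hxp (k + j))
  have h3 : ∀ l : ℕ, ∑ j ∈ Finset.range m, (x ^ (k + j + 1)) ^ (l + 1) / ((l : ℂ) + 1) =
      skTerm x k l - skTerm x (k + m) l := by
    intro l
    unfold skTerm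
    have h4 : ∑ j ∈ Finset.range m, (x ^ (k + j + 1)) ^ (l + 1) =
        x ^ ((l + 1) * (k + 1)) * ∑ j ∈ Finset.range m, (x ^ (l + 1)) ^ j := by
      rw [Finset.mul_sum]
      refine Finset.sum_congr rfl fun j _ => ?_
      rw [← pow_mul, ← pow_mul, ← pow_add]
      congr 1
      ring
    have h5 : (∑ j ∈ Finset.range m, (x ^ (l + 1)) ^ j) * (1 - x ^ (l + 1)) =
        1 - (x ^ (l + 1)) ^ m := geom_sum_mul_neg _ _
    have h6 : x ^ ((l + 1) * (k + m + 1)) = x ^ ((l + 1) * (k + 1)) * (x ^ (l + 1)) ^ m := by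
      rw [← pow_mul, ← pow_add]
      congr 1
      ring
    have h7 : ((l : ℂ) + 1) ≠ 0 := by exact_mod_cast Nat.succ_ne_zero l
    rw [← Finset.sum_div, h4, h6, ← sub_div, div_eq_div_iff h7 (mul_ne_zero h7 (hne l))]
    linear_combination (x ^ ((l + 1) * (k + 1)) * ((l : ℂ) + 1)) * h5
  simp_rw [h3] at h2
  have h4 := h2.unique ((summable_skTerm hx k).hasSum.sub (summable_skTerm hx (k + m)).hasSum)
  rw [h1]
  congr 1
  rw [Finset.sum_neg_distrib] at h4
  unfold Sk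
  rw [← h4, neg_neg]

/-- the exact formula -/
theorem Pinf_eq {x : ℂ} (hx : ‖x‖ < 1) (k : ℕ) : Pinf x = Pfin x k * Complex.exp (-Sk x k) := by
  have hT := tendsto_Pinf hx
  have hT2 := hT.comp (tendsto_add_atTop_nat k)
  have h1 : ∀ m : ℕ, ∏ n ∈ Finset.range (m + k), (1 - x ^ (n + 1)) =
      Pfin x k * Complex.exp (-(Sk x k - Sk x (k + m))) := by
    intro m
    rw [add_comm m k, Finset.prod_range_add, ← prod_eq_exp hx k m]
    rfl
  have h0 : Tendsto (fun m : ℕ => Sk x (k + m)) atTop (𝓝 0) := by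
    have h3 : Tendsto (fun m : ℕ => ‖x‖ ^ (m + (k + 1)) / ((1 - ‖x‖) * (1 - ‖x‖))) atTop (𝓝 0) := by
      have h4 := ((tendsto_pow_atTop_nhds_zero_of_lt_one (norm_nonneg x) hx).comp
        (tendsto_add_atTop_nat (k + 1))).div_const ((1 - ‖x‖) * (1 - ‖x‖))
      rw [zero_div] at h4
      exact h4
    refine squeeze_zero_norm (fun m => ?_) h3
    refine (norm_Sk_le hx (k + m)).trans ((finExp_le hx (k + m)).trans (le_of_eq ?_))
    congr 2
    ring
  have h2 : Tendsto (fun m : ℕ => Pfin x k * Complex.exp (-(Sk x k - Sk x (k + m)))) atTop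
      (𝓝 (Pfin x k * Complex.exp (-(Sk x k - 0)))) :=
    Tendsto.const_mul _ ((Complex.continuous_exp.tendsto _).comp (h0.const_sub _).neg)
  rw [sub_zero] at h2
  refine tendsto_nhds_unique hT2 (h2.congr fun m => ?_)
  exact (h1 m).symm

/-- the correction at `x = - r`: `∑_{l ≥ 1} r ^ (2 l (k + 1)) / (2 l (1 - r ^ (2 l)))` -/
noncomputable def evExp (r : ℝ) (k : ℕ) : ℝ :=
  ∑' l : ℕ, r ^ (2 * (l + 1) * (k + 1)) / (2 * ((l : ℝ) + 1) * (1 - r ^ (2 * (l + 1))))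

/-- **E3** at `x = - r`, `k` even: lower bound of the finite product. -/
theorem E3_neg (r : ℝ) (hr0 : 0 ≤ r) (hr : r < 1) (k : ℕ) (hk : Even k) :
    ‖Pinf (-(r : ℂ))‖⁻¹ * Real.exp (-evExp r k) ≤ ‖Pfin (-(r : ℂ)) k‖⁻¹ := by
  have hn : ‖(-(r : ℂ))‖ = r := by
    rw [norm_neg, Complex.norm_real, Real.norm_of_nonneg hr0]
  have hx : ‖(-(r : ℂ))‖ < 1 := by rw [hn]; exact hr
  have h1 := Pinf_eq hx k
  have h2 : (Sk (-(r : ℂ)) k).re ≤ evExp r k := by
    have hs := summable_skTerm hx k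
    have hre : (Sk (-(r : ℂ)) k).re = ∑' l : ℕ, (skTerm (-(r : ℂ)) k l).re := by
      unfold Sk
      exact Complex.re_tsum hs
    have hsre : Summable fun l : ℕ => (skTerm (-(r : ℂ)) k l).re := (hs.hasSum.mapL Complex.reCLM).summable
    rw [hre]
    -- split into even and odd indices
    have he : Summable fun l : ℕ => (skTerm (-(r : ℂ)) k (2 * l)).re :=
      hsre.comp_injective (fun a b h => by simpa using h)
    have ho : Summable fun l : ℕ => (skTerm (-(r : ℂ)) k (2 * l + 1)).re :=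
      hsre.comp_injective (fun a b h => by simpa using h)
    rw [← tsum_even_add_odd he ho]
    have h3 : ∑' l : ℕ, (skTerm (-(r : ℂ)) k (2 * l)).re ≤ 0 := by
      refine tsum_nonpos fun l => ?_
      have h4 : skTerm (-(r : ℂ)) k (2 * l) =
          ((-(r ^ ((2 * l + 1) * (k + 1)) / (((2 * l : ℕ) + 1) * (1 + r ^ (2 * l + 1)))) : ℝ) : ℂ) := by
        unfold skTerm
        have ho1 : Odd ((2 * l + 1) * (k + 1)) := by
          refine Odd.mul ⟨l, rfl⟩ ?_
          exact hk.add_one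
        rw [ho1.neg_pow, (show Odd (2 * l + 1) from ⟨l, rfl⟩).neg_pow]
        push_cast
        ring
      rw [h4, Complex.ofReal_re]
      have : 0 ≤ r ^ ((2 * l + 1) * (k + 1)) / (((2 * l : ℕ) + 1) * (1 + r ^ (2 * l + 1))) := by
        positivity
      linarith
    have h5 : ∑' l : ℕ, (skTerm (-(r : ℂ)) k (2 * l + 1)).re = evExp r k := by
      unfold evExp
      refine tsum_congr fun l => ?_
      have h6 : skTerm (-(r : ℂ)) k (2 * l + 1) =
          ((r ^ (2 * (l + 1) * (k + 1)) / (2 * ((l : ℝ) + 1) * (1 - r ^ (2 * (l + 1)))) : ℝ) : ℂ) := by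
        unfold skTerm
        have he1 : Even ((2 * l + 1 + 1) * (k + 1)) := by
          refine Even.mul_right ⟨l + 1, by ring⟩ _
        rw [he1.neg_pow, (show Even (2 * l + 1 + 1) from ⟨l + 1, by ring⟩).neg_pow,
          show 2 * l + 1 + 1 = 2 * (l + 1) by ring]
        push_cast
        ring
      rw [h6, Complex.ofReal_re]
    rw [h5]
    linarith
  have h7 : 0 < ‖Pfin (-(r : ℂ)) k‖ := norm_pos_iff.2 (Pfin_ne_zero hx k)
  rw [h1, norm_mul, Complex.norm_exp, mul_inv, ← Real.exp_neg, mul_assoc, ← Real.exp_add]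
  refine mul_le_of_le_one_right (by positivity) ?_
  rw [Real.exp_le_one_iff, Complex.neg_re]
  linarith

/-- **E2 + E3**: lower bound of `1 / (-r; -r)_k`, `k` even, `r = e ^ (-t)`. -/
theorem E23 (t : ℝ) (ht : 0 < t) (k : ℕ) (hk : Even k) :
    Real.exp (-(t / 24)) * Real.sqrt (t / π) * Real.exp (π ^ 2 / (24 * t)) *
      (1 + Real.exp (-(π ^ 2 / t)))⁻¹ * Real.exp (-evExp (Real.exp (-t)) k) ≤
      ‖Pfin (-(Real.exp (-t) : ℂ)) k‖⁻¹ := by
  have hπ := Real.pi_pos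
  have hr : Real.exp (-t) < 1 := by
    rw [Real.exp_lt_one_iff]
    linarith
  have h1 := E3_neg (Real.exp (-t)) (Real.exp_pos _).le hr k hk
  refine le_trans ?_ h1
  refine mul_le_mul_of_nonneg_right ?_ (Real.exp_pos _).le
  have h2 := E2_le t ht
  have hpos : 0 < ‖Pinf (-(Real.exp (-t) : ℂ))‖ := by
    have hn : ‖(-(Real.exp (-t) : ℂ))‖ < 1 := by
      rw [norm_neg, Complex.norm_real, Real.norm_of_nonneg (Real.exp_pos _).le]
      exact hr
    have h3 := Pinf_eq hn 0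
    rw [h3, norm_mul]
    have : Pfin (-(Real.exp (-t) : ℂ)) 0 = 1 := by simp [Pfin]
    rw [this, norm_one, one_mul]
    exact norm_pos_iff.2 (Complex.exp_ne_zero _)
  have h4 : Real.sqrt (t / π) = (Real.sqrt (π / t))⁻¹ := by
    rw [← Real.sqrt_inv, inv_div]
  have h5 : Real.exp (π ^ 2 / (24 * t)) = (Real.exp (-(π ^ 2 / (24 * t))))⁻¹ := by
    rw [Real.exp_neg, inv_inv]
  rw [h4, h5, Real.exp_neg (t / 24), ← mul_inv, ← mul_inv, ← mul_inv]
  exact inv_anti₀ hpos h2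

end Pool.Agent.Lib.MP_cf17a0_co.S1
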