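import Pool.Agent.Lib.MP_cf17a0_co.Mg.G001
import Pool.Agent.Lib.MP_cf17a0_co.S1.Dom

/-! # The variance is positive on the domain -/

namespace Pool.Agent.SignedQ.An

open Finset

/-- The sum over the even ones among `n + 1, ..., n + k` (`n k` even). -/
theorem sum_even (F : ℕ → ℝ) {n k : ℕ} (h : Even (n * k)) :
    ∑ v ∈ range k, (if Even (n + v + 1) then F (n + v + 1) else 0) =
      ∑ i ∈ range (k / 2), F (n + 2 * i + 1 + (if Even n then 1 else 0)) := by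
  have key : ∀ j : ℕ, ∑ v ∈ range (2 * j), (if Even (n + v + 1) then F (n + v + 1) else 0) =
      ∑ i ∈ range j, F (n + 2 * i + 1 + (if Even n then 1 else 0)) := by
    intro j
    induction j with
    | zero => simp
    | succ j ih =>
      rw [show 2 * (j + 1) = 2 * j + 1 + 1 by ring, sum_range_succ, sum_range_succ, ih,
        sum_range_succ]
      rw [add_assoc]
      congr 1
      by_cases hn : Even n
      · have h1 : ¬ Even (n + 2 * j + 1) := by rw [Nat.even_iff] at *; omega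
        have h2 : Even (n + (2 * j + 1) + 1) := by rw [Nat.even_iff] at *; omega
        rw [if_neg h1, if_pos h2, if_pos hn, zero_add]
        congr 1
      · have h1 : Even (n + 2 * j + 1) := by rw [Nat.even_iff] at *; omega
        have h2 : ¬ Even (n + (2 * j + 1) + 1) := by rw [Nat.even_iff] at *; omega
        rw [if_pos h1, if_neg h2, if_neg hn, add_zero, add_zero]
  rcases Nat.even_or_odd k with hk | hk
  · obtain ⟨j, rfl⟩ := hk
    rw [← two_mul, key, show 2 * j / 2 = j by omega]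
  · have hn : Even n := by
      rcases Nat.even_mul.1 h with h | h
      · exact h
      · exact absurd h (Nat.not_even_iff_odd.2 hk)
    obtain ⟨j, rfl⟩ := hk
    have h1 : ¬ Even (n + 2 * j + 1) := by rw [Nat.even_iff] at *; omega
    rw [sum_range_succ, key, if_neg h1, add_zero, show (2 * j + 1) / 2 = j by omega]

theorem var1_even {v : ℕ} (hv : Even v) (hv1 : 1 ≤ v) {t : ℝ} (ht : 0 < t) :
    t ^ 2 * var1 v t = - pS (v * t / 2) := by
  have hv' : (1 : ℝ) ≤ v := by exact_mod_cast hv1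
  have h1 := (Real.sinh_pos_iff.2 (show 0 < (v : ℝ) * t / 2 by positivity)).ne'
  unfold var1 pS
  rw [if_pos hv]
  field_simp

theorem var1_odd {v : ℕ} (hv : Odd v) {t : ℝ} : t ^ 2 * var1 v t = hS (v * t / 2) := by
  have h1 := (Real.cosh_pos (v * t / 2)).ne'
  unfold var1 hS
  rw [if_neg (Nat.not_even_iff_odd.2 hv)]
  field_simp

/-- The alternating form of the denominators. -/
theorem den_sum (k : ℕ) {t : ℝ} (ht : 0 < t) :
    ∑ v ∈ range k, t ^ 2 * var1 (v + 1) t =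
      ∑ v ∈ range k, (-1 : ℝ) ^ v * hS ((v + 1 : ℕ) * t / 2) -
        ∑ i ∈ range (k / 2), pS (2 * ((i + 1 : ℕ) * t)) := by
  have h0 := sum_even (fun m => pS (m * t)) (n := 0) (k := k) (by simp)
  have h1 : ∑ i ∈ range (k / 2), pS (2 * ((i + 1 : ℕ) * t)) =
      ∑ v ∈ range k, (if Even (0 + v + 1) then pS ((0 + v + 1 : ℕ) * t) else 0) := by
    rw [h0]
    refine sum_congr rfl fun i _ => ?_
    rw [if_pos (by simp)]
    congr 1
    push_cast
    ring
  rw [h1, ← sum_sub_distrib]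
  refine sum_congr rfl fun v _ => ?_
  rw [zero_add]
  rcases Nat.even_or_odd (v + 1) with hv | hv
  · rw [var1_even hv (by omega) ht, if_pos hv]
    have hv2 : Odd v := by rw [Nat.even_iff] at hv; rw [Nat.odd_iff]; omega
    have h2 := pS_sub_hS (u := ((v + 1 : ℕ) : ℝ) * t / 2) (by positivity)
    rw [show 2 * (((v + 1 : ℕ) : ℝ) * t / 2) = ((v + 1 : ℕ) : ℝ) * t by ring] at h2
    rw [← h2, hv2.neg_one_pow]
    ring
  · rw [var1_odd hv, if_neg (Nat.not_even_iff_odd.2 hv)]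
    have hv2 : Even v := by rw [Nat.odd_iff] at hv; rw [Nat.even_iff]; omega
    rw [hv2.neg_one_pow]
    ring

/-- The numerators: lower bound by their even part. -/
theorem num_sum_ge {n k a : ℕ} (h : Even (n * k)) (ha : Odd a) (ha3 : 3 ≤ a) {t : ℝ} (ht : 0 < t) :
    - ∑ i ∈ range (k / 2), pS (3 * ((i + 1 : ℕ) * t)) ≤
      ∑ v ∈ range k, t ^ 2 * var1 (a * (n + v + 1)) t := by
  have h0 := sum_even (fun m => pS (a * m * t / 2)) (n := n) (k := k) h
  have h1 : ∑ i ∈ range (k / 2), pS (a * (n + 2 * i + 1 + (if Even n then 1 else 0) : ℕ) * t / 2) ≤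
      ∑ i ∈ range (k / 2), pS (3 * ((i + 1 : ℕ) * t)) := by
    refine sum_le_sum fun i _ => ?_
    have ha' : (3 : ℝ) ≤ a := by exact_mod_cast ha3
    have h2 : 2 * (i + 1) ≤ n + 2 * i + 1 + (if Even n then 1 else 0) := by
      split
      · omega
      · rename_i hn
        have : n ≠ 0 := fun h0 => hn (by rw [h0]; simp)
        omega
    have h2' : 2 * ((i : ℝ) + 1) ≤ ((n + 2 * i + 1 + (if Even n then 1 else 0) : ℕ) : ℝ) := by
      exact_mod_cast h2
    set M : ℝ := ((n + 2 * i + 1 + (if Even n then 1 else 0) : ℕ) : ℝ)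
    have h3 : 3 * (((i + 1 : ℕ) : ℝ) * t) ≤ a * M * t / 2 := by
      push_cast
      have h4 : 3 * (2 * ((i : ℝ) + 1)) ≤ a * M :=
        mul_le_mul ha' h2' (by positivity) (by linarith)
      nlinarith
    refine pS_antitone ?_ ?_ h3
    · show (0 : ℝ) < 3 * (((i + 1 : ℕ) : ℝ) * t)
      positivity
    · exact lt_of_lt_of_le (by positivity) h3
  rw [← h0] at h1
  have h5 : - ∑ v ∈ range k, (if Even (n + v + 1) then pS (a * (n + v + 1 : ℕ) * t / 2) else 0) ≤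
      ∑ v ∈ range k, t ^ 2 * var1 (a * (n + v + 1)) t := by
    rw [← sum_neg_distrib]
    refine sum_le_sum fun v _ => ?_
    rcases Nat.even_or_odd (n + v + 1) with hv | hv
    · rw [if_pos hv, var1_even (hv.mul_left a) (Nat.mul_pos ha.pos (by omega)) ht]
      push_cast
      exact le_rfl
    · rw [if_neg (Nat.not_even_iff_odd.2 hv), var1_odd (ha.mul hv), neg_zero]
      exact hS_nonneg _
  linarith

/-- The main lower bound. -/
theorem sig2_ge {n k a : ℕ} (h : Even (n * k)) (ha : Odd a) (ha3 : 3 ≤ a) {t : ℝ} (ht : 0 < t)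
    {H : ℝ} (hH : 0 ≤ H) (hH' : ∀ j < k, hS ((j + 1 : ℕ) * t / 2) ≤ H) :
    ∑ i ∈ range (k / 2), (pS (2 * ((i + 1 : ℕ) * t)) - pS (3 * ((i + 1 : ℕ) * t))) - H ≤
      t ^ 2 * sig2 n k a t := by
  obtain ⟨c, hc1, hc2⟩ := hS_unimodal
  have h1 := alt_unimodal hc1 hc2 (fun j => ((j + 1 : ℕ) : ℝ) * t / 2)
    (fun i j hij => by
      have : ((i : ℕ) : ℝ) ≤ j := by exact_mod_cast hij
      simp only
      push_cast
      nlinarith) (fun j => by positivity) k H hH (fun j _ => hS_nonneg _) hH'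
  have h2 := den_sum k ht
  have h3 := num_sum_ge h ha ha3 ht
  have h4 : t ^ 2 * sig2 n k a t = ((k + 1) / 2 : ℕ) * (t ^ 2 * var1 1 t) +
      (∑ v ∈ range k, t ^ 2 * var1 (a * (n + v + 1)) t - ∑ v ∈ range k, t ^ 2 * var1 (v + 1) t) := by
    unfold sig2
    rw [mul_add, mul_sum, ← sum_sub_distrib]
    congr 1
    · ring
    · exact sum_congr rfl fun v _ => by ring
  have h5 : 0 ≤ (((k + 1) / 2 : ℕ) : ℝ) * (t ^ 2 * var1 1 t) := by
    rw [var1_odd odd_one]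
    exact mul_nonneg (Nat.cast_nonneg _) (hS_nonneg _)
  rw [h4, h2, sum_sub_distrib]
  have h6 := (abs_le.1 h1).2
  linarith

theorem sum_sq_ge (M : ℕ) : (M : ℝ) ^ 3 / 3 + (M : ℝ) ^ 2 / 2 ≤
    ∑ i ∈ range M, ((i + 1 : ℕ) : ℝ) ^ 2 := by
  induction M with
  | zero => simp
  | succ M ih =>
    rw [sum_range_succ]
    push_cast at ih ⊢
    nlinarith [Nat.cast_nonneg (α := ℝ) M]

theorem sig2_pos {n k a : ℕ} (h : Even (n * k)) (ha : Odd a) (ha3 : 3 ≤ a) (hk : 26 ≤ k) {t : ℝ}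
    (ht : 0 < t) (ht1 : t ≤ 1 / 60) : 0 < sig2 n k a t := by
  have hterm : ∀ i : ℕ, 0 ≤ pS (2 * ((i + 1 : ℕ) * t)) - pS (3 * ((i + 1 : ℕ) * t)) := by
    intro i
    have h0 : 0 < ((i + 1 : ℕ) : ℝ) * t := by positivity
    have := pS_antitone (show 2 * (((i + 1 : ℕ) : ℝ) * t) ∈ Set.Ioi 0 by
      show (0 : ℝ) < _; positivity) (show 3 * (((i + 1 : ℕ) : ℝ) * t) ∈ Set.Ioi 0 by
      show (0 : ℝ) < _; positivity) (by linarith)
    linarith
  have hsub : ∀ M : ℕ, M ≤ k / 2 → (M : ℝ) * t ≤ 9 / 20 →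
      9 / 20 * t ^ 2 * ((M : ℝ) ^ 3 / 3 + (M : ℝ) ^ 2 / 2) ≤
      ∑ i ∈ range (k / 2), (pS (2 * ((i + 1 : ℕ) * t)) - pS (3 * ((i + 1 : ℕ) * t))) := by
    intro M hM hMt
    calc 9 / 20 * t ^ 2 * ((M : ℝ) ^ 3 / 3 + (M : ℝ) ^ 2 / 2)
        ≤ 9 / 20 * t ^ 2 * ∑ i ∈ range M, ((i + 1 : ℕ) : ℝ) ^ 2 :=
          mul_le_mul_of_nonneg_left (sum_sq_ge M) (by positivity)
      _ = ∑ i ∈ range M, 9 / 20 * (((i + 1 : ℕ) : ℝ) * t) ^ 2 := by
          rw [mul_sum]; exact sum_congr rfl fun i _ => by ring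
      _ ≤ ∑ i ∈ range M, (pS (2 * ((i + 1 : ℕ) * t)) - pS (3 * ((i + 1 : ℕ) * t))) := by
          refine sum_le_sum fun i hi => pS_diff (by positivity) ?_
          have hi' : ((i + 1 : ℕ) : ℝ) ≤ M := by exact_mod_cast mem_range.1 hi
          nlinarith
      _ ≤ _ := by
          refine sum_le_sum_of_subset_of_nonneg (range_subset_range.2 hM) fun i _ _ => hterm i
  have ht2 : 0 < t ^ 2 := by positivity
  rcases le_or_gt (((k / 2 : ℕ) : ℝ) * t) (9 / 20) with hc | hc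
  · -- small `k t`
    have h1 := sig2_ge h ha ha3 ht (H := ((k : ℝ) * t / 2) ^ 2) (sq_nonneg _) (fun j hj => by
      refine (hS_le_sq _).trans (pow_le_pow_left₀ (by positivity) ?_ 2)
      have : ((j + 1 : ℕ) : ℝ) ≤ k := by exact_mod_cast hj
      nlinarith)
    have h2 := hsub (k / 2) le_rfl hc
    have hK : (k : ℝ) ≤ 2 * ((k / 2 : ℕ) : ℝ) + 1 := by
      have : k ≤ 2 * (k / 2) + 1 := by omega
      exact_mod_cast this
    have hK13 : (13 : ℝ) ≤ ((k / 2 : ℕ) : ℝ) := by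
      have : 13 ≤ k / 2 := by omega
      exact_mod_cast this
    set K : ℝ := ((k / 2 : ℕ) : ℝ)
    have h3 : ((k : ℝ) * t / 2) ^ 2 ≤ ((2 * K + 1) / 2) ^ 2 * t ^ 2 := by
      have h4 : (k : ℝ) * t / 2 ≤ (2 * K + 1) / 2 * t := by nlinarith
      calc ((k : ℝ) * t / 2) ^ 2 ≤ ((2 * K + 1) / 2 * t) ^ 2 :=
            pow_le_pow_left₀ (by positivity) h4 2
        _ = _ := by ring
    have h5 : ((2 * K + 1) / 2) ^ 2 < 9 / 20 * (K ^ 3 / 3 + K ^ 2 / 2) := by
      nlinarith [mul_nonneg (show 0 ≤ K by linarith) (show 0 ≤ K - 13 by linarith),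
        mul_nonneg (mul_nonneg (show 0 ≤ K by linarith) (show 0 ≤ K by linarith))
          (show 0 ≤ K - 13 by linarith)]
    have h6 : 0 < t ^ 2 * sig2 n k a t := by
      have h7 := mul_lt_mul_of_pos_right h5 ht2
      nlinarith
    exact (pos_iff_pos_of_mul_pos h6).1 ht2
  · -- large `k t`
    have h1 := sig2_ge h ha ha3 ht (H := 1 / 2) (by norm_num) (fun j _ => hS_le_half _)
    set M : ℕ := ⌊9 / (20 * t)⌋₊ with hM
    have hM1 : (M : ℝ) ≤ 9 / (20 * t) := Nat.floor_le (by positivity)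
    have hM2 : 9 / (20 * t) < M + 1 := Nat.lt_floor_add_one _
    have hMt : (M : ℝ) * t ≤ 9 / 20 := by
      calc (M : ℝ) * t ≤ 9 / (20 * t) * t := mul_le_mul_of_nonneg_right hM1 ht.le
        _ = 9 / 20 := by field_simp
    have hMt2 : 9 / 20 < ((M : ℝ) + 1) * t := by
      have := mul_lt_mul_of_pos_right hM2 ht
      rwa [show 9 / (20 * t) * t = 9 / 20 by field_simp] at this
    have hMk : M ≤ k / 2 := by
      have h3 : (M : ℝ) < ((k / 2 : ℕ) : ℝ) := by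
        by_contra hcon
        push Not at hcon
        nlinarith
      exact_mod_cast h3.le
    have h2 := hsub M hMk hMt
    have h4 : (26 : ℝ) ≤ (M : ℝ) + 1 := by nlinarith
    have h5 : 26 / 60 ≤ (M : ℝ) * t := by nlinarith
    have h6 : 1 / 2 < 9 / 20 * t ^ 2 * ((M : ℝ) ^ 3 / 3 + (M : ℝ) ^ 2 / 2) := by
      have h7 : (26 / 60 : ℝ) ^ 2 ≤ ((M : ℝ) * t) ^ 2 := pow_le_pow_left₀ (by norm_num) h5 2
      have h8 : 9 / 20 * t ^ 2 * ((M : ℝ) ^ 3 / 3 + (M : ℝ) ^ 2 / 2) =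
          9 / 20 * ((M : ℝ) * t) ^ 2 * ((M : ℝ) / 3 + 1 / 2) := by ring
      rw [h8]
      have h9 : (25 : ℝ) / 3 + 1 / 2 ≤ (M : ℝ) / 3 + 1 / 2 := by linarith
      calc (1 / 2 : ℝ) < 9 / 20 * (26 / 60) ^ 2 * (25 / 3 + 1 / 2) := by norm_num
        _ ≤ 9 / 20 * ((M : ℝ) * t) ^ 2 * ((M : ℝ) / 3 + 1 / 2) := by
          refine mul_le_mul (by linarith) h9 (by norm_num) (by positivity)
    have h7 : 0 < t ^ 2 * sig2 n k a t := by linarith
    exact (pos_iff_pos_of_mul_pos h7).1 ht2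

/-- An upper bound for the variance, uniform in `t > 0`. -/
theorem sig2_le {n k a : ℕ} (h : Even (n * k)) (ha : Odd a) {t : ℝ} (ht : 0 < t) :
    sig2 n k a t ≤ (((k + 1) / 2 : ℕ) : ℝ) / 4 +
      ∑ v ∈ range k, ((a * (n + v + 1) : ℕ) : ℝ) ^ 2 / 4 := by
  have ht2 : 0 < t ^ 2 := by positivity
  have hodd : ∀ v : ℕ, Odd v → t ^ 2 * var1 v t ≤ t ^ 2 * ((v : ℝ) ^ 2 / 4) := by
    intro v hv
    rw [var1_odd hv]
    refine (hS_le_sq _).trans (le_of_eq ?_)
    ring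
  have hodd0 : ∀ v : ℕ, Odd v → 0 ≤ t ^ 2 * var1 v t := by
    intro v hv
    rw [var1_odd hv]
    exact hS_nonneg _
  have heven : ∀ v : ℕ, Even v → 1 ≤ v → t ^ 2 * var1 v t ≤ -1 + t ^ 2 * ((v : ℝ) ^ 2 / 4) := by
    intro v hv hv1
    have hv' : (1 : ℝ) ≤ v := by exact_mod_cast hv1
    rw [var1_even hv hv1 ht]
    have := pS_ge (u := v * t / 2) (by positivity)
    have h2 : 0 ≤ t ^ 2 * (v : ℝ) ^ 2 := by positivity
    have h3 : ((v : ℝ) * t / 2) ^ 2 / 3 = t ^ 2 * (v : ℝ) ^ 2 / 12 := by ring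
    rw [h3] at this
    linarith
  have heven0 : ∀ v : ℕ, Even v → 1 ≤ v → -1 ≤ t ^ 2 * var1 v t := by
    intro v hv hv1
    have hv' : (1 : ℝ) ≤ v := by exact_mod_cast hv1
    rw [var1_even hv hv1 ht]
    have := pS_le_one (u := v * t / 2) (by positivity)
    linarith
  have hcount : ∀ m : ℕ, Even (m * k) → ∑ v ∈ range k, (if Even (m + v + 1) then (-1 : ℝ) else 0) =
      - ((k / 2 : ℕ) : ℝ) := by
    intro m hm
    rw [sum_even (fun _ => (-1 : ℝ)) hm]
    simp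
  have hnum : ∑ v ∈ range k, t ^ 2 * var1 (a * (n + v + 1)) t ≤
      ∑ v ∈ range k, ((if Even (n + v + 1) then (-1 : ℝ) else 0) +
        t ^ 2 * (((a * (n + v + 1) : ℕ) : ℝ) ^ 2 / 4)) := by
    refine sum_le_sum fun v _ => ?_
    rcases Nat.even_or_odd (n + v + 1) with hv | hv
    · rw [if_pos hv]
      exact heven _ (hv.mul_left a) (Nat.mul_pos ha.pos (by omega))
    · rw [if_neg (Nat.not_even_iff_odd.2 hv), zero_add]
      exact hodd _ (ha.mul hv)
  have hden : ∑ v ∈ range k, (if Even (0 + v + 1) then (-1 : ℝ) else 0) ≤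
      ∑ v ∈ range k, t ^ 2 * var1 (v + 1) t := by
    refine sum_le_sum fun v _ => ?_
    rw [zero_add]
    rcases Nat.even_or_odd (v + 1) with hv | hv
    · rw [if_pos hv]; exact heven0 _ hv (by omega)
    · rw [if_neg (Nat.not_even_iff_odd.2 hv)]; exact hodd0 _ hv
  have hms : ∑ v ∈ range k, t ^ 2 * (((a * (n + v + 1) : ℕ) : ℝ) ^ 2 / 4) =
      t ^ 2 * ∑ v ∈ range k, ((a * (n + v + 1) : ℕ) : ℝ) ^ 2 / 4 := by rw [mul_sum]
  rw [sum_add_distrib, hcount n h, hms] at hnum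
  rw [hcount 0 (by simp)] at hden
  have h4 : t ^ 2 * sig2 n k a t = ((k + 1) / 2 : ℕ) * (t ^ 2 * var1 1 t) +
      (∑ v ∈ range k, t ^ 2 * var1 (a * (n + v + 1)) t - ∑ v ∈ range k, t ^ 2 * var1 (v + 1) t) := by
    unfold sig2
    rw [mul_add, mul_sum, ← sum_sub_distrib]
    congr 1
    · ring
    · exact sum_congr rfl fun v _ => by ring
  have h5 : (((k + 1) / 2 : ℕ) : ℝ) * (t ^ 2 * var1 1 t) ≤
      (((k + 1) / 2 : ℕ) : ℝ) * (t ^ 2 * (((1 : ℕ) : ℝ) ^ 2 / 4)) :=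
    mul_le_mul_of_nonneg_left (hodd 1 odd_one) (Nat.cast_nonneg _)
  have h6 : t ^ 2 * sig2 n k a t ≤ t ^ 2 * ((((k + 1) / 2 : ℕ) : ℝ) / 4 +
      ∑ v ∈ range k, ((a * (n + v + 1) : ℕ) : ℝ) ^ 2 / 4) := by
    rw [h4]
    rw [Nat.cast_one, one_pow] at h5
    linarith
  exact le_of_mul_le_mul_left h6 ht2

theorem sig : SIG := by
  constructor
  · intro n k a t hp hd
    obtain ⟨h1, h2, h3, _⟩ := hp
    obtain ⟨d1, d2, d3, _⟩ := hd
    exact sig2_pos h1 h2 h3 d1 d2 (d3.trans (by norm_num))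
  · intro n k a hp
    exact ⟨_, fun t ht => sig2_le hp.1 hp.2.1 ht.2.1⟩

end Pool.Agent.SignedQ.An
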