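import Pool.Agent.Lib.MP_cf17a0_co.S1.InData

/-! # INTER (k t ≤ 1): kernel run, range a (helper68) -/

namespace Pool.Agent.SignedQ.An.In

theorem all_a : g_a0.ok = true ∧ g_a1.ok = true ∧ g_a2.ok = true ∧ g_a3.ok = true ∧
    g_a4.ok = true :=
  ⟨by decide +kernel, by decide +kernel, by decide +kernel, by decide +kernel, by decide +kernel⟩

theorem ok_a0 : g_a0.ok = true := all_a.1

theorem ok_a1 : g_a1.ok = true := all_a.2.1

theorem ok_a2 : g_a2.ok = true := all_a.2.2.1

theorem ok_a3 : g_a3.ok = true := all_a.2.2.2.1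

theorem ok_a4 : g_a4.ok = true := all_a.2.2.2.2

end Pool.Agent.SignedQ.An.In
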