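import Pool.Agent.Lib.MP_cf17a0_co.S1.InData

/-! # INTER (k t ≤ 1): kernel run, range b (helper68) -/

namespace Pool.Agent.SignedQ.An.In

theorem all_b : g_b0.ok = true ∧ g_b1.ok = true ∧ g_b2.ok = true ∧ g_b3.ok = true ∧
    g_b4.ok = true :=
  ⟨by decide +kernel, by decide +kernel, by decide +kernel, by decide +kernel, by decide +kernel⟩

theorem ok_b0 : g_b0.ok = true := all_b.1

theorem ok_b1 : g_b1.ok = true := all_b.2.1

theorem ok_b2 : g_b2.ok = true := all_b.2.2.1

theorem ok_b3 : g_b3.ok = true := all_b.2.2.2.1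

theorem ok_b4 : g_b4.ok = true := all_b.2.2.2.2

end Pool.Agent.SignedQ.An.In
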