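import Pool.Agent.Lib.MP_cf17a0_co.S1.InData

/-! # INTER (k t ≤ 1): kernel run, range c (helper68) -/

namespace Pool.Agent.SignedQ.An.In

theorem all_c : g_c0.ok = true ∧ g_c1.ok = true ∧ g_c2.ok = true ∧ g_c3.ok = true ∧
    g_c4.ok = true :=
  ⟨by decide +kernel, by decide +kernel, by decide +kernel, by decide +kernel, by decide +kernel⟩

theorem ok_c0 : g_c0.ok = true := all_c.1

theorem ok_c1 : g_c1.ok = true := all_c.2.1

theorem ok_c2 : g_c2.ok = true := all_c.2.2.1

theorem ok_c3 : g_c3.ok = true := all_c.2.2.2.1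

theorem ok_c4 : g_c4.ok = true := all_c.2.2.2.2

end Pool.Agent.SignedQ.An.In
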