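import Pool.Agent.Lib.MP_cf17a0_co.S1.InData

/-! # INTER (k t ≤ 1): kernel run, range e (helper68) -/

namespace Pool.Agent.SignedQ.An.In

theorem all_e : g_e0.ok = true ∧ g_e1.ok = true ∧ g_e2.ok = true ∧ g_e3.ok = true ∧
    g_e4.ok = true :=
  ⟨by decide +kernel, by decide +kernel, by decide +kernel, by decide +kernel, by decide +kernel⟩

theorem ok_e0 : g_e0.ok = true := all_e.1

theorem ok_e1 : g_e1.ok = true := all_e.2.1

theorem ok_e2 : g_e2.ok = true := all_e.2.2.1

theorem ok_e3 : g_e3.ok = true := all_e.2.2.2.1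

theorem ok_e4 : g_e4.ok = true := all_e.2.2.2.2

end Pool.Agent.SignedQ.An.In
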