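import Pool.Agent.Lib.MP_cf17a0_co.S1.TA
import Pool.Agent.Lib.MP_cf17a0_co.Final

/-!
# The tail lemma, part B: the series `f_{n,k,a}`
-/

set_option autoImplicit false

namespace Pool.Agent.Lib.MP_cf17a0_co.S1

open PowerSeries Finset Pool.Agent.SignedQ

/-- the coefficients, with index in `ℤ` -/
noncomputable def sq (φ : PowerSeries ℚ) (i : ℤ) : ℝ :=
  if 0 ≤ i then ((coeff i.toNat φ : ℚ) : ℝ) else 0

theorem sq_neg {φ : PowerSeries ℚ} {i : ℤ} (hi : i < 0) : sq φ i = 0 := by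
  unfold sq
  rw [if_neg (by omega)]

theorem sq_natCast (φ : PowerSeries ℚ) (m : ℕ) : sq φ m = ((coeff m φ : ℚ) : ℝ) := by
  unfold sq
  rw [if_pos (by omega), Int.toNat_natCast]

theorem sq_add (φ ψ : PowerSeries ℚ) (i : ℤ) : sq (φ + ψ) i = sq φ i + sq ψ i := by
  unfold sq
  split_ifs
  · rw [map_add]
    push_cast
    rfl
  · rw [add_zero]

theorem sq_sub (φ ψ : PowerSeries ℚ) (i : ℤ) : sq (φ - ψ) i = sq φ i - sq ψ i := by
  unfold sq
  split_ifs
  · rw [map_sub]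
    push_cast
    rfl
  · rw [sub_zero]

theorem sq_X_pow_mul (φ : PowerSeries ℚ) (p : ℕ) (i : ℤ) : sq (X ^ p * φ) i = sq φ (i - p) := by
  by_cases hi : 0 ≤ i
  · obtain ⟨m, rfl⟩ := Int.eq_ofNat_of_zero_le hi
    rw [sq_natCast, coeff_X_pow_mul']
    by_cases hp : p ≤ m
    · rw [if_pos hp, show ((m : ℤ) - p) = ((m - p : ℕ) : ℤ) by omega, sq_natCast]
    · rw [if_neg hp, sq_neg (by omega)]
      norm_num
  · rw [sq_neg (by omega), sq_neg (by omega)]

/-- the series of `f_{n,k,a}` -/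
noncomputable def fser (n k a : ℕ) : PowerSeries ℚ :=
  SignedQ.G k * ∏ v ∈ range k, (1 - (-X) ^ (a * (n + v + 1)))

theorem I_succ_mul (k : ℕ) : I (k + 1) * (1 - (-X) ^ (k + 1)) = I k := by
  have h1 := I_mul_poch (k + 1)
  have h2 := poch_mul_I k
  rw [poch_succ] at h1
  calc I (k + 1) * (1 - (-X) ^ (k + 1))
      = I (k + 1) * (1 - (-X) ^ (k + 1)) * (poch (-X) k * I k) := by rw [h2, mul_one]
    _ = (I (k + 1) * (poch (-X) k * (1 - (-X) ^ (k + 1)))) * I k := by ring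
    _ = I k := by rw [h1, one_mul]

theorem fser_two {k : ℕ} (hk : Even k) (n a : ℕ) :
    fser n (k + 2) a * ((1 + X ^ (k + 1)) * (1 - X ^ (k + 2))) =
      fser n k a * (1 + X) * ((1 - (-X) ^ (a * (n + k + 1))) * (1 - (-X) ^ (a * (n + k + 2)))) := by
  have h1 := I_succ_mul k
  have h2 := I_succ_mul (k + 1)
  have h3 : (-X : PowerSeries ℚ) ^ (k + 1) = -X ^ (k + 1) := hk.add_one.neg_pow _
  have h4 : (-X : PowerSeries ℚ) ^ (k + 1 + 1) = X ^ (k + 2) := by
    rw [show k + 1 + 1 = k + 2 by ring]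
    exact Even.neg_pow (hk.add (by norm_num)) _
  rw [h3] at h1
  rw [h4] at h2
  have h5 : (k + 2 + 1) / 2 = (k + 1) / 2 + 1 := by
    obtain ⟨j, rfl⟩ := hk
    omega
  unfold fser SignedQ.G
  rw [show range (k + 2) = range (k + 1 + 1) by rfl, prod_range_succ, prod_range_succ, h5,
    pow_succ, show n + (k + 1) + 1 = n + k + 2 by ring]
  have h6 : I (k + 2) * ((1 + X ^ (k + 1)) * (1 - X ^ (k + 2))) = I k := by
    rw [← h1, ← h2]
    ring
  linear_combination ((1 + X) ^ ((k + 1) / 2) * (1 + X) *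
    ((∏ v ∈ range k, (1 - (-X) ^ (a * (n + v + 1)))) * (1 - (-X) ^ (a * (n + k + 1))) *
      (1 - (-X) ^ (a * (n + k + 2))))) * h6

theorem fser_one {k : ℕ} (hk : Even k) (n a : ℕ) :
    fser n (k + 1) a * (1 + X ^ (k + 1)) =
      fser n k a * (1 + X) * (1 - (-X) ^ (a * (n + k + 1))) := by
  have h1 := I_succ_mul k
  have h3 : (-X : PowerSeries ℚ) ^ (k + 1) = -X ^ (k + 1) := hk.add_one.neg_pow _
  rw [h3] at h1
  have h5 : (k + 1 + 1) / 2 = (k + 1) / 2 + 1 := by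
    obtain ⟨j, rfl⟩ := hk
    omega
  unfold fser SignedQ.G
  rw [prod_range_succ, h5, pow_succ]
  linear_combination ((1 + X) ^ ((k + 1) / 2) * (1 + X) *
    ((∏ v ∈ range k, (1 - (-X) ^ (a * (n + v + 1)))) * (1 - (-X) ^ (a * (n + k + 1))))) * h1

private theorem TB_ne (p : ℕ) (hp : 1 ≤ p) : (1 - X ^ p : PowerSeries ℚ) ≠ 0 := by
  intro h
  have h1 := Z_mul hp
  rw [h, zero_mul] at h1
  exact zero_ne_one h1

private theorem TB_ne' (p : ℕ) (hp : 1 ≤ p) : (1 + X ^ p : PowerSeries ℚ) ≠ 0 := by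
  intro h
  have h1 : (1 - X ^ (2 * p) : PowerSeries ℚ) = 0 := by
    have : (1 - X ^ (2 * p) : PowerSeries ℚ) = (1 + X ^ p) * (1 - X ^ p) := by
      rw [mul_comm 2 p, pow_mul]
      ring
    rw [this, h, zero_mul]
  exact TB_ne (2 * p) (by omega) h1

/-- the two new numerators, in a convenient order -/
theorem num_two {a : ℕ} (ha : Odd a) (ha3 : 3 ≤ a) (n k : ℕ) : ∃ b b' : ℕ,
    3 * (k + 1) ≤ b ∧ 3 * (k + 1) ≤ b' ∧
    (1 - (-X : PowerSeries ℚ) ^ (a * (n + k + 1))) * (1 - (-X) ^ (a * (n + k + 2))) =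
      (1 + X ^ b) * (1 - X ^ b') := by
  have hb1 : 3 * (k + 1) ≤ a * (n + k + 1) := Nat.mul_le_mul ha3 (by omega)
  have hb2 : 3 * (k + 1) ≤ a * (n + k + 2) := Nat.mul_le_mul ha3 (by omega)
  rcases Nat.even_or_odd (n + k + 1) with h | h
  · have h1 : Even (a * (n + k + 1)) := h.mul_left a
    have h2 : Odd (a * (n + k + 2)) := ha.mul h.add_one
    refine ⟨a * (n + k + 2), a * (n + k + 1), hb2, hb1, ?_⟩
    rw [h1.neg_pow, h2.neg_pow]
    ring
  · have h1 : Odd (a * (n + k + 1)) := ha.mul h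
    have h2 : Even (a * (n + k + 2)) := h.add_one.mul_left a
    refine ⟨a * (n + k + 1), a * (n + k + 2), hb1, hb2, ?_⟩
    rw [h2.neg_pow, h1.neg_pow]
    ring

/-- the step, with numerical hypotheses only on `A`, `θ`, `k` -/
theorem step_f {n k a : ℕ} (hk : Even k) (ha : Odd a) (ha3 : 3 ≤ a) {A θ θ' : ℝ} {M : ℤ}
    (hA : 0 < A) (hθ0 : 0 < θ) (hθ : θ < 1) (hP : Grw (sq (fser n k a)) A θ M k)
    {e1 e2 e3 κ : ℝ}
    (he1 : θ ^ k / (2 * A * (1 - θ ^ (2 * (k + 1)))) ≤ e1)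
    (he2 : (θ ^ (k + 2) / (1 - θ ^ (k + 2)) + θ ^ (2 * k + 1) / (1 - θ ^ (2 * (k + 1)))) / 2 ≤ e2)
    (he3 : A⁻¹ * θ ^ (3 * (k + 1)) * (1 + e2) * (1 + θ ^ (3 * (k + 1))) ≤ e3) (hκ0 : 0 ≤ κ)
    (he : 0 ≤ 1 - e1 - e3)
    (hκ : (1 + e2) * (1 + θ ^ (3 * (k + 1))) ≤ κ * (1 - e1 - e3))
    (hθ' : θ ≤ θ') (hκθ : κ * θ ^ (k + 2) ≤ θ' ^ (k + 2)) :
    Grw (sq (fser n (k + 2) a)) A θ' M (k + 2) := by
  obtain ⟨b, b', hb, hb', hbb⟩ := num_two ha ha3 n k
  have hq1 : θ ^ (2 * (k + 1)) < 1 := pow_lt_one₀ hθ0.le hθ (by omega)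
  have hq2 : θ ^ (k + 2) < 1 := pow_lt_one₀ hθ0.le hθ (by omega)
  have he2' : 0 ≤ e2 := by
    refine le_trans ?_ he2
    have n1 : 0 < (1 - θ ^ (2 * (k + 1))) := by linarith
    have n2 : 0 < (1 - θ ^ (k + 2)) := by linarith
    positivity
  have hAi : 0 < A⁻¹ := inv_pos.2 hA
  have hbθ : θ ^ b ≤ θ ^ (3 * (k + 1)) := pow_le_pow_of_le_one hθ0.le hθ.le hb
  have hbθ' : θ ^ b' ≤ θ ^ (3 * (k + 1)) := pow_le_pow_of_le_one hθ0.le hθ.le hb'
  set P := fser n k a with hPdef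
  set h := P * Z (2 * (k + 1)) with hh
  set z := X * P * Z (k + 2) with hz
  set u := h - X ^ (k + 1) * h + z with hu
  set v := u + X ^ b * u with hv
  have hrec : h = P + X ^ (2 * (k + 1)) * h := by
    have := Z_mul (L := 2 * (k + 1)) (by omega)
    rw [hh]
    linear_combination P * this
  have zrec : z = X ^ 1 * P + X ^ (k + 2) * z := by
    have := Z_mul (L := k + 2) (by omega)
    rw [hz]
    linear_combination X * P * this
  have hD : u * ((1 + X ^ (k + 1)) * (1 - X ^ (k + 2))) = P * (1 + X) := by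
    have e1 : h * (1 - X ^ (2 * (k + 1))) = P := by linear_combination hrec
    have e2 : z * (1 - X ^ (k + 2)) = X * P := by linear_combination zrec
    have e3 : (X : PowerSeries ℚ) ^ (2 * (k + 1)) = X ^ (k + 1) * X ^ (k + 1) := by
      rw [← pow_add]
      congr 1
      ring
    have e4 : (X : PowerSeries ℚ) ^ (k + 2) = X * X ^ (k + 1) := by
      rw [← pow_succ']
    rw [e3] at e1
    rw [e4] at e2 ⊢
    rw [hu]
    linear_combination (1 - X * X ^ (k + 1)) * e1 + (1 + X ^ (k + 1)) * e2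
  have hw : fser n (k + 2) a = v - X ^ b' * v := by
    have h1 := fser_two hk n a
    rw [← hPdef, ← hD, hbb] at h1
    have hne : ((1 + X ^ (k + 1)) * (1 - X ^ (k + 2)) : PowerSeries ℚ) ≠ 0 :=
      mul_ne_zero (TB_ne' _ (by omega)) (TB_ne _ (by omega))
    refine mul_right_cancel₀ hne ?_
    rw [h1, hv]
    ring
  refine step_abs (P := sq P) (h := sq h) (z := sq z) (u := sq u) (v := sq v)
    (b := b) (b' := b') (e1 := e1) (e2 := e2) (e3 := e3) (κ := κ) hA hθ0 hθ hP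
    (fun i hi => sq_neg hi) (fun i => ?_) (fun i hi => sq_neg hi) (fun i => ?_) (fun i => ?_)
    (fun i => ?_) (fun i => ?_) (by omega) he1 he2 ?_ hκ0 he ?_ hθ' hκθ
  · conv_lhs => rw [hrec]
    rw [sq_add, sq_X_pow_mul]
  · conv_lhs => rw [zrec]
    rw [sq_add, sq_X_pow_mul, sq_X_pow_mul]
    norm_num
  · rw [hu, sq_add, sq_sub, sq_X_pow_mul]
  · rw [hv, sq_add, sq_X_pow_mul]
  · rw [hw, sq_sub, sq_X_pow_mul]
  · refine le_trans ?_ he3
    have h1 : 0 ≤ θ ^ b := by positivity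
    have h2 : 0 ≤ θ ^ b' := by positivity
    refine mul_le_mul (mul_le_mul_of_nonneg_right (mul_le_mul_of_nonneg_left hbθ' hAi.le)
      (by linarith)) (by linarith) (by positivity) (by positivity)
  · refine le_trans ?_ hκ
    exact mul_le_mul_of_nonneg_left (by linarith) (by linarith)

/-- the odd level -/
theorem odd_f {n k a : ℕ} (hk : Even k) (hn : Even n) (ha : Odd a) {A θ : ℝ} {M : ℤ}
    (hA : 0 < A) (hθ0 : 0 < θ) (hθ : θ < 1) (hP : Grw (sq (fser n k a)) A θ M k)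
    (he1 : A⁻¹ * θ ^ (k + 1) ≤ 1 - θ ^ (2 * (k + 1))) :
    ∀ m ≤ M, 0 ≤ sq (fser n (k + 1) a) m := by
  set b := a * (n + k + 1) with hb
  have hbo : Odd b := ha.mul (hn.add hk).add_one
  set P := fser n k a with hPdef
  set h := (P + X * P) * Z (2 * (k + 1)) with hh
  set u := h - X ^ (k + 1) * h with hu
  have hrec : h = P + X ^ 1 * P + X ^ (2 * (k + 1)) * h := by
    have := Z_mul (L := 2 * (k + 1)) (by omega)
    rw [hh]
    linear_combination (P + X * P) * this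
  have hD : u * (1 + X ^ (k + 1)) = P * (1 + X) := by
    have e1 : h * (1 - X ^ (2 * (k + 1))) = P + X * P := by linear_combination hrec
    have e3 : (X : PowerSeries ℚ) ^ (2 * (k + 1)) = X ^ (k + 1) * X ^ (k + 1) := by
      rw [← pow_add]
      congr 1
      ring
    rw [e3] at e1
    rw [hu]
    linear_combination e1
  have hw : fser n (k + 1) a = u + X ^ b * u := by
    have h1 := fser_one hk n a
    rw [← hPdef, ← hD, ← hb, hbo.neg_pow] at h1
    have hne : (1 + X ^ (k + 1) : PowerSeries ℚ) ≠ 0 := TB_ne' _ (by omega)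
    refine mul_right_cancel₀ hne ?_
    rw [h1]
    ring
  refine odd_abs (P := sq P) (h := sq h) (u := sq u) (b := b) hA hθ0 hθ hP
    (fun i hi => sq_neg hi) (fun i => ?_) (fun i => ?_) (fun i => ?_) he1
  · conv_lhs => rw [hrec]
    rw [sq_add, sq_add, sq_X_pow_mul, sq_X_pow_mul]
    norm_num
  · rw [hu, sq_sub, sq_X_pow_mul]
  · rw [hw, sq_add, sq_X_pow_mul]

end Pool.Agent.Lib.MP_cf17a0_co.S1
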