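import Pool.Agent.Lib.MP_cf17a0_co.S1.TE

/-! # Kernel check of the base of the tail lemma, part 1 -/

set_option autoImplicit false
set_option maxRecDepth 100000

namespace Pool.Agent.SignedQ.KB

theorem run_1 : run 128 1958 112 3 3 = true := by decide +kernel

end Pool.Agent.SignedQ.KB
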