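import Mathlib

/-! # Products over even numbers and over multiples of three (helper78)

`T` stands for `y ↦ tanh (y h)`, positive and monotone. -/

namespace Pool.Agent.SignedQ.An

open Finset

namespace Z3b

lemma abel_one (C : ℕ → ℝ) (q L : ℕ) (hq : q ≤ L) :
    C q = C L - ∑ y ∈ range L, (if q ≤ y then (C (y + 1) - C y) else 0) := by
  induction L, hq using Nat.le_induction with
  | base =>
    rw [sum_eq_zero, sub_zero]
    intro y hy
    rw [mem_range] at hy
    rw [if_neg (by omega)]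
  | succ L hL ih =>
    rw [sum_range_succ, if_pos hL]
    linarith

/-- Abel summation for a finite family of positions. -/
lemma log_fam (C : ℕ → ℝ) (L m : ℕ) (p : ℕ → ℕ) (hp : ∀ i < m, p i ≤ L) :
    ∑ i ∈ range m, C (p i) = m * C L -
      ∑ y ∈ range L, (((range m).filter (fun i => p i ≤ y)).card : ℝ) * (C (y + 1) - C y) := by
  rw [sum_congr rfl fun i hi => abel_one C (p i) L (hp i (mem_range.1 hi))]
  rw [sum_sub_distrib, sum_const, card_range, nsmul_eq_mul, sum_comm]
  congr 1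
  refine sum_congr rfl fun y _ => ?_
  rw [← sum_filter, sum_const, nsmul_eq_mul]

lemma card_pos_le (p : ℕ → ℕ) (m y c : ℕ) (h : ∀ i, p i ≤ y ↔ i < c) :
    ((range m).filter (fun i => p i ≤ y)).card = min m c := by
  have : (range m).filter (fun i => p i ≤ y) = range (min m c) := by
    ext i
    rw [mem_filter, mem_range, mem_range, h i, lt_min_iff]
  rw [this, card_range]

/-- The counting inequality. -/
lemma count_ineq (n k y : ℕ) (hk : 8 ≤ k) (h : n % 2 = 0 ∨ k % 2 = 0) (hy : y < n + k) :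
    min (k / 2) (y / 2 - n / 2) ≤ min (k / 3) (y / 3 - n / 3) +
      min (k / 2 - k / 3 - 1) ((y + 6 - max 2 (n - 1)) / 6) +
      (if n + k - 7 ≤ y then 1 else 0) + (if n + k - 1 ≤ y then 1 else 0) := by
  rcases Nat.lt_or_ge y (n + k - 7) with hy7 | hy7
  · have h1 : min (k / 2) (y / 2 - n / 2) ≤ k / 2 - k / 3 - 1 + min (k / 3) (y / 3 - n / 3) := by
      omega
    have h2 : min (k / 2) (y / 2 - n / 2) ≤ min (k / 3) (y / 3 - n / 3) +
        (y + 6 - max 2 (n - 1)) / 6 := by
      omega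
    rw [if_neg (by omega), if_neg (by omega)]
    omega
  · have h1 : min (k / 2) (y / 2 - n / 2) ≤ k / 2 - k / 3 + min (k / 3) (y / 3 - n / 3) +
        (if n + k - 1 ≤ y then 1 else 0) := by
      split_ifs <;> omega
    have h2 : min (k / 2) (y / 2 - n / 2) ≤ (y + 6 - max 2 (n - 1)) / 6 +
        min (k / 3) (y / 3 - n / 3) + 1 + (if n + k - 1 ≤ y then 1 else 0) := by
      split_ifs <;> omega
    rw [if_pos hy7]
    omega

/-- **The numerator comparison.** -/
theorem num_bound (T : ℕ → ℝ) (hT : ∀ y, 1 ≤ y → 0 < T y)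
    (hmono : ∀ x y, 1 ≤ x → x ≤ y → T x ≤ T y) (n k : ℕ) (hk : 8 ≤ k)
    (h : n % 2 = 0 ∨ k % 2 = 0) :
    (∏ i ∈ range (k / 3), T (3 * (n / 3 + i + 1))) *
      (∏ i ∈ range (k / 2 - k / 3 - 1), T (6 * i + max 2 (n - 1))) * T (n + k - 7) *
        T (n + k - 1) ≤ (∏ i ∈ range (k / 2), T (2 * (n / 2 + i + 1))) * T (n + k) := by
  obtain ⟨C, hC⟩ : ∃ C : ℕ → ℝ, C = fun y => Real.log (T (max y 1)) := ⟨_, rfl⟩
  have hCpos : ∀ y, 0 < T (max y 1) := fun y => hT _ (le_max_right _ _)
  have hCT : ∀ y, 1 ≤ y → T y = Real.exp (C y) := by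
    intro y hy
    rw [hC]
    simp only
    rw [max_eq_left hy, Real.exp_log (hT y hy)]
  have hCm : ∀ y, C y ≤ C (y + 1) := by
    intro y
    rw [hC]
    exact Real.log_le_log (hCpos y) (hmono _ _ (le_max_right _ _) (max_le_max (by omega) le_rfl))
  have key : (∑ i ∈ range (k / 3), C (3 * (n / 3 + i + 1))) +
      (∑ i ∈ range (k / 2 - k / 3 - 1), C (6 * i + max 2 (n - 1))) + C (n + k - 7) +
        C (n + k - 1) ≤ (∑ i ∈ range (k / 2), C (2 * (n / 2 + i + 1))) + C (n + k) := by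
    rw [log_fam C (n + k) (k / 3) (fun i => 3 * (n / 3 + i + 1)) (fun i hi => by omega),
      log_fam C (n + k) (k / 2 - k / 3 - 1) (fun i => 6 * i + max 2 (n - 1))
        (fun i hi => by omega),
      log_fam C (n + k) (k / 2) (fun i => 2 * (n / 2 + i + 1)) (fun i hi => by omega),
      abel_one C (n + k - 7) (n + k) (by omega), abel_one C (n + k - 1) (n + k) (by omega)]
    have e1 : ∀ y, ((range (k / 3)).filter (fun i => 3 * (n / 3 + i + 1) ≤ y)).card =
        min (k / 3) (y / 3 - n / 3) := fun y => card_pos_le _ _ _ _ fun i => by omega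
    have e2 : ∀ y, ((range (k / 2 - k / 3 - 1)).filter
        (fun i => 6 * i + max 2 (n - 1) ≤ y)).card =
        min (k / 2 - k / 3 - 1) ((y + 6 - max 2 (n - 1)) / 6) :=
      fun y => card_pos_le _ _ _ _ fun i => by omega
    have e3 : ∀ y, ((range (k / 2)).filter (fun i => 2 * (n / 2 + i + 1) ≤ y)).card =
        min (k / 2) (y / 2 - n / 2) := fun y => card_pos_le _ _ _ _ fun i => by omega
    simp_rw [e1, e2, e3]
    have hE : ((k / 2 : ℕ) : ℝ) = ((k / 3 : ℕ) : ℝ) + ((k / 2 - k / 3 - 1 : ℕ) : ℝ) + 1 := by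
      have : k / 2 = k / 3 + (k / 2 - k / 3 - 1) + 1 := by omega
      exact_mod_cast this
    have hsum : ∑ y ∈ range (n + k), ((min (k / 2) (y / 2 - n / 2) : ℕ) : ℝ) * (C (y + 1) - C y) ≤
        ∑ y ∈ range (n + k), (((min (k / 3) (y / 3 - n / 3) : ℕ) : ℝ) * (C (y + 1) - C y) +
          ((min (k / 2 - k / 3 - 1) ((y + 6 - max 2 (n - 1)) / 6) : ℕ) : ℝ) *
            (C (y + 1) - C y) + (if n + k - 7 ≤ y then (C (y + 1) - C y) else 0) +
          (if n + k - 1 ≤ y then (C (y + 1) - C y) else 0)) := by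
      apply sum_le_sum
      intro y hy
      rw [mem_range] at hy
      have h1 := count_ineq n k y hk h hy
      have h2 : ((min (k / 2) (y / 2 - n / 2) : ℕ) : ℝ) ≤ ((min (k / 3) (y / 3 - n / 3) : ℕ) : ℝ) +
          ((min (k / 2 - k / 3 - 1) ((y + 6 - max 2 (n - 1)) / 6) : ℕ) : ℝ) +
          (if n + k - 7 ≤ y then 1 else 0) + (if n + k - 1 ≤ y then 1 else 0) := by
        exact_mod_cast h1
      have h3 := mul_le_mul_of_nonneg_right h2 (sub_nonneg.2 (hCm y))
      refine h3.trans (le_of_eq ?_)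
      split_ifs <;> ring
    rw [sum_add_distrib, sum_add_distrib, sum_add_distrib] at hsum
    rw [hE]
    linarith
  have key2 := Real.exp_le_exp.2 key
  rw [Real.exp_add, Real.exp_add, Real.exp_add, Real.exp_add, Real.exp_sum, Real.exp_sum,
    Real.exp_sum] at key2
  rw [prod_congr rfl fun i _ => (hCT (3 * (n / 3 + i + 1)) (by omega)),
    prod_congr rfl fun i _ => (hCT (6 * i + max 2 (n - 1)) (by omega)),
    prod_congr rfl fun i _ => (hCT (2 * (n / 2 + i + 1)) (by omega)),
    hCT (n + k - 7) (by omega), hCT (n + k - 1) (by omega), hCT (n + k) (by omega)]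
  exact key2

/-- one block of the denominator comparison. -/
lemma den_six (T : ℕ → ℝ) (hT : ∀ y, 1 ≤ y → 0 < T y)
    (hcc : ∀ y, T (6 * y + 2) * T (6 * y + 4) ≤ T (6 * y + 3) ^ 2) (m : ℕ) :
    ∏ i ∈ range (3 * m), T (2 * (i + 1)) ≤ (∏ i ∈ range (2 * m), T (3 * (i + 1))) *
      ∏ i ∈ range m, T (6 * i + 3) := by
  induction m with
  | zero => simp
  | succ m ih =>
    rw [show 3 * (m + 1) = 3 * m + 1 + 1 + 1 by ring, show 2 * (m + 1) = 2 * m + 1 + 1 by ring,
      prod_range_succ, prod_range_succ, prod_range_succ, prod_range_succ _ (2 * m + 1),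
      prod_range_succ _ (2 * m), prod_range_succ _ m,
      show 2 * (3 * m + 1) = 6 * m + 2 by ring, show 2 * (3 * m + 1 + 1) = 6 * m + 4 by ring,
      show 2 * (3 * m + 1 + 1 + 1) = 6 * m + 6 by ring, show 3 * (2 * m + 1) = 6 * m + 3 by ring,
      show 3 * (2 * m + 1 + 1) = 6 * m + 6 by ring]
    have h1 := hcc m
    have p2 := hT (6 * m + 2) (by omega)
    have p3 := hT (6 * m + 3) (by omega)
    have p4 := hT (6 * m + 4) (by omega)
    have p6 := hT (6 * m + 6) (by omega)
    have q1 : 0 ≤ ∏ i ∈ range (3 * m), T (2 * (i + 1)) :=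
      prod_nonneg fun i _ => (hT _ (by omega)).le
    have h2 := mul_le_mul ih h1 (by positivity) (q1.trans ih)
    have h3 := mul_le_mul_of_nonneg_right h2 p6.le
    calc _ = _ := ?_
      _ ≤ _ := h3
      _ = _ := ?_
    · ring
    · ring

/-- **The denominator comparison.** -/
theorem den_bound (T : ℕ → ℝ) (hT : ∀ y, 1 ≤ y → 0 < T y)
    (hmono : ∀ x y, 1 ≤ x → x ≤ y → T x ≤ T y)
    (hcc : ∀ y, T (6 * y + 2) * T (6 * y + 4) ≤ T (6 * y + 3) ^ 2) (k : ℕ) :
    ∏ i ∈ range (k / 2), T (2 * (i + 1)) ≤ (∏ i ∈ range (k / 3), T (3 * (i + 1))) *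
      ∏ i ∈ range (k / 2 - k / 3), T (6 * i + 3) := by
  obtain ⟨m, r, hr, hk⟩ : ∃ m r, r < 6 ∧ k = 6 * m + r := ⟨k / 6, k % 6, by omega, by omega⟩
  have h0 := den_six T hT hcc m
  have p2 := hT (6 * m + 2) (by omega)
  have p3 := hT (6 * m + 3) (by omega)
  have p4 := hT (6 * m + 4) (by omega)
  have q0 : 0 ≤ ∏ i ∈ range (3 * m), T (2 * (i + 1)) :=
    prod_nonneg fun i _ => (hT _ (by omega)).le
  have q1 := q0.trans h0
  have h23 := hmono (6 * m + 2) (6 * m + 3) (by omega) (by omega)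
  have h24 := hcc m
  interval_cases r
  · rw [show k / 2 = 3 * m by omega, show k / 3 = 2 * m by omega, show 3 * m - 2 * m = m by omega]
    exact h0
  · rw [show k / 2 = 3 * m by omega, show k / 3 = 2 * m by omega, show 3 * m - 2 * m = m by omega]
    exact h0
  · rw [show k / 2 = 3 * m + 1 by omega, show k / 3 = 2 * m by omega,
      show 3 * m + 1 - 2 * m = m + 1 by omega, prod_range_succ, prod_range_succ _ m,
      show 2 * (3 * m + 1) = 6 * m + 2 by ring, ← mul_assoc]
    exact mul_le_mul h0 h23 p2.le q1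
  · rw [show k / 2 = 3 * m + 1 by omega, show k / 3 = 2 * m + 1 by omega,
      show 3 * m + 1 - (2 * m + 1) = m by omega, prod_range_succ, prod_range_succ _ (2 * m),
      show 2 * (3 * m + 1) = 6 * m + 2 by ring, show 3 * (2 * m + 1) = 6 * m + 3 by ring]
    refine (mul_le_mul h0 h23 p2.le q1).trans (le_of_eq (by ring))
  · rw [show k / 2 = 3 * m + 1 + 1 by omega, show k / 3 = 2 * m + 1 by omega,
      show 3 * m + 1 + 1 - (2 * m + 1) = m + 1 by omega, prod_range_succ, prod_range_succ,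
      prod_range_succ _ (2 * m), prod_range_succ _ m, show 2 * (3 * m + 1) = 6 * m + 2 by ring,
      show 2 * (3 * m + 1 + 1) = 6 * m + 4 by ring, show 3 * (2 * m + 1) = 6 * m + 3 by ring,
      mul_assoc _ (T (6 * m + 2))]
    refine (mul_le_mul h0 h24 (by positivity) q1).trans (le_of_eq (by ring))
  · rw [show k / 2 = 3 * m + 1 + 1 by omega, show k / 3 = 2 * m + 1 by omega,
      show 3 * m + 1 + 1 - (2 * m + 1) = m + 1 by omega, prod_range_succ, prod_range_succ,
      prod_range_succ _ (2 * m), prod_range_succ _ m, show 2 * (3 * m + 1) = 6 * m + 2 by ring,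
      show 2 * (3 * m + 1 + 1) = 6 * m + 4 by ring, show 3 * (2 * m + 1) = 6 * m + 3 by ring,
      mul_assoc _ (T (6 * m + 2))]
    refine (mul_le_mul h0 h24 (by positivity) q1).trans (le_of_eq (by ring))

end Z3b

end Pool.Agent.SignedQ.An
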