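import Pool.Agent.Lib.MP_cf17a0_co.S1.AsmA

/-! # Assembly, second part: the central coefficient -/

namespace Pool.Agent.SignedQ.An

open Polynomial Finset MeasureTheory

theorem fac_even_mono {u v : ℕ} (hu : Even u) (hv : Even v) (h : u ≤ v) {t : ℝ} (ht : 0 < t) :
    fac u t 0 ≤ fac v t 0 := by
  rw [fac_zero_even hu, fac_zero_even hv]
  have h1 : (u : ℝ) * t / 2 ≤ v * t / 2 := by
    have : (u : ℝ) ≤ v := by exact_mod_cast h
    nlinarith
  have h2 : 0 ≤ Real.sinh (u * t / 2) := Real.sinh_nonneg_iff.2 (by positivity)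
  exact pow_le_pow_left₀ h2 (Real.sinh_le_sinh.2 h1) 2

theorem fac_odd_mono {u v : ℕ} (hu : Odd u) (hv : Odd v) (h : u ≤ v) {t : ℝ} (ht : 0 < t) :
    fac u t 0 ≤ fac v t 0 := by
  rw [fac_zero_odd hu, fac_zero_odd hv]
  have h1 : (u : ℝ) * t / 2 ≤ v * t / 2 := by
    have : (u : ℝ) ≤ v := by exact_mod_cast h
    nlinarith
  refine pow_le_pow_left₀ (Real.cosh_pos _).le ?_ 2
  rw [Real.cosh_le_cosh, abs_of_nonneg (by positivity), abs_of_nonneg (by positivity)]
  exact h1

theorem GG_ge_one {n k a : ℕ} (hnk : Even (n * k)) (ha : Odd a) {t : ℝ} (ht : 0 < t) :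
    1 ≤ GG n k a t 0 := by
  have ha1 : 1 ≤ a := ha.pos
  have hf1 : 1 ≤ fac 1 t 0 := by
    rw [fac_zero_odd odd_one]
    exact one_le_pow₀ (Real.one_le_cosh _)
  unfold GG
  refine one_le_mul_of_one_le_of_one_le (one_le_pow₀ hf1) ?_
  have hle : ∀ v : ℕ, v ≤ a * v := fun v => Nat.le_mul_of_pos_left v ha1
  rcases Nat.even_or_odd n with hn | hn
  · -- same parities
    have : ∀ v ∈ range k, (1 : ℝ) ≤ fac (a * (n + v + 1)) t 0 / fac (v + 1) t 0 := by
      intro v _
      rw [one_le_div (fac_pos (by omega) ht 0)]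
      have h1 : v + 1 ≤ a * (n + v + 1) := (by omega : v + 1 ≤ n + v + 1).trans (hle _)
      rcases Nat.even_or_odd (v + 1) with hv | hv
      · exact fac_even_mono hv ((show Even (n + v + 1) by rw [add_assoc]; exact hn.add hv).mul_left a)
          h1 ht
      · exact fac_odd_mono hv (ha.mul (show Odd (n + v + 1) by rw [add_assoc]; exact hn.add_odd hv))
          h1 ht
    calc (1 : ℝ) = ∏ v ∈ range k, (1 : ℝ) := by simp
      _ ≤ _ := prod_le_prod (fun _ _ => zero_le_one) this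
  · -- opposite parities, `k` even
    have hk : Even k := by
      rcases Nat.even_mul.1 hnk with h | h
      · exact absurd h (Nat.not_even_iff_odd.2 hn)
      · exact h
    obtain ⟨j, rfl⟩ := hk
    rw [← two_mul]
    induction j with
    | zero => simp
    | succ j ih =>
      have ih' := ih (by rw [← two_mul]; exact (even_two_mul j).mul_left n)
      rw [show 2 * (j + 1) = 2 * j + 1 + 1 by ring, prod_range_succ, prod_range_succ]
      have p1 : ∀ v, 1 ≤ v → 0 < fac v t 0 := fun v hv => fac_pos hv ht 0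
      have q1 : fac (2 * j + 1 + 1) t 0 ≤ fac (a * (n + 2 * j + 1)) t 0 := by
        refine fac_even_mono ⟨j + 1, by ring⟩ (Even.mul_left ?_ a) ?_ ht
        · obtain ⟨i, rfl⟩ := hn
          exact ⟨i + j + 1, by ring⟩
        · refine le_trans ?_ (hle _)
          obtain ⟨i, rfl⟩ := hn
          omega
      have q2 : fac (2 * j + 1) t 0 ≤ fac (a * (n + (2 * j + 1) + 1)) t 0 := by
        refine fac_odd_mono ⟨j, rfl⟩ (ha.mul ?_) ?_ ht
        · obtain ⟨i, rfl⟩ := hn
          exact ⟨i + j + 1, by ring⟩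
        · refine le_trans ?_ (hle _)
          omega
      have e : fac (a * (n + 2 * j + 1)) t 0 / fac (2 * j + 1) t 0 *
          (fac (a * (n + (2 * j + 1) + 1)) t 0 / fac (2 * j + 1 + 1) t 0) =
          fac (a * (n + 2 * j + 1)) t 0 / fac (2 * j + 1 + 1) t 0 *
          (fac (a * (n + (2 * j + 1) + 1)) t 0 / fac (2 * j + 1) t 0) := by
        have := (p1 (2 * j + 1) (by omega)).ne'
        have := (p1 (2 * j + 1 + 1) (by omega)).ne'
        field_simp
      rw [mul_assoc, e]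
      refine one_le_mul_of_one_le_of_one_le ih' (one_le_mul_of_one_le_of_one_le ?_ ?_)
      · rw [one_le_div (p1 _ (by omega))]; exact q1
      · rw [one_le_div (p1 _ (by omega))]; exact q2

theorem slope_nonneg {n k a : ℕ} (ha : 1 ≤ a) {t : ℝ} (ht : 0 < t) : 0 ≤ slope n k a t := by
  have h1 := hasDerivAt_log_GG (n := n) (k := k) ha ht
  have hm : MonotoneOn (fun t => 1 / 2 * Real.log (GG n k a t 0)) (Set.Ioi 0) := by
    intro x hx y hy hxy
    have := Real.log_le_log (GG_pos (n := n) (k := k) ha hx 0) (GG_mono ha hx hxy 0)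
    simp only
    linarith
  have h2 := hm.derivWithin_nonneg (x := t)
  rwa [(h1.hasDerivWithinAt).derivWithin (uniqueDiffOn_Ioi 0 t ht)] at h2

theorem rev_ge {n k a : ℕ} (hnk : Even (n * k)) (ha : Odd a) {f : ℚ[X]}
    (hf : f * poch (-X : ℚ[X]) k = num n k a) {t : ℝ} (ht : 0 < t) :
    Real.exp (-(t * f.natDegree)) ≤ rev f (Real.exp (-t)) := by
  have ha1 : 1 ≤ a := ha.pos
  have hF : 0 < rev f (Real.exp (-t)) :=
    rev_pos ha1 hf (Real.exp_pos _).le (by rw [Real.exp_lt_one_iff]; linarith)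
  have h1 := norm_sq_cev ha1 hf ht 0
  rw [norm_cev_zero ha1 hf ht] at h1
  have h2 := GG_ge_one hnk ha ht
  have h3 : Real.exp (-(t * f.natDegree)) ≤ rev f (Real.exp (-t)) ^ 2 := by
    rw [h1]
    have h4 : (1 : ℝ) ≤ 4 ^ ((k + 1) / 2) := one_le_pow₀ (by norm_num)
    have h5 := Real.exp_pos (-(t * f.natDegree))
    have h6 : (1 : ℝ) ≤ 4 ^ ((k + 1) / 2) * GG n k a t 0 := one_le_mul_of_one_le_of_one_le h4 h2
    calc Real.exp (-(t * f.natDegree)) = 1 * Real.exp (-(t * f.natDegree)) := by ring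
      _ ≤ (4 ^ ((k + 1) / 2) * GG n k a t 0) * Real.exp (-(t * f.natDegree)) :=
        mul_le_mul_of_nonneg_right h6 h5.le
      _ = _ := by ring
  have h5 : Real.exp (-(t * f.natDegree)) ≤ 1 := by
    rw [Real.exp_le_one_iff]
    have : (0 : ℝ) ≤ t * f.natDegree := by positivity
    linarith
  have h6 := Real.exp_pos (-(t * f.natDegree))
  by_contra hcon
  push Not at hcon
  nlinarith

/-- The sum of the absolute values of the coefficients. -/
noncomputable def l1 (f : ℚ[X]) : ℝ := ∑ j ∈ range (f.natDegree + 1), |(f.coeff j : ℝ)|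

theorem norm_cev_le_l1 (f : ℚ[X]) {t : ℝ} (ht : 0 < t) (θ : ℝ) : ‖cev f (pt t θ)‖ ≤ l1 f := by
  rw [cev_eq_sum]
  refine (norm_sum_le _ _).trans (sum_le_sum fun j _ => ?_)
  rw [norm_mul, norm_pow, norm_pt]
  have h1 : ‖(f.coeff j : ℂ)‖ = |(f.coeff j : ℝ)| := by
    rw [show ((f.coeff j : ℚ) : ℂ) = (((f.coeff j : ℚ) : ℝ) : ℂ) by push_cast; rfl,
      Complex.norm_real, Real.norm_eq_abs]
  rw [h1]
  have h2 : Real.exp (-t) ^ j ≤ 1 := by
    refine pow_le_one₀ (Real.exp_pos _).le ?_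
    rw [Real.exp_le_one_iff]; linarith
  have h3 := abs_nonneg (f.coeff j : ℝ)
  nlinarith

theorem norm_exp_sub_le (x y : ℝ) :
    ‖Complex.exp (-((x : ℝ) : ℂ) * Complex.I) - Complex.exp (-((y : ℝ) : ℂ) * Complex.I)‖ ≤
      |x - y| := by
  have h1 : Complex.exp (-((x : ℝ) : ℂ) * Complex.I) - Complex.exp (-((y : ℝ) : ℂ) * Complex.I) =
      Complex.exp (-((y : ℝ) : ℂ) * Complex.I) *
        (Complex.exp (Complex.I * ((y - x : ℝ) : ℂ)) - 1) := by
    rw [mul_sub, mul_one, ← Complex.exp_add]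
    congr 2
    push_cast
    ring
  rw [h1, norm_mul, ← Complex.ofReal_neg, Complex.norm_exp_ofReal_mul_I, one_mul]
  have := Real.norm_exp_I_mul_ofReal_sub_one_le (x := y - x)
  rw [Real.norm_eq_abs, abs_sub_comm] at this
  exact this

theorem reR_sub_le (f : ℚ[X]) {t : ℝ} (ht : 0 < t) (μ ν : ℝ) {θ : ℝ} (h0 : 0 ≤ θ)
    (h1 : θ ≤ Real.pi) : |reR f t μ θ - reR f t ν θ| ≤ l1 f * (|μ - ν| * Real.pi) := by
  unfold reR
  rw [← Complex.sub_re, ← mul_sub]
  refine (Complex.abs_re_le_norm _).trans ?_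
  rw [norm_mul]
  refine mul_le_mul (norm_cev_le_l1 f ht θ) ?_ (norm_nonneg _) ?_
  · refine (norm_exp_sub_le (μ * θ) (ν * θ)).trans ?_
    rw [← sub_mul, abs_mul, abs_of_nonneg h0]
    exact mul_le_mul_of_nonneg_left h1 (abs_nonneg _)
  · exact sum_nonneg fun _ _ => abs_nonneg _

/-- **The central coefficient.** -/
theorem coeff_centre (P : Parts) {n k a : ℕ} (hp : Par n k a) (hk : 26 ≤ k) {f : ℚ[X]}
    (hf : f * poch (-X : ℚ[X]) k = num n k a) (hpos : PosAll k a) {m : ℕ}
    (hm : 2 * m = f.natDegree) : 0 < f.coeff m := by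
  obtain ⟨hnk, hao, ha3, _⟩ := hp
  have hp : Par n k a := ⟨hnk, hao, ha3, by assumption⟩
  have ha : 1 ≤ a := by omega
  obtain ⟨C, hC⟩ := P.sig.2 n k a hp
  set S : ℝ := (((k + 1) / 2 : ℕ) + ∑ v ∈ range k, ((a * (n + v + 1) : ℕ) : ℝ) ^ 2) / 4 with hS
  have hS0 : 0 ≤ S := by positivity
  set C' : ℝ := max C 1 with hC'
  have hC'1 : 1 ≤ C' := le_max_right _ _
  set L : ℝ := l1 f with hL
  have hL0 : 0 ≤ L := sum_nonneg fun _ _ => abs_nonneg _
  have hpi := Real.pi_pos
  have hk' : (26 : ℝ) ≤ k := by exact_mod_cast hk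
  -- the choice of `t`
  obtain ⟨t, ht, ht1, ht3, ht2⟩ : ∃ t : ℝ, 0 < t ∧ t ≤ 1 / 200000 ∧ t ≤ 1 / k ∧
      L * (S * t * Real.pi) * Real.pi * C' < 0.07 * Real.exp (-(1 * (f.natDegree : ℝ))) := by
    set E : ℝ := 0.07 * Real.exp (-(1 * (f.natDegree : ℝ))) with hE
    have hE0 : 0 < E := by positivity
    set W : ℝ := L * S * Real.pi * Real.pi * C' + 1 with hW
    have hW0 : 1 ≤ W := by
      have : 0 ≤ L * S * Real.pi * Real.pi * C' := by positivity
      linarith
    have hk0 : (0 : ℝ) < k := by linarith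
    refine ⟨min (min (1 / 200000) (1 / k)) (E / W / 2),
      lt_min (lt_min (by norm_num) (by positivity)) (by positivity),
      (min_le_left _ _).trans (min_le_left _ _), (min_le_left _ _).trans (min_le_right _ _), ?_⟩
    set x := min (min (1 / 200000 : ℝ) (1 / k)) (E / W / 2) with hx
    have h1 : x ≤ E / W / 2 := min_le_right _ _
    have h2 : L * S * Real.pi * Real.pi * C' ≤ W := by rw [hW]; linarith
    have h0 : 0 ≤ x := le_min (le_min (by norm_num) (by positivity)) (by positivity)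
    calc L * (S * x * Real.pi) * Real.pi * C'
        = (L * S * Real.pi * Real.pi * C') * x := by ring
      _ ≤ W * (E / W / 2) := mul_le_mul h2 h1 h0 (by linarith)
      _ = E / 2 := by field_simp
      _ < E := by linarith
  have hd : DOM k t := by
    have hlog : (1 : ℝ) ≤ Real.log k := by
      rw [Real.le_log_iff_exp_le (by linarith)]
      have := Real.exp_one_lt_d9
      linarith
    refine ⟨hk, ht, by linarith, by linarith, ?_⟩
    have : (k : ℝ) * t ≤ 1 := by
      have := mul_le_mul_of_nonneg_left ht3 (by linarith : (0 : ℝ) ≤ k)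
      rwa [mul_one_div_cancel (by linarith : (k : ℝ) ≠ 0)] at this
    linarith
  have hF : 0 < rev f (Real.exp (-t)) :=
    rev_pos ha hf (Real.exp_pos _).le (by rw [Real.exp_lt_one_iff]; linarith)
  have hs2 := P.sig.1 n k a t hp hd
  have hσ : 0 < sigma n k a t := Real.sqrt_pos.2 hs2
  have hσC : sigma n k a t ≤ C' := by
    unfold sigma
    rw [Real.sqrt_le_left (by linarith)]
    have h1 : sig2 n k a t ≤ C' := (hC t hd).trans (le_max_left _ _)
    nlinarith
  have hrev : Real.exp (-(1 * (f.natDegree : ℝ))) ≤ rev f (Real.exp (-t)) := by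
    refine le_trans ?_ (rev_ge hnk hao hf ht)
    rw [Real.exp_le_exp]
    have : (0 : ℝ) ≤ f.natDegree := Nat.cast_nonneg _
    nlinarith
  have h1 := lower P hp hd hf hpos
  have h2 : 0.079 * (Real.exp (-(1 * (f.natDegree : ℝ))) / C') ≤
      ((if 500 ≤ k then (0.45 : ℝ) else 0.24) - 0.161) * (rev f (Real.exp (-t)) / sigma n k a t) := by
    refine mul_le_mul ?_ ?_ (by positivity) ?_
    · split <;> norm_num
    · exact div_le_div₀ hF.le hrev hσ hσC
    · split <;> norm_num
  -- comparison of the integrals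
  have hmu : |(m : ℝ) - mu n k a f t| ≤ S * t := by
    have e : (m : ℝ) - mu n k a f t = slope n k a t := by
      unfold mu
      rw [← hm]
      push_cast
      ring
    rw [e, abs_of_nonneg (slope_nonneg ha ht)]
    exact slope_le hnk hao ht
  have hj : ∀ μ a' b' : ℝ, IntervalIntegrable (reR f t μ) volume a' b' := fun μ a' b' =>
    (reR_continuous f t _).intervalIntegrable a' b'
  have h3 : (∫ θ in (0 : ℝ)..Real.pi, reR f t (mu n k a f t) θ) -
      ∫ θ in (0 : ℝ)..Real.pi, reR f t m θ ≤ L * (S * t * Real.pi) * Real.pi := by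
    rw [← intervalIntegral.integral_sub (hj _ _ _) (hj _ _ _)]
    have : ∫ θ in (0 : ℝ)..Real.pi, (reR f t (mu n k a f t) θ - reR f t m θ) ≤
        ∫ θ in (0 : ℝ)..Real.pi, (L * (S * t * Real.pi)) := by
      refine intervalIntegral.integral_mono_on hpi.le ((hj _ _ _).sub (hj _ _ _)) (by simp)
        fun θ hθ => ?_
      have h4 := reR_sub_le f ht (mu n k a f t) m hθ.1 hθ.2
      have h5 := (abs_le.1 h4).2
      rw [abs_sub_comm] at h5
      refine h5.trans (mul_le_mul_of_nonneg_left (mul_le_mul_of_nonneg_right hmu hpi.le) hL0)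
    refine this.trans (le_of_eq ?_)
    rw [intervalIntegral.integral_const, smul_eq_mul]
    ring
  have h6 : L * (S * t * Real.pi) * Real.pi < 0.07 * (Real.exp (-(1 * (f.natDegree : ℝ))) / C') := by
    rw [mul_div_assoc', lt_div_iff₀ (by linarith)]
    exact ht2
  have h7 : 0 < Real.exp (-(1 * (f.natDegree : ℝ))) / C' := by positivity
  have h8 : 0 < ∫ θ in (0 : ℝ)..Real.pi, reR f t m θ := by linarith
  have h9 : ∫ θ in (0 : ℝ)..Real.pi, reR f t m θ = ∫ θ in (0 : ℝ)..Real.pi, reT f t m θ := rfl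
  rw [h9, coeff_eq_integral] at h8
  have h10 : 0 < Real.pi * (f.coeff m : ℝ) := (pos_iff_pos_of_mul_pos h8).2 (Real.exp_pos _)
  have h11 : (0 : ℝ) < (f.coeff m : ℝ) := (pos_iff_pos_of_mul_pos h10).1 hpi
  exact_mod_cast h11

end Pool.Agent.SignedQ.An
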