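import Pool.Agent.Lib.MP_cf17a0_co.S1.AsmB
import Pool.Agent.Lib.MP_cf17a0_co.KohC

/-! # Assembly, third part: the theorem from its parts -/

namespace Pool.Agent.SignedQ.An

open Polynomial Finset MeasureTheory

/-- Everything. -/
structure All : Prop where
  parts : Parts
  loc : LOC
  smallk : SMALLK
  fd : FD
  edge : EDGE
  tail : TAIL

theorem main_three (H : All) : ∀ k : ℕ, 4 ≤ k → ∀ n a : ℕ, Even (n * k) → Odd a → 3 ≤ a →
    Pos n k a := by
  intro k
  induction k using Nat.strong_induction_on with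
  | _ k ih =>
    intro hk4 n a hnk hao ha3
    rcases Nat.lt_or_ge k 26 with hk | hk
    · exact H.smallk n k a hk4 (by omega) hnk hao ha3
    by_cases hsm : Small k n a
    · exact H.fd n k a hk hnk hao ha3 hsm
    have hp : Par n k a := ⟨hnk, hao, ha3, hsm⟩
    have hpos : PosAll k a := fun k' hk' h24 n' hn' =>
      ih k' hk' (by omega) n' a hn' hao ha3
    intro f hf
    refine half hnk hao hf fun m hm => ?_
    rcases Nat.eq_or_lt_of_le hm with hc | hlt
    · exact (coeff_centre H.parts hp hk hf hpos hc).le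
    rcases Nat.lt_or_ge 560 k with hk5 | hk5
    · -- large `k`
      rcases le_or_gt (m : ℝ) ((k / (2 * Real.log k)) ^ 2) with hmk | hmk
      · exact H.tail H.loc (grow H.parts) k hk5
          (fun k' hk' h4' n' a' he' ho' h3' => ih k' hk' h4' n' a' he' ho' h3') n a f hnk hao ha3
          hf m hmk
      · have hs : (0 : ℝ) < (f.natDegree : ℝ) / 2 - m := by
          have : (2 * m : ℝ) < f.natDegree := by exact_mod_cast hlt
          linarith
        have hm0 : (0 : ℝ) < m := lt_of_le_of_lt (by positivity) hmk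
        obtain ⟨t, ht, hst⟩ := exists_saddle hnk hao hf hs (by linarith)
        have hmu : mu n k a f t = m := by unfold mu; rw [hst]; ring
        have hd : DOM k t := (H.loc n k a t f hnk hao ha3 hk ht hf).2.1 hk5 (by rw [hmu]; exact hmk.le)
        exact (coeff_pos H.parts hp hd hf hpos hmu).le
    · rcases Nat.lt_or_ge m 2048 with hm2 | hm2
      · exact H.edge n k a f hk hk5 hnk hao ha3 hf m hm2
      · have hs : (0 : ℝ) < (f.natDegree : ℝ) / 2 - m := by
          have : (2 * m : ℝ) < f.natDegree := by exact_mod_cast hlt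
          linarith
        have hm0 : (2048 : ℝ) ≤ m := by exact_mod_cast hm2
        obtain ⟨t, ht, hst⟩ := exists_saddle hnk hao hf hs (by linarith)
        have hmu : mu n k a f t = m := by unfold mu; rw [hst]; ring
        have hd : DOM k t := (H.loc n k a t f hnk hao ha3 hk ht hf).1 hk5 (by rw [hmu]; exact hm0)
        exact (coeff_pos H.parts hp hd hf hpos hmu).le

/-- **The frozen statement from the parts.** -/
theorem frozen (H : All) : ∀ n k a : ℕ, Even (n * k) → Odd a → 3 < k → ∀ i : ℕ,
      0 ≤ (((1 + Polynomial.X : Polynomial ℚ) ^ ((k + 1) / 2) *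
              ∏ v ∈ Finset.Icc 1 k, (1 - (-Polynomial.X : Polynomial ℚ) ^ (a * (n + v)))) /
            ∏ v ∈ Finset.Icc 1 k, (1 - (-Polynomial.X : Polynomial ℚ) ^ v)).coeff i := by
  intro n k a hnk ha hk i
  have hicc : ∀ F : ℕ → Polynomial ℚ, ∏ v ∈ Finset.Icc 1 k, F v = ∏ v ∈ range k, F (v + 1) := by
    intro F
    rw [range_eq_Ico, prod_Ico_add' F 0 k 1, zero_add]
    congr 1
  have hden : ∏ v ∈ Finset.Icc 1 k, (1 - (-Polynomial.X : Polynomial ℚ) ^ v) =
      poch (-Polynomial.X) k := by
    rw [hicc]; rfl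
  have hnum : (1 + Polynomial.X : Polynomial ℚ) ^ ((k + 1) / 2) *
      ∏ v ∈ Finset.Icc 1 k, (1 - (-Polynomial.X : Polynomial ℚ) ^ (a * (n + v))) = num n k a := by
    rw [hicc]; rfl
  rw [hden, hnum]
  obtain ⟨f, hf⟩ := den_dvd n k a ha.pos
  have hne : poch (-Polynomial.X : Polynomial ℚ) k ≠ 0 :=
    poch_ne_zero _ (fun i => one_sub_ne _ (by omega)) k
  have hf' : f * poch (-Polynomial.X : Polynomial ℚ) k = num n k a := by rw [hf, mul_comm]
  rw [hf, mul_div_cancel_left₀ _ hne]
  rcases Nat.lt_or_ge a 2 with h1 | h1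
  · obtain rfl : a = 1 := by have := ha.pos; omega
    exact Koh.a_one n k hnk f hf' i
  · have ha3 : 3 ≤ a := by
      obtain ⟨j, rfl⟩ := ha
      omega
    exact main_three H k (by omega) n a hnk ha ha3 f hf' i

end Pool.Agent.SignedQ.An
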