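import Pool.Agent.Lib.MP_cf17a0_co.KCEdge

/-! # The large exponents: one check for all `(n, a)` with `a (n + 1)` large -/

set_option autoImplicit false

namespace Pool.Agent.SignedQ.EdgeL

open PowerSeries Finset Pool.Agent.SignedQ.KC

/-- The inverse of `1 - g` has nonnegative coefficients. -/
theorem exists_inv {g : ℚ⟦X⟧} (hg : NN g) (h0 : coeff 0 g = 0) :
    ∃ U : ℚ⟦X⟧, NN U ∧ (1 - g) * U = 1 := by
  refine ⟨invOfUnit (1 - g) 1, ?_, ?_⟩
  · have h1 : (1 - g) * invOfUnit (1 - g) 1 = 1 := by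
      refine mul_invOfUnit _ _ ?_
      rw [map_sub, map_one]
      rw [coeff_zero_eq_constantCoeff_apply] at h0
      rw [h0]
      simp
    have h2 : invOfUnit (1 - g) 1 = 1 + g * invOfUnit (1 - g) 1 := by
      have : (1 - g) * invOfUnit (1 - g) 1 = invOfUnit (1 - g) 1 - g * invOfUnit (1 - g) 1 := by
        ring
      rw [this] at h1
      linear_combination h1
    intro n
    induction n using Nat.strong_induction_on with
    | _ n ih =>
      rw [h2, map_add, coeff_mul]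
      refine add_nonneg (NN.one n) (sum_nonneg fun p hp => ?_)
      have hpn := mem_antidiagonal.1 hp
      rcases Nat.eq_zero_or_pos p.1 with hz | hz
      · rw [hz, h0, zero_mul]
      · exact mul_nonneg (hg _) (ih _ (by omega))
  · refine mul_invOfUnit _ _ ?_
    rw [map_sub, map_one]
    rw [coeff_zero_eq_constantCoeff_apply] at h0
    rw [h0]
    simp

theorem NN_Xpow (e : ℕ) : NN ((X : ℚ⟦X⟧) ^ e) := NN.varX.pow e

theorem coeff_zero_Xpow {e : ℕ} (he : 1 ≤ e) : coeff 0 ((X : ℚ⟦X⟧) ^ e) = 0 := by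
  rw [coeff_X_pow, if_neg (by omega)]

/-- `∏ (1 - X^e) = (1 - ∑ X^e) R` with `R ≥ 0`. -/
theorem prod_even {ι : Type*} [DecidableEq ι] (s : Finset ι) (e : ι → ℕ)
    (he : ∀ j ∈ s, 1 ≤ e j) :
    ∃ R : ℚ⟦X⟧, NN R ∧ ∏ j ∈ s, (1 - (X : ℚ⟦X⟧) ^ e j) = (1 - ∑ j ∈ s, X ^ e j) * R := by
  induction s using Finset.induction_on with
  | empty => exact ⟨1, NN.one, by simp⟩
  | insert j s hj ih =>
    obtain ⟨R, hR, hRe⟩ := ih fun i hi => he i (mem_insert_of_mem hi)
    have hg : NN (∑ j ∈ s, (X : ℚ⟦X⟧) ^ e j) := NN.sum fun i _ => NN_Xpow _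
    have hg' : NN ((X : ℚ⟦X⟧) ^ e j + ∑ j ∈ s, (X : ℚ⟦X⟧) ^ e j) := (NN_Xpow _).add hg
    obtain ⟨U, hU, hUe⟩ := exists_inv hg' (by
      rw [map_add, map_sum, coeff_zero_Xpow (he j (mem_insert_self j s)), zero_add]
      exact sum_eq_zero fun i hi => coeff_zero_Xpow (he i (mem_insert_of_mem hi)))
    refine ⟨R * (1 + X ^ e j * (∑ j ∈ s, (X : ℚ⟦X⟧) ^ e j) * U),
      hR.mul (NN.one.add (((NN_Xpow _).mul hg).mul hU)), ?_⟩
    rw [prod_insert hj, sum_insert hj, hRe]
    set g := ∑ j ∈ s, (X : ℚ⟦X⟧) ^ e j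
    linear_combination (-(R * X ^ e j * g)) * hUe

section

variable {M b0 : ℕ} {p : ℕ → ℚ}

theorem mono_even (h4 : ∀ i, 4 ≤ i → i < M → p (i - 4) ≤ p i)
    (h6 : ∀ i, 6 ≤ i → i < M → p (i - 6) ≤ p i) : ∀ d, 2 ≤ d → ∀ i, i + 2 * d < M →
    p i ≤ p (i + 2 * d) := by
  intro d
  induction d using Nat.strong_induction_on with
  | _ d ih =>
    intro hd i hi
    rcases Nat.lt_or_ge d 4 with h | h
    · interval_cases d
      · have := h4 (i + 2 * 2) (by omega) hi
        rwa [show i + 2 * 2 - 4 = i by omega] at this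
      · have := h6 (i + 2 * 3) (by omega) hi
        rwa [show i + 2 * 3 - 6 = i by omega] at this
    · have h1 := ih (d - 2) (by omega) (by omega) i (by omega)
      have h2 := h4 (i + 2 * d) (by omega) hi
      rw [show i + 2 * d - 4 = i + 2 * (d - 2) by omega] at h2
      exact h1.trans h2

theorem sum_six (h7 : ∀ i < M, (if b0 ≤ i then p (i - b0) else 0) +
    (if 6 ≤ i then p (i - 6) else 0) ≤ p i) (h0 : ∀ i < M, 0 ≤ p i) : ∀ r i, i < M →
    ∑ j ∈ range r, (if b0 + 6 * j ≤ i then p (i - (b0 + 6 * j)) else 0) ≤ p i := by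
  intro r
  induction r with
  | zero => intro i hi; simpa using h0 i hi
  | succ r ih =>
    intro i hi
    rw [sum_range_succ']
    have h1 : ∑ j ∈ range r, (if b0 + 6 * (j + 1) ≤ i then p (i - (b0 + 6 * (j + 1))) else 0) ≤
        (if 6 ≤ i then p (i - 6) else 0) := by
      split
      · rename_i h6
        refine le_trans (le_of_eq ?_) (ih (i - 6) (by omega))
        refine sum_congr rfl fun j _ => ?_
        by_cases hc : b0 + 6 * (j + 1) ≤ i
        · rw [if_pos hc, if_pos (by omega), show i - 6 - (b0 + 6 * j) = i - (b0 + 6 * (j + 1)) by omega]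
        · rw [if_neg hc, if_neg (by omega)]
      · rename_i h6
        refine (sum_eq_zero fun j _ => if_neg (by omega)).le
    have h2 := h7 i hi
    simp only [mul_zero, add_zero]
    linarith

/-- The sum over the even exponents. -/
theorem sum_even_le (h4 : ∀ i, 4 ≤ i → i < M → p (i - 4) ≤ p i)
    (h6 : ∀ i, 6 ≤ i → i < M → p (i - 6) ≤ p i)
    (h7 : ∀ i < M, (if b0 ≤ i then p (i - b0) else 0) + (if 6 ≤ i then p (i - 6) else 0) ≤ p i)
    (h0 : ∀ i < M, 0 ≤ p i) (hb : Even b0) {n a k : ℕ} (ha : Odd a) (ha3 : 3 ≤ a)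
    (hab : b0 + 4 ≤ a * (n + 1)) {i : ℕ} (hi : i < M) :
    ∑ v ∈ (range k).filter (fun v => Even (n + v + 1)),
      (if a * (n + v + 1) ≤ i then p (i - a * (n + v + 1)) else 0) ≤ p i := by
  set F : ℕ → ℚ := fun j => if b0 + 6 * j ≤ i then p (i - (b0 + 6 * j)) else 0 with hF
  have hF0 : ∀ j, 0 ≤ F j := by
    intro j
    simp only [hF]
    split
    · exact h0 _ (by omega)
    · exact le_rfl
  have h1 : ∀ v ∈ (range k).filter (fun v => Even (n + v + 1)),
      (if a * (n + v + 1) ≤ i then p (i - a * (n + v + 1)) else 0) ≤ F (v / 2) := by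
    intro v hv
    have hve := (mem_filter.1 hv).2
    have h2 : a * (n + 1) + 3 * v ≤ a * (n + v + 1) := by
      have : 3 * v ≤ a * v := Nat.mul_le_mul_right v ha3
      nlinarith
    have h3 : Even (a * (n + v + 1)) := hve.mul_left a
    split
    · rename_i hle
      simp only [hF]
      have h5 : b0 + 6 * (v / 2) + 4 ≤ a * (n + v + 1) := by omega
      rw [if_pos (by omega)]
      obtain ⟨c, hc⟩ := h3
      obtain ⟨b', hb'⟩ := hb
      have hd := mono_even h4 h6 ((a * (n + v + 1) - (b0 + 6 * (v / 2))) / 2) (by omega)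
        (i - a * (n + v + 1)) (by omega)
      rwa [show i - a * (n + v + 1) + 2 * ((a * (n + v + 1) - (b0 + 6 * (v / 2))) / 2) =
        i - (b0 + 6 * (v / 2)) by omega] at hd
    · exact hF0 _
  refine (sum_le_sum h1).trans ?_
  have hinj : Set.InjOn (fun v => v / 2) ((range k).filter (fun v => Even (n + v + 1)) : Finset ℕ) := by
    intro x hx y hy hxy
    have hx' := (mem_filter.1 (mem_coe.1 hx)).2
    have hy' := (mem_filter.1 (mem_coe.1 hy)).2
    simp only at hxy
    rw [Nat.even_iff] at hx' hy'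
    omega
  have h2 : ∑ v ∈ (range k).filter (fun v => Even (n + v + 1)), F (v / 2) =
      ∑ j ∈ ((range k).filter (fun v => Even (n + v + 1))).image (fun v => v / 2), F j :=
    (sum_image (f := F) hinj).symm
  rw [h2]
  have h3 : ((range k).filter (fun v => Even (n + v + 1))).image (fun v => v / 2) ⊆ range k := by
    intro j hj
    obtain ⟨v, hv, rfl⟩ := mem_image.1 hj
    have := mem_range.1 (mem_filter.1 hv).1
    exact mem_range.2 (by omega)
  exact (sum_le_sum_of_subset_of_nonneg h3 fun j _ _ => hF0 j).trans (sum_six h7 h0 k i hi)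

end

theorem coeff_Xpow_mul (P : ℚ⟦X⟧) (e i : ℕ) :
    coeff i (P * X ^ e) = if e ≤ i then coeff (i - e) P else 0 := by
  rw [coeff_mul_X_pow']

/-- **The large exponents.** -/
theorem large_rat {M b0 : ℕ} {P : ℚ⟦X⟧} (h0 : ∀ i < M, 0 ≤ coeff i P)
    (h4 : ∀ i < M, 0 ≤ coeff i (P * (1 - X ^ 4))) (h6 : ∀ i < M, 0 ≤ coeff i (P * (1 - X ^ 6)))
    (h7 : ∀ i < M, 0 ≤ coeff i (P * (1 - X ^ 6 - X ^ b0))) (hb : Even b0) {n a k : ℕ}
    (ha : Odd a) (ha3 : 3 ≤ a) (hab : b0 + 4 ≤ a * (n + 1)) :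
    ∀ i < M, 0 ≤ coeff i (P * ∏ v ∈ range k, (1 - (-X : ℚ⟦X⟧) ^ (a * (n + v + 1)))) := by
  classical
  -- the even and the odd exponents
  have e1 : ∏ v ∈ range k, (1 - (-X : ℚ⟦X⟧) ^ (a * (n + v + 1))) =
      (∏ v ∈ (range k).filter (fun v => Even (n + v + 1)), (1 - (X : ℚ⟦X⟧) ^ (a * (n + v + 1)))) *
      ∏ v ∈ (range k).filter (fun v => ¬ Even (n + v + 1)), (1 + (X : ℚ⟦X⟧) ^ (a * (n + v + 1))) := by
    rw [← prod_filter_mul_prod_filter_not (range k) (fun v => Even (n + v + 1))]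
    congr 1
    · refine prod_congr rfl fun v hv => ?_
      rw [(((mem_filter.1 hv).2).mul_left a).neg_pow]
    · refine prod_congr rfl fun v hv => ?_
      have : Odd (a * (n + v + 1)) := ha.mul (Nat.not_even_iff_odd.1 (mem_filter.1 hv).2)
      rw [this.neg_pow, sub_neg_eq_add]
  have ha1 : 1 ≤ a := by omega
  obtain ⟨R, hR, hRe⟩ := prod_even ((range k).filter (fun v => Even (n + v + 1)))
    (fun v => a * (n + v + 1)) (fun v _ => Nat.mul_pos ha1 (by omega))
  have hO : NN (∏ v ∈ (range k).filter (fun v => ¬ Even (n + v + 1)),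
      (1 + (X : ℚ⟦X⟧) ^ (a * (n + v + 1)))) :=
    prod_induction _ NN (fun _ _ => NN.mul) NN.one fun v _ => NN.one.add (NN_Xpow _)
  have h8 : ∀ i < M, 0 ≤ coeff i (P * (1 - ∑ v ∈ (range k).filter (fun v => Even (n + v + 1)),
      (X : ℚ⟦X⟧) ^ (a * (n + v + 1)))) := by
    intro i hi
    rw [mul_sub, mul_one, map_sub, mul_sum, map_sum]
    simp only [coeff_Xpow_mul]
    refine sub_nonneg.2 (sum_even_le (M := M) (b0 := b0) (p := fun i => coeff i P) ?_ ?_ ?_ h0 hb ha
      ha3 hab hi)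
    · intro i h4i hi
      have := h4 i hi
      rw [mul_sub, mul_one, map_sub, coeff_Xpow_mul, if_pos h4i] at this
      exact sub_nonneg.1 this
    · intro i h6i hi
      have := h6 i hi
      rw [mul_sub, mul_one, map_sub, coeff_Xpow_mul, if_pos h6i] at this
      exact sub_nonneg.1 this
    · intro i hi
      have := h7 i hi
      rw [mul_sub, mul_sub, mul_one, map_sub, map_sub, coeff_Xpow_mul, coeff_Xpow_mul] at this
      linarith
  intro i hi
  rw [e1, hRe]
  have e2 : P * ((1 - ∑ v ∈ (range k).filter (fun v => Even (n + v + 1)),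
      (X : ℚ⟦X⟧) ^ (a * (n + v + 1))) * R * ∏ v ∈ (range k).filter (fun v => ¬ Even (n + v + 1)),
      (1 + (X : ℚ⟦X⟧) ^ (a * (n + v + 1)))) =
      (P * (1 - ∑ v ∈ (range k).filter (fun v => Even (n + v + 1)),
      (X : ℚ⟦X⟧) ^ (a * (n + v + 1)))) * (R * ∏ v ∈ (range k).filter (fun v => ¬ Even (n + v + 1)),
      (1 + (X : ℚ⟦X⟧) ^ (a * (n + v + 1)))) := by ring
  rw [e2, coeff_mul]
  refine sum_nonneg fun q hq => ?_
  have := mem_antidiagonal.1 hq
  exact mul_nonneg (h8 _ (by omega)) ((hR.mul hO) _)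

/-- The coefficients of `fs 0 (M+1) k` below `M` are those of `G k`. -/
theorem coeff_big {M A k i : ℕ} (hA : M ≤ A) (hi : i < M) :
    ((coeff i (fs 0 A k) : ℤ) : ℚ) = coeff i (G k) := by
  have h1 : ((coeff i (fs 0 A k) : ℤ) : ℚ) =
      coeff i (PowerSeries.map (Int.castRingHom ℚ) (fs 0 A k)) := by
    rw [coeff_map]; rfl
  rw [h1, map_fs]
  refine coeff_small i (fun v => A * (0 + v + 1)) (fun v => ?_) (G k) k
  exact (hi.trans_le hA).trans_le (Nat.le_mul_of_pos_right A (by omega))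

theorem coeff_big_mul {M A k i : ℕ} (hA : M ≤ A) (hi : i < M) (Q : ℤ⟦X⟧) :
    ((coeff i (fs 0 A k * Q) : ℤ) : ℚ) =
      coeff i (G k * PowerSeries.map (Int.castRingHom ℚ) Q) := by
  rw [coeff_mul, coeff_mul, Int.cast_sum]
  refine sum_congr rfl fun q hq => ?_
  have := mem_antidiagonal.1 hq
  rw [Int.cast_mul, coeff_big hA (by omega), coeff_map]
  rfl

/-- **The large exponents, in terms of the kernel series.** -/
theorem large_b {M A k b0 : ℕ} (hA : M ≤ A)
    (h4 : ∀ i < M, 0 ≤ coeff i (fs 0 A k * (1 - X ^ 4)))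
    (h6 : ∀ i < M, 0 ≤ coeff i (fs 0 A k * (1 - X ^ 6)))
    (h7 : ∀ i < M, 0 ≤ coeff i (fs 0 A k * (1 - X ^ 6 - X ^ b0))) (hb : Even b0) {n a : ℕ}
    (ha : Odd a) (ha3 : 3 ≤ a) (hab : b0 + 4 ≤ a * (n + 1)) :
    ∀ i < M, 0 ≤ coeff i (fs n a k) := by
  intro i hi
  have h := large_rat (M := M) (b0 := b0) (P := G k) (k := k) (n := n) (a := a)
    (fun i _ => NN_G k i) (fun i hi => ?_) (fun i hi => ?_) (fun i hi => ?_) hb ha ha3 hab i hi
  · have h1 : ((coeff i (fs n a k) : ℤ) : ℚ) =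
        coeff i (PowerSeries.map (Int.castRingHom ℚ) (fs n a k)) := by
      rw [coeff_map]; rfl
    rw [← map_fs, ← h1] at h
    exact_mod_cast h
  · have h1 := coeff_big_mul (k := k) hA hi (1 - X ^ 4)
    simp only [map_sub, map_one, map_pow, map_X] at h1
    rw [← h1]
    exact_mod_cast h4 i hi
  · have h1 := coeff_big_mul (k := k) hA hi (1 - X ^ 6)
    simp only [map_sub, map_one, map_pow, map_X] at h1
    rw [← h1]
    exact_mod_cast h6 i hi
  · have h1 := coeff_big_mul (k := k) hA hi (1 - X ^ 6 - X ^ b0)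
    simp only [map_sub, map_one, map_pow, map_X] at h1
    rw [← h1]
    exact_mod_cast h7 i hi

end Pool.Agent.SignedQ.EdgeL
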