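import Pool.Agent.Lib.MP_cf17a0_co.Mg.G049

/-!
S1 part F, file F3c: the bound of `rho` through the modular transformation.
-/

namespace MPcf17a0.S1F

open Finset Pool.Agent.SignedQ.An Pool.Agent.Lib.MP_cf17a0_co.S1

lemma rpow_combine {t Y : ℝ} (ht : 0 < t) (hY : 0 < Y) :
    Real.sqrt (Real.pi / t) * ((t / (2 * Real.pi)) ^ (1 / 4 : ℝ) * Y ^ (-(1 / 4) : ℝ))
      = (Real.pi / (2 * t * Y)) ^ (1 / 4 : ℝ) := by
  have hπ := Real.pi_pos
  have h1 : Real.sqrt (Real.pi / t) = ((Real.pi / t) ^ 2) ^ (1 / 4 : ℝ) := by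
    rw [Real.sqrt_eq_rpow, ← Real.rpow_natCast, ← Real.rpow_mul (by positivity)]
    norm_num
  have h2 : Y ^ (-(1 / 4) : ℝ) = (Y⁻¹) ^ (1 / 4 : ℝ) := by
    rw [Real.rpow_neg hY.le, Real.inv_rpow hY.le]
  rw [h1, h2, ← Real.mul_rpow (by positivity) (by positivity),
    ← Real.mul_rpow (by positivity) (by positivity)]
  congr 1
  field_simp

lemma pt_zero (t : ℝ) : pt t 0 = (Real.exp (-t) : ℂ) := by
  unfold pt
  push_cast
  simp

lemma neg_pt (t θ : ℝ) : -(pt t θ) = Complex.exp (-t + ((θ + Real.pi : ℝ) : ℂ) * Complex.I) := by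
  unfold pt
  push_cast
  rw [add_mul, ← add_assoc, Complex.exp_add _ (Real.pi * Complex.I), Complex.exp_pi_mul_I]
  ring

/-- upper bound of the finite product at `- r`. -/
lemma Pfin_neg_le {t : ℝ} (ht : 0 < t) (ht1 : t ≤ 31 / 2000) (k : ℕ) (hc : 1 ≤ (k:ℝ) * t) :
    ‖Pfin (-(pt t 0)) k‖ ≤ 1.37 * (Real.exp (t / 24) * Real.sqrt (Real.pi / t) *
      Real.exp (-(Real.pi ^ 2 / (24 * t))) * (1 + Real.exp (-(Real.pi ^ 2 / t))) *
      Real.exp (0.2642 * Real.exp (-(2 * (k * t))) / t)) := by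
  have hπ := Real.pi_pos
  have hr : Real.exp (-t) < 1 := by rw [Real.exp_lt_one_iff]; linarith
  have hr0 := Real.exp_pos (-t)
  have hn : ‖(-(Real.exp (-t) : ℂ))‖ < 1 := by
    rw [norm_neg, Complex.norm_real, Real.norm_of_nonneg hr0.le]; exact hr
  have key : ∀ K : ℕ, Even K → k ≤ K + 1 → ‖Pfin (-(Real.exp (-t) : ℂ)) K‖ ≤
      Real.exp (t / 24) * Real.sqrt (Real.pi / t) *
      Real.exp (-(Real.pi ^ 2 / (24 * t))) * (1 + Real.exp (-(Real.pi ^ 2 / t))) *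
      Real.exp (0.2642 * Real.exp (-(2 * (k * t))) / t) := by
    intro K hK hkK
    have h1 := E23 t ht K hK
    have h2 := evExp_le ht ht1 k K hkK hc
    have hp : 0 < ‖Pfin (-(Real.exp (-t) : ℂ)) K‖ := norm_pos_iff.2 (Pfin_ne_zero hn K)
    have hL : 0 < Real.exp (-(t / 24)) * Real.sqrt (t / Real.pi) * Real.exp (Real.pi ^ 2 / (24 * t)) *
      (1 + Real.exp (-(Real.pi ^ 2 / t)))⁻¹ * Real.exp (-evExp (Real.exp (-t)) K) := by positivity
    have h3 := inv_anti₀ hL h1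
    rw [inv_inv] at h3
    refine h3.trans ?_
    have e4 : Real.sqrt (t / Real.pi) = (Real.sqrt (Real.pi / t))⁻¹ := by
      rw [← Real.sqrt_inv, inv_div]
    rw [mul_inv, mul_inv, mul_inv, mul_inv, inv_inv, e4, inv_inv, ← Real.exp_neg, ← Real.exp_neg,
      ← Real.exp_neg, neg_neg, neg_neg]
    apply mul_le_mul_of_nonneg_left (Real.exp_le_exp.mpr h2) (by positivity)
  rw [pt_zero]
  set B := Real.exp (t / 24) * Real.sqrt (Real.pi / t) *
      Real.exp (-(Real.pi ^ 2 / (24 * t))) * (1 + Real.exp (-(Real.pi ^ 2 / t))) *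
      Real.exp (0.2642 * Real.exp (-(2 * (k * t))) / t) with hB
  have hBpos : 0 < B := by positivity
  rcases Nat.even_or_odd k with hk | hk
  · have := key k hk (by omega)
    linarith
  · obtain ⟨j, hj⟩ := hk
    have h1 := key (2 * j) (even_two_mul j) (by omega)
    have h2 : Pfin (-(Real.exp (-t) : ℂ)) k = Pfin (-(Real.exp (-t) : ℂ)) (2 * j) *
        (1 - (-(Real.exp (-t) : ℂ)) ^ k) := by
      rw [hj]
      unfold Pfin
      rw [prod_range_succ]
    have h3 : ‖1 - (-(Real.exp (-t) : ℂ)) ^ k‖ ≤ 1.37 := by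
      refine (norm_sub_le _ _).trans ?_
      rw [norm_one, norm_pow, norm_neg, Complex.norm_real, Real.norm_of_nonneg hr0.le,
        ← Real.exp_nat_mul]
      have h4 : Real.exp ((k:ℝ) * -t) ≤ Real.exp (-1) := Real.exp_le_exp.mpr (by linarith)
      have h5 := exp_neg_le 1 0.36788 12 (by norm_num) (by norm_num [sum_range_succ, Nat.factorial])
      linarith
    rw [h2, norm_mul, mul_comm]
    exact mul_le_mul h3 h1 (norm_nonneg _) (by norm_num)

theorem den_le {t : ℝ} (ht : 0 < t) (ht1 : t ≤ 31 / 2000) (k : ℕ) (hc : 1 ≤ (k:ℝ) * t) (θ : ℝ) :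
    ∃ (l : ℕ) (d : ℤ), 1 ≤ l ∧ IsCoprime (l : ℤ) d ∧
    Real.sqrt 3 / 2 ≤ Yf t (θ + Real.pi) l d ∧
    ‖Pfin (-(pt t 0)) k‖ * ‖Pfin (-(pt t θ)) k‖⁻¹ ≤
      1.377 * (Real.pi / (2 * t * Yf t (θ + Real.pi) l d)) ^ (1 / 4 : ℝ) *
      Real.exp (Real.pi * Yf t (θ + Real.pi) l d / 12 - Real.pi ^ 2 / (24 * t)
        + 0.2642 * Real.exp (-(2 * (k * t))) / t + finExp (-(pt t θ)) k) := by
  have hπ := Real.pi_pos
  obtain ⟨l, d, hl, hcop, hY, hE⟩ := E1 t (θ + Real.pi) ht (by linarith)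
  refine ⟨l, d, hl, hcop, hY, ?_⟩
  set Y := Yf t (θ + Real.pi) l d with hYdef
  have hs3 : 0 < Real.sqrt 3 := Real.sqrt_pos.mpr (by norm_num)
  have hYpos : 0 < Y := by linarith
  have hn : ‖-(pt t θ)‖ < 1 := by
    rw [norm_neg]
    unfold pt
    rw [Complex.norm_exp]
    simp [ht]
  have h1 := Pfin_neg_le ht ht1 k hc
  have h2 := E3_inv hn k
  rw [← neg_pt] at hE
  have h3 : ‖Pfin (-(pt t θ)) k‖⁻¹ ≤ 1.0044 * Real.exp (-(t / 24)) *
      (t / (2 * Real.pi)) ^ (1 / 4 : ℝ) * Y ^ (-(1 / 4) : ℝ) *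
      Real.exp (Real.pi * Y / 12) * Real.exp (finExp (-(pt t θ)) k) :=
    h2.trans (mul_le_mul_of_nonneg_right hE (Real.exp_pos _).le)
  have h4 := mul_le_mul h1 h3 (by positivity) (by positivity)
  refine h4.trans ?_
  set P := (t / (2 * Real.pi)) ^ (1 / 4 : ℝ) with hP
  set R := Y ^ (-(1 / 4) : ℝ) with hR
  have e1 := rpow_combine ht hYpos
  rw [← e1]
  have e2 : Real.exp (Real.pi * Y / 12 - Real.pi ^ 2 / (24 * t)
        + 0.2642 * Real.exp (-(2 * (k * t))) / t + finExp (-(pt t θ)) k)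
      = Real.exp (Real.pi * Y / 12) * Real.exp (-(Real.pi ^ 2 / (24 * t)))
        * Real.exp (0.2642 * Real.exp (-(2 * (k * t))) / t) * Real.exp (finExp (-(pt t θ)) k) := by
    rw [← Real.exp_add, ← Real.exp_add, ← Real.exp_add]; ring_nf
  rw [e2]
  have e3 : Real.exp (t / 24) * Real.exp (-(t / 24)) = 1 := by rw [← Real.exp_add]; simp
  have h5 : 1 + Real.exp (-(Real.pi ^ 2 / t)) ≤ 1.0001 := by
    have h6 : (10:ℝ) ≤ Real.pi ^ 2 / t := by
      rw [le_div_iff₀ ht]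
      have := Real.pi_gt_d4
      nlinarith
    have h7 : Real.exp (-(Real.pi ^ 2 / t)) ≤ Real.exp (-10) := Real.exp_le_exp.mpr (by linarith)
    have h8 := exp_neg_le 10 0.0001 24 (by norm_num) (by norm_num [sum_range_succ, Nat.factorial])
    linarith
  set S := Real.sqrt (Real.pi / t) with hS
  have hSpos : 0 < S := by rw [hS]; positivity
  have hPpos : 0 < P := by rw [hP]; positivity
  have hRpos : 0 < R := by rw [hR]; positivity
  set X1 := Real.exp (-(Real.pi ^ 2 / (24 * t))) with hX1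
  set X2 := Real.exp (0.2642 * Real.exp (-(2 * (k * t))) / t) with hX2
  set X3 := Real.exp (Real.pi * Y / 12) with hX3
  set X4 := Real.exp (finExp (-(pt t θ)) k) with hX4
  have hX1p : 0 < X1 := Real.exp_pos _
  have hX2p : 0 < X2 := Real.exp_pos _
  have hX3p : 0 < X3 := Real.exp_pos _
  have hX4p : 0 < X4 := Real.exp_pos _
  have e5 : 1.37 * (Real.exp (t / 24) * S * X1 * (1 + Real.exp (-(Real.pi ^ 2 / t))) * X2) *
      (1.0044 * Real.exp (-(t / 24)) * P * R * X3 * X4)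
      = (Real.exp (t / 24) * Real.exp (-(t / 24))) * (1.37 * 1.0044 * (1 + Real.exp (-(Real.pi ^ 2 / t))))
        * (S * X1 * X2 * P * R * X3 * X4) := by ring
  rw [e5, e3, one_mul]
  have e6 : 1.377 * (S * (P * R)) * (X3 * X1 * X2 * X4) = 1.377 * (S * X1 * X2 * P * R * X3 * X4) := by ring
  rw [e6]
  apply mul_le_mul_of_nonneg_right _ (by positivity)
  nlinarith

end MPcf17a0.S1F
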