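import Pool.Agent.Lib.MP_cf17a0_co.S1.F3c

/-!
S1 part F, file F4a: the pointwise bound.
-/

namespace MPcf17a0.S1F

open Finset Pool.Agent.SignedQ.An Pool.Agent.Lib.MP_cf17a0_co.S1

lemma norm1_ge {t θ D : ℝ} (hD : 0 ≤ D) (hDc : D ≤ Real.cos (θ / 2)) :
    2 * Real.exp (-(t / 2)) * D ≤ ‖1 - -(pt t θ)‖ := by
  have h := normSq_factor 1 t θ
  rw [pow_one, fac_odd' odd_one] at h
  have e1 : Real.exp (-(t * ((1:ℕ):ℝ))) = Real.exp (-(t / 2)) ^ 2 := by
    rw [← Real.exp_nat_mul]; push_cast; ring_nf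
  rw [e1] at h
  simp only [Nat.cast_one, one_mul] at h
  have h2 : (2 * Real.exp (-(t / 2)) * D) ^ 2 ≤ ‖1 - -(pt t θ)‖ ^ 2 := by
    rw [h]
    have h3 : D ^ 2 ≤ Real.cos (θ / 2) ^ 2 := pow_le_pow_left₀ hD hDc 2
    have h4 : 0 < Real.exp (-(t / 2)) ^ 2 := by positivity
    nlinarith [sq_nonneg (Real.sinh (t / 2)), mul_nonneg h4.le (sq_nonneg (Real.sinh (t / 2))),
      mul_le_mul_of_nonneg_left h3 h4.le]
  exact le_of_sq_le_sq h2 (norm_nonneg _)
where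
  le_of_sq_le_sq {a b : ℝ} (h : a ^ 2 ≤ b ^ 2) (hb : 0 ≤ b) : a ≤ b := by
    by_contra hc
    push Not at hc
    nlinarith

lemma norm2_ge {t θ D : ℝ} (hDc : D ^ 2 ≤ Real.sinh t ^ 2 + Real.sin θ ^ 2) :
    2 * Real.exp (-t) * D ≤ ‖1 - (-(pt t θ)) ^ 2‖ := by
  have h := normSq_factor 2 t θ
  rw [fac_even even_two] at h
  have e1 : Real.exp (-(t * ((2:ℕ):ℝ))) = Real.exp (-t) ^ 2 := by
    rw [← Real.exp_nat_mul]; push_cast; ring_nf
  have e2 : ((2:ℕ):ℝ) * t / 2 = t := by push_cast; ring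
  have e3 : ((2:ℕ):ℝ) * θ / 2 = θ := by push_cast; ring
  rw [e1, e2, e3] at h
  have h2 : (2 * Real.exp (-t) * D) ^ 2 ≤ ‖1 - (-(pt t θ)) ^ 2‖ ^ 2 := by
    rw [h]
    have h4 : 0 < Real.exp (-t) ^ 2 := by positivity
    nlinarith [mul_le_mul_of_nonneg_left hDc h4.le]
  by_contra hc
  push Not at hc
  nlinarith [norm_nonneg (1 - (-(pt t θ)) ^ 2)]

lemma norm_neg_pt (t θ : ℝ) : ‖-(pt t θ)‖ = Real.exp (-t) := by
  rw [norm_neg]
  unfold pt
  rw [Complex.norm_exp]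
  simp

lemma fin_le {t θ D1 D2 : ℝ} (ht : 0 < t) (k : ℕ) (hc : 1 ≤ (k:ℝ) * t) (hD1 : 0 < D1)
    (h1 : D1 ≤ Real.cos (θ / 2)) (hD2 : 0 < D2) (h2 : D2 ^ 2 ≤ Real.sinh t ^ 2 + Real.sin θ ^ 2) :
    finExp (-(pt t θ)) k ≤ Real.exp (-(k * t)) / (2 * D1) + Real.exp (-(2 * (k * t))) / (4 * D2)
      + 0.1475 * Real.exp (-(3 * (k * t))) / t := by
  have h := finExp_split ht (norm_neg_pt t θ) k hc
  refine h.trans ?_
  have n1 := norm1_ge (t := t) hD1.le h1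
  have n2 := norm2_ge (t := t) h2
  have a1 : Real.exp (-(k * t)) * Real.exp (-t) / ‖1 - -(pt t θ)‖ ≤ Real.exp (-(k * t)) / (2 * D1) := by
    have hp : 0 < 2 * Real.exp (-(t / 2)) * D1 := by positivity
    rw [div_le_div_iff₀ (by linarith) (by positivity)]
    have e : Real.exp (-t) = Real.exp (-(t / 2)) * Real.exp (-(t / 2)) := by
      rw [← Real.exp_add]; ring_nf
    have hle : Real.exp (-(t / 2)) ≤ 1 := Real.exp_le_one_iff.mpr (by linarith)
    have hpos := Real.exp_pos (-(t / 2))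
    have hck := Real.exp_pos (-(k * t))
    calc Real.exp (-(k * t)) * Real.exp (-t) * (2 * D1)
        = Real.exp (-(k * t)) * (Real.exp (-(t / 2)) * (2 * Real.exp (-(t / 2)) * D1)) := by rw [e]; ring
      _ ≤ Real.exp (-(k * t)) * (1 * (2 * Real.exp (-(t / 2)) * D1)) := by
          apply mul_le_mul_of_nonneg_left _ hck.le
          exact mul_le_mul_of_nonneg_right hle hp.le
      _ ≤ Real.exp (-(k * t)) * ‖1 - -(pt t θ)‖ := by
          rw [one_mul]; exact mul_le_mul_of_nonneg_left n1 hck.le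
  have a2 : Real.exp (-(2 * (k * t))) * Real.exp (-(2 * t)) / (2 * ‖1 - (-(pt t θ)) ^ 2‖)
      ≤ Real.exp (-(2 * (k * t))) / (4 * D2) := by
    have hp : 0 < 2 * Real.exp (-t) * D2 := by positivity
    rw [div_le_div_iff₀ (by linarith) (by positivity)]
    have e : Real.exp (-(2 * t)) = Real.exp (-t) * Real.exp (-t) := by
      rw [← Real.exp_add]; ring_nf
    have hle : Real.exp (-t) ≤ 1 := Real.exp_le_one_iff.mpr (by linarith)
    have hpos := Real.exp_pos (-t)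
    have hck := Real.exp_pos (-(2 * (k * t)))
    calc Real.exp (-(2 * (k * t))) * Real.exp (-(2 * t)) * (4 * D2)
        = Real.exp (-(2 * (k * t))) * (Real.exp (-t) * (2 * (2 * Real.exp (-t) * D2))) := by rw [e]; ring
      _ ≤ Real.exp (-(2 * (k * t))) * (1 * (2 * (2 * Real.exp (-t) * D2))) := by
          apply mul_le_mul_of_nonneg_left _ hck.le
          exact mul_le_mul_of_nonneg_right hle (by linarith)
      _ ≤ Real.exp (-(2 * (k * t))) * (2 * ‖1 - (-(pt t θ)) ^ 2‖) := by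
          rw [one_mul]
          apply mul_le_mul_of_nonneg_left _ hck.le
          linarith
  linarith

/-- monotonicity of `Y^(-1/4) e^(π Y/12)`. -/
lemma gmono {Y Z t : ℝ} (ht : 0 < t) (hY : Real.sqrt 3 / 2 ≤ Y) (hYZ : Y ≤ Z) (hZ : 10 ≤ Z) :
    (Real.pi / (2 * t * Y)) ^ (1 / 4 : ℝ) * Real.exp (Real.pi * Y / 12)
      ≤ (Real.pi / (2 * t * Z)) ^ (1 / 4 : ℝ) * Real.exp (Real.pi * Z / 12) := by
  have hπ := Real.pi_gt_three
  have hs3 : 1.732 ≤ Real.sqrt 3 := by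
    rw [show (1.732 : ℝ) = Real.sqrt (1.732 ^ 2) by rw [Real.sqrt_sq (by norm_num)]]
    exact Real.sqrt_le_sqrt (by norm_num)
  have hY0 : 0 < Y := by linarith
  have hZ0 : 0 < Z := by linarith
  have e1 : (Real.pi / (2 * t * Y)) ^ (1 / 4 : ℝ) = (Real.pi / (2 * t * Z)) ^ (1 / 4 : ℝ) * (Z / Y) ^ (1 / 4 : ℝ) := by
    rw [← Real.mul_rpow (by positivity) (by positivity)]
    congr 1
    field_simp
  rw [e1, mul_assoc]
  apply mul_le_mul_of_nonneg_left _ (by positivity)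
  have h1 : (Z / Y) ^ (1 / 4 : ℝ) = Real.exp (Real.log (Z / Y) / 4) := by
    rw [Real.rpow_def_of_pos (by positivity)]; ring_nf
  rw [h1, ← Real.exp_add]
  apply Real.exp_le_exp.mpr
  -- log (Z/Y) ≤ π (Z - Y)/3
  set p := Real.sqrt Y with hp
  set q := Real.sqrt Z with hq
  have hp2 : p ^ 2 = Y := Real.sq_sqrt hY0.le
  have hq2 : q ^ 2 = Z := Real.sq_sqrt hZ0.le
  have hp0 : 0 < p := Real.sqrt_pos.mpr hY0
  have hq0 : 0 < q := Real.sqrt_pos.mpr hZ0
  have hpq : p ≤ q := Real.sqrt_le_sqrt hYZ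
  have hp9 : 0.9 ≤ p := by nlinarith
  have hq3 : 3 ≤ q := by nlinarith
  have h2 : Real.log (Z / Y) = 2 * Real.log (q / p) := by
    rw [← hp2, ← hq2, ← div_pow, Real.log_pow]; norm_num
  have h3 : Real.log (q / p) ≤ q / p - 1 := Real.log_le_sub_one_of_pos (by positivity)
  have h4 : q / p - 1 ≤ 1/2 * (q - p) * (q + p) := by
    have : q / p - 1 = (q - p) / p := by field_simp
    rw [this, div_le_iff₀ hp0]
    have h5 : 0 ≤ q - p := by linarith
    have h6 : 1 ≤ 1/2 * (q + p) * p := by nlinarith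
    calc q - p = (q - p) * 1 := by ring
      _ ≤ (q - p) * (1/2 * (q + p) * p) := mul_le_mul_of_nonneg_left h6 h5
      _ = _ := by ring
  have h7 : (q - p) * (q + p) = Z - Y := by rw [← hp2, ← hq2]; ring
  have h8 : Real.log (Z / Y) ≤ Z - Y := by
    rw [h2]; nlinarith
  nlinarith

/-- the pointwise bound -/
theorem pw {n k a : ℕ} (ha : Odd a) {t θ m D1 D2 N q c0 e1 e2 e3 : ℝ} (ht : 0 < t)
    (ht1 : t ≤ 31 / 2000) (hc0 : 1 ≤ c0) (hc : c0 ≤ (k:ℝ) * t)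
    (he1 : Real.exp (-c0) ≤ e1) (he2 : Real.exp (-(2 * c0)) ≤ e2) (he3 : Real.exp (-(3 * c0)) ≤ e3)
    (hm : 0 < m) (hm25 : m ≤ 25)
    (hY : ∀ (l : ℕ) (d : ℤ), 1 ≤ l → IsCoprime (l : ℤ) d → Real.sqrt 3 / 2 ≤ Yf t (θ + Real.pi) l d →
      Yf t (θ + Real.pi) l d ≤ 2 * Real.pi / (m * t))
    (hD1 : 0 < D1) (h1 : D1 ≤ Real.cos (θ / 2)) (hD2 : 0 < D2)
    (h2 : D2 ^ 2 ≤ Real.sinh t ^ 2 + Real.sin θ ^ 2)
    (hN : NC (a * t) (a * θ + Real.pi) n k / 2 ≤ N) (hq0 : 0 ≤ q) (hq : q ≤ qf t θ) :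
    rho n k a t θ ≤ 1.377 * (m / 4) ^ (1 / 4 : ℝ) * Real.exp (e1 / (2 * D1) + e2 / (4 * D2) + N
      - (Real.pi ^ 2 * (1 / 24 - 1 / (6 * m)) - 0.2642 * e2 - 0.1475 * e3 + c0 * q / 4) / t) := by
  have hπ := Real.pi_pos
  have hc1 : 1 ≤ (k:ℝ) * t := hc0.trans hc
  obtain ⟨l, d, hl, hcop, hYge, hden⟩ := den_le ht ht1 k hc1 θ
  have hYle := hY l d hl hcop hYge
  set Y := Yf t (θ + Real.pi) l d with hYdef
  set Z := 2 * Real.pi / (m * t) with hZ
  have hZ10 : 10 ≤ Z := by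
    rw [hZ, le_div_iff₀ (by positivity)]
    have := Real.pi_gt_three
    nlinarith
  have hr := rho_le_den (n := n) (k := k) ha ht θ
  have hg := gmono ht hYge hYle hZ10
  have e0 : (Real.pi / (2 * t * Z)) = m / 4 := by rw [hZ]; field_simp; ring
  rw [e0] at hg
  have hfin := fin_le ht k hc1 hD1 h1 hD2 h2
  -- combine
  have hX : ‖Pfin (-(pt t 0)) k‖ * ‖Pfin (-(pt t θ)) k‖⁻¹ ≤ 1.377 * ((m / 4) ^ (1 / 4 : ℝ) *
      Real.exp (Real.pi * Z / 12)) * Real.exp (- Real.pi ^ 2 / (24 * t)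
        + 0.2642 * Real.exp (-(2 * (k * t))) / t + finExp (-(pt t θ)) k) := by
    refine hden.trans ?_
    have e1 : Real.exp (Real.pi * Y / 12 - Real.pi ^ 2 / (24 * t)
        + 0.2642 * Real.exp (-(2 * (k * t))) / t + finExp (-(pt t θ)) k) =
        Real.exp (Real.pi * Y / 12) * Real.exp (- Real.pi ^ 2 / (24 * t)
        + 0.2642 * Real.exp (-(2 * (k * t))) / t + finExp (-(pt t θ)) k) := by
      rw [← Real.exp_add]; ring_nf
    rw [e1, ← mul_assoc, mul_assoc (1.377:ℝ)]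
    apply mul_le_mul_of_nonneg_right _ (Real.exp_pos _).le
    exact mul_le_mul_of_nonneg_left hg (by norm_num)
  refine hr.trans ((mul_le_mul_of_nonneg_left hX (Real.exp_pos _).le).trans ?_)
  have e2' : Real.exp (k / 4 * Real.log (1 - qf t θ) + NC (a * t) (a * θ + Real.pi) n k / 2) *
      (1.377 * ((m / 4) ^ (1 / 4 : ℝ) * Real.exp (Real.pi * Z / 12)) *
        Real.exp (- Real.pi ^ 2 / (24 * t) + 0.2642 * Real.exp (-(2 * (k * t))) / t
          + finExp (-(pt t θ)) k))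
      = 1.377 * (m / 4) ^ (1 / 4 : ℝ) * Real.exp ((k / 4 * Real.log (1 - qf t θ)
        + NC (a * t) (a * θ + Real.pi) n k / 2) + Real.pi * Z / 12 + (- Real.pi ^ 2 / (24 * t)
          + 0.2642 * Real.exp (-(2 * (k * t))) / t + finExp (-(pt t θ)) k)) := by
    rw [Real.exp_add (_ + Real.pi * Z / 12), Real.exp_add _ (Real.pi * Z / 12)]
    ring
  rw [e2']
  apply mul_le_mul_of_nonneg_left _ (by positivity)
  apply Real.exp_le_exp.mpr
  have l1 : (k:ℝ) / 4 * Real.log (1 - qf t θ) ≤ -(c0 * q / 4 / t) := by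
    have hlt := qf_lt ht θ
    have h3 : Real.log (1 - qf t θ) ≤ -q := by
      have := Real.log_le_sub_one_of_pos (by linarith : 0 < 1 - qf t θ)
      linarith
    have hk : c0 / t ≤ k := by rw [div_le_iff₀ ht]; exact hc
    have hk0 : 0 ≤ (k:ℝ) / 4 := by positivity
    calc (k:ℝ) / 4 * Real.log (1 - qf t θ) ≤ k / 4 * (-q) := mul_le_mul_of_nonneg_left h3 hk0
      _ = -(q / 4 * k) := by ring
      _ ≤ -(q / 4 * (c0 / t)) := by
          have := mul_le_mul_of_nonneg_left hk (by positivity : 0 ≤ q / 4)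
          linarith
      _ = _ := by ring
  have m1 : Real.exp (-(k * t)) ≤ e1 := (Real.exp_le_exp.mpr (by linarith)).trans he1
  have m2 : Real.exp (-(2 * (k * t))) ≤ e2 := (Real.exp_le_exp.mpr (by linarith)).trans he2
  have m3 : Real.exp (-(3 * (k * t))) ≤ e3 := (Real.exp_le_exp.mpr (by linarith)).trans he3
  have n1 : Real.exp (-(k * t)) / (2 * D1) ≤ e1 / (2 * D1) := div_le_div_of_nonneg_right m1 (by positivity)
  have n2 : Real.exp (-(2 * (k * t))) / (4 * D2) ≤ e2 / (4 * D2) :=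
    div_le_div_of_nonneg_right m2 (by positivity)
  have n3 : 0.1475 * Real.exp (-(3 * (k * t))) / t ≤ 0.1475 * e3 / t :=
    div_le_div_of_nonneg_right (by linarith) ht.le
  have n4 : 0.2642 * Real.exp (-(2 * (k * t))) / t ≤ 0.2642 * e2 / t :=
    div_le_div_of_nonneg_right (by linarith) ht.le
  have e3' : Real.pi * Z / 12 = Real.pi ^ 2 * (1 / (6 * m)) / t := by rw [hZ]; field_simp; ring
  have e4' : - Real.pi ^ 2 / (24 * t) = -(Real.pi ^ 2 * (1 / 24) / t) := by field_simp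
  have e5' : (Real.pi ^ 2 * (1 / 24 - 1 / (6 * m)) - 0.2642 * e2 - 0.1475 * e3 + c0 * q / 4) / t
      = Real.pi ^ 2 * (1 / 24) / t - Real.pi ^ 2 * (1 / (6 * m)) / t - 0.2642 * e2 / t
        - 0.1475 * e3 / t + c0 * q / 4 / t := by ring
  rw [e3', e4', e5']
  linarith

end MPcf17a0.S1F
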