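import Pool.Agent.Lib.MP_cf17a0_co.S1.F4a

/-!
S1 part F, file F4b: which fraction is near the point `θ + π`.
-/

namespace MPcf17a0.S1F

open Finset Pool.Agent.SignedQ.An Pool.Agent.Lib.MP_cf17a0_co.S1

lemma delta_le {t φ : ℝ} {l : ℕ} {d : ℤ} (ht : 0 < t) (ht1 : t ≤ 31 / 2000)
    (hY : Real.sqrt 3 / 2 ≤ Yf t φ l d) (hl : 1 ≤ l) :
    -0.34 ≤ (l:ℝ) * φ - 2 * Real.pi * d ∧ (l:ℝ) * φ - 2 * Real.pi * d ≤ 0.34 := by
  have hs3 : 1.732 ≤ Real.sqrt 3 := by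
    rw [show (1.732 : ℝ) = Real.sqrt (1.732 ^ 2) by rw [Real.sqrt_sq (by norm_num)]]
    exact Real.sqrt_le_sqrt (by norm_num)
  have hl0 : (1:ℝ) ≤ l := by exact_mod_cast hl
  unfold Yf at hY
  set δ := (l:ℝ) * φ - 2 * Real.pi * d with hδ
  have hpos : 0 < ((l:ℝ) * t) ^ 2 + δ ^ 2 := by positivity
  rw [le_div_iff₀ hpos] at hY
  have hπ := Real.pi_lt_d4
  have h1 : δ ^ 2 ≤ 0.1156 := by
    have h2 : 0 < ((l:ℝ) * t) ^ 2 := by positivity
    nlinarith [sq_nonneg δ, Real.pi_pos]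
  constructor <;> nlinarith

lemma d_eq {x : ℝ} {d : ℤ} (D : ℤ) (h1 : -0.34 ≤ x - 2 * Real.pi * d)
    (h2 : x - 2 * Real.pi * d ≤ 0.34) (h3 : 2 * Real.pi * (D - 1) < x - 0.34)
    (h4 : x + 0.34 < 2 * Real.pi * (D + 1)) : d = D := by
  have hπ := Real.pi_pos
  have a1 : (D:ℝ) - 1 < d := by
    by_contra hc
    push Not at hc
    nlinarith
  have a2 : (d:ℝ) < D + 1 := by
    by_contra hc
    push Not at hc
    nlinarith
  have b1 : D - 1 < d := by exact_mod_cast a1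
  have b2 : d < D + 1 := by exact_mod_cast a2
  omega

lemma d_none {x : ℝ} {d : ℤ} (D : ℤ) (h1 : -0.34 ≤ x - 2 * Real.pi * d)
    (h2 : x - 2 * Real.pi * d ≤ 0.34) (h3 : 2 * Real.pi * D < x - 0.34)
    (h4 : x + 0.34 < 2 * Real.pi * (D + 1)) : False := by
  have hπ := Real.pi_pos
  have a1 : (D:ℝ) < d := by
    by_contra hc
    push Not at hc
    nlinarith
  have a2 : (d:ℝ) < D + 1 := by
    by_contra hc
    push Not at hc
    nlinarith
  have b1 : D < d := by exact_mod_cast a1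
  have b2 : d < D + 1 := by exact_mod_cast a2
  omega

/-- the general bound `Y ≤ 2π/(m t)` if `l² t² + δ² ≥ m t²`. -/
lemma Yf_le {t φ m : ℝ} {l : ℕ} {d : ℤ} (ht : 0 < t) (hm : 0 < m)
    (h : m * t ^ 2 ≤ ((l:ℝ) * t) ^ 2 + ((l:ℝ) * φ - 2 * Real.pi * d) ^ 2) :
    Yf t φ l d ≤ 2 * Real.pi / (m * t) := by
  unfold Yf
  have hπ := Real.pi_pos
  have hpos : 0 < m * t ^ 2 := by positivity
  rw [div_le_div_iff₀ (by linarith) (by positivity)]
  calc 2 * Real.pi * t * (m * t) = 2 * Real.pi * (m * t ^ 2) := by ring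
    _ ≤ _ := mul_le_mul_of_nonneg_left h (by positivity)

lemma Yf_ge {t φ : ℝ} {l : ℕ} {d : ℤ} (m : ℕ) (ht : 0 < t) (hml : m ≤ l) (hm : 0 < m) :
    Yf t φ l d ≤ 2 * Real.pi / ((m:ℝ) ^ 2 * t) := by
  have hm0 : (0:ℝ) < m := by exact_mod_cast hm
  apply Yf_le ht (by positivity)
  have h1 : (m:ℝ) ≤ l := by exact_mod_cast hml
  have h2 : (m:ℝ) ^ 2 ≤ (l:ℝ) ^ 2 := pow_le_pow_left₀ hm0.le h1 2
  have h3 : 0 < t ^ 2 := by positivity
  nlinarith [sq_nonneg ((l:ℝ) * φ - 2 * Real.pi * d)]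

/-- `0 ≤ θ ≤ 1` -/
lemma Y_A {t θ m : ℝ} (ht : 0 < t) (ht1 : t ≤ 31 / 2000) (hθ0 : 0 ≤ θ) (hθ1 : θ ≤ 1)
    (hm : 0 < m) (hm25 : m ≤ 25) (hmθ : m * t ^ 2 ≤ 4 * t ^ 2 + 4 * θ ^ 2)
    (l : ℕ) (d : ℤ) (hl : 1 ≤ l) (hcop : IsCoprime (l : ℤ) d)
    (hY : Real.sqrt 3 / 2 ≤ Yf t (θ + Real.pi) l d) :
    Yf t (θ + Real.pi) l d ≤ 2 * Real.pi / (m * t) := by
  have hπ1 := Real.pi_gt_d4
  have hπ2 := Real.pi_lt_d4
  obtain ⟨h1, h2⟩ := delta_le ht ht1 hY hl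
  have ht2 : 0 < t ^ 2 := by positivity
  rcases Nat.lt_or_ge l 5 with h5 | h5
  · interval_cases l
    · exfalso
      push_cast at h1 h2
      refine d_none (x := 1 * (θ + Real.pi)) (d := d) 0 h1 h2 ?_ ?_ <;> push_cast <;> nlinarith
    · push_cast at h1 h2
      have hd := d_eq (x := 2 * (θ + Real.pi)) (d := d) 1 h1 h2 (by push_cast; nlinarith) (by push_cast; nlinarith)
      apply Yf_le ht hm
      rw [hd]
      push_cast
      have e : (2 * t) ^ 2 + (2 * (θ + Real.pi) - 2 * Real.pi * 1) ^ 2 = 4 * t ^ 2 + 4 * θ ^ 2 := by ring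
      rw [e]; exact hmθ
    · push_cast at h1 h2
      have hd := d_eq (x := 3 * (θ + Real.pi)) (d := d) 2 h1 h2 (by push_cast; nlinarith) (by push_cast; nlinarith)
      apply Yf_le ht hm
      rw [hd]
      push_cast
      have e : (3 * t) ^ 2 + (3 * (θ + Real.pi) - 2 * Real.pi * 2) ^ 2 = 9 * t ^ 2 + (Real.pi - 3 * θ) ^ 2 := by ring
      rw [e]
      have h6 : 0.1415 ≤ Real.pi - 3 * θ := by linarith
      have h7 : 0.02 ≤ (Real.pi - 3 * θ) ^ 2 := by nlinarith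
      have h8 : t ^ 2 ≤ 0.0003 := by nlinarith
      nlinarith
    · push_cast at h1 h2
      exfalso
      have hd := d_eq (x := 4 * (θ + Real.pi)) (d := d) 2 h1 h2 (by push_cast; nlinarith) (by push_cast; nlinarith)
      rw [hd] at hcop
      have := Int.isCoprime_iff_gcd_eq_one.mp hcop
      norm_num at this
  · have h6 := Yf_ge (t := t) (φ := θ + Real.pi) (l := l) (d := d) 5 ht h5 (by norm_num)
    refine h6.trans ?_
    push_cast
    apply div_le_div_of_nonneg_left (by positivity) (by positivity)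
    nlinarith

/-- `1 ≤ θ ≤ 2.2` -/
lemma Y_B {t θ m : ℝ} (ht : 0 < t) (ht1 : t ≤ 31 / 2000) (hθ0 : 1 ≤ θ) (hθ1 : θ ≤ 2.2)
    (hm : 0 < m) (hm16 : m ≤ 16) (hmθ : m * t ^ 2 ≤ 9 * t ^ 2 + (3 * θ - Real.pi) ^ 2)
    (l : ℕ) (d : ℤ) (hl : 1 ≤ l)
    (hY : Real.sqrt 3 / 2 ≤ Yf t (θ + Real.pi) l d) :
    Yf t (θ + Real.pi) l d ≤ 2 * Real.pi / (m * t) := by
  have hπ1 := Real.pi_gt_d4
  have hπ2 := Real.pi_lt_d4
  obtain ⟨h1, h2⟩ := delta_le ht ht1 hY hl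
  have ht2 : 0 < t ^ 2 := by positivity
  rcases Nat.lt_or_ge l 4 with h5 | h5
  · interval_cases l
    · exfalso
      push_cast at h1 h2
      refine d_none (x := 1 * (θ + Real.pi)) (d := d) 0 h1 h2 ?_ ?_ <;> push_cast <;> nlinarith
    · exfalso
      push_cast at h1 h2
      refine d_none (x := 2 * (θ + Real.pi)) (d := d) 1 h1 h2 ?_ ?_ <;> push_cast <;> nlinarith
    · push_cast at h1 h2
      have hd := d_eq (x := 3 * (θ + Real.pi)) (d := d) 2 h1 h2 (by push_cast; nlinarith) (by push_cast; nlinarith)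
      apply Yf_le ht hm
      rw [hd]
      push_cast
      have e : (3 * t) ^ 2 + (3 * (θ + Real.pi) - 2 * Real.pi * 2) ^ 2 = 9 * t ^ 2 + (3 * θ - Real.pi) ^ 2 := by ring
      rw [e]; exact hmθ
  · have h6 := Yf_ge (t := t) (φ := θ + Real.pi) (l := l) (d := d) 4 ht h5 (by norm_num)
    refine h6.trans ?_
    push_cast
    apply div_le_div_of_nonneg_left (by positivity) (by positivity)
    nlinarith

/-- `2.2 ≤ θ ≤ π` -/
lemma Y_C {t θ : ℝ} (ht : 0 < t) (ht1 : t ≤ 31 / 2000) (hθ0 : 2.2 ≤ θ) (hθ1 : θ ≤ Real.pi)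
    (l : ℕ) (d : ℤ) (hl : 1 ≤ l) (hcop : IsCoprime (l : ℤ) d)
    (hY : Real.sqrt 3 / 2 ≤ Yf t (θ + Real.pi) l d) :
    Yf t (θ + Real.pi) l d ≤ 2 * Real.pi / (9 * t) ∨
    Yf t (θ + Real.pi) l d = 2 * Real.pi * t / (t ^ 2 + (Real.pi - θ) ^ 2) := by
  have hπ1 := Real.pi_gt_d4
  have hπ2 := Real.pi_lt_d4
  obtain ⟨h1, h2⟩ := delta_le ht ht1 hY hl
  rcases Nat.lt_or_ge l 3 with h5 | h5
  · interval_cases l
    · right
      push_cast at h1 h2
      have hd := d_eq (x := 1 * (θ + Real.pi)) (d := d) 1 h1 h2 (by push_cast; nlinarith) (by push_cast; nlinarith)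
      rw [hd]
      unfold Yf
      push_cast
      congr 1
      ring
    · exfalso
      push_cast at h1 h2
      have hd := d_eq (x := 2 * (θ + Real.pi)) (d := d) 2 h1 h2 (by push_cast; nlinarith) (by push_cast; nlinarith)
      rw [hd] at hcop
      have := Int.isCoprime_iff_gcd_eq_one.mp hcop
      norm_num at this
  · left
    have h6 := Yf_ge (t := t) (φ := θ + Real.pi) (l := l) (d := d) 3 ht h5 (by norm_num)
    refine h6.trans (le_of_eq ?_)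
    norm_num

end MPcf17a0.S1F
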