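import Pool.Agent.Lib.MP_cf17a0_co.S1.F4b

/-!
S1 part F, file F4c: the numerators in the two cases.
-/

namespace MPcf17a0.S1F

open Finset Pool.Agent.SignedQ.An Pool.Agent.Lib.MP_cf17a0_co.S1

/-- crude tail -/
lemma tail_crude (s ψ : ℝ) (hs : 0 < s) (N : ℕ) :
    -(1/2) - 2 * Real.exp (-(N * s)) / s ≤ G s ψ 1 N := by
  have h := G_lower s ψ hs 1 le_rfl N
  have e : (2:ℝ) ^ 1 / (((1:ℕ):ℝ) * s) * Real.exp (-(((1:ℕ):ℝ) * (N * s))) = 2 * Real.exp (-(N * s)) / s := by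
    push_cast
    rw [one_mul, one_mul, pow_one]
    ring
  rwa [e] at h

lemma numP {n k a : ℕ} (hnk : Even (n * k)) (hP : 5 ≤ a ∨ (a = 3 ∧ k ≤ 2 * n))
    {t c0 e2 e3 : ℝ} (ht : 0 < t) (hc0 : 1 ≤ c0) (hc : c0 ≤ (k:ℝ) * t)
    (he2 : Real.exp (-(2 * c0)) ≤ e2) (he3 : Real.exp (-(3 * c0)) ≤ e3) (θ : ℝ) :
    NC (a * t) (a * θ + Real.pi) n k / 2 ≤ (0.12338 + e2 * e3 / 5) / t + 1/4 := by
  have h2 := Real.exp_pos (-(2 * c0))
  have h3 := Real.exp_pos (-(3 * c0))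
  have h23 : 0 ≤ e2 * e3 / 5 := by
    have : 0 < e2 := h2.trans_le he2
    have : 0 < e3 := h3.trans_le he3
    positivity
  have hn0 : (0:ℝ) ≤ n := Nat.cast_nonneg n
  rcases hP with ha5 | ⟨ha3, hkn⟩
  · have ha : (5:ℝ) ≤ a := by exact_mod_cast ha5
    set s := (a:ℝ) * t with hs
    have hs5 : 5 * t ≤ s := by rw [hs]; exact mul_le_mul_of_nonneg_right ha ht.le
    have hs0 : 0 < s := by linarith
    have h := N5 s (a * θ + Real.pi) (2 * Real.exp (-((n + k : ℕ) * s)) / s) hs0 n k hnk (by positivity)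
      (tail_crude s _ hs0 (n + k))
    have hE : Real.exp (-((n + k : ℕ) * s)) ≤ e2 * e3 := by
      have h4 : Real.exp (-((n + k : ℕ) * s)) ≤ Real.exp (-(2 * c0)) * Real.exp (-(3 * c0)) := by
        rw [← Real.exp_add]
        apply Real.exp_le_exp.mpr
        have h5 : 5 * ((k:ℝ) * t) ≤ ((n + k : ℕ) : ℝ) * s := by
          push_cast
          nlinarith [mul_nonneg hn0 hs0.le, mul_le_mul_of_nonneg_left hs5 (Nat.cast_nonneg k : (0:ℝ) ≤ k)]
        linarith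
      exact h4.trans (mul_le_mul he2 he3 h3.le (h2.le.trans he2))
    have hJ : J 0 / s ≤ 0.24676 / t := by
      rw [div_le_div_iff₀ hs0 ht, J_zero]
      have hpi := Real.pi_lt_d4
      have hpi3 := Real.pi_gt_three
      have hp2 : Real.pi ^ 2 / 8 ≤ 1.2338 := by nlinarith
      have := mul_le_mul_of_nonneg_right hp2 ht.le
      linarith
    have hT : 2 * Real.exp (-((n + k : ℕ) * s)) / s ≤ 2 * (e2 * e3) / (5 * t) := by
      apply div_le_div₀ _ (by linarith) (by positivity) hs5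
      linarith
    have e : (0.12338 + e2 * e3 / 5) / t = 0.24676 / t / 2 + 2 * (e2 * e3) / (5 * t) / 2 := by
      field_simp; ring
    rw [e]; linarith
  · subst ha3
    have hs0 : 0 < ((3:ℕ):ℝ) * t := by positivity
    have hkn' : (k:ℝ) ≤ 2 * n := by exact_mod_cast hkn
    have h := NT (((3:ℕ):ℝ) * t) (((3:ℕ):ℝ) * θ + Real.pi) hs0 n k (by
      push_cast
      nlinarith)
    have e : 0.4492 / (((3:ℕ):ℝ) * t) / 2 ≤ 0.12338 / t := by
      push_cast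
      rw [div_div, div_le_div_iff₀ (by positivity) ht]
      nlinarith
    have e2' : 0.12338 / t ≤ (0.12338 + e2 * e3 / 5) / t :=
      div_le_div_of_nonneg_right (by linarith) ht.le
    linarith

lemma numQ0 {n k : ℕ} (hnk : Even (n * k)) {t c0 e3 T : ℝ} (ht : 0 < t) (ht1 : t ≤ 31 / 2000)
    (hc : c0 ≤ (k:ℝ) * t) (he3 : Real.exp (-(3 * c0)) ≤ e3) (θ : ℝ)
    (hT0 : 0 ≤ T) (hT : -(1/2) - T ≤ G (3 * t) (3 * θ + Real.pi) 1 (n + k)) :
    NC (3 * t) (3 * θ + Real.pi) n k / 2 ≤ (0.16396 + e3 ^ 2 / 6 + 4 / 27 * e3 ^ 3) / t + 25/48 + T / 2 := by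
  have h3 := Real.exp_pos (-(3 * c0))
  have hn0 : (0:ℝ) ≤ n := Nat.cast_nonneg n
  have hs0 : 0 < 3 * t := by positivity
  have h := N3 (3 * t) (3 * θ + Real.pi) T hs0 (by linarith) n k hnk hT0 hT
  have hU : 3 * c0 ≤ ((n + k : ℕ) : ℝ) * (3 * t) := by
    push_cast
    nlinarith [mul_nonneg hn0 ht.le]
  have hE2 : Real.exp (-(2 * ((n + k : ℕ) * (3 * t)))) ≤ e3 ^ 2 := by
    have e : Real.exp (-(2 * (3 * c0))) = Real.exp (-(3 * c0)) ^ 2 := by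
      rw [← Real.exp_nat_mul]; push_cast; ring_nf
    calc Real.exp (-(2 * ((n + k : ℕ) * (3 * t)))) ≤ Real.exp (-(2 * (3 * c0))) :=
          Real.exp_le_exp.mpr (by linarith)
      _ = Real.exp (-(3 * c0)) ^ 2 := e
      _ ≤ e3 ^ 2 := pow_le_pow_left₀ h3.le he3 2
  have hE3 : Real.exp (-(3 * ((n + k : ℕ) * (3 * t)))) ≤ e3 ^ 3 := by
    have e : Real.exp (-(3 * (3 * c0))) = Real.exp (-(3 * c0)) ^ 3 := by
      rw [← Real.exp_nat_mul]; push_cast; ring_nf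
    calc Real.exp (-(3 * ((n + k : ℕ) * (3 * t)))) ≤ Real.exp (-(3 * (3 * c0))) :=
          Real.exp_le_exp.mpr (by linarith)
      _ = Real.exp (-(3 * c0)) ^ 3 := e
      _ ≤ e3 ^ 3 := pow_le_pow_left₀ h3.le he3 3
  have hJ : (J 0 - 1/4) / (3 * t) ≤ 0.98376 / (3 * t) := by
    apply div_le_div_of_nonneg_right _ hs0.le
    rw [J_zero]
    have := Real.pi_lt_d4
    have := Real.pi_gt_three
    nlinarith
  have hA : Real.exp (-(2 * ((n + k : ℕ) * (3 * t)))) / (3 * t) ≤ e3 ^ 2 / (3 * t) :=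
    div_le_div_of_nonneg_right hE2 hs0.le
  have hB : 8/9 * Real.exp (-(3 * ((n + k : ℕ) * (3 * t)))) / (3 * t) ≤ 8/9 * e3 ^ 3 / (3 * t) :=
    div_le_div_of_nonneg_right (by linarith) hs0.le
  have e : (0.16396 + e3 ^ 2 / 6 + 4 / 27 * e3 ^ 3) / t
      = (0.98376 / (3 * t) + e3 ^ 2 / (3 * t) + 8/9 * e3 ^ 3 / (3 * t)) / 2 := by
    field_simp; ring
  rw [e]; linarith

lemma numQ2 {n k a : ℕ} (hnk : Even (n * k)) (ha : a = 3) {t c0 e3 : ℝ} (ht : 0 < t)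
    (ht1 : t ≤ 31 / 2000) (hc : c0 ≤ (k:ℝ) * t) (he3 : Real.exp (-(3 * c0)) ≤ e3) (θ : ℝ) :
    NC (a * t) (a * θ + Real.pi) n k / 2
      ≤ (0.16396 + e3 ^ 2 / 6 + 4 / 27 * e3 ^ 3 + e3 / 3) / t + 25/48 := by
  subst ha
  push_cast
  have hn0 : (0:ℝ) ≤ n := Nat.cast_nonneg n
  have h := numQ0 (n := n) hnk ht ht1 hc he3 θ (T := 2 * Real.exp (-((n + k : ℕ) * (3 * t))) / (3 * t))
    (by positivity) (tail_crude (3 * t) _ (by positivity) (n + k))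
  have hU : 3 * c0 ≤ ((n + k : ℕ) : ℝ) * (3 * t) := by
    push_cast
    nlinarith [mul_nonneg hn0 ht.le]
  have hE : Real.exp (-((n + k : ℕ) * (3 * t))) ≤ e3 :=
    (Real.exp_le_exp.mpr (by linarith)).trans he3
  have hT : 2 * Real.exp (-((n + k : ℕ) * (3 * t))) / (3 * t) / 2 ≤ e3 / 3 / t := by
    have : 2 * Real.exp (-((n + k : ℕ) * (3 * t))) / (3 * t) / 2 = Real.exp (-((n + k : ℕ) * (3 * t))) / 3 / t := by
      field_simp
    rw [this]
    apply div_le_div_of_nonneg_right _ ht.le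
    linarith
  have e : (0.16396 + e3 ^ 2 / 6 + 4 / 27 * e3 ^ 3 + e3 / 3) / t
      = (0.16396 + e3 ^ 2 / 6 + 4 / 27 * e3 ^ 3) / t + e3 / 3 / t := by ring
  rw [e]; linarith

lemma numQ1 {n k a : ℕ} (hnk : Even (n * k)) (ha : a = 3) {t c0 e3 : ℝ} (ht : 0 < t)
    (ht1 : t ≤ 31 / 2000) (hc : c0 ≤ (k:ℝ) * t) (he3 : Real.exp (-(3 * c0)) ≤ e3) {θ : ℝ}
    (hθ0 : 0 ≤ θ) (hθ : θ ≤ 0.6) :
    NC (a * t) (a * θ + Real.pi) n k / 2
      ≤ (0.16396 + e3 ^ 2 / 6 + 4 / 27 * e3 ^ 3) / t + (25/48 + e3 / 0.595) := by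
  subst ha
  push_cast
  have hn0 : (0:ℝ) ≤ n := Nat.cast_nonneg n
  have hsin : Real.sin ((3 * θ + Real.pi) / 2) = Real.cos (3 * θ / 2) := by
    have : (3 * θ + Real.pi) / 2 = 3 * θ / 2 + Real.pi / 2 := by ring
    rw [this, Real.sin_add_pi_div_two]
  have hcos : 0.595 ≤ Real.cos (3 * θ / 2) := by
    have := Real.one_sub_sq_div_two_le_cos (x := 3 * θ / 2)
    nlinarith
  have hab : |Real.sin ((3 * θ + Real.pi) / 2)| = Real.cos (3 * θ / 2) := by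
    rw [hsin, abs_of_pos (by linarith)]
  have h := numQ0 (n := n) hnk ht ht1 hc he3 θ
    (T := 2 * Real.exp (-((n + k : ℕ) * (3 * t))) / |Real.sin ((3 * θ + Real.pi) / 2)|)
    (by positivity) (G_lower_abel (3 * t) _ (by positivity) (by rw [hsin]; linarith) (n + k))
  have hU : 3 * c0 ≤ ((n + k : ℕ) : ℝ) * (3 * t) := by
    push_cast
    nlinarith [mul_nonneg hn0 ht.le]
  have hE : Real.exp (-((n + k : ℕ) * (3 * t))) ≤ e3 :=
    (Real.exp_le_exp.mpr (by linarith)).trans he3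
  have hE0 := Real.exp_pos (-((n + k : ℕ) * (3 * t)))
  rw [hab] at h
  have hT : 2 * Real.exp (-((n + k : ℕ) * (3 * t))) / Real.cos (3 * θ / 2) / 2 ≤ e3 / 0.595 := by
    have : 2 * Real.exp (-((n + k : ℕ) * (3 * t))) / Real.cos (3 * θ / 2) / 2
        = Real.exp (-((n + k : ℕ) * (3 * t))) / Real.cos (3 * θ / 2) := by ring
    rw [this]
    exact div_le_div₀ (hE0.le.trans hE) hE (by norm_num) hcos
  linarith

end MPcf17a0.S1F
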