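import Pool.Agent.Lib.MP_cf17a0_co.S1.F4c

/-!
S1 part F, file F4d: the pointwise bounds in the regions.
-/

namespace MPcf17a0.S1F

open Finset Pool.Agent.SignedQ.An Pool.Agent.Lib.MP_cf17a0_co.S1

/-- the data of a piece `c0 ≤ k t` of the domain. -/
structure Piece (n k a : ℕ) (t c0 e1 e2 e3 ν ν1 ν2 ν0 : ℝ) : Prop where
  ha : Odd a
  ht : 0 < t
  ht1 : t ≤ 31 / 2000
  hc0 : 1 ≤ c0
  hc : c0 ≤ (k:ℝ) * t
  he1 : Real.exp (-c0) ≤ e1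
  he2 : Real.exp (-(2 * c0)) ≤ e2
  he3 : Real.exp (-(3 * c0)) ≤ e3
  hN1 : ∀ θ : ℝ, 0 ≤ θ → θ ≤ 0.6 → NC (a * t) (a * θ + Real.pi) n k / 2 ≤ ν / t + ν1
  hN2 : ∀ θ : ℝ, NC (a * t) (a * θ + Real.pi) n k / 2 ≤ ν2 / t + ν0

lemma fin_step {m M X Y : ℝ} (hm : 0 ≤ m) (hM : m / 4 ≤ M ^ 4) (hM0 : 0 ≤ M) (hXY : X ≤ Y) :
    1.377 * (m / 4) ^ (1 / 4 : ℝ) * Real.exp X ≤ 1.377 * M * Real.exp Y := by
  have h1 : (m / 4) ^ (1 / 4 : ℝ) ≤ M := by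
    calc (m / 4) ^ (1 / 4 : ℝ) ≤ (M ^ 4) ^ (1 / 4 : ℝ) :=
          Real.rpow_le_rpow (by positivity) hM (by norm_num)
      _ = M := by
          rw [← Real.rpow_natCast, ← Real.rpow_mul hM0]; norm_num
  have h2 := Real.exp_le_exp.mpr hXY
  have h3 : 0 ≤ (m / 4) ^ (1 / 4 : ℝ) := by positivity
  calc 1.377 * (m / 4) ^ (1 / 4 : ℝ) * Real.exp X ≤ 1.377 * M * Real.exp X := by
        apply mul_le_mul_of_nonneg_right _ (Real.exp_pos _).le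
        linarith
    _ ≤ _ := mul_le_mul_of_nonneg_left h2 (by positivity)

lemma pi_sq_ge : (9.8696:ℝ) ≤ Real.pi ^ 2 := by
  have h : (3.14159265:ℝ) < Real.pi := by
    have := Real.pi_gt_d20
    linarith
  nlinarith

lemma cosh_sq_le {t : ℝ} (ht : 0 < t) (ht1 : t ≤ 31 / 2000) : Real.cosh (t / 2) ^ 2 ≤ 1.0001 := by
  have h1 := Real.cosh_le_exp_half_sq (t / 2)
  have h2 : Real.exp ((t / 2) ^ 2 / 2) ≤ Real.exp (0.00004) := Real.exp_le_exp.mpr (by nlinarith)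
  have h3 : Real.exp (0.00004) ≤ 1.000045 := by
    have := Real.exp_bound' (x := 0.00004) (by norm_num) (by norm_num) (n := 2) (by norm_num)
    refine this.trans ?_
    norm_num [sum_range_succ, Nat.factorial]
  have h4 := Real.cosh_pos (t / 2)
  nlinarith

lemma qf_ge {t θ b q : ℝ} (ht : 0 < t) (ht1 : t ≤ 31 / 2000) (hb0 : 0 < b) (hb : 2 * b ≤ θ)
    (hθ : θ ≤ Real.pi) (hq : q * 1.0001 ≤ (b - b ^ 3 / 6) ^ 2)
    (hp : 0 ≤ b - b ^ 3 / 6) (hq0 : 0 ≤ q) : q ≤ qf t θ := by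
  have h2 := Real.sin_gt_sub_cube hb0
  have h3 : Real.sin b ≤ Real.sin (θ / 2) :=
    Real.sin_le_sin_of_le_of_le_pi_div_two (by linarith [Real.pi_pos]) (by linarith) (by linarith)
  have h4 : (b - b ^ 3 / 6) ^ 2 ≤ Real.sin (θ / 2) ^ 2 :=
    pow_le_pow_left₀ hp (by linarith) 2
  unfold qf
  have hc := Real.cosh_pos (t / 2)
  rw [le_div_iff₀ (by positivity)]
  have := cosh_sq_le ht ht1
  calc q * Real.cosh (t / 2) ^ 2 ≤ q * 1.0001 := mul_le_mul_of_nonneg_left this hq0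
    _ ≤ _ := hq.trans h4

lemma D2_near {t θ u d : ℝ} (ht : 0 < t) (hu : 0 ≤ u) (hθ : u * t ≤ θ)
    (x : ℝ) (hx : θ ≤ x) (hx0 : 0 ≤ 1 - x ^ 2 / 6) (hx1 : 0 ≤ x)
    (hd : d ^ 2 ≤ 1 + (u * (1 - x ^ 2 / 6)) ^ 2) : (d * t) ^ 2 ≤ Real.sinh t ^ 2 + Real.sin θ ^ 2 := by
  have h1 : t ≤ Real.sinh t := Real.self_le_sinh_iff.2 ht.le
  have hθ0 : 0 ≤ θ := by nlinarith [mul_nonneg hu ht.le]
  have h2 : θ - θ ^ 3 / 6 ≤ Real.sin θ := by
    rcases eq_or_lt_of_le hθ0 with h | h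
    · rw [← h]; simp
    · exact (Real.sin_gt_sub_cube h).le
  have h3 : u * t * (1 - x ^ 2 / 6) ≤ Real.sin θ := by
    have h4 : θ * (1 - x ^ 2 / 6) ≤ θ - θ ^ 3 / 6 := by nlinarith [mul_nonneg hθ0 (by nlinarith : 0 ≤ x ^ 2 - θ ^ 2)]
    have h5 : u * t * (1 - x ^ 2 / 6) ≤ θ * (1 - x ^ 2 / 6) := mul_le_mul_of_nonneg_right hθ hx0
    linarith
  have h6 : (u * t * (1 - x ^ 2 / 6)) ^ 2 ≤ Real.sin θ ^ 2 := pow_le_pow_left₀ (by positivity) h3 2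
  have h7 : t ^ 2 ≤ Real.sinh t ^ 2 := pow_le_pow_left₀ ht.le h1 2
  calc (d * t) ^ 2 = d ^ 2 * t ^ 2 := by ring
    _ ≤ (1 + (u * (1 - x ^ 2 / 6)) ^ 2) * t ^ 2 := mul_le_mul_of_nonneg_right hd (by positivity)
    _ = t ^ 2 + (u * t * (1 - x ^ 2 / 6)) ^ 2 := by ring
    _ ≤ _ := add_le_add h7 h6

section
variable {n k a : ℕ} {t c0 e1 e2 e3 ν ν1 ν2 ν0 : ℝ}

lemma Piece.e_nonneg (P : Piece n k a t c0 e1 e2 e3 ν ν1 ν2 ν0) : 0 < e1 ∧ 0 < e2 ∧ 0 < e3 :=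
  ⟨(Real.exp_pos _).trans_le P.he1, (Real.exp_pos _).trans_le P.he2, (Real.exp_pos _).trans_le P.he3⟩

lemma cos_half_ge {θ x D : ℝ} (hθ0 : 0 ≤ θ) (hθ : θ ≤ x) (hD : D ≤ 1 - (x / 2) ^ 2 / 2) :
    D ≤ Real.cos (θ / 2) := by
  have := Real.one_sub_sq_div_two_le_cos (x := θ / 2)
  nlinarith

/-- `1.5 t ≤ θ ≤ 2 t` -/
lemma regA (P : Piece n k a t c0 e1 e2 e3 ν ν1 ν2 ν0) {θ : ℝ} (h1 : 1.5 * t ≤ θ) (h2 : θ ≤ 2 * t) :
    rho n k a t θ ≤ 1.377 * 1.3427 * Real.exp ((e1 / 1.998 + ν1)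
      - (9.8696 * (1 / 24 - 1 / 78) - 0.2642 * e2 - 0.1475 * e3 - ν - e2 / 7.2) / t) := by
  obtain ⟨he1, he2, he3⟩ := P.e_nonneg
  have ht := P.ht
  have ht1 := P.ht1
  have hθ0 : 0 ≤ θ := by linarith
  have h := pw P.ha (n := n) (k := k) (θ := θ) (m := 13) (D1 := 0.999) (D2 := 1.8 * t)
    (N := ν / t + ν1) (q := 0) ht ht1 P.hc0 P.hc P.he1 P.he2 P.he3
    (by norm_num) (by norm_num)
    (fun l d hl hcop hY => Y_A ht ht1 hθ0 (by linarith) (by norm_num) (by norm_num)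
      (by nlinarith) l d hl hcop hY)
    (by norm_num) (cos_half_ge hθ0 (by linarith : θ ≤ 0.031) (by norm_num)) (by positivity)
    (D2_near ht (by norm_num : (0:ℝ) ≤ 1.5) h1 0.031 (by linarith) (by norm_num)
      (by norm_num) (by norm_num)) (P.hN1 θ hθ0 (by linarith)) le_rfl (qf_nonneg t θ)
  refine h.trans (fin_step (by norm_num) (by norm_num) (by norm_num) ?_)
  have hw : 0 < t⁻¹ := inv_pos.mpr ht
  have hp := mul_le_mul_of_nonneg_right pi_sq_ge hw.le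
  have e : (e1 / (2 * 0.999) + e2 / (4 * (1.8 * t)) + (ν / t + ν1) -
      (Real.pi ^ 2 * (1 / 24 - 1 / (6 * 13)) - 0.2642 * e2 - 0.1475 * e3 + c0 * 0 / 4) / t)
      = (e1 / 1.998 + ν1) - (9.8696 * (1 / 24 - 1 / 78) - 0.2642 * e2 - 0.1475 * e3 - ν - e2 / 7.2) / t
        - (1 / 24 - 1 / 78) * (Real.pi ^ 2 * t⁻¹ - 9.8696 * t⁻¹) := by ring
  rw [e]
  have : 0 ≤ (1 / 24 - 1 / 78) * (Real.pi ^ 2 * t⁻¹ - 9.8696 * t⁻¹) := by
    apply mul_nonneg (by norm_num); linarith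
  linarith

/-- `2 t ≤ θ ≤ 4 t` -/
lemma regB (P : Piece n k a t c0 e1 e2 e3 ν ν1 ν2 ν0) {θ : ℝ} (h1 : 2 * t ≤ θ) (h2 : θ ≤ 4 * t) :
    rho n k a t θ ≤ 1.377 * 1.4954 * Real.exp ((e1 / 1.998 + ν1)
      - (9.8696 * (1 / 24 - 1 / 120) - 0.2642 * e2 - 0.1475 * e3 - ν - e2 / 8.92) / t) := by
  obtain ⟨he1, he2, he3⟩ := P.e_nonneg
  have ht := P.ht
  have ht1 := P.ht1
  have hθ0 : 0 ≤ θ := by linarith
  have h := pw P.ha (n := n) (k := k) (θ := θ) (m := 20) (D1 := 0.999) (D2 := 2.23 * t)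
    (N := ν / t + ν1) (q := 0) ht ht1 P.hc0 P.hc P.he1 P.he2 P.he3
    (by norm_num) (by norm_num)
    (fun l d hl hcop hY => Y_A ht ht1 hθ0 (by linarith) (by norm_num) (by norm_num)
      (by nlinarith) l d hl hcop hY)
    (by norm_num) (cos_half_ge hθ0 (by linarith : θ ≤ 0.062) (by norm_num)) (by positivity)
    (D2_near ht (by norm_num : (0:ℝ) ≤ 2) h1 0.062 (by linarith) (by norm_num)
      (by norm_num) (by norm_num)) (P.hN1 θ hθ0 (by linarith)) le_rfl (qf_nonneg t θ)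
  refine h.trans (fin_step (by norm_num) (by norm_num) (by norm_num) ?_)
  have hw : 0 < t⁻¹ := inv_pos.mpr ht
  have hp := mul_le_mul_of_nonneg_right pi_sq_ge hw.le
  have e : (e1 / (2 * 0.999) + e2 / (4 * (2.23 * t)) + (ν / t + ν1) -
      (Real.pi ^ 2 * (1 / 24 - 1 / (6 * 20)) - 0.2642 * e2 - 0.1475 * e3 + c0 * 0 / 4) / t)
      = (e1 / 1.998 + ν1) - (9.8696 * (1 / 24 - 1 / 120) - 0.2642 * e2 - 0.1475 * e3 - ν - e2 / 8.92) / t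
        - (1 / 24 - 1 / 120) * (Real.pi ^ 2 * t⁻¹ - 9.8696 * t⁻¹) := by ring
  rw [e]
  have : 0 ≤ (1 / 24 - 1 / 120) * (Real.pi ^ 2 * t⁻¹ - 9.8696 * t⁻¹) := by
    apply mul_nonneg (by norm_num); linarith
  linarith

/-- `4 t ≤ θ ≤ 0.3` -/
lemma regC (P : Piece n k a t c0 e1 e2 e3 ν ν1 ν2 ν0) {θ : ℝ} (h1 : 4 * t ≤ θ) (h2 : θ ≤ 0.3) :
    rho n k a t θ ≤ 1.377 * 1.5812 * Real.exp ((e1 / 1.96 + ν1)
      - (9.8696 * (1 / 24 - 1 / 150) - 0.2642 * e2 - 0.1475 * e3 - ν - e2 / 16.12) / t) := by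
  obtain ⟨he1, he2, he3⟩ := P.e_nonneg
  have ht := P.ht
  have ht1 := P.ht1
  have hθ0 : 0 ≤ θ := by linarith
  have h := pw P.ha (n := n) (k := k) (θ := θ) (m := 25) (D1 := 0.98) (D2 := 4.03 * t)
    (N := ν / t + ν1) (q := 0) ht ht1 P.hc0 P.hc P.he1 P.he2 P.he3
    (by norm_num) (by norm_num)
    (fun l d hl hcop hY => Y_A ht ht1 hθ0 (by linarith) (by norm_num) (by norm_num)
      (by nlinarith) l d hl hcop hY)
    (by norm_num) (cos_half_ge hθ0 (by linarith : θ ≤ 0.3) (by norm_num)) (by positivity)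
    (D2_near ht (by norm_num : (0:ℝ) ≤ 4) h1 0.3 (by linarith) (by norm_num)
      (by norm_num) (by norm_num)) (P.hN1 θ hθ0 (by linarith)) le_rfl (qf_nonneg t θ)
  refine h.trans (fin_step (by norm_num) (by norm_num) (by norm_num) ?_)
  have hw : 0 < t⁻¹ := inv_pos.mpr ht
  have hp := mul_le_mul_of_nonneg_right pi_sq_ge hw.le
  have e : (e1 / (2 * 0.98) + e2 / (4 * (4.03 * t)) + (ν / t + ν1) -
      (Real.pi ^ 2 * (1 / 24 - 1 / (6 * 25)) - 0.2642 * e2 - 0.1475 * e3 + c0 * 0 / 4) / t)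
      = (e1 / 1.96 + ν1) - (9.8696 * (1 / 24 - 1 / 150) - 0.2642 * e2 - 0.1475 * e3 - ν - e2 / 16.12) / t
        - (1 / 24 - 1 / 150) * (Real.pi ^ 2 * t⁻¹ - 9.8696 * t⁻¹) := by ring
  rw [e]
  have : 0 ≤ (1 / 24 - 1 / 150) * (Real.pi ^ 2 * t⁻¹ - 9.8696 * t⁻¹) := by
    apply mul_nonneg (by norm_num); linarith
  linarith

/-- `0.3 ≤ θ ≤ 0.6` -/
lemma regD (P : Piece n k a t c0 e1 e2 e3 ν ν1 ν2 ν0) {θ : ℝ} (h1 : 0.3 ≤ θ) (h2 : θ ≤ 0.6) :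
    rho n k a t θ ≤ 1.377 * 1.5812 * Real.exp ((e1 / 1.91 + e2 / 1.16 + ν1)
      - (9.8696 * (1 / 24 - 1 / 150) - 0.2642 * e2 - 0.1475 * e3 - ν + c0 * 0.0223 / 4) / t) := by
  obtain ⟨he1, he2, he3⟩ := P.e_nonneg
  have ht := P.ht
  have ht1 := P.ht1
  have hθ0 : 0 ≤ θ := by linarith
  have hπ := Real.pi_gt_three
  have hsin : 0.29 ≤ Real.sin θ := by
    have h3 : Real.sin 0.3 ≤ Real.sin θ :=
      Real.sin_le_sin_of_le_of_le_pi_div_two (by linarith) (by linarith) h1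
    have h4 := Real.sin_gt_sub_cube (x := 0.3) (by norm_num)
    norm_num at h4
    linarith
  have h := pw P.ha (n := n) (k := k) (θ := θ) (m := 25) (D1 := 0.955) (D2 := 0.29)
    (N := ν / t + ν1) (q := 0.0223) ht ht1 P.hc0 P.hc P.he1 P.he2 P.he3
    (by norm_num) (by norm_num)
    (fun l d hl hcop hY => Y_A ht ht1 hθ0 (by linarith) (by norm_num) (by norm_num)
      (by nlinarith) l d hl hcop hY)
    (by norm_num) (cos_half_ge hθ0 (by linarith : θ ≤ 0.6) (by norm_num)) (by norm_num)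
    (by nlinarith [sq_nonneg (Real.sinh t)]) (P.hN1 θ hθ0 (by linarith)) (by norm_num)
    (qf_ge (b := 0.15) ht ht1 (by norm_num) (by linarith) (by linarith) (by norm_num)
      (by norm_num) (by norm_num))
  refine h.trans (fin_step (by norm_num) (by norm_num) (by norm_num) ?_)
  have hw : 0 < t⁻¹ := inv_pos.mpr ht
  have hp := mul_le_mul_of_nonneg_right pi_sq_ge hw.le
  have e : (e1 / (2 * 0.955) + e2 / (4 * 0.29) + (ν / t + ν1) -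
      (Real.pi ^ 2 * (1 / 24 - 1 / (6 * 25)) - 0.2642 * e2 - 0.1475 * e3 + c0 * 0.0223 / 4) / t)
      = (e1 / 1.91 + e2 / 1.16 + ν1) - (9.8696 * (1 / 24 - 1 / 150) - 0.2642 * e2 - 0.1475 * e3 - ν
          + c0 * 0.0223 / 4) / t
        - (1 / 24 - 1 / 150) * (Real.pi ^ 2 * t⁻¹ - 9.8696 * t⁻¹) := by ring
  rw [e]
  have : 0 ≤ (1 / 24 - 1 / 150) * (Real.pi ^ 2 * t⁻¹ - 9.8696 * t⁻¹) := by
    apply mul_nonneg (by norm_num); linarith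
  linarith

/-- `0.6 ≤ θ ≤ 1` -/
lemma regE (P : Piece n k a t c0 e1 e2 e3 ν ν1 ν2 ν0) {θ : ℝ} (h1 : 0.6 ≤ θ) (h2 : θ ≤ 1) :
    rho n k a t θ ≤ 1.377 * 1.5812 * Real.exp ((e1 / 1.75 + e2 / 2.16 + ν0)
      - (9.8696 * (1 / 24 - 1 / 150) - 0.2642 * e2 - 0.1475 * e3 - ν2 + c0 * 0.087 / 4) / t) := by
  obtain ⟨he1, he2, he3⟩ := P.e_nonneg
  have ht := P.ht
  have ht1 := P.ht1
  have hθ0 : 0 ≤ θ := by linarith
  have hπ := Real.pi_gt_three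
  have hsin : 0.54 ≤ Real.sin θ := by
    have h3 : Real.sin 0.6 ≤ Real.sin θ :=
      Real.sin_le_sin_of_le_of_le_pi_div_two (by linarith) (by linarith) h1
    have h4 := Real.sin_gt_sub_cube (x := 0.6) (by norm_num)
    norm_num at h4
    linarith
  have h := pw P.ha (n := n) (k := k) (θ := θ) (m := 25) (D1 := 0.875) (D2 := 0.54)
    (N := ν2 / t + ν0) (q := 0.087) ht ht1 P.hc0 P.hc P.he1 P.he2 P.he3
    (by norm_num) (by norm_num)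
    (fun l d hl hcop hY => Y_A ht ht1 hθ0 (by linarith) (by norm_num) (by norm_num)
      (by nlinarith) l d hl hcop hY)
    (by norm_num) (cos_half_ge hθ0 (by linarith : θ ≤ 1) (by norm_num)) (by norm_num)
    (by nlinarith [sq_nonneg (Real.sinh t)]) (P.hN2 θ) (by norm_num)
    (qf_ge (b := 0.3) ht ht1 (by norm_num) (by linarith) (by linarith) (by norm_num)
      (by norm_num) (by norm_num))
  refine h.trans (fin_step (by norm_num) (by norm_num) (by norm_num) ?_)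
  have hw : 0 < t⁻¹ := inv_pos.mpr ht
  have hp := mul_le_mul_of_nonneg_right pi_sq_ge hw.le
  have e : (e1 / (2 * 0.875) + e2 / (4 * 0.54) + (ν2 / t + ν0) -
      (Real.pi ^ 2 * (1 / 24 - 1 / (6 * 25)) - 0.2642 * e2 - 0.1475 * e3 + c0 * 0.087 / 4) / t)
      = (e1 / 1.75 + e2 / 2.16 + ν0) - (9.8696 * (1 / 24 - 1 / 150) - 0.2642 * e2 - 0.1475 * e3 - ν2
          + c0 * 0.087 / 4) / t
        - (1 / 24 - 1 / 150) * (Real.pi ^ 2 * t⁻¹ - 9.8696 * t⁻¹) := by ring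
  rw [e]
  have : 0 ≤ (1 / 24 - 1 / 150) * (Real.pi ^ 2 * t⁻¹ - 9.8696 * t⁻¹) := by
    apply mul_nonneg (by norm_num); linarith
  linarith

lemma sin_mid {θ : ℝ} (h1 : 1 ≤ θ) (h2 : θ ≤ 2.2) : 0.8 ≤ Real.sin θ := by
  have e : Real.sin θ = Real.cos (θ - Real.pi / 2) := by rw [Real.cos_sub_pi_div_two]
  rw [e]
  have h3 := Real.one_sub_sq_div_two_le_cos (x := θ - Real.pi / 2)
  have := Real.pi_gt_d4
  have := Real.pi_lt_d4
  have h4 : -0.63 ≤ θ - Real.pi / 2 := by linarith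
  have h5 : θ - Real.pi / 2 ≤ 0.63 := by linarith
  nlinarith

/-- `1 ≤ θ ≤ 2.2`, not near `π/3` -/
lemma regF (P : Piece n k a t c0 e1 e2 e3 ν ν1 ν2 ν0) {θ : ℝ} (h1 : 1 ≤ θ) (h2 : θ ≤ 2.2)
    (h3 : t ≤ |θ - Real.pi / 3|) :
    rho n k a t θ ≤ 1.377 * 1.4143 * Real.exp ((e1 / 0.79 + e2 / 3.2 + ν0)
      - (9.8696 * (1 / 24 - 1 / 96) - 0.2642 * e2 - 0.1475 * e3 - ν2 + c0 * 0.2264 / 4) / t) := by
  obtain ⟨he1, he2, he3⟩ := P.e_nonneg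
  have ht := P.ht
  have ht1 := P.ht1
  have hθ0 : 0 ≤ θ := by linarith
  have hπ := Real.pi_gt_three
  have hsin := sin_mid h1 h2
  have hsq : t ^ 2 ≤ (θ - Real.pi / 3) ^ 2 := by
    rw [← sq_abs (θ - Real.pi / 3)]
    exact pow_le_pow_left₀ ht.le h3 2
  have h := pw P.ha (n := n) (k := k) (θ := θ) (m := 16) (D1 := 0.395) (D2 := 0.8)
    (N := ν2 / t + ν0) (q := 0.2264) ht ht1 P.hc0 P.hc P.he1 P.he2 P.he3
    (by norm_num) (by norm_num)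
    (fun l d hl _ hY => Y_B ht ht1 h1 h2 (by norm_num) (by norm_num)
      (by nlinarith) l d hl hY)
    (by norm_num) (cos_half_ge hθ0 (by linarith : θ ≤ 2.2) (by norm_num)) (by norm_num)
    (by nlinarith [sq_nonneg (Real.sinh t)]) (P.hN2 θ) (by norm_num)
    (qf_ge (b := 0.5) ht ht1 (by norm_num) (by linarith) (by linarith) (by norm_num)
      (by norm_num) (by norm_num))
  refine h.trans (fin_step (by norm_num) (by norm_num) (by norm_num) ?_)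
  have hw : 0 < t⁻¹ := inv_pos.mpr ht
  have hp := mul_le_mul_of_nonneg_right pi_sq_ge hw.le
  have e : (e1 / (2 * 0.395) + e2 / (4 * 0.8) + (ν2 / t + ν0) -
      (Real.pi ^ 2 * (1 / 24 - 1 / (6 * 16)) - 0.2642 * e2 - 0.1475 * e3 + c0 * 0.2264 / 4) / t)
      = (e1 / 0.79 + e2 / 3.2 + ν0) - (9.8696 * (1 / 24 - 1 / 96) - 0.2642 * e2 - 0.1475 * e3 - ν2
          + c0 * 0.2264 / 4) / t
        - (1 / 24 - 1 / 96) * (Real.pi ^ 2 * t⁻¹ - 9.8696 * t⁻¹) := by ring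
  rw [e]
  have : 0 ≤ (1 / 24 - 1 / 96) * (Real.pi ^ 2 * t⁻¹ - 9.8696 * t⁻¹) := by
    apply mul_nonneg (by norm_num); linarith
  linarith

/-- near `π/3` -/
lemma regG (P : Piece n k a t c0 e1 e2 e3 ν ν1 ν2 ν0) {θ : ℝ}
    (h3 : |θ - Real.pi / 3| ≤ t) :
    rho n k a t θ ≤ 1.377 * 1.2248 * Real.exp ((e1 / 1.7 + e2 / 3.2 + ν0)
      - (9.8696 * (1 / 24 - 1 / 54) - 0.2642 * e2 - 0.1475 * e3 - ν2 + c0 * 0.2264 / 4) / t) := by
  obtain ⟨he1, he2, he3⟩ := P.e_nonneg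
  have ht := P.ht
  have ht1 := P.ht1
  have hπ := Real.pi_gt_d4
  have hπ2 := Real.pi_lt_d4
  obtain ⟨g1, g2⟩ := abs_le.mp h3
  have h1 : 1 ≤ θ := by linarith
  have h2 : θ ≤ 2.2 := by linarith
  have hθ0 : 0 ≤ θ := by linarith
  have hsin := sin_mid h1 h2
  have h := pw P.ha (n := n) (k := k) (θ := θ) (m := 9) (D1 := 0.85) (D2 := 0.8)
    (N := ν2 / t + ν0) (q := 0.2264) ht ht1 P.hc0 P.hc P.he1 P.he2 P.he3
    (by norm_num) (by norm_num)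
    (fun l d hl _ hY => Y_B ht ht1 h1 h2 (by norm_num) (by norm_num)
      (by nlinarith [sq_nonneg (3 * θ - Real.pi)]) l d hl hY)
    (by norm_num) (cos_half_ge hθ0 (by linarith : θ ≤ 1.08) (by norm_num)) (by norm_num)
    (by nlinarith [sq_nonneg (Real.sinh t)]) (P.hN2 θ) (by norm_num)
    (qf_ge (b := 0.5) ht ht1 (by norm_num) (by linarith) (by linarith) (by norm_num)
      (by norm_num) (by norm_num))
  refine h.trans (fin_step (by norm_num) (by norm_num) (by norm_num) ?_)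
  have hw : 0 < t⁻¹ := inv_pos.mpr ht
  have hp := mul_le_mul_of_nonneg_right pi_sq_ge hw.le
  have e : (e1 / (2 * 0.85) + e2 / (4 * 0.8) + (ν2 / t + ν0) -
      (Real.pi ^ 2 * (1 / 24 - 1 / (6 * 9)) - 0.2642 * e2 - 0.1475 * e3 + c0 * 0.2264 / 4) / t)
      = (e1 / 1.7 + e2 / 3.2 + ν0) - (9.8696 * (1 / 24 - 1 / 54) - 0.2642 * e2 - 0.1475 * e3 - ν2
          + c0 * 0.2264 / 4) / t
        - (1 / 24 - 1 / 54) * (Real.pi ^ 2 * t⁻¹ - 9.8696 * t⁻¹) := by ring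
  rw [e]
  have : 0 ≤ (1 / 24 - 1 / 54) * (Real.pi ^ 2 * t⁻¹ - 9.8696 * t⁻¹) := by
    apply mul_nonneg (by norm_num); linarith
  linarith

end

end MPcf17a0.S1F
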