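import Pool.Agent.Lib.MP_cf17a0_co.S1.F4d

/-!
S1 part F, file F4e: the pointwise bound on `[2.2, π - 5/k]`.
-/

namespace MPcf17a0.S1F

open Finset Pool.Agent.SignedQ.An Pool.Agent.Lib.MP_cf17a0_co.S1

lemma c_exp_le {c : ℝ} : c * Real.exp (-c) ≤ 0.36788 := by
  have h1 := Real.add_one_le_exp (c - 1)
  have h2 : Real.exp (c - 1) * Real.exp (-c) = Real.exp (-1) := by rw [← Real.exp_add]; ring_nf
  have h3 := exp_neg_le 1 0.36788 12 (by norm_num) (by norm_num [sum_range_succ, Nat.factorial])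
  have h4 := Real.exp_pos (-c)
  nlinarith

lemma log_222 : Real.log 0.222 ≤ -1.5 := by
  have h := log_le_of_pow (x := (0.222:ℝ)) (b := 0.222) 2 3 (by norm_num) (by norm_num) le_rfl (by norm_num)
  push_cast at h
  linarith

lemma qf_log {t θ : ℝ} (ht : 0 < t) (ht1 : t ≤ 31 / 2000) (h1 : 2.2 ≤ θ) (h2 : θ ≤ Real.pi) :
    Real.log (1 - qf t θ) ≤ -1.5 := by
  have hlt := qf_lt ht θ
  refine (Real.log_le_log (by linarith) ?_).trans log_222
  have hc := Real.cosh_pos (t / 2)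
  have hc1 : 1 ≤ Real.cosh (t / 2) ^ 2 := by
    have := Real.one_le_cosh (t / 2)
    nlinarith
  have hc2 := cosh_sq_le ht ht1
  have hsin : Real.sin (θ / 2) ^ 2 = 1 - Real.cos (θ / 2) ^ 2 := by
    rw [← Real.sin_sq_add_cos_sq (θ / 2)]; ring
  have hcos : Real.cos (θ / 2) ≤ 0.4709 := by
    have e : Real.cos (θ / 2) = Real.sin ((Real.pi - θ) / 2) := by
      rw [show (Real.pi - θ) / 2 = Real.pi / 2 - θ / 2 by ring, Real.sin_pi_div_two_sub]
    rw [e]
    have h3 := Real.sin_le (x := (Real.pi - θ) / 2) (by linarith)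
    have := Real.pi_lt_d4
    linarith
  have hcos0 : 0 ≤ Real.cos (θ / 2) :=
    Real.cos_nonneg_of_neg_pi_div_two_le_of_le (by linarith [Real.pi_pos]) (by linarith)
  have e : 1 - qf t θ = (Real.cosh (t / 2) ^ 2 - Real.sin (θ / 2) ^ 2) / Real.cosh (t / 2) ^ 2 := by
    unfold qf; field_simp
  rw [e, div_le_iff₀ (by positivity), hsin]
  nlinarith

theorem regH {n k a : ℕ} {t c0 e1 e2 e3 ν ν1 ν2 ν0 : ℝ}
    (P : Piece n k a t c0 e1 e2 e3 ν ν1 ν2 ν0) {θ : ℝ} (h1 : 2.2 ≤ θ) (h2 : θ ≤ Real.pi - 5 / k) :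
    rho n k a t θ ≤ 1.377 * 1.2248 / t * Real.exp (ν0
      - (9.8696 * (1 / 24) - 0.2642 * e2 - 0.1475 * e3 - ν2 - 0.1032 + 0.21 * c0) / t) := by
  obtain ⟨he1, he2, he3⟩ := P.e_nonneg
  have ht := P.ht
  have ht1 := P.ht1
  have hc1 : 1 ≤ (k:ℝ) * t := P.hc0.trans P.hc
  have hk0 : (0:ℝ) < k := by
    by_contra hcon
    push Not at hcon
    nlinarith
  have hkc : (k:ℝ) = (k * t) / t := by field_simp
  have hw : 0 < t⁻¹ := inv_pos.mpr ht
  have hπ := Real.pi_gt_d4
  have hπ2 := Real.pi_lt_d4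
  have hπ0 := Real.pi_pos
  have h5k : 0 < 5 / (k:ℝ) := by positivity
  set ε := Real.pi - θ with hε
  have hε1 : 5 / (k:ℝ) ≤ ε := by rw [hε]; linarith
  have hε2 : ε ≤ 0.9416 := by rw [hε]; linarith
  have hε0 : 0 < ε := by linarith
  have hθπ : θ ≤ Real.pi := by linarith
  -- D1, D2
  have hD1 : 2.4 / (k:ℝ) ≤ Real.cos (θ / 2) := by
    have e : Real.cos (θ / 2) = Real.sin (ε / 2) := by
      rw [show ε / 2 = Real.pi / 2 - θ / 2 by rw [hε]; ring, Real.sin_pi_div_two_sub]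
    rw [e]
    have h3 := Real.sin_gt_sub_cube (x := ε / 2) (by linarith)
    have h4 : 0.48 * ε ≤ ε / 2 - (ε / 2) ^ 3 / 6 := by nlinarith [mul_pos hε0 hε0]
    have h5 : 2.4 / (k:ℝ) = 0.48 * (5 / k) := by ring
    rw [h5]; linarith
  have hD2 : (4.25 / (k:ℝ)) ^ 2 ≤ Real.sinh t ^ 2 + Real.sin θ ^ 2 := by
    have e : Real.sin θ = Real.sin ε := by rw [hε, Real.sin_pi_sub]
    rw [e]
    have h3 := Real.sin_gt_sub_cube hε0
    have h4 : 0.85 * ε ≤ ε - ε ^ 3 / 6 := by nlinarith [mul_pos hε0 hε0]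
    have h5 : 4.25 / (k:ℝ) = 0.85 * (5 / k) := by ring
    have h6 : (4.25 / (k:ℝ)) ^ 2 ≤ Real.sin ε ^ 2 :=
      pow_le_pow_left₀ (by positivity) (by rw [h5]; linarith) 2
    nlinarith [sq_nonneg (Real.sinh t)]
  have hfin := fin_le ht k hc1 (by positivity : 0 < 2.4 / (k:ℝ)) hD1 (by positivity : 0 < 4.25 / (k:ℝ)) hD2
  have m2 : Real.exp (-(2 * (k * t))) ≤ e2 := (Real.exp_le_exp.mpr (by linarith [P.hc])).trans P.he2
  have m3 : Real.exp (-(3 * (k * t))) ≤ e3 := (Real.exp_le_exp.mpr (by linarith [P.hc])).trans P.he3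
  have f1 : Real.exp (-(k * t)) / (2 * (2.4 / (k:ℝ))) ≤ 0.0767 / t := by
    have e : Real.exp (-(k * t)) / (2 * (2.4 / (k:ℝ))) = (k * t) * Real.exp (-(k * t)) / 4.8 / t := by
      field_simp; norm_num
    rw [e]
    apply div_le_div_of_nonneg_right _ ht.le
    have := c_exp_le (c := (k:ℝ) * t)
    rw [div_le_iff₀ (by norm_num)]
    refine this.trans (by norm_num)
  have f2 : Real.exp (-(2 * (k * t))) / (4 * (4.25 / (k:ℝ))) ≤ 0.0081 / t := by
    have e : Real.exp (-(2 * (k * t))) / (4 * (4.25 / (k:ℝ)))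
        = (k * t) * Real.exp (-(k * t)) * Real.exp (-(k * t)) / 17 / t := by
      have e0 : Real.exp (-(2 * (k * t))) = Real.exp (-(k * t)) * Real.exp (-(k * t)) := by
        rw [← Real.exp_add]; ring_nf
      rw [e0]; field_simp; norm_num
    rw [e]
    apply div_le_div_of_nonneg_right _ ht.le
    have g1 := c_exp_le (c := (k:ℝ) * t)
    have g2 : Real.exp (-((k:ℝ) * t)) ≤ 0.36788 := by
      refine (Real.exp_le_exp.mpr (by linarith : -((k:ℝ) * t) ≤ -1)).trans ?_
      exact exp_neg_le 1 0.36788 12 (by norm_num) (by norm_num [sum_range_succ, Nat.factorial])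
    have g3 := Real.exp_pos (-((k:ℝ) * t))
    have g4 : k * t * Real.exp (-(k * t)) * Real.exp (-(k * t)) ≤ 0.36788 * 0.36788 :=
      mul_le_mul g1 g2 g3.le (by norm_num)
    rw [div_le_iff₀ (by norm_num)]
    refine g4.trans (by norm_num)
  -- the modular part
  obtain ⟨l, d, hl, hcop, hYge, hden⟩ := den_le ht ht1 k hc1 θ
  set Y := Yf t (θ + Real.pi) l d with hYdef
  have hs3 : 1.732 ≤ Real.sqrt 3 := by
    rw [show (1.732 : ℝ) = Real.sqrt (1.732 ^ 2) by rw [Real.sqrt_sq (by norm_num)]]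
    exact Real.sqrt_le_sqrt (by norm_num)
  have hY0 : 0 < Y := by linarith
  have hmod : (Real.pi / (2 * t * Y)) ^ (1 / 4 : ℝ) * Real.exp (Real.pi * Y / 12)
      ≤ 1.2248 / t * Real.exp ((0.0184 + 0.1645 * (k * t)) / t) := by
    have hc1' : 0.1829 ≤ 0.0184 + 0.1645 * ((k:ℝ) * t) := by linarith
    rcases Y_C ht ht1 h1 hθπ l d hl hcop hYge with hY | hY
    · have hZ10 : 10 ≤ 2 * Real.pi / (9 * t) := by
        rw [le_div_iff₀ (by positivity)]; nlinarith
      have hg := gmono ht hYge hY hZ10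
      refine hg.trans ?_
      have e0 : (Real.pi / (2 * t * (2 * Real.pi / (9 * t)))) = 9 / 4 := by field_simp; norm_num
      rw [e0]
      have e1 : ((9:ℝ) / 4) ^ (1 / 4 : ℝ) ≤ 1.2248 := by
        calc ((9:ℝ) / 4) ^ (1 / 4 : ℝ) ≤ ((1.2248:ℝ) ^ 4) ^ (1 / 4 : ℝ) :=
              Real.rpow_le_rpow (by positivity) (by norm_num) (by norm_num)
          _ = 1.2248 := by
              rw [← Real.rpow_natCast, ← Real.rpow_mul (by norm_num)]; norm_num
      have e2 : 1.2248 ≤ 1.2248 / t := by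
        rw [le_div_iff₀ ht]; nlinarith
      apply mul_le_mul (e1.trans e2) _ (Real.exp_pos _).le (by positivity)
      apply Real.exp_le_exp.mpr
      have e3 : Real.pi * (2 * Real.pi / (9 * t)) / 12 = (Real.pi ^ 2 / 54) / t := by field_simp; ring
      rw [e3]
      apply div_le_div_of_nonneg_right _ ht.le
      nlinarith
    · have e1 : (Real.pi / (2 * t * Y)) ^ (1 / 4 : ℝ) ≤ 1 / t := by
        calc (Real.pi / (2 * t * Y)) ^ (1 / 4 : ℝ) ≤ ((1 / t) ^ 4) ^ (1 / 4 : ℝ) := by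
              apply Real.rpow_le_rpow (by positivity) _ (by norm_num)
              rw [div_pow, one_pow, div_le_div_iff₀ (by positivity) (by positivity)]
              have : t ^ 3 ≤ 0.00001 := by
                have : t ^ 3 ≤ (31 / 2000) ^ 3 := pow_le_pow_left₀ ht.le ht1 3
                refine this.trans (by norm_num)
              have h7 : t ^ 4 = t * t ^ 3 := by ring
              rw [h7]
              nlinarith [mul_le_mul_of_nonneg_left this ht.le, mul_pos ht hY0]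
          _ = 1 / t := by
              rw [← Real.rpow_natCast, ← Real.rpow_mul (by positivity)]; norm_num
      have e2 : (1:ℝ) / t ≤ 1.2248 / t := div_le_div_of_nonneg_right (by norm_num) ht.le
      apply mul_le_mul (e1.trans e2) _ (Real.exp_pos _).le (by positivity)
      apply Real.exp_le_exp.mpr
      have hYb : Y ≤ 2 * Real.pi * (k * t / 10) / t := by
        have hY' : Y = 2 * Real.pi * t / (t ^ 2 + ε ^ 2) := hY
        rw [hY', div_le_div_iff₀ (by positivity) ht]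
        have hkε : 5 ≤ k * ε := by rwa [div_le_iff₀' hk0] at hε1
        -- t² ≤ (k t/10) (t² + ε²)
        have h8 : t ^ 2 ≤ (k * t / 10) * (t ^ 2 + ε ^ 2) := by
          have h9 : 10 * t ≤ k * (t ^ 2 + ε ^ 2) := by
            have h10 : 2 * t * ε ≤ t ^ 2 + ε ^ 2 := by nlinarith [sq_nonneg (t - ε)]
            have h11 : 10 * t ≤ k * (2 * t * ε) := by nlinarith
            exact h11.trans (mul_le_mul_of_nonneg_left h10 hk0.le)
          nlinarith
        calc 2 * Real.pi * t * t = 2 * Real.pi * t ^ 2 := by ring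
          _ ≤ 2 * Real.pi * ((k * t / 10) * (t ^ 2 + ε ^ 2)) := mul_le_mul_of_nonneg_left h8 (by positivity)
          _ = _ := by ring
      have h12 : Real.pi * Y / 12 ≤ (Real.pi ^ 2 / 60 * (k * t)) / t := by
        calc Real.pi * Y / 12 ≤ Real.pi * (2 * Real.pi * (k * t / 10) / t) / 12 := by
              apply div_le_div_of_nonneg_right _ (by norm_num)
              exact mul_le_mul_of_nonneg_left hYb hπ0.le
          _ = _ := by ring
      refine h12.trans (div_le_div_of_nonneg_right ?_ ht.le)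
      have : Real.pi ^ 2 / 60 ≤ 0.1645 := by nlinarith
      nlinarith
  have hr := rho_le_den (n := n) (k := k) P.ha ht θ
  have hX : ‖Pfin (-(pt t 0)) k‖ * ‖Pfin (-(pt t θ)) k‖⁻¹ ≤ 1.377 * (1.2248 / t *
      Real.exp ((0.0184 + 0.1645 * (k * t)) / t)) * Real.exp (- Real.pi ^ 2 / (24 * t)
        + 0.2642 * Real.exp (-(2 * (k * t))) / t + finExp (-(pt t θ)) k) := by
    refine hden.trans ?_
    have e1 : Real.exp (Real.pi * Y / 12 - Real.pi ^ 2 / (24 * t)
        + 0.2642 * Real.exp (-(2 * (k * t))) / t + finExp (-(pt t θ)) k) =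
        Real.exp (Real.pi * Y / 12) * Real.exp (- Real.pi ^ 2 / (24 * t)
        + 0.2642 * Real.exp (-(2 * (k * t))) / t + finExp (-(pt t θ)) k) := by
      rw [← Real.exp_add]; ring_nf
    rw [e1, ← mul_assoc, mul_assoc (1.377:ℝ)]
    apply mul_le_mul_of_nonneg_right _ (Real.exp_pos _).le
    exact mul_le_mul_of_nonneg_left hmod (by norm_num)
  refine hr.trans ((mul_le_mul_of_nonneg_left hX (Real.exp_pos _).le).trans ?_)
  have e2' : Real.exp (k / 4 * Real.log (1 - qf t θ) + NC (a * t) (a * θ + Real.pi) n k / 2) *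
      (1.377 * (1.2248 / t * Real.exp ((0.0184 + 0.1645 * (k * t)) / t)) *
        Real.exp (- Real.pi ^ 2 / (24 * t) + 0.2642 * Real.exp (-(2 * (k * t))) / t
          + finExp (-(pt t θ)) k))
      = 1.377 * 1.2248 / t * Real.exp ((k / 4 * Real.log (1 - qf t θ)
        + NC (a * t) (a * θ + Real.pi) n k / 2) + (0.0184 + 0.1645 * (k * t)) / t
        + (- Real.pi ^ 2 / (24 * t)
          + 0.2642 * Real.exp (-(2 * (k * t))) / t + finExp (-(pt t θ)) k)) := by
    rw [Real.exp_add (_ + (0.0184 + 0.1645 * (k * t)) / t), Real.exp_add _ ((0.0184 + 0.1645 * (k * t)) / t)]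
    ring
  rw [e2']
  apply mul_le_mul_of_nonneg_left _ (by positivity)
  apply Real.exp_le_exp.mpr
  have l1 : (k:ℝ) / 4 * Real.log (1 - qf t θ) ≤ -(0.375 * (k * t) / t) := by
    have h3 := qf_log ht ht1 h1 hθπ
    have h4 := mul_le_mul_of_nonneg_left h3 (by positivity : 0 ≤ (k:ℝ) / 4)
    refine h4.trans (le_of_eq ?_)
    field_simp
    norm_num
  have n3 : 0.1475 * Real.exp (-(3 * (k * t))) / t ≤ 0.1475 * e3 / t :=
    div_le_div_of_nonneg_right (by linarith) ht.le
  have n4 : 0.2642 * Real.exp (-(2 * (k * t))) / t ≤ 0.2642 * e2 / t :=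
    div_le_div_of_nonneg_right (by linarith) ht.le
  have n5 := P.hN2 θ
  have hp := mul_le_mul_of_nonneg_right pi_sq_ge hw.le
  have e4' : - Real.pi ^ 2 / (24 * t) = -(1 / 24 * (Real.pi ^ 2 * t⁻¹)) := by field_simp
  have e5' : (9.8696 * (1 / 24) - 0.2642 * e2 - 0.1475 * e3 - ν2 - 0.1032 + 0.21 * c0) / t
      = 1 / 24 * (9.8696 * t⁻¹) - 0.2642 * e2 / t - 0.1475 * e3 / t - ν2 / t - 0.1032 / t
        + 0.21 * c0 / t := by ring
  have e6' : (0.0184 + 0.1645 * ((k:ℝ) * t)) / t = 0.0184 / t + 0.1645 * (k * t) / t := by ring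
  have e7' : 0.1032 / t = 0.0184 / t + 0.0767 / t + 0.0081 / t := by ring
  have h13 : 0.21 * c0 / t ≤ 0.375 * (k * t) / t - 0.1645 * (k * t) / t := by
    rw [← sub_div]
    apply div_le_div_of_nonneg_right _ ht.le
    have := P.hc
    linarith
  rw [e4', e5', e6', e7']
  linarith

end MPcf17a0.S1F
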