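import Pool.Agent.Lib.MP_cf17a0_co.S1.F4e
import Pool.Agent.Lib.MP_cf17a0_co.S1.PI

/-!
S1 part F, file F5: the integral over the outer region, for `1 ≤ k t`.
-/

namespace MPcf17a0.S1F

open Finset Pool.Agent.SignedQ.An Pool.Agent.Lib.MP_cf17a0_co.S1

lemma mono_w (p : ℕ) {w w0 β : ℝ} (hw0 : 0 < w0) (h : w0 ≤ w) (hβ : (p:ℝ) ≤ β * w0) :
    w ^ p * Real.exp (-(β * w)) ≤ w0 ^ p * Real.exp (-(β * w0)) := by
  have hwpos : 0 < w := hw0.trans_le h
  have h1 : w / w0 ≤ Real.exp (w / w0 - 1) := by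
    have := Real.add_one_le_exp (w / w0 - 1)
    linarith
  have h2 : (w / w0) ^ p ≤ Real.exp (p * (w / w0 - 1)) := by
    rw [Real.exp_nat_mul]
    exact pow_le_pow_left₀ (by positivity) h1 p
  have h3 : (p:ℝ) * (w / w0 - 1) ≤ β * (w - w0) := by
    have e1 : (p:ℝ) * (w / w0 - 1) = p / w0 * (w - w0) := by field_simp
    rw [e1]
    apply mul_le_mul_of_nonneg_right _ (by linarith)
    rw [div_le_iff₀ hw0]; exact hβ
  have h4 : (w / w0) ^ p ≤ Real.exp (β * (w - w0)) := h2.trans (Real.exp_le_exp.mpr h3)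
  have h5 : w ^ p ≤ w0 ^ p * Real.exp (β * (w - w0)) := by
    rw [div_pow, div_le_iff₀ (by positivity)] at h4
    linarith
  have e2 : Real.exp (-(β * w0)) = Real.exp (β * (w - w0)) * Real.exp (-(β * w)) := by
    rw [← Real.exp_add]; ring_nf
  rw [e2, ← mul_assoc]
  exact mul_le_mul_of_nonneg_right h5 (Real.exp_pos _).le

lemma exp_quarter : Real.exp (-(1/4)) ≤ 0.77881 :=
  exp_neg_le (1/4) 0.77881 6 (by norm_num) (by norm_num [sum_range_succ, Nat.factorial])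

lemma term_bound (p n : ℕ) {C f β w w0 v : ℝ} (hC : 0 ≤ C) (hw0 : 0 < w0) (hw : w0 ≤ w)
    (hβ : (p:ℝ) ≤ β * w0) (hn : (n:ℝ) / 4 ≤ β * w0 - f) (hv : C * w0 ^ p * 0.77881 ^ n ≤ v) :
    C * (w ^ p * Real.exp (f - β * w)) ≤ v := by
  have h1 := mono_w p hw0 hw hβ
  have e1 : Real.exp (f - β * w) = Real.exp f * Real.exp (-(β * w)) := by
    rw [← Real.exp_add]; ring_nf
  have h2 : w ^ p * Real.exp (f - β * w) ≤ w0 ^ p * Real.exp (f - β * w0) := by
    have e2 : Real.exp (f - β * w0) = Real.exp f * Real.exp (-(β * w0)) := by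
      rw [← Real.exp_add]; ring_nf
    rw [e1, e2]
    have := mul_le_mul_of_nonneg_left h1 (Real.exp_pos f).le
    nlinarith
  have h3 : Real.exp (f - β * w0) ≤ 0.77881 ^ n := by
    calc Real.exp (f - β * w0) ≤ Real.exp (n * (-(1/4))) := Real.exp_le_exp.mpr (by linarith)
      _ = Real.exp (-(1/4)) ^ n := Real.exp_nat_mul _ _
      _ ≤ 0.77881 ^ n := pow_le_pow_left₀ (Real.exp_pos _).le exp_quarter n
  refine le_trans ?_ hv
  rw [mul_assoc]
  apply mul_le_mul_of_nonneg_left _ hC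
  exact h2.trans (mul_le_mul_of_nonneg_left h3 (by positivity))

lemma int_part {F : ℝ → ℝ} (hF : Continuous F) {a b L B : ℝ} (hab : a ≤ b) (hL : b - a ≤ L) (hB : 0 ≤ B)
    (h : ∀ θ, a ≤ θ → θ ≤ b → F θ ≤ B) : ∫ θ in a..b, F θ ≤ L * B := by
  have h1 : ∫ θ in a..b, F θ ≤ ∫ _θ in a..b, B := by
    apply intervalIntegral.integral_mono_on hab (hF.intervalIntegrable _ _)
      (continuous_const.intervalIntegrable _ _)
    intro x hx
    exact h x hx.1 hx.2
  rw [intervalIntegral.integral_const, smul_eq_mul] at h1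
  exact h1.trans (mul_le_mul_of_nonneg_right hL hB)

section
variable {n k a : ℕ} {t c0 e1 e2 e3 ν ν1 ν2 ν0 : ℝ}

theorem int_le (P : Piece n k a t c0 e1 e2 e3 ν ν1 ν2 ν0) {BA BB BC BD BE BF BG BH : ℝ}
    (hA : ∀ θ, 1.5 * t ≤ θ → θ ≤ 2 * t → rho n k a t θ ≤ BA)
    (hB : ∀ θ, 2 * t ≤ θ → θ ≤ 4 * t → rho n k a t θ ≤ BB)
    (hC : ∀ θ, 4 * t ≤ θ → θ ≤ 0.3 → rho n k a t θ ≤ BC)
    (hD : ∀ θ, 0.3 ≤ θ → θ ≤ 0.6 → rho n k a t θ ≤ BD)
    (hE : ∀ θ, 0.6 ≤ θ → θ ≤ 1 → rho n k a t θ ≤ BE)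
    (hF : ∀ θ, 1 ≤ θ → θ ≤ 2.2 → t ≤ |θ - Real.pi / 3| → rho n k a t θ ≤ BF)
    (hG : ∀ θ, |θ - Real.pi / 3| ≤ t → rho n k a t θ ≤ BG)
    (hH : ∀ θ, 2.2 ≤ θ → θ ≤ Real.pi - 5 / k → rho n k a t θ ≤ BH)
    (pA : 0 ≤ BA) (pB : 0 ≤ BB) (pC : 0 ≤ BC) (pD : 0 ≤ BD) (pE : 0 ≤ BE) (pF : 0 ≤ BF)
    (pG : 0 ≤ BG) (pH : 0 ≤ BH) :
    ∫ θ in (1.5 * t)..(Real.pi - 5 / k), rho n k a t θ ≤
      0.5 * t * BA + 2 * t * BB + 0.3 * BC + 0.3 * BD + 0.4 * BE + 1.2 * BF + 2 * t * BG + 0.9416 * BH := by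
  have ht := P.ht
  have ht1 := P.ht1
  have hπ := Real.pi_gt_d4
  have hπ2 := Real.pi_lt_d4
  have hk : (64:ℝ) ≤ k := by
    have h1 := P.hc0.trans P.hc
    by_contra hcon
    push Not at hcon
    nlinarith
  have h5k : 5 / (k:ℝ) ≤ 0.08 := by rw [div_le_iff₀ (by linarith)]; linarith
  have h5k0 : 0 < 5 / (k:ℝ) := by positivity
  have hcont : Continuous fun θ => rho n k a t θ := PIarc.rho_continuous ht
  have ii : ∀ x y : ℝ, IntervalIntegrable (fun θ => rho n k a t θ) MeasureTheory.volume x y :=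
    fun x y => hcont.intervalIntegrable x y
  have s1 := intervalIntegral.integral_add_adjacent_intervals (ii (1.5 * t) (2 * t)) (ii (2 * t) (4 * t))
  have s2 := intervalIntegral.integral_add_adjacent_intervals (ii (1.5 * t) (4 * t)) (ii (4 * t) 0.3)
  have s3 := intervalIntegral.integral_add_adjacent_intervals (ii (1.5 * t) 0.3) (ii 0.3 0.6)
  have s4 := intervalIntegral.integral_add_adjacent_intervals (ii (1.5 * t) 0.6) (ii 0.6 1)
  have s5 := intervalIntegral.integral_add_adjacent_intervals (ii (1.5 * t) 1) (ii 1 (Real.pi / 3 - t))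
  have s6 := intervalIntegral.integral_add_adjacent_intervals (ii (1.5 * t) (Real.pi / 3 - t))
    (ii (Real.pi / 3 - t) (Real.pi / 3 + t))
  have s7 := intervalIntegral.integral_add_adjacent_intervals (ii (1.5 * t) (Real.pi / 3 + t))
    (ii (Real.pi / 3 + t) 2.2)
  have s8 := intervalIntegral.integral_add_adjacent_intervals (ii (1.5 * t) 2.2)
    (ii 2.2 (Real.pi - 5 / k))
  have a1 := int_part hcont (a := 1.5 * t) (b := 2 * t) (L := 0.5 * t) (B := BA) (by linarith)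
    (by linarith) pA hA
  have a2 := int_part hcont (a := 2 * t) (b := 4 * t) (L := 2 * t) (B := BB) (by linarith)
    (by linarith) pB hB
  have a3 := int_part hcont (a := 4 * t) (b := 0.3) (L := 0.3) (B := BC) (by linarith)
    (by linarith) pC hC
  have a4 := int_part hcont (a := 0.3) (b := 0.6) (L := 0.3) (B := BD) (by norm_num)
    (by norm_num) pD hD
  have a5 := int_part hcont (a := 0.6) (b := 1) (L := 0.4) (B := BE) (by norm_num)
    (by norm_num) pE hE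
  have a6 := int_part hcont (a := 1) (b := Real.pi / 3 - t) (L := Real.pi / 3 - t - 1) (B := BF) (by linarith)
    (by linarith) pF (fun θ h1 h2 => hF θ h1 (by linarith) (by
      rw [abs_sub_comm]; exact (by linarith : t ≤ Real.pi / 3 - θ).trans (le_abs_self _)))
  have a7 := int_part hcont (a := Real.pi / 3 - t) (b := Real.pi / 3 + t) (L := 2 * t) (B := BG) (by linarith)
    (by linarith) pG (fun θ h1 h2 => hG θ (abs_le.mpr ⟨by linarith, by linarith⟩))
  have a8 := int_part hcont (a := Real.pi / 3 + t) (b := 2.2) (L := 2.2 - Real.pi / 3 - t) (B := BF) (by linarith)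
    (by linarith) pF (fun θ h1 h2 => hF θ (by linarith) h2
      ((by linarith : t ≤ θ - Real.pi / 3).trans (le_abs_self _)))
  have a9 := int_part hcont (a := 2.2) (b := Real.pi - 5 / k) (L := 0.9416) (B := BH) (by linarith)
    (by linarith) pH hH
  have a10 : (Real.pi / 3 - t - 1) * BF + (2.2 - Real.pi / 3 - t) * BF ≤ 1.2 * BF := by nlinarith
  linarith

end

end MPcf17a0.S1F
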