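import Pool.Agent.Lib.MP_cf17a0_co.S1.F5

/-!
S1 part F, file F6: the numerical pieces.
-/

namespace MPcf17a0.S1F

open Finset Pool.Agent.SignedQ.An Pool.Agent.Lib.MP_cf17a0_co.S1

theorem piece_final {n k a : ℕ} {t c0 e1 e2 e3 ν ν1 ν2 ν0 : ℝ}
    (P : Piece n k a t c0 e1 e2 e3 ν ν1 ν2 ν0) {S w0 : ℝ} {vA vB vC vD vE vF vG vH : ℝ}
    (nA nB nC nD nE nF nG nH : ℕ) (hS : 0 ≤ S) (hσ : sigma n k a t ≤ S / t ^ 2) (hw0 : 0 < w0) (hw : w0 ≤ t⁻¹)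
    (cA1 : ((1:ℕ):ℝ) ≤ (9.8696 * (1 / 24 - 1 / 78) - 0.2642 * e2 - 0.1475 * e3 - ν - e2 / 7.2) * w0)
    (cA2 : (nA:ℝ) / 4 ≤ (9.8696 * (1 / 24 - 1 / 78) - 0.2642 * e2 - 0.1475 * e3 - ν - e2 / 7.2) * w0 - (e1 / 1.998 + ν1))
    (cA3 : S * 0.5 * 1.377 * 1.3427 * w0 ^ 1 * 0.77881 ^ nA ≤ vA)
    (cB1 : ((1:ℕ):ℝ) ≤ (9.8696 * (1 / 24 - 1 / 120) - 0.2642 * e2 - 0.1475 * e3 - ν - e2 / 8.92) * w0)
    (cB2 : (nB:ℝ) / 4 ≤ (9.8696 * (1 / 24 - 1 / 120) - 0.2642 * e2 - 0.1475 * e3 - ν - e2 / 8.92) * w0 - (e1 / 1.998 + ν1))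
    (cB3 : S * 2 * 1.377 * 1.4954 * w0 ^ 1 * 0.77881 ^ nB ≤ vB)
    (cC1 : ((2:ℕ):ℝ) ≤ (9.8696 * (1 / 24 - 1 / 150) - 0.2642 * e2 - 0.1475 * e3 - ν - e2 / 16.12) * w0)
    (cC2 : (nC:ℝ) / 4 ≤ (9.8696 * (1 / 24 - 1 / 150) - 0.2642 * e2 - 0.1475 * e3 - ν - e2 / 16.12) * w0 - (e1 / 1.96 + ν1))
    (cC3 : S * 0.3 * 1.377 * 1.5812 * w0 ^ 2 * 0.77881 ^ nC ≤ vC)
    (cD1 : ((2:ℕ):ℝ) ≤ (9.8696 * (1 / 24 - 1 / 150) - 0.2642 * e2 - 0.1475 * e3 - ν + c0 * 0.0223 / 4) * w0)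
    (cD2 : (nD:ℝ) / 4 ≤ (9.8696 * (1 / 24 - 1 / 150) - 0.2642 * e2 - 0.1475 * e3 - ν + c0 * 0.0223 / 4) * w0 - (e1 / 1.91 + e2 / 1.16 + ν1))
    (cD3 : S * 0.3 * 1.377 * 1.5812 * w0 ^ 2 * 0.77881 ^ nD ≤ vD)
    (cE1 : ((2:ℕ):ℝ) ≤ (9.8696 * (1 / 24 - 1 / 150) - 0.2642 * e2 - 0.1475 * e3 - ν2 + c0 * 0.087 / 4) * w0)
    (cE2 : (nE:ℝ) / 4 ≤ (9.8696 * (1 / 24 - 1 / 150) - 0.2642 * e2 - 0.1475 * e3 - ν2 + c0 * 0.087 / 4) * w0 - (e1 / 1.75 + e2 / 2.16 + ν0))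
    (cE3 : S * 0.4 * 1.377 * 1.5812 * w0 ^ 2 * 0.77881 ^ nE ≤ vE)
    (cF1 : ((2:ℕ):ℝ) ≤ (9.8696 * (1 / 24 - 1 / 96) - 0.2642 * e2 - 0.1475 * e3 - ν2 + c0 * 0.2264 / 4) * w0)
    (cF2 : (nF:ℝ) / 4 ≤ (9.8696 * (1 / 24 - 1 / 96) - 0.2642 * e2 - 0.1475 * e3 - ν2 + c0 * 0.2264 / 4) * w0 - (e1 / 0.79 + e2 / 3.2 + ν0))
    (cF3 : S * 1.2 * 1.377 * 1.4143 * w0 ^ 2 * 0.77881 ^ nF ≤ vF)
    (cG1 : ((1:ℕ):ℝ) ≤ (9.8696 * (1 / 24 - 1 / 54) - 0.2642 * e2 - 0.1475 * e3 - ν2 + c0 * 0.2264 / 4) * w0)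
    (cG2 : (nG:ℝ) / 4 ≤ (9.8696 * (1 / 24 - 1 / 54) - 0.2642 * e2 - 0.1475 * e3 - ν2 + c0 * 0.2264 / 4) * w0 - (e1 / 1.7 + e2 / 3.2 + ν0))
    (cG3 : S * 2 * 1.377 * 1.2248 * w0 ^ 1 * 0.77881 ^ nG ≤ vG)
    (cH1 : ((3:ℕ):ℝ) ≤ (9.8696 * (1 / 24) - 0.2642 * e2 - 0.1475 * e3 - ν2 - 0.1032 + 0.21 * c0) * w0)
    (cH2 : (nH:ℝ) / 4 ≤ (9.8696 * (1 / 24) - 0.2642 * e2 - 0.1475 * e3 - ν2 - 0.1032 + 0.21 * c0) * w0 - ν0)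
    (cH3 : S * 0.9416 * 1.377 * 1.2248 * w0 ^ 3 * 0.77881 ^ nH ≤ vH) :
    sigma n k a t * ∫ θ in (1.5 * t)..(Real.pi - 5 / k), rho n k a t θ ≤ vA + vB + vC + vD + vE + vF + vG + vH := by
  have ht := P.ht
  have hI := int_le P (BA := 1.377 * 1.3427 * Real.exp ((e1 / 1.998 + ν1)
      - (9.8696 * (1 / 24 - 1 / 78) - 0.2642 * e2 - 0.1475 * e3 - ν - e2 / 7.2) / t)) (BB := 1.377 * 1.4954 * Real.exp ((e1 / 1.998 + ν1)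
      - (9.8696 * (1 / 24 - 1 / 120) - 0.2642 * e2 - 0.1475 * e3 - ν - e2 / 8.92) / t)) (BC := 1.377 * 1.5812 * Real.exp ((e1 / 1.96 + ν1)
      - (9.8696 * (1 / 24 - 1 / 150) - 0.2642 * e2 - 0.1475 * e3 - ν - e2 / 16.12) / t)) (BD := 1.377 * 1.5812 * Real.exp ((e1 / 1.91 + e2 / 1.16 + ν1)
      - (9.8696 * (1 / 24 - 1 / 150) - 0.2642 * e2 - 0.1475 * e3 - ν + c0 * 0.0223 / 4) / t)) (BE := 1.377 * 1.5812 * Real.exp ((e1 / 1.75 + e2 / 2.16 + ν0)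
      - (9.8696 * (1 / 24 - 1 / 150) - 0.2642 * e2 - 0.1475 * e3 - ν2 + c0 * 0.087 / 4) / t)) (BF := 1.377 * 1.4143 * Real.exp ((e1 / 0.79 + e2 / 3.2 + ν0)
      - (9.8696 * (1 / 24 - 1 / 96) - 0.2642 * e2 - 0.1475 * e3 - ν2 + c0 * 0.2264 / 4) / t)) (BG := 1.377 * 1.2248 * Real.exp ((e1 / 1.7 + e2 / 3.2 + ν0)
      - (9.8696 * (1 / 24 - 1 / 54) - 0.2642 * e2 - 0.1475 * e3 - ν2 + c0 * 0.2264 / 4) / t)) (BH := 1.377 * 1.2248 / t * Real.exp (ν0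
      - (9.8696 * (1 / 24) - 0.2642 * e2 - 0.1475 * e3 - ν2 - 0.1032 + 0.21 * c0) / t))
    (fun θ h1 h2 => regA P h1 h2) (fun θ h1 h2 => regB P h1 h2) (fun θ h1 h2 => regC P h1 h2) (fun θ h1 h2 => regD P h1 h2) (fun θ h1 h2 => regE P h1 h2) (fun θ h1 h2 h3 => regF P h1 h2 h3) (fun θ h3 => regG P h3) (fun θ h1 h2 => regH P h1 h2)
    (by positivity) (by positivity) (by positivity) (by positivity) (by positivity) (by positivity)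
    (by positivity) (by positivity)
  have hσ0 : 0 ≤ sigma n k a t := Real.sqrt_nonneg _
  have h1 := mul_le_mul_of_nonneg_left hI hσ0
  refine h1.trans ?_
  have tA := term_bound 1 nA (C := S * 0.5 * 1.377 * 1.3427) (f := (e1 / 1.998 + ν1))
    (β := (9.8696 * (1 / 24 - 1 / 78) - 0.2642 * e2 - 0.1475 * e3 - ν - e2 / 7.2)) (w := t⁻¹) (w0 := w0) (v := vA) (by positivity) hw0 hw cA1 cA2 cA3
  have tB := term_bound 1 nB (C := S * 2 * 1.377 * 1.4954) (f := (e1 / 1.998 + ν1))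
    (β := (9.8696 * (1 / 24 - 1 / 120) - 0.2642 * e2 - 0.1475 * e3 - ν - e2 / 8.92)) (w := t⁻¹) (w0 := w0) (v := vB) (by positivity) hw0 hw cB1 cB2 cB3
  have tC := term_bound 2 nC (C := S * 0.3 * 1.377 * 1.5812) (f := (e1 / 1.96 + ν1))
    (β := (9.8696 * (1 / 24 - 1 / 150) - 0.2642 * e2 - 0.1475 * e3 - ν - e2 / 16.12)) (w := t⁻¹) (w0 := w0) (v := vC) (by positivity) hw0 hw cC1 cC2 cC3
  have tD := term_bound 2 nD (C := S * 0.3 * 1.377 * 1.5812) (f := (e1 / 1.91 + e2 / 1.16 + ν1))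
    (β := (9.8696 * (1 / 24 - 1 / 150) - 0.2642 * e2 - 0.1475 * e3 - ν + c0 * 0.0223 / 4)) (w := t⁻¹) (w0 := w0) (v := vD) (by positivity) hw0 hw cD1 cD2 cD3
  have tE := term_bound 2 nE (C := S * 0.4 * 1.377 * 1.5812) (f := (e1 / 1.75 + e2 / 2.16 + ν0))
    (β := (9.8696 * (1 / 24 - 1 / 150) - 0.2642 * e2 - 0.1475 * e3 - ν2 + c0 * 0.087 / 4)) (w := t⁻¹) (w0 := w0) (v := vE) (by positivity) hw0 hw cE1 cE2 cE3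
  have tF := term_bound 2 nF (C := S * 1.2 * 1.377 * 1.4143) (f := (e1 / 0.79 + e2 / 3.2 + ν0))
    (β := (9.8696 * (1 / 24 - 1 / 96) - 0.2642 * e2 - 0.1475 * e3 - ν2 + c0 * 0.2264 / 4)) (w := t⁻¹) (w0 := w0) (v := vF) (by positivity) hw0 hw cF1 cF2 cF3
  have tG := term_bound 1 nG (C := S * 2 * 1.377 * 1.2248) (f := (e1 / 1.7 + e2 / 3.2 + ν0))
    (β := (9.8696 * (1 / 24 - 1 / 54) - 0.2642 * e2 - 0.1475 * e3 - ν2 + c0 * 0.2264 / 4)) (w := t⁻¹) (w0 := w0) (v := vG) (by positivity) hw0 hw cG1 cG2 cG3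
  have tH := term_bound 3 nH (C := S * 0.9416 * 1.377 * 1.2248) (f := ν0)
    (β := (9.8696 * (1 / 24) - 0.2642 * e2 - 0.1475 * e3 - ν2 - 0.1032 + 0.21 * c0)) (w := t⁻¹) (w0 := w0) (v := vH) (by positivity) hw0 hw cH1 cH2 cH3
  have qA : S / t ^ 2 * (0.5 * t * (1.377 * 1.3427 * Real.exp ((e1 / 1.998 + ν1)
      - (9.8696 * (1 / 24 - 1 / 78) - 0.2642 * e2 - 0.1475 * e3 - ν - e2 / 7.2) / t)))
      = S * 0.5 * 1.377 * 1.3427 * (t⁻¹ ^ 1 * Real.exp ((e1 / 1.998 + ν1)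
        - (9.8696 * (1 / 24 - 1 / 78) - 0.2642 * e2 - 0.1475 * e3 - ν - e2 / 7.2) * t⁻¹)) := by
    rw [div_eq_mul_inv (9.8696 * (1 / 24 - 1 / 78) - 0.2642 * e2 - 0.1475 * e3 - ν - e2 / 7.2) t]
    field_simp
  have qB : S / t ^ 2 * (2 * t * (1.377 * 1.4954 * Real.exp ((e1 / 1.998 + ν1)
      - (9.8696 * (1 / 24 - 1 / 120) - 0.2642 * e2 - 0.1475 * e3 - ν - e2 / 8.92) / t)))
      = S * 2 * 1.377 * 1.4954 * (t⁻¹ ^ 1 * Real.exp ((e1 / 1.998 + ν1)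
        - (9.8696 * (1 / 24 - 1 / 120) - 0.2642 * e2 - 0.1475 * e3 - ν - e2 / 8.92) * t⁻¹)) := by
    rw [div_eq_mul_inv (9.8696 * (1 / 24 - 1 / 120) - 0.2642 * e2 - 0.1475 * e3 - ν - e2 / 8.92) t]
    field_simp
  have qC : S / t ^ 2 * (0.3 * (1.377 * 1.5812 * Real.exp ((e1 / 1.96 + ν1)
      - (9.8696 * (1 / 24 - 1 / 150) - 0.2642 * e2 - 0.1475 * e3 - ν - e2 / 16.12) / t)))
      = S * 0.3 * 1.377 * 1.5812 * (t⁻¹ ^ 2 * Real.exp ((e1 / 1.96 + ν1)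
        - (9.8696 * (1 / 24 - 1 / 150) - 0.2642 * e2 - 0.1475 * e3 - ν - e2 / 16.12) * t⁻¹)) := by
    rw [div_eq_mul_inv (9.8696 * (1 / 24 - 1 / 150) - 0.2642 * e2 - 0.1475 * e3 - ν - e2 / 16.12) t]
    field_simp
  have qD : S / t ^ 2 * (0.3 * (1.377 * 1.5812 * Real.exp ((e1 / 1.91 + e2 / 1.16 + ν1)
      - (9.8696 * (1 / 24 - 1 / 150) - 0.2642 * e2 - 0.1475 * e3 - ν + c0 * 0.0223 / 4) / t)))
      = S * 0.3 * 1.377 * 1.5812 * (t⁻¹ ^ 2 * Real.exp ((e1 / 1.91 + e2 / 1.16 + ν1)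
        - (9.8696 * (1 / 24 - 1 / 150) - 0.2642 * e2 - 0.1475 * e3 - ν + c0 * 0.0223 / 4) * t⁻¹)) := by
    rw [div_eq_mul_inv (9.8696 * (1 / 24 - 1 / 150) - 0.2642 * e2 - 0.1475 * e3 - ν + c0 * 0.0223 / 4) t]
    field_simp
  have qE : S / t ^ 2 * (0.4 * (1.377 * 1.5812 * Real.exp ((e1 / 1.75 + e2 / 2.16 + ν0)
      - (9.8696 * (1 / 24 - 1 / 150) - 0.2642 * e2 - 0.1475 * e3 - ν2 + c0 * 0.087 / 4) / t)))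
      = S * 0.4 * 1.377 * 1.5812 * (t⁻¹ ^ 2 * Real.exp ((e1 / 1.75 + e2 / 2.16 + ν0)
        - (9.8696 * (1 / 24 - 1 / 150) - 0.2642 * e2 - 0.1475 * e3 - ν2 + c0 * 0.087 / 4) * t⁻¹)) := by
    rw [div_eq_mul_inv (9.8696 * (1 / 24 - 1 / 150) - 0.2642 * e2 - 0.1475 * e3 - ν2 + c0 * 0.087 / 4) t]
    field_simp
  have qF : S / t ^ 2 * (1.2 * (1.377 * 1.4143 * Real.exp ((e1 / 0.79 + e2 / 3.2 + ν0)
      - (9.8696 * (1 / 24 - 1 / 96) - 0.2642 * e2 - 0.1475 * e3 - ν2 + c0 * 0.2264 / 4) / t)))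
      = S * 1.2 * 1.377 * 1.4143 * (t⁻¹ ^ 2 * Real.exp ((e1 / 0.79 + e2 / 3.2 + ν0)
        - (9.8696 * (1 / 24 - 1 / 96) - 0.2642 * e2 - 0.1475 * e3 - ν2 + c0 * 0.2264 / 4) * t⁻¹)) := by
    rw [div_eq_mul_inv (9.8696 * (1 / 24 - 1 / 96) - 0.2642 * e2 - 0.1475 * e3 - ν2 + c0 * 0.2264 / 4) t]
    field_simp
  have qG : S / t ^ 2 * (2 * t * (1.377 * 1.2248 * Real.exp ((e1 / 1.7 + e2 / 3.2 + ν0)
      - (9.8696 * (1 / 24 - 1 / 54) - 0.2642 * e2 - 0.1475 * e3 - ν2 + c0 * 0.2264 / 4) / t)))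
      = S * 2 * 1.377 * 1.2248 * (t⁻¹ ^ 1 * Real.exp ((e1 / 1.7 + e2 / 3.2 + ν0)
        - (9.8696 * (1 / 24 - 1 / 54) - 0.2642 * e2 - 0.1475 * e3 - ν2 + c0 * 0.2264 / 4) * t⁻¹)) := by
    rw [div_eq_mul_inv (9.8696 * (1 / 24 - 1 / 54) - 0.2642 * e2 - 0.1475 * e3 - ν2 + c0 * 0.2264 / 4) t]
    field_simp
  have qH : S / t ^ 2 * (0.9416 * (1.377 * 1.2248 / t * Real.exp (ν0
      - (9.8696 * (1 / 24) - 0.2642 * e2 - 0.1475 * e3 - ν2 - 0.1032 + 0.21 * c0) / t)))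
      = S * 0.9416 * 1.377 * 1.2248 * (t⁻¹ ^ 3 * Real.exp (ν0
        - (9.8696 * (1 / 24) - 0.2642 * e2 - 0.1475 * e3 - ν2 - 0.1032 + 0.21 * c0) * t⁻¹)) := by
    rw [div_eq_mul_inv (9.8696 * (1 / 24) - 0.2642 * e2 - 0.1475 * e3 - ν2 - 0.1032 + 0.21 * c0) t]
    field_simp
  refine (mul_le_mul_of_nonneg_right hσ (by positivity)).trans ?_
  rw [mul_add, mul_add, mul_add, mul_add, mul_add, mul_add, mul_add, qA, qB, qC, qD, qE, qF, qG, qH]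
  linarith

end MPcf17a0.S1F
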