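import Pool.Agent.Lib.MP_cf17a0_co.S1.F6

/-!
S1 part F, file F7: the outer region for `1 ≤ k t`.
-/

namespace MPcf17a0.S1F

open Finset Pool.Agent.SignedQ.An Pool.Agent.Lib.MP_cf17a0_co.S1

lemma pieceP1 {n k a : ℕ} {t : ℝ}
    (P : Piece n k a t 1 0.36788 0.13534 0.04979 (0.12338 + 0.13534 * 0.04979 / 5) (1 / 4)
      (0.12338 + 0.13534 * 0.04979 / 5) (1 / 4))
    (hσ : sigma n k a t ≤ 0.1762 / t ^ 2) (hw : 2000 / 31 ≤ t⁻¹) :
    sigma n k a t * ∫ θ in (1.5 * t)..(Real.pi - 5 / k), rho n k a t θ ≤ 0.151 := by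
  have h := piece_final P (vA := 0.03347) (vB := 0.00744) (vC := 0.01696) (vD := 0.00625) (vE := 0.00307) (vF := 0.01354) (vG := 0.03499) (vH := 0.00003) 23 35 41 45 49 47 28 89
    (by norm_num) hσ (by norm_num) hw
    (by norm_num) (by norm_num) (by norm_num) (by norm_num) (by norm_num) (by norm_num) (by norm_num) (by norm_num) (by norm_num) (by norm_num) (by norm_num) (by norm_num) (by norm_num) (by norm_num) (by norm_num) (by norm_num) (by norm_num) (by norm_num) (by norm_num) (by norm_num) (by norm_num) (by norm_num) (by norm_num) (by norm_num)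
  refine h.trans (by norm_num)

lemma pieceP2 {n k a : ℕ} {t : ℝ}
    (P : Piece n k a t 2 0.13534 0.01832 0.00248 (0.12338 + 0.01832 * 0.00248 / 5) (1 / 4)
      (0.12338 + 0.01832 * 0.00248 / 5) (1 / 4))
    (hσ : sigma n k a t ≤ 0.376 / t ^ 2) (hw : 2000 / 31 ≤ t⁻¹) :
    sigma n k a t * ∫ θ in (1.5 * t)..(Real.pi - 5 / k), rho n k a t θ ≤ 0.151 := by
  have h := piece_final P (vA := 0.00169) (vB := 0.00049) (vC := 0.00142) (vD := 0.00068) (vE := 0.00013) (vF := 0.00006) (vG := 0.00016) (vH := 0.00002) 38 49 54 57 65 73 53 153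
    (by norm_num) hσ (by norm_num) hw
    (by norm_num) (by norm_num) (by norm_num) (by norm_num) (by norm_num) (by norm_num) (by norm_num) (by norm_num) (by norm_num) (by norm_num) (by norm_num) (by norm_num) (by norm_num) (by norm_num) (by norm_num) (by norm_num) (by norm_num) (by norm_num) (by norm_num) (by norm_num) (by norm_num) (by norm_num) (by norm_num) (by norm_num)
  refine h.trans (by norm_num)

lemma pieceQ1 {n k a : ℕ} {t : ℝ}
    (P : Piece n k a t 1 0.36788 0.13534 0.04979 (0.16396 + 0.04979 ^ 2 / 6 + 4 / 27 * 0.04979 ^ 3) (25 / 48 + 0.04979 / 0.595)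
      (0.16396 + 0.04979 ^ 2 / 6 + 4 / 27 * 0.04979 ^ 3 + 0.04979 / 3) (25 / 48))
    (hσ : sigma n k a t ≤ 0.1062 / t ^ 2) (hw : 400 / 3 ≤ t⁻¹) :
    sigma n k a t * ∫ θ in (1.5 * t)..(Real.pi - 5 / k), rho n k a t θ ≤ 0.151 := by
  have h := piece_final P (vA := 0.01535) (vB := 0.00012) (vC := 0.00012) (vD := 0.00003) (vE := 0.00003) (vF := 0.00010) (vG := 0.03395) (vH := 0.00002) 27 53 65 72 73 71 29 154
    (by norm_num) hσ (by norm_num) hw
    (by norm_num) (by norm_num) (by norm_num) (by norm_num) (by norm_num) (by norm_num) (by norm_num) (by norm_num) (by norm_num) (by norm_num) (by norm_num) (by norm_num) (by norm_num) (by norm_num) (by norm_num) (by norm_num) (by norm_num) (by norm_num) (by norm_num) (by norm_num) (by norm_num) (by norm_num) (by norm_num) (by norm_num)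
  refine h.trans (by norm_num)

lemma pieceQ2 {n k a : ℕ} {t : ℝ}
    (P : Piece n k a t 1.5 0.22314 0.04979 0.01111 (0.16396 + 0.01111 ^ 2 / 6 + 4 / 27 * 0.01111 ^ 3) (25 / 48 + 0.01111 / 0.595)
      (0.16396 + 0.01111 ^ 2 / 6 + 4 / 27 * 0.01111 ^ 3 + 0.01111 / 3) (25 / 48))
    (hσ : sigma n k a t ≤ 0.1416 / t ^ 2) (hw : 100 ≤ t⁻¹) :
    sigma n k a t * ∫ θ in (1.5 * t)..(Real.pi - 5 / k), rho n k a t θ ≤ 0.151 := by
  have h := piece_final P (vA := 0.00163) (vB := 0.00008) (vC := 0.00019) (vD := 0.00006) (vE := 0.00002) (vF := 0.00002) (vG := 0.00024) (vH := 0.00002) 36 55 62 67 75 81 49 174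
    (by norm_num) hσ (by norm_num) hw
    (by norm_num) (by norm_num) (by norm_num) (by norm_num) (by norm_num) (by norm_num) (by norm_num) (by norm_num) (by norm_num) (by norm_num) (by norm_num) (by norm_num) (by norm_num) (by norm_num) (by norm_num) (by norm_num) (by norm_num) (by norm_num) (by norm_num) (by norm_num) (by norm_num) (by norm_num) (by norm_num) (by norm_num)
  refine h.trans (by norm_num)

lemma pieceQ3 {n k a : ℕ} {t : ℝ}
    (P : Piece n k a t 2 0.13534 0.01832 0.00248 (0.16396 + 0.00248 ^ 2 / 6 + 4 / 27 * 0.00248 ^ 3) (25 / 48 + 0.00248 / 0.595)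
      (0.16396 + 0.00248 ^ 2 / 6 + 4 / 27 * 0.00248 ^ 3 + 0.00248 / 3) (25 / 48))
    (hσ : sigma n k a t ≤ 0.376 / t ^ 2) (hw : 2000 / 31 ≤ t⁻¹) :
    sigma n k a t * ∫ θ in (1.5 * t)..(Real.pi - 5 / k), rho n k a t θ ≤ 0.151 := by
  have h := piece_final P (vA := 0.03374) (vB := 0.00750) (vC := 0.02818) (vD := 0.01332) (vE := 0.00188) (vF := 0.00069) (vG := 0.00291) (vH := 0.00002) 26 38 42 45 54 62 41 141
    (by norm_num) hσ (by norm_num) hw
    (by norm_num) (by norm_num) (by norm_num) (by norm_num) (by norm_num) (by norm_num) (by norm_num) (by norm_num) (by norm_num) (by norm_num) (by norm_num) (by norm_num) (by norm_num) (by norm_num) (by norm_num) (by norm_num) (by norm_num) (by norm_num) (by norm_num) (by norm_num) (by norm_num) (by norm_num) (by norm_num) (by norm_num)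
  refine h.trans (by norm_num)

end MPcf17a0.S1F
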