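import Pool.Agent.Lib.MP_cf17a0_co.S1.F7

/-!
S1 part F, file F8: `OUT Qhi`.
-/

namespace MPcf17a0.S1F

open Finset Pool.Agent.SignedQ.An Pool.Agent.Lib.MP_cf17a0_co.S1

lemma sigma_le' {n k a : ℕ} (h : Even (n * k)) (hao : Odd a) (ha : 3 ≤ a) (hk : 26 ≤ k) {t S : ℝ}
    (ht : 0 < t) (ht' : t ≤ 31 / 2000) (hS : 0 ≤ S) (hc : 1.001 * ((k:ℝ) * t) * t ≤ S ^ 2) :
    sigma n k a t ≤ S / t ^ 2 := by
  have h1 := PIarc.sigma_le (n := n) h hao ha hk ht ht'
  have hT : Real.tanh ((a * (n + k) : ℕ) * (t / 2)) ≤ 1 := by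
    rw [Real.tanh_eq_sinh_div_cosh, div_le_one (Real.cosh_pos _)]
    exact (Real.sinh_lt_cosh _).le
  have h2 : √(1001 / 1000 * k) * (Real.tanh ((a * (n + k) : ℕ) * (t / 2)) / t) ≤ √(1001 / 1000 * k) * (1 / t) :=
    mul_le_mul_of_nonneg_left (div_le_div_of_nonneg_right hT ht.le) (Real.sqrt_nonneg _)
  refine h1.trans (h2.trans ?_)
  rw [mul_one_div, div_le_div_iff₀ ht (by positivity)]
  have h3 : √(1001 / 1000 * k) * t ≤ S := by
    have h4 : √(1001 / 1000 * k) * t = √(1001 / 1000 * k * t ^ 2) := by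
      rw [Real.sqrt_mul (by positivity : (0:ℝ) ≤ 1001 / 1000 * k) (t ^ 2), Real.sqrt_sq ht.le]
    rw [h4, Real.sqrt_le_left hS]
    refine le_trans (le_of_eq ?_) hc
    ring
  calc √(1001 / 1000 * k) * t ^ 2 = √(1001 / 1000 * k) * t * t := by ring
    _ ≤ S * t := mul_le_mul_of_nonneg_right h3 ht.le

lemma log9_le : Real.log 9 ≤ 2.1974 := by
  have : Real.log 9 = 2 * Real.log 3 := by
    rw [show (9:ℝ) = 3 ^ 2 by norm_num, Real.log_pow]; norm_num
  rw [this]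
  have := log3_le
  linarith

/-- `k t² ≤ 0.14` on the domain. -/
lemma ct_le {k : ℕ} {t : ℝ} (h : DOM k t) : (k:ℝ) * t * t ≤ 0.14 := by
  obtain ⟨hk, ht, ht1, -, hlog⟩ := h
  by_contra hcon
  push Not at hcon
  have hk0 : (0:ℝ) < k := by
    have : (26:ℝ) ≤ k := by exact_mod_cast hk
    linarith
  set c := (k:ℝ) * t with hc
  have hc0 : 0 < c := by positivity
  have hc9 : 9 < c := by nlinarith
  have hk1 : (k:ℝ) ≤ c ^ 2 / 0.14 := by
    rw [le_div_iff₀ (by norm_num)]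
    have e : c ^ 2 = k * (c * t) := by rw [hc]; ring
    rw [e]
    exact mul_le_mul_of_nonneg_left hcon.le hk0.le
  have h1 : Real.log k ≤ 2 * Real.log c + 1.98 := by
    have h2 : Real.log k ≤ Real.log (c ^ 2 / 0.14) := Real.log_le_log hk0 hk1
    rw [Real.log_div (by positivity) (by norm_num), Real.log_pow] at h2
    have h3 : -1.98 ≤ Real.log 0.14 := by
      rw [Real.le_log_iff_exp_le (by norm_num)]
      exact exp_neg_le 1.98 0.14 14 (by norm_num) (by norm_num [sum_range_succ, Nat.factorial])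
    push_cast at h2
    linarith
  have h4 : Real.log c ≤ 2.1974 + (c / 9 - 1) := by
    have h5 : Real.log c = Real.log 9 + Real.log (c / 9) := by
      rw [← Real.log_mul (by norm_num) (by positivity)]
      congr 1; field_simp
    have h6 := Real.log_le_sub_one_of_pos (by positivity : 0 < c / 9)
    have := log9_le
    linarith
  linarith

lemma mkP {n k a : ℕ} {t c0 e1 e2 e3 : ℝ} (hnk : Even (n * k)) (ha : Odd a)
    (hP : 5 ≤ a ∨ (a = 3 ∧ k ≤ 2 * n)) (ht : 0 < t) (ht1 : t ≤ 31 / 2000) (hc0 : 1 ≤ c0)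
    (hc : c0 ≤ (k:ℝ) * t) (he1 : Real.exp (-c0) ≤ e1) (he2 : Real.exp (-(2 * c0)) ≤ e2)
    (he3 : Real.exp (-(3 * c0)) ≤ e3) :
    Piece n k a t c0 e1 e2 e3 (0.12338 + e2 * e3 / 5) (1 / 4) (0.12338 + e2 * e3 / 5) (1 / 4) :=
  ⟨ha, ht, ht1, hc0, hc, he1, he2, he3, fun θ _ _ => numP hnk hP ht hc0 hc he2 he3 θ,
    fun θ => numP hnk hP ht hc0 hc he2 he3 θ⟩

lemma mkQ {n k a : ℕ} {t c0 e1 e2 e3 : ℝ} (hnk : Even (n * k)) (ha : a = 3)
    (ht : 0 < t) (ht1 : t ≤ 31 / 2000) (hc0 : 1 ≤ c0)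
    (hc : c0 ≤ (k:ℝ) * t) (he1 : Real.exp (-c0) ≤ e1) (he2 : Real.exp (-(2 * c0)) ≤ e2)
    (he3 : Real.exp (-(3 * c0)) ≤ e3) :
    Piece n k a t c0 e1 e2 e3 (0.16396 + e3 ^ 2 / 6 + 4 / 27 * e3 ^ 3) (25 / 48 + e3 / 0.595)
      (0.16396 + e3 ^ 2 / 6 + 4 / 27 * e3 ^ 3 + e3 / 3) (25 / 48) :=
  ⟨by rw [ha]; exact ⟨1, rfl⟩, ht, ht1, hc0, hc, he1, he2, he3,
    fun θ h0 h1 => numQ1 hnk ha ht ht1 hc he3 h0 h1,
    fun θ => numQ2 hnk ha ht ht1 hc he3 θ⟩

lemma e1_1 : Real.exp (-1) ≤ 0.36788 :=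
  exp_neg_le 1 0.36788 12 (by norm_num) (by norm_num [sum_range_succ, Nat.factorial])
lemma e2_1 : Real.exp (-(2 * 1)) ≤ 0.13534 := by
  rw [mul_one]
  exact exp_neg_le 2 0.13534 16 (by norm_num) (by norm_num [sum_range_succ, Nat.factorial])
lemma e3_1 : Real.exp (-(3 * 1)) ≤ 0.04979 := by
  rw [mul_one]
  exact exp_neg_le 3 0.04979 20 (by norm_num) (by norm_num [sum_range_succ, Nat.factorial])
lemma e1_15 : Real.exp (-1.5) ≤ 0.22314 :=
  exp_neg_le 1.5 0.22314 14 (by norm_num) (by norm_num [sum_range_succ, Nat.factorial])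
lemma e2_15 : Real.exp (-(2 * 1.5)) ≤ 0.04979 := by
  rw [show (2:ℝ) * 1.5 = 3 by norm_num]
  exact exp_neg_le 3 0.04979 20 (by norm_num) (by norm_num [sum_range_succ, Nat.factorial])
lemma e3_15 : Real.exp (-(3 * 1.5)) ≤ 0.01111 := by
  rw [show (3:ℝ) * 1.5 = 4.5 by norm_num]
  exact exp_neg_le 4.5 0.01111 22 (by norm_num) (by norm_num [sum_range_succ, Nat.factorial])
lemma e1_2 : Real.exp (-2) ≤ 0.13534 :=
  exp_neg_le 2 0.13534 16 (by norm_num) (by norm_num [sum_range_succ, Nat.factorial])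
lemma e2_2 : Real.exp (-(2 * 2)) ≤ 0.01832 := by
  rw [show (2:ℝ) * 2 = 4 by norm_num]
  exact exp_neg_le 4 0.01832 24 (by norm_num) (by norm_num [sum_range_succ, Nat.factorial])
lemma e3_2 : Real.exp (-(3 * 2)) ≤ 0.00248 := by
  rw [show (3:ℝ) * 2 = 6 by norm_num]
  exact exp_neg_le 6 0.00248 28 (by norm_num) (by norm_num [sum_range_succ, Nat.factorial])

lemma main_le {n k a : ℕ} {t : ℝ} (hpar : Par n k a) (hdom : DOM k t) (hq : Qhi k t) :
    sigma n k a t * ∫ θ in (1.5 * t)..(Real.pi - 5 / k), rho n k a t θ ≤ 0.151 := by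
  have hct := ct_le hdom
  have hpar' := hpar
  obtain ⟨hnk, hao, ha, -⟩ := hpar'
  obtain ⟨hk, ht, ht1, -, hlog⟩ := hdom
  have hc : 1 ≤ (k:ℝ) * t := hq
  have hw : (2000 / 31 : ℝ) ≤ t⁻¹ := by
    rw [le_inv_comm₀ (by norm_num) ht]
    norm_num
    linarith
  have hσ3 : sigma n k a t ≤ 0.376 / t ^ 2 :=
    sigma_le' hnk hao ha hk ht ht1 (by norm_num) (by nlinarith)
  by_cases hP : 5 ≤ a ∨ (a = 3 ∧ k ≤ 2 * n)
  · rcases le_or_gt 2 ((k:ℝ) * t) with h2 | h2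
    · exact pieceP2 (mkP hnk hao hP ht ht1 (by norm_num) h2 e1_2 e2_2 e3_2) hσ3 hw
    · have hσ : sigma n k a t ≤ 0.1762 / t ^ 2 :=
        sigma_le' hnk hao ha hk ht ht1 (by norm_num) (by nlinarith)
      exact pieceP1 (mkP hnk hao hP ht ht1 le_rfl hc e1_1 e2_1 e3_1) hσ hw
  · push Not at hP
    have ha3 : a = 3 := by
      obtain ⟨j, hj⟩ := hao
      omega
    have hkn := hP.2 ha3
    have h200 : 200 ≤ k := by
      by_contra hcon
      push Not at hcon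
      rcases Nat.lt_or_ge k 100 with h | h
      · have := hpar.lt100 h
        rw [ha3] at this
        omega
      · have := hpar.lt200 hcon ha3
        omega
    have h200' : (200:ℝ) ≤ k := by exact_mod_cast h200
    rcases le_or_gt 2 ((k:ℝ) * t) with h2 | h2
    · exact pieceQ3 (mkQ hnk ha3 ht ht1 (by norm_num) h2 e1_2 e2_2 e3_2) hσ3 hw
    · have ht2 : t ≤ 0.01 := by nlinarith
      rcases le_or_gt 1.5 ((k:ℝ) * t) with h15 | h15
      · have hσ : sigma n k a t ≤ 0.1416 / t ^ 2 :=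
          sigma_le' hnk hao ha hk ht ht1 (by norm_num) (by nlinarith)
        exact pieceQ2 (mkQ hnk ha3 ht ht1 (by norm_num) h15 e1_15 e2_15 e3_15) hσ (by
          rw [le_inv_comm₀ (by norm_num) ht]
          norm_num
          linarith)
      · have ht3 : t ≤ 0.0075 := by nlinarith
        have hσ : sigma n k a t ≤ 0.1062 / t ^ 2 :=
          sigma_le' hnk hao ha hk ht ht1 (by norm_num) (by nlinarith)
        exact pieceQ1 (mkQ hnk ha3 ht ht1 le_rfl hc e1_1 e2_1 e3_1) hσ (by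
          rw [le_inv_comm₀ (by norm_num) ht]
          norm_num
          linarith)

end MPcf17a0.S1F

namespace Pool.Agent.SignedQ.An

/-- **OUT** for `1 ≤ k t`. -/
theorem OUT_Qhi : OUT Qhi := by
  intro n k a t hpar hdom hq
  have hpi := PIarc_out hpar hdom hq
  have hmain := MPcf17a0.S1F.main_le hpar hdom hq
  obtain ⟨hk, ht, ht1, -, hlog⟩ := hdom
  have hk0 : (0:ℝ) < k := by
    have : (26:ℝ) ≤ k := by exact_mod_cast hk
    linarith
  have hc : 1 ≤ (k:ℝ) * t := hq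
  have hth : th1 k t = 1.5 * t := by
    unfold th1
    rw [max_eq_right]
    · norm_num
    · rw [div_le_iff₀ hk0]
      nlinarith
  have hcont : Continuous fun θ => rho n k a t θ := PIarc.rho_continuous ht
  have hs := intervalIntegral.integral_add_adjacent_intervals
    (hcont.intervalIntegrable (μ := MeasureTheory.volume) (1.5 * t) (Real.pi - 5 / k))
    (hcont.intervalIntegrable (Real.pi - 5 / k) Real.pi)
  rw [hth, ← hs, mul_add]
  linarith
where
  PIarc_out {n k a : ℕ} {t : ℝ} (hpar : Par n k a) (hdom : DOM k t) (hq : Qhi k t) :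
      sigma n k a t * ∫ θ in (Real.pi - 5 / k)..Real.pi, rho n k a t θ ≤ 0.01 :=
    PI_proof Qhi n k a t hpar hdom hq

end Pool.Agent.SignedQ.An
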