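import Pool.Agent.Lib.MP_cf17a0_co.S1.Sig

/-! # FAR, small `t`: the reduction to `T` and to the value at `q = 1` (helper97) -/

namespace Pool.Agent.SignedQ.An.Far2

open Finset Filter Topology

/-! ## The variance -/

/-- The variance for all `t > 0`, with the sharp constants at `t = 0`. -/
theorem sig2_le_sum {n k a : ℕ} (h : Even (n * k)) (ha : Odd a) {t : ℝ} (ht : 0 < t) :
    sig2 n k a t ≤ (((k + 1) / 2 : ℕ) : ℝ) / 4 +
      ∑ v ∈ range k, (if Even (n + v + 1) then ((a * (n + v + 1) : ℕ) : ℝ) ^ 2 / 12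
        else ((a * (n + v + 1) : ℕ) : ℝ) ^ 2 / 4) := by
  have ht2 : 0 < t ^ 2 := by positivity
  have hodd : ∀ v : ℕ, Odd v → t ^ 2 * var1 v t ≤ t ^ 2 * ((v : ℝ) ^ 2 / 4) := by
    intro v hv
    rw [var1_odd hv]
    refine (hS_le_sq _).trans (le_of_eq ?_)
    ring
  have hodd0 : ∀ v : ℕ, Odd v → 0 ≤ t ^ 2 * var1 v t := by
    intro v hv
    rw [var1_odd hv]
    exact hS_nonneg _
  have heven : ∀ v : ℕ, Even v → 1 ≤ v → t ^ 2 * var1 v t ≤ -1 + t ^ 2 * ((v : ℝ) ^ 2 / 12) := by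
    intro v hv hv1
    have hv' : (1 : ℝ) ≤ v := by exact_mod_cast hv1
    rw [var1_even hv hv1 ht]
    have := pS_ge (u := v * t / 2) (by positivity)
    have h3 : ((v : ℝ) * t / 2) ^ 2 / 3 = t ^ 2 * ((v : ℝ) ^ 2 / 12) := by ring
    rw [h3] at this
    linarith
  have heven0 : ∀ v : ℕ, Even v → 1 ≤ v → -1 ≤ t ^ 2 * var1 v t := by
    intro v hv hv1
    have hv' : (1 : ℝ) ≤ v := by exact_mod_cast hv1
    rw [var1_even hv hv1 ht]
    have := pS_le_one (u := v * t / 2) (by positivity)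
    linarith
  have hcount : ∀ m : ℕ, Even (m * k) → ∑ v ∈ range k, (if Even (m + v + 1) then (-1 : ℝ) else 0) =
      - ((k / 2 : ℕ) : ℝ) := by
    intro m hm
    rw [sum_even (fun _ => (-1 : ℝ)) hm]
    simp
  have hnum : ∑ v ∈ range k, t ^ 2 * var1 (a * (n + v + 1)) t ≤
      ∑ v ∈ range k, ((if Even (n + v + 1) then (-1 : ℝ) else 0) +
        t ^ 2 * (if Even (n + v + 1) then ((a * (n + v + 1) : ℕ) : ℝ) ^ 2 / 12
          else ((a * (n + v + 1) : ℕ) : ℝ) ^ 2 / 4)) := by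
    refine sum_le_sum fun v _ => ?_
    rcases Nat.even_or_odd (n + v + 1) with hv | hv
    · rw [if_pos hv, if_pos hv]
      exact heven _ (hv.mul_left a) (Nat.mul_pos ha.pos (by omega))
    · rw [if_neg (Nat.not_even_iff_odd.2 hv), if_neg (Nat.not_even_iff_odd.2 hv), zero_add]
      exact hodd _ (ha.mul hv)
  have hden : ∑ v ∈ range k, (if Even (0 + v + 1) then (-1 : ℝ) else 0) ≤
      ∑ v ∈ range k, t ^ 2 * var1 (v + 1) t := by
    refine sum_le_sum fun v _ => ?_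
    rw [zero_add]
    rcases Nat.even_or_odd (v + 1) with hv | hv
    · rw [if_pos hv]; exact heven0 _ hv (by omega)
    · rw [if_neg (Nat.not_even_iff_odd.2 hv)]; exact hodd0 _ hv
  have hms : ∑ v ∈ range k, t ^ 2 * (if Even (n + v + 1) then ((a * (n + v + 1) : ℕ) : ℝ) ^ 2 / 12
          else ((a * (n + v + 1) : ℕ) : ℝ) ^ 2 / 4) = t ^ 2 *
      ∑ v ∈ range k, (if Even (n + v + 1) then ((a * (n + v + 1) : ℕ) : ℝ) ^ 2 / 12
          else ((a * (n + v + 1) : ℕ) : ℝ) ^ 2 / 4) := by rw [mul_sum]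
  rw [sum_add_distrib, hcount n h, hms] at hnum
  rw [hcount 0 (by simp)] at hden
  have h4 : t ^ 2 * sig2 n k a t = ((k + 1) / 2 : ℕ) * (t ^ 2 * var1 1 t) +
      (∑ v ∈ range k, t ^ 2 * var1 (a * (n + v + 1)) t - ∑ v ∈ range k, t ^ 2 * var1 (v + 1) t) := by
    unfold sig2
    rw [mul_add, mul_sum, ← sum_sub_distrib]
    congr 1
    · ring
    · exact sum_congr rfl fun v _ => by ring
  have h5 : (((k + 1) / 2 : ℕ) : ℝ) * (t ^ 2 * var1 1 t) ≤
      (((k + 1) / 2 : ℕ) : ℝ) * (t ^ 2 * (((1 : ℕ) : ℝ) ^ 2 / 4)) :=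
    mul_le_mul_of_nonneg_left (hodd 1 odd_one) (Nat.cast_nonneg _)
  have h6 : t ^ 2 * sig2 n k a t ≤ t ^ 2 * ((((k + 1) / 2 : ℕ) : ℝ) / 4 +
      ∑ v ∈ range k, (if Even (n + v + 1) then ((a * (n + v + 1) : ℕ) : ℝ) ^ 2 / 12
        else ((a * (n + v + 1) : ℕ) : ℝ) ^ 2 / 4)) := by
    rw [h4]
    rw [Nat.cast_one, one_pow] at h5
    linarith
  exact le_of_mul_le_mul_left h6 ht2

/-- Sum of squares with weights `1/12` (even), `1/4` (odd). -/
theorem wsum_le {n k : ℕ} (h : Even (n * k)) :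
    ∑ v ∈ range k, (if Even (n + v + 1) then ((n + v + 1 : ℕ) : ℝ) ^ 2 / 12
        else ((n + v + 1 : ℕ) : ℝ) ^ 2 / 4) ≤
      ((k : ℝ) + 1) / 6 * (((n : ℝ) + (k + 1) / 2) ^ 2 + (k : ℝ) ^ 2 / 12) := by
  rcases Nat.even_or_odd n with hn | hn
  · have key : ∀ j : ℕ, ∑ v ∈ range (2 * j), (if Even (n + v + 1) then
        ((n + v + 1 : ℕ) : ℝ) ^ 2 / 12 else ((n + v + 1 : ℕ) : ℝ) ^ 2 / 4) =
        (j : ℝ) * n ^ 2 / 3 + n * (j : ℝ) ^ 2 / 2 + n * (j : ℝ) * (j + 1) / 6 +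
          (j : ℝ) * (4 * j ^ 2 - 1) / 12 + (j : ℝ) * (j + 1) * (2 * j + 1) / 18 := by
      intro j
      induction j with
      | zero => simp
      | succ j ih =>
        have h1 : ¬ Even (n + 2 * j + 1) := by rw [Nat.even_iff] at *; omega
        have h2 : Even (n + (2 * j + 1) + 1) := by rw [Nat.even_iff] at *; omega
        rw [show 2 * (j + 1) = 2 * j + 1 + 1 by ring, sum_range_succ, sum_range_succ, ih,
          if_neg h1, if_pos h2]
        push_cast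
        ring
    rcases Nat.even_or_odd k with hk | hk
    · obtain ⟨j, rfl⟩ := hk
      rw [← two_mul, key, ← sub_nonneg]
      push_cast
      have e : (2 * (j : ℝ) + 1) / 6 * (((n : ℝ) + (2 * j + 1) / 2) ^ 2 + (2 * (j : ℝ)) ^ 2 / 12) -
          ((j : ℝ) * n ^ 2 / 3 + n * (j : ℝ) ^ 2 / 2 + n * (j : ℝ) * (j + 1) / 6 +
          (j : ℝ) * (4 * j ^ 2 - 1) / 12 + (j : ℝ) * (j + 1) * (2 * j + 1) / 18) =
          (n : ℝ) ^ 2 / 6 + n * (3 * j + 1) / 6 + (14 * (j : ℝ) ^ 2 + 10 * j + 3 / 2) / 36 := by ring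
      rw [e]
      positivity
    · obtain ⟨j, rfl⟩ := hk
      have h1 : ¬ Even (n + 2 * j + 1) := by rw [Nat.even_iff] at *; omega
      rw [sum_range_succ, key, if_neg h1, ← sub_nonneg]
      push_cast
      have e : (2 * (j : ℝ) + 1 + 1) / 6 * (((n : ℝ) + (2 * j + 1 + 1) / 2) ^ 2 +
          (2 * (j : ℝ) + 1) ^ 2 / 12) -
          ((j : ℝ) * n ^ 2 / 3 + n * (j : ℝ) ^ 2 / 2 + n * (j : ℝ) * (j + 1) / 6 +
          (j : ℝ) * (4 * j ^ 2 - 1) / 12 + (j : ℝ) * (j + 1) * (2 * j + 1) / 18 +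
          ((n : ℝ) + 2 * j + 1) ^ 2 / 4) =
          (n : ℝ) ^ 2 / 12 + n * (j + 1) / 6 + (2 * (j : ℝ) ^ 2 + 6 * j + 4) / 36 := by ring
      rw [e]
      positivity
  · have hk : Even k := by
      rcases Nat.even_mul.1 h with h | h
      · exact absurd h (Nat.not_even_iff_odd.2 hn)
      · exact h
    have key : ∀ j : ℕ, ∑ v ∈ range (2 * j), (if Even (n + v + 1) then
        ((n + v + 1 : ℕ) : ℝ) ^ 2 / 12 else ((n + v + 1 : ℕ) : ℝ) ^ 2 / 4) =
        (j : ℝ) * n ^ 2 / 3 + n * (j : ℝ) ^ 2 / 6 + n * (j : ℝ) * (j + 1) / 2 +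
          (j : ℝ) * (4 * j ^ 2 - 1) / 36 + (j : ℝ) * (j + 1) * (2 * j + 1) / 6 := by
      intro j
      induction j with
      | zero => simp
      | succ j ih =>
        have h1 : Even (n + 2 * j + 1) := by
          rw [Nat.even_iff]; rw [Nat.odd_iff] at hn; omega
        have h2 : ¬ Even (n + (2 * j + 1) + 1) := by
          rw [Nat.even_iff]; rw [Nat.odd_iff] at hn; omega
        rw [show 2 * (j + 1) = 2 * j + 1 + 1 by ring, sum_range_succ, sum_range_succ, ih,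
          if_pos h1, if_neg h2]
        push_cast
        ring
    obtain ⟨j, rfl⟩ := hk
    rw [← two_mul, key, ← sub_nonneg]
    push_cast
    have e : (2 * (j : ℝ) + 1) / 6 * (((n : ℝ) + (2 * j + 1) / 2) ^ 2 + (2 * (j : ℝ)) ^ 2 / 12) -
        ((j : ℝ) * n ^ 2 / 3 + n * (j : ℝ) ^ 2 / 6 + n * (j : ℝ) * (j + 1) / 2 +
          (j : ℝ) * (4 * j ^ 2 - 1) / 36 + (j : ℝ) * (j + 1) * (2 * j + 1) / 6) =
        (n : ℝ) ^ 2 / 6 + n * (j + 1) / 6 + ((j : ℝ) ^ 2 / 18 + j / 9 + 1 / 24) := by ring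
    rw [e]
    positivity

/-- The bound for the variance at small `t`. -/
noncomputable def S2 (n k a : ℕ) : ℝ := ((k : ℝ) + 1) / 8 +
  (a : ℝ) ^ 2 * (((k : ℝ) + 1) / 6 * (((n : ℝ) + (k + 1) / 2) ^ 2 + (k : ℝ) ^ 2 / 12))

theorem S2_pos (n k a : ℕ) : 0 < S2 n k a := by
  unfold S2
  positivity

theorem sig2_le_S2 {n k a : ℕ} (h : Even (n * k)) (ha : Odd a) {t : ℝ} (ht : 0 < t) :
    sig2 n k a t ≤ S2 n k a := by
  refine (sig2_le_sum h ha ht).trans ?_
  unfold S2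
  refine add_le_add ?_ ?_
  · have h1 : 2 * ((k + 1) / 2) ≤ k + 1 := by omega
    have h2 : (2 : ℝ) * (((k + 1) / 2 : ℕ) : ℝ) ≤ k + 1 := by exact_mod_cast h1
    linarith
  · have e : ∑ v ∈ range k, (if Even (n + v + 1) then ((a * (n + v + 1) : ℕ) : ℝ) ^ 2 / 12
        else ((a * (n + v + 1) : ℕ) : ℝ) ^ 2 / 4) = (a : ℝ) ^ 2 *
        ∑ v ∈ range k, (if Even (n + v + 1) then ((n + v + 1 : ℕ) : ℝ) ^ 2 / 12
        else ((n + v + 1 : ℕ) : ℝ) ^ 2 / 4) := by
      rw [mul_sum]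
      refine sum_congr rfl fun v _ => ?_
      split_ifs
      · rw [Nat.cast_mul]; ring
      · rw [Nat.cast_mul]; ring
    rw [e]
    exact mul_le_mul_of_nonneg_left (wsum_le h) (sq_nonneg _)

/-! ## The value at `q = 1` -/

/-- The weight of a factor in the limit `t → 0`. -/
noncomputable def lw (v : ℕ) : ℝ := if Even v then (v : ℝ) ^ 2 else 1

theorem lw_pos {v : ℕ} (hv : 1 ≤ v) : 0 < lw v := by
  have hv' : (1 : ℝ) ≤ v := by exact_mod_cast hv
  unfold lw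
  split_ifs
  · positivity
  · exact one_pos

/-- `GG n k a 0 0`. -/
noncomputable def G00 (n k a : ℕ) : ℝ := ∏ v ∈ range k, (lw (a * (n + v + 1)) / lw (v + 1))

theorem G00_pos {n k a : ℕ} (ha : 1 ≤ a) : 0 < G00 n k a :=
  prod_pos fun v _ => div_pos (lw_pos (Nat.mul_pos ha (by omega))) (lw_pos (by omega))

/-- The normalisation. -/
noncomputable def eps (v : ℕ) (s : ℝ) : ℝ := if Even v then (s / 2) ^ 2 else 1

theorem sinh_tendsto (v : ℕ) : Tendsto (fun s : ℝ => Real.sinh (v * s / 2) / (s / 2)) (𝓝[>] 0)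
    (𝓝 (v : ℝ)) := by
  have h1 : HasDerivAt (fun s : ℝ => Real.sinh (v * s / 2)) (Real.cosh (v * 0 / 2) * (v * 1 / 2)) 0 :=
    (((hasDerivAt_id (0 : ℝ)).const_mul (v : ℝ)).div_const 2).sinh
  rw [hasDerivAt_iff_tendsto_slope_zero] at h1
  have h2 : Tendsto (fun s : ℝ => s⁻¹ • (Real.sinh (v * (0 + s) / 2) - Real.sinh (v * 0 / 2)) * 2)
      (𝓝[>] 0) (𝓝 (Real.cosh (v * 0 / 2) * (v * 1 / 2) * 2)) :=
    (h1.mono_left (nhdsWithin_mono 0 fun x hx => ne_of_gt hx)).mul_const 2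
  have e : Real.cosh ((v : ℝ) * 0 / 2) * (v * 1 / 2) * 2 = v := by simp
  rw [e] at h2
  refine h2.congr' ?_
  filter_upwards [self_mem_nhdsWithin] with s hs
  have hs' : (s : ℝ) ≠ 0 := ne_of_gt hs
  simp only [zero_add, mul_zero, zero_div, Real.sinh_zero, sub_zero, smul_eq_mul]
  field_simp

theorem fac_tendsto (v : ℕ) : Tendsto (fun s : ℝ => fac v s 0 / eps v s) (𝓝[>] 0) (𝓝 (lw v)) := by
  unfold eps lw
  rcases Nat.even_or_odd v with hv | hv
  · simp only [if_pos hv, fac_zero_even hv]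
    have := (sinh_tendsto v).pow 2
    refine this.congr fun s => ?_
    rw [div_pow]
  · simp only [if_neg (Nat.not_even_iff_odd.2 hv), fac_zero_odd hv, div_one]
    have h1 : Continuous fun s : ℝ => Real.cosh (v * s / 2) ^ 2 := by fun_prop
    have h2 := h1.tendsto 0
    simp only [mul_zero, zero_div, Real.cosh_zero, one_pow] at h2
    exact h2.mono_left nhdsWithin_le_nhds

theorem prod_eps {n k : ℕ} (h : Even (n * k)) (s : ℝ) :
    ∏ v ∈ range k, eps (n + v + 1) s = ((s / 2) ^ 2) ^ (k / 2) := by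
  unfold eps
  rw [prod_ite, prod_const, prod_const_one, mul_one]
  have := card_ev h
  unfold ev at this
  rw [this]

theorem eps_mul {a : ℕ} (ha : Odd a) (v : ℕ) (s : ℝ) : eps (a * v) s = eps v s := by
  unfold eps
  have : Even (a * v) ↔ Even v := by
    rw [Nat.even_mul]
    have := Nat.not_even_iff_odd.2 ha
    tauto
  simp only [this]

theorem GG_tendsto {n k a : ℕ} (h : Even (n * k)) (ha : Odd a) :
    Tendsto (fun s : ℝ => GG n k a s 0) (𝓝[>] 0) (𝓝 (G00 n k a)) := by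
  have h1 : Tendsto (fun s : ℝ => (fac 1 s 0 / eps 1 s) ^ ((k + 1) / 2) *
      ∏ v ∈ range k, ((fac (a * (n + v + 1)) s 0 / eps (a * (n + v + 1)) s) /
        (fac (v + 1) s 0 / eps (v + 1) s))) (𝓝[>] 0) (𝓝 (lw 1 ^ ((k + 1) / 2) * G00 n k a)) := by
    refine ((fac_tendsto 1).pow _).mul (tendsto_finsetProd _ fun v _ => ?_)
    exact (fac_tendsto _).div (fac_tendsto _) (lw_pos (by omega)).ne'
  have e1 : lw 1 ^ ((k + 1) / 2) * G00 n k a = G00 n k a := by
    unfold lw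
    rw [if_neg (by decide), one_pow, one_mul]
  rw [e1] at h1
  refine h1.congr' ?_
  filter_upwards [self_mem_nhdsWithin] with s hs
  have hs' : (0 : ℝ) < s := hs
  have heps : ∀ v : ℕ, 0 < eps v s := by
    intro v
    unfold eps
    split_ifs <;> positivity
  have e2 : eps 1 s = 1 := by
    unfold eps
    rw [if_neg (by decide)]
  unfold GG
  rw [e2, div_one]
  congr 1
  have e3 : ∀ v ∈ range k, (fac (a * (n + v + 1)) s 0 / eps (a * (n + v + 1)) s) /
      (fac (v + 1) s 0 / eps (v + 1) s) = (fac (a * (n + v + 1)) s 0 / fac (v + 1) s 0) *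
        (eps (v + 1) s / eps (n + v + 1) s) := by
    intro v _
    rw [eps_mul ha]
    have h2 := (heps (v + 1)).ne'
    have h3 := (heps (n + v + 1)).ne'
    have h4 := (fac_pos (v := v + 1) (by omega) hs' 0).ne'
    field_simp
  rw [prod_congr rfl e3, prod_mul_distrib, prod_div_distrib (s := range k)
    (f := fun v => eps (v + 1) s), prod_eps h]
  have e4 := prod_eps (n := 0) (k := k) (by simp) s
  simp only [zero_add] at e4
  rw [e4, div_self (by positivity), mul_one]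

/-- **The value at `q = 1` is below all others.** -/
theorem G00_le {n k a : ℕ} (h : Even (n * k)) (ha : Odd a) {t : ℝ} (ht : 0 < t) :
    G00 n k a ≤ GG n k a t 0 := by
  refine le_of_tendsto (GG_tendsto h ha) ?_
  have h1 : Set.Ioc (0 : ℝ) t ∈ 𝓝[>] (0 : ℝ) := Ioc_mem_nhdsGT ht
  filter_upwards [h1] with s hs
  exact GG_mono ha.pos hs.1 hs.2 0

/-! ## The reduction -/

theorem sq_bound {n k a : ℕ} (h : Even (n * k)) (ha : Odd a) {t T : ℝ} (ht : 0 < t) (htT : t ≤ T)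
    (θ : ℝ) : GG n k a t θ / GG n k a t 0 ≤ GG n k a T θ / G00 n k a :=
  div_le_div₀ (GG_nonneg _ _ _ _ _) (GG_mono ha.pos ht htT θ) (G00_pos ha.pos) (G00_le h ha ht)

/-- **The reduction**: for `t ≤ T`, `σ(t) ρ(t, θ) ≤ √(S₂ G(T, θ) / G(0, 0))`. -/
theorem sigma_rho_sq {n k a : ℕ} (h : Even (n * k)) (ha : Odd a) {t T : ℝ} (ht : 0 < t)
    (htT : t ≤ T) (θ : ℝ) :
    sigma n k a t * rho n k a t θ ≤ Real.sqrt (S2 n k a * (GG n k a T θ / G00 n k a)) := by
  unfold sigma rho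
  rw [← Real.sqrt_mul' _ (div_nonneg (GG_nonneg _ _ _ _ _) (GG_nonneg _ _ _ _ _))]
  refine Real.sqrt_le_sqrt ?_
  exact mul_le_mul (sig2_le_S2 h ha ht) (sq_bound h ha ht htT θ)
    (div_nonneg (GG_nonneg _ _ _ _ _) (GG_nonneg _ _ _ _ _)) (S2_pos n k a).le

/-- The logarithmic form. -/
theorem sigma_rho_log {n k a : ℕ} (h : Even (n * k)) (ha : Odd a) {t T : ℝ} (ht : 0 < t)
    (htT : t ≤ T) (θ : ℝ) :
    sigma n k a t * rho n k a t θ ≤ Real.exp (1 / 2 * Real.log (S2 n k a) +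
      1 / 2 * Real.log (GG n k a T θ) - 1 / 2 * Real.log (G00 n k a)) := by
  refine (sigma_rho_sq h ha ht htT θ).trans (le_of_eq ?_)
  have h1 := GG_pos (n := n) (k := k) ha.pos (ht.trans_le htT) θ
  have h2 := G00_pos (n := n) (k := k) ha.pos
  have h3 := S2_pos n k a
  have h4 : 0 < S2 n k a * (GG n k a T θ / G00 n k a) := by positivity
  rw [← Real.exp_log (Real.sqrt_pos.2 h4), Real.log_sqrt h4.le, Real.log_mul h3.ne' (by positivity),
    Real.log_div h1.ne' h2.ne']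
  congr 1
  ring

end Pool.Agent.SignedQ.An.Far2
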