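import Pool.Agent.Lib.MP_cf17a0_co.S1.Herm

/-! # Majorants of `log |1 - y³| - log |1 - y|` and bounds of the coefficients -/

namespace Pool.Agent.SignedQ.FarC

open Real Finset intervalIntegral Pool.Agent.SignedQ.Herm

theorem hasDerivAt_diff {M : ℕ} {s : ℝ} (h0 : 0 ≤ s) (h1 : s < 1) (φ : ℝ) :
    HasDerivAt (fun s => TE M s φ - 1 / 2 * log (D s φ))
      ((1 + cos (((M : ℝ) + 1) * φ)) * (s ^ M * (1 - s ^ 2)) /
        ((1 + s ^ (M + 1)) ^ 2 * D s φ)) s := by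
  refine ((hasDerivAt_TE (M := M) h0 φ).fun_sub
    (hasDerivAt_half_log_D h0 h1 φ)).congr_deriv ?_
  have hD := D_pos h0 h1 φ
  have hp : 0 < 1 + s ^ (M + 1) := by have := pow_nonneg h0 (M + 1); positivity
  have hk := key_E M s φ
  rw [div_sub_div _ _ (by positivity) hD.ne', div_eq_div_iff (by positivity) (by positivity)]
  linear_combination ((1 + s ^ (M + 1)) ^ 2 * D s φ) * hk

theorem cs (s φ : ℝ) : (1 - s ^ 2) * D (s ^ 3) (3 * φ) ≤ 3 * (1 - s ^ 6) * D s φ ∨ 1 < s ^ 2 := by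
  by_cases h : 1 < s ^ 2
  · exact Or.inr h
  · left
    have hD : 0 ≤ D s φ := by
      rcases le_or_gt 0 s with hs | hs
      · exact D_nonneg hs φ
      · have e : D s φ = (1 + s) ^ 2 + 2 * (-s) * (1 + cos φ) := by unfold D; ring
        rw [e]
        have := neg_one_le_cos φ
        nlinarith [sq_nonneg (1 + s), mul_nonneg (neg_nonneg.2 hs.le) (by linarith : (0:ℝ) ≤ 1 + cos φ)]
    have hc : cos (3 * φ) = 4 * cos φ ^ 3 - 3 * cos φ := cos_three_mul φ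
    have e1 : D (s ^ 3) (3 * φ) = D s φ * (1 + 2 * s * cos φ + s ^ 2 * (4 * cos φ ^ 2 - 1) +
        2 * s ^ 3 * cos φ + s ^ 4) := by
      unfold D; rw [hc]; ring
    have e2 : 3 * (1 - s ^ 6) * D s φ - (1 - s ^ 2) * D (s ^ 3) (3 * φ) =
        (1 - s ^ 2) * D s φ * ((1 + s ^ 2) * D s φ + ((1 + s ^ 2) ^ 2 - 4 * s ^ 2 * cos φ ^ 2)) := by
      rw [e1]; unfold D; ring
    have h3 : 0 ≤ (1 + s ^ 2) ^ 2 - 4 * s ^ 2 * cos φ ^ 2 := by
      have : cos φ ^ 2 ≤ 1 := cos_sq_le_one φ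
      nlinarith [mul_nonneg (sq_nonneg s) (sub_nonneg.2 this), sq_nonneg (1 - s ^ 2)]
    have h4 : 0 ≤ 1 - s ^ 2 := by linarith
    have : 0 ≤ (1 - s ^ 2) * D s φ * ((1 + s ^ 2) * D s φ +
        ((1 + s ^ 2) ^ 2 - 4 * s ^ 2 * cos φ ^ 2)) := by positivity
    linarith

/-- **Majorant of `log |1 - y³| - log |1 - y|`**, `y = ρ e^(iφ)`, of degree `3 (M + 1) - 1`. -/
theorem J_majorant (M : ℕ) {ρ : ℝ} (h0 : 0 ≤ ρ) (h1 : ρ < 1) (φ : ℝ) :
    1 / 2 * log (D (ρ ^ 3) (3 * φ)) - 1 / 2 * log (D ρ φ) ≤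
      TE M (ρ ^ 3) (3 * φ) - TE (3 * M + 2) ρ φ := by
  have hd : ∀ s ∈ Set.Icc 0 ρ, HasDerivAt (fun s => (TE M (s ^ 3) (3 * φ) -
      1 / 2 * log (D (s ^ 3) (3 * φ))) - (TE (3 * M + 2) s φ - 1 / 2 * log (D s φ)))
      ((1 + cos (((M : ℝ) + 1) * (3 * φ))) * ((s ^ 3) ^ M * (1 - (s ^ 3) ^ 2)) /
        ((1 + (s ^ 3) ^ (M + 1)) ^ 2 * D (s ^ 3) (3 * φ)) * (3 * s ^ 2) -
       (1 + cos ((((3 * M + 2 : ℕ) : ℝ) + 1) * φ)) * (s ^ (3 * M + 2) * (1 - s ^ 2)) /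
        ((1 + s ^ (3 * M + 2 + 1)) ^ 2 * D s φ)) s := by
    intro s hs
    have hs1 : s < 1 := hs.2.trans_lt h1
    have h3 : s ^ 3 < 1 := pow_lt_one₀ hs.1 hs1 (by norm_num)
    have e1 := hasDerivAt_diff (M := M) (pow_nonneg hs.1 3) h3 (3 * φ)
    have e2 := hasDerivAt_diff (M := 3 * M + 2) hs.1 hs1 φ
    have e3 : HasDerivAt (fun s : ℝ => s ^ 3) (3 * s ^ 2) s := by
      simpa using hasDerivAt_pow 3 s
    have e4 := HasDerivAt.comp (h := fun s : ℝ => s ^ 3) s e1 e3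
    exact e4.fun_sub e2
  have hm : MonotoneOn (fun s => (TE M (s ^ 3) (3 * φ) -
      1 / 2 * log (D (s ^ 3) (3 * φ))) - (TE (3 * M + 2) s φ - 1 / 2 * log (D s φ)))
      (Set.Icc 0 ρ) := by
    refine monotoneOn_of_deriv_nonneg (convex_Icc 0 ρ)
      (fun s hs => (hd s hs).continuousAt.continuousWithinAt)
      (fun s hs => (hd s (interior_subset hs)).differentiableAt.differentiableWithinAt) ?_
    intro s hs
    have hs' := interior_subset hs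
    rw [(hd s hs').deriv]
    have hs1 : s < 1 := hs'.2.trans_lt h1
    have h3 : s ^ 3 < 1 := pow_lt_one₀ hs'.1 hs1 (by norm_num)
    have hD := D_pos hs'.1 hs1 φ
    have hD3 := D_pos (pow_nonneg hs'.1 3) h3 (3 * φ)
    have hs0 := hs'.1
    have h2 : s ^ 2 ≤ 1 := by nlinarith
    have hcs : (1 - s ^ 2) * D (s ^ 3) (3 * φ) ≤ 3 * (1 - s ^ 6) * D s φ :=
      (cs s φ).resolve_right (by linarith)
    have ec : ((M : ℝ) + 1) * (3 * φ) = (((3 * M + 2 : ℕ) : ℝ) + 1) * φ := by push_cast; ring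
    rw [ec]
    set c := 1 + cos ((((3 * M + 2 : ℕ) : ℝ) + 1) * φ) with hc
    have hc0 : 0 ≤ c := by
      have := neg_one_le_cos ((((3 * M + 2 : ℕ) : ℝ) + 1) * φ); linarith
    have ep : (s ^ 3) ^ (M + 1) = s ^ (3 * M + 2 + 1) := by rw [← pow_mul]; congr 1
    rw [ep]
    set q := s ^ (3 * M + 2 + 1) with hq
    have hq0 : 0 ≤ q := pow_nonneg hs0 _
    have e5 : (s ^ 3) ^ M * (3 * s ^ 2) = 3 * s ^ (3 * M + 2) := by
      rw [← pow_mul, pow_add]; ring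
    have e6 : c * ((s ^ 3) ^ M * (1 - (s ^ 3) ^ 2)) / ((1 + q) ^ 2 * D (s ^ 3) (3 * φ)) *
        (3 * s ^ 2) - c * (s ^ (3 * M + 2) * (1 - s ^ 2)) / ((1 + q) ^ 2 * D s φ) =
        c * s ^ (3 * M + 2) / (1 + q) ^ 2 * ((3 * (1 - s ^ 6) * D s φ -
          (1 - s ^ 2) * D (s ^ 3) (3 * φ)) / (D (s ^ 3) (3 * φ) * D s φ)) := by
      have e7 : c * ((s ^ 3) ^ M * (1 - (s ^ 3) ^ 2)) / ((1 + q) ^ 2 * D (s ^ 3) (3 * φ)) *
        (3 * s ^ 2) = c * (3 * s ^ (3 * M + 2)) * (1 - s ^ 6) / ((1 + q) ^ 2 * D (s ^ 3) (3 * φ)) := by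
        rw [← e5]; ring
      rw [e7]
      field_simp
    rw [e6]
    have h5 := sub_nonneg.2 hcs
    positivity
  have h := hm (Set.left_mem_Icc.2 h0) (Set.right_mem_Icc.2 h0) h0
  have hz : (TE M (0 ^ 3) (3 * φ) - 1 / 2 * log (D (0 ^ 3) (3 * φ))) -
      (TE (3 * M + 2) 0 φ - 1 / 2 * log (D 0 φ)) = 0 := by
    unfold TE D
    simp [cE_zero]
  simp only [hz] at h
  linarith

/-! ### Coefficients -/

theorem inv_sq_le {u : ℝ} (h0 : 0 ≤ u) : 1 / (1 + u) ^ 2 ≤ 1 - 2 * u + 3 * u ^ 2 := by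
  rw [div_le_iff₀ (by positivity)]
  nlinarith [mul_nonneg h0 (sq_nonneg u), pow_nonneg h0 4]

/-- `∫ (s^i - s^(2M-i)) (1 - 2 s^(M+1) + 3 s^(2M+2))` bounds the coefficients. -/
theorem cE_le_integral {M i : ℕ} {ρ : ℝ} (h0 : 0 ≤ ρ) (h1 : ρ ≤ 1) {p : ℝ → ℝ}
    (hp : Continuous p) (h : ∀ s, 0 ≤ s → s ≤ 1 → kerE M i s ≤ p s) :
    cE M i ρ ≤ ∫ s in (0:ℝ)..ρ, p s := by
  unfold cE
  refine integral_mono_on h0 (intervalIntegrable_kerE le_rfl h0) (hp.intervalIntegrable _ _) ?_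
  intro s hs
  exact h s hs.1 (hs.2.trans h1)

theorem kerE_le (M i : ℕ) (hi : i ≤ M) {s : ℝ} (h0 : 0 ≤ s) (h1 : s ≤ 1) :
    kerE M i s ≤ (s ^ i - s ^ (2 * M - i)) * (1 - 2 * s ^ (M + 1) + 3 * (s ^ (M + 1)) ^ 2) := by
  unfold kerE
  have h2 : s ^ (2 * M - i) ≤ s ^ i := pow_le_pow_of_le_one h0 h1 (by omega)
  rw [div_eq_mul_one_div]
  exact mul_le_mul_of_nonneg_left (inv_sq_le (pow_nonneg h0 _)) (sub_nonneg.2 h2)

theorem kerE_le' (M i : ℕ) (hi : i ≤ M) {s : ℝ} (h0 : 0 ≤ s) (h1 : s ≤ 1) :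
    kerE M i s ≤ s ^ i - s ^ (2 * M - i) := by
  unfold kerE
  have h2 : s ^ (2 * M - i) ≤ s ^ i := pow_le_pow_of_le_one h0 h1 (by omega)
  have h3 : 1 ≤ (1 + s ^ (M + 1)) ^ 2 := by
    have := pow_nonneg h0 (M + 1); nlinarith
  exact div_le_self (sub_nonneg.2 h2) h3

theorem cE50 {ρ : ℝ} (h0 : 0 ≤ ρ) (h1 : ρ ≤ 1) : cE 5 0 ρ ≤ 0.8415 := by
  refine (cE_mono (by norm_num) h0 h1 le_rfl).trans ?_
  refine (cE_le_integral (M := 5) (i := 0) zero_le_one le_rfl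
    (p := fun s => (s ^ 0 - s ^ (2 * 5 - 0)) * (1 - 2 * s ^ (5 + 1) + 3 * (s ^ (5 + 1)) ^ 2))
    (by fun_prop) (fun s a b => kerE_le 5 0 (by norm_num) a b)).trans ?_
  have e : (fun s : ℝ => (s ^ 0 - s ^ (2 * 5 - 0)) * (1 - 2 * s ^ (5 + 1) +
      3 * (s ^ (5 + 1)) ^ 2)) = fun s => ((((1 - 2 * s ^ 6) + 3 * s ^ 12) - s ^ 10) + 2 * s ^ 16) - 3 * s ^ 22 := by
    funext s; norm_num; ring
  rw [e]
  rw [integral_sub, integral_add, integral_sub, integral_add, integral_sub]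
  all_goals try exact Continuous.intervalIntegrable (by fun_prop) _ _
  simp only [integral_const_mul, integral_pow, integral_const]
  norm_num

theorem cE20 {ρ : ℝ} (h0 : 0 ≤ ρ) (h1 : ρ ≤ 1) : cE 2 0 ρ ≤ 0.71 := by
  refine (cE_mono (by norm_num) h0 h1 le_rfl).trans ?_
  refine (cE_le_integral (M := 2) (i := 0) zero_le_one le_rfl
    (p := fun s => (s ^ 0 - s ^ (2 * 2 - 0)) * (1 - 2 * s ^ (2 + 1) + 3 * (s ^ (2 + 1)) ^ 2))
    (by fun_prop) (fun s a b => kerE_le 2 0 (by norm_num) a b)).trans ?_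
  have e : (fun s : ℝ => (s ^ 0 - s ^ (2 * 2 - 0)) * (1 - 2 * s ^ (2 + 1) +
      3 * (s ^ (2 + 1)) ^ 2)) = fun s => ((((1 - 2 * s ^ 3) + 3 * s ^ 6) - s ^ 4) + 2 * s ^ 7) - 3 * s ^ 10 := by
    funext s; norm_num; ring
  rw [e]
  rw [integral_sub, integral_add, integral_sub, integral_add, integral_sub]
  all_goals try exact Continuous.intervalIntegrable (by fun_prop) _ _
  simp only [integral_const_mul, integral_pow, integral_const]
  norm_num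

theorem cE21 {ρ : ℝ} (h0 : 0 ≤ ρ) (h1 : ρ ≤ 1) : cE 2 1 ρ ≤ 0.211 := by
  refine (cE_mono (by norm_num) h0 h1 le_rfl).trans ?_
  refine (cE_le_integral (M := 2) (i := 1) zero_le_one le_rfl
    (p := fun s => (s ^ 1 - s ^ (2 * 2 - 1)) * (1 - 2 * s ^ (2 + 1) + 3 * (s ^ (2 + 1)) ^ 2))
    (by fun_prop) (fun s a b => kerE_le 2 1 (by norm_num) a b)).trans ?_
  have e : (fun s : ℝ => (s ^ 1 - s ^ (2 * 2 - 1)) * (1 - 2 * s ^ (2 + 1) +
      3 * (s ^ (2 + 1)) ^ 2)) = fun s => ((((s - 2 * s ^ 4) + 3 * s ^ 7) - s ^ 3) + 2 * s ^ 6) - 3 * s ^ 9 := by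
    funext s; norm_num; ring
  rw [e]
  rw [integral_sub, integral_add, integral_sub, integral_add, integral_sub]
  all_goals try exact Continuous.intervalIntegrable (by fun_prop) _ _
  simp only [integral_const_mul, integral_pow, integral_id]
  norm_num

theorem cE51 {ρ : ℝ} (h0 : 0 ≤ ρ) (h1 : ρ ≤ 1) : cE 5 1 ρ ≤ ρ ^ 2 / 2 := by
  refine (cE_le_integral (M := 5) (i := 1) h0 h1 (p := fun s => s) (by fun_prop) ?_).trans ?_
  · intro s a b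
    refine (kerE_le' 5 1 (by norm_num) a b).trans ?_
    have := pow_nonneg a (2 * 5 - 1)
    linarith
  · rw [integral_id]; linarith

theorem cE53 {ρ : ℝ} (h0 : 0 ≤ ρ) (h1 : ρ ≤ 1) : cE 5 3 ρ ≤ ρ ^ 4 / 4 := by
  refine (cE_le_integral (M := 5) (i := 3) h0 h1 (p := fun s => s ^ 3) (by fun_prop) ?_).trans ?_
  · intro s a b
    refine (kerE_le' 5 3 (by norm_num) a b).trans ?_
    have := pow_nonneg a (2 * 5 - 3)
    linarith
  · rw [integral_pow]; norm_num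

theorem cE54 {ρ : ℝ} (h0 : 0 ≤ ρ) (h1 : ρ ≤ 1) : cE 5 4 ρ ≤ ρ ^ 5 / 5 - ρ ^ 7 / 7 := by
  refine (cE_le_integral (M := 5) (i := 4) h0 h1 (p := fun s => s ^ 4 - s ^ 6)
    (by fun_prop) ?_).trans ?_
  · intro s a b
    exact kerE_le' 5 4 (by norm_num) a b
  · rw [integral_sub]
    all_goals try exact Continuous.intervalIntegrable (by fun_prop) _ _
    rw [integral_pow, integral_pow]; norm_num

theorem cE10 {R : ℝ} (h0 : 0 ≤ R) : cE 1 0 R = R / (1 + R ^ 2) := by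
  unfold cE
  have h : ∀ s ∈ Set.uIcc 0 R, HasDerivAt (fun s : ℝ => s / (1 + s ^ 2)) (kerE 1 0 s) s := by
    intro s _
    have hp : (0:ℝ) < 1 + s ^ 2 := by positivity
    have e2 : HasDerivAt (fun s : ℝ => 1 + s ^ 2) (2 * s) s := by
      simpa using (hasDerivAt_pow 2 s).const_add 1
    refine ((hasDerivAt_id s).fun_div e2 hp.ne').congr_deriv ?_
    unfold kerE
    simp only [id]
    norm_num
    field_simp
    ring
  rw [integral_eq_sub_of_hasDerivAt h (intervalIntegrable_kerE le_rfl h0)]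
  simp

theorem cE52 {ρ : ℝ} (h0 : 0 ≤ ρ) : cE 5 2 ρ = 1 / 3 * (ρ ^ 3 / (1 + ρ ^ 6)) := by
  unfold cE
  have h : ∀ s ∈ Set.uIcc 0 ρ, HasDerivAt (fun s : ℝ => 1 / 3 * (s ^ 3 / (1 + s ^ 6)))
      (kerE 5 2 s) s := by
    intro s _
    have hp : (0:ℝ) < 1 + s ^ 6 := by positivity
    have e2 : HasDerivAt (fun s : ℝ => 1 + s ^ 6) (6 * s ^ 5) s := by
      simpa using (hasDerivAt_pow 6 s).const_add 1
    have e1 : HasDerivAt (fun s : ℝ => s ^ 3) (3 * s ^ 2) s := by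
      simpa using hasDerivAt_pow 3 s
    refine ((e1.fun_div e2 hp.ne').const_mul (1 / 3)).congr_deriv ?_
    unfold kerE
    norm_num
    field_simp
    ring
  rw [integral_eq_sub_of_hasDerivAt h (intervalIntegrable_kerE le_rfl h0)]
  simp

end Pool.Agent.SignedQ.FarC
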