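import Pool.Agent.Lib.MP_cf17a0_co.S1.Dom
import Pool.Agent.Lib.MP_cf17a0_co.S1.Herm
import Pool.Agent.Lib.MP_cf17a0_co.KohC
import Pool.Agent.Lib.MP_cf17a0_co.Final

/-! # FAR, part (C): the factors in terms of `D`, the product identity and the case `a = 1` -/

namespace Pool.Agent.SignedQ.FarC

open Real Finset Polynomial Pool.Agent.SignedQ.Herm Pool.Agent.SignedQ.An

theorem cos_mul_add_pi_even {v : ℕ} (h : Even v) (θ : ℝ) : cos (v * (θ + π)) = cos (v * θ) := by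
  obtain ⟨m, rfl⟩ := h
  have e : (((m + m : ℕ) : ℝ)) * (θ + π) = ((m + m : ℕ) : ℝ) * θ + m * (2 * π) := by
    push_cast; ring
  rw [e, cos_add_nat_mul_two_pi]

theorem cos_mul_add_pi_odd {v : ℕ} (h : Odd v) (θ : ℝ) : cos (v * (θ + π)) = -cos (v * θ) := by
  obtain ⟨m, rfl⟩ := h
  have e : (((2 * m + 1 : ℕ) : ℝ)) * (θ + π) = ((2 * m + 1 : ℕ) : ℝ) * θ + π + m * (2 * π) := by
    push_cast; ring
  rw [e, cos_add_nat_mul_two_pi, cos_add_pi]

theorem sinh_half_sq (x : ℝ) : sinh (x / 2) ^ 2 = (cosh x - 1) / 2 := by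
  have h := cosh_two_mul (x / 2)
  rw [show 2 * (x / 2) = x by ring] at h
  have h2 := cosh_sq (x / 2)
  linarith

theorem sin_half_sq (x : ℝ) : sin (x / 2) ^ 2 = (1 - cos x) / 2 := by
  have h := cos_two_mul (x / 2)
  rw [show 2 * (x / 2) = x by ring] at h
  have h2 := sin_sq_add_cos_sq (x / 2)
  linarith

/-- The factors in terms of `D`. -/
theorem fac_D (v : ℕ) (t θ : ℝ) : fac v t θ =
    exp (v * t) * D (exp (-(v * t))) (v * (θ + π)) / 4 := by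
  have h1 : exp (v * t) * exp (-(v * t)) = 1 := by rw [← exp_add]; simp
  have e : exp (v * t) * D (exp (-(v * t))) (v * (θ + π)) / 4 =
      (cosh (v * t) - cos (v * (θ + π))) / 2 := by
    unfold D
    rw [cosh_eq]
    linear_combination (-(1 / 2) * cos (v * (θ + π)) + exp (-(v * t)) / 4) * h1
  rw [e]
  rcases Nat.even_or_odd v with h | h
  · rw [fac_even h, cos_mul_add_pi_even h, sinh_half_sq, sin_half_sq]; ring
  · rw [fac_odd' h, cos_mul_add_pi_odd h, sinh_half_sq, cos_sq', sin_half_sq]; ring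

/-- The half logarithm of `fac (3 j) / fac j` is that of `D (ρ³) (3 φ) / D ρ φ`, up to `j t`. -/
theorem log_ratio {j : ℕ} (hj : 1 ≤ j) {t : ℝ} (ht : 0 < t) (θ : ℝ) :
    1 / 2 * log (fac (3 * j) t θ / fac j t θ) = j * t +
      (1 / 2 * log (D (exp (-(j * t)) ^ 3) (3 * (j * (θ + π)))) -
        1 / 2 * log (D (exp (-(j * t))) (j * (θ + π)))) := by
  have hj' : (1 : ℝ) ≤ j := by exact_mod_cast hj
  have hx : exp (-(j * t)) < 1 := by rw [exp_lt_one_iff]; nlinarith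
  have hD1 := D_pos (exp_pos (-(j * t))).le hx (j * (θ + π))
  have hx3 : exp (-(j * t)) ^ 3 < 1 := pow_lt_one₀ (exp_pos _).le hx (by norm_num)
  have hD3 := D_pos (pow_nonneg (exp_pos (-(j * t))).le 3) hx3 (3 * (j * (θ + π)))
  rw [fac_D, fac_D]
  have e3 : exp (-(((3 * j : ℕ) : ℝ) * t)) = exp (-(j * t)) ^ 3 := by
    rw [← exp_nat_mul]; congr 1; push_cast; ring
  rw [e3, show (((3 * j : ℕ) : ℝ)) * (θ + π) = 3 * (j * (θ + π)) by push_cast; ring]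
  have p1 := exp_pos (((3 * j : ℕ) : ℝ) * t)
  have p2 := exp_pos ((j : ℝ) * t)
  rw [log_div (by positivity) (by positivity), log_div (by positivity) (by norm_num),
    log_div (by positivity) (by norm_num), log_mul p1.ne' hD3.ne', log_mul p2.ne' hD1.ne',
    log_exp, log_exp]
  push_cast
  ring

/-- At `θ = 0`. -/
theorem D_zero_even {j : ℕ} (h : Even j) (ρ : ℝ) :
    D (ρ ^ 3) (3 * (j * (0 + π))) = (1 - ρ ^ 3) ^ 2 ∧ D ρ (j * (0 + π)) = (1 - ρ) ^ 2 := by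
  have h1 := cos_mul_add_pi_even h 0
  have h3 : cos (3 * (j * (0 + π))) = 1 := by
    rw [cos_three_mul, h1]; simp; norm_num
  unfold D
  rw [h3, h1]
  simp only [mul_zero, cos_zero]
  constructor <;> ring

theorem D_zero_odd {j : ℕ} (h : Odd j) (ρ : ℝ) :
    D (ρ ^ 3) (3 * (j * (0 + π))) = (1 + ρ ^ 3) ^ 2 ∧ D ρ (j * (0 + π)) = (1 + ρ) ^ 2 := by
  have h1 := cos_mul_add_pi_odd h 0
  have h3 : cos (3 * (j * (0 + π))) = -1 := by
    rw [cos_three_mul, h1]; simp; norm_num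
  unfold D
  rw [h3, h1]
  simp only [mul_zero, cos_zero]
  constructor <;> ring

/-- `log |1 ± ρ + ρ²|`, by parity. -/
noncomputable def hh (j : ℕ) (ρ : ℝ) : ℝ :=
  1 / 2 * log (1 + ρ ^ 2 + ρ ^ 4) + (-1) ^ j * (1 / 2 * log ((1 + ρ + ρ ^ 2) / (1 - ρ + ρ ^ 2)))

theorem hh_even {j : ℕ} (h : Even j) {ρ : ℝ} (h0 : 0 ≤ ρ) : hh j ρ = log (1 + ρ + ρ ^ 2) := by
  have p1 : 0 < 1 + ρ + ρ ^ 2 := by positivity
  have p2 : 0 < 1 - ρ + ρ ^ 2 := by nlinarith [sq_nonneg (ρ - 1)]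
  have e : 1 + ρ ^ 2 + ρ ^ 4 = (1 + ρ + ρ ^ 2) * (1 - ρ + ρ ^ 2) := by ring
  unfold hh
  rw [h.neg_one_pow, e, log_mul p1.ne' p2.ne', log_div p1.ne' p2.ne']
  ring

theorem hh_odd {j : ℕ} (h : Odd j) {ρ : ℝ} (h0 : 0 ≤ ρ) : hh j ρ = log (1 - ρ + ρ ^ 2) := by
  have p1 : 0 < 1 + ρ + ρ ^ 2 := by positivity
  have p2 : 0 < 1 - ρ + ρ ^ 2 := by nlinarith [sq_nonneg (ρ - 1)]
  have e : 1 + ρ ^ 2 + ρ ^ 4 = (1 + ρ + ρ ^ 2) * (1 - ρ + ρ ^ 2) := by ring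
  unfold hh
  rw [h.neg_one_pow, e, log_mul p1.ne' p2.ne', log_div p1.ne' p2.ne']
  ring

theorem log_zero {j : ℕ} {ρ : ℝ} (h0 : 0 ≤ ρ) (h1 : ρ < 1) :
    1 / 2 * log (D (ρ ^ 3) (3 * (j * (0 + π)))) - 1 / 2 * log (D ρ (j * (0 + π))) = hh j ρ := by
  have h3 : ρ ^ 3 < 1 := pow_lt_one₀ h0 h1 (by norm_num)
  have h30 : 0 ≤ ρ ^ 3 := pow_nonneg h0 3
  rcases Nat.even_or_odd j with h | h
  · rw [(D_zero_even h ρ).1, (D_zero_even h ρ).2, hh_even h h0, log_pow, log_pow]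
    have p1 : 0 < 1 - ρ := by linarith
    have p2 : 0 < 1 + ρ + ρ ^ 2 := by positivity
    have e : 1 - ρ ^ 3 = (1 - ρ) * (1 + ρ + ρ ^ 2) := by ring
    rw [e, log_mul p1.ne' p2.ne']
    push_cast
    ring
  · rw [(D_zero_odd h ρ).1, (D_zero_odd h ρ).2, hh_odd h h0, log_pow, log_pow]
    have p1 : 0 < 1 + ρ := by linarith
    have p2 : 0 < 1 - ρ + ρ ^ 2 := by nlinarith [sq_nonneg (ρ - 1)]
    have e : 1 + ρ ^ 3 = (1 + ρ) * (1 - ρ + ρ ^ 2) := by ring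
    rw [e, log_mul p1.ne' p2.ne']
    push_cast
    ring

/-! ### The product identity -/

theorem prod_swap (f : ℕ → ℝ) (hf : ∀ v, f v ≠ 0) (n k : ℕ) :
    ∏ v ∈ range k, (f (n + v) / f v) = ∏ v ∈ range n, (f (k + v) / f v) := by
  rw [prod_div_distrib, prod_div_distrib]
  have h1 := prod_range_add f n k
  have h2 := prod_range_add f k n
  rw [add_comm k n] at h2
  rw [div_eq_div_iff (prod_ne_zero_iff.2 fun v _ => hf v) (prod_ne_zero_iff.2 fun v _ => hf v)]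
  rw [h1] at h2
  linarith

/-- The part of the product with the factors `fac (3 j) / fac j`, `n < j ≤ n + k`. -/
noncomputable def PP (n k : ℕ) (t θ : ℝ) : ℝ :=
  ∏ v ∈ range k, (fac (3 * (n + v + 1)) t θ / fac (n + v + 1) t θ)

theorem GG_three {n k : ℕ} (hnk : n ≤ k) {t : ℝ} (ht : 0 < t) (θ : ℝ) :
    GG n k 3 t θ = fac 1 t θ ^ ((k + 1) / 2 - (n + 1) / 2) * GG k n 1 t θ * PP n k t θ := by
  have hf : ∀ v : ℕ, fac (v + 1) t θ ≠ 0 := fun v => (fac_pos (by omega) ht θ).ne'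
  have h1 := prod_swap (fun v => fac (v + 1) t θ) hf n k
  unfold GG PP
  have e1 : ∏ v ∈ range k, (fac (3 * (n + v + 1)) t θ / fac (v + 1) t θ) =
      (∏ v ∈ range k, (fac (3 * (n + v + 1)) t θ / fac (n + v + 1) t θ)) *
        ∏ v ∈ range k, (fac (n + v + 1) t θ / fac (v + 1) t θ) := by
    rw [← prod_mul_distrib]
    refine prod_congr rfl fun v _ => ?_
    have := hf v
    have := hf (n + v)
    field_simp
  rw [e1, h1]
  have e2 : ((k + 1) / 2 - (n + 1) / 2) + (n + 1) / 2 = (k + 1) / 2 := by omega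
  conv_lhs => rw [← e2, pow_add]
  simp only [one_mul]
  ring

/-! ### The case `a = 1` -/

theorem exists_f (n k : ℕ) {a : ℕ} (ha : 1 ≤ a) :
    ∃ f : ℚ[X], f * poch (-X : ℚ[X]) k = num n k a := by
  obtain ⟨f, hf'⟩ := den_dvd n k a ha
  exact ⟨f, by rw [hf', mul_comm]⟩

theorem norm_cev_le {f : ℚ[X]} (hf : ∀ i, 0 ≤ f.coeff i) (t θ : ℝ) :
    ‖cev f (pt t θ)‖ ≤ rev f (exp (-t)) := by
  rw [cev_eq_sum, rev_eq_sum]
  refine (norm_sum_le _ _).trans (sum_le_sum fun i _ => ?_)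
  rw [norm_mul, norm_pow, norm_pt]
  have : ‖((f.coeff i : ℚ) : ℂ)‖ = ((f.coeff i : ℚ) : ℝ) := by
    rw [Complex.norm_ratCast]
    exact abs_of_nonneg (by exact_mod_cast hf i)
  rw [this]

theorem GG_one_le {n k : ℕ} (h : Even (n * k)) {t : ℝ} (ht : 0 < t) (θ : ℝ) :
    GG n k 1 t θ ≤ GG n k 1 t 0 := by
  obtain ⟨f, hf⟩ := exists_f n k (a := 1) le_rfl
  have h1 := ratio_sq le_rfl hf ht θ
  have h2 := Koh.a_one n k h f hf
  have h3 := norm_cev_le h2 t θ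
  have h4 : 0 < rev f (exp (-t)) := rev_pos le_rfl hf (exp_pos _).le (by
    rw [exp_lt_one_iff]; linarith)
  have h5 : (‖cev f (pt t θ)‖ / rev f (exp (-t))) ^ 2 ≤ 1 := by
    have : ‖cev f (pt t θ)‖ / rev f (exp (-t)) ≤ 1 := (div_le_one h4).2 h3
    have h6 : 0 ≤ ‖cev f (pt t θ)‖ / rev f (exp (-t)) := by positivity
    nlinarith
  rw [h1] at h5
  exact (div_le_one (GG_pos le_rfl ht 0)).1 h5

/-- `ρ² ≤ X^(c(k) - c(n)) · PP(θ)/PP(0)`. -/
theorem rho_le {n k : ℕ} (hnk : n ≤ k) (h : Even (n * k)) {t : ℝ} (ht : 0 < t) (θ : ℝ) :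
    rho n k 3 t θ ^ 2 ≤ ((cosh t + cos θ) / (cosh t + 1)) ^ ((k + 1) / 2 - (n + 1) / 2) *
      (PP n k t θ / PP n k t 0) := by
  have hG := GG_nonneg n k 3 t θ
  have hG0 := GG_pos (n := n) (k := k) (a := 3) (by norm_num) ht 0
  have e0 : rho n k 3 t θ ^ 2 = GG n k 3 t θ / GG n k 3 t 0 := by
    unfold rho; exact sq_sqrt (by positivity)
  have e1 : (cosh t + cos θ) / (cosh t + 1) = fac 1 t θ / fac 1 t 0 := by
    rw [← g2_eq_fac, ← g2_eq_fac, g2_one, g2_one, cos_zero, div_div_div_cancel_right₀ two_ne_zero]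
  have hPP : ∀ θ, 0 < PP n k t θ := fun θ => prod_pos fun v _ =>
    div_pos (fac_pos (by omega) ht θ) (fac_pos (by omega) ht θ)
  have h1 := GG_one_le (n := k) (k := n) (by rwa [mul_comm]) ht θ
  have h2 := GG_pos (n := k) (k := n) (a := 1) le_rfl ht θ
  have h3 := GG_pos (n := k) (k := n) (a := 1) le_rfl ht 0
  have f1 := fac_pos (v := 1) le_rfl ht θ
  have f0 := fac_pos (v := 1) le_rfl ht 0
  rw [e0, e1, GG_three hnk ht, GG_three hnk ht, div_pow]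
  have p1 := hPP θ
  have p0 := hPP 0
  have e2 : fac 1 t θ ^ ((k + 1) / 2 - (n + 1) / 2) * GG k n 1 t θ * PP n k t θ /
      (fac 1 t 0 ^ ((k + 1) / 2 - (n + 1) / 2) * GG k n 1 t 0 * PP n k t 0) =
      (GG k n 1 t θ / GG k n 1 t 0) * (fac 1 t θ ^ ((k + 1) / 2 - (n + 1) / 2) /
        fac 1 t 0 ^ ((k + 1) / 2 - (n + 1) / 2) * (PP n k t θ / PP n k t 0)) := by
    field_simp
  rw [e2]
  refine mul_le_of_le_one_left ?_ ((div_le_one h3).2 h1)
  positivity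

end Pool.Agent.SignedQ.FarC
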