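import Pool.Agent.Lib.MP_cf17a0_co.S1.FarC1
import Pool.Agent.Lib.MP_cf17a0_co.S1.FarC2

/-! # FAR, part (C): the sums over the factors -/

namespace Pool.Agent.SignedQ.FarC

open Real Finset Pool.Agent.SignedQ.Herm Pool.Agent.SignedQ.An

/-- `ρ_v = exp (-(n + v + 1) t)`. -/
noncomputable def rr (n : ℕ) (t : ℝ) (v : ℕ) : ℝ := exp (-(((n + v + 1 : ℕ) : ℝ) * t))

/-- `φ_v = (n + v + 1) (θ + π)`. -/
noncomputable def ph (n : ℕ) (θ : ℝ) (v : ℕ) : ℝ := ((n + v + 1 : ℕ) : ℝ) * (θ + π)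

theorem rr_pos (n : ℕ) (t : ℝ) (v : ℕ) : 0 < rr n t v := exp_pos _

theorem rr_lt {n : ℕ} {t : ℝ} (ht : 0 < t) (v : ℕ) : rr n t v < 1 := by
  unfold rr
  rw [exp_lt_one_iff]
  have : (0 : ℝ) < ((n + v + 1 : ℕ) : ℝ) := by positivity
  nlinarith

theorem rr_anti {n : ℕ} {t : ℝ} (ht : 0 < t) (v : ℕ) : rr n t (v + 1) ≤ rr n t v := by
  unfold rr
  rw [exp_le_exp]
  push_cast
  nlinarith

theorem log_rr (n : ℕ) (t : ℝ) (v : ℕ) : log (rr n t v) = -(((n + v + 1 : ℕ) : ℝ) * t) := log_exp _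

theorem cos_ph (l : ℝ) (n : ℕ) (θ : ℝ) (v : ℕ) :
    cos (l * ph n θ v) = cos (v * (l * (θ + π)) + l * ((n + 1 : ℕ) : ℝ) * (θ + π)) := by
  unfold ph
  congr 1
  push_cast
  ring

/-- The oscillating sums. -/
theorem osc {C : ℝ → ℝ} (hC : ∀ x y : ℝ, 0 ≤ x → x ≤ y → y ≤ 1 → C x ≤ C y)
    (hC0 : ∀ x : ℝ, 0 ≤ x → x ≤ 1 → 0 ≤ C x) {t : ℝ} (ht : 0 < t) (n k : ℕ) (l θ : ℝ)
    (hs : sin (l * (θ + π) / 2) ≠ 0) :
    |∑ v ∈ range k, C (rr n t v) * cos (l * ph n θ v)| ≤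
      C (rr n t 0) / |sin (l * (θ + π) / 2)| := by
  have h := abel_cos (w := fun v => C (rr n t v))
    (fun v => hC _ _ (rr_pos n t _).le (rr_anti ht v) (rr_lt ht v).le)
    (fun v => hC0 _ (rr_pos n t _).le (rr_lt ht v).le) k (l * (θ + π))
    (l * ((n + 1 : ℕ) : ℝ) * (θ + π)) hs
  simp only [← cos_ph] at h
  exact h

/-- One-sided summation by parts. -/
theorem abel_one {w c : ℕ → ℝ} (hw : ∀ j, w (j + 1) ≤ w j) (hw0 : ∀ j, 0 ≤ w j) {B : ℝ}
    (hB : ∀ m, ∑ i ∈ range m, c i ≤ B) (m : ℕ) : ∑ i ∈ range m, w i * c i ≤ w 0 * B := by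
  have h : ∀ m, ∑ i ∈ range m, w i * c i ≤ (w 0 - w m) * B + w m * ∑ i ∈ range m, c i := by
    intro m
    induction m with
    | zero => simp
    | succ m ih =>
      rw [sum_range_succ, sum_range_succ]
      have h1 := hB (m + 1)
      rw [sum_range_succ] at h1
      nlinarith [mul_nonneg (sub_nonneg.2 (hw m)) (sub_nonneg.2 h1)]
  have h1 := h m
  have h2 := mul_le_mul_of_nonneg_left (hB m) (hw0 m)
  linarith

theorem sum_cos_two {θ : ℝ} (hs : 0 < sin θ) (n m : ℕ) :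
    ∑ v ∈ range m, cos (2 * ph n θ v) =
      (sin ((2 * (n + m) + 1) * θ) - sin ((2 * n + 1) * θ)) / (2 * sin θ) := by
  induction m with
  | zero => simp
  | succ m ih =>
    rw [sum_range_succ, ih]
    have e1 : cos (2 * ph n θ m) = cos (2 * (n + m + 1) * θ) := by
      unfold ph
      have : (2 * (((n + m + 1 : ℕ) : ℝ) * (θ + π))) = 2 * (n + m + 1) * θ +
          ((n + m + 1 : ℕ) : ℝ) * (2 * π) := by push_cast; ring
      rw [this, cos_add_nat_mul_two_pi]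
    rw [e1]
    have e2 : (2 * ((n : ℝ) + (m + 1 : ℕ)) + 1) * θ = 2 * (n + m + 1) * θ + θ := by push_cast; ring
    have e3 : (2 * ((n : ℝ) + m) + 1) * θ = 2 * (n + m + 1) * θ - θ := by ring
    rw [e2, e3, sin_add, sin_sub]
    field_simp
    ring

/-- Refined bound for `l = 2`. -/
theorem osc_two {C : ℝ → ℝ} (hC : ∀ x y : ℝ, 0 ≤ x → x ≤ y → y ≤ 1 → C x ≤ C y)
    (hC0 : ∀ x : ℝ, 0 ≤ x → x ≤ 1 → 0 ≤ C x) {t : ℝ} (ht : 0 < t) (n k : ℕ) (θ : ℝ)
    (hs : 0 < sin θ) :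
    ∑ v ∈ range k, C (rr n t v) * cos (2 * ph n θ v) ≤
      C (rr n t 0) * ((1 - sin ((2 * n + 1) * θ)) / (2 * sin θ)) := by
  refine abel_one (w := fun v => C (rr n t v)) (c := fun v => cos (2 * ph n θ v))
    (fun v => hC _ _ (rr_pos n t _).le (rr_anti ht v) (rr_lt ht v).le)
    (fun v => hC0 _ (rr_pos n t _).le (rr_lt ht v).le) ?_ k
  intro m
  rw [sum_cos_two hs]
  have := sin_le_one ((2 * ((n : ℝ) + m) + 1) * θ)
  exact div_le_div_of_nonneg_right (by linarith) (by positivity)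

/-! ### The half logarithm of `PP` -/

theorem half_log_PP {n k : ℕ} {t : ℝ} (ht : 0 < t) (θ : ℝ) :
    1 / 2 * log (PP n k t θ / PP n k t 0) = ∑ v ∈ range k,
      ((1 / 2 * log (D (rr n t v ^ 3) (3 * ph n θ v)) - 1 / 2 * log (D (rr n t v) (ph n θ v))) -
        hh (n + v + 1) (rr n t v)) := by
  have hp : ∀ θ : ℝ, ∀ v, 0 < fac (3 * (n + v + 1)) t θ / fac (n + v + 1) t θ := fun θ v =>
    div_pos (fac_pos (by omega) ht θ) (fac_pos (by omega) ht θ)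
  have h1 : ∀ θ : ℝ, 1 / 2 * log (PP n k t θ) = ∑ v ∈ range k,
      1 / 2 * log (fac (3 * (n + v + 1)) t θ / fac (n + v + 1) t θ) := by
    intro θ
    unfold PP
    rw [log_prod (fun v _ => (hp θ v).ne'), mul_sum]
  have hP : ∀ θ : ℝ, 0 < PP n k t θ := fun θ => prod_pos fun v _ => hp θ v
  rw [log_div (hP θ).ne' (hP 0).ne', mul_sub, h1, h1, ← sum_sub_distrib]
  refine sum_congr rfl fun v _ => ?_
  rw [log_ratio (by omega) ht, log_ratio (by omega) ht, log_zero (exp_pos _).le (rr_lt ht v)]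
  unfold rr ph
  ring

/-- `m₂` and `m₁`. -/
noncomputable def m2 (r : ℝ) : ℝ := 1 / 2 * log (1 + r ^ 2 + r ^ 4) - 1 / 3 * log (1 + r ^ 6)
noncomputable def m1 (r : ℝ) : ℝ := 1 / 2 * log (1 + r ^ 2 + r ^ 4) - 2 / 3 * log (1 + r ^ 3)

/-- The parity sum. -/
theorem parity {n k : ℕ} {t : ℝ} (ht : 0 < t) :
    |∑ v ∈ range k, (-1) ^ (n + v + 1) * (1 / 2 * log ((1 + rr n t v + rr n t v ^ 2) /
      (1 - rr n t v + rr n t v ^ 2)))| ≤ 1 / 2 * log 3 := by
  set C : ℝ → ℝ := fun r => 1 / 2 * log ((1 + r + r ^ 2) / (1 - r + r ^ 2)) with hCd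
  have hq : ∀ r : ℝ, 0 < 1 - r + r ^ 2 := fun r => by nlinarith [sq_nonneg (2 * r - 1)]
  have hC : ∀ x y : ℝ, 0 ≤ x → x ≤ y → y ≤ 1 → C x ≤ C y := by
    intro x y h0 h1 h2
    simp only [hCd]
    have hx := hq x
    have hy := hq y
    have : (1 + x + x ^ 2) / (1 - x + x ^ 2) ≤ (1 + y + y ^ 2) / (1 - y + y ^ 2) := by
      rw [div_le_div_iff₀ hx hy]
      nlinarith [mul_nonneg (sub_nonneg.2 h1) (show 0 ≤ 1 - x * y by nlinarith)]
    have h3 : 0 < (1 + x + x ^ 2) / (1 - x + x ^ 2) := by positivity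
    have := log_le_log h3 this
    linarith
  have hC0 : ∀ x : ℝ, 0 ≤ x → x ≤ 1 → 0 ≤ C x := by
    intro x h0 h1
    have := hC 0 x le_rfl h0 h1
    have e : C 0 = 0 := by simp [hCd]
    linarith
  have h := osc hC hC0 ht n k 1 0 (by
    rw [zero_add, one_mul, sin_pi_div_two]; exact one_ne_zero)
  rw [zero_add, one_mul, sin_pi_div_two, abs_one, div_one] at h
  have e : ∀ v, cos (1 * ph n 0 v) = (-1) ^ (n + v + 1) := by
    intro v
    unfold ph
    rw [zero_add, one_mul, cos_nat_mul_pi]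
  have h2 : C (rr n t 0) ≤ 1 / 2 * log 3 := by
    have h3 := hC (rr n t 0) 1 (rr_pos n t 0).le (rr_lt ht 0).le le_rfl
    have e3 : C 1 = 1 / 2 * log 3 := by simp only [hCd]; norm_num
    linarith
  refine le_trans (le_of_eq ?_) (h.trans h2)
  congr 1
  refine sum_congr rfl fun v _ => ?_
  rw [e v, mul_comm]

/-- **Sum form, degree 5.** -/
theorem J2_sum {n k : ℕ} {t : ℝ} (ht : 0 < t) (θ : ℝ) :
    1 / 2 * log (PP n k t θ / PP n k t 0) ≤ -∑ v ∈ range k, m2 (rr n t v) + 1 / 2 * log 3 +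
      ∑ v ∈ range k, cE 5 0 (rr n t v) * cos (1 * ph n θ v) +
      ∑ v ∈ range k, cE 5 1 (rr n t v) * cos (2 * ph n θ v) -
      ∑ v ∈ range k, (2 / 3 * (rr n t v ^ 3 / (1 + rr n t v ^ 6))) * cos (3 * ph n θ v) +
      ∑ v ∈ range k, cE 5 3 (rr n t v) * cos (4 * ph n θ v) +
      ∑ v ∈ range k, cE 5 4 (rr n t v) * cos (5 * ph n θ v) := by
  rw [half_log_PP ht]
  have h1 : ∀ v, (1 / 2 * log (D (rr n t v ^ 3) (3 * ph n θ v)) -
      1 / 2 * log (D (rr n t v) (ph n θ v))) - hh (n + v + 1) (rr n t v) ≤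
      -m2 (rr n t v) - (-1) ^ (n + v + 1) * (1 / 2 * log ((1 + rr n t v + rr n t v ^ 2) /
      (1 - rr n t v + rr n t v ^ 2))) + cE 5 0 (rr n t v) * cos (1 * ph n θ v) +
      cE 5 1 (rr n t v) * cos (2 * ph n θ v) -
      (2 / 3 * (rr n t v ^ 3 / (1 + rr n t v ^ 6))) * cos (3 * ph n θ v) +
      cE 5 3 (rr n t v) * cos (4 * ph n θ v) + cE 5 4 (rr n t v) * cos (5 * ph n θ v) := by
    intro v
    have h := J_majorant 1 (rr_pos n t v).le (rr_lt ht v) (ph n θ v)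
    refine (sub_le_sub_right h _).trans (le_of_eq ?_)
    unfold TE hh m2
    rw [show 3 * 1 + 2 = 5 by norm_num]
    simp only [sum_range_succ, sum_range_zero, zero_add]
    rw [cE10 (pow_nonneg (rr_pos n t v).le 3), cE52 (rr_pos n t v).le]
    have e1 : (rr n t v ^ 3) ^ (1 + 1) = rr n t v ^ 6 := by ring
    have e2 : rr n t v ^ (5 + 1) = rr n t v ^ 6 := by ring
    rw [e1, e2]
    push_cast
    norm_num
    ring
  refine (sum_le_sum fun v _ => h1 v).trans ?_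
  have hp := (abs_le.1 (parity (n := n) (k := k) ht)).1
  simp only [sum_add_distrib, sum_sub_distrib, sum_neg_distrib]
  linarith

/-- **Sum form, degree 2.** -/
theorem J1_sum {n k : ℕ} {t : ℝ} (ht : 0 < t) (θ : ℝ) :
    1 / 2 * log (PP n k t θ / PP n k t 0) ≤ -∑ v ∈ range k, m1 (rr n t v) + 1 / 2 * log 3 +
      ∑ v ∈ range k, cE 2 0 (rr n t v) * cos (1 * ph n θ v) +
      ∑ v ∈ range k, cE 2 1 (rr n t v) * cos (2 * ph n θ v) := by
  rw [half_log_PP ht]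
  have h1 : ∀ v, (1 / 2 * log (D (rr n t v ^ 3) (3 * ph n θ v)) -
      1 / 2 * log (D (rr n t v) (ph n θ v))) - hh (n + v + 1) (rr n t v) ≤
      -m1 (rr n t v) - (-1) ^ (n + v + 1) * (1 / 2 * log ((1 + rr n t v + rr n t v ^ 2) /
      (1 - rr n t v + rr n t v ^ 2))) + cE 2 0 (rr n t v) * cos (1 * ph n θ v) +
      cE 2 1 (rr n t v) * cos (2 * ph n θ v) := by
    intro v
    have h := J_majorant 0 (rr_pos n t v).le (rr_lt ht v) (ph n θ v)
    refine (sub_le_sub_right h _).trans (le_of_eq ?_)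
    unfold TE hh m1
    rw [show 3 * 0 + 2 = 2 by norm_num]
    simp only [sum_range_succ, sum_range_zero, zero_add]
    have e1 : (rr n t v ^ 3) ^ 1 = rr n t v ^ 3 := by ring
    have e2 : rr n t v ^ (2 + 1) = rr n t v ^ 3 := by ring
    rw [e1, e2]
    push_cast
    norm_num
    ring
  refine (sum_le_sum fun v _ => h1 v).trans ?_
  have hp := (abs_le.1 (parity (n := n) (k := k) ht)).1
  simp only [sum_add_distrib, sum_sub_distrib, sum_neg_distrib]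
  linarith

/-- Sums of lines. -/
theorem sum_line {g : ℝ → ℝ} {α β : ℝ} (h : ∀ r : ℝ, 0 < r → r ≤ 1 → α + β * log r ≤ g r)
    {n k : ℕ} {t : ℝ} (ht : 0 < t) :
    k * α - β * (t * (k * n + k * (k + 1) / 2)) ≤ ∑ v ∈ range k, g (rr n t v) := by
  have h1 : ∑ v ∈ range k, (α + β * log (rr n t v)) ≤ ∑ v ∈ range k, g (rr n t v) :=
    sum_le_sum fun v _ => h _ (rr_pos n t v) (rr_lt ht v).le
  refine le_trans (le_of_eq ?_) h1
  have e : ∀ k : ℕ, ∑ v ∈ range k, (α + β * log (rr n t v)) =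
      k * α - β * (t * (k * n + k * (k + 1) / 2)) := by
    intro k
    induction k with
    | zero => simp
    | succ k ih =>
      rw [sum_range_succ, ih, log_rr]
      push_cast
      ring
  exact (e k).symm

end Pool.Agent.SignedQ.FarC
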