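import Pool.Agent.Lib.MP_cf17a0_co.S1.FarC3
import Pool.Agent.Lib.MP_cf17a0_co.S1.FarN
import Pool.Agent.Lib.MP_cf17a0_co.S1.PI

/-! # FAR, part (C): `a = 3`, `2 n < k`, `k ≥ 200`, `k t ≤ 1` -/

namespace Pool.Agent.SignedQ.FarC

open Real Finset Pool.Agent.SignedQ.Herm Pool.Agent.SignedQ.An

/-! ### Numbers -/

theorem cosU45 : cos 0.45 ≤ 0.901 := by
  have h := cos_bound (x := (0.45 : ℝ)) (by rw [abs_of_pos] <;> norm_num)
  have h2 := (abs_le.1 h).2
  rw [abs_of_pos (by norm_num : (0:ℝ) < 0.45)] at h2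
  norm_num at h2 ⊢
  linarith

theorem exp75 : exp (-(3 / 4)) ≤ 0.47237 := by
  have h : (1 : ℝ) / 0.47237 ≤ exp (3 / 4) := by
    have := sum_le_exp_of_nonneg (x := (3 / 4 : ℝ)) (by norm_num) 8
    refine le_trans ?_ this
    norm_num [sum_range_succ, Nat.factorial]
  rw [exp_neg, inv_le_comm₀ (exp_pos _) (by norm_num), inv_eq_one_div]
  exact h

theorem exp50 : exp (-(1 / 2)) ≤ 0.6066 := by
  have h : (1 : ℝ) / 0.6066 ≤ exp (1 / 2) := by
    have := sum_le_exp_of_nonneg (x := (1 / 2 : ℝ)) (by norm_num) 6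
    refine le_trans ?_ this
    norm_num [sum_range_succ, Nat.factorial]
  rw [exp_neg, inv_le_comm₀ (exp_pos _) (by norm_num), inv_eq_one_div]
  exact h

theorem exp45 : 0.0101 ≤ exp (-(9 / 2)) := by
  have h1 : exp (9 / 2) ^ 2 = exp 1 ^ 9 := by
    rw [← exp_nat_mul, ← exp_nat_mul]; norm_num
  have h2 : exp 1 ^ 9 ≤ 2.7182818286 ^ 9 := pow_le_pow_left₀ (exp_pos _).le exp_one_lt_d9.le 9
  have h3 : exp (9 / 2) ≤ 99 := by
    refine le_of_sq_le_sq ?_ (by norm_num)
    rw [h1]; refine h2.trans (by norm_num)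
  rw [exp_neg, le_inv_comm₀ (by norm_num) (exp_pos _)]
  exact h3.trans (by norm_num)

theorem log_one_sub_le {x : ℝ} (h0 : 0 ≤ x) (h1 : x < 1) : log (1 - x) ≤ -x - x ^ 2 / 2 := by
  have h := hasSum_pow_div_log_of_abs_lt_one (x := x) (by rw [abs_of_nonneg h0]; exact h1)
  have h2 := sum_le_hasSum (range 2) (fun i _ => by positivity) h
  simp only [sum_range_succ, sum_range_zero] at h2
  norm_num at h2
  linarith

/-- The chord of the exponential. -/
theorem exp_chord {a b x : ℝ} (ha : 0 < a) (hb : exp (-a) ≤ b) (h0 : 0 ≤ x) (h1 : x ≤ a) :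
    exp (-x) ≤ 1 - (1 - b) / a * x := by
  have hc := convexOn_exp.2 (Set.mem_univ (0 : ℝ)) (Set.mem_univ (-a))
    (sub_nonneg.2 ((div_le_one ha).2 h1)) (show 0 ≤ x / a by positivity) (by ring)
  simp only [smul_eq_mul, mul_zero, zero_add, exp_zero, mul_one] at hc
  have e : x / a * -a = -x := by field_simp
  rw [e] at hc
  have h2 : x / a * exp (-a) ≤ x / a * b := mul_le_mul_of_nonneg_left hb (by positivity)
  calc exp (-x) ≤ 1 - x / a + x / a * exp (-a) := hc
    _ ≤ 1 - x / a + x / a * b := by linarith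
    _ = _ := by ring

/-! ### From logarithms to the bound -/

theorem X_pos {t : ℝ} (ht : 0 < t) (θ : ℝ) : 0 < (cosh t + cos θ) / (cosh t + 1) := by
  have h1 : 1 < cosh t := one_lt_cosh.2 ht.ne'
  have h2 := neg_one_le_cos θ
  have : 0 < cosh t + cos θ := by linarith
  positivity

theorem PP_pos {n k : ℕ} {t : ℝ} (ht : 0 < t) (θ : ℝ) : 0 < PP n k t θ :=
  prod_pos fun v _ => div_pos (fac_pos (by omega) ht θ) (fac_pos (by omega) ht θ)

theorem sig_rho_le {n k : ℕ} (hpar : Even (n * k)) (hnk : n ≤ k) (hk : 26 ≤ k) {t θ : ℝ}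
    (ht : 0 < t) (ht' : t ≤ 31 / 2000) {B S : ℝ}
    (hB : (((k + 1) / 2 - (n + 1) / 2 : ℕ) : ℝ) / 2 * log ((cosh t + cos θ) / (cosh t + 1)) +
      1 / 2 * log (PP n k t θ / PP n k t 0) ≤ B)
    (hS : log (√(1001 / 1000 * k) * (tanh ((3 * (n + k) : ℕ) * (t / 2)) / t)) ≤ S)
    (hBS : S + B ≤ -4.1352) : sigma n k 3 t * rho n k 3 t θ ≤ 0.016 := by
  have hX := X_pos ht θ
  have hPP : 0 < PP n k t θ / PP n k t 0 := div_pos (PP_pos ht θ) (PP_pos ht 0)
  have hrho : 0 < rho n k 3 t θ := by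
    unfold rho
    exact sqrt_pos.2 (div_pos (GG_pos (by norm_num) ht θ) (GG_pos (by norm_num) ht 0))
  have h1 := rho_le hnk hpar ht θ
  have h2 : log (rho n k 3 t θ) ≤ B := by
    refine le_trans ?_ hB
    have h3 := log_le_log (by positivity) h1
    rw [log_pow, log_mul (by positivity) hPP.ne', log_pow] at h3
    push_cast at h3 ⊢
    linarith
  have hT := PIarc.T_pos (n := n) (k := k) (a := 3) (by norm_num) (by omega) ht
  have hs := PIarc.sigma_le (n := n) hpar (by decide : Odd 3) le_rfl hk ht ht'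
  have hk0 : (0 : ℝ) < k := by exact_mod_cast (by omega : 0 < k)
  set W := √(1001 / 1000 * k) * (tanh ((3 * (n + k) : ℕ) * (t / 2)) / t) with hW
  have hWp : 0 < W := by positivity
  calc sigma n k 3 t * rho n k 3 t θ ≤ W * rho n k 3 t θ :=
        mul_le_mul_of_nonneg_right hs hrho.le
    _ = exp (log W + log (rho n k 3 t θ)) := by rw [exp_add, exp_log hWp, exp_log hrho]
    _ ≤ exp (log 0.016) := exp_le_exp.2 (by have := n016; linarith)
    _ = 0.016 := exp_log (by norm_num)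

theorem logk {k : ℕ} (hk : 200 ≤ k) : log k ≤ 5.2984 + (k - 200) / 200 := by
  have hk' : (200 : ℝ) ≤ k := by exact_mod_cast hk
  have h1 : log k = log 200 + log (k / 200) := by
    rw [← log_mul (by norm_num) (by positivity)]; congr 1; field_simp
  have h2 : log ((k : ℝ) / 200) ≤ k / 200 - 1 := log_le_sub_one_of_pos (by positivity)
  have := n200
  rw [h1]; linarith

theorem logsig1 {n k : ℕ} (hk : 200 ≤ k) {t : ℝ} (ht : 0 < t) :
    log (√(1001 / 1000 * k) * (tanh ((3 * (n + k) : ℕ) * (t / 2)) / t)) ≤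
      7.9482 + 0.0075 * (k - 200) - log (k * t) := by
  have hk' : (200 : ℝ) ≤ k := by exact_mod_cast hk
  have hT := PIarc.T_pos (n := n) (k := k) (a := 3) (by norm_num) (by omega) ht
  have hT1 : tanh ((3 * (n + k) : ℕ) * (t / 2)) ≤ 1 := (tanh_lt_one _).le
  rw [log_mul (by positivity) (by positivity), log_div hT.ne' ht.ne', log_sqrt (by positivity),
    log_mul (by norm_num) (by positivity), log_mul (by positivity) ht.ne']
  have h1 : log (tanh ((3 * (n + k) : ℕ) * (t / 2))) ≤ 0 := log_nonpos hT.le hT1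
  have h2 : log (1001 / 1000 : ℝ) ≤ 0.001 := by
    have := log_le_sub_one_of_pos (x := (1001 / 1000 : ℝ)) (by norm_num)
    norm_num at this ⊢
    linarith
  have := logk hk
  linarith

theorem logsig2 {n k : ℕ} (hk : 200 ≤ k) (hnk : 2 * n < k) {t : ℝ} (ht : 0 < t) :
    log (√(1001 / 1000 * k) * (tanh ((3 * (n + k) : ℕ) * (t / 2)) / t)) ≤
      7.9482 + 0.0075 * (k - 200) + 0.811 := by
  have hk' : (200 : ℝ) ≤ k := by exact_mod_cast hk
  have hn' : (2 : ℝ) * n < k := by exact_mod_cast hnk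
  have hT := PIarc.T_pos (n := n) (k := k) (a := 3) (by norm_num) (by omega) ht
  have hT1 : tanh ((3 * (n + k) : ℕ) * (t / 2)) / t ≤ 2.25 * k := by
    rw [div_le_iff₀ ht, tanh_eq_sinh_div_cosh]
    refine (tanh_le (by positivity)).trans ?_
    push_cast
    nlinarith
  have h0 : 0 < tanh ((3 * (n + k) : ℕ) * (t / 2)) / t := by positivity
  rw [log_mul (by positivity) (by positivity), log_sqrt (by positivity),
    log_mul (by norm_num) (by positivity)]
  have h1 := log_le_log h0 hT1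
  rw [log_mul (by norm_num) (by positivity)] at h1
  have h2 : log (1001 / 1000 : ℝ) ≤ 0.001 := by
    have := log_le_sub_one_of_pos (x := (1001 / 1000 : ℝ)) (by norm_num)
    norm_num at this ⊢
    linarith
  have := logk hk
  have := n225
  linarith

/-- The three bounds for `log (σ-bound)`. -/
theorem sgbound {n k : ℕ} (hk : 200 ≤ k) (hnk : 2 * n < k) {t : ℝ} (ht : 0 < t)
    (hkt : k * t ≤ 1) :
    (k * t ≤ 0.7 → log (√(1001 / 1000 * k) * (tanh ((3 * (n + k) : ℕ) * (t / 2)) / t)) ≤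
      7.9482 + 0.0075 * (k - 200) + 0.811) ∧
    (0.7 ≤ k * t → log (√(1001 / 1000 * k) * (tanh ((3 * (n + k) : ℕ) * (t / 2)) / t)) ≤
      7.9482 + 0.0075 * (k - 200) + 0.3568 ∧
      log (√(1001 / 1000 * k) * (tanh ((3 * (n + k) : ℕ) * (t / 2)) / t)) ≤
      7.9482 + 0.0075 * (k - 200) + 10 / 7 * (1 - k * t)) := by
  have hk' : (200 : ℝ) ≤ k := by exact_mod_cast hk
  refine ⟨fun _ => logsig2 hk hnk ht, fun h => ?_⟩
  have h1 := logsig1 (n := n) hk ht
  constructor
  · have h2 := log_le_log (by norm_num) h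
    have := n07
    linarith
  · have hp : 0 < (k : ℝ) * t := by linarith
    have h2 : 1 - (k * t : ℝ)⁻¹ ≤ log (k * t) := one_sub_inv_le_log_of_pos hp
    have h3 : (k * t : ℝ)⁻¹ - 1 ≤ 10 / 7 * (1 - k * t) := by
      rw [inv_eq_one_div, div_sub_one hp.ne', div_le_iff₀ hp]
      nlinarith [mul_nonneg (sub_nonneg.2 hkt) (sub_nonneg.2 h)]
    linarith

end Pool.Agent.SignedQ.FarC
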