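import Pool.Agent.Lib.MP_cf17a0_co.S1.FarC4

/-! # FAR, part (C): the three zones -/

namespace Pool.Agent.SignedQ.FarC

open Real Finset Pool.Agent.SignedQ.Herm Pool.Agent.SignedQ.An

/-! ### Coefficient functions are nonnegative and monotone -/

theorem R_mono (x y : ℝ) (h0 : 0 ≤ x) (h1 : x ≤ y) (h2 : y ≤ 1) :
    2 / 3 * (x ^ 3 / (1 + x ^ 6)) ≤ 2 / 3 * (y ^ 3 / (1 + y ^ 6)) := by
  have hx : x ^ 3 ≤ y ^ 3 := pow_le_pow_left₀ h0 h1 3
  have hx0 : 0 ≤ x ^ 3 := pow_nonneg h0 3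
  have hy1 : y ^ 3 ≤ 1 := pow_le_one₀ (h0.trans h1) h2
  have h : x ^ 3 / (1 + x ^ 6) ≤ y ^ 3 / (1 + y ^ 6) := by
    rw [div_le_div_iff₀ (by positivity) (by positivity)]
    have e1 : x ^ 6 = x ^ 3 * x ^ 3 := by ring
    have e2 : y ^ 6 = y ^ 3 * y ^ 3 := by ring
    rw [e1, e2]
    nlinarith [mul_nonneg (sub_nonneg.2 hx) (show 0 ≤ 1 - x ^ 3 * y ^ 3 by nlinarith)]
  linarith

theorem R_nonneg (x : ℝ) (h0 : 0 ≤ x) (_ : x ≤ 1) : 0 ≤ 2 / 3 * (x ^ 3 / (1 + x ^ 6)) := by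
  positivity

theorem R_le (x : ℝ) (h0 : 0 ≤ x) (h1 : x ≤ 1) : 2 / 3 * (x ^ 3 / (1 + x ^ 6)) ≤ 1 / 3 := by
  have := R_mono x 1 h0 h1 le_rfl
  norm_num at this ⊢
  linarith

/-- `|sin (l (θ + π) / 2)|`. -/
theorem s1 (θ : ℝ) : sin (1 * (θ + π) / 2) = cos (θ / 2) := by
  rw [show 1 * (θ + π) / 2 = θ / 2 + π / 2 by ring, sin_add_pi_div_two]

theorem s2 (θ : ℝ) : sin (2 * (θ + π) / 2) = -sin θ := by
  rw [show 2 * (θ + π) / 2 = θ + π by ring, sin_add_pi]

theorem s3 (θ : ℝ) : sin (3 * (θ + π) / 2) = -cos (3 * θ / 2) := by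
  rw [show 3 * (θ + π) / 2 = (3 * θ / 2 + π / 2) + π by ring, sin_add_pi, sin_add_pi_div_two]

theorem s4 (θ : ℝ) : sin (4 * (θ + π) / 2) = sin (2 * θ) := by
  rw [show 4 * (θ + π) / 2 = 2 * θ + 2 * π by ring, sin_add_two_pi]

theorem s5 (θ : ℝ) : sin (5 * (θ + π) / 2) = cos (5 * θ / 2) := by
  rw [show 5 * (θ + π) / 2 = (5 * θ / 2 + π / 2) + 2 * π by ring, sin_add_two_pi,
    sin_add_pi_div_two]

/-- The oscillating sums with numerical bounds: `|sin| ≥ s > 0`, `C ≤ b`. -/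
theorem osc_le {C : ℝ → ℝ} (hC : ∀ x y : ℝ, 0 ≤ x → x ≤ y → y ≤ 1 → C x ≤ C y)
    (hC0 : ∀ x : ℝ, 0 ≤ x → x ≤ 1 → 0 ≤ C x) {t : ℝ} (ht : 0 < t) (n k : ℕ) (l θ : ℝ) {s b : ℝ}
    (hs0 : 0 < s) (hs : s ≤ |sin (l * (θ + π) / 2)|) (hb : C (rr n t 0) ≤ b) :
    |∑ v ∈ range k, C (rr n t v) * cos (l * ph n θ v)| ≤ b / s := by
  have h := osc hC hC0 ht n k l θ (by
    intro h0
    rw [h0, abs_zero] at hs
    linarith)
  have h0 := hC0 (rr n t 0) (rr_pos n t 0).le (rr_lt ht 0).le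
  refine h.trans (div_le_div₀ (h0.trans hb) hb hs0 hs)

/-! ### Zone A: `6/k ≤ θ ≤ 1/10` -/

theorem sq_chord {x y a : ℝ} (h0 : 0 ≤ x) (h : x ≤ y) (ha : a ≤ y) (h1 : y ≤ 1) :
    x ^ 2 ≤ (1 + a) * y - a := by
  have h2 : x ^ 2 ≤ y ^ 2 := pow_le_pow_left₀ h0 h 2
  nlinarith [mul_nonneg (sub_nonneg.2 ha) (sub_nonneg.2 h1)]

theorem kA_le {k A : ℝ} (hk : 200 ≤ k) (hA : 0.0075 ≤ A) :
    200 * A + (k - 200) * 0.0075 ≤ k * A := by
  nlinarith [mul_nonneg (sub_nonneg.2 hk) (sub_nonneg.2 hA)]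

/-- The final inequality, zone A, case 1. -/
theorem finA1 {k ν K y A kA sg : ℝ} (hνK : 2 * ν ≤ K) (hK : K ≤ 3 / 4)
    (hy : y = 1 - 1.407 * ν)
    (hA : A = 0.2905 - 0.2315 * ν - 0.11575 * K - 0.08335 * y - 0.02087 * (1.47237 * y - 0.47237))
    (hkA : 0.0075 ≤ A → 200 * A + (k - 200) * 0.0075 ≤ kA)
    (hsg : K ≤ 0.7 ∧ sg = 0.811 ∨ sg = 0.3568) :
    (7.9482 + 0.0075 * (k - 200) + sg) + (-kA + 0.11575 * K + 1.78804) ≤ -4.1352 := by
  subst hy
  have hA1 : 0.0075 ≤ A := by rw [hA]; norm_num; linarith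
  have h := hkA hA1
  rw [hA] at h
  norm_num at h ⊢
  rcases hsg with ⟨h7, rfl⟩ | rfl
  · norm_num at h7 ⊢; linarith
  · norm_num; linarith

theorem rr_sq {n : ℕ} {t : ℝ} (ht : 0 < t) : rr n t 0 ^ 2 ≤ exp (-(2 * (n * t))) := by
  unfold rr
  rw [← exp_nat_mul, exp_le_exp]
  push_cast
  nlinarith

theorem sin_lower {k : ℕ} (hk : 200 ≤ k) {θ : ℝ} (h : 6 / k ≤ θ) (h1 : θ ≤ 1 / 10) :
    0.99985 * (6 / k) ≤ sin θ := by
  have hk' : (200 : ℝ) ≤ k := by exact_mod_cast hk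
  have hx : 0 < (6 : ℝ) / k := by positivity
  have hx1 : (6 : ℝ) / k ≤ 0.03 := by rw [div_le_iff₀ (by positivity)]; linarith
  have h2 := sinc3 hx hx1
  have h3 : sin (6 / k) ≤ sin θ := sin_le_sin_of_le_of_le_pi_div_two
    (by linarith [pi_pos]) (by linarith [pi_gt_three]) h
  linarith

theorem sin2_lower {k : ℕ} (hk : 200 ≤ k) {θ : ℝ} (h : 6 / k ≤ θ) (h1 : θ ≤ 1 / 10) :
    0.9983 * (12 / k) ≤ sin (2 * θ) := by
  have hk' : (200 : ℝ) ≤ k := by exact_mod_cast hk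
  have hx : 0 < (12 : ℝ) / k := by positivity
  have hx1 : (12 : ℝ) / k ≤ 1 / 10 := by rw [div_le_iff₀ (by positivity)]; linarith
  have h2 := sinc hx hx1
  have e : (12 : ℝ) / k = 2 * (6 / k) := by ring
  have h3 : sin (12 / k) ≤ sin (2 * θ) := sin_le_sin_of_le_of_le_pi_div_two
    (by linarith [pi_pos]) (by linarith [pi_gt_three]) (by linarith)
  linarith

theorem cos_lower {x y : ℝ} (h0 : 0 ≤ x) (h : x ≤ y) (hy : y ≤ π) : cos y ≤ cos x :=
  cos_le_cos_of_nonneg_of_le_pi h0 hy h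

/-- The final inequality, zone A, case 2. -/
theorem finA2 {k ν K y A kA : ℝ} (hνK : 4 * ν ≤ K) (hK : K ≤ 1)
    (hy : y = 1 - 1.5735 * ν)
    (hA : A = 0.2905 - 0.2315 * ν - 0.11575 * K - 0.05635 * y - 0.02087 * (1.6066 * y - 0.6066))
    (hkA : 0.0075 ≤ A → 200 * A + (k - 200) * 0.0075 ≤ kA) :
    (7.9482 + 0.0075 * (k - 200) + 10 / 7 * (1 - K)) + (-kA + 0.11575 * K + 0.1128 + 1.78804) ≤
      -4.1352 := by
  subst hy
  have hA1 : 0.0075 ≤ A := by rw [hA]; norm_num; linarith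
  have h := hkA hA1
  rw [hA] at h
  norm_num at h ⊢
  linarith

theorem collectA2 {k ν K y kA x L M l3 S1 S2 S3 S4 S5 : ℝ} (hXc : x ≤ 0)
    (hJ : L ≤ -M + 1 / 2 * l3 + S1 + S2 - S3 + S4 + S5)
    (hline : k * 0.2905 - 0.2315 * (k * ν + k * K / 2 + K / 2) ≤ M) (hl3 : l3 ≤ 1.0987)
    (o1 : S1 ≤ 0.8415 / 0.99875) (o2 : S2 ≤ k * (0.05635 * y) + 0.1128)
    (o3 : -(1 / 3 / 0.9887) ≤ S3)
    (o4 : S4 ≤ k * (0.02087 * (1.6066 * y - 0.6066))) (o5 : S5 ≤ 2 / 35 / 0.9689)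
    (hkA : kA = k * 0.2905 - 0.2315 * (k * ν + k * K / 2) - k * (0.05635 * y) -
        k * (0.02087 * (1.6066 * y - 0.6066))) :
    x + L ≤ -kA + 0.11575 * K + 0.1128 + 1.78804 := by
  have c1 : (0.8415 : ℝ) / 0.99875 ≤ 0.84256 := by norm_num
  have c3 : (1 : ℝ) / 3 / 0.9887 ≤ 0.33715 := by norm_num
  have c5 : (2 : ℝ) / 35 / 0.9689 ≤ 0.05898 := by norm_num
  linarith

/-- The refined constant of `cos 2 φ`: `(1 - sin ((2n+1)θ)) / (2 sin θ) ≤ .1127 (k + 2)`. -/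
theorem refined {n k : ℕ} (hk : 200 ≤ k) (hnk : 4 * n < k) {θ : ℝ} (h6 : 6 / k ≤ θ)
    (h10 : θ ≤ 1 / 10) : (1 - sin ((2 * n + 1) * θ)) / (2 * sin θ) ≤ 0.1127 * (k + 2) := by
  have hk' : (200 : ℝ) ≤ k := by exact_mod_cast hk
  have hn' : (4 : ℝ) * n < k := by exact_mod_cast hnk
  have hkp : (0 : ℝ) < k := by linarith
  have hθ : 0 < θ := lt_of_lt_of_le (by positivity) h6
  have hs1 := sin_lower hk h6 h10
  have hs2 := sinc hθ h10
  have hs : 0 < sin θ := by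
    have : 0 < 0.99985 * (6 / (k : ℝ)) := by positivity
    linarith
  rw [div_le_iff₀ (by positivity)]
  rcases le_total ((2 * (n : ℝ) + 1) * θ) π with h | h
  · have h1 : 0 ≤ sin ((2 * n + 1) * θ) := sin_nonneg_of_nonneg_of_le_pi (by positivity) h
    have h2 : 1 ≤ 0.1127 * ((k : ℝ) + 2) * (2 * (0.99985 * (6 / k))) := by
      have e : 0.1127 * ((k : ℝ) + 2) * (2 * (0.99985 * (6 / k))) =
          1.35219714 * ((k + 2) / k) := by field_simp; norm_num
      rw [e]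
      have : 1 ≤ ((k : ℝ) + 2) / k := by rw [le_div_iff₀ hkp]; linarith
      linarith
    have h3 : 0.1127 * ((k : ℝ) + 2) * (2 * (0.99985 * (6 / k))) ≤
        0.1127 * ((k : ℝ) + 2) * (2 * sin θ) :=
      mul_le_mul_of_nonneg_left (by linarith) (by positivity)
    linarith
  · have h1 := sin_x h
    have h2 : 0.45 * ((2 * (n : ℝ) + 1) * θ) ≤ 0.225 * ((k + 2) * θ) := by nlinarith
    have h3 : 0.1127 * ((k : ℝ) + 2) * (2 * (0.9983 * θ)) ≤
        0.1127 * ((k : ℝ) + 2) * (2 * sin θ) :=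
      mul_le_mul_of_nonneg_left (by linarith) (by positivity)
    have h4 : 0 ≤ ((k : ℝ) + 2) * θ := by positivity
    nlinarith

theorem e2_aux {k y : ℝ} (hk : 0 < k) (hy : 0 ≤ y) :
    y / 2 / (0.99985 * (6 / k)) ≤ k * (0.08335 * y) := by
  have e : y / 2 / (0.99985 * (6 / k)) = k * (y / 11.9982) := by field_simp; ring
  rw [e]
  refine mul_le_mul_of_nonneg_left ?_ hk.le
  rw [div_le_iff₀ (by norm_num)]
  nlinarith

theorem e4_aux {k y : ℝ} (hk : 0 < k) (hy : 0 ≤ y) :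
    y / 4 / (0.9983 * (12 / k)) ≤ k * (0.02087 * y) := by
  have e : y / 4 / (0.9983 * (12 / k)) = k * (y / 47.9184) := by field_simp; ring
  rw [e]
  refine mul_le_mul_of_nonneg_left ?_ hk.le
  rw [div_le_iff₀ (by norm_num)]
  nlinarith

theorem collectA1 {k ν K y kA x L M l3 S1 S2 S3 S4 S5 : ℝ} (hXc : x ≤ 0)
    (hJ : L ≤ -M + 1 / 2 * l3 + S1 + S2 - S3 + S4 + S5)
    (hline : k * 0.2905 - 0.2315 * (k * ν + k * K / 2 + K / 2) ≤ M) (hl3 : l3 ≤ 1.0987)
    (o1 : S1 ≤ 0.8415 / 0.99875) (o2 : S2 ≤ k * (0.08335 * y)) (o3 : -(1 / 3 / 0.9887) ≤ S3)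
    (o4 : S4 ≤ k * (0.02087 * (1.47237 * y - 0.47237))) (o5 : S5 ≤ 2 / 35 / 0.9689)
    (hkA : kA = k * 0.2905 - 0.2315 * (k * ν + k * K / 2) - k * (0.08335 * y) -
        k * (0.02087 * (1.47237 * y - 0.47237))) :
    x + L ≤ -kA + 0.11575 * K + 1.78804 := by
  have c1 : (0.8415 : ℝ) / 0.99875 ≤ 0.84256 := by norm_num
  have c3 : (1 : ℝ) / 3 / 0.9887 ≤ 0.33715 := by norm_num
  have c5 : (2 : ℝ) / 35 / 0.9689 ≤ 0.05898 := by norm_num
  linarith

theorem zoneA {n k : ℕ} (hpar : Even (n * k)) (hnk : 2 * n < k) (hk : 200 ≤ k) {t θ : ℝ}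
    (ht : 0 < t) (hkt : k * t ≤ 1) (hex : 4 * n < k ∨ k * t ≤ 3 / 4) (h6 : 6 / k ≤ θ)
    (h10 : θ ≤ 1 / 10) : sigma n k 3 t * rho n k 3 t θ ≤ 0.016 := by
  have hk' : (200 : ℝ) ≤ k := by exact_mod_cast hk
  have hn' : (2 : ℝ) * n < k := by exact_mod_cast hnk
  have hkp : (0 : ℝ) < k := by linarith
  have hθ : 0 < θ := lt_of_lt_of_le (by positivity) h6
  have htk : t ≤ 1 / 200 := by
    have : 200 * t ≤ 1 := le_trans (mul_le_mul_of_nonneg_right hk' ht.le) hkt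
    linarith
  -- the pieces
  have hline := sum_line (g := m2) (α := 0.2905) (β := 0.2315)
    (fun r h0 h1 => by unfold m2; exact N1 h0 h1) (n := n) (k := k) ht
  have hr0 := rr_pos n t 0
  have hr1 := (rr_lt (n := n) ht 0).le
  have o1 := (abs_le.1 (osc_le (C := cE 5 0) (fun x y a b c => cE_mono (by norm_num) a b c)
    (fun x a b => cE_nonneg (by norm_num) a b) ht n k 1 θ (s := 0.99875) (b := 0.8415)
    (by norm_num) (by
      rw [s1]
      refine le_trans ?_ (le_abs_self _)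
      have h1 := cos_lower (x := θ / 2) (y := 0.05) (by linarith) (by linarith) (by
        linarith [pi_gt_three])
      exact c05.trans h1) (cE50 hr0.le hr1))).2
  have o3 := (abs_le.1 (osc_le (C := fun r => 2 / 3 * (r ^ 3 / (1 + r ^ 6))) R_mono R_nonneg
    ht n k 3 θ (s := 0.9887) (b := 1 / 3)
    (by norm_num) (by
      rw [s3, abs_neg]
      refine le_trans ?_ (le_abs_self _)
      have h1 := cos_lower (x := 3 * θ / 2) (y := 0.15) (by linarith) (by linarith) (by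
        linarith [pi_gt_three])
      exact c15.trans h1) (R_le _ hr0.le hr1))).1
  have o5 := (abs_le.1 (osc_le (C := cE 5 4) (fun x y a b c => cE_mono (by norm_num) a b c)
    (fun x a b => cE_nonneg (by norm_num) a b) ht n k 5 θ (s := 0.9689) (b := 2 / 35)
    (by norm_num) (by
      rw [s5]
      refine le_trans ?_ (le_abs_self _)
      have h1 := cos_lower (x := 5 * θ / 2) (y := 0.25) (by linarith) (by linarith) (by
        linarith [pi_gt_three])
      exact c25.trans h1) (by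
        refine (cE_mono (by norm_num) hr0.le hr1 le_rfl).trans ?_
        refine (cE54 zero_le_one le_rfl).trans ?_
        norm_num))).2
  -- parameters
  obtain ⟨ν, hν⟩ : ∃ ν : ℝ, ν = n * t := ⟨_, rfl⟩
  obtain ⟨K, hK⟩ : ∃ K : ℝ, K = k * t := ⟨_, rfl⟩
  have hν0 : 0 ≤ ν := by rw [hν]; positivity
  have hK0 : 0 < K := by rw [hK]; positivity
  have hνK : 2 * ν ≤ K := by rw [hν, hK]; nlinarith
  have hK1 : K ≤ 1 := by rw [hK]; exact hkt
  have hsum : t * (k * n + k * (k + 1) / 2) = k * ν + k * K / 2 + K / 2 := by rw [hν, hK]; ring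
  rw [hsum] at hline
  have hsg := sgbound hk hnk ht hkt
  rw [← hK] at hsg
  have hX : log ((cosh t + cos θ) / (cosh t + 1)) ≤ 0 := by
    refine log_nonpos (X_pos ht θ).le ?_
    have h1 : 0 < cosh t + 1 := by have := cosh_pos t; linarith
    rw [div_le_one h1]
    linarith [cos_le_one θ]
  have hXc : (((k + 1) / 2 - (n + 1) / 2 : ℕ) : ℝ) / 2 * log ((cosh t + cos θ) / (cosh t + 1)) ≤ 0 :=
    mul_nonpos_of_nonneg_of_nonpos (by positivity) hX
  have hJ := J2_sum (n := n) (k := k) ht θ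
  have hl3 := n3
  have hsθ := sin_lower hk h6 h10
  have hs2θ := sin2_lower hk h6 h10
  have hr2 : rr n t 0 ^ 2 ≤ exp (-(2 * ν)) := by rw [hν]; exact rr_sq ht
  by_cases hc : K ≤ 3 / 4
  · -- case 1
    obtain ⟨y, hyd⟩ : ∃ y : ℝ, y = 1 - 1.407 * ν := ⟨_, rfl⟩
    have hy : rr n t 0 ^ 2 ≤ y := by
      refine hr2.trans ((exp_chord (a := 3 / 4) (by norm_num) exp75 (by positivity)
        (by linarith)).trans ?_)
      rw [hyd]; norm_num; linarith
    have hy1 : y ≤ 1 := by rw [hyd]; norm_num; linarith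
    have hy0 : 0.47237 ≤ y := by rw [hyd]; norm_num; linarith
    have hy4 : rr n t 0 ^ 4 ≤ 1.47237 * y - 0.47237 := by
      have h1 : rr n t 0 ^ 4 = (rr n t 0 ^ 2) ^ 2 := by ring
      have h2 := sq_chord (by positivity) hy hy0 hy1
      rw [h1]
      exact h2.trans (le_of_eq (by norm_num))
    have o2 := (abs_le.1 (osc_le (C := cE 5 1) (fun x y a b c => cE_mono (by norm_num) a b c)
      (fun x a b => cE_nonneg (by norm_num) a b) ht n k 2 θ (s := 0.99985 * (6 / k)) (b := y / 2)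
      (by positivity) (by
        rw [s2, abs_neg]
        exact hsθ.trans (le_abs_self _)) ((cE51 hr0.le hr1).trans (by linarith)))).2
    have o4 := (abs_le.1 (osc_le (C := cE 5 3) (fun x y a b c => cE_mono (by norm_num) a b c)
      (fun x a b => cE_nonneg (by norm_num) a b) ht n k 4 θ (s := 0.9983 * (12 / k))
      (b := (1.47237 * y - 0.47237) / 4)
      (by positivity) (by
        rw [s4]
        exact hs2θ.trans (le_abs_self _)) ((cE53 hr0.le hr1).trans (by linarith)))).2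
    have e2 : y / 2 / (0.99985 * (6 / k)) ≤ k * (0.08335 * y) := e2_aux hkp (by linarith)
    have e4 : (1.47237 * y - 0.47237) / 4 / (0.9983 * (12 / k)) ≤
        k * (0.02087 * (1.47237 * y - 0.47237)) := e4_aux hkp (by norm_num at hy0 ⊢; linarith)
    obtain ⟨A, hA⟩ : ∃ A : ℝ, A = 0.2905 - 0.2315 * ν - 0.11575 * K - 0.08335 * y -
      0.02087 * (1.47237 * y - 0.47237) := ⟨_, rfl⟩
    have hkA' : k * A = k * 0.2905 - 0.2315 * (k * ν + k * K / 2) - k * (0.08335 * y) -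
        k * (0.02087 * (1.47237 * y - 0.47237)) := by rw [hA]; ring
    have hB : (((k + 1) / 2 - (n + 1) / 2 : ℕ) : ℝ) / 2 * log ((cosh t + cos θ) / (cosh t + 1)) +
        1 / 2 * log (PP n k t θ / PP n k t 0) ≤ -(k * A) + 0.11575 * K + 1.78804 :=
      collectA1 hXc hJ hline hl3 o1 (o2.trans e2) o3 (o4.trans e4) o5 hkA'
    rcases le_total K 0.7 with h7 | h7
    · exact sig_rho_le hpar (by omega) (by omega) ht (by linarith) hB (hsg.1 h7)
        (finA1 hνK hc hyd hA (kA_le hk') (Or.inl ⟨h7, rfl⟩))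
    · exact sig_rho_le hpar (by omega) (by omega) ht (by linarith) hB (hsg.2 h7).1
        (finA1 hνK hc hyd hA (kA_le hk') (Or.inr rfl))
  · -- case 2
    have hc' : 3 / 4 ≤ K := (not_le.1 hc).le
    have h4n : 4 * n < k := by
      rcases hex with h | h
      · exact h
      · exact absurd (by rw [hK]; exact h) hc
    have hn4 : (4 : ℝ) * n < k := by exact_mod_cast h4n
    have hνK4 : 4 * ν ≤ K := by rw [hν, hK]; nlinarith
    obtain ⟨y, hyd⟩ : ∃ y : ℝ, y = 1 - 1.5735 * ν := ⟨_, rfl⟩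
    have hy : rr n t 0 ^ 2 ≤ y := by
      refine hr2.trans ((exp_chord (a := 1 / 2) (by norm_num) exp50 (by positivity)
        (by linarith)).trans ?_)
      rw [hyd]; norm_num; linarith
    have hy1 : y ≤ 1 := by rw [hyd]; norm_num; linarith
    have hy0 : 0.6066 ≤ y := by rw [hyd]; norm_num; linarith
    have hy4 : rr n t 0 ^ 4 ≤ 1.6066 * y - 0.6066 := by
      have h1 : rr n t 0 ^ 4 = (rr n t 0 ^ 2) ^ 2 := by ring
      have h2 := sq_chord (by positivity) hy hy0 hy1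
      rw [h1]
      exact h2.trans (le_of_eq (by norm_num))
    have hsin : 0 < sin θ := by
      have : 0 < 0.99985 * (6 / (k : ℝ)) := by positivity
      linarith
    have o2 := osc_two (C := cE 5 1) (fun x y a b c => cE_mono (by norm_num) a b c)
      (fun x a b => cE_nonneg (by norm_num) a b) ht n k θ hsin
    have href := refined hk h4n h6 h10
    have e2 : cE 5 1 (rr n t 0) * ((1 - sin ((2 * n + 1) * θ)) / (2 * sin θ)) ≤
        k * (0.05635 * y) + 0.1128 := by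
      have g1 : cE 5 1 (rr n t 0) ≤ y / 2 := (cE51 hr0.le hr1).trans (by linarith)
      have g0 : 0 ≤ cE 5 1 (rr n t 0) := cE_nonneg (by norm_num) hr0.le hr1
      have g2 : cE 5 1 (rr n t 0) * ((1 - sin ((2 * n + 1) * θ)) / (2 * sin θ)) ≤
          y / 2 * (0.1127 * (k + 2)) := by
        refine mul_le_mul g1 href ?_ (by linarith)
        have := sin_le_one ((2 * (n : ℝ) + 1) * θ)
        exact div_nonneg (by linarith) (by positivity)
      refine g2.trans ?_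
      have : y / 2 * (0.1127 * (k + 2)) = k * (0.05635 * y) + 0.1127 * y := by ring
      rw [this]
      linarith
    have o4 := (abs_le.1 (osc_le (C := cE 5 3) (fun x y a b c => cE_mono (by norm_num) a b c)
      (fun x a b => cE_nonneg (by norm_num) a b) ht n k 4 θ (s := 0.9983 * (12 / k))
      (b := (1.6066 * y - 0.6066) / 4)
      (by positivity) (by
        rw [s4]
        exact hs2θ.trans (le_abs_self _)) ((cE53 hr0.le hr1).trans (by linarith)))).2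
    have e4 : (1.6066 * y - 0.6066) / 4 / (0.9983 * (12 / k)) ≤
        k * (0.02087 * (1.6066 * y - 0.6066)) := e4_aux hkp (by norm_num at hy0 ⊢; linarith)
    obtain ⟨A, hA⟩ : ∃ A : ℝ, A = 0.2905 - 0.2315 * ν - 0.11575 * K - 0.05635 * y -
      0.02087 * (1.6066 * y - 0.6066) := ⟨_, rfl⟩
    have hkA' : k * A = k * 0.2905 - 0.2315 * (k * ν + k * K / 2) - k * (0.05635 * y) -
        k * (0.02087 * (1.6066 * y - 0.6066)) := by rw [hA]; ring
    have hB : (((k + 1) / 2 - (n + 1) / 2 : ℕ) : ℝ) / 2 * log ((cosh t + cos θ) / (cosh t + 1)) +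
        1 / 2 * log (PP n k t θ / PP n k t 0) ≤ -(k * A) + 0.11575 * K + 0.1128 + 1.78804 :=
      collectA2 hXc hJ hline hl3 o1 (o2.trans e2) o3 (o4.trans e4) o5 hkA'
    exact sig_rho_le hpar (by omega) (by omega) ht (by linarith) hB
      (hsg.2 (by norm_num at hc' ⊢; linarith)).2
      (finA2 hνK4 hK1 hyd hA (kA_le hk'))

end Pool.Agent.SignedQ.FarC
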