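import Pool.Agent.Lib.MP_cf17a0_co.S1.InDef

/-! # INTER (k t ≤ 1): T1, the structure of the ratio (helper97) -/

namespace Pool.Agent.SignedQ.An.In

open Real Finset

/-- `T1a`. -/
theorem rr_even {v : ℕ} (h : Even v) (hv : 1 ≤ v) {t : ℝ} (ht : 0 < t) (θ : ℝ) :
    rr v t θ = 1 + sin (v * θ / 2) ^ 2 / sinh (v * t / 2) ^ 2 := by
  have hv' : (1 : ℝ) ≤ v := by exact_mod_cast hv
  have hs : 0 < sinh ((v : ℝ) * t / 2) := sinh_pos_iff.2 (by positivity)
  unfold rr
  rw [fac_even h, fac_zero_even h, add_div, div_self (by positivity)]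

/-- `T1b`. -/
theorem rr_odd {v : ℕ} (h : Odd v) (t θ : ℝ) :
    rr v t θ = 1 - sin (v * θ / 2) ^ 2 / cosh (v * t / 2) ^ 2 := by
  have hc : 0 < cosh ((v : ℝ) * t / 2) := cosh_pos _
  unfold rr
  rw [fac_odd h, fac_zero_odd h, sub_div, div_self (by positivity)]

/-- `T1c`. -/
theorem rr_odd_le_one {v : ℕ} (h : Odd v) (t θ : ℝ) : rr v t θ ≤ 1 := by
  rw [rr_odd h]
  have : 0 ≤ sin (v * θ / 2) ^ 2 / cosh (v * t / 2) ^ 2 := by positivity
  linarith

/-- `T1d`. -/
theorem rr_pos {v : ℕ} (hv : 1 ≤ v) {t : ℝ} (ht : 0 < t) (θ : ℝ) : 0 < rr v t θ :=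
  div_pos (fac_pos hv ht θ) (fac_pos hv ht 0)

/-- The denominators. -/
theorem den_odd (K : ℕ) {t : ℝ} (ht : 0 < t) (θ : ℝ) :
    rr 1 t θ ^ (K + 1) / ∏ v ∈ range (2 * K + 1), rr (v + 1) t θ = ∏ i ∈ Icc 1 K, PP i t θ := by
  have h : ∀ v : ℕ, rr (v + 1) t θ ≠ 0 := fun v => (rr_pos (by omega) ht θ).ne'
  induction K with
  | zero => simp [div_self (h 0)]
  | succ K ih =>
    rw [show 2 * (K + 1) + 1 = 2 * K + 1 + 1 + 1 by ring, prod_range_succ, prod_range_succ,
      prod_Icc_succ_top (by omega), ← ih, pow_succ]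
    unfold PP
    rw [show 2 * K + 1 + 1 = 2 * (K + 1) by ring, show 2 * (K + 1) + 1 = 2 * (K + 1) + 1 by rfl,
      mul_assoc, div_mul_div_comm]

/-- The numerators, `n` even. -/
theorem num_even {n a : ℕ} (hn : Even n) (K : ℕ) (t θ : ℝ) (ha : Odd a) (ht : 0 < t) :
    ∏ v ∈ range (2 * K + 1), rr (a * (n + v + 1)) t θ ≤
      (∏ i ∈ Icc 1 K, (rr (a * (n + 2 * i)) t θ *
        if 2 ≤ i then rr (a * (n + 2 * i - 1)) t θ else 1)) *
        (if 1 ≤ K then rr (a * (n + 2 * K + 1)) t θ else 1) := by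
  induction K with
  | zero =>
    simp only [mul_zero, zero_add, prod_range_one, add_zero]
    have := rr_odd_le_one (v := a * (n + 1)) (ha.mul hn.add_one) t θ
    simpa using this
  | succ K ih =>
    rw [show 2 * (K + 1) + 1 = 2 * K + 1 + 1 + 1 by ring, prod_range_succ, prod_range_succ,
      prod_Icc_succ_top (by omega), if_pos (show 1 ≤ K + 1 by omega)]
    have p1 := rr_pos (v := a * (n + (2 * K + 1) + 1)) (Nat.mul_pos ha.pos (by omega)) ht θ
    have p2 := rr_pos (v := a * (n + (2 * K + 1 + 1) + 1)) (Nat.mul_pos ha.pos (by omega)) ht θ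
    have h := mul_le_mul_of_nonneg_right (mul_le_mul_of_nonneg_right ih p1.le) p2.le
    refine h.trans (le_of_eq ?_)
    rw [show n + 2 * (K + 1) - 1 = n + 2 * K + 1 by omega,
      show n + (2 * K + 1) + 1 = n + 2 * (K + 1) by ring,
      show n + (2 * K + 1 + 1) + 1 = n + 2 * (K + 1) + 1 by ring]
    by_cases hK : 1 ≤ K
    · rw [if_pos hK, if_pos (show 2 ≤ K + 1 by omega)]; ring
    · rw [if_neg hK, if_neg (show ¬ 2 ≤ K + 1 by omega)]; ring

/-- The numerators, `n` odd (`m = n - 1`). -/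
theorem num_odd {m a : ℕ} (K : ℕ) (t θ : ℝ) :
    ∏ v ∈ range (2 * K), rr (a * (m + 1 + v + 1)) t θ =
      (∏ i ∈ Icc 1 K, (rr (a * (m + 2 * i)) t θ *
        if 2 ≤ i then rr (a * (m + 2 * i - 1)) t θ else 1)) *
        (if 1 ≤ K then rr (a * (m + 2 * K + 1)) t θ else 1) := by
  induction K with
  | zero => simp
  | succ K ih =>
    rw [show 2 * (K + 1) = 2 * K + 1 + 1 by ring, prod_range_succ, prod_range_succ,
      prod_Icc_succ_top (by omega), if_pos (show 1 ≤ K + 1 by omega), ih,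
      show m + 2 * (K + 1) - 1 = m + 2 * K + 1 by omega,
      show m + 1 + 2 * K + 1 = m + 2 * (K + 1) by ring,
      show m + 1 + (2 * K + 1) + 1 = m + 2 * (K + 1) + 1 by ring,
      show m + (2 * K + 1 + 1) + 1 = m + 2 * (K + 1) + 1 by ring]
    by_cases hK : 1 ≤ K
    · rw [if_pos hK, if_pos (show 2 ≤ K + 1 by omega)]; ring
    · rw [if_neg hK, if_neg (show ¬ 2 ≤ K + 1 by omega)]; ring

/-- The ratio of the products, factor by factor. -/
theorem GG_ratio {n k a : ℕ} (ha : 1 ≤ a) {t : ℝ} (ht : 0 < t) (θ : ℝ) :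
    GG n k a t θ / GG n k a t 0 = rr 1 t θ ^ ((k + 1) / 2) *
      ((∏ v ∈ range k, rr (a * (n + v + 1)) t θ) / ∏ v ∈ range k, rr (v + 1) t θ) := by
  unfold GG
  rw [mul_div_mul_comm, ← div_pow, ← prod_div_distrib, ← prod_div_distrib]
  unfold rr
  congr 1
  refine prod_congr rfl fun v _ => ?_
  have h1 := fac_pos (v := a * (n + v + 1)) (Nat.mul_pos ha (by omega)) ht 0
  have h2 := fac_pos (v := v + 1) (by omega) ht θ
  have h3 := fac_pos (v := v + 1) (by omega) ht 0
  field_simp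

/-- `T1`: structure.  `m = 2 * (n / 2)` (`m = n`, `n` even; `m = n - 1`, `n` odd); the even numerator
paired with `i` is `a (m + 2 i)`, the odd one `a (m + 2 i - 1)` (for `n` odd this exists for `2 ≤ i`
only). -/
theorem structure_le {n k a : ℕ} (h : Even (n * k)) (ha : Odd a) (hk : 2 ≤ k) {t : ℝ} (ht : 0 < t)
    (θ : ℝ) : GG n k a t θ / GG n k a t 0 ≤
      (∏ i ∈ Icc 1 ((k - 1) / 2), (PP i t θ * (rr (a * (2 * (n / 2) + 2 * i)) t θ *
        if 2 ≤ i then rr (a * (2 * (n / 2) + 2 * i - 1)) t θ else 1))) *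
      (if Even k then rr (a * (2 * (n / 2) + k)) t θ / rr k t θ else 1) := by
  obtain ⟨K, hK⟩ : ∃ K, K = (k - 1) / 2 := ⟨_, rfl⟩
  rw [← hK, prod_mul_distrib, GG_ratio ha.pos ht, ← den_odd K ht θ]
  have hden : ∀ j : ℕ, 0 < ∏ v ∈ range j, rr (v + 1) t θ := fun j =>
    prod_pos fun v _ => rr_pos (by omega) ht θ
  have h1 := rr_pos (v := 1) le_rfl ht θ
  have hn1 : 0 ≤ ∏ i ∈ Icc 1 K, (rr (a * (2 * (n / 2) + 2 * i)) t θ *
        if 2 ≤ i then rr (a * (2 * (n / 2) + 2 * i - 1)) t θ else 1) := by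
    refine prod_nonneg fun i hi => ?_
    have hi' := mem_Icc.1 hi
    refine mul_nonneg (rr_pos (Nat.mul_pos ha.pos (by omega)) ht θ).le ?_
    split_ifs with h2
    · exact (rr_pos (Nat.mul_pos ha.pos (by omega)) ht θ).le
    · exact zero_le_one
  have hlast : ∀ j : ℕ, Even j → (if 1 ≤ K then rr (a * (j + 2 * K + 1)) t θ else 1) ≤ 1 ∧
      0 ≤ (if 1 ≤ K then rr (a * (j + 2 * K + 1)) t θ else 1) := by
    intro j hj
    split_ifs with h2
    · exact ⟨rr_odd_le_one (ha.mul (by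
        rcases hj with ⟨j', rfl⟩
        exact ⟨j' + K, by ring⟩)) t θ, (rr_pos (Nat.mul_pos ha.pos (by omega)) ht θ).le⟩
    · exact ⟨le_rfl, zero_le_one⟩
  rcases Nat.even_or_odd k with hke | hko
  · -- `k = 2 K + 2`
    have hk2 : k = 2 * K + 1 + 1 := by
      rcases hke with ⟨j, rfl⟩
      omega
    have e2 : (k + 1) / 2 = K + 1 := by omega
    rw [if_pos hke, e2]
    rcases Nat.even_or_odd n with hn | hn
    · have em : 2 * (n / 2) = n := by
        rcases hn with ⟨j, rfl⟩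
        omega
      rw [em] at hn1 ⊢
      have h3 := num_even hn K t θ ha ht
      have h4 := hlast n hn
      have h5 : ∏ v ∈ range (2 * K + 1), rr (a * (n + v + 1)) t θ ≤
          ∏ i ∈ Icc 1 K, (rr (a * (n + 2 * i)) t θ *
            if 2 ≤ i then rr (a * (n + 2 * i - 1)) t θ else 1) :=
        h3.trans (mul_le_of_le_one_right hn1 h4.1)
      have e3 : ∏ v ∈ range k, rr (v + 1) t θ = (∏ v ∈ range (2 * K + 1), rr (v + 1) t θ) *
          rr k t θ := by
        rw [hk2, prod_range_succ]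
      have e4 : ∏ v ∈ range k, rr (a * (n + v + 1)) t θ =
          (∏ v ∈ range (2 * K + 1), rr (a * (n + v + 1)) t θ) * rr (a * (n + k)) t θ := by
        rw [hk2, prod_range_succ, show n + (2 * K + 1) + 1 = n + (2 * K + 1 + 1) by ring]
      rw [e3, e4]
      have hkp := rr_pos (v := k) (by omega) ht θ
      have hnp := rr_pos (v := a * (n + k)) (Nat.mul_pos ha.pos (by omega)) ht θ
      have hd := hden (2 * K + 1)
      have hX : 0 ≤ rr 1 t θ ^ (K + 1) / (∏ v ∈ range (2 * K + 1), rr (v + 1) t θ) *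
          (rr (a * (n + k)) t θ / rr k t θ) := by positivity
      calc rr 1 t θ ^ (K + 1) * ((∏ v ∈ range (2 * K + 1), rr (a * (n + v + 1)) t θ) *
            rr (a * (n + k)) t θ / ((∏ v ∈ range (2 * K + 1), rr (v + 1) t θ) * rr k t θ))
          = (rr 1 t θ ^ (K + 1) / (∏ v ∈ range (2 * K + 1), rr (v + 1) t θ) *
              (rr (a * (n + k)) t θ / rr k t θ)) *
              ∏ v ∈ range (2 * K + 1), rr (a * (n + v + 1)) t θ := by
            field_simp
        _ ≤ _ := mul_le_mul_of_nonneg_left h5 hX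
        _ = _ := by ring
    · obtain ⟨j, hj⟩ := hn
      have em : 2 * (n / 2) = 2 * j := by omega
      have en : n = 2 * j + 1 := hj
      rw [em] at hn1 ⊢
      have h3 := num_odd (m := 2 * j) (a := a) K t θ
      have h4 := hlast (2 * j) ⟨j, by ring⟩
      have e3 : ∏ v ∈ range k, rr (v + 1) t θ = (∏ v ∈ range (2 * K + 1), rr (v + 1) t θ) *
          rr k t θ := by
        rw [hk2, prod_range_succ]
      have e4 : ∏ v ∈ range k, rr (a * (n + v + 1)) t θ =
          (∏ v ∈ range (2 * K), rr (a * (2 * j + 1 + v + 1)) t θ) * rr (a * (2 * j + k)) t θ *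
            rr (a * (2 * j + k + 1)) t θ := by
        rw [hk2, prod_range_succ, prod_range_succ, en,
          show 2 * j + 1 + 2 * K + 1 = 2 * j + (2 * K + 1 + 1) by ring,
          show 2 * j + 1 + (2 * K + 1) + 1 = 2 * j + (2 * K + 1 + 1) + 1 by ring]
      have h6 : rr (a * (2 * j + k + 1)) t θ ≤ 1 :=
        rr_odd_le_one (ha.mul (by
          rcases hke with ⟨i, rfl⟩
          exact ⟨j + i, by ring⟩)) t θ
      have h6p := rr_pos (v := a * (2 * j + k + 1)) (Nat.mul_pos ha.pos (by omega)) ht θ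
      have hnp := rr_pos (v := a * (2 * j + k)) (Nat.mul_pos ha.pos (by omega)) ht θ
      have h5 : (∏ v ∈ range (2 * K), rr (a * (2 * j + 1 + v + 1)) t θ) *
          rr (a * (2 * j + k)) t θ * rr (a * (2 * j + k + 1)) t θ ≤
          (∏ i ∈ Icc 1 K, (rr (a * (2 * j + 2 * i)) t θ *
            if 2 ≤ i then rr (a * (2 * j + 2 * i - 1)) t θ else 1)) *
          rr (a * (2 * j + k)) t θ := by
        rw [h3]
        have h7 := mul_le_mul_of_nonneg_right (mul_le_of_le_one_right hn1 h4.1) hnp.le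
        refine (mul_le_of_le_one_right (mul_nonneg (mul_nonneg hn1 h4.2) hnp.le) h6).trans h7
      rw [e3, e4]
      have hkp := rr_pos (v := k) (by omega) ht θ
      have hd := hden (2 * K + 1)
      have hX : 0 ≤ rr 1 t θ ^ (K + 1) / (∏ v ∈ range (2 * K + 1), rr (v + 1) t θ) *
          (1 / rr k t θ) := by positivity
      calc rr 1 t θ ^ (K + 1) * ((∏ v ∈ range (2 * K), rr (a * (2 * j + 1 + v + 1)) t θ) *
            rr (a * (2 * j + k)) t θ * rr (a * (2 * j + k + 1)) t θ /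
            ((∏ v ∈ range (2 * K + 1), rr (v + 1) t θ) * rr k t θ))
          = (rr 1 t θ ^ (K + 1) / (∏ v ∈ range (2 * K + 1), rr (v + 1) t θ) *
              (1 / rr k t θ)) *
              ((∏ v ∈ range (2 * K), rr (a * (2 * j + 1 + v + 1)) t θ) *
            rr (a * (2 * j + k)) t θ * rr (a * (2 * j + k + 1)) t θ) := by
            field_simp
        _ ≤ _ := mul_le_mul_of_nonneg_left h5 hX
        _ = _ := by ring
  · -- `k = 2 K + 1`
    have hk2 : k = 2 * K + 1 := by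
      rcases hko with ⟨j, rfl⟩
      omega
    have hn : Even n := by
      rcases Nat.even_mul.1 h with h' | h'
      · exact h'
      · exact absurd h' (Nat.not_even_iff_odd.2 hko)
    have em : 2 * (n / 2) = n := by
      rcases hn with ⟨j, rfl⟩
      omega
    have e2 : (k + 1) / 2 = K + 1 := by omega
    rw [if_neg (Nat.not_even_iff_odd.2 hko), e2, mul_one]
    rw [em] at hn1 ⊢
    have h3 := num_even hn K t θ ha ht
    have h4 := hlast n hn
    have h5 : ∏ v ∈ range (2 * K + 1), rr (a * (n + v + 1)) t θ ≤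
        ∏ i ∈ Icc 1 K, (rr (a * (n + 2 * i)) t θ *
          if 2 ≤ i then rr (a * (n + 2 * i - 1)) t θ else 1) :=
      h3.trans (mul_le_of_le_one_right hn1 h4.1)
    rw [hk2]
    have hd := hden (2 * K + 1)
    have hX : 0 ≤ rr 1 t θ ^ (K + 1) / (∏ v ∈ range (2 * K + 1), rr (v + 1) t θ) := by positivity
    calc rr 1 t θ ^ (K + 1) * ((∏ v ∈ range (2 * K + 1), rr (a * (n + v + 1)) t θ) /
          (∏ v ∈ range (2 * K + 1), rr (v + 1) t θ))
        = (rr 1 t θ ^ (K + 1) / (∏ v ∈ range (2 * K + 1), rr (v + 1) t θ)) *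
            ∏ v ∈ range (2 * K + 1), rr (a * (n + v + 1)) t θ := by
          field_simp
      _ ≤ _ := mul_le_mul_of_nonneg_left h5 hX

end Pool.Agent.SignedQ.An.In
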