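import Pool.Agent.Lib.MP_cf17a0_co.S1.InChk
import Pool.Agent.Lib.MP_cf17a0_co.Mg.G058

/-! # INTER (k t ≤ 1): T6b, numerical functions (helper37) -/

namespace Pool.Agent.SignedQ.An.In

open Real Finset

/-! ### tools -/

theorem mono6 {f f' : ℝ → ℝ} {x y : ℝ} (hxy : x ≤ y)
    (hd : ∀ z ∈ Set.Icc x y, HasDerivAt f (f' z) z) (hn : ∀ z ∈ Set.Icc x y, 0 ≤ f' z) :
    f x ≤ f y :=
  (monotoneOn_of_deriv_nonneg (convex_Icc x y)
    (fun z hz => (hd z hz).continuousAt.continuousWithinAt)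
    (fun z hz => (hd z (interior_subset hz)).differentiableAt.differentiableWithinAt)
    (fun z hz => by
      rw [(hd z (interior_subset hz)).deriv]
      exact hn z (interior_subset hz))) (Set.left_mem_Icc.2 hxy) (Set.right_mem_Icc.2 hxy) hxy

theorem nonneg6 {f f' : ℝ → ℝ} {b : ℝ} (hd : ∀ z, HasDerivAt f (f' z) z) (h0 : 0 ≤ f 0)
    (hn : ∀ z, 0 ≤ z → z ≤ b → 0 ≤ f' z) {x : ℝ} (hx : 0 ≤ x) (hb : x ≤ b) : 0 ≤ f x :=
  h0.trans (mono6 hx (fun z _ => hd z) (fun z hz => hn z hz.1 (hz.2.trans hb)))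

theorem cos2' (x : ℝ) : 1 - x ^ 2 / 2 ≤ cos x := one_sub_sq_div_two_le_cos

theorem sin3' {x : ℝ} (hx : 0 ≤ x) : x - x ^ 3 / 6 ≤ sin x := by
  have := nonneg6 (f := fun x => sin x - (x - x ^ 3 / 6)) (f' := fun x => cos x - (1 - x ^ 2 / 2))
    (b := x) (fun z => by
      have := (hasDerivAt_sin z).sub ((hasDerivAt_id z).sub ((hasDerivAt_pow 3 z).div_const 6))
      refine this.congr_deriv ?_
      push_cast
      ring) (by simp) (fun z _ _ => by linarith [cos2' z]) hx le_rfl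
  linarith

theorem cos4' {x : ℝ} (hx : 0 ≤ x) : cos x ≤ 1 - x ^ 2 / 2 + x ^ 4 / 24 := by
  have := nonneg6 (f := fun x => (1 - x ^ 2 / 2 + x ^ 4 / 24) - cos x)
    (f' := fun x => sin x - (x - x ^ 3 / 6)) (b := x)
    (fun z => by
      have := (((hasDerivAt_const z (1 : ℝ)).sub ((hasDerivAt_pow 2 z).div_const 2)).add
        ((hasDerivAt_pow 4 z).div_const 24)).sub (hasDerivAt_cos z)
      refine this.congr_deriv ?_
      push_cast
      ring) (by simp) (fun z hz _ => by linarith [sin3' hz]) hx le_rfl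
  linarith

theorem sin5' {x : ℝ} (hx : 0 ≤ x) : sin x ≤ x - x ^ 3 / 6 + x ^ 5 / 120 := by
  have := nonneg6 (f := fun x => (x - x ^ 3 / 6 + x ^ 5 / 120) - sin x)
    (f' := fun x => (1 - x ^ 2 / 2 + x ^ 4 / 24) - cos x) (b := x)
    (fun z => by
      have := (((hasDerivAt_id z).sub ((hasDerivAt_pow 3 z).div_const 6)).add
        ((hasDerivAt_pow 5 z).div_const 120)).sub (hasDerivAt_sin z)
      refine this.congr_deriv ?_
      push_cast
      ring) (by simp) (fun z hz _ => by linarith [cos4' hz]) hx le_rfl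
  linarith

theorem cos6' {x : ℝ} (hx : 0 ≤ x) : 1 - x ^ 2 / 2 + x ^ 4 / 24 - x ^ 6 / 720 ≤ cos x := by
  have := nonneg6 (f := fun x => cos x - (1 - x ^ 2 / 2 + x ^ 4 / 24 - x ^ 6 / 720))
    (f' := fun x => (x - x ^ 3 / 6 + x ^ 5 / 120) - sin x) (b := x)
    (fun z => by
      have := (hasDerivAt_cos z).sub ((((hasDerivAt_const z (1 : ℝ)).sub
        ((hasDerivAt_pow 2 z).div_const 2)).add ((hasDerivAt_pow 4 z).div_const 24)).sub
        ((hasDerivAt_pow 6 z).div_const 720))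
      refine this.congr_deriv ?_
      push_cast
      ring) (by simp) (fun z hz _ => by linarith [sin5' hz]) hx le_rfl
  linarith

theorem sin7' {x : ℝ} (hx : 0 ≤ x) : x - x ^ 3 / 6 + x ^ 5 / 120 - x ^ 7 / 5040 ≤ sin x := by
  have := nonneg6 (f := fun x => sin x - (x - x ^ 3 / 6 + x ^ 5 / 120 - x ^ 7 / 5040))
    (f' := fun x => cos x - (1 - x ^ 2 / 2 + x ^ 4 / 24 - x ^ 6 / 720)) (b := x)
    (fun z => by
      have := (hasDerivAt_sin z).sub ((((hasDerivAt_id z).sub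
        ((hasDerivAt_pow 3 z).div_const 6)).add ((hasDerivAt_pow 5 z).div_const 120)).sub
        ((hasDerivAt_pow 7 z).div_const 5040))
      refine this.congr_deriv ?_
      push_cast
      ring) (by simp) (fun z hz _ => by linarith [cos6' hz]) hx le_rfl
  linarith

theorem P7_le {z : ℚ} (hz : 0 ≤ z) : (P7 z : ℝ) ≤ sin (z : ℝ) := by
  have h := sin7' (x := (z : ℝ)) (by exact_mod_cast hz)
  unfold P7
  push_cast
  exact h

/-! ### sinh -/

theorem cosh_le_M {x : ℝ} (h0 : 0 ≤ x) (h1 : x ≤ 1) : cosh x ≤ 1.5431 := by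
  have h : cosh x ≤ cosh 1 := cosh_le_cosh.2 (by rw [abs_of_nonneg h0, abs_one]; exact h1)
  have h2 : cosh (1 : ℝ) ≤ 1.5431 := by
    rw [cosh_eq]
    have e1 := exp_one_lt_d9
    have e2 : exp (-1 : ℝ) ≤ 0.3679 := by
      rw [exp_neg]
      have e3 := exp_one_gt_d9
      rw [inv_le_comm₀ (exp_pos _) (by norm_num)]
      norm_num at e3 ⊢
      linarith
    linarith
  linarith

theorem sinh9 {x : ℝ} (h0 : 0 ≤ x) (h1 : x ≤ 1) :
    sinh x ≤ x + x ^ 3 / 6 + x ^ 5 / 120 + x ^ 7 / 5040 + 1.5431 * (x ^ 9 / 362880) := by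
  have s1 : ∀ x : ℝ, 0 ≤ x → x ≤ 1 → sinh x ≤ 1.5431 * x := by
    intro x h0 h1
    have := nonneg6 (f := fun x => 1.5431 * x - sinh x) (f' := fun x => 1.5431 * 1 - cosh x)
      (b := 1) (fun z => ((hasDerivAt_id z).const_mul 1.5431).sub (hasDerivAt_sinh z)) (by simp)
      (fun z hz hz1 => by linarith [cosh_le_M hz hz1]) h0 h1
    linarith
  have c2 : ∀ x : ℝ, 0 ≤ x → x ≤ 1 → cosh x ≤ 1 + 1.5431 * (x ^ 2 / 2) := by
    intro x h0 h1
    have := nonneg6 (f := fun x => (1 + 1.5431 * (x ^ 2 / 2)) - cosh x)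
      (f' := fun x => 1.5431 * x - sinh x)
      (b := 1) (fun z => by
        refine (((hasDerivAt_const z (1 : ℝ)).add
          (((hasDerivAt_pow 2 z).div_const 2).const_mul 1.5431)).sub
          (hasDerivAt_cosh z)).congr_deriv ?_
        push_cast
        ring) (by simp)
      (fun z hz hz1 => by linarith [s1 z hz hz1]) h0 h1
    linarith
  have s3 : ∀ x : ℝ, 0 ≤ x → x ≤ 1 → sinh x ≤ x + 1.5431 * (x ^ 3 / 6) := by
    intro x h0 h1
    have := nonneg6 (f := fun x => (x + 1.5431 * (x ^ 3 / 6)) - sinh x)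
      (f' := fun x => (1 + 1.5431 * (x ^ 2 / 2)) - cosh x)
      (b := 1) (fun z => by
        refine (((hasDerivAt_id z).add
          (((hasDerivAt_pow 3 z).div_const 6).const_mul 1.5431)).sub
          (hasDerivAt_sinh z)).congr_deriv ?_
        push_cast
        ring) (by simp)
      (fun z hz hz1 => by linarith [c2 z hz hz1]) h0 h1
    linarith
  have c4 : ∀ x : ℝ, 0 ≤ x → x ≤ 1 → cosh x ≤ 1 + x ^ 2 / 2 + 1.5431 * (x ^ 4 / 24) := by
    intro x h0 h1
    have := nonneg6 (f := fun x => (1 + x ^ 2 / 2 + 1.5431 * (x ^ 4 / 24)) - cosh x)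
      (f' := fun x => (x + 1.5431 * (x ^ 3 / 6)) - sinh x)
      (b := 1) (fun z => by
        refine ((((hasDerivAt_const z (1 : ℝ)).add ((hasDerivAt_pow 2 z).div_const 2)).add
          (((hasDerivAt_pow 4 z).div_const 24).const_mul 1.5431)).sub
          (hasDerivAt_cosh z)).congr_deriv ?_
        push_cast
        ring) (by simp)
      (fun z hz hz1 => by linarith [s3 z hz hz1]) h0 h1
    linarith
  have s5 : ∀ x : ℝ, 0 ≤ x → x ≤ 1 → sinh x ≤ x + x ^ 3 / 6 + 1.5431 * (x ^ 5 / 120) := by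
    intro x h0 h1
    have := nonneg6 (f := fun x => (x + x ^ 3 / 6 + 1.5431 * (x ^ 5 / 120)) - sinh x)
      (f' := fun x => (1 + x ^ 2 / 2 + 1.5431 * (x ^ 4 / 24)) - cosh x)
      (b := 1) (fun z => by
        refine ((((hasDerivAt_id z).add ((hasDerivAt_pow 3 z).div_const 6)).add
          (((hasDerivAt_pow 5 z).div_const 120).const_mul 1.5431)).sub
          (hasDerivAt_sinh z)).congr_deriv ?_
        push_cast
        ring) (by simp)
      (fun z hz hz1 => by linarith [c4 z hz hz1]) h0 h1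
    linarith
  have c6 : ∀ x : ℝ, 0 ≤ x → x ≤ 1 →
      cosh x ≤ 1 + x ^ 2 / 2 + x ^ 4 / 24 + 1.5431 * (x ^ 6 / 720) := by
    intro x h0 h1
    have := nonneg6 (f := fun x => (1 + x ^ 2 / 2 + x ^ 4 / 24 + 1.5431 * (x ^ 6 / 720)) - cosh x)
      (f' := fun x => (x + x ^ 3 / 6 + 1.5431 * (x ^ 5 / 120)) - sinh x)
      (b := 1) (fun z => by
        refine (((((hasDerivAt_const z (1 : ℝ)).add ((hasDerivAt_pow 2 z).div_const 2)).add
          ((hasDerivAt_pow 4 z).div_const 24)).add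
          (((hasDerivAt_pow 6 z).div_const 720).const_mul 1.5431)).sub
          (hasDerivAt_cosh z)).congr_deriv ?_
        push_cast
        ring) (by simp)
      (fun z hz hz1 => by linarith [s5 z hz hz1]) h0 h1
    linarith
  have s7 : ∀ x : ℝ, 0 ≤ x → x ≤ 1 →
      sinh x ≤ x + x ^ 3 / 6 + x ^ 5 / 120 + 1.5431 * (x ^ 7 / 5040) := by
    intro x h0 h1
    have := nonneg6 (f := fun x => (x + x ^ 3 / 6 + x ^ 5 / 120 + 1.5431 * (x ^ 7 / 5040)) - sinh x)
      (f' := fun x => (1 + x ^ 2 / 2 + x ^ 4 / 24 + 1.5431 * (x ^ 6 / 720)) - cosh x)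
      (b := 1) (fun z => by
        refine (((((hasDerivAt_id z).add ((hasDerivAt_pow 3 z).div_const 6)).add
          ((hasDerivAt_pow 5 z).div_const 120)).add
          (((hasDerivAt_pow 7 z).div_const 5040).const_mul 1.5431)).sub
          (hasDerivAt_sinh z)).congr_deriv ?_
        push_cast
        ring) (by simp)
      (fun z hz hz1 => by linarith [c6 z hz hz1]) h0 h1
    linarith
  have c8 : ∀ x : ℝ, 0 ≤ x → x ≤ 1 →
      cosh x ≤ 1 + x ^ 2 / 2 + x ^ 4 / 24 + x ^ 6 / 720 + 1.5431 * (x ^ 8 / 40320) := by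
    intro x h0 h1
    have := nonneg6 (f := fun x =>
        (1 + x ^ 2 / 2 + x ^ 4 / 24 + x ^ 6 / 720 + 1.5431 * (x ^ 8 / 40320)) - cosh x)
      (f' := fun x => (x + x ^ 3 / 6 + x ^ 5 / 120 + 1.5431 * (x ^ 7 / 5040)) - sinh x)
      (b := 1) (fun z => by
        refine ((((((hasDerivAt_const z (1 : ℝ)).add ((hasDerivAt_pow 2 z).div_const 2)).add
          ((hasDerivAt_pow 4 z).div_const 24)).add ((hasDerivAt_pow 6 z).div_const 720)).add
          (((hasDerivAt_pow 8 z).div_const 40320).const_mul 1.5431)).sub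
          (hasDerivAt_cosh z)).congr_deriv ?_
        push_cast
        ring) (by simp)
      (fun z hz hz1 => by linarith [s7 z hz hz1]) h0 h1
    linarith
  have := nonneg6 (f := fun x =>
      (x + x ^ 3 / 6 + x ^ 5 / 120 + x ^ 7 / 5040 + 1.5431 * (x ^ 9 / 362880)) - sinh x)
    (f' := fun x =>
      (1 + x ^ 2 / 2 + x ^ 4 / 24 + x ^ 6 / 720 + 1.5431 * (x ^ 8 / 40320)) - cosh x)
    (b := 1) (fun z => by
      refine ((((((hasDerivAt_id z).add ((hasDerivAt_pow 3 z).div_const 6)).add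
        ((hasDerivAt_pow 5 z).div_const 120)).add ((hasDerivAt_pow 7 z).div_const 5040)).add
        (((hasDerivAt_pow 9 z).div_const 362880).const_mul 1.5431)).sub
        (hasDerivAt_sinh z)).congr_deriv ?_
      push_cast
      ring) (by simp)
    (fun z hz hz1 => by linarith [c8 z hz hz1]) h0 h1
  linarith

theorem sinh_sq_le {x : ℝ} (h0 : 0 ≤ x) (h1 : x ≤ 1) : sinh x ^ 2 ≤ x ^ 2 + 953 / 2500 * x ^ 4 := by
  have h := sinh9 h0 h1
  have hs : 0 ≤ sinh x := sinh_nonneg_iff.2 h0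
  have hu : x ^ 2 ≤ 1 := by nlinarith
  have hu0 : 0 ≤ x ^ 2 := sq_nonneg x
  have h4 : (x ^ 2) ^ 2 ≤ x ^ 2 := by nlinarith
  have h6 : (x ^ 2) ^ 3 ≤ x ^ 2 := by nlinarith [sq_nonneg (x ^ 2)]
  have h8 : (x ^ 2) ^ 4 ≤ x ^ 2 := by nlinarith [sq_nonneg (x ^ 2), sq_nonneg ((x ^ 2) ^ 2)]
  have h5 : sinh x ≤ x * (1 + 0.175203 * x ^ 2) := by
    have e : x + x ^ 3 / 6 + x ^ 5 / 120 + x ^ 7 / 5040 + 1.5431 * (x ^ 9 / 362880) =
        x * (1 + x ^ 2 / 6 + (x ^ 2) ^ 2 / 120 + (x ^ 2) ^ 3 / 5040 +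
          1.5431 * ((x ^ 2) ^ 4 / 362880)) := by ring
    rw [e] at h
    refine h.trans (mul_le_mul_of_nonneg_left ?_ h0)
    linarith
  calc sinh x ^ 2 ≤ (x * (1 + 0.175203 * x ^ 2)) ^ 2 := pow_le_pow_left₀ hs h5 2
    _ = x ^ 2 * (1 + 2 * 0.175203 * x ^ 2 + 0.175203 ^ 2 * (x ^ 2) ^ 2) := by ring
    _ ≤ x ^ 2 * (1 + 953 / 2500 * x ^ 2) := by
        refine mul_le_mul_of_nonneg_left ?_ hu0
        norm_num
        nlinarith
    _ = _ := by ring

theorem sinh_sq_ge {x : ℝ} (_h0 : 0 ≤ x) : x ^ 2 + x ^ 4 / 3 + 2 * x ^ 6 / 45 ≤ sinh x ^ 2 := by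
  have h := cosh_lower (2 * x)
  rw [cosh_two_mul, cosh_sq] at h
  nlinarith

/-- `((cosh v + δ)/sinh v)² - 1 = (1-δ)²/sinh² v + δ/sinh² (v/2)`. -/
theorem N_HH {v δ : ℝ} (hv : 0 < v) (hδ : 0 ≤ δ) (_hδ1 : δ ≤ 1) :
    ((cosh v + δ) / sinh v) ^ 2 ≤ 1 + ((1 - δ) ^ 2 / (1 + v ^ 2 / 3 + 2 * (v ^ 2) ^ 2 / 45) +
      4 * δ / (1 + v ^ 2 / 12 + (v ^ 2) ^ 2 / 360)) / v ^ 2 := by
  have hs : 0 < sinh v := sinh_pos_iff.2 hv
  have hs2 : 0 < sinh (v / 2) := sinh_pos_iff.2 (by linarith)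
  have hc2 : 0 < cosh (v / 2) := cosh_pos _
  have hs1 : sinh v = 2 * sinh (v / 2) * cosh (v / 2) := by
    have := Real.sinh_two_mul (v / 2)
    rwa [show 2 * (v / 2) = v by ring] at this
  have hcc : cosh v = 2 * cosh (v / 2) ^ 2 - 1 := by
    have := Real.cosh_two_mul (v / 2)
    rw [show 2 * (v / 2) = v by ring, Real.sinh_sq] at this
    linarith
  have e : ((cosh v + δ) / sinh v) ^ 2 = 1 + ((1 - δ) ^ 2 / sinh v ^ 2 + δ / sinh (v / 2) ^ 2) := by
    have hq := Real.cosh_sq v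
    have e1 : δ / sinh (v / 2) ^ 2 = δ * (2 * (1 + cosh v)) / sinh v ^ 2 := by
      rw [hcc, hs1]
      field_simp
      ring
    rw [e1, div_pow]
    field_simp
    nlinarith
  rw [e]
  have v2 : 0 < v ^ 2 := by positivity
  have g1 : v ^ 2 * (1 + v ^ 2 / 3 + 2 * (v ^ 2) ^ 2 / 45) ≤ sinh v ^ 2 := by
    have := sinh_sq_ge hv.le
    refine le_trans (le_of_eq ?_) this
    ring
  have g2 : v ^ 2 / 4 * (1 + v ^ 2 / 12 + (v ^ 2) ^ 2 / 360) ≤ sinh (v / 2) ^ 2 := by
    have := sinh_sq_ge (x := v / 2) (by linarith)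
    refine le_trans (le_of_eq ?_) this
    ring
  have k1 : (1 - δ) ^ 2 / sinh v ^ 2 ≤
      (1 - δ) ^ 2 / (v ^ 2 * (1 + v ^ 2 / 3 + 2 * (v ^ 2) ^ 2 / 45)) :=
    div_le_div_of_nonneg_left (sq_nonneg _) (by positivity) g1
  have k2 : δ / sinh (v / 2) ^ 2 ≤ δ / (v ^ 2 / 4 * (1 + v ^ 2 / 12 + (v ^ 2) ^ 2 / 360)) :=
    div_le_div_of_nonneg_left hδ (by positivity) g2
  have e3 : ((1 - δ) ^ 2 / (1 + v ^ 2 / 3 + 2 * (v ^ 2) ^ 2 / 45) +
      4 * δ / (1 + v ^ 2 / 12 + (v ^ 2) ^ 2 / 360)) / v ^ 2 =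
      (1 - δ) ^ 2 / (v ^ 2 * (1 + v ^ 2 / 3 + 2 * (v ^ 2) ^ 2 / 45)) +
      δ / (v ^ 2 / 4 * (1 + v ^ 2 / 12 + (v ^ 2) ^ 2 / 360)) := by
    field_simp
  rw [e3]
  linarith

theorem coth_anti {v v' : ℝ} (hv : 0 < v) (hvv : v ≤ v') : cosh v' / sinh v' ≤ cosh v / sinh v := by
  have h := N_anti hv hvv le_rfl zero_le_one
  simpa using h

theorem div_sinh_anti {v v' : ℝ} (hv : 0 < v) (hvv : v ≤ v') : v' / sinh v' ≤ v / sinh v := by
  have hv' : 0 < v' := hv.trans_le hvv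
  have hs : 0 < sinh v := sinh_pos_iff.2 hv
  have hs' : 0 < sinh v' := sinh_pos_iff.2 hv'
  rw [div_le_div_iff₀ hs' hs]
  -- `v' sinh v ≤ v sinh v'`
  have hconv : v * sinh v' - v' * sinh v ≥ 0 := by
    have key : ∀ z ∈ Set.Icc v v', HasDerivAt (fun z => v * sinh z - z * sinh v)
        (v * cosh z - sinh v) z := by
      intro z _
      have := ((hasDerivAt_sinh z).const_mul v).sub ((hasDerivAt_id z).mul_const (sinh v))
      refine this.congr_deriv ?_
      ring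
    have hnn : ∀ z ∈ Set.Icc v v', 0 ≤ v * cosh z - sinh v := by
      intro z hz
      have h1 : cosh v ≤ cosh z := cosh_le_cosh.2 (by
        rw [abs_of_pos hv, abs_of_pos (hv.trans_le hz.1)]; exact hz.1)
      have h2 : sinh v ≤ v * cosh v := by
        have := nonneg6 (f := fun x => x * cosh x - sinh x) (f' := fun x => x * sinh x) (b := v)
          (fun z => by
            have := ((hasDerivAt_id z).mul (hasDerivAt_cosh z)).sub (hasDerivAt_sinh z)
            refine this.congr_deriv ?_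
            simp) (by simp) (fun z hz _ => mul_nonneg hz (sinh_nonneg_iff.2 hz)) hv.le le_rfl
        linarith
      nlinarith
    have := mono6 hvv key hnn
    linarith
  linarith

theorem N_anti2 {v v' lam : ℝ} (hv : 0 < v) (hvv : v ≤ v') (hl : 0 ≤ lam) :
    (cosh v' + min 1 (lam * v')) / sinh v' ≤ (cosh v + min 1 (lam * v)) / sinh v := by
  have hv' : 0 < v' := hv.trans_le hvv
  have hs : 0 < sinh v := sinh_pos_iff.2 hv
  have hs' : 0 < sinh v' := sinh_pos_iff.2 hv'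
  rw [add_div, add_div]
  refine add_le_add (coth_anti hv hvv) ?_
  have h1 : 1 / sinh v' ≤ 1 / sinh v :=
    one_div_le_one_div_of_le hs (sinh_le_sinh.2 hvv)
  have h2 : lam * v' / sinh v' ≤ lam * v / sinh v := by
    rw [mul_div_assoc, mul_div_assoc]
    exact mul_le_mul_of_nonneg_left (div_sinh_anti hv hvv) hl
  rcases le_total 1 (lam * v) with h | h
  · rw [min_eq_left h]
    exact (div_le_div_of_nonneg_right (min_le_left _ _) hs'.le).trans h1
  · rw [min_eq_right h]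
    exact (div_le_div_of_nonneg_right (min_le_right _ _) hs'.le).trans h2

/-! ### sin -/

theorem slo_le {q : ℚ} (h0 : 0 ≤ q) (h6 : q ≤ 6) : (slo q : ℝ) ≤ |sin (q : ℝ)| := by
  have pi1 := Real.pi_gt_d6
  have pi2 := Real.pi_lt_d6
  have q0 : (0 : ℝ) ≤ q := by exact_mod_cast h0
  have q6 : (q : ℝ) ≤ 6 := by exact_mod_cast h6
  unfold slo
  split_ifs with c1 c2 c3 c4 c5 c6
  · exact (P7_le h0).trans (le_abs_self _)
  · simp
  · have c2' : (158 / 100 : ℝ) ≤ q := by
      have := not_lt.1 c2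
      have h : ((158 / 100 : ℚ) : ℝ) ≤ q := by exact_mod_cast this
      push_cast at h
      exact h
    have c3' : (q : ℝ) ≤ 314159 / 100000 := by
      have h : (q : ℝ) ≤ ((314159 / 100000 : ℚ) : ℝ) := by exact_mod_cast c3
      push_cast at h
      exact h
    have h := P7_le (z := 314159 / 100000 - q) (by linarith)
    push_cast at h
    refine h.trans ?_
    refine le_trans ?_ (le_abs_self _)
    rw [← Real.sin_pi_sub (q : ℝ)]
    exact Real.sin_le_sin_of_le_of_le_pi_div_two (by linarith) (by linarith) (by linarith)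
  · simp
  · have c4' : (31416 / 10000 : ℝ) ≤ q := by
      have := not_lt.1 c4
      have h : ((31416 / 10000 : ℚ) : ℝ) ≤ q := by exact_mod_cast this
      push_cast at h
      exact h
    have c5' : (q : ℝ) ≤ 471 / 100 := by
      have h : (q : ℝ) ≤ ((471 / 100 : ℚ) : ℝ) := by exact_mod_cast c5
      push_cast at h
      exact h
    have h := P7_le (z := q - 31416 / 10000) (by linarith [not_lt.1 c4])
    push_cast at h
    refine h.trans ?_
    refine le_trans ?_ (neg_le_abs _)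
    rw [← Real.sin_sub_pi (q : ℝ)]
    exact Real.sin_le_sin_of_le_of_le_pi_div_two (by linarith) (by linarith) (by linarith)
  · simp
  · have c6' : (472 / 100 : ℝ) ≤ q := by
      have := not_lt.1 c6
      have h : ((472 / 100 : ℚ) : ℝ) ≤ q := by exact_mod_cast this
      push_cast at h
      exact h
    have h := P7_le (z := 628318 / 100000 - q) (by linarith)
    push_cast at h
    refine h.trans ?_
    refine le_trans ?_ (neg_le_abs _)
    rw [← Real.sin_neg, ← Real.sin_add_two_pi (-(q : ℝ))]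
    exact Real.sin_le_sin_of_le_of_le_pi_div_two (by linarith) (by linarith) (by linarith)

theorem pblk_nonneg (a b : ℚ) : 0 ≤ pblk a b := by
  unfold pblk
  split_ifs
  · positivity
  · exact le_rfl

theorem pblk_le {a b : ℚ} {y : ℝ} (h0 : 0 ≤ a) (h6 : b ≤ 6) (hay : (a : ℝ) ≤ y) (hyb : y ≤ b) :
    (pblk a b : ℝ) ≤ sin y ^ 2 := by
  have pi1 := Real.pi_gt_d6
  have pi2 := Real.pi_lt_d6
  have hab : (a : ℝ) ≤ b := hay.trans hyb
  have a0 : (0 : ℝ) ≤ a := by exact_mod_cast h0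
  have b6 : (b : ℝ) ≤ 6 := by exact_mod_cast h6
  have hab' : a ≤ b := by exact_mod_cast hab
  have sa := slo_le h0 (hab'.trans h6)
  have sb := slo_le (h0.trans hab') h6
  unfold pblk
  split_ifs with c
  · have key : min |sin (a : ℝ)| |sin (b : ℝ)| ≤ |sin y| := by
      rcases c with c | c
      · have cb : (b : ℝ) ≤ π := by
          have h : (b : ℝ) ≤ ((314159 / 100000 : ℚ) : ℝ) := by exact_mod_cast c
          push_cast at h
          linarith
        have h1 := strictConcaveOn_sin_Icc.concaveOn.min_le_of_mem_Icc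
          (x := (a : ℝ)) (y := (b : ℝ)) (z := y) ⟨a0, hab.trans cb⟩ ⟨a0.trans hab, cb⟩ ⟨hay, hyb⟩
        rw [abs_of_nonneg (sin_nonneg_of_nonneg_of_le_pi a0 (hab.trans cb)),
          abs_of_nonneg (sin_nonneg_of_nonneg_of_le_pi (a0.trans hab) cb)]
        exact h1.trans (le_abs_self _)
      · have ca : π ≤ (a : ℝ) := by
          have h : ((31416 / 10000 : ℚ) : ℝ) ≤ a := by exact_mod_cast c
          push_cast at h
          linarith
        have h1 := strictConcaveOn_sin_Icc.concaveOn.min_le_of_mem_Icc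
          (x := (a : ℝ) - π) (y := (b : ℝ) - π) (z := y - π) ⟨by linarith, by linarith⟩
          ⟨by linarith, by linarith⟩ ⟨by linarith, by linarith⟩
        rw [← abs_neg (sin (a : ℝ)), ← abs_neg (sin (b : ℝ)), ← abs_neg (sin y),
          ← Real.sin_sub_pi, ← Real.sin_sub_pi, ← Real.sin_sub_pi,
          abs_of_nonneg (sin_nonneg_of_nonneg_of_le_pi (x := (a : ℝ) - π) (by linarith)
            (by linarith)),
          abs_of_nonneg (sin_nonneg_of_nonneg_of_le_pi (x := (b : ℝ) - π) (by linarith)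
            (by linarith))]
        exact h1.trans (le_abs_self _)
    push_cast
    have h2 : max 0 (min (slo a : ℝ) (slo b : ℝ)) ≤ |sin y| :=
      max_le (abs_nonneg _) ((min_le_min sa sb).trans key)
    calc (max 0 (min (slo a : ℝ) (slo b : ℝ))) ^ 2 ≤ |sin y| ^ 2 :=
          pow_le_pow_left₀ (le_max_left _ _) h2 2
      _ = sin y ^ 2 := sq_abs _
  · push_cast
    positivity

/-! ### exp -/

theorem UU_ge : exp (1 / 100) ≤ (UU : ℝ) := by
  refine (exp_bound' (by norm_num) (by norm_num) (n := 4) (by norm_num)).trans ?_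
  unfold UU
  norm_num [Finset.sum_range_succ, Nat.factorial]

theorem LL_le : (LL : ℝ) ≤ exp (1 / 100) := by
  refine le_trans ?_ (sum_le_exp_of_nonneg (by norm_num) 4)
  unfold LL
  norm_num [Finset.sum_range_succ, Nat.factorial]

theorem LT_le : (LT : ℝ) ≤ exp (1 / 10) := by
  refine le_trans ?_ (sum_le_exp_of_nonneg (by norm_num) 4)
  unfold LT
  norm_num [Finset.sum_range_succ, Nat.factorial]

/-- Soundness of `expOK`. -/
theorem expOK_sound {E : ℚ} {n : ℤ} (h : expOK E n = true) : (E : ℝ) ≤ exp (-(n : ℝ) / 100) := by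
  unfold expOK at h
  split_ifs at h with hn
  · obtain ⟨N, rfl⟩ : ∃ N : ℕ, n = N := ⟨n.toNat, (Int.toNat_of_nonneg hn).symm⟩
    have h1 : E * UU ^ N ≤ 1 := by simpa using h
    have h2 : (E : ℝ) * (UU : ℝ) ^ N ≤ 1 := by exact_mod_cast h1
    rcases le_or_gt (E : ℝ) 0 with hE | hE
    · exact hE.trans (exp_pos _).le
    have h3 : exp (1 / 100) ^ N ≤ (UU : ℝ) ^ N := pow_le_pow_left₀ (exp_pos _).le UU_ge N
    have h4 : (E : ℝ) * exp (1 / 100) ^ N ≤ 1 := (mul_le_mul_of_nonneg_left h3 hE.le).trans h2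
    have h5 : exp (-((N : ℤ) : ℝ) / 100) * exp (1 / 100) ^ N = 1 := by
      rw [← exp_nat_mul, ← exp_add]
      rw [show -((N : ℤ) : ℝ) / 100 + N * (1 / 100) = 0 by push_cast; ring, exp_zero]
    have h6 : 0 < exp (1 / 100) ^ N := by positivity
    exact le_of_mul_le_mul_right (h4.trans h5.ge) h6
  · obtain ⟨N, hN⟩ : ∃ N : ℕ, -n = N := ⟨(-n).toNat, (Int.toNat_of_nonneg (by omega)).symm⟩
    have h1 : E ≤ LL ^ N := by
      rw [hN] at h
      simpa using h
    have h2 : (E : ℝ) ≤ (LL : ℝ) ^ N := by exact_mod_cast h1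
    have hL : (0 : ℝ) ≤ LL := by unfold LL; norm_num
    have h3 : (LL : ℝ) ^ N ≤ exp (1 / 100) ^ N := pow_le_pow_left₀ hL LL_le N
    refine (h2.trans h3).trans (le_of_eq ?_)
    rw [← exp_nat_mul]
    congr 1
    have : -(n : ℝ) = N := by exact_mod_cast hN
    rw [this]
    ring

end Pool.Agent.SignedQ.An.In
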