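import Pool.Agent.Lib.MP_cf17a0_co.S1.In1
import Pool.Agent.Lib.MP_cf17a0_co.Mg.G058
import Pool.Agent.Lib.MP_cf17a0_co.S1.In6b

/-! # INTER (k t ≤ 1): T6d, bounds of the factors (helper78) -/

namespace Pool.Agent.SignedQ.An.In

open Real Finset

/-- `b_i = a (m + 2i) ≥ 2 i α~`, `m = 2 (n / 2)`. -/
theorem b_ge {n k a i : ℕ} (hk : 1 ≤ k) (hik : 2 * i ≤ k) :
    2 * i * alt n k a ≤ (a * (2 * (n / 2) + 2 * i) : ℕ) := by
  have hk0 : (0 : ℝ) < k := by exact_mod_cast hk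
  unfold alt
  rw [mul_div_assoc', div_le_iff₀ hk0]
  have h : 2 * i * (a * (2 * (n / 2) + k)) ≤ a * (2 * (n / 2) + 2 * i) * k := by
    have h1 : 2 * i * (2 * (n / 2)) ≤ k * (2 * (n / 2)) := Nat.mul_le_mul_right _ hik
    have h2 := Nat.mul_le_mul_left a h1
    nlinarith
  exact_mod_cast h

lemma PP_pos {i : ℕ} (hi : 1 ≤ i) {t : ℝ} (ht : 0 < t) (θ : ℝ) : 0 < PP i t θ := by
  unfold PP
  have h1 := In2_rr_pos (v := 1) le_rfl ht θ
  have h2 := In2_rr_pos (v := 2 * i) (by omega) ht θ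
  have h3 := In2_rr_pos (v := 2 * i + 1) (by omega) ht θ
  positivity

theorem ff_pos {n a i : ℕ} (ha : 1 ≤ a) (hi : 1 ≤ i) {t : ℝ} (ht : 0 < t) (θ : ℝ) :
    0 < ff n a i t θ := by
  unfold ff
  apply mul_pos (PP_pos hi ht θ)
  apply mul_pos (In2_rr_pos (Nat.mul_pos ha (by omega)) ht θ)
  split_ifs
  · exact In2_rr_pos (Nat.mul_pos ha (by omega)) ht θ
  · exact one_pos

theorem ff_le_one {n a i : ℕ} (ha : 3 ≤ a) (hao : Odd a) (hi : 1 ≤ i) {t θ : ℝ} (ht : 0 < t)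
    (hθ : 0 < θ) (hi2 : (2 * i + 1) * θ ≤ π / 2) : ff n a i t θ ≤ 1 := by
  have hev : Even (a * (2 * (n / 2) + 2 * i)) := by
    apply Even.mul_left
    rw [← mul_add]
    exact even_two_mul _
  have h6 : 3 * (2 * i) ≤ a * (2 * (n / 2) + 2 * i) := Nat.mul_le_mul ha (by omega)
  have h1 := E0 (i := i) (b := a * (2 * (n / 2) + 2 * i)) hi hev (by omega) ht hθ hi2
  have h2 : (if 2 ≤ i then rr (a * (2 * (n / 2) + 2 * i - 1)) t θ else 1) ≤ 1 := by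
    split_ifs
    · apply rr_odd_le_one
      apply hao.mul
      rw [Nat.odd_iff]
      omega
    · exact le_rfl
  have h3 := PP_pos hi ht θ
  have h4 : 0 < rr (a * (2 * (n / 2) + 2 * i)) t θ := In2_rr_pos (by omega) ht θ
  unfold ff
  have h5 := mul_le_mul_of_nonneg_left h2 (mul_pos h3 h4).le
  linarith

theorem ff_le_N {n a i : ℕ} (ha : 3 ≤ a) (hao : Odd a) (hi : 2 ≤ i) {t θ : ℝ} (ht : 0 < t)
    (hθ : 0 < θ) (hi2 : (2 * i + 1) * θ ≤ 2 * π) : ff n a i t θ ≤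
      ((cosh ((a * (2 * (n / 2) + 2 * i) : ℕ) * t) + min 1 (a * θ / 2)) /
        sinh ((a * (2 * (n / 2) + 2 * i) : ℕ) * t)) ^ 2 *
      (sinh ((2 * i + 1) * t) ^ 2 / (sinh ((2 * i + 1) * t) ^ 2 + sin ((2 * i + 1) * θ) ^ 2)) := by
  have hev : Even (a * (2 * (n / 2) + 2 * i)) := by
    apply Even.mul_left
    rw [← mul_add]
    exact even_two_mul _
  have h4 : a * 1 < a * (2 * (n / 2) + 2 * i) := Nat.mul_lt_mul_of_pos_left (by omega) (by omega)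
  have h1 := rr_pair_le (b := a * (2 * (n / 2) + 2 * i)) (a := a) hev hao (by omega) ht hθ.le
  have e1 : a * (2 * (n / 2) + 2 * i) - a = a * (2 * (n / 2) + 2 * i - 1) := by
    rw [Nat.mul_sub, mul_one]
  rw [e1] at h1
  have h2 := PP_le (i := i) (by omega) ht hθ hi2
  unfold ff
  rw [if_pos hi]
  have h3 : 0 < rr (a * (2 * (n / 2) + 2 * i)) t θ * rr (a * (2 * (n / 2) + 2 * i - 1)) t θ :=
    mul_pos (In2_rr_pos (by omega) ht θ) (In2_rr_pos (Nat.mul_pos (by omega) (by omega)) ht θ)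
  rw [mul_comm]
  exact mul_le_mul h1 h2 (PP_pos (by omega) ht θ).le (h3.le.trans h1)

theorem leftover6 {k b : ℕ} (hk : Even k) (hb : Even b) (hkb : 3 * k ≤ b) (hk1 : 1 ≤ k) {t θ : ℝ}
    (ht : 0 < t) (hθ : 0 ≤ θ) (hkθ : k * θ ≤ 6) : rr b t θ / rr k t θ ≤ 6 := by
  have hk0 : (1 : ℝ) ≤ k := by exact_mod_cast hk1
  have hkb' : (3 : ℝ) * k ≤ b := by exact_mod_cast hkb
  rcases le_total (k * θ) π with h | h
  · have := leftover hk hb (by omega) hk1 ht hθ h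
    linarith
  · rw [div_le_iff₀ (In2_rr_pos hk1 ht θ), In2_rr_even hk hk1 ht, In2_rr_even hb (by omega) ht]
    have hS : 0 < sinh (k * t / 2) := sinh_pos_iff.2 (by positivity)
    have hb0 : (0 : ℝ) < b := by linarith
    have hSb : 0 < sinh (b * t / 2) := sinh_pos_iff.2 (by positivity)
    have h1 := In2_sinh (r := b / k) (y := k * t / 2)
      (by rw [le_div_iff₀ (by positivity)]; linarith) (by positivity)
    rw [show (b : ℝ) / k * (k * t / 2) = b * t / 2 by field_simp] at h1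
    have h2 : (3 : ℝ) ≤ b / k := by rw [le_div_iff₀ (by positivity)]; linarith
    have h3 : 9 * sinh (k * t / 2) ^ 2 ≤ sinh (b * t / 2) ^ 2 := by
      have h4 : (3 : ℝ) ^ 2 ≤ (b / k) ^ 2 := pow_le_pow_left₀ (by norm_num) h2 2
      have h5 := mul_le_mul_of_nonneg_right h4 (show 0 ≤ sinh (k * t / 2) ^ 2 by positivity)
      linarith
    have h6 : sin (b * θ / 2) ^ 2 / sinh (b * t / 2) ^ 2 ≤ 1 / (9 * sinh (k * t / 2) ^ 2) := by
      rw [div_le_div_iff₀ (by positivity) (by positivity)]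
      have h7 : sin (b * θ / 2) ^ 2 ≤ 1 := sin_sq_le_one _
      have h8 := mul_le_mul h7 h3 (by positivity) zero_le_one
      linarith
    have h9 : 1 / 54 ≤ sin (k * θ / 2) ^ 2 := by
      have hp1 := pi_gt_d2
      have hp2 := pi_lt_d2
      have hp3 := pi_gt_d4
      have h10 : sin (1415 / 10000) ≤ sin (k * θ / 2) := by
        rw [← sin_pi_sub (k * θ / 2)]
        apply sin_le_sin_of_le_of_le_pi_div_two <;> linarith
      have h11 : (1415 / 10000 : ℝ) - (1415 / 10000) ^ 3 / 6 < sin (1415 / 10000) :=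
        sin_gt_sub_cube (by norm_num)
      have h12 : (1 / 54 : ℝ) ≤ ((1415 / 10000 : ℝ) - (1415 / 10000) ^ 3 / 6) ^ 2 := by norm_num
      refine h12.trans (pow_le_pow_left₀ (by norm_num) (h11.le.trans h10) 2)
    have h13 : 6 * (1 / 54 / sinh (k * t / 2) ^ 2) ≤ 6 * (sin (k * θ / 2) ^ 2 /
        sinh (k * t / 2) ^ 2) := by
      apply mul_le_mul_of_nonneg_left _ (by norm_num)
      exact div_le_div_of_nonneg_right h9 (by positivity)
    have h14 : 6 * (1 / 54 / sinh (k * t / 2) ^ 2) = 1 / (9 * sinh (k * t / 2) ^ 2) := by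
      field_simp
      norm_num
    nlinarith

/-- the real form of `HH`. -/
noncomputable def HHr (de u : ℝ) : ℝ :=
  (1 - de) ^ 2 / (1 + u / 3 + 2 * u ^ 2 / 45) + 4 * de / (1 + u / 12 + u ^ 2 / 360)

lemma HH_cast (de u : ℚ) : ((HH de u : ℚ) : ℝ) = HHr de u := by
  unfold HH HHr
  push_cast
  rfl

lemma HHr_nonneg {de u : ℝ} (hd : 0 ≤ de) (hu : 0 ≤ u) : 0 ≤ HHr de u := by
  unfold HHr
  positivity

lemma HHr_anti {de u u' : ℝ} (hd : 0 ≤ de) (hu : 0 ≤ u) (huu : u ≤ u') :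
    HHr de u' ≤ HHr de u := by
  unfold HHr
  have h1 : u ^ 2 ≤ u' ^ 2 := pow_le_pow_left₀ hu huu 2
  apply add_le_add
  · apply div_le_div_of_nonneg_left (sq_nonneg _) (by positivity)
    linarith
  · apply div_le_div_of_nonneg_left (by positivity) (by positivity)
    linarith

/-- Lower bound of `2i/(2i+1)`. -/
lemma fr_le (P : Cell) {i : ℕ} (hi : 2 ≤ i) {θ : ℝ} {x : ℚ} (hx : 0 < x)
    (hth : θ ≤ (P.th : ℝ)) (hxi : (x : ℝ) ≤ (2 * i + 1) * θ) :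
    ((P.fr x : ℚ) : ℝ) ≤ 2 * i / (2 * i + 1) ∧ (2 / 3 : ℝ) ≤ ((P.fr x : ℚ) : ℝ) := by
  have hi0 : (2 : ℝ) ≤ i := by exact_mod_cast hi
  have hx0 : (0 : ℝ) < x := by exact_mod_cast hx
  have e : ((P.fr x : ℚ) : ℝ) = max (2 / 3) (1 - (P.th : ℝ) / x) := by
    unfold Cell.fr
    push_cast
    rfl
  rw [e]
  refine ⟨max_le ?_ ?_, le_max_left _ _⟩
  · rw [div_le_div_iff₀ (by norm_num) (by positivity)]
    linarith
  · rw [sub_le_iff_le_add, ← sub_le_iff_le_add', ]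
    have e2 : (1 : ℝ) - 2 * i / (2 * i + 1) = 1 / (2 * i + 1) := by
      field_simp
      ring
    rw [e2, div_le_div_iff₀ (by positivity) hx0]
    have : (2 * (i : ℝ) + 1) * θ ≤ (2 * i + 1) * P.th :=
      mul_le_mul_of_nonneg_left hth (by positivity)
    linarith

lemma moeb_up {S S' r p : ℝ} (hS : 0 ≤ S) (hSS : S ≤ S') (hrp : r ≤ p) (hp : 0 < S + p) :
    (S + r) / (S + p) ≤ (S' + r) / (S' + p) := by
  rw [div_le_div_iff₀ hp (by linarith)]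
  nlinarith [mul_nonneg (sub_nonneg.2 hSS) (sub_nonneg.2 hrp)]

lemma moeb_down {S S' r p : ℝ} (hSS : S' ≤ S) (hrp : p ≤ r) (hp : 0 < S' + p) :
    (S + r) / (S + p) ≤ (S' + r) / (S' + p) := by
  rw [div_le_div_iff₀ (by linarith) hp]
  nlinarith [mul_nonneg (sub_nonneg.2 hSS) (sub_nonneg.2 hrp)]

/-- `N` with a smaller argument and a larger `δ`. -/
lemma N_step {v v₀ δ de lam : ℝ} (hv0 : 0 < v₀) (hv : v₀ ≤ v) (hlam : 0 ≤ lam)
    (h1 : δ ≤ lam * v) (h2 : min 1 (lam * v₀) ≤ de) :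
    (cosh v + min 1 δ) / sinh v ≤ (cosh v₀ + de) / sinh v₀ := by
  have hs : 0 < sinh v := sinh_pos_iff.2 (hv0.trans_le hv)
  have hs0 : 0 < sinh v₀ := sinh_pos_iff.2 hv0
  calc (cosh v + min 1 δ) / sinh v ≤ (cosh v + min 1 (lam * v)) / sinh v := by
        apply div_le_div_of_nonneg_right _ hs.le
        have := min_le_min_left 1 h1
        linarith
    _ ≤ (cosh v₀ + min 1 (lam * v₀)) / sinh v₀ := N_anti2 hv0 hv hlam
    _ ≤ _ := by
        apply div_le_div_of_nonneg_right _ hs0.le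
        linarith

/-- Type B.  `2i/(2i+1) = 1 - θ/y ≥ fr`; `v₀ = al fr x`, `N_anti2` (`λ v₀ = al θ/2`), `N_HH`,
`x² / (1 + (A x)²/3 + ..) ` decreasing in `x`, and the Moebius form. -/
theorem ff_le_EB (P : Cell) {n k a i : ℕ} (ha : 3 ≤ a) (hao : Odd a) (hi : 2 ≤ i)
    (hik : 2 * i + 1 ≤ k) {t θ : ℝ} (ht : 0 < t) (hθ : 0 < θ) (hkt : k * t ≤ 1)
    (hal : (P.al : ℝ) ≤ alt n k a) (hala : (a : ℝ) ≤ alt n k a) (hal1 : 1 ≤ P.al)
    (hth : θ ≤ (P.th : ℝ)) (h0 : 0 ≤ P.t0) (h1 : P.t0 * θ ≤ t) (h2 : t ≤ P.t1 * θ)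
    {x y : ℚ} (hx : 0 < x) (hy : y ≤ 6) (hpos : 0 < SL (P.t0 * x) + pblk x y)
    (hxi : (x : ℝ) ≤ (2 * i + 1) * θ)
    (hyi : (2 * i + 1) * θ ≤ y) : ff n a i t θ ≤ (P.EB x y : ℝ) := by
  have hi0 : (2 : ℝ) ≤ i := by exact_mod_cast hi
  have hx0 : (0 : ℝ) < x := by exact_mod_cast hx
  have hy6 : (y : ℝ) ≤ 6 := by exact_mod_cast hy
  have hal1' : (1 : ℝ) ≤ P.al := by exact_mod_cast hal1
  have h0' : (0 : ℝ) ≤ P.t0 := by exact_mod_cast h0
  have ht1 : (0 : ℝ) < P.t1 := by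
    by_contra hc
    have := mul_nonpos_of_nonpos_of_nonneg (not_lt.1 hc) hθ.le
    linarith
  obtain ⟨hfr1, hfr2⟩ := fr_le P hi hx hth hxi
  obtain ⟨fr, hfr⟩ : ∃ fr : ℝ, fr = ((P.fr x : ℚ) : ℝ) := ⟨_, rfl⟩
  rw [← hfr] at hfr1 hfr2
  obtain ⟨τ, hτ⟩ : ∃ τ : ℝ, τ = (2 * i + 1) * t := ⟨_, rfl⟩
  have hτ0 : 0 < τ := by rw [hτ]; positivity
  have hτ1 : τ ≤ 1 := by
    have : (2 * (i : ℝ) + 1) ≤ k := by exact_mod_cast hik
    rw [hτ]
    exact (mul_le_mul_of_nonneg_right this ht.le).trans hkt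
  have hτy : τ ≤ P.t1 * y := by
    rw [hτ]
    calc (2 * (i : ℝ) + 1) * t ≤ (2 * i + 1) * (P.t1 * θ) :=
          mul_le_mul_of_nonneg_left h2 (by positivity)
      _ = P.t1 * ((2 * i + 1) * θ) := by ring
      _ ≤ _ := mul_le_mul_of_nonneg_left hyi ht1.le
  have hτx : P.t0 * x ≤ τ := by
    rw [hτ]
    calc (P.t0 : ℝ) * x ≤ P.t0 * ((2 * i + 1) * θ) := mul_le_mul_of_nonneg_left hxi h0'
      _ = (2 * i + 1) * (P.t0 * θ) := by ring
      _ ≤ _ := mul_le_mul_of_nonneg_left h1 (by positivity)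
  -- N
  obtain ⟨v, hv⟩ : ∃ v : ℝ, v = (a * (2 * (n / 2) + 2 * i) : ℕ) * t := ⟨_, rfl⟩
  have hbv : 2 * i * alt n k a * t ≤ v := by
    rw [hv]
    exact mul_le_mul_of_nonneg_right (b_ge (by omega) (by omega)) ht.le
  have halt : 1 ≤ alt n k a := hal1'.trans hal
  obtain ⟨v₀, hv₀⟩ : ∃ v₀ : ℝ, v₀ = P.al * fr * τ := ⟨_, rfl⟩
  have hv00 : 0 < v₀ := by rw [hv₀]; positivity
  have hfrτ : fr * τ ≤ 2 * i * t := by
    have := mul_le_mul_of_nonneg_right hfr1 hτ0.le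
    rw [hτ] at this ⊢
    refine this.trans (le_of_eq ?_)
    field_simp
  have hvv : v₀ ≤ v := by
    refine le_trans ?_ hbv
    rw [hv₀]
    calc P.al * fr * τ = P.al * (fr * τ) := by ring
      _ ≤ alt n k a * (2 * i * t) := mul_le_mul hal hfrτ (by positivity) (by linarith)
      _ = _ := by ring
  obtain ⟨lam, hlam⟩ : ∃ lam : ℝ, lam = θ / (2 * (fr * τ)) := ⟨_, rfl⟩
  have hlam0 : 0 ≤ lam := by rw [hlam]; positivity
  have hfrτ0 : 0 < fr * τ := by positivity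
  have hl1 : a * θ / 2 ≤ lam * v := by
    have e1 : lam * (alt n k a * (fr * τ)) = alt n k a * θ / 2 := by
      rw [hlam]; field_simp
    have e2 : alt n k a * (fr * τ) ≤ v := by
      refine le_trans ?_ hbv
      calc alt n k a * (fr * τ) ≤ alt n k a * (2 * i * t) :=
            mul_le_mul_of_nonneg_left hfrτ (by linarith)
        _ = _ := by ring
    have e3 := mul_le_mul_of_nonneg_left e2 hlam0
    have e4 : a * θ ≤ alt n k a * θ := mul_le_mul_of_nonneg_right hala hθ.le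
    linarith
  obtain ⟨de, hde⟩ : ∃ de : ℝ, de = min (1 : ℝ) ((P.al : ℝ) * P.th / 2) := ⟨_, rfl⟩
  have hde0 : 0 ≤ de := by
    rw [hde]
    have : 0 ≤ (P.th : ℝ) := hθ.le.trans hth
    positivity
  have hde1 : de ≤ 1 := by rw [hde]; exact min_le_left _ _
  have hl2 : min 1 (lam * v₀) ≤ de := by
    have e1 : lam * v₀ = P.al * θ / 2 := by
      rw [hlam, hv₀]; field_simp
    rw [e1, hde]
    apply min_le_min_left
    have := mul_le_mul_of_nonneg_left hth (show (0 : ℝ) ≤ P.al by linarith)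
    linarith
  have hN := N_step hv00 hvv hlam0 hl1 hl2
  have hNpos : 0 ≤ (cosh v + min 1 (a * θ / 2)) / sinh v := by
    have hvp : 0 < v := hv00.trans_le hvv
    have := sinh_pos_iff.2 hvp
    have := cosh_pos v
    positivity
  have hN2 := (pow_le_pow_left₀ hNpos hN 2).trans (N_HH hv00 hde0 hde1)
  -- the factor HH
  obtain ⟨AA, hAA⟩ : ∃ AA : ℝ, AA = P.al * fr := ⟨_, rfl⟩
  have hAA0 : 0 < AA := by rw [hAA]; positivity
  have hv₀' : v₀ = AA * τ := by rw [hv₀, hAA]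
  have hHH : HHr de (v₀ ^ 2) ≤ HHr de ((AA * (P.t0 * x)) ^ 2) := by
    apply HHr_anti hde0 (by positivity)
    rw [hv₀']
    apply pow_le_pow_left₀ (by positivity)
    exact mul_le_mul_of_nonneg_left hτx hAA0.le
  obtain ⟨X, hX⟩ : ∃ X : ℝ, X = min (1 : ℝ) ((P.t1 : ℝ) * y) := ⟨_, rfl⟩
  have hτX : τ ≤ X := by rw [hX]; exact le_min hτ1 hτy
  obtain ⟨r, hr⟩ : ∃ r : ℝ, r = (1 + 953 / 2500 * X ^ 2) * HHr de ((AA * (P.t0 * x)) ^ 2) /
    AA ^ 2 := ⟨_, rfl⟩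
  have hH0 : 0 ≤ HHr de ((AA * (P.t0 * x)) ^ 2) := HHr_nonneg hde0 (by positivity)
  obtain ⟨S, hS⟩ : ∃ S : ℝ, S = sinh τ ^ 2 := ⟨_, rfl⟩
  have hS0 : 0 < S := by
    rw [hS]
    have := sinh_pos_iff.2 hτ0
    positivity
  have hSle := sinh_sq_le hτ0.le hτ1
  have hSge := sinh_sq_ge hτ0.le
  rw [← hS] at hSle hSge
  have hNS : ((cosh v + min 1 (a * θ / 2)) / sinh v) ^ 2 * S ≤ S + r := by
    have e1 := mul_le_mul_of_nonneg_right hN2 hS0.le
    have e2 : ((1 - de) ^ 2 / (1 + v₀ ^ 2 / 3 + 2 * (v₀ ^ 2) ^ 2 / 45) +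
      4 * de / (1 + v₀ ^ 2 / 12 + (v₀ ^ 2) ^ 2 / 360)) = HHr de (v₀ ^ 2) := rfl
    rw [e2] at e1
    refine e1.trans ?_
    have e3 : HHr de (v₀ ^ 2) / v₀ ^ 2 * S ≤ r := by
      have e4 : S ≤ τ ^ 2 * (1 + 953 / 2500 * X ^ 2) := by
        have a1 : τ ^ 2 ≤ X ^ 2 := pow_le_pow_left₀ hτ0.le hτX 2
        have a2 : 1 + 953 / 2500 * τ ^ 2 ≤ 1 + 953 / 2500 * X ^ 2 := by linarith
        have a3 := mul_le_mul_of_nonneg_left a2 (sq_nonneg τ)
        have a4 : τ ^ 2 * (1 + 953 / 2500 * τ ^ 2) = τ ^ 2 + 953 / 2500 * τ ^ 4 := by ring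
        linarith
      calc HHr de (v₀ ^ 2) / v₀ ^ 2 * S ≤ HHr de ((AA * (P.t0 * x)) ^ 2) / v₀ ^ 2 *
            (τ ^ 2 * (1 + 953 / 2500 * X ^ 2)) := by
            apply mul_le_mul (div_le_div_of_nonneg_right hHH (by positivity)) e4 hS0.le
            positivity
        _ = r := by
            rw [hr, hv₀']
            field_simp
    linarith
  -- assemble
  obtain ⟨p, hp⟩ : ∃ p : ℝ, p = ((pblk x y : ℚ) : ℝ) := ⟨_, rfl⟩
  have hp0 : 0 ≤ p := by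
    rw [hp]
    exact_mod_cast pblk_nonneg x y
  have hps : p ≤ sin ((2 * i + 1) * θ) ^ 2 := by
    rw [hp]
    exact pblk_le hx.le hy hxi hyi
  have hpi : (2 * (i : ℝ) + 1) * θ ≤ 2 * π := by
    have := pi_gt_d2
    linarith
  have hff := ff_le_N (n := n) ha hao hi ht hθ hpi
  rw [← hv, ← hτ, ← hS] at hff
  have hff2 : ff n a i t θ ≤ (S + r) / (S + p) := by
    refine hff.trans ?_
    rw [mul_div_assoc']
    have hr0 : 0 ≤ r := by rw [hr]; positivity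
    apply div_le_div₀ (by positivity) hNS (by positivity)
    linarith
  refine hff2.trans ?_
  have eSL : ((SL (P.t0 * x) : ℚ) : ℝ) = (P.t0 * x : ℝ) ^ 2 + (P.t0 * x : ℝ) ^ 4 / 3 := by
    unfold SL
    push_cast
    ring
  have hSL : ((SL (P.t0 * x) : ℚ) : ℝ) ≤ S := by
    rw [eSL]
    have hx1 : 0 ≤ (P.t0 * x : ℝ) := by positivity
    have a1 := pow_le_pow_left₀ hx1 hτx 2
    have a2 := pow_le_pow_left₀ hx1 hτx 4
    have a3 : 0 ≤ τ ^ 6 := by positivity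
    linarith
  have eX : ((min 1 (P.t1 * y) : ℚ) : ℝ) = X := by rw [hX]; push_cast; rfl
  have eSU : ((SU (min 1 (P.t1 * y)) : ℚ) : ℝ) = X ^ 2 + 953 / 2500 * X ^ 4 := by
    rw [← eX]
    unfold SU
    push_cast
    ring
  have hSU : S ≤ ((SU (min 1 (P.t1 * y)) : ℚ) : ℝ) := by
    rw [eSU]
    have a1 := pow_le_pow_left₀ hτ0.le hτX 2
    have a2 := pow_le_pow_left₀ hτ0.le hτX 4
    linarith
  have hSL0 : 0 ≤ ((SL (P.t0 * x) : ℚ) : ℝ) := by
    rw [eSL]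
    positivity
  obtain ⟨rq, hrq⟩ : ∃ rq : ℚ, rq = (1 + 953 / 2500 * (min 1 (P.t1 * y)) ^ 2) *
    HH (min 1 (P.al * P.th / 2)) ((P.al * P.fr x * (P.t0 * x)) ^ 2) / (P.al * P.fr x) ^ 2 :=
      ⟨_, rfl⟩
  have er : (rq : ℝ) = r := by
    rw [hrq, hr, hAA, hfr, hde, ← eX]
    push_cast [HH_cast]
    rfl
  have hEB : P.EB x y = if rq ≤ pblk x y then (SU (min 1 (P.t1 * y)) + rq) /
      (SU (min 1 (P.t1 * y)) + pblk x y) else if 0 < SL (P.t0 * x) + pblk x y then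
      (SL (P.t0 * x) + rq) / (SL (P.t0 * x) + pblk x y) else 1000000 := by
    rw [hrq]
    rfl
  rw [hEB]
  split_ifs with c1
  · push_cast
    rw [er, ← hp]
    have c1' : r ≤ p := by rw [← er, hp]; exact_mod_cast c1
    exact moeb_up hS0.le hSU c1' (by linarith)
  · push_cast
    rw [er, ← hp]
    have c1' : p ≤ r := by
      rw [← er, hp]
      exact_mod_cast (not_le.1 c1).le
    apply moeb_down hSL c1'
    rw [hp]
    exact_mod_cast hpos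

/-- Type A (`t` here is the shifted `t₁`). -/
theorem ff_le_EA (P : Cell) {n k a i : ℕ} (ha : 3 ≤ a) (hao : Odd a) (hi : 2 ≤ i)
    (hik : 2 * i + 1 ≤ k) {t θ : ℝ} (ht : 0 < t) (hθ : 0 < θ)
    (hala : (a : ℝ) ≤ alt n k a) (hg : 0 < P.g) (hgt : P.g * θ / alt n k a ≤ t)
    (hth : θ ≤ (P.th : ℝ)) (h0 : 0 ≤ P.t0) (h1 : P.t0 * θ ≤ t) (h2 : t ≤ P.t1 * θ)
    {x y : ℚ} (hx : 0 < x) (hy : y ≤ 6) (hty : P.t1 * y ≤ 1) (hxi : (x : ℝ) ≤ (2 * i + 1) * θ)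
    (hyi : (2 * i + 1) * θ ≤ y) : ff n a i t θ ≤ (P.EA x y : ℝ) := by
  have hi0 : (2 : ℝ) ≤ i := by exact_mod_cast hi
  have hx0 : (0 : ℝ) < x := by exact_mod_cast hx
  have hy6 : (y : ℝ) ≤ 6 := by exact_mod_cast hy
  have h0' : (0 : ℝ) ≤ P.t0 := by exact_mod_cast h0
  have hg' : (0 : ℝ) < P.g := by exact_mod_cast hg
  have hty' : (P.t1 : ℝ) * y ≤ 1 := by exact_mod_cast hty
  have ha0 : (3 : ℝ) ≤ a := by exact_mod_cast ha
  have ht1 : (0 : ℝ) < P.t1 := by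
    by_contra hc
    have := mul_nonpos_of_nonpos_of_nonneg (not_lt.1 hc) hθ.le
    linarith
  obtain ⟨hfr1, hfr2⟩ := fr_le P hi hx hth hxi
  obtain ⟨fr, hfr⟩ : ∃ fr : ℝ, fr = ((P.fr x : ℚ) : ℝ) := ⟨_, rfl⟩
  rw [← hfr] at hfr1 hfr2
  obtain ⟨τ, hτ⟩ : ∃ τ : ℝ, τ = (2 * i + 1) * t := ⟨_, rfl⟩
  have hτ0 : 0 < τ := by rw [hτ]; positivity
  have hτy : τ ≤ P.t1 * y := by
    rw [hτ]
    calc (2 * (i : ℝ) + 1) * t ≤ (2 * i + 1) * (P.t1 * θ) :=
          mul_le_mul_of_nonneg_left h2 (by positivity)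
      _ = P.t1 * ((2 * i + 1) * θ) := by ring
      _ ≤ _ := mul_le_mul_of_nonneg_left hyi ht1.le
  -- N
  obtain ⟨v, hv⟩ : ∃ v : ℝ, v = (a * (2 * (n / 2) + 2 * i) : ℕ) * t := ⟨_, rfl⟩
  have hbv : 2 * i * alt n k a * t ≤ v := by
    rw [hv]
    exact mul_le_mul_of_nonneg_right (b_ge (by omega) (by omega)) ht.le
  have halt : 0 < alt n k a := by linarith
  have hgt' : P.g * θ ≤ alt n k a * t := by
    rw [div_le_iff₀ halt] at hgt
    linarith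
  obtain ⟨v₁, hv₁⟩ : ∃ v₁ : ℝ, v₁ = P.g * x * fr := ⟨_, rfl⟩
  have hv10 : 0 < v₁ := by rw [hv₁]; positivity
  have hv1le : v₁ ≤ 2 * i * (P.g * θ) := by
    rw [hv₁]
    calc (P.g : ℝ) * x * fr ≤ P.g * ((2 * i + 1) * θ) * (2 * i / (2 * i + 1)) := by
          apply mul_le_mul (mul_le_mul_of_nonneg_left hxi hg'.le) hfr1 (by linarith)
            (by positivity)
      _ = _ := by field_simp
  have hvv : v₁ ≤ v := by
    refine le_trans ?_ hbv
    have := mul_le_mul_of_nonneg_left hgt' (show (0 : ℝ) ≤ 2 * i by positivity)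
    linarith
  obtain ⟨lam, hlam⟩ : ∃ lam : ℝ, lam = θ / (4 * i * t) := ⟨_, rfl⟩
  have hlam0 : 0 ≤ lam := by rw [hlam]; positivity
  have hl1 : a * θ / 2 ≤ lam * v := by
    have e1 : lam * (2 * i * alt n k a * t) = alt n k a * θ / 2 := by
      rw [hlam]; field_simp; ring
    have e3 := mul_le_mul_of_nonneg_left hbv hlam0
    have e4 : a * θ ≤ alt n k a * θ := mul_le_mul_of_nonneg_right hala hθ.le
    linarith
  obtain ⟨de, hde⟩ : ∃ de : ℝ, de = ((if P.t0 = 0 then 1 else min 1 (P.g * P.th / (2 * P.t0)) :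
    ℚ) : ℝ) := ⟨_, rfl⟩
  have hth0 : 0 ≤ (P.th : ℝ) := hθ.le.trans hth
  have hde0 : 0 ≤ de ∧ de ≤ 1 ∧ min 1 (lam * v₁) ≤ de := by
    rw [hde]
    split_ifs with c
    · simp
    · have hc : (0 : ℝ) < P.t0 := by
        have : 0 < P.t0 := lt_of_le_of_ne h0 (Ne.symm c)
        exact_mod_cast this
      push_cast
      refine ⟨by positivity, min_le_left _ _, min_le_min_left _ ?_⟩
      have e1 : lam * v₁ ≤ lam * (2 * i * (P.g * θ)) := mul_le_mul_of_nonneg_left hv1le hlam0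
      have e2 : lam * (2 * i * (P.g * θ)) = P.g * θ * (θ / t) / 2 := by
        rw [hlam]; field_simp; ring
      have e3 : θ / t ≤ 1 / P.t0 := by
        rw [div_le_div_iff₀ ht hc]
        linarith
      have e4 : P.g * θ * (θ / t) ≤ P.g * P.th * (1 / P.t0) := by
        apply mul_le_mul (mul_le_mul_of_nonneg_left hth hg'.le) e3 (by positivity)
          (by positivity)
      have e5 : (P.g : ℝ) * P.th * (1 / P.t0) / 2 = P.g * P.th / (2 * P.t0) := by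
        field_simp
      linarith
  obtain ⟨hde0, hde1, hl2⟩ := hde0
  have hN := N_step hv10 hvv hlam0 hl1 hl2
  have hNpos : 0 ≤ (cosh v + min 1 (a * θ / 2)) / sinh v := by
    have hvp : 0 < v := hv10.trans_le hvv
    have := sinh_pos_iff.2 hvp
    have := cosh_pos v
    positivity
  have hN2 := (pow_le_pow_left₀ hNpos hN 2).trans (N_HH hv10 hde0 hde1)
  have e2 : ((1 - de) ^ 2 / (1 + v₁ ^ 2 / 3 + 2 * (v₁ ^ 2) ^ 2 / 45) +
      4 * de / (1 + v₁ ^ 2 / 12 + (v₁ ^ 2) ^ 2 / 360)) = HHr de (v₁ ^ 2) := rfl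
  rw [e2] at hN2
  have hH0 : 0 ≤ HHr de (v₁ ^ 2) := HHr_nonneg hde0 (by positivity)
  -- assemble
  obtain ⟨S, hS⟩ : ∃ S : ℝ, S = sinh τ ^ 2 := ⟨_, rfl⟩
  have hS0 : 0 < S := by
    rw [hS]
    have := sinh_pos_iff.2 hτ0
    positivity
  have hSle := sinh_sq_le hτ0.le (hτy.trans hty')
  rw [← hS] at hSle
  obtain ⟨p, hp⟩ : ∃ p : ℝ, p = ((pblk x y : ℚ) : ℝ) := ⟨_, rfl⟩
  have hp0 : 0 ≤ p := by
    rw [hp]
    exact_mod_cast pblk_nonneg x y
  have hps : p ≤ sin ((2 * i + 1) * θ) ^ 2 := by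
    rw [hp]
    exact pblk_le hx.le hy hxi hyi
  have hpi : (2 * (i : ℝ) + 1) * θ ≤ 2 * π := by
    have := pi_gt_d2
    linarith
  have hff := ff_le_N (n := n) ha hao hi ht hθ hpi
  rw [← hv, ← hτ, ← hS] at hff
  have eSU : ((SU (P.t1 * y) : ℚ) : ℝ) = (P.t1 * y : ℝ) ^ 2 + 953 / 2500 * (P.t1 * y : ℝ) ^ 4 := by
    unfold SU
    push_cast
    ring
  have hSU : S ≤ ((SU (P.t1 * y) : ℚ) : ℝ) := by
    rw [eSU]
    have a1 := pow_le_pow_left₀ hτ0.le hτy 2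
    have a2 := pow_le_pow_left₀ hτ0.le hτy 4
    linarith
  have hEA : P.EA x y = (1 + HH (if P.t0 = 0 then 1 else min 1 (P.g * P.th / (2 * P.t0)))
      ((P.g * x * P.fr x) ^ 2) / (P.g * x * P.fr x) ^ 2) *
      (SU (P.t1 * y) / (SU (P.t1 * y) + pblk x y)) := rfl
  have hcast : ((P.EA x y : ℚ) : ℝ) = (1 + HHr de (v₁ ^ 2) / v₁ ^ 2) *
      (((SU (P.t1 * y) : ℚ) : ℝ) / (((SU (P.t1 * y) : ℚ) : ℝ) + p)) := by
    rw [hEA, hv₁, hde, hp, hfr]
    push_cast [HH_cast]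
    rfl
  rw [hcast]
  have e6 : S / (S + sin ((2 * i + 1) * θ) ^ 2) ≤ ((SU (P.t1 * y) : ℚ) : ℝ) /
      (((SU (P.t1 * y) : ℚ) : ℝ) + p) := by
    have a1 : S / (S + sin ((2 * i + 1) * θ) ^ 2) ≤ S / (S + p) :=
      div_le_div_of_nonneg_left hS0.le (by positivity) (by linarith)
    have a2 := moeb_up (r := 0) hS0.le hSU hp0 (by positivity)
    rw [add_zero, add_zero] at a2
    exact a1.trans a2
  refine hff.trans ?_
  exact mul_le_mul hN2 e6 (by positivity) (by positivity)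

end Pool.Agent.SignedQ.An.In
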