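import Pool.Agent.Lib.MP_cf17a0_co.S1.In6d

/-! # INTER (k t ≤ 1): absorption of `σ` (helper78) -/

namespace Pool.Agent.SignedQ.An.In

open Real Finset

lemma In6e_sigma_sq {n k a : ℕ} (par : Par n k a) {t : ℝ} (dom : DOM k t) :
    sigma n k a t ^ 2 ≤ 1001 / 1000 * k * (tanh ((a * (n + k) : ℕ) * (t / 2)) / t) ^ 2 := by
  obtain ⟨hnk, hao, ha, -⟩ := id par
  obtain ⟨hk, ht, ht', -, -⟩ := dom
  have hσ0 : 0 ≤ sigma n k a t := Real.sqrt_nonneg _
  have h := pow_le_pow_left₀ hσ0 (PIarc.sigma_le hnk hao ha hk ht ht') 2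
  rw [mul_pow, Real.sq_sqrt (show (0 : ℝ) ≤ 1001 / 1000 * k by positivity)] at h
  exact h

/-- The trivial bound of `σ`. -/
theorem sigma_triv {n k a : ℕ} (par : Par n k a) {t : ℝ} (dom : DOM k t) :
    (sigma n k a t / k) ^ 2 ≤ 1001 / 1000 / (k * t) ^ 2 * k := by
  have h := In6e_sigma_sq par dom
  obtain ⟨hk, ht, -, -, -⟩ := dom
  have hk0 : (0 : ℝ) < k := by
    have : 0 < k := by omega
    exact_mod_cast this
  have h1 := NearPi.tanh_sq_le_one ((a * (n + k) : ℕ) * (t / 2))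
  rw [div_pow, div_le_iff₀ (by positivity)]
  refine h.trans ?_
  rw [div_pow]
  have h2 : 1001 / 1000 / ((k : ℝ) * t) ^ 2 * k * k ^ 2 = 1001 / 1000 * k * (1 / t ^ 2) := by
    field_simp
  rw [h2]
  apply mul_le_mul_of_nonneg_left _ (by positivity)
  exact div_le_div_of_nonneg_right h1 (by positivity)

/-- the ratio of the arguments. -/
lemma In6e_ratio {n k i : ℕ} (hi : 1 ≤ i) (hik : 2 * i + 1 ≤ k) :
    (2 * (i : ℝ) + 1) * (n + k) ≤ 3 / 2 * (k + 1) * (2 * (n / 2) + 2 * i : ℕ) := by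
  obtain ⟨m, hm⟩ : ∃ m, m = n / 2 := ⟨_, rfl⟩
  have h : 2 * ((2 * i + 1) * (n + k)) ≤ 3 * (k + 1) * (2 * (n / 2) + 2 * i) := by
    rw [← hm]
    have h1 : n + k ≤ 2 * m + (k + 1) := by omega
    have h2 : (2 * i + 1) * (n + k) ≤ (2 * i + 1) * (2 * m + (k + 1)) := Nat.mul_le_mul_left _ h1
    have h3 : (2 * i + 1) * (2 * m) ≤ (k + 1) * (2 * m) := Nat.mul_le_mul_right _ (by omega)
    have h4 : (2 * i + 1) * (k + 1) ≤ 3 * i * (k + 1) := Nat.mul_le_mul_right _ (by omega)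
    nlinarith
  have h' : ((2 * ((2 * i + 1) * (n + k)) : ℕ) : ℝ) ≤
      ((3 * (k + 1) * (2 * (n / 2) + 2 * i) : ℕ) : ℝ) := by exact_mod_cast h
  rw [Nat.cast_mul (3 * (k + 1))] at h'
  push_cast at h' ⊢
  linarith

/-- `ff` by `coth²` and `sinh²`. -/
lemma In6e_ff {n a i : ℕ} (ha : 3 ≤ a) (hao : Odd a) (hi : 1 ≤ i) {t θ : ℝ} (ht : 0 < t)
    (hθ : 0 < θ) (hx : (2 * i + 1) * t ≤ 1 / 2) (hy : (2 * i + 1) * θ ≤ 2 * π) {p : ℝ}
    (hp : 0 < p) (hp' : p ≤ sin ((2 * i + 1) * θ) ^ 2) :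
    ff n a i t θ ≤ ((cosh ((a * (2 * (n / 2) + 2 * i) : ℕ) * t) + 1) /
      sinh ((a * (2 * (n / 2) + 2 * i) : ℕ) * t)) ^ 2 *
      (10953 / 10000 * ((2 * i + 1) * t) ^ 2 / p) := by
  have hev : Even (a * (2 * (n / 2) + 2 * i)) := by
    apply Even.mul_left
    rw [← mul_add]
    exact even_two_mul _
  have hb1 : 1 ≤ a * (2 * (n / 2) + 2 * i) := Nat.mul_pos (by omega) (by omega)
  have h1 := rr_even_le (b := a * (2 * (n / 2) + 2 * i)) hev hb1 ht θ
  have h2 : (if 2 ≤ i then rr (a * (2 * (n / 2) + 2 * i - 1)) t θ else 1) ≤ 1 := by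
    split_ifs
    · apply rr_odd_le_one
      apply hao.mul
      rw [Nat.odd_iff]
      omega
    · exact le_rfl
  have h3 := PP_le (i := i) hi ht hθ hy
  have h4 := PP_pos hi ht θ
  have h5 : 0 < rr (a * (2 * (n / 2) + 2 * i)) t θ := In2_rr_pos hb1 ht θ
  have hx0 : 0 < (2 * (i : ℝ) + 1) * t := by positivity
  have h6 := sinh_sq_le hx0.le (by linarith)
  have hS : 0 < sinh ((2 * i + 1) * t) := sinh_pos_iff.2 hx0
  have h7 : PP i t θ ≤ 10953 / 10000 * ((2 * i + 1) * t) ^ 2 / p := by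
    refine h3.trans ?_
    apply div_le_div₀ (by positivity) _ hp
    · have := sq_nonneg (sinh ((2 * (i : ℝ) + 1) * t))
      linarith
    · refine h6.trans ?_
      have h8 : ((2 * (i : ℝ) + 1) * t) ^ 2 ≤ 1 / 4 := by nlinarith
      have h9 : ((2 * (i : ℝ) + 1) * t) ^ 4 = ((2 * (i : ℝ) + 1) * t) ^ 2 *
        ((2 * (i : ℝ) + 1) * t) ^ 2 := by ring
      rw [h9]
      have h10 := mul_le_mul_of_nonneg_left h8 (sq_nonneg ((2 * (i : ℝ) + 1) * t))
      linarith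
  unfold ff
  have h11 : rr (a * (2 * (n / 2) + 2 * i)) t θ *
      (if 2 ≤ i then rr (a * (2 * (n / 2) + 2 * i - 1)) t θ else 1) ≤
      ((cosh ((a * (2 * (n / 2) + 2 * i) : ℕ) * t) + 1) /
      sinh ((a * (2 * (n / 2) + 2 * i) : ℕ) * t)) ^ 2 := by
    refine le_trans ?_ h1
    have := mul_le_mul_of_nonneg_left h2 h5.le
    linarith
  rw [mul_comm]
  exact mul_le_mul h11 h7 h4.le (by positivity)

/-- Absorption of `σ`: `σ ≤ √(1.001k) T/t`, `T = tanh (a(n+k)t/2)`; `rr_b ≤ coth² (v/2)`, `v = b t₁`;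
if `t₁ = t`: `tanh (λ z) coth z ≤ λ`; otherwise `T/t ≤ a(n+k)/2` and `(v/2) coth (v/2) ≤ 1 + v²/12`. -/
theorem absorb {n k a i : ℕ} (par : Par n k a) {t t₁ θ : ℝ} (dom : DOM k t) (hi : 1 ≤ i)
    (hik : 2 * i + 1 ≤ k) (hθ : 0 < θ) (htt : t ≤ t₁)
    (h : t₁ = t ∨ k * alt n k a * t₁ ≤ 3 / 4) (hx : (2 * i + 1) * t₁ ≤ 1 / 2)
    (hy : (2 * i + 1) * θ ≤ 2 * π) {p : ℝ} (hp : 0 < p) (hp' : p ≤ sin ((2 * i + 1) * θ) ^ 2) :
    (sigma n k a t / k) ^ 2 * ff n a i t₁ θ ≤ 3 / p * k := by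
  have hσ := In6e_sigma_sq par dom
  obtain ⟨hnk, hao, ha, -⟩ := id par
  obtain ⟨hk, ht, ht', -, -⟩ := dom
  have ht1 : 0 < t₁ := ht.trans_le htt
  have hff := In6e_ff (n := n) ha hao hi ht1 hθ hx hy hp hp'
  have hk26 : (26 : ℝ) ≤ k := by exact_mod_cast hk
  have hk0 : (0 : ℝ) < k := by linarith
  have ha0 : (3 : ℝ) ≤ a := by exact_mod_cast ha
  obtain ⟨M, hM⟩ : ∃ M : ℕ, M = 2 * (n / 2) + 2 * i := ⟨_, rfl⟩
  have hM1 : 1 ≤ M := by omega
  have hM0 : (1 : ℝ) ≤ M := by exact_mod_cast hM1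
  have hMk : M ≤ n + k := by omega
  have hratio := In6e_ratio (n := n) hi hik
  rw [← hM] at hff hratio
  obtain ⟨v, hv⟩ : ∃ v : ℝ, v = (a * M : ℕ) * t₁ := ⟨_, rfl⟩
  rw [← hv] at hff
  have hv' : v = a * M * t₁ := by rw [hv]; push_cast; ring
  have hv0 : 0 < v := by rw [hv']; positivity
  have hsv : 0 < sinh v := sinh_pos_iff.2 hv0
  have hcv := cosh_pos v
  -- `(1.5 (k+1))² ≤ 2.4265 k²`
  obtain ⟨R, hR⟩ : ∃ R : ℝ, R = (2 * (i : ℝ) + 1) * (n + k) / M := ⟨_, rfl⟩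
  have hR0 : 0 ≤ R := by rw [hR]; positivity
  have hR1 : R ≤ 81 / 52 * k := by
    rw [hR, div_le_iff₀ (by linarith)]
    refine hratio.trans ?_
    apply mul_le_mul_of_nonneg_right _ (by linarith)
    linarith
  have hR2 : R ^ 2 ≤ (81 / 52 * k) ^ 2 := pow_le_pow_left₀ hR0 hR1 2
  obtain ⟨T, hT⟩ : ∃ T : ℝ, T = tanh ((a * (n + k) : ℕ) * (t / 2)) := ⟨_, rfl⟩
  rw [← hT] at hσ
  have hT0 : 0 < T := by
    rw [hT]
    exact PIarc.T_pos (by omega) (by omega) ht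
  -- the main estimate
  have key : (T / t) ^ 2 * (((cosh v + 1) / sinh v) ^ 2 * ((2 * i + 1) * t₁) ^ 2) ≤
      11 / 10 * R ^ 2 := by
    rcases h with h | h
    · subst h
      have hz : v / 2 = (a * M : ℕ) * (t₁ / 2) := by rw [hv]; ring
      rw [coth_half hv0, hz]
      -- `T ≤ (n + k)/M tanh z`
      have hz0 : 0 < ((a * M : ℕ) : ℝ) * (t₁ / 2) := by rw [← hz]; positivity
      have hw0 : 0 < ((a * (n + k) : ℕ) : ℝ) * (t₁ / 2) := by
        have : (0 : ℝ) < ((a * (n + k) : ℕ) : ℝ) := by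
          have : 0 < a * (n + k) := Nat.mul_pos (by omega) (by omega)
          exact_mod_cast this
        positivity
      have hnk0 : (0 : ℝ) < n + k := by positivity
      have hs1 : (M : ℝ) / (n + k) ≤ 1 := by
        rw [div_le_one hnk0]
        exact_mod_cast hMk
      have h1 := NearPi.tanh_scale (s := M / (n + k)) (y := ((a * (n + k) : ℕ) : ℝ) * (t₁ / 2))
        (by positivity) hs1 hw0
      have e1 : (M : ℝ) / (n + k) * (((a * (n + k) : ℕ) : ℝ) * (t₁ / 2)) =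
          ((a * M : ℕ) : ℝ) * (t₁ / 2) := by
        push_cast
        field_simp
      rw [e1, ← hT] at h1
      obtain ⟨z, hz'⟩ : ∃ z : ℝ, z = ((a * M : ℕ) : ℝ) * (t₁ / 2) := ⟨_, rfl⟩
      rw [← hz'] at h1 hz0 ⊢
      have hsz : 0 < sinh z := sinh_pos_iff.2 hz0
      have hcz := cosh_pos z
      have h2 : T ^ 2 * (cosh z / sinh z) ^ 2 ≤ ((n + k) / M) ^ 2 := by
        have e2 : tanh z ^ 2 * (cosh z / sinh z) ^ 2 = 1 := by
          rw [tanh_eq_sinh_div_cosh]; field_simp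
        have e3 : T ^ 2 ≤ ((n + k) / M) ^ 2 * tanh z ^ 2 := by
          have := mul_le_mul_of_nonneg_left h1 (show 0 ≤ (((n : ℝ) + k) / M) ^ 2 by positivity)
          refine le_trans (le_of_eq ?_) this
          field_simp
        calc T ^ 2 * (cosh z / sinh z) ^ 2 ≤ ((n + k) / M) ^ 2 * tanh z ^ 2 *
              (cosh z / sinh z) ^ 2 := mul_le_mul_of_nonneg_right e3 (by positivity)
          _ = ((n + k) / M) ^ 2 * (tanh z ^ 2 * (cosh z / sinh z) ^ 2) := by ring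
          _ = _ := by rw [e2, mul_one]
      have h3 : (T / t₁) ^ 2 * ((cosh z / sinh z) ^ 2 * ((2 * i + 1) * t₁) ^ 2) =
          T ^ 2 * (cosh z / sinh z) ^ 2 * (2 * i + 1) ^ 2 := by
        field_simp
      rw [h3]
      have h4 : R ^ 2 = ((n + k) / M) ^ 2 * (2 * i + 1) ^ 2 := by
        rw [hR]; field_simp
      rw [h4]
      have h5 := mul_le_mul_of_nonneg_right h2 (show 0 ≤ (2 * (i : ℝ) + 1) ^ 2 by positivity)
      have h6 : 0 ≤ ((n + k) / (M : ℝ)) ^ 2 * (2 * i + 1) ^ 2 := by positivity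
      linarith
    · have hT1 : T / t ≤ a * (n + k) / 2 := by
        rw [div_le_iff₀ ht, hT, tanh_eq_sinh_div_cosh]
        refine (tanh_le (by positivity)).trans (le_of_eq ?_)
        push_cast
        ring
      have hv34 : v ≤ 3 / 4 := by
        refine le_trans ?_ h
        rw [hv']
        unfold alt
        have e1 : (k : ℝ) * (((a * (2 * (n / 2) + k) : ℕ) : ℝ) / k) * t₁ =
            ((a * (2 * (n / 2) + k) : ℕ) : ℝ) * t₁ := by field_simp
        rw [e1]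
        apply mul_le_mul_of_nonneg_right _ ht1.le
        have : a * M ≤ a * (2 * (n / 2) + k) := Nat.mul_le_mul_left a (by omega)
        exact_mod_cast this
      have h1 := N_HH hv0 zero_le_one le_rfl
      have h2 : ((cosh v + 1) / sinh v) ^ 2 * v ^ 2 ≤ 4384 / 1000 := by
        have e1 := mul_le_mul_of_nonneg_right h1 (show 0 ≤ v ^ 2 by positivity)
        refine e1.trans ?_
        have e2 : (1 + ((1 - 1) ^ 2 / (1 + v ^ 2 / 3 + 2 * (v ^ 2) ^ 2 / 45) +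
            4 * 1 / (1 + v ^ 2 / 12 + (v ^ 2) ^ 2 / 360)) / v ^ 2) * v ^ 2 =
            v ^ 2 + 4 / (1 + v ^ 2 / 12 + (v ^ 2) ^ 2 / 360) := by
          have : 0 < 1 + v ^ 2 / 12 + (v ^ 2) ^ 2 / 360 := by positivity
          field_simp
          ring
        rw [e2]
        obtain ⟨w, hw⟩ : ∃ w : ℝ, w = v ^ 2 := ⟨_, rfl⟩
        rw [← hw]
        have hw0 : 0 ≤ w := by rw [hw]; positivity
        have hw1 : w ≤ 9 / 16 := by rw [hw]; nlinarith
        have e3 : 4 / (1 + w / 12 + w ^ 2 / 360) ≤ 4 * (1 - w / 12 + w ^ 2 / 144) := by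
          rw [div_le_iff₀ (by positivity)]
          have e4 : (1 - w / 12 + w ^ 2 / 144) * (1 + w / 12 + w ^ 2 / 360) =
              1 + w ^ 3 / 1728 + w ^ 2 / 360 * (1 - w / 12 + w ^ 2 / 144) := by ring
          have e5 : 0 ≤ w ^ 3 / 1728 := by positivity
          have e6 : 0 ≤ w ^ 2 / 360 * (1 - w / 12 + w ^ 2 / 144) := by
            apply mul_nonneg (by positivity)
            have : 0 ≤ w ^ 2 / 144 := by positivity
            linarith
          linarith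
        have e7 : w ^ 2 ≤ 9 / 16 * w := by nlinarith
        linarith
      have h3 : (T / t) ^ 2 ≤ (a * (n + k) / 2) ^ 2 := pow_le_pow_left₀ (by positivity) hT1 2
      have h4 : (T / t) ^ 2 * (((cosh v + 1) / sinh v) ^ 2 * ((2 * i + 1) * t₁) ^ 2) ≤
          (a * (n + k) / 2) ^ 2 * (((cosh v + 1) / sinh v) ^ 2 * ((2 * i + 1) * t₁) ^ 2) :=
        mul_le_mul_of_nonneg_right h3 (by positivity)
      refine h4.trans ?_
      have e8 : (a * (n + k) / 2) ^ 2 * (((cosh v + 1) / sinh v) ^ 2 * ((2 * i + 1) * t₁) ^ 2) =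
          (((cosh v + 1) / sinh v) ^ 2 * v ^ 2) * (R ^ 2 / 4) := by
        rw [hR, hv']
        have : (0 : ℝ) < M := by linarith
        field_simp
        norm_num
      rw [e8]
      have h5 := mul_le_mul_of_nonneg_right h2 (show 0 ≤ R ^ 2 / 4 by positivity)
      have h6 : 0 ≤ R ^ 2 := sq_nonneg R
      linarith
  have e1 : (sigma n k a t / k) ^ 2 = sigma n k a t ^ 2 / k ^ 2 := by rw [div_pow]
  have hff0 : 0 ≤ ff n a i t₁ θ := (ff_pos (by omega) hi ht1 θ).le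
  rw [e1]
  calc sigma n k a t ^ 2 / k ^ 2 * ff n a i t₁ θ
      ≤ (1001 / 1000 * k * (T / t) ^ 2) / k ^ 2 * (((cosh v + 1) / sinh v) ^ 2 *
        (10953 / 10000 * ((2 * i + 1) * t₁) ^ 2 / p)) := by
        apply mul_le_mul (div_le_div_of_nonneg_right hσ (by positivity)) hff hff0 (by positivity)
    _ = 1001 / 1000 * (10953 / 10000) / (k * p) * ((T / t) ^ 2 *
        (((cosh v + 1) / sinh v) ^ 2 * ((2 * i + 1) * t₁) ^ 2)) := by
        field_simp
    _ ≤ 1001 / 1000 * (10953 / 10000) / (k * p) * (11 / 10 * R ^ 2) :=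
        mul_le_mul_of_nonneg_left key (by positivity)
    _ ≤ 1001 / 1000 * (10953 / 10000) / (k * p) * (11 / 10 * (81 / 52 * k) ^ 2) := by
        apply mul_le_mul_of_nonneg_left _ (by positivity)
        linarith
    _ ≤ _ := by
        have e2 : 1001 / 1000 * (10953 / 10000) / (k * p) * (11 / 10 * (81 / 52 * (k : ℝ)) ^ 2) =
            (1001 / 1000 * (10953 / 10000) * (11 / 10) * (81 / 52) ^ 2) * (k / p) := by
          field_simp
        have e3 : 3 / p * k = 3 * (k / p) := by ring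
        rw [e2, e3]
        apply mul_le_mul_of_nonneg_right _ (by positivity)
        norm_num

end Pool.Agent.SignedQ.An.In
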