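import Pool.Agent.Lib.MP_cf17a0_co.S1.InChk
import Pool.Agent.Lib.MP_cf17a0_co.Mg.G058

/-! # INTER: T7, the counting lemma and the soundness of the recursion (helper97) -/

namespace Pool.Agent.SignedQ.An.In

open Real Finset

theorem le_cnt {θ B : ℝ} (hθ : 0 < θ) (hB : θ ≤ B) {i : ℕ} :
    i ≤ cnt θ B ↔ (2 * i + 1) * θ ≤ B := by
  have h0 : 0 ≤ (B / θ - 1) / 2 := by
    have : 1 ≤ B / θ := by rw [le_div_iff₀ hθ]; linarith
    linarith
  unfold cnt
  rw [Nat.le_floor_iff h0, le_div_iff₀ (by norm_num), le_sub_iff_add_le, le_div_iff₀ hθ]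
  constructor <;> intro h <;> nlinarith

theorem cnt_abs {θ B : ℝ} (hθ : 0 < θ) (hB : θ ≤ B) :
    |(cnt θ B : ℝ) - (B / (2 * θ) - 1)| ≤ 1 / 2 := by
  have h0 : 0 ≤ (B / θ - 1) / 2 := by
    have : 1 ≤ B / θ := by rw [le_div_iff₀ hθ]; linarith
    linarith
  unfold cnt
  have h1 := Nat.floor_le h0
  have h2 := Nat.lt_floor_add_one ((B / θ - 1) / 2)
  have e : B / (2 * θ) = B / θ / 2 := by
    rw [div_div, mul_comm]
  rw [e, abs_le]
  constructor <;> linarith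

theorem exp_hundredth_le : exp (1 / 100) ≤ (UU : ℝ) := by
  have h := Real.exp_bound' (x := 1 / 100) (by norm_num) (by norm_num) (n := 4) (by norm_num)
  refine h.trans ?_
  unfold UU
  simp only [sum_range_succ, sum_range_zero, Nat.factorial]
  push_cast
  norm_num

theorem le_exp_hundredth : (LL : ℝ) ≤ exp (1 / 100) := by
  have h := Real.quadratic_le_exp_of_nonneg (x := 1 / 100) (by norm_num)
  refine le_trans ?_ h
  unfold LL
  push_cast
  norm_num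

theorem expOK_sound' {E : ℚ} {n : ℤ} (h : expOK E n = true) : (E : ℝ) ≤ exp (-(n : ℝ) / 100) := by
  unfold expOK at h
  split_ifs at h with h0
  · obtain ⟨m, rfl⟩ := Int.eq_ofNat_of_zero_le h0
    have h1 : E * UU ^ m ≤ 1 := by simpa using h
    have h2 : (E : ℝ) * (UU : ℝ) ^ m ≤ 1 := by exact_mod_cast h1
    have hU : (0 : ℝ) < UU := (exp_pos _).trans_le exp_hundredth_le
    have h3 : exp ((m : ℝ) / 100) ≤ (UU : ℝ) ^ m := by
      have := pow_le_pow_left₀ (exp_pos _).le exp_hundredth_le m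
      rw [← exp_nat_mul] at this
      refine le_trans (le_of_eq ?_) this
      congr 1
      ring
    have h4 : exp (-((m : ℤ) : ℝ) / 100) * exp ((m : ℝ) / 100) = 1 := by
      rw [← exp_add, ← exp_zero]
      congr 1
      push_cast
      ring
    have h5 := exp_pos ((m : ℝ) / 100)
    have h6 := exp_pos (-((m : ℤ) : ℝ) / 100)
    by_contra hc
    rw [not_le] at hc
    have h7 : exp (-((m : ℤ) : ℝ) / 100) * exp ((m : ℝ) / 100) < E * (UU : ℝ) ^ m :=
      mul_lt_mul hc h3 h5 (h6.le.trans hc.le)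
    linarith
  · obtain ⟨m, hm⟩ := Int.eq_ofNat_of_zero_le (show 0 ≤ -n by omega)
    have hn : n = -(m : ℤ) := by omega
    have h1 : E ≤ LL ^ m := by
      have : (-n).toNat = m := by omega
      rw [this] at h
      simpa using h
    have h2 : (E : ℝ) ≤ (LL : ℝ) ^ m := by exact_mod_cast h1
    have hL : (0 : ℝ) ≤ LL := by unfold LL; push_cast; norm_num
    have h3 := pow_le_pow_left₀ hL le_exp_hundredth m
    rw [← exp_nat_mul] at h3
    refine (h2.trans h3).trans (le_of_eq ?_)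
    congr 1
    rw [hn]
    push_cast
    ring

/-- A product over a range of indices on which `f i ≤ exp (-L)`. -/
theorem prod_Ioc_le {f : ℕ → ℝ} (hf : ∀ i, 0 ≤ f i) {c d : ℕ} (hcd : c ≤ d) {L : ℝ}
    (h : ∀ i ∈ Ioc c d, f i ≤ exp (-L)) :
    ∏ i ∈ Ioc c d, f i ≤ exp (-(L * ((d : ℝ) - c))) := by
  calc ∏ i ∈ Ioc c d, f i ≤ ∏ i ∈ Ioc c d, exp (-L) := prod_le_prod (fun i _ => hf i) h
    _ = exp (-L) ^ (d - c) := by rw [prod_const, Nat.card_Ioc]
    _ = exp (-(L * ((d : ℝ) - c))) := by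
      rw [← exp_nat_mul, Nat.cast_sub hcd]
      congr 1
      ring

theorem prod_Ioc_split {f : ℕ → ℝ} {b c d : ℕ} (hbc : b ≤ c) (hcd : c ≤ d) :
    ∏ i ∈ Ioc b d, f i = (∏ i ∈ Ioc b c, f i) * ∏ i ∈ Ioc c d, f i := by
  exact (prod_Ioc_consecutive f hbc hcd).symm

/-- The induction for `go_sound`. -/
theorem go_sound_aux (P : Cell) {k : ℕ} {θ : ℝ} (hθ : 0 < θ) (hk : 3 ≤ k) {f : ℕ → ℝ}
    (hf : ∀ i, 0 ≤ f i) (hB : 3 * θ ≤ P.B0) (hw' : k * θ ≤ P.wB)
    (hE : ∀ x y : ℚ, P.B0 ≤ x → y ≤ P.wB → (P.A = true ∨ 0 < SL (P.t0 * x) + pblk x y) →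
      ∀ i : ℕ, 2 ≤ i → 2 * i + 1 ≤ k → (x : ℝ) < (2 * i + 1) * θ → (2 * i + 1) * θ ≤ y →
      f i ≤ (P.EE x y : ℝ))
    (l : List (ℚ × ℤ × ℕ × ℕ)) : ∀ (x Lam V Lp : ℚ), P.go x Lam V Lp l = true → P.B0 ≤ x →
      (x : ℝ) < k * θ →
      ∏ i ∈ Ioc (cnt θ P.B0) (cnt θ x), f i ≤
        exp (-((Lam : ℝ) / (2 * θ) - V / 2 + Lp * ((cnt θ x : ℝ) - (x / (2 * θ) - 1)))) →
      ∃ (x y L Lam V : ℚ) (kk N : ℕ), P.fin x y L Lam V kk N = true ∧ (x : ℝ) < k * θ ∧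
      k * θ ≤ y ∧ P.B0 ≤ x ∧ ∏ i ∈ Ioc (cnt θ P.B0) ((k - 1) / 2), f i ≤
        exp (-((Lam + L * (k * θ - x)) / (2 * θ) - V / 2 - max 0 (-L) / 2)) := by
  have hB0 : θ ≤ (P.B0 : ℝ) := by linarith
  have hkθ : θ ≤ k * θ := by
    have : (3 : ℝ) ≤ k := by exact_mod_cast hk
    nlinarith
  have h1c : 1 ≤ cnt θ P.B0 := by
    rw [le_cnt hθ hB0]
    push_cast
    linarith
  induction l with
  | nil =>
    intro x Lam V Lp h hx hxk _
    exfalso
    have h1 : P.wB ≤ x := by simpa [Cell.go] using h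
    have h2 : (P.wB : ℝ) ≤ x := by exact_mod_cast h1
    linarith
  | cons hd l ih =>
    obtain ⟨b, n, kk, N⟩ := hd
    intro x Lam V Lp h hx hxk hinv
    simp only [Cell.go, Bool.and_eq_true, Bool.or_eq_true, decide_eq_true_eq] at h
    obtain ⟨⟨⟨⟨⟨hab, hbw⟩, hpos⟩, hexp⟩, hfin⟩, hgo⟩ := h
    have hexp' := expOK_sound' hexp
    have hxB : (P.B0 : ℝ) ≤ x := by exact_mod_cast hx
    have hxθ : θ ≤ (x : ℝ) := hB0.trans hxB
    obtain ⟨e, he⟩ : ∃ e : ℝ, e = (cnt θ x : ℝ) - ((x : ℝ) / (2 * θ) - 1) := ⟨_, rfl⟩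
    have hea : |e| ≤ 1 / 2 := by rw [he]; exact cnt_abs hθ hxθ
    rw [← he] at hinv
    have hc0 : cnt θ P.B0 ≤ cnt θ x := by
      rw [le_cnt hθ hxθ]
      exact ((le_cnt hθ hB0).1 le_rfl).trans hxB
    have hL : ((((n : ℚ) / 100 : ℚ)) : ℝ) = (n : ℝ) / 100 := by push_cast; ring
    -- the bound for one factor
    have hfac : ∀ (z : ℝ) (d : ℕ), z ≤ b → z ≤ k * θ → ((2 * d + 1) * θ ≤ z) →
        ∀ i ∈ Ioc (cnt θ x) d, f i ≤ exp (-((n : ℝ) / 100)) := by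
      intro z d hzb hzk hd i hi
      have hi' := mem_Ioc.1 hi
      have h2 : (x : ℝ) < (2 * i + 1) * θ := by
        by_contra hc
        exact absurd ((le_cnt hθ hxθ).2 (not_lt.1 hc)) (by omega)
      have h3 : (i : ℝ) ≤ d := by exact_mod_cast hi'.2
      have h4 : (2 * (i : ℝ) + 1) * θ ≤ z := by
        refine le_trans ?_ hd
        exact mul_le_mul_of_nonneg_right (by linarith) hθ.le
      have h5 : 2 * i + 1 ≤ k := by
        have : (2 * (i : ℝ) + 1) * θ ≤ k * θ := h4.trans hzk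
        have := le_of_mul_le_mul_right this hθ
        exact_mod_cast this
      have h6 := hE x b hx hbw hpos i (by omega) h5 h2 (h4.trans hzb)
      refine (h6.trans hexp').trans (le_of_eq ?_)
      congr 1
      ring
    have hae : ((Lp : ℝ) - (n : ℝ) / 100) * e ≥ -(|(n : ℝ) / 100 - Lp| / 2) := by
      have h2 : |((Lp : ℝ) - (n : ℝ) / 100) * e| ≤ |(n : ℝ) / 100 - Lp| * (1 / 2) := by
        rw [abs_mul, abs_sub_comm]
        exact mul_le_mul_of_nonneg_left hea (abs_nonneg _)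
      have h3 := (abs_le.1 h2).1
      linarith
    by_cases hbk : k * θ ≤ b
    · -- the last block
      refine ⟨x, b, (n : ℚ) / 100, Lam, V + |(n : ℚ) / 100 - Lp|, kk, N, hfin, hxk, hbk, hx, ?_⟩
      have h2 : 2 * ((k - 1) / 2) + 1 ≤ k := by omega
      have hKθ : (2 * (((k - 1) / 2 : ℕ) : ℝ) + 1) * θ ≤ k * θ := by
        refine mul_le_mul_of_nonneg_right ?_ hθ.le
        exact_mod_cast h2
      have hcK : cnt θ x ≤ (k - 1) / 2 := by
        have h3 := (le_cnt hθ hxθ (i := cnt θ x)).1 le_rfl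
        have h4 : (2 * (cnt θ x : ℝ) + 1) * θ < k * θ := h3.trans_lt hxk
        have h5 := lt_of_mul_lt_mul_right h4 hθ.le
        have h6 : 2 * cnt θ x + 1 < k := by exact_mod_cast h5
        omega
      have hp := prod_Ioc_le hf hcK (hfac (k * θ) ((k - 1) / 2) hbk le_rfl hKθ)
      rw [prod_Ioc_split hc0 hcK]
      refine (mul_le_mul hinv hp (prod_nonneg fun i _ => hf i) (exp_pos _).le).trans ?_
      rw [← exp_add]
      refine exp_le_exp.2 ?_
      -- the last error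
      obtain ⟨eK, heK⟩ : ∃ eK : ℝ, eK = (((k - 1) / 2 : ℕ) : ℝ) - ((k : ℝ) / 2 - 1) := ⟨_, rfl⟩
      have h0K : 0 ≤ eK := by
        have h3 : k ≤ 2 * ((k - 1) / 2) + 2 := by omega
        have h4 : (k : ℝ) ≤ 2 * (((k - 1) / 2 : ℕ) : ℝ) + 2 := by exact_mod_cast h3
        rw [heK]; linarith
      have h1K : eK ≤ 1 / 2 := by
        have h4 : 2 * (((k - 1) / 2 : ℕ) : ℝ) + 1 ≤ (k : ℝ) := by exact_mod_cast h2
        rw [heK]; linarith
      have hLe : -(max 0 (-((n : ℝ) / 100)) / 2) ≤ (n : ℝ) / 100 * eK := by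
        have h9 := le_max_left 0 (-((n : ℝ) / 100))
        have h10 := le_max_right 0 (-((n : ℝ) / 100))
        nlinarith [mul_nonneg h9 (sub_nonneg.2 h1K),
          mul_nonneg (by linarith : 0 ≤ (n : ℝ) / 100 + max 0 (-((n : ℝ) / 100))) h0K]
      have e1 : (((k - 1) / 2 : ℕ) : ℝ) - (cnt θ x : ℝ) = (k * θ - x) / (2 * θ) + eK - e := by
        rw [heK, he]
        field_simp
        ring
      rw [e1]
      have e2 : ((V + |(n : ℚ) / 100 - Lp| : ℚ) : ℝ) = V + |(n : ℝ) / 100 - Lp| := by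
        push_cast
        ring
      rw [e2, hL]
      have e3 : ((Lam : ℝ) + (n : ℝ) / 100 * (k * θ - x)) / (2 * θ) =
          Lam / (2 * θ) + (n : ℝ) / 100 * ((k * θ - x) / (2 * θ)) := by
        ring
      have e5 : ((max 0 (-((n : ℚ) / 100)) : ℚ) : ℝ) = max 0 (-((n : ℝ) / 100)) := by
        rw [Rat.cast_max]
        push_cast
        ring_nf
      rw [e3, e5]
      linarith
    · -- the next block
      rw [not_le] at hbk
      have hxb : (x : ℝ) < b := by exact_mod_cast hab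
      have hbθ : θ ≤ (b : ℝ) := hxθ.trans hxb.le
      have hxle : P.B0 ≤ b := hx.trans hab.le
      refine ih b (Lam + (n : ℚ) / 100 * (b - x)) (V + |(n : ℚ) / 100 - Lp|) ((n : ℚ) / 100) hgo
        hxle hbk ?_
      have hcc : cnt θ x ≤ cnt θ b := by
        rw [le_cnt hθ hbθ]
        exact ((le_cnt hθ hxθ).1 le_rfl).trans hxb.le
      have hp := prod_Ioc_le hf hcc (hfac b (cnt θ b) le_rfl hbk.le ((le_cnt hθ hbθ).1 le_rfl))
      rw [prod_Ioc_split hc0 hcc]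
      refine (mul_le_mul hinv hp (prod_nonneg fun i _ => hf i) (exp_pos _).le).trans ?_
      rw [← exp_add]
      refine exp_le_exp.2 ?_
      obtain ⟨eb, heb⟩ : ∃ eb : ℝ, eb = (cnt θ b : ℝ) - ((b : ℝ) / (2 * θ) - 1) := ⟨_, rfl⟩
      rw [← heb]
      have e1 : (cnt θ b : ℝ) - (cnt θ x : ℝ) = (b - x) / (2 * θ) + eb - e := by
        rw [heb, he]
        field_simp
        ring
      rw [e1]
      have e2 : ((V + |(n : ℚ) / 100 - Lp| : ℚ) : ℝ) = V + |(n : ℝ) / 100 - Lp| := by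
        push_cast
        ring
      have e4 : ((Lam + (n : ℚ) / 100 * (b - x) : ℚ) : ℝ) = Lam + (n : ℝ) / 100 * (b - x) := by
        push_cast
        ring
      rw [e2, hL, e4]
      have e3 : ((Lam : ℝ) + (n : ℝ) / 100 * (b - x)) / (2 * θ) =
          Lam / (2 * θ) + (n : ℝ) / 100 * ((b - x) / (2 * θ)) := by
        ring
      rw [e3]
      linarith

/-- Soundness of the recursion. -/
theorem go_sound (P : Cell) {k : ℕ} {θ : ℝ} (hθ : 0 < θ) (hk : 3 ≤ k) {f : ℕ → ℝ}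
    (hf : ∀ i, 0 ≤ f i) (hB : 3 * θ ≤ P.B0) (hw : (P.B0 : ℝ) < k * θ) (hw' : k * θ ≤ P.wB)
    (hE : ∀ x y : ℚ, P.B0 ≤ x → y ≤ P.wB → (P.A = true ∨ 0 < SL (P.t0 * x) + pblk x y) →
      ∀ i : ℕ, 2 ≤ i → 2 * i + 1 ≤ k → (x : ℝ) < (2 * i + 1) * θ → (2 * i + 1) * θ ≤ y →
      f i ≤ (P.EE x y : ℝ))
    {l : List (ℚ × ℤ × ℕ × ℕ)} (h : P.go P.B0 0 0 0 l = true) :
    ∃ (x y L Lam V : ℚ) (kk N : ℕ), P.fin x y L Lam V kk N = true ∧ (x : ℝ) < k * θ ∧
      k * θ ≤ y ∧ P.B0 ≤ x ∧ ∏ i ∈ Ioc (cnt θ P.B0) ((k - 1) / 2), f i ≤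
        exp (-((Lam + L * (k * θ - x)) / (2 * θ) - V / 2 - max 0 (-L) / 2)) := by
  refine go_sound_aux P hθ hk hf hB hw' hE l P.B0 0 0 0 h le_rfl hw ?_
  simp

end Pool.Agent.SignedQ.An.In
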