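import Pool.Agent.Lib.MP_cf17a0_co.S1.InChk
import Pool.Agent.Lib.MP_cf17a0_co.Mg.G058

/-! # INTER (k t ≤ 1): T8, the final test (helper78) -/

namespace Pool.Agent.SignedQ.An.In

open Real Finset

theorem kOK_sound {k0 kk k : ℕ} {q : ℚ} (h : kOK k0 kk q = true) {c : ℝ} (h0 : k0 ≤ k)
    (h1 : (q : ℝ) ≤ c) (h2 : 4000 * c ≤ (k : ℝ) ^ 2) (h3 : c ≤ 31 * k / 2000) : kk ≤ k := by
  unfold kOK at h
  rw [Bool.or_eq_true, Bool.or_eq_true, decide_eq_true_iff, decide_eq_true_iff,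
    decide_eq_true_iff] at h
  have hk0 : (0 : ℝ) ≤ k := Nat.cast_nonneg k
  rcases h with (h | ⟨h, h'⟩) | h
  · exact h.trans h0
  · have e1 : (((kk : ℝ) - 1) ^ 2 : ℝ) < 4000 * q := by exact_mod_cast h
    have e2 : ((kk : ℝ) - 1) ^ 2 < (k : ℝ) ^ 2 := by linarith
    have e3 : (kk : ℝ) - 1 < k := lt_of_pow_lt_pow_left₀ 2 hk0 e2
    have e4 : (kk : ℝ) < (k + 1 : ℕ) := by push_cast; linarith
    have e5 : kk < k + 1 := by exact_mod_cast e4
    omega
  · have e1 : (31 * ((kk : ℝ) - 1) : ℝ) < 2000 * q := by exact_mod_cast h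
    have e3 : (kk : ℝ) - 1 < k := by linarith
    have e4 : (kk : ℝ) < (k + 1 : ℕ) := by push_cast; linarith
    have e5 : kk < k + 1 := by exact_mod_cast e4
    omega

lemma In8_LT : (LT : ℝ) ≤ exp (1 / 10) := by
  have h := Real.sum_le_exp_of_nonneg (x := 1 / 10) (by norm_num) 4
  refine le_trans ?_ h
  unfold LT
  rw [Finset.sum_range_succ, Finset.sum_range_succ, Finset.sum_range_succ, Finset.sum_range_succ,
    Finset.sum_range_zero]
  norm_num [Nat.factorial]

/-- `min` of the two end values bounds a Moebius function. -/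
lemma In8_moebius {A B w a b : ℝ} (ha : 0 < a) (haw : a ≤ w) (hwb : w ≤ b) :
    min (A + B / a) (A + B / b) ≤ A + B / w := by
  have hw : 0 < w := ha.trans_le haw
  have hb : 0 < b := hw.trans_le hwb
  rcases le_total 0 B with hB | hB
  · refine (min_le_right _ _).trans ?_
    have := div_le_div_of_nonneg_left hB hw hwb
    linarith
  · refine (min_le_left _ _).trans ?_
    have h1 : B / a ≤ B / w := by
      rw [div_le_div_iff₀ ha hw]
      nlinarith
    linarith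

/-- `k exp (- s k)` decreases for `s k ≥ 1`. -/
lemma In8_dec {kk k : ℝ} {s : ℝ} (h : 1 ≤ kk * s) (hk : 0 < kk) (hkk : kk ≤ k) :
    k * exp (-(k * s)) ≤ kk * exp (-(kk * s)) := by
  have e1 : k / kk ≤ exp (k * s - kk * s) := by
    have h2 := add_one_le_exp ((k - kk) / kk)
    have h3 : (k - kk) / kk ≤ k * s - kk * s := by
      rw [div_le_iff₀ hk]
      have := mul_le_mul_of_nonneg_left h (sub_nonneg.2 hkk)
      nlinarith
    have h4 : (k - kk) / kk + 1 = k / kk := by field_simp; ring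
    rw [h4] at h2
    exact h2.trans (exp_le_exp.2 h3)
  rw [div_le_iff₀ hk] at e1
  calc k * exp (-(k * s)) ≤ exp (k * s - kk * s) * kk * exp (-(k * s)) :=
        mul_le_mul_of_nonneg_right e1 (exp_pos _).le
    _ = kk * (exp (k * s - kk * s) * exp (-(k * s))) := by ring
    _ = _ := by rw [← exp_add]; ring_nf

/-- The analytic core of `fin_sound`. -/
lemma In8_core {K lft kk k : ℝ} {N : ℕ} {s R E e LTr : ℝ} (hK : 0 ≤ K) (hl : 0 ≤ lft)
    (hkk : kk ≤ k) (hk : 0 ≤ kk) (h1 : 1 ≤ kk * s) (h2 : (N : ℝ) ≤ 10 * (kk * s - R))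
    (hLT0 : 0 < LTr) (hLT : LTr ≤ exp (1 / 10)) (h3 : K * lft * kk ≤ e * LTr ^ N) (he : 0 ≤ e)
    (hE : E ≤ R - k * s) :
    K * lft * k * exp E ≤ e := by
  have hk' : 0 < kk := by
    rcases hk.eq_or_lt with h | h
    · rw [← h] at h1; linarith
    · exact h
  have e1 : k * exp E ≤ kk * exp (-(kk * s)) * exp R := by
    calc k * exp E ≤ k * exp (R - k * s) :=
          mul_le_mul_of_nonneg_left (exp_le_exp.2 hE) (by linarith)
      _ = k * exp (-(k * s)) * exp R := by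
          rw [mul_assoc, ← exp_add]; ring_nf
      _ ≤ _ := mul_le_mul_of_nonneg_right (In8_dec h1 hk' hkk) (exp_pos _).le
  have e2 : exp (-(kk * s)) * exp R ≤ exp (-((N : ℝ) * (1 / 10))) := by
    rw [← exp_add]
    apply exp_le_exp.2
    linarith
  have e3 : LTr ^ N ≤ exp ((N : ℝ) * (1 / 10)) := by
    rw [exp_nat_mul]
    exact pow_le_pow_left₀ hLT0.le hLT N
  have e4 : exp (-((N : ℝ) * (1 / 10))) * exp ((N : ℝ) * (1 / 10)) = 1 := by
    rw [← exp_add]; simp
  calc K * lft * k * exp E = K * lft * (k * exp E) := by ring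
    _ ≤ K * lft * (kk * exp (-(kk * s)) * exp R) := mul_le_mul_of_nonneg_left e1 (by positivity)
    _ = K * lft * kk * (exp (-(kk * s)) * exp R) := by ring
    _ ≤ K * lft * kk * exp (-((N : ℝ) * (1 / 10))) :=
        mul_le_mul_of_nonneg_left e2 (by positivity)
    _ ≤ e * LTr ^ N * exp (-((N : ℝ) * (1 / 10))) :=
        mul_le_mul_of_nonneg_right h3 (exp_pos _).le
    _ ≤ e * exp ((N : ℝ) * (1 / 10)) * exp (-((N : ℝ) * (1 / 10))) := by
        apply mul_le_mul_of_nonneg_right _ (exp_pos _).le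
        exact mul_le_mul_of_nonneg_left e3 he
    _ = e * (exp (-((N : ℝ) * (1 / 10))) * exp ((N : ℝ) * (1 / 10))) := by ring
    _ = e := by rw [e4, mul_one]

lemma In8_eps {w : ℝ} {wr : ℚ} (h : w ≤ wr) :
    ((eps wr : ℚ) : ℝ) ≤ (if w ≤ 5 / 4 then 1 / 400 else 9 / 160000) := by
  unfold eps
  by_cases h1 : wr ≤ 5 / 4
  · have h2 : (wr : ℝ) ≤ 5 / 4 := by
      have : ((wr : ℚ) : ℝ) ≤ ((5 / 4 : ℚ) : ℝ) := by exact_mod_cast h1
      push_cast at this
      exact this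
    rw [if_pos h1, if_pos (h.trans h2)]
    norm_num
  · rw [if_neg h1]
    split_ifs <;> norm_num

lemma eps_nonneg (w : ℚ) : 0 ≤ eps w := by
  unfold eps
  split_ifs <;> norm_num

/-- `w = k θ`, `c = k t`. -/
theorem fin_sound (P : Cell) {x y L Lam V : ℚ} {kk N k : ℕ} {w c : ℝ}
    (h : P.fin x y L Lam V kk N = true) (hk0 : 26 ≤ P.k0) (hx : 0 < x) (h0 : P.k0 ≤ k)
    (h1 : P.k1 = 0 ∨ k < P.k1) (hc : 0 < c) (hc1 : 4000 * c ≤ (k : ℝ) ^ 2)
    (hc2 : c ≤ 31 * k / 2000) (hc3 : c ≤ P.cm) (hwA : (1 : ℝ) ≤ P.wA) (hA : P.wA ≤ w)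
    (hB : w ≤ P.wB) (hxw : (x : ℝ) < w) (hwy : w ≤ y) (ht0 : 0 ≤ P.t0)
    (hct : P.A = false → P.t0 * w ≤ c) (hK0 : 0 ≤ P.K0) :
    ∃ Kc : ℝ, 0 ≤ Kc ∧ (Kc = P.K0 ∨ 1001 / 1000 / c ^ 2 ≤ Kc) ∧
      Kc * (if P.wB ≤ 314 / 100 then 1 else 6) * k *
        exp ((if P.A then (P.g : ℝ) ^ 2 * w ^ 2 * (k / 6 + 43 / 100) + 1 / 1000 else 0) -
          (k * (Lam + L * (w - x)) / (2 * w) - V / 2 - max 0 (-L) / 2)) ≤
        (if w ≤ 5 / 4 then 1 / 400 else 9 / 160000) := by
  have hw0 : 0 < w := by linarith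
  have ht0' : (0 : ℝ) ≤ P.t0 := by exact_mod_cast ht0
  obtain ⟨wl, hwl⟩ : ∃ wl : ℚ, wl = P.wl x := ⟨_, rfl⟩
  obtain ⟨wr, hwr⟩ : ∃ wr : ℚ, wr = P.wr y := ⟨_, rfl⟩
  -- `wl ≤ w ≤ wr`
  have hl : (wl : ℝ) ≤ w := by
    rw [hwl]; unfold Cell.wl
    push_cast
    exact max_le hxw.le hA
  have hl0 : (0 : ℝ) < wl := by
    rw [hwl]; unfold Cell.wl
    push_cast
    exact lt_of_lt_of_le (by linarith) (le_max_right _ _)
  have hr : w ≤ wr := by
    rw [hwr]; unfold Cell.wr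
    split_ifs with hh
    · push_cast; exact le_min hwy hB
    · push_cast
      refine le_min (le_min hwy hB) ?_
      rw [not_or] at hh
      have hAf : P.A = false := by simpa using hh.1
      have ht1 : (0 : ℝ) < P.t0 := lt_of_le_of_ne ht0' (by
        intro hh'
        apply hh.2
        exact_mod_cast hh'.symm)
      rw [le_div_iff₀ ht1]
      have := hct hAf
      linarith
  have hlr : ¬ wr < wl := by
    intro hh
    have : (wr : ℝ) < wl := by exact_mod_cast hh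
    linarith
  have hq : ((if P.A then 0 else P.t0 * wl : ℚ) : ℝ) ≤ c := by
    by_cases hA' : P.A = true
    · rw [if_pos hA']; push_cast; exact hc.le
    · rw [if_neg hA']
      push_cast
      have := hct (by simpa using hA')
      have h2 := mul_le_mul_of_nonneg_left hl ht0'
      linarith
  unfold Cell.fin at h
  simp only [← hwl, ← hwr] at h
  rw [if_neg hlr, Bool.and_eq_true] at h
  obtain ⟨hkOK, h⟩ := h
  have hkk : kk ≤ k := kOK_sound hkOK h0 hq hc1 hc2
  rw [Bool.or_eq_true, decide_eq_true_iff] at h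
  rcases h with ⟨h2, h3⟩ | h
  · exfalso
    rcases h1 with h1 | h1
    · exact h2 h1
    · omega
  rw [Bool.and_eq_true, Bool.and_eq_true, decide_eq_true_iff, decide_eq_true_iff,
    decide_eq_true_iff] at h
  obtain ⟨⟨h2, h3⟩, h4⟩ := h
  obtain ⟨gc, hgc⟩ : ∃ gc : ℚ, gc = if P.A then P.g ^ 2 * wr ^ 2 else 0 := ⟨_, rfl⟩
  obtain ⟨mm, hmm⟩ : ∃ mm : ℚ, mm = min (L + (Lam - L * x) / wl) (L + (Lam - L * x) / wr) :=
    ⟨_, rfl⟩
  obtain ⟨Kc, hKc⟩ : ∃ Kc : ℚ, Kc = if P.A ∨ P.t0 = 0 then P.K0 else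
    min P.K0 (1001 / 1000 / (P.t0 * wl) ^ 2) := ⟨_, rfl⟩
  rw [← hgc, ← hmm] at h2 h3
  rw [← hKc] at h4
  have hKc0 : 0 ≤ Kc := by
    rw [hKc]
    split_ifs
    · exact hK0
    · exact le_min hK0 (by positivity)
  have hmm' : (mm : ℝ) ≤ L + (Lam - L * x) / w := by
    rw [hmm]
    push_cast
    exact In8_moebius hl0 hl hr
  have hkk' : (kk : ℝ) ≤ k := by exact_mod_cast hkk
  have hkr : (0 : ℝ) ≤ k := Nat.cast_nonneg k
  refine ⟨Kc, by exact_mod_cast hKc0, ?_, ?_⟩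
  · rw [hKc]
    by_cases hh : P.A = true ∨ P.t0 = 0
    · rw [if_pos hh]; exact Or.inl rfl
    · rw [if_neg hh]
      rw [not_or] at hh
      rcases min_choice P.K0 (1001 / 1000 / (P.t0 * wl) ^ 2) with h5 | h5
      · rw [h5]; exact Or.inl rfl
      · rw [h5]
        right
        push_cast
        have ht1 : (0 : ℝ) < P.t0 := lt_of_le_of_ne ht0' (by
          intro hh'
          apply hh.2
          exact_mod_cast hh'.symm)
        have h6 : (P.t0 : ℝ) * wl ≤ c := by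
          have := hct (by simpa using hh.1)
          have h2 := mul_le_mul_of_nonneg_left hl ht0'
          linarith
        apply div_le_div_of_nonneg_left (by norm_num) (by positivity)
        exact pow_le_pow_left₀ (by positivity) h6 2
  · refine le_trans ?_ (In8_eps hr)
    have hl' : ((if P.wB ≤ 314 / 100 then 1 else 6 : ℚ) : ℝ) =
        (if P.wB ≤ 314 / 100 then 1 else 6 : ℝ) := by split_ifs <;> norm_num
    have hgc' : (P.g : ℝ) ^ 2 * w ^ 2 ≤ (P.g : ℝ) ^ 2 * (wr : ℝ) ^ 2 :=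
      mul_le_mul_of_nonneg_left (pow_le_pow_left₀ hw0.le hr 2) (sq_nonneg _)
    rw [← hl']
    apply In8_core (K := Kc) (N := N) (kk := kk) (s := ((mm / 2 - gc / 6 : ℚ) : ℝ))
      (R := (((V + max 0 (-L)) / 2 + (if P.A then gc * (43 / 100) + 1 / 1000 else 0) : ℚ) : ℝ))
      (LTr := (LT : ℝ)) (by exact_mod_cast hKc0) (by split_ifs <;> norm_num) hkk'
      (Nat.cast_nonneg kk)
    · exact_mod_cast h2
    · exact_mod_cast h3
    · have : (0 : ℚ) < LT := by unfold LT; norm_num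
      exact_mod_cast this
    · exact In8_LT
    · exact_mod_cast h4
    · exact_mod_cast eps_nonneg wr
    · have e1 : (k : ℝ) * (Lam + L * (w - x)) / (2 * w) = k / 2 * (L + (Lam - L * x) / w) := by
        field_simp
        ring
      rw [e1]
      have e2 := mul_le_mul_of_nonneg_left hmm' (show 0 ≤ (k : ℝ) / 2 by positivity)
      rw [hgc]
      by_cases hA' : P.A = true
      · simp only [if_pos hA']
        push_cast
        have e3 := mul_le_mul_of_nonneg_right hgc' (show 0 ≤ (k : ℝ) / 6 + 43 / 100 by positivity)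
        nlinarith
      · simp only [if_neg hA']
        push_cast
        linarith

end Pool.Agent.SignedQ.An.In
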