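import Pool.Agent.Lib.MP_cf17a0_co.S1.In1
import Pool.Agent.Lib.MP_cf17a0_co.Mg.G059
import Pool.Agent.Lib.MP_cf17a0_co.S1.In6d
import Pool.Agent.Lib.MP_cf17a0_co.S1.In6e
import Pool.Agent.Lib.MP_cf17a0_co.S1.In7
import Pool.Agent.Lib.MP_cf17a0_co.S1.In8
import Pool.Agent.Lib.MP_cf17a0_co.Mg.G058

/-! # INTER (k t ≤ 1): T9a, soundness of a cell (helper68) -/

namespace Pool.Agent.SignedQ.An.In

open Real Finset

/-- The leftover factor. -/
theorem left_le {n k a : ℕ} (h : Even (n * k)) (ha : 3 ≤ a) (hk : 1 ≤ k) {wB : ℚ} (hwB : wB ≤ 6)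
    {t θ : ℝ} (ht : 0 < t) (hθ : 0 < θ) (hw : k * θ ≤ wB) :
    (if Even k then rr (a * (2 * (n / 2) + k)) t θ / rr k t θ else 1) ≤
      ((if wB ≤ 314 / 100 then 1 else 6 : ℝ)) := by
  have h6 : k * θ ≤ 6 := hw.trans (by exact_mod_cast hwB)
  by_cases hk2 : Even k
  · rw [if_pos hk2]
    have hb : Even (a * (2 * (n / 2) + k)) := ((even_two_mul _).add hk2).mul_left a
    have hkb : 3 * k ≤ a * (2 * (n / 2) + k) := Nat.mul_le_mul ha (by omega)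
    by_cases h3 : wB ≤ 314 / 100
    · rw [if_pos h3]
      have h4 : (wB : ℝ) ≤ 314 / 100 := by
        have : (wB : ℝ) ≤ ((314 / 100 : ℚ) : ℝ) := by exact_mod_cast h3
        refine this.trans (le_of_eq ?_)
        norm_num
      exact leftover hk2 hb (by omega) hk ht hθ.le
        ((hw.trans h4).trans (by have := Real.pi_gt_d2; linarith))
    · rw [if_neg h3]
      exact leftover6 hk2 hb hkb hk ht hθ.le h6
  · rw [if_neg hk2]
    split_ifs <;> norm_num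

/-- `∏ i ∈ Icc 1 K, ff i ≤ ff i0 ∏ i ∈ Ioc i0 K, ff i`. -/
theorem prod_low {f : ℕ → ℝ} {i0 K : ℕ} (h1 : 1 ≤ i0) (hK : i0 ≤ K) (hf : ∀ i, 1 ≤ i → 0 ≤ f i)
    (hle : ∀ i, 1 ≤ i → i < i0 → f i ≤ 1) :
    ∏ i ∈ Icc 1 K, f i ≤ f i0 * ∏ i ∈ Ioc i0 K, f i := by
  have e : Icc 1 K = Ico 1 i0 ∪ ({i0} ∪ Ioc i0 K) := by
    ext x
    simp only [mem_Icc, mem_union, mem_Ico, mem_singleton, mem_Ioc]
    omega
  have d1 : Disjoint (Ico 1 i0) ({i0} ∪ Ioc i0 K) := by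
    rw [disjoint_left]
    intro x hx hx'
    simp only [mem_union, mem_Ico, mem_singleton, mem_Ioc] at hx hx'
    omega
  have d2 : Disjoint ({i0} : Finset ℕ) (Ioc i0 K) := by
    rw [disjoint_left]
    intro x hx hx'
    simp only [mem_singleton, mem_Ioc] at hx hx'
    omega
  rw [e, prod_union d1, prod_union d2, prod_singleton]
  have h2 : ∏ i ∈ Ico 1 i0, f i ≤ 1 := prod_le_one (fun i hi => hf i (mem_Ico.1 hi).1)
    fun i hi => hle i (mem_Ico.1 hi).1 (mem_Ico.1 hi).2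
  have h3 : 0 ≤ f i0 * ∏ i ∈ Ioc i0 K, f i :=
    mul_nonneg (hf i0 h1) (prod_nonneg fun i hi => hf i (by have := (mem_Ioc.1 hi).1; omega))
  calc _ ≤ 1 * (f i0 * ∏ i ∈ Ioc i0 K, f i) := mul_le_mul_of_nonneg_right h2 h3
    _ = _ := one_mul _

/-- The cost of the shift. -/
theorem cost_le {n k a : ℕ} (hk : 26 ≤ k) (ha : 3 ≤ a) {g θ : ℝ} (hg : 0 < g) (hθ : 0 < θ)
    (hgw : g * (k * θ) ≤ 3 / 4) :
    (g * θ / alt n k a) ^ 2 * ((a * (n + k)) ^ 2 * (k / 6 + 1 / 12) + (k + 1) / 8) ≤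
      g ^ 2 * (k * θ) ^ 2 * (k / 6 + 43 / 100) + 1 / 1000 := by
  have hk' : (26 : ℝ) ≤ k := by exact_mod_cast hk
  have ha' : (3 : ℝ) ≤ a := by exact_mod_cast ha
  have hk0 : (0 : ℝ) < k := by linarith
  have halt : (3 : ℝ) ≤ alt n k a := ha'.trans (alt_ge_a (by omega))
  have halt0 : 0 < alt n k a := by linarith
  -- `a (n + k) / alt ≤ k + 1`
  have h1 : (a : ℝ) * (n + k) ≤ alt n k a * (k + 1) := by
    unfold alt
    rw [div_mul_eq_mul_div, le_div_iff₀ hk0]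
    have h2 : n ≤ 2 * (n / 2) + 1 := by omega
    have h3 : (n + k) * k ≤ (2 * (n / 2) + k) * (k + 1) := by
      nlinarith [Nat.zero_le (n / 2)]
    have h4 : a * ((n + k) * k) ≤ a * ((2 * (n / 2) + k) * (k + 1)) := Nat.mul_le_mul_left _ h3
    have h5 : ((a * ((n + k) * k) : ℕ) : ℝ) ≤ ((a * ((2 * (n / 2) + k) * (k + 1)) : ℕ) : ℝ) :=
      Nat.cast_le.2 h4
    push_cast at h5 ⊢
    linarith
  have h2 : 0 ≤ (a : ℝ) * (n + k) := by positivity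
  set s := g * θ / alt n k a with hs
  have hs0 : 0 < s := by positivity
  have hsa : s * alt n k a = g * θ := by rw [hs]; field_simp
  have h3 : s * (a * (n + k)) ≤ g * θ * (k + 1) := by
    calc s * (a * (n + k)) ≤ s * (alt n k a * (k + 1)) := mul_le_mul_of_nonneg_left h1 hs0.le
      _ = _ := by rw [← mul_assoc, hsa]
  have h4 : (s * (a * (n + k))) ^ 2 ≤ (g * θ * (k + 1)) ^ 2 :=
    pow_le_pow_left₀ (by positivity) h3 2
  -- `(k+1)² (k/6+1/12) ≤ k² (k/6 + .43)`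
  have h5 : ((k : ℝ) + 1) ^ 2 * (k / 6 + 1 / 12) ≤ k ^ 2 * (k / 6 + 43 / 100) := by nlinarith
  have h6 : s * k ≤ 1 / 4 := by
    have : s * 3 ≤ g * θ := by rw [← hsa]; exact mul_le_mul_of_nonneg_left halt hs0.le
    nlinarith
  have h7 : s ^ 2 * ((k + 1) / 8) ≤ 1 / 1000 := by
    have h8 : (s * k) ^ 2 ≤ (1 / 4) ^ 2 := pow_le_pow_left₀ (by positivity) h6 2
    have h9 : ((k : ℝ) + 1) / 8 * 62.5 ≤ k ^ 2 := by nlinarith
    nlinarith [sq_nonneg s]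
  have h8 : s ^ 2 * ((a * (n + k)) ^ 2 * (k / 6 + 1 / 12)) ≤
      g ^ 2 * (k * θ) ^ 2 * (k / 6 + 43 / 100) := by
    calc s ^ 2 * ((a * (n + k)) ^ 2 * (k / 6 + 1 / 12)) =
          (s * (a * (n + k))) ^ 2 * (k / 6 + 1 / 12) := by ring
      _ ≤ (g * θ * (k + 1)) ^ 2 * (k / 6 + 1 / 12) :=
          mul_le_mul_of_nonneg_right h4 (by positivity)
      _ = (g * θ) ^ 2 * ((k + 1) ^ 2 * (k / 6 + 1 / 12)) := by ring
      _ ≤ (g * θ) ^ 2 * (k ^ 2 * (k / 6 + 43 / 100)) :=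
          mul_le_mul_of_nonneg_left h5 (by positivity)
      _ = _ := by ring
  nlinarith

end Pool.Agent.SignedQ.An.In
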