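import Pool.Agent.Lib.MP_cf17a0_co.S1.In9a

/-! # INTER (k t ≤ 1): T9b, soundness of a cell (helper68) -/

namespace Pool.Agent.SignedQ.An.In

open Real Finset

/-- `sin² ≥ (z - z³/6)²`. -/
theorem sin_sq_ge_cube {y z : ℝ} (hz : 0 < z) (hz1 : z ≤ 3 / 2) (hzy : z ≤ y) (hy : y ≤ π / 2) :
    0 < (z - z ^ 3 / 6) ^ 2 ∧ (z - z ^ 3 / 6) ^ 2 ≤ sin y ^ 2 := by
  have h1 : z - z ^ 3 / 6 ≤ sin z := Real.sin_ge_sub_cube hz.le
  have h2 : sin z ≤ sin y := sin_le_sin_of_le_of_le_pi_div_two (by linarith [Real.pi_pos]) hy hzy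
  have h3 : 0 < z - z ^ 3 / 6 := by
    have h4 : z ^ 2 ≤ 9 / 4 := by nlinarith
    have h5 : z - z ^ 3 / 6 = z * (1 - z ^ 2 / 6) := by ring
    rw [h5]
    exact mul_pos hz (by linarith)
  exact ⟨pow_pos h3 2, pow_le_pow_left₀ h3.le (h1.trans h2) 2⟩

theorem rr_nonneg (v : ℕ) (t θ : ℝ) : 0 ≤ rr v t θ := div_nonneg (fac_nonneg _ _ _) (fac_nonneg _ _ _)

theorem ff_nonneg (n a i : ℕ) (t θ : ℝ) : 0 ≤ ff n a i t θ := by
  unfold ff PP
  refine mul_nonneg (div_nonneg (rr_nonneg _ _ _) (mul_nonneg (rr_nonneg _ _ _) (rr_nonneg _ _ _)))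
    (mul_nonneg (rr_nonneg _ _ _) ?_)
  split_ifs
  · exact rr_nonneg _ _ _
  · exact zero_le_one

theorem rho_sq (n k a : ℕ) (t θ : ℝ) :
    rho n k a t θ ^ 2 = GG n k a t θ / GG n k a t 0 := by
  unfold rho
  exact Real.sq_sqrt (div_nonneg (GG_nonneg _ _ _ _ _) (GG_nonneg _ _ _ _ _))

theorem cell_sound (P : Cell) {l : List (ℚ × ℤ × ℕ × ℕ)} (h : P.ok l = true) {n k a : ℕ}
    (par : Par n k a) {t θ : ℝ} (dom : DOM k t) (hkt : k * t ≤ 1) (h0 : P.k0 ≤ k)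
    (h1 : P.k1 = 0 ∨ k < P.k1) (hal : (P.al : ℝ) ≤ alt n k a) (hθ : 0 < θ)
    (hA : (P.wA : ℝ) ≤ k * θ) (hB : k * θ ≤ (P.wB : ℝ)) {t₁ : ℝ}
    (ht₁ : (P.A = true ∧ t₁ = max t (P.g * θ / alt n k a)) ∨ (P.A = false ∧ t₁ = t))
    (hτ0 : P.t0 * θ ≤ t₁) (hτ1 : t₁ ≤ P.t1 * θ) :
    (sigma n k a t / k) ^ 2 * rho n k a t θ ^ 2 ≤
      (if k * θ ≤ 5 / 4 then 1 / 400 else 9 / 160000) := by
  simp only [Cell.ok, Bool.and_eq_true, decide_eq_true_eq] at h
  obtain ⟨⟨⟨⟨⟨⟨⟨⟨⟨⟨⟨⟨⟨⟨⟨⟨⟨⟨ok1, ok2⟩, ok3⟩, ok4⟩, ok5⟩, ok6⟩, ok7⟩, ok8⟩, ok9⟩, ok10⟩, ok11⟩, ok12⟩,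
    ok13⟩, ok14⟩, ok15⟩, ok16⟩, ok17⟩, ok18⟩, hgo⟩ := h
  have hk26 : 26 ≤ k := dom.1
  have ht : 0 < t := dom.2.1
  have ht31 : t ≤ 31 / 2000 := dom.2.2.1
  have h4000 : 4000 * t ≤ k := dom.2.2.2.1
  have hao := par.2.1
  have ha := par.2.2.1
  have hk26' : (26 : ℝ) ≤ k := by exact_mod_cast hk26
  have hk0 : (0 : ℝ) < k := by linarith
  -- casts
  have ok4' : (1 : ℝ) ≤ P.al := by exact_mod_cast ok4
  have ok5' : (1 : ℝ) ≤ P.wA := by exact_mod_cast ok5
  have ok7' : (P.wB : ℝ) ≤ 6 := by exact_mod_cast ok7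
  have ok8' : (P.B0 : ℝ) < P.wA := by exact_mod_cast ok8
  have ok9' : 3 * (P.th : ℝ) ≤ P.B0 := by exact_mod_cast ok9
  have ok10' : (P.B0 : ℝ) ≤ 3 / 2 := by
    have : (P.B0 : ℝ) ≤ ((3 / 2 : ℚ) : ℝ) := by exact_mod_cast ok10
    refine this.trans (le_of_eq ?_); norm_num
  have ok11' : (3 : ℝ) ≤ P.K0 * ((P.B0 - 2 * P.th) - (P.B0 - 2 * P.th) ^ 3 / 6) ^ 2 := by
    exact_mod_cast ok11
  have ok12' : (0 : ℝ) ≤ P.t0 := by exact_mod_cast ok12
  have ok13' : (0 : ℝ) < P.t1 := by exact_mod_cast ok13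
  have ok14' : (P.t1 : ℝ) * P.B0 ≤ 1 / 2 := by
    have : ((P.t1 * P.B0 : ℚ) : ℝ) ≤ ((1 / 2 : ℚ) : ℝ) := by exact_mod_cast ok14
    push_cast at this; exact this
  have ok15' : (0 : ℝ) ≤ P.g := by exact_mod_cast ok15
  have ok16' : (P.g : ℝ) * P.wB ≤ 3 / 4 := by
    have : ((P.g * P.wB : ℚ) : ℝ) ≤ ((3 / 4 : ℚ) : ℝ) := by exact_mod_cast ok16
    push_cast at this; exact this
  -- `c = k t`
  set c : ℝ := k * t with hc
  have hc0 : 0 < c := by positivity
  have hc1 : 4000 * c ≤ (k : ℝ) ^ 2 := by rw [hc]; nlinarith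
  have hc2 : c ≤ 31 * k / 2000 := by rw [hc]; nlinarith
  have hc3 : c ≤ P.cm := by
    rcases ok17 with h2 | ⟨h2, h3⟩
    · have : (1 : ℝ) ≤ P.cm := by exact_mod_cast h2
      exact hkt.trans this
    · have h4 : k < P.k1 := h1.resolve_left h2
      have h5 : (k : ℝ) ≤ (P.k1 : ℝ) - 1 := by
        have : ((k + 1 : ℕ) : ℝ) ≤ P.k1 := by exact_mod_cast h4
        push_cast at this; linarith
      have h6 : ((P.k1 : ℝ) - 1) ^ 2 ≤ 4000 * P.cm := by exact_mod_cast h3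
      have h7 : (k : ℝ) ^ 2 ≤ ((P.k1 : ℝ) - 1) ^ 2 := pow_le_pow_left₀ hk0.le h5 2
      linarith
  -- `km ≤ k`
  have hττ : P.A = false → t₁ = t := by
    intro hA'
    rcases ht₁ with ⟨h2, -⟩ | ⟨-, h2⟩
    · rw [h2] at hA'; exact absurd hA' (by simp)
    · exact h2
  have hct : P.A = false → P.t0 * (k * θ) ≤ c := by
    intro hA'
    have := hττ hA'
    rw [this] at hτ0
    rw [hc]
    nlinarith
  have hkm : P.km ≤ k := by
    refine kOK_sound ok3 (c := c) h0 ?_ hc1 hc2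
    by_cases hA' : P.A = true
    · rw [if_pos hA']; push_cast; exact hc0.le
    · have hA'' : P.A = false := by simpa using hA'
      rw [if_neg hA']
      push_cast
      exact (mul_le_mul_of_nonneg_left hA ok12').trans (hct hA'')
  have hkm0 : 26 ≤ P.km := ok1.trans ok2
  have hkm' : (26 : ℝ) ≤ P.km := by exact_mod_cast hkm0
  have hth : θ ≤ (P.th : ℝ) := by
    unfold Cell.th
    push_cast
    rw [le_div_iff₀ (by linarith)]
    have h2 : (P.km : ℝ) ≤ k := by exact_mod_cast hkm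
    nlinarith
  have hth0 : (0 : ℝ) < P.th := hθ.trans_le hth
  have hB0 : (0 : ℝ) < P.B0 := by linarith
  have hB0q : 0 < P.B0 := by exact_mod_cast hB0
  have h3θ : 3 * θ ≤ P.B0 := by linarith
  have hθB : θ ≤ (P.B0 : ℝ) := by linarith
  have hw : (P.B0 : ℝ) < k * θ := ok8'.trans_le hA
  have hala : (a : ℝ) ≤ alt n k a := alt_ge_a (by omega)
  have ha3 : (3 : ℝ) ≤ a := by exact_mod_cast ha
  have halt0 : 0 < alt n k a := by linarith
  have htt : t ≤ t₁ := by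
    rcases ht₁ with ⟨-, h2⟩ | ⟨-, h2⟩
    · rw [h2]; exact le_max_left _ _
    · rw [h2]
  have ht₁0 : 0 < t₁ := ht.trans_le htt
  -- the index `i0`
  set i0 := cnt θ P.B0 with hi0
  have hi01 : 1 ≤ i0 := by
    rw [hi0, le_cnt hθ hθB]; push_cast; linarith
  have hy0 : (2 * (i0 : ℝ) + 1) * θ ≤ P.B0 := (le_cnt hθ hθB).1 (le_refl _)
  have hy1 : (P.B0 : ℝ) - 2 * P.th ≤ (2 * (i0 : ℝ) + 1) * θ := by
    have h2 : ¬ (i0 + 1 ≤ cnt θ P.B0) := by rw [hi0]; omega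
    rw [le_cnt hθ hθB] at h2
    push_cast at h2
    have h3 := not_le.1 h2
    nlinarith
  have hik : 2 * i0 + 1 ≤ k := by
    have h2 : (2 * (i0 : ℝ) + 1) * θ < k * θ := lt_of_le_of_lt hy0 hw
    have h3 := lt_of_mul_lt_mul_right h2 hθ.le
    have h4 : ((2 * i0 + 1 : ℕ) : ℝ) < k := by push_cast; exact h3
    exact_mod_cast h4.le
  have hpi : (3 / 2 : ℝ) ≤ π / 2 := by have := Real.pi_gt_three; linarith
  -- the bounds of the factors
  have hgo' := go_sound P hθ (by omega) (f := fun i => ff n a i t₁ θ) (fun i => ff_nonneg _ _ _ _ _)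
    h3θ hw hB (fun x y hx hy hpos i hi hik hxi hyi => by
      have hx0 : 0 < x := hB0q.trans_le hx
      have hy6 : y ≤ 6 := hy.trans ok7
      unfold Cell.EE
      rcases ht₁ with ⟨hA', h2⟩ | ⟨hA', h2⟩
      · rw [if_pos hA']
        rw [if_pos hA'] at ok18
        simp only [Bool.and_eq_true, decide_eq_true_eq] at ok18
        obtain ⟨hg, htw⟩ := ok18
        refine ff_le_EA P ha hao hi hik ht₁0 hθ hala hg (by rw [h2]; exact le_max_right _ _) hth ok12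
          hτ0 hτ1 hx0 hy6 ((mul_le_mul_of_nonneg_left hy ok13.le).trans htw) hxi.le hyi
      · have hA'' : ¬ (P.A = true) := by rw [hA']; simp
        rw [if_neg hA'']
        have hpos' : 0 < SL (P.t0 * x) + pblk x y := hpos.resolve_left hA''
        rw [h2] at hτ0 hτ1 ⊢
        exact ff_le_EB P ha hao hi hik ht hθ hkt hal hala ok4 hth ok12 hτ0 hτ1 hx0 hy6 hpos' hxi.le
          hyi) hgo
  obtain ⟨x, y, L, Lam, V, kk, N, hfin, hxw, hwy, hB0x, hprodT⟩ := hgo'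
  have hx0 : 0 < x := hB0q.trans_le hB0x
  -- K0 ≥ 0
  have hz : (0 : ℝ) < P.B0 - 2 * P.th := by linarith
  obtain ⟨hp0, hp1⟩ := sin_sq_ge_cube hz (by linarith) hy1 (by linarith)
  have hK0 : (0 : ℝ) ≤ P.K0 := by
    by_contra hneg
    have := mul_nonpos_of_nonpos_of_nonneg (not_le.1 hneg).le hp0.le
    linarith
  obtain ⟨Kc, hKc0, hKc, hfinal⟩ := fin_sound P (w := k * θ) (c := c) hfin ok1 hx0 h0 h1 hc0 hc1 hc2
    hc3 ok5' hA hB hxw hwy ok12 hct (by exact_mod_cast hK0)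
  -- absorption
  have habs : (sigma n k a t / k) ^ 2 * ff n a i0 t₁ θ ≤ Kc * k := by
    rcases hKc with h2 | h2
    · have h3 := absorb (n := n) (k := k) (a := a) (i := i0) par (t := t) (t₁ := t₁) (θ := θ) dom hi01
        hik hθ htt (by
          rcases ht₁ with ⟨-, h2⟩ | ⟨-, h2⟩
          · rcases le_total t (P.g * θ / alt n k a) with h3 | h3
            · right
              rw [h2, max_eq_right h3]
              have h4 : k * alt n k a * (P.g * θ / alt n k a) = P.g * (k * θ) := by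
                field_simp
              rw [h4]
              exact (mul_le_mul_of_nonneg_left hB ok15').trans ok16'
            · left; rw [h2, max_eq_left h3]
          · left; exact h2) (by
          calc (2 * (i0 : ℝ) + 1) * t₁ ≤ (2 * (i0 : ℝ) + 1) * (P.t1 * θ) :=
                mul_le_mul_of_nonneg_left hτ1 (by positivity)
            _ = P.t1 * ((2 * (i0 : ℝ) + 1) * θ) := by ring
            _ ≤ P.t1 * P.B0 := mul_le_mul_of_nonneg_left hy0 ok13'.le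
            _ ≤ 1 / 2 := ok14')
        (by linarith) hp0 hp1
      refine h3.trans (mul_le_mul_of_nonneg_right ?_ hk0.le)
      rw [h2, div_le_iff₀ hp0]
      exact ok11'
    · have h3 := sigma_triv par dom
      have h4 : ff n a i0 t₁ θ ≤ 1 := ff_le_one ha hao hi01 ht₁0 hθ (by linarith)
      calc (sigma n k a t / k) ^ 2 * ff n a i0 t₁ θ ≤ (sigma n k a t / k) ^ 2 * 1 :=
            mul_le_mul_of_nonneg_left h4 (sq_nonneg _)
        _ ≤ 1001 / 1000 / (k * t) ^ 2 * k := by rw [mul_one]; exact h3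
        _ ≤ Kc * k := mul_le_mul_of_nonneg_right h2 hk0.le
  -- shift
  set C : ℝ := (if P.A then (P.g : ℝ) ^ 2 * (k * θ) ^ 2 * (k / 6 + 43 / 100) + 1 / 1000 else 0) with hC
  have hC0 : 0 ≤ C := by
    rw [hC]
    split_ifs
    · positivity
    · exact le_rfl
  have hrat0 : ∀ s : ℝ, 0 ≤ GG n k a s θ / GG n k a s 0 := fun s =>
    div_nonneg (GG_nonneg _ _ _ _ _) (GG_nonneg _ _ _ _ _)
  have hshift : GG n k a t θ / GG n k a t 0 ≤ exp C * (GG n k a t₁ θ / GG n k a t₁ 0) := by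
    have hone : (1 : ℝ) ≤ exp C := by rw [← Real.exp_zero]; exact exp_le_exp.2 hC0
    have hsame : t₁ = t → GG n k a t θ / GG n k a t 0 ≤
        exp C * (GG n k a t₁ θ / GG n k a t₁ 0) := by
      intro h2
      rw [h2]
      have := mul_le_mul_of_nonneg_right hone (hrat0 t)
      linarith
    rcases ht₁ with ⟨hA', h2⟩ | ⟨hA', h2⟩
    · rcases le_total t (P.g * θ / alt n k a) with h3 | h3
      · have h4 : t₁ = P.g * θ / alt n k a := by rw [h2, max_eq_right h3]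
        refine (shift par.1 hao (by omega) ht htt θ).trans
          (mul_le_mul_of_nonneg_right (exp_le_exp.2 ?_) (hrat0 _))
        rw [hC, if_pos hA', h4]
        have hg : (0 : ℝ) < P.g := by
          rw [if_pos hA'] at ok18
          simp only [Bool.and_eq_true, decide_eq_true_eq] at ok18
          exact_mod_cast ok18.1
        exact cost_le hk26 ha hg hθ ((mul_le_mul_of_nonneg_left hB ok15').trans ok16')
      · exact hsame (by rw [h2, max_eq_left h3])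
    · exact hsame h2
  -- structure
  have hstr : GG n k a t₁ θ / GG n k a t₁ 0 ≤ (ff n a i0 t₁ θ * ∏ i ∈ Ioc i0 ((k - 1) / 2), ff n a i t₁ θ) *
      (if P.wB ≤ 314 / 100 then 1 else 6 : ℝ) := by
    refine (structure_le par.1 hao (by omega) ht₁0 θ).trans ?_
    have h2 := prod_low (f := fun i => ff n a i t₁ θ) (K := (k - 1) / 2) hi01 (by omega)
      (fun i _ => ff_nonneg _ _ _ _ _) (fun i hi hi' => by
        refine ff_le_one ha hao hi ht₁0 hθ ?_
        have h3 : ((2 * i + 1 : ℕ) : ℝ) ≤ ((2 * i0 + 1 : ℕ) : ℝ) := by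
          have : 2 * i + 1 ≤ 2 * i0 + 1 := by omega
          exact_mod_cast this
        push_cast at h3
        have := mul_le_mul_of_nonneg_right h3 hθ.le
        linarith)
    have h3 := left_le par.1 ha (by omega) ok7 ht₁0 hθ hB
    refine mul_le_mul h2 h3 ?_ (mul_nonneg (ff_nonneg _ _ _ _ _)
      (prod_nonneg fun i _ => ff_nonneg _ _ _ _ _))
    split_ifs
    · exact div_nonneg (rr_nonneg _ _ _) (rr_nonneg _ _ _)
    · exact zero_le_one
  have hlft : (0 : ℝ) ≤ (if P.wB ≤ 314 / 100 then 1 else 6 : ℝ) := by split_ifs <;> norm_num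
  rw [rho_sq]
  set lft : ℝ := (if P.wB ≤ 314 / 100 then 1 else 6 : ℝ) with hlftdef
  set PR : ℝ := ∏ i ∈ Ioc i0 ((k - 1) / 2), ff n a i t₁ θ with hPR
  have hPR0 : 0 ≤ PR := prod_nonneg fun i _ => ff_nonneg _ _ _ _ _
  calc (sigma n k a t / k) ^ 2 * (GG n k a t θ / GG n k a t 0)
      ≤ (sigma n k a t / k) ^ 2 * (exp C * ((ff n a i0 t₁ θ * PR) * lft)) :=
        mul_le_mul_of_nonneg_left (hshift.trans
          (mul_le_mul_of_nonneg_left hstr (exp_pos _).le)) (sq_nonneg _)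
    _ = ((sigma n k a t / k) ^ 2 * ff n a i0 t₁ θ) * (exp C * lft * PR) := by ring
    _ ≤ (Kc * k) * (exp C * lft * exp (-((Lam + L * (k * θ - x)) / (2 * θ) - V / 2 -
          ((max 0 (-L) : ℚ) : ℝ) / 2))) := by
        refine mul_le_mul habs (mul_le_mul_of_nonneg_left hprodT
          (mul_nonneg (exp_pos _).le hlft)) (mul_nonneg (mul_nonneg (exp_pos _).le hlft) hPR0)
          (mul_nonneg hKc0 hk0.le)
    _ = Kc * lft * k * exp (C - (k * (Lam + L * (k * θ - x)) / (2 * (k * θ)) - V / 2 -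
          ((max 0 (-L) : ℚ) : ℝ) / 2)) := by
        rw [sub_eq_add_neg C, Real.exp_add]
        have e1 : (k : ℝ) * (Lam + L * (k * θ - x)) / (2 * (k * θ)) =
            (Lam + L * (k * θ - x)) / (2 * θ) := by field_simp
        rw [e1]
        ring
    _ ≤ _ := hfinal

end Pool.Agent.SignedQ.An.In
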