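import Pool.Agent.Lib.MP_cf17a0_co.S1.InChk

/-! # INTER (k t ≤ 1): groups of cells (helper68) -/

namespace Pool.Agent.SignedQ.An.In

/-- A group: class of `k`, range of `w`, ends of the blocks, the A cells cover `(0, lo]` (if `g ≠ 0`),
the B cells cover `(lo, hi]`; a cell is `(t1, km, K0, [(n, kk, N)])`. -/
structure Grp where
  k0 : ℕ
  k1 : ℕ
  al : ℚ
  cm : ℚ
  wA : ℚ
  wB : ℚ
  g : ℚ
  B0 : ℚ
  bs : List ℚ
  lo : ℚ
  hi : ℚ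
  cA : List (ℚ × ℕ × ℚ × List (ℤ × ℕ × ℕ))
  cB : List (ℚ × ℕ × ℚ × List (ℤ × ℕ × ℕ))

def Grp.cell (G : Grp) (A : Bool) (t0 t1 : ℚ) (km : ℕ) (K0 : ℚ) : Cell :=
  ⟨G.k0, G.k1, G.al, G.cm, G.wA, G.wB, G.g, G.B0, A, t0, t1, km, K0⟩

/-- The chain of cells from `t` to `hi`. -/
def Grp.chain (G : Grp) (A : Bool) (t hi : ℚ) : List (ℚ × ℕ × ℚ × List (ℤ × ℕ × ℕ)) → Bool
  | [] => decide (hi ≤ t)
  | (t1, km, K0, d) :: l => (G.cell A t t1 km K0).ok (G.bs.zip d) && G.chain A t1 hi l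

/-- Test of a group. -/
def Grp.ok (G : Grp) : Bool :=
  (if G.g = 0 then true else decide (0 < G.g ∧ G.g ≤ G.lo * G.al) && G.chain true 0 G.lo G.cA) &&
    G.chain false G.lo G.hi G.cB

end Pool.Agent.SignedQ.An.In
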