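import Pool.Agent.Lib.MP_cf17a0_co.S1.In9b
import Pool.Agent.Lib.MP_cf17a0_co.S1.InGrp

/-! # INTER (k t ≤ 1): T9c, soundness of a group (helper68) -/

namespace Pool.Agent.SignedQ.An.In

open Real Finset

/-- A chain of cells covers `(t0, hi]`. -/
theorem chain_sound (G : Grp) (A : Bool) {hi : ℚ} {s : ℝ}
    (cs : List (ℚ × ℕ × ℚ × List (ℤ × ℕ × ℕ))) : ∀ t0 : ℚ, G.chain A t0 hi cs = true →
    (t0 : ℝ) < s → s ≤ hi → ∃ (u v : ℚ) (km : ℕ) (K0 : ℚ) (d : List (ℚ × ℤ × ℕ × ℕ)),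
      (G.cell A u v km K0).ok d = true ∧ (u : ℝ) ≤ s ∧ s ≤ v := by
  induction cs with
  | nil =>
    intro t0 h h1 h2
    have h3 : hi ≤ t0 := by simpa [Grp.chain] using h
    have h4 : (hi : ℝ) ≤ t0 := by exact_mod_cast h3
    linarith
  | cons c cs ih =>
    obtain ⟨t1, km, K0, d⟩ := c
    intro t0 h h1 h2
    simp only [Grp.chain, Bool.and_eq_true] at h
    rcases le_or_gt s (t1 : ℝ) with h3 | h3
    · exact ⟨t0, t1, km, K0, _, h.1, h1.le, h3⟩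
    · exact ih t1 h.2 h3 h2

/-- A group covers `t/θ ∈ (lo, hi]`, and `t/θ ≤ hi` if `g ≠ 0`. -/
theorem grp_sound (G : Grp) (h : G.ok = true) {n k a : ℕ} (par : Par n k a) {t θ : ℝ}
    (dom : DOM k t) (hkt : k * t ≤ 1) (h0 : G.k0 ≤ k) (h1 : G.k1 = 0 ∨ k < G.k1)
    (hal : (G.al : ℝ) ≤ alt n k a) (hal0 : 0 < G.al) (hθ : 0 < θ) (hA : (G.wA : ℝ) ≤ k * θ)
    (hB : k * θ ≤ (G.wB : ℝ)) (hlo : G.g = 0 → (G.lo : ℝ) * θ < t) (hhi : t ≤ G.hi * θ) :
    (sigma n k a t / k) ^ 2 * rho n k a t θ ^ 2 ≤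
      (if k * θ ≤ 5 / 4 then 1 / 400 else 9 / 160000) := by
  simp only [Grp.ok, Bool.and_eq_true] at h
  obtain ⟨hgA, hgB⟩ := h
  have hal' : (0 : ℝ) < G.al := by exact_mod_cast hal0
  have ht : 0 < t := dom.2.1
  rcases lt_or_ge ((G.lo : ℝ) * θ) t with h2 | h2
  · -- B cells
    obtain ⟨u, v, km, K0, d, hd, hu, hv⟩ := chain_sound G false (s := t / θ) G.cB G.lo hgB
      (by rw [lt_div_iff₀ hθ]; exact h2) (by rw [div_le_iff₀ hθ]; exact hhi)
    rw [le_div_iff₀ hθ] at hu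
    rw [div_le_iff₀ hθ] at hv
    exact cell_sound (G.cell false u v km K0) hd par dom hkt h0 h1 hal hθ hA hB
      (t₁ := t) (Or.inr ⟨rfl, rfl⟩) hu hv
  · -- A cells
    have hg : G.g ≠ 0 := fun h3 => absurd (hlo h3) (not_lt.2 h2)
    rw [if_neg hg] at hgA
    simp only [Bool.and_eq_true, decide_eq_true_eq] at hgA
    obtain ⟨⟨hg0, hgl⟩, hch⟩ := hgA
    have hg0' : (0 : ℝ) < G.g := by exact_mod_cast hg0
    have hgl' : (G.g : ℝ) ≤ G.lo * G.al := by exact_mod_cast hgl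
    have halt : 0 < alt n k a := hal'.trans_le hal
    set t₁ := max t (G.g * θ / alt n k a) with ht₁
    have h3 : t₁ ≤ G.lo * θ := by
      rw [ht₁]
      refine max_le h2 ?_
      rw [div_le_iff₀ halt]
      have hlo0 : (0 : ℝ) ≤ G.lo := by
        by_contra hneg
        have := mul_neg_of_neg_of_pos (not_le.1 hneg) hal'
        linarith
      have h4 : (G.lo : ℝ) * G.al ≤ G.lo * alt n k a := mul_le_mul_of_nonneg_left hal hlo0
      nlinarith
    have h4 : 0 < t₁ := ht.trans_le (le_max_left _ _)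
    obtain ⟨u, v, km, K0, d, hd, hu, hv⟩ := chain_sound G true (s := t₁ / θ) G.cA 0 hch
      (by push_cast; positivity) (by rw [div_le_iff₀ hθ]; exact h3)
    rw [le_div_iff₀ hθ] at hu
    rw [div_le_iff₀ hθ] at hv
    exact cell_sound (G.cell true u v km K0) hd par dom hkt h0 h1 hal hθ hA hB
      (t₁ := t₁) (Or.inl ⟨rfl, rfl⟩) hu hv

end Pool.Agent.SignedQ.An.In
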