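import Pool.Agent.Lib.MP_cf17a0_co.S1.InDef

/-! # INTER (k t ≤ 1): rational checker (helper68) -/

namespace Pool.Agent.SignedQ.An.In

/-! ### Rational bounds -/

/-- Taylor lower bound of `sin z`, `z ≥ 0`. -/
def P7 (z : ℚ) : ℚ := z - z ^ 3 / 6 + z ^ 5 / 120 - z ^ 7 / 5040

/-- Lower bound of `|sin q|`, `0 ≤ q ≤ 6`. -/
def slo (q : ℚ) : ℚ :=
  if q ≤ 157 / 100 then P7 q
  else if q < 158 / 100 then 0
  else if q ≤ 314159 / 100000 then P7 (314159 / 100000 - q)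
  else if q < 31416 / 10000 then 0
  else if q ≤ 471 / 100 then P7 (q - 31416 / 10000)
  else if q < 472 / 100 then 0
  else P7 (628318 / 100000 - q)

/-- Lower bound of `sin² y` on `[a, b] ⊆ [0, 6]`. -/
def pblk (a b : ℚ) : ℚ :=
  if b ≤ 314159 / 100000 ∨ 31416 / 10000 ≤ a then max 0 (min (slo a) (slo b)) ^ 2 else 0

/-- `((cosh v + δ)/sinh v)² ≤ 1 + HH δ v² / v²`. -/
def HH (de u : ℚ) : ℚ :=
  (1 - de) ^ 2 / (1 + u / 3 + 2 * u ^ 2 / 45) + 4 * de / (1 + u / 12 + u ^ 2 / 360)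

/-- Upper bound of `sinh² x`, `x ≤ 1`. -/
def SU (x : ℚ) : ℚ := x ^ 2 + 953 / 2500 * x ^ 4

/-- Lower bound of `sinh² x`. -/
def SL (x : ℚ) : ℚ := x ^ 2 + x ^ 4 / 3

/-! ### Cells -/

/-- A cell: `k0 ≤ k` (`< k1`, if `k1 ≠ 0`), `km ≤ k`, `al ≤ alt n k a`, `k t ≤ cm`,
`wA ≤ k θ ≤ wB`, `t0 θ ≤ t₁ ≤ t1 θ`; `A`: `t₁ = max t (g θ / alt n k a)`, otherwise `t₁ = t`. -/
structure Cell where
  k0 : ℕ
  k1 : ℕ
  al : ℚ
  cm : ℚ
  wA : ℚ
  wB : ℚ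
  g : ℚ
  B0 : ℚ
  A : Bool
  t0 : ℚ
  t1 : ℚ
  km : ℕ
  K0 : ℚ

/-- Upper bound of `θ`. -/
def Cell.th (P : Cell) : ℚ := P.wB / P.km

/-- Lower bound of `2 i / (2 i + 1)`. -/
def Cell.fr (P : Cell) (a : ℚ) : ℚ := max (2 / 3) (1 - P.th / a)

/-- Upper bound of `ff i`, `(2i+1) θ ∈ [a, b]`, type B (`t₁ = t`). -/
def Cell.EB (P : Cell) (a b : ℚ) : ℚ :=
  let p := pblk a b
  let X := min 1 (P.t1 * b)
  let x1 := P.t0 * a
  let AA := P.al * P.fr a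
  let de := min 1 (P.al * P.th / 2)
  let r := (1 + 953 / 2500 * X ^ 2) * HH de ((AA * x1) ^ 2) / AA ^ 2
  if r ≤ p then (SU X + r) / (SU X + p)
  else if 0 < SL x1 + p then (SL x1 + r) / (SL x1 + p) else 1000000

/-- Upper bound of `ff i`, `(2i+1) θ ∈ [a, b]`, type A. -/
def Cell.EA (P : Cell) (a b : ℚ) : ℚ :=
  let p := pblk a b
  let S := SU (P.t1 * b)
  let v := P.g * a * P.fr a
  let de := if P.t0 = 0 then 1 else min 1 (P.g * P.th / (2 * P.t0))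
  (1 + HH de (v ^ 2) / v ^ 2) * (S / (S + p))

def Cell.EE (P : Cell) (a b : ℚ) : ℚ := if P.A then P.EA a b else P.EB a b

/-- `exp (1/100) ≤ UU`, `LL ≤ exp (1/100)`, `LT ≤ exp (1/10)`. -/
def UU : ℚ := 10100502 / 10000000
def LL : ℚ := 101005 / 100000
def LT : ℚ := 11051 / 10000

/-- `E ≤ exp (-n/100)`. -/
def expOK (E : ℚ) (n : ℤ) : Bool :=
  if 0 ≤ n then decide (E * UU ^ n.toNat ≤ 1) else decide (E ≤ LL ^ (-n).toNat)

/-- Certifies `kk ≤ k` from `k0 ≤ k`, `q ≤ c`, `4000 c ≤ k²`, `c ≤ 31 k / 2000`. -/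
def kOK (k0 kk : ℕ) (q : ℚ) : Bool :=
  decide (kk ≤ k0) || decide (((kk : ℚ) - 1) ^ 2 < 4000 * q ∧ 1 ≤ kk) ||
    decide (31 * ((kk : ℚ) - 1) < 2000 * q)

/-- Lower end of the `w` range of a block. -/
def Cell.wl (P : Cell) (a : ℚ) : ℚ := max a P.wA

/-- Upper end of the `w` range of a block. -/
def Cell.wr (P : Cell) (b : ℚ) : ℚ :=
  if P.A ∨ P.t0 = 0 then min b P.wB else min (min b P.wB) (P.cm / P.t0)

/-- The target for `(σ ρ / k)²`. -/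
def eps (w : ℚ) : ℚ := if w ≤ 5 / 4 then 1 / 400 else 9 / 160000

/-- The final test in the block `(a, b]`: `L` the exponent (`ff ≤ exp (-L)`), `Lam` the integral up to
`a`, `V` the variation including `L`. -/
def Cell.fin (P : Cell) (a b L Lam V : ℚ) (kk N : ℕ) : Bool :=
  let wl := P.wl a
  let wr := P.wr b
  if wr < wl then true else
    kOK P.k0 kk (if P.A then 0 else P.t0 * wl) &&
    (decide (P.k1 ≠ 0 ∧ P.k1 ≤ kk) ||
      let mm := min (L + (Lam - L * a) / wl) (L + (Lam - L * a) / wr)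
      let gc := if P.A then P.g ^ 2 * wr ^ 2 else 0
      let s := mm / 2 - gc / 6
      let R := (V + max 0 (-L)) / 2 + (if P.A then gc * (43 / 100) + 1 / 1000 else 0)
      let Kc := if P.A ∨ P.t0 = 0 then P.K0 else min P.K0 (1001 / 1000 / (P.t0 * wl) ^ 2)
      let lft : ℚ := if P.wB ≤ 314 / 100 then 1 else 6
      decide (1 ≤ kk * s) && decide ((N : ℚ) ≤ 10 * (kk * s - R)) &&
        decide (Kc * lft * kk ≤ eps wr * LT ^ N))

/-- The blocks `(b, n, kk, N)`, from the left end `a`. -/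
def Cell.go (P : Cell) (a Lam V Lp : ℚ) : List (ℚ × ℤ × ℕ × ℕ) → Bool
  | [] => decide (P.wB ≤ a)
  | (b, n, kk, N) :: l =>
    let L : ℚ := n / 100
    let V' := V + |L - Lp|
    decide (a < b) && decide (b ≤ P.wB) && (P.A || decide (0 < SL (P.t0 * a) + pblk a b)) &&
      expOK (P.EE a b) n && P.fin a b L Lam V' kk N &&
      P.go b (Lam + L * (b - a)) V' L l

/-- The complete test of a cell. -/
def Cell.ok (P : Cell) (l : List (ℚ × ℤ × ℕ × ℕ)) : Bool :=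
  decide (26 ≤ P.k0) && decide (P.k0 ≤ P.km) && kOK P.k0 P.km (if P.A then 0 else P.t0 * P.wA) &&
  decide (1 ≤ P.al) && decide (1 ≤ P.wA) && decide (P.wA ≤ P.wB) && decide (P.wB ≤ 6) &&
  decide (P.B0 < P.wA) && decide (3 * P.th ≤ P.B0) && decide (P.B0 ≤ 3 / 2) &&
  decide (3 ≤ P.K0 * ((P.B0 - 2 * P.th) - (P.B0 - 2 * P.th) ^ 3 / 6) ^ 2) &&
  decide (0 ≤ P.t0) && decide (0 < P.t1) && decide (P.t1 * P.B0 ≤ 1 / 2) &&
  decide (0 ≤ P.g) && decide (P.g * P.wB ≤ 3 / 4) &&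
  decide (1 ≤ P.cm ∨ (P.k1 ≠ 0 ∧ ((P.k1 : ℚ) - 1) ^ 2 ≤ 4000 * P.cm)) &&
  (if P.A then decide (0 < P.g) && decide (P.t1 * P.wB ≤ 1) else true) &&
  P.go P.B0 0 0 0 l

end Pool.Agent.SignedQ.An.In
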