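import Pool.Agent.Lib.MP_cf17a0_co.S1.PI

/-! # INTER (k t ≤ 1): skeleton of the structural lemmas (helper68) -/

namespace Pool.Agent.SignedQ.An.In

open Real Finset

/-- Ratio of a factor. -/
noncomputable def rr (v : ℕ) (t θ : ℝ) : ℝ := fac v t θ / fac v t 0

/-- The denominator pair `(2i, 2i+1)` together with one factor `1`. -/
noncomputable def PP (i : ℕ) (t θ : ℝ) : ℝ := rr 1 t θ / (rr (2 * i) t θ * rr (2 * i + 1) t θ)

end Pool.Agent.SignedQ.An.In
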