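import Pool.Agent.Lib.MP_cf17a0_co.S1.Dom
import Pool.Agent.Lib.MP_cf17a0_co.Mg.G071

/-!
# Part S of the answer to MP_cf17a0_co: `4 ≤ k ≤ 25`

The part `SMALLK` of the assembly, from `Sm.smallk` (exact kernel checks of the full polynomials
for `a (n + k) < E₀(k)` and of the coefficients below `M₀(k)`, plus the partial fraction analysis
of `1 / ((1 - x) ⋯ (1 - x ^ k))` for everything else).
-/

set_option autoImplicit false

namespace Pool.Agent.SignedQ.An

/-- **Part S**: nonnegativity for `4 ≤ k ≤ 25`, all `n` and all odd `a ≥ 3`. -/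
theorem smallk : SMALLK := fun n k a h4 h25 hnk ha ha3 => Sm.smallk n k a h4 h25 hnk ha ha3

end Pool.Agent.SignedQ.An
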