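import Mathlib

/-! # The numerical inequality for Z3 (helper78; please prove: helper37)

`lam k` is the bound `a (n + k) ≥ lam k * k` on `Par`; `h1 k = min (1/(2k)) (k/8000)`. -/

namespace Pool.Agent.SignedQ.An

open Finset

namespace Z3f

/-- `a (n + k) ≥ lam k * k`. -/
def lam (k : ℕ) : ℕ := if k < 30 then 31 else if k < 60 then 20 else if k < 100 then 8 else
  if k < 200 then 5 else 3

/-- the largest `t/2`. -/
noncomputable def h1 (k : ℕ) : ℝ := min (1 / (2 * k)) (k / 8000)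

/-- The `i`-th factor: `x coth y` with `x = (6i+3) h1`, `y = lam (6i+2) k/(k+3) h1`. -/
noncomputable def fct (k i : ℕ) : ℝ := (6 * i + 3) * h1 k *
  (Real.cosh (lam k * (6 * i + 2) * k / (k + 3) * h1 k) /
    Real.sinh (lam k * (6 * i + 2) * k / (k + 3) * h1 k))

theorem coth_le {y : ℝ} (hy : 0 < y) : Real.cosh y / Real.sinh y ≤
    1 + 48 / (24 * (2 * y) + 12 * (2 * y) ^ 2 + 4 * (2 * y) ^ 3 + (2 * y) ^ 4) := by
  have hs : 0 < Real.sinh y := Real.sinh_pos_iff.2 hy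
  have h1 := Real.sum_le_exp_of_nonneg (show (0 : ℝ) ≤ 2 * y by positivity) 5
  simp only [sum_range_succ, sum_range_zero, Nat.factorial, Nat.cast_one, pow_zero, pow_one] at h1
  norm_num at h1
  have h2 : Real.exp (2 * y) = Real.exp y ^ 2 := by
    rw [← Real.exp_nat_mul]; norm_num
  have h3 : Real.cosh y / Real.sinh y = 1 + 2 / (Real.exp (2 * y) - 1) := by
    have h4 : Real.exp (-y) * Real.exp y = 1 := by rw [← Real.exp_add]; simp
    have h5 : 0 < Real.exp y ^ 2 - 1 := by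
      have : 1 < Real.exp y := Real.one_lt_exp_iff.2 hy
      nlinarith
    have h6 : Real.exp y - Real.exp (-y) ≠ 0 := by
      rw [Real.sinh_eq] at hs
      intro h
      rw [h] at hs
      norm_num at hs
    rw [h2, Real.cosh_eq, Real.sinh_eq, div_div_div_cancel_right₀ two_ne_zero]
    have h7 : 1 + 2 / (Real.exp y ^ 2 - 1) = (Real.exp y ^ 2 + 1) / (Real.exp y ^ 2 - 1) := by
      field_simp
      ring
    rw [h7, div_eq_div_iff h6 h5.ne']
    linear_combination (2 * Real.exp y) * h4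
  rw [h3]
  have h8 : 0 < 24 * (2 * y) + 12 * (2 * y) ^ 2 + 4 * (2 * y) ^ 3 + (2 * y) ^ 4 := by positivity
  have h9 : (24 * (2 * y) + 12 * (2 * y) ^ 2 + 4 * (2 * y) ^ 3 + (2 * y) ^ 4) / 24 ≤
      Real.exp (2 * y) - 1 := by
    nlinarith
  have h10 : 2 / (Real.exp (2 * y) - 1) ≤
      2 / ((24 * (2 * y) + 12 * (2 * y) ^ 2 + 4 * (2 * y) ^ 3 + (2 * y) ^ 4) / 24) :=
    div_le_div_of_nonneg_left (by norm_num) (by positivity) h9
  have h11 : 2 / ((24 * (2 * y) + 12 * (2 * y) ^ 2 + 4 * (2 * y) ^ 3 + (2 * y) ^ 4) / 24) =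
      48 / (24 * (2 * y) + 12 * (2 * y) ^ 2 + 4 * (2 * y) ^ 3 + (2 * y) ^ 4) := by
    field_simp
    norm_num
  linarith

/-! ### `26 ≤ k < 200` -/

def pN (k i : ℕ) : ℕ := if k ≤ 63 then lam k * (6 * i + 2) * k ^ 2 else lam k * (6 * i + 2)

def qN (k : ℕ) : ℕ := if k ≤ 63 then 4000 * (k + 3) else k + 3

def xN (k i : ℕ) : ℕ := if k ≤ 63 then (6 * i + 3) * k else 6 * i + 3

def xD (k : ℕ) : ℕ := if k ≤ 63 then 8000 else 2 * k

def SN (p q : ℕ) : ℕ := p * (24 * q ^ 3 + 12 * p * q ^ 2 + 4 * p ^ 2 * q + p ^ 3)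

def prN (k : ℕ) : ℕ → ℕ :=
  Nat.rec 1 (fun i acc => acc * (xN k i * (SN (pN k i) (qN k) + 48 * qN k ^ 4)))

def prD (k : ℕ) : ℕ → ℕ := Nat.rec 1 (fun i acc => acc * (xD k * SN (pN k i) (qN k)))

def chk (k : ℕ) : Bool :=
  Nat.ble (1001 * k * 4 ^ (k / 2 - k / 3) * 10945 ^ k * 414 * (6 * (k / 2 - k / 3) - 3) ^ 2 *
      k ^ 2 * k ^ 2 * prN k (k / 2 - k / 3 - 1) ^ 2 * 1600)
    (1000 * 3 ^ (k / 2 - k / 3) * 10000 ^ k * 100 * 4 * (k - 7) ^ 2 * (k - 1) ^ 2 * k ^ 2 *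
      prD k (k / 2 - k / 3 - 1) ^ 2)

theorem chk_all : ∀ j < 174, chk (26 + j) = true := by decide +kernel

theorem lam_pos (k : ℕ) : 0 < lam k := by
  unfold lam
  split_ifs <;> norm_num

theorem SN_cast (p q : ℕ) : ((SN p q : ℕ) : ℝ) =
    p * (24 * q ^ 3 + 12 * p * q ^ 2 + 4 * p ^ 2 * q + p ^ 3) := by
  unfold SN
  push_cast
  ring

theorem fct_le {k : ℕ} (hk : 26 ≤ k) (i : ℕ) : 0 ≤ fct k i ∧
    fct k i ≤ ((xN k i * (SN (pN k i) (qN k) + 48 * qN k ^ 4) : ℕ) : ℝ) /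
      ((xD k * SN (pN k i) (qN k) : ℕ) : ℝ) := by
  have hk0 : (0 : ℝ) < k := by
    have : 0 < k := by omega
    exact_mod_cast this
  have hl : (0 : ℝ) < lam k := by exact_mod_cast lam_pos k
  have hh : h1 k = (if k ≤ 63 then (k : ℝ) / 8000 else 1 / (2 * k)) := by
    unfold h1
    split_ifs with h
    · refine min_eq_right ?_
      rw [div_le_div_iff₀ (by norm_num) (by positivity)]
      have : (k : ℝ) ≤ 63 := by exact_mod_cast h
      nlinarith
    · refine min_eq_left ?_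
      rw [div_le_div_iff₀ (by positivity) (by norm_num)]
      have : (64 : ℝ) ≤ k := by exact_mod_cast (by omega : 64 ≤ k)
      nlinarith
  have hh0 : 0 < h1 k := by
    rw [hh]
    split_ifs <;> positivity
  set y : ℝ := lam k * (6 * i + 2) * k / (k + 3) * h1 k with hy
  have hy0 : 0 < y := by positivity
  have hc0 : 0 ≤ Real.cosh y / Real.sinh y :=
    div_nonneg (Real.cosh_pos y).le (Real.sinh_pos_iff.2 hy0).le
  have hx : (6 * (i : ℝ) + 3) * h1 k = (xN k i : ℝ) / (xD k : ℝ) := by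
    rw [hh]
    unfold xN xD
    split_ifs
    · push_cast
      ring
    · push_cast
      field_simp
  have hp : 0 < pN k i := by
    unfold pN
    have := lam_pos k
    split_ifs <;> positivity
  have hq : 0 < qN k := by
    unfold qN
    split_ifs <;> positivity
  have hp' : (0 : ℝ) < pN k i := by exact_mod_cast hp
  have hq' : (0 : ℝ) < qN k := by exact_mod_cast hq
  have hz : 2 * y = (pN k i : ℝ) / (qN k : ℝ) := by
    rw [hy, hh]
    unfold pN qN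
    split_ifs
    · push_cast
      field_simp
      ring
    · push_cast
      field_simp
  have hcoth := coth_le hy0
  rw [hz] at hcoth
  have hS : 24 * ((pN k i : ℝ) / qN k) + 12 * ((pN k i : ℝ) / qN k) ^ 2 +
      4 * ((pN k i : ℝ) / qN k) ^ 3 + ((pN k i : ℝ) / qN k) ^ 4 =
      ((SN (pN k i) (qN k) : ℕ) : ℝ) / (qN k : ℝ) ^ 4 := by
    rw [SN_cast]
    field_simp
  have hS0 : (0 : ℝ) < ((SN (pN k i) (qN k) : ℕ) : ℝ) := by
    rw [SN_cast]
    positivity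
  have hxN0 : (0 : ℝ) ≤ (xN k i : ℝ) / (xD k : ℝ) := by positivity
  have hxD0 : (0 : ℝ) < (xD k : ℝ) := by
    unfold xD
    split_ifs
    · norm_num
    · push_cast
      positivity
  unfold fct
  rw [← hy, hx]
  refine ⟨mul_nonneg hxN0 hc0, (mul_le_mul_of_nonneg_left hcoth hxN0).trans (le_of_eq ?_)⟩
  rw [hS]
  push_cast
  field_simp

theorem prD_pos {k : ℕ} (hk : 26 ≤ k) (G : ℕ) : 0 < prD k G := by
  induction G with
  | zero => exact Nat.one_pos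
  | succ G ih =>
    show 0 < prD k G * (xD k * SN (pN k G) (qN k))
    have h1 : 0 < xD k := by
      unfold xD
      split_ifs <;> omega
    have h2 : 0 < SN (pN k G) (qN k) := by
      have hp : 0 < pN k G := by
        unfold pN
        have := lam_pos k
        have hk' : 0 < k := by omega
        split_ifs <;> positivity
      unfold SN
      positivity
    positivity

theorem prod_le {k : ℕ} (hk : 26 ≤ k) (G : ℕ) :
    ∏ i ∈ range G, fct k i ≤ (prN k G : ℝ) / (prD k G : ℝ) := by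
  induction G with
  | zero =>
    rw [prod_range_zero]
    show (1 : ℝ) ≤ ((1 : ℕ) : ℝ) / ((1 : ℕ) : ℝ)
    norm_num
  | succ G ih =>
    rw [prod_range_succ]
    have h1 := fct_le hk G
    have h2 : (0 : ℝ) < prD k G := by exact_mod_cast prD_pos hk G
    have e : (prN k (G + 1) : ℝ) / (prD k (G + 1) : ℝ) = (prN k G : ℝ) / (prD k G : ℝ) *
        (((xN k G * (SN (pN k G) (qN k) + 48 * qN k ^ 4) : ℕ) : ℝ) /
          ((xD k * SN (pN k G) (qN k) : ℕ) : ℝ)) := by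
      show (((prN k G * (xN k G * (SN (pN k G) (qN k) + 48 * qN k ^ 4)) : ℕ)) : ℝ) /
        ((prD k G * (xD k * SN (pN k G) (qN k)) : ℕ) : ℝ) = _
      rw [Nat.cast_mul, Nat.cast_mul (prD k G), mul_div_mul_comm]
    rw [e]
    exact mul_le_mul ih h1.2 h1.1 (by positivity)

theorem prod_nonneg' {k : ℕ} (hk : 26 ≤ k) (G : ℕ) : 0 ≤ ∏ i ∈ range G, fct k i :=
  prod_nonneg fun i _ => (fct_le hk i).1

theorem exp_bd (k : ℕ) : Real.exp (451 / 5000 * k + 71 / 50) ≤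
    (10945 / 10000) ^ k * (414 / 100) := by
  have h1 : Real.exp (451 / 5000) ≤ 10945 / 10000 := by
    have := Real.exp_bound' (x := 451 / 5000) (by norm_num) (by norm_num) (n := 4) (by norm_num)
    refine this.trans ?_
    simp only [sum_range_succ, sum_range_zero, Nat.factorial]
    norm_num
  have h2 : Real.exp (71 / 50) ≤ 414 / 100 := by
    have e : Real.exp (71 / 50) = Real.exp 1 * Real.exp (42 / 100) := by
      rw [← Real.exp_add]; norm_num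
    have h3 : Real.exp 1 < 2.7182818286 := Real.exp_one_lt_d9
    have h4 : Real.exp (42 / 100) ≤ 15222 / 10000 := by
      have := Real.exp_bound' (x := 42 / 100) (by norm_num) (by norm_num) (n := 4) (by norm_num)
      refine this.trans ?_
      simp only [sum_range_succ, sum_range_zero, Nat.factorial]
      norm_num
    rw [e]
    have h5 := mul_le_mul h3.le h4 (Real.exp_pos _).le (by norm_num)
    refine h5.trans (by norm_num)
  rw [Real.exp_add, show (451 : ℝ) / 5000 * k = k * (451 / 5000) by ring, Real.exp_nat_mul]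
  exact mul_le_mul (pow_le_pow_left₀ (Real.exp_pos _).le h1 k) h2 (Real.exp_pos _).le
    (by positivity)

theorem numeric_small (k : ℕ) (hk : 26 ≤ k) (hk2 : k < 200) :
    1001 / 1000 * k * ((4 / 3) ^ (k / 2 - k / 3) * Real.exp (451 / 5000 * k + 71 / 50)) *
      ((6 * (k / 2 - k / 3 : ℕ) - 3) / 2) ^ 2 * ((k : ℝ) / (k - 7)) ^ 2 * ((k : ℝ) / (k - 1)) ^ 2 *
      (∏ i ∈ range (k / 2 - k / 3 - 1), fct k i) ^ 2 ≤ (k / 40 : ℝ) ^ 2 := by
  have h1 : chk k = true := by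
    have := chk_all (k - 26) (by omega)
    rwa [show 26 + (k - 26) = k by omega] at this
  unfold chk at h1
  have h2 := Nat.le_of_ble_eq_true h1
  set g := k / 2 - k / 3 with hg
  have hg1 : 4 ≤ g := by omega
  have h3 : ((1001 * k * 4 ^ g * 10945 ^ k * 414 * (6 * g - 3) ^ 2 * k ^ 2 * k ^ 2 *
      prN k (g - 1) ^ 2 * 1600 : ℕ) : ℝ) ≤ ((1000 * 3 ^ g * 10000 ^ k * 100 * 4 * (k - 7) ^ 2 *
        (k - 1) ^ 2 * k ^ 2 * prD k (g - 1) ^ 2 : ℕ) : ℝ) := by exact_mod_cast h2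
  rw [Nat.cast_mul, Nat.cast_mul, Nat.cast_mul, Nat.cast_mul, Nat.cast_mul, Nat.cast_mul,
    Nat.cast_mul, Nat.cast_mul, Nat.cast_mul, Nat.cast_mul, Nat.cast_mul, Nat.cast_mul,
    Nat.cast_mul, Nat.cast_mul, Nat.cast_mul, Nat.cast_mul, Nat.cast_mul] at h3
  simp only [Nat.cast_pow, Nat.cast_sub (show 3 ≤ 6 * g by omega),
    Nat.cast_sub (show 7 ≤ k by omega), Nat.cast_sub (show 1 ≤ k by omega), Nat.cast_mul,
    Nat.cast_ofNat, Nat.cast_one] at h3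
  have hk0 : (26 : ℝ) ≤ k := by exact_mod_cast hk
  have h4 := prod_le hk (g - 1)
  have h5 := prod_nonneg' hk (g - 1)
  have h6 : (0 : ℝ) < prD k (g - 1) := by exact_mod_cast prD_pos hk (g - 1)
  have h7 : (∏ i ∈ range (g - 1), fct k i) ^ 2 ≤ ((prN k (g - 1) : ℝ) / (prD k (g - 1) : ℝ)) ^ 2 :=
    pow_le_pow_left₀ h5 h4 2
  have h8 := exp_bd k
  have h9 : (0 : ℝ) ≤ ((6 * (g : ℝ) - 3) / 2) ^ 2 := sq_nonneg _
  have h10 : (0 : ℝ) < (k : ℝ) - 7 := by linarith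
  have h11 : (0 : ℝ) < (k : ℝ) - 1 := by linarith
  set N : ℝ := (prN k (g - 1) : ℝ) with hN
  set D : ℝ := (prD k (g - 1) : ℝ) with hD
  have hN0 : 0 ≤ N := Nat.cast_nonneg _
  calc 1001 / 1000 * k * ((4 / 3) ^ g * Real.exp (451 / 5000 * k + 71 / 50)) *
      ((6 * (g : ℝ) - 3) / 2) ^ 2 * ((k : ℝ) / (k - 7)) ^ 2 * ((k : ℝ) / (k - 1)) ^ 2 *
      (∏ i ∈ range (g - 1), fct k i) ^ 2
      ≤ 1001 / 1000 * k * ((4 / 3) ^ g * ((10945 / 10000) ^ k * (414 / 100))) *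
      ((6 * (g : ℝ) - 3) / 2) ^ 2 * ((k : ℝ) / (k - 7)) ^ 2 * ((k : ℝ) / (k - 1)) ^ 2 *
      (N / D) ^ 2 := by
        gcongr
    _ = (1001 * k * 4 ^ g * 10945 ^ k * 414 * (6 * g - 3) ^ 2 * k ^ 2 * k ^ 2 * N ^ 2 * 1600) /
        (1000 * 3 ^ g * 10000 ^ k * 100 * 4 * (k - 7) ^ 2 * (k - 1) ^ 2 * D ^ 2 * 1600) := by
        rw [div_pow, div_pow, div_pow, div_pow, div_pow, div_pow]
        field_simp
        ring
    _ ≤ (1000 * 3 ^ g * 10000 ^ k * 100 * 4 * (k - 7) ^ 2 * (k - 1) ^ 2 * k ^ 2 * D ^ 2) /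
        (1000 * 3 ^ g * 10000 ^ k * 100 * 4 * (k - 7) ^ 2 * (k - 1) ^ 2 * D ^ 2 * 1600) := by
        refine div_le_div_of_nonneg_right ?_ (by positivity)
        linarith
    _ = (k / 40 : ℝ) ^ 2 := by
        field_simp
        norm_num

/-! ### `k ≥ 200` -/

theorem sum_inv (G : ℕ) : ∑ i ∈ range (G + 5), (1 : ℝ) / (6 * i + 2) ≤ 785 / 1000 + G / 32 := by
  induction G with
  | zero =>
    simp only [sum_range_succ, sum_range_zero]
    norm_num
  | succ G ih =>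
    rw [show G + 1 + 5 = (G + 5) + 1 by ring, sum_range_succ]
    have h1 : (1 : ℝ) / (6 * ((G + 5 : ℕ) : ℝ) + 2) ≤ 1 / 32 := by
      refine one_div_le_one_div_of_le (by norm_num) ?_
      push_cast
      have : (0 : ℝ) ≤ G := Nat.cast_nonneg G
      linarith
    push_cast at h1 ih ⊢
    linarith

theorem sum_sq (G : ℕ) : ∑ i ∈ range G, ((6 : ℝ) * i + 2) ^ 2 ≤ 12 * (G : ℝ) ^ 3 := by
  induction G with
  | zero => simp
  | succ G ih =>
    rw [sum_range_succ]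
    push_cast
    have : (0 : ℝ) ≤ G := Nat.cast_nonneg G
    nlinarith

theorem y_coth_le {y : ℝ} (hy : 0 < y) :
    Real.cosh y / Real.sinh y ≤ 1 / y * (1 + 35 / 100 * y ^ 2) := by
  refine (coth_le hy).trans ?_
  have h1 : 0 < 24 * (2 * y) + 12 * (2 * y) ^ 2 + 4 * (2 * y) ^ 3 + (2 * y) ^ 4 := by positivity
  have e : 1 + 48 / (24 * (2 * y) + 12 * (2 * y) ^ 2 + 4 * (2 * y) ^ 3 + (2 * y) ^ 4) =
      (y * (3 + 3 * y + 2 * y ^ 2 + y ^ 3) + 3) / (y * (3 + 3 * y + 2 * y ^ 2 + y ^ 3)) := by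
    field_simp
    ring
  have e2 : 1 / y * (1 + 35 / 100 * y ^ 2) = (1 + 35 / 100 * y ^ 2) / y := by ring
  rw [e, e2, div_le_div_iff₀ (by positivity) hy]
  have key : 0 ≤ 1 / 20 + 1 / 20 * y - 3 / 10 * y ^ 2 + 35 / 100 * y ^ 3 := by
    nlinarith [sq_nonneg (y - 1 / 2), mul_nonneg hy.le (sq_nonneg (y - 1 / 2)),
      mul_nonneg hy.le (sq_nonneg (y - 9 / 20))]
  have h3 : 0 ≤ y ^ 3 * (1 / 20 + 1 / 20 * y - 3 / 10 * y ^ 2 + 35 / 100 * y ^ 3) := by positivity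
  nlinarith

theorem fct_big {k : ℕ} (hk : 200 ≤ k) (i : ℕ) : fct k i ≤ 1 / 3 *
    Real.exp (1 / (6 * i + 2) + 3 / k + 63 / 80 * ((6 * i + 2) ^ 2 / ((k : ℝ) + 3) ^ 2)) := by
  have hk0 : (200 : ℝ) ≤ k := by exact_mod_cast hk
  have hh : h1 k = 1 / (2 * k) := by
    unfold h1
    refine min_eq_left ?_
    rw [div_le_div_iff₀ (by positivity) (by norm_num)]
    nlinarith
  have hl : lam k = 3 := by
    unfold lam
    rw [if_neg (by omega), if_neg (by omega), if_neg (by omega), if_neg (by omega)]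
  unfold fct
  rw [hh, hl]
  set y : ℝ := ((3 : ℕ) : ℝ) * (6 * i + 2) * k / (k + 3) * (1 / (2 * k)) with hy
  have hy' : y = 3 * (6 * i + 2) / (2 * (k + 3)) := by
    rw [hy]
    push_cast
    field_simp
  have hy0 : 0 < y := by
    rw [hy']
    positivity
  have h1 := y_coth_le hy0
  have hx0 : (0 : ℝ) ≤ (6 * i + 3) * (1 / (2 * k)) := by positivity
  have h2 := mul_le_mul_of_nonneg_left h1 hx0
  refine h2.trans ?_
  have e1 : (6 * (i : ℝ) + 3) * (1 / (2 * k)) * (1 / y * (1 + 35 / 100 * y ^ 2)) =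
      1 / 3 * ((1 + 1 / (6 * i + 2)) * (1 + 3 / k) * (1 + 35 / 100 * y ^ 2)) := by
    rw [hy']
    have : (6 * (i : ℝ) + 2) ≠ 0 := by positivity
    have : (k : ℝ) + 3 ≠ 0 := by positivity
    have : (k : ℝ) ≠ 0 := by positivity
    field_simp
    ring
  rw [e1]
  have e2 : 35 / 100 * y ^ 2 = 63 / 80 * ((6 * i + 2) ^ 2 / ((k : ℝ) + 3) ^ 2) := by
    rw [hy']
    field_simp
    ring
  rw [e2, Real.exp_add, Real.exp_add]
  have a1 := Real.add_one_le_exp (1 / (6 * (i : ℝ) + 2))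
  have a2 := Real.add_one_le_exp (3 / (k : ℝ))
  have a3 := Real.add_one_le_exp (63 / 80 * ((6 * (i : ℝ) + 2) ^ 2 / ((k : ℝ) + 3) ^ 2))
  refine mul_le_mul_of_nonneg_left ?_ (by norm_num)
  refine mul_le_mul (mul_le_mul (by linarith) (by linarith) (by positivity) (by positivity))
    (by linarith) (by positivity) (by positivity)

theorem prod_big {k : ℕ} (hk : 200 ≤ k) (G : ℕ) : ∏ i ∈ range G, fct k i ≤ (1 / 3) ^ G *
    Real.exp (∑ i ∈ range G, ((1 : ℝ) / (6 * i + 2) + 3 / k +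
      63 / 80 * ((6 * i + 2) ^ 2 / ((k : ℝ) + 3) ^ 2))) := by
  rw [Real.exp_sum]
  have e : (1 / 3 : ℝ) ^ G = ∏ _i ∈ range G, (1 / 3 : ℝ) := by simp
  rw [e, ← prod_mul_distrib]
  exact prod_le_prod (fun i _ => (fct_le (by omega) i).1) fun i _ => fct_big hk i

theorem exp_19 : Real.exp (19 / 10) ≤ 27 / 4 := by
  have h1 : Real.exp (19 / 10) ^ 10 = Real.exp 1 ^ 19 := by
    rw [← Real.exp_nat_mul, ← Real.exp_nat_mul]
    norm_num
  have h2 : Real.exp 1 < 2.7182818286 := Real.exp_one_lt_d9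
  have h3 : Real.exp 1 ^ 19 ≤ 2.7182818286 ^ 19 := pow_le_pow_left₀ (Real.exp_pos _).le h2.le 19
  have h4 : (2.7182818286 : ℝ) ^ 19 ≤ (27 / 4) ^ 10 := by norm_num
  refine (pow_le_pow_iff_left₀ (Real.exp_pos _).le (by norm_num) (show 10 ≠ 0 by norm_num)).1 ?_
  rw [h1]
  linarith

theorem numeric_big (k : ℕ) (hk : 200 ≤ k) :
    1001 / 1000 * k * ((4 / 3) ^ (k / 2 - k / 3) * Real.exp (451 / 5000 * k + 71 / 50)) *
      ((6 * (k / 2 - k / 3 : ℕ) - 3) / 2) ^ 2 * ((k : ℝ) / (k - 7)) ^ 2 * ((k : ℝ) / (k - 1)) ^ 2 *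
      (∏ i ∈ range (k / 2 - k / 3 - 1), fct k i) ^ 2 ≤ (k / 40 : ℝ) ^ 2 := by
  obtain ⟨G, hG⟩ : ∃ G, k / 2 - k / 3 = G + 5 + 1 := ⟨k / 2 - k / 3 - 6, by omega⟩
  have hG1 : 6 * (G + 5) ≤ k - 2 := by omega
  have hG2 : k ≤ 6 * (G + 5 + 1) + 3 := by omega
  rw [hG, Nat.add_sub_cancel]
  have hk0 : (200 : ℝ) ≤ k := by exact_mod_cast hk
  have hG1' : 6 * ((G : ℝ) + 5) ≤ k - 2 := by
    have : 6 * (G + 5) + 2 ≤ k := by omega
    have : (6 * ((G : ℝ) + 5) + 2) ≤ k := by exact_mod_cast this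
    linarith
  have hG2' : (k : ℝ) ≤ 6 * ((G : ℝ) + 5 + 1) + 3 := by exact_mod_cast hG2
  have hG0 : (0 : ℝ) ≤ G := Nat.cast_nonneg G
  -- the product
  have h1 := prod_big hk (G + 5)
  have h2 := prod_nonneg' (show 26 ≤ k by omega) (G + 5)
  have hsum : (∑ i ∈ range (G + 5), ((1 : ℝ) / (6 * (i : ℝ) + 2) + 3 / (k : ℝ) +
      63 / 80 * ((6 * (i : ℝ) + 2) ^ 2 / ((k : ℝ) + 3) ^ 2)) : ℝ) ≤
        (112 / 100 + 49 / 1000 * (k : ℝ) : ℝ) := by
    rw [sum_add_distrib, sum_add_distrib, sum_const, card_range, nsmul_eq_mul, ← mul_sum,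
      ← sum_div]
    have a1 := sum_inv G
    have a2 := sum_sq (G + 5)
    have a3 : ((G + 5 : ℕ) : ℝ) * (3 / k) ≤ 1 / 2 := by
      rw [mul_div_assoc', div_le_iff₀ (by positivity)]
      push_cast
      linarith
    have a4 : (∑ i ∈ range (G + 5), (6 * (i : ℝ) + 2) ^ 2) / ((k : ℝ) + 3) ^ 2 ≤ k / 18 := by
      rw [div_le_iff₀ (by positivity)]
      refine a2.trans ?_
      push_cast
      have b1 : (6 * ((G : ℝ) + 5)) ^ 3 ≤ (k : ℝ) * ((k : ℝ) + 3) ^ 2 := by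
        calc (6 * ((G : ℝ) + 5)) ^ 3 = (6 * ((G : ℝ) + 5)) * (6 * ((G : ℝ) + 5)) ^ 2 := by ring
          _ ≤ (k : ℝ) * ((k : ℝ) + 3) ^ 2 := by
            refine mul_le_mul (by linarith) ?_ (by positivity) (by positivity)
            exact pow_le_pow_left₀ (by positivity) (by linarith) 2
      nlinarith
    have a5 : 63 / 80 * ((∑ i ∈ range (G + 5), (6 * (i : ℝ) + 2) ^ 2) / ((k : ℝ) + 3) ^ 2) ≤
        63 / 80 * (k / 18) := mul_le_mul_of_nonneg_left a4 (by norm_num)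
    linarith
  have h3 : (∏ i ∈ range (G + 5), fct k i) ^ 2 ≤
      ((1 / 3) ^ (G + 5) * Real.exp (112 / 100 + 49 / 1000 * k)) ^ 2 := by
    refine pow_le_pow_left₀ h2 (h1.trans ?_) 2
    exact mul_le_mul_of_nonneg_left (Real.exp_le_exp.2 hsum) (by positivity)
  -- the other factors
  have h4 : ((6 * ((G + 5 + 1 : ℕ) : ℝ) - 3) / 2) ^ 2 ≤ ((k + 1) / 2) ^ 2 := by
    push_cast
    exact pow_le_pow_left₀ (by linarith) (by linarith) 2
  have h5 : ((k : ℝ) / (k - 7)) ^ 2 ≤ (200 / 193) ^ 2 := by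
    refine pow_le_pow_left₀ (div_nonneg (by linarith) (by linarith)) ?_ 2
    rw [div_le_div_iff₀ (by linarith) (by norm_num)]
    linarith
  have h6 : ((k : ℝ) / (k - 1)) ^ 2 ≤ (200 / 199) ^ 2 := by
    refine pow_le_pow_left₀ (div_nonneg (by linarith) (by linarith)) ?_ 2
    rw [div_le_div_iff₀ (by linarith) (by norm_num)]
    linarith
  have h7 : (4 / 27 : ℝ) ^ (G + 5 + 1) ≤ Real.exp (95 / 100 - 19 / 60 * k) := by
    have b1 : (4 / 27 : ℝ) ≤ Real.exp (-(19 / 10)) := by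
      rw [Real.exp_neg, show (4 / 27 : ℝ) = (27 / 4)⁻¹ by norm_num]
      exact inv_anti₀ (Real.exp_pos _) exp_19
    calc (4 / 27 : ℝ) ^ (G + 5 + 1) ≤ Real.exp (-(19 / 10)) ^ (G + 5 + 1) :=
          pow_le_pow_left₀ (by norm_num) b1 _
      _ = Real.exp (((G + 5 + 1 : ℕ) : ℝ) * -(19 / 10)) := (Real.exp_nat_mul _ _).symm
      _ ≤ _ := by
          rw [Real.exp_le_exp]
          push_cast
          linarith
  have h8 : (k : ℝ) ≤ 100 * Real.exp (k / 100 - 1) := by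
    have := Real.add_one_le_exp ((k : ℝ) / 100 - 1)
    linarith
  have h9 : (442000 : ℝ) ≤ Real.exp 13 := by
    have c1 : (2.7182818283 : ℝ) < Real.exp 1 := Real.exp_one_gt_d9
    have c2 : Real.exp 13 = Real.exp 1 ^ 13 := by
      rw [← Real.exp_nat_mul]; norm_num
    rw [c2]
    have c3 : (2.7182818283 : ℝ) ^ 13 ≤ Real.exp 1 ^ 13 := pow_le_pow_left₀ (by norm_num) c1.le 13
    refine le_trans ?_ c3
    norm_num
  have h10 : ((k + 1) / 2 : ℝ) ^ 2 ≤ 26 / 100 * k * k := by nlinarith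
  calc 1001 / 1000 * k * ((4 / 3) ^ (G + 5 + 1) * Real.exp (451 / 5000 * k + 71 / 50)) *
      ((6 * ((G + 5 + 1 : ℕ) : ℝ) - 3) / 2) ^ 2 * ((k : ℝ) / (k - 7)) ^ 2 *
      ((k : ℝ) / (k - 1)) ^ 2 * (∏ i ∈ range (G + 5), fct k i) ^ 2
      ≤ 1001 / 1000 * k * ((4 / 3) ^ (G + 5 + 1) * Real.exp (451 / 5000 * k + 71 / 50)) *
      (26 / 100 * k * k) * (200 / 193) ^ 2 * (200 / 199) ^ 2 *
      ((1 / 3) ^ (G + 5) * Real.exp (112 / 100 + 49 / 1000 * k)) ^ 2 := by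
        have := h4.trans h10
        gcongr
    _ = 1001 / 1000 * 9 * (26 / 100) * (200 / 193) ^ 2 * (200 / 199) ^ 2 * k ^ 2 *
        (k * ((4 / 27) ^ (G + 5 + 1) * (Real.exp (451 / 5000 * k + 71 / 50) *
          Real.exp (112 / 100 + 49 / 1000 * k) ^ 2))) := by
        have e1 : (4 / 3 : ℝ) ^ (G + 5 + 1) * ((1 / 3) ^ (G + 5)) ^ 2 =
            9 * (4 / 27) ^ (G + 5 + 1) := by
          have e2 : (4 / 27 : ℝ) = 4 / 3 * (1 / 3) ^ 2 := by norm_num
          rw [e2, mul_pow, ← pow_mul, ← pow_mul, show 2 * (G + 5 + 1) = (G + 5) * 2 + 2 by ring,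
            pow_add (1 / 3 : ℝ) ((G + 5) * 2) 2]
          ring
        rw [mul_pow ((1 / 3 : ℝ) ^ (G + 5))]
        linear_combination (1001 / 1000 * k * (26 / 100 * k * k) * (200 / 193) ^ 2 *
          (200 / 199) ^ 2 * Real.exp (451 / 5000 * k + 71 / 50) *
          Real.exp (112 / 100 + 49 / 1000 * k) ^ 2) * e1
    _ ≤ 1001 / 1000 * 9 * (26 / 100) * (200 / 193) ^ 2 * (200 / 199) ^ 2 * k ^ 2 *
        (100 * Real.exp (k / 100 - 1) * (Real.exp (95 / 100 - 19 / 60 * k) *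
          (Real.exp (451 / 5000 * k + 71 / 50) * Real.exp (112 / 100 + 49 / 1000 * k) ^ 2))) := by
        gcongr
    _ = 1001 / 1000 * 9 * (26 / 100) * (200 / 193) ^ 2 * (200 / 199) ^ 2 * k ^ 2 * (100 *
        Real.exp (361 / 100 - (19 / 60 - 1 / 100 - 451 / 5000 - 98 / 1000) * k)) := by
        have e3 : Real.exp (112 / 100 + 49 / 1000 * k) ^ 2 =
            Real.exp (112 / 100 + 49 / 1000 * k) * Real.exp (112 / 100 + 49 / 1000 * k) := sq _
        rw [e3, mul_assoc (100 : ℝ), ← Real.exp_add, ← Real.exp_add, ← Real.exp_add,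
          ← Real.exp_add]
        congr 3
        ring
    _ ≤ 1001 / 1000 * 9 * (26 / 100) * (200 / 193) ^ 2 * (200 / 199) ^ 2 * k ^ 2 * (100 *
        (442000 : ℝ)⁻¹) := by
        have e4 : Real.exp (361 / 100 - (19 / 60 - 1 / 100 - 451 / 5000 - 98 / 1000) * k) ≤
            (442000 : ℝ)⁻¹ := by
          calc _ ≤ Real.exp (-13) := by
                rw [Real.exp_le_exp]
                linarith
            _ = (Real.exp 13)⁻¹ := Real.exp_neg _
            _ ≤ _ := inv_anti₀ (by norm_num) h9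
        gcongr
    _ ≤ (k / 40 : ℝ) ^ 2 := by
        have : (0 : ℝ) ≤ k ^ 2 := sq_nonneg _
        rw [div_pow]
        nlinarith

/-- **The numerical inequality.** True with room: `(1/2) log (left/right) ≤ -1.54` for all `k ≥ 26`
(worst: `k = 27`; `-2.3` at 33, `-2.5` at 63, `< -3.5` for `k ≥ 70`).

`coth y ≤ 1 + 2/(z + z²/2 + z³/6 + z⁴/24)`, `z = 2y` (Taylor for `e^z - 1`), is enough.
For `26 ≤ k < 200`: kernel check of a rational (natural number) inequality for each `k`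
(`exp (451/5000 * k + 71/50) ≤ (10945/10000)^k * 414/100`; `h1 = k/8000` for `k ≤ 63`,
`1/(2k)` for `k ≥ 64`).
For `k ≥ 200`: `lam = 3`, `x coth y ≤ (x/y)(1 + y²/3)`,
`x/y = (1/3) ((6i+3)/(6i+2)) ((k+3)/k) ≤ (1/3) exp (1/(6i+2) + 3/k)`,
`y²/3 = (3/4) (6i+2)²/(k+3)²`, `∑_(i<G) (6i+2)² ≤ 12 G³`, `G = k/2 - k/3 - 1`, `(k-9)/6 ≤ G ≤ (k-2)/6`,
`∑_(i<G) 1/(6i+2) ≤ .785 + (G-5)/32`: the log of the (squared) ratio is `≤ 15.1 + log ((k+1)²/(4k))
- .134 k`. -/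
theorem numeric (k : ℕ) (hk : 26 ≤ k) :
    1001 / 1000 * k * ((4 / 3) ^ (k / 2 - k / 3) * Real.exp (451 / 5000 * k + 71 / 50)) *
      ((6 * (k / 2 - k / 3 : ℕ) - 3) / 2) ^ 2 * ((k : ℝ) / (k - 7)) ^ 2 * ((k : ℝ) / (k - 1)) ^ 2 *
      (∏ i ∈ range (k / 2 - k / 3 - 1), fct k i) ^ 2 ≤ (k / 40 : ℝ) ^ 2 := by
  rcases Nat.lt_or_ge k 200 with h | h
  · exact numeric_small k hk h
  · exact numeric_big k h

end Z3f

end Pool.Agent.SignedQ.An
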