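import Pool.Agent.Lib.MP_cf17a0_co.S1.PI
import Pool.Agent.Lib.MP_cf17a0_co.Mg.G094
import Pool.Agent.Lib.MP_cf17a0_co.S1.Z3f

/-! # The region `|θ - π/3| ≤ 1/k`, `k t ≤ 1` (helper78) -/

namespace Pool.Agent.SignedQ.An

open Polynomial Finset

namespace Z3e

open Z3c

/-- The modulus ratio near `π/3`. -/
theorem GG_ratio_le {n k a : ℕ} (hnk : Even (n * k)) (hao : Odd a) {t : ℝ} (ht : 0 < t)
    (θ : ℝ) (v : ℕ → ℕ) (c N : ℕ) (hc : 1 ≤ c) (hv : ∀ i < k / 3, v i < k)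
    (hinj : ∀ i < k / 3, ∀ j < k / 3, v i = v j → i = j)
    (hm : ∀ i < k / 3, 3 * (c * (N + i + 1)) = a * (n + v i + 1))
    (hX : ∀ i < k / 3, n + v i + 1 ≤ 3 * (n / 3 + i + 1)) :
    GG n k a t θ / GG n k a t 0 * DD k θ *
      ((∏ i ∈ range (k / 2), tau t (a * (2 * (n / 2 + i + 1)))) *
        ∏ i ∈ range (k / 3), tau t (3 * (i + 1))) ^ 2 ≤
    ((Real.cosh t + Real.cos θ) / (Real.cosh t + 1)) ^ ((k + 1) / 2) *
      ((∏ i ∈ range (k / 3), tau t (a * (3 * (n / 3 + i + 1)))) *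
        ∏ i ∈ range (k / 2), tau t (2 * (i + 1))) ^ 2 := by
  have ha : 1 ≤ a := hao.pos
  have hb : ∀ j, 1 ≤ a * (n + j + 1) := fun j => Nat.mul_pos ha (by omega)
  have hcore := core_le ha ht θ v c N hc hv hinj hm
  have hpar : (n + k) / 2 - n / 2 = k / 2 := by
    rcases Nat.even_mul.1 hnk with h | h <;> rw [Nat.even_iff] at h <;> omega
  have eB : ∏ v ∈ range k, g2 (a * (n + v + 1)) t 0 =
      (∏ v ∈ range k, ch t (a * (n + v + 1)) ^ 2) *
        (∏ i ∈ range (k / 2), tau t (a * (2 * (n / 2 + i + 1)))) ^ 2 := by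
    rw [← prod_pow, ← hpar, ← prod_even (fun y => tau t (a * y) ^ 2) n k, ← prod_mul_distrib]
    refine prod_congr rfl fun j _ => ?_
    rw [g2_zero]
    congr 1
    have : Even (a * (n + j + 1)) ↔ Even (n + j + 1) := by
      rw [Nat.even_mul]
      have h2 : ¬ Even a := Nat.not_even_iff_odd.2 hao
      tauto
    by_cases h : Even (n + j + 1)
    · rw [if_pos (this.2 h), if_pos h]
    · rw [if_neg (fun h' => h (this.1 h')), if_neg h]
  have eJ : ∏ v ∈ range k, g2 (v + 1) t 0 = (∏ v ∈ range k, ch t (v + 1) ^ 2) *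
      (∏ i ∈ range (k / 2), tau t (2 * (i + 1))) ^ 2 := by
    have h1 := prod_even (fun y => tau t y ^ 2) 0 k
    simp only [zero_add, Nat.zero_div, Nat.sub_zero] at h1
    rw [← prod_pow, ← h1, ← prod_mul_distrib]
    exact prod_congr rfl fun j _ => g2_zero _ _
  have hq : (Real.cosh t + Real.cos θ) / (Real.cosh t + 1) = g2 1 t θ / g2 1 t 0 := by
    rw [g2_one, g2_one, Real.cos_zero, div_div_div_cancel_right₀ two_ne_zero]
  have hG : ∀ φ, GG n k a t φ = g2 1 t φ ^ ((k + 1) / 2) *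
      ((∏ v ∈ range k, g2 (a * (n + v + 1)) t φ) / ∏ v ∈ range k, g2 (v + 1) t φ) := by
    intro φ
    unfold GG
    rw [← prod_div_distrib]
    simp only [g2_eq_fac]
  rw [hG, hG, eB, eJ, hq, div_pow]
  have hX' : (∏ i ∈ range (k / 3), tau t (a * (n + v i + 1))) ≤
      ∏ i ∈ range (k / 3), tau t (a * (3 * (n / 3 + i + 1))) := by
    apply prod_le_prod
    · intro i _
      exact (tau_pos ht (hb _)).le
    · intro i hi
      exact tau_mono ht (Nat.mul_le_mul_left a (hX i (mem_range.1 hi)))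
  have hPJ : 0 < ∏ v ∈ range k, g2 (v + 1) t θ := prod_pos fun i _ => g2_pos (by omega) ht θ
  have hPB : 0 < ∏ v ∈ range k, g2 (a * (n + v + 1)) t θ :=
    prod_pos fun i _ => g2_pos (hb _) ht θ
  have hCB : 0 < ∏ v ∈ range k, ch t (a * (n + v + 1)) ^ 2 :=
    prod_pos fun i _ => pow_pos (ch_pos _ _) 2
  have hCJ : 0 < ∏ v ∈ range k, ch t (v + 1) ^ 2 := prod_pos fun i _ => pow_pos (ch_pos _ _) 2
  have hY : 0 < ∏ i ∈ range (k / 2), tau t (a * (2 * (n / 2 + i + 1))) :=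
    prod_pos fun i _ => tau_pos ht (Nat.mul_pos ha (by omega))
  have hU : 0 < ∏ i ∈ range (k / 2), tau t (2 * (i + 1)) :=
    prod_pos fun i _ => tau_pos ht (by omega)
  have hX0 : 0 < ∏ i ∈ range (k / 3), tau t (a * (n + v i + 1)) :=
    prod_pos fun i _ => tau_pos ht (hb _)
  have hg1 : 0 < g2 1 t θ ^ ((k + 1) / 2) := pow_pos (g2_pos le_rfl ht θ) _
  have hg0 : 0 < g2 1 t 0 ^ ((k + 1) / 2) := pow_pos (g2_pos le_rfl ht 0) _
  generalize (∏ v ∈ range k, g2 (v + 1) t θ) = PJ at *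
  generalize (∏ v ∈ range k, g2 (a * (n + v + 1)) t θ) = PB at *
  generalize (∏ v ∈ range k, ch t (a * (n + v + 1)) ^ 2) = CB at *
  generalize (∏ v ∈ range k, ch t (v + 1) ^ 2) = CJ at *
  generalize (∏ i ∈ range (k / 2), tau t (a * (2 * (n / 2 + i + 1)))) = Y at *
  generalize (∏ i ∈ range (k / 2), tau t (2 * (i + 1))) = U at *
  generalize (∏ i ∈ range (k / 3), tau t (a * (n + v i + 1))) = X0 at *
  generalize (∏ i ∈ range (k / 3), tau t (a * (3 * (n / 3 + i + 1)))) = X at *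
  generalize (∏ i ∈ range (k / 3), tau t (3 * (i + 1))) = V at *
  generalize g2 1 t θ ^ ((k + 1) / 2) = Q1 at *
  generalize g2 1 t 0 ^ ((k + 1) / 2) = Q0 at *
  generalize DD k θ = D at *
  have e1 : Q1 * (PB / PJ) / (Q0 * (CB * Y ^ 2 / (CJ * U ^ 2))) * D * (Y * V) ^ 2 =
      Q1 / Q0 * U ^ 2 * ((PB * CJ * D * V ^ 2) / (CB * PJ)) := by
    field_simp
  rw [e1]
  have h2 : (PB * CJ * D * V ^ 2) / (CB * PJ) ≤ X ^ 2 := by
    rw [div_le_iff₀ (by positivity)]
    have h3 : X0 ^ 2 ≤ X ^ 2 := pow_le_pow_left₀ hX0.le hX' 2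
    have h4 := mul_le_mul_of_nonneg_left h3 (show 0 ≤ CB * PJ by positivity)
    linarith
  have h3 := mul_le_mul_of_nonneg_left h2 (show 0 ≤ Q1 / Q0 * U ^ 2 by positivity)
  refine h3.trans (le_of_eq (by ring))

/-- The same for all `a`. -/
theorem GG_ratio_le' {n k a : ℕ} (hnk : Even (n * k)) (hao : Odd a) {t : ℝ} (ht : 0 < t)
    (θ : ℝ) :
    GG n k a t θ / GG n k a t 0 * DD k θ *
      ((∏ i ∈ range (k / 2), tau t (a * (2 * (n / 2 + i + 1)))) *
        ∏ i ∈ range (k / 3), tau t (3 * (i + 1))) ^ 2 ≤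
    ((Real.cosh t + Real.cos θ) / (Real.cosh t + 1)) ^ ((k + 1) / 2) *
      ((∏ i ∈ range (k / 3), tau t (a * (3 * (n / 3 + i + 1)))) *
        ∏ i ∈ range (k / 2), tau t (2 * (i + 1))) ^ 2 := by
  by_cases h3 : 3 ∣ a
  · obtain ⟨c, rfl⟩ := h3
    have hc : 1 ≤ c := by
      have := hao.pos
      omega
    exact GG_ratio_le hnk hao ht θ (fun i => i) c n hc (fun i hi => by omega)
      (fun i _ j _ h => h) (fun i _ => by ring) (fun i _ => by omega)
  · refine GG_ratio_le hnk hao ht θ (fun i => 3 * (n / 3 + i + 1) - n - 1) a (n / 3) hao.pos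
      (fun i hi => by omega) (fun i _ j _ h => by omega)
      (fun i _ => ?_) (fun i _ => by omega)
    have : n + (3 * (n / 3 + i + 1) - n - 1) + 1 = 3 * (n / 3 + i + 1) := by omega
    rw [this]
    ring

lemma tau_concave {t : ℝ} (y : ℕ) :
    tau t (6 * y + 2) * tau t (6 * y + 4) ≤ tau t (6 * y + 3) ^ 2 := by
  unfold tau
  obtain ⟨M, hM⟩ : ∃ M, M = ((6 * y + 3 : ℕ) : ℝ) * (t / 2) := ⟨_, rfl⟩
  have e1 : ((6 * y + 2 : ℕ) : ℝ) * (t / 2) = M - t / 2 := by rw [hM]; push_cast; ring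
  have e2 : ((6 * y + 4 : ℕ) : ℝ) * (t / 2) = M + t / 2 := by rw [hM]; push_cast; ring
  rw [e1, e2, ← hM, Real.tanh_eq_sinh_div_cosh, Real.tanh_eq_sinh_div_cosh,
    Real.tanh_eq_sinh_div_cosh, div_mul_div_comm, div_pow]
  have h1 : Real.sinh (M - t / 2) * Real.sinh (M + t / 2) =
      Real.sinh M ^ 2 - Real.sinh (t / 2) ^ 2 := by
    rw [Real.sinh_sub, Real.sinh_add]
    have hc := Real.cosh_sq (t / 2)
    have hc' := Real.cosh_sq M
    linear_combination (Real.sinh M ^ 2) * hc - (Real.sinh (t / 2) ^ 2) * hc'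
  have h2 : Real.cosh (M - t / 2) * Real.cosh (M + t / 2) =
      Real.cosh M ^ 2 + Real.sinh (t / 2) ^ 2 := by
    rw [Real.cosh_sub, Real.cosh_add]
    have hc := Real.cosh_sq (t / 2)
    have hc' := Real.cosh_sq M
    linear_combination (Real.cosh M ^ 2) * hc + (Real.sinh (t / 2) ^ 2) * hc'
  rw [h1, h2]
  have hp : 0 < Real.cosh M := Real.cosh_pos M
  rw [div_le_div_iff₀ (by positivity) (by positivity)]
  have h3 : 0 ≤ Real.sinh (t / 2) ^ 2 := sq_nonneg _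
  have h4 : 0 ≤ Real.sinh M ^ 2 := sq_nonneg _
  nlinarith [mul_nonneg h3 (sq_nonneg (Real.cosh M)), mul_nonneg h3 h4]

/-- concavity of `tanh` through the origin. -/
lemma tanh_scale' {s y : ℝ} (hs : 0 < s) (hs1 : s ≤ 1) (hy : 0 < y) :
    s * Real.tanh y ≤ Real.tanh (s * y) := by
  have h := NearPi.tanh_scale hs hs1 hy
  have h1 : 0 < Real.tanh (s * y) := by
    rw [Real.tanh_eq_sinh_div_cosh]
    exact div_pos (Real.sinh_pos_iff.2 (by positivity)) (Real.cosh_pos _)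
  rw [← mul_pow] at h
  exact le_of_sq_le_sq h h1.le

lemma tau_ratio {t : ℝ} (ht : 0 < t) {x y : ℕ} (hx : 1 ≤ x) (hxy : x ≤ y) :
    x * tau t y ≤ y * tau t x := by
  have hx0 : (0 : ℝ) < x := by exact_mod_cast hx
  have hxy' : (x : ℝ) ≤ y := by exact_mod_cast hxy
  have hy0 : (0 : ℝ) < y := hx0.trans_le hxy'
  have h := tanh_scale' (s := x / y) (y := y * (t / 2)) (by positivity)
    ((div_le_one hy0).2 hxy') (by positivity)
  rw [show (x : ℝ) / y * (y * (t / 2)) = x * (t / 2) by field_simp] at h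
  unfold tau
  have h2 := mul_le_mul_of_nonneg_left h hy0.le
  refine le_trans (le_of_eq ?_) h2
  field_simp

lemma ratio_shift {t : ℝ} (ht : 0 < t) {n k a r : ℕ} (ha : 1 ≤ a) (hk : r < k) :
    ((k : ℝ) - r) * tau t (a * (n + k)) ≤ k * tau t (a * (n + k - r)) := by
  have h1 := tau_ratio ht (x := a * (n + k - r)) (y := a * (n + k))
    (Nat.mul_pos ha (by omega)) (Nat.mul_le_mul_left a (by omega))
  have hA : (0 : ℝ) < a := by exact_mod_cast ha
  have h2 : ((n + k - r : ℕ) : ℝ) = n + k - r := by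
    rw [Nat.cast_sub (by omega)]
    push_cast
    ring
  have h3 : ((n : ℝ) + k - r) * tau t (a * (n + k)) ≤ (n + k) * tau t (a * (n + k - r)) := by
    have e1 : ((a * (n + k - r) : ℕ) : ℝ) = a * (n + k - r) := by
      rw [Nat.cast_mul, h2]
    have e2 : ((a * (n + k) : ℕ) : ℝ) = a * (n + k) := by push_cast; ring
    rw [e1, e2] at h1
    have h4 : (a : ℝ) * ((n + k - r) * tau t (a * (n + k))) ≤
        a * ((n + k) * tau t (a * (n + k - r))) := by linarith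
    exact le_of_mul_le_mul_left h4 hA
  have hp1 : 0 < tau t (a * (n + k)) := tau_pos ht (Nat.mul_pos ha (by omega))
  have hp2 : tau t (a * (n + k - r)) ≤ tau t (a * (n + k)) :=
    tau_mono ht (Nat.mul_le_mul_left a (by omega))
  have hn : (0 : ℝ) ≤ n := Nat.cast_nonneg n
  nlinarith

lemma lam_le {n k a : ℕ} (hpar : Par n k a) : Z3f.lam k * k ≤ a * (n + k) := by
  obtain ⟨-, hao, ha, -⟩ := id hpar
  unfold Z3f.lam
  split_ifs with h1 h2 h3 h4
  · exact hpar.lt30 h1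
  · exact hpar.lt60 h2
  · exact hpar.lt100 h3
  · by_cases h5 : a = 3
    · subst h5
      exact hpar.lt200 h4 rfl
    · have h6 : 5 ≤ a := by
        obtain ⟨b, hb⟩ := hao
        omega
      exact Nat.mul_le_mul h6 (by omega)
  · exact Nat.mul_le_mul ha (by omega)

lemma pos_ge {n k i : ℕ} (hi : i < k / 2 - k / 3 - 1) :
    (n + k) * (6 * i + 2) ≤ (6 * i + max 2 (n - 1)) * (k + 3) := by
  rcases Nat.lt_or_ge n 3 with h | h
  · rw [show max 2 (n - 1) = 2 by omega, mul_comm]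
    exact Nat.mul_le_mul_left _ (by omega)
  · obtain ⟨p, rfl⟩ : ∃ p, n = p + 3 := ⟨n - 3, by omega⟩
    rw [show max 2 (p + 3 - 1) = p + 2 by omega]
    have h2 : 6 * i + 2 ≤ k + 3 := by omega
    have h3 := Nat.mul_le_mul_left p h2
    nlinarith

lemma fct_bound {n k a i : ℕ} {t : ℝ} (hpar : Par n k a) (hk : 26 ≤ k) (ht : 0 < t)
    (h4 : 4000 * t ≤ k) (hkt : k * t ≤ 1) (hi : i < k / 2 - k / 3 - 1) :
    tau t (6 * i + 3) ≤ Z3f.fct k i * tau t (a * (6 * i + max 2 (n - 1))) := by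
  have hk0 : (0 : ℝ) < k := by
    have : (26 : ℝ) ≤ k := by exact_mod_cast hk
    linarith
  have hh : t / 2 ≤ Z3f.h1 k := by
    unfold Z3f.h1
    apply le_min
    · rw [le_div_iff₀ (by positivity)]
      linarith
    · linarith
  have hh1 : 0 < Z3f.h1 k := lt_of_lt_of_le (by positivity) hh
  obtain ⟨Y, hY⟩ : ∃ Y : ℝ, Y = Z3f.lam k * (6 * i + 2) * k / (k + 3) := ⟨_, rfl⟩
  have hlam : (3 : ℝ) ≤ Z3f.lam k := by
    have : 3 ≤ Z3f.lam k := by
      unfold Z3f.lam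
      split_ifs <;> omega
    exact_mod_cast this
  have hY0 : 0 < Y := by rw [hY]; positivity
  have hYle : Y ≤ ((a * (6 * i + max 2 (n - 1)) : ℕ) : ℝ) := by
    rw [hY, div_le_iff₀ (by positivity)]
    have h1 := lam_le hpar
    have h2 := pos_ge (n := n) hi
    have h3 : Z3f.lam k * k * (6 * i + 2) ≤ a * (6 * i + max 2 (n - 1)) * (k + 3) := by
      calc Z3f.lam k * k * (6 * i + 2) ≤ a * (n + k) * (6 * i + 2) :=
            Nat.mul_le_mul_right _ h1
        _ = a * ((n + k) * (6 * i + 2)) := by ring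
        _ ≤ a * ((6 * i + max 2 (n - 1)) * (k + 3)) := Nat.mul_le_mul_left _ h2
        _ = _ := by ring
    have h4 : ((Z3f.lam k * k * (6 * i + 2) : ℕ) : ℝ) ≤
        ((a * (6 * i + max 2 (n - 1)) * (k + 3) : ℕ) : ℝ) := by exact_mod_cast h3
    have e1 : ((Z3f.lam k * k * (6 * i + 2) : ℕ) : ℝ) = Z3f.lam k * (6 * i + 2) * k := by
      push_cast; ring
    have e2 : ((a * (6 * i + max 2 (n - 1)) * (k + 3) : ℕ) : ℝ) =
        ((a * (6 * i + max 2 (n - 1)) : ℕ) : ℝ) * (k + 3) := by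
      rw [Nat.cast_mul (a * (6 * i + max 2 (n - 1)))]
      push_cast
      ring
    rw [e1, e2] at h4
    exact h4
  have h5 : Real.tanh (Y * (t / 2)) ≤ tau t (a * (6 * i + max 2 (n - 1))) := by
    unfold tau
    rw [Real.tanh_eq_sinh_div_cosh, Real.tanh_eq_sinh_div_cosh]
    apply tanh_mono_aux
    exact mul_le_mul_of_nonneg_right hYle (by positivity)
  have h6 := tanh_scale' (s := t / 2 / Z3f.h1 k) (y := Y * Z3f.h1 k) (by positivity)
    ((div_le_one hh1).2 hh) (by positivity)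
  rw [show t / 2 / Z3f.h1 k * (Y * Z3f.h1 k) = Y * (t / 2) by field_simp] at h6
  have h7 : tau t (6 * i + 3) ≤ (6 * i + 3) * (t / 2) := by
    unfold tau
    rw [Real.tanh_eq_sinh_div_cosh]
    refine (tanh_le (by positivity)).trans (le_of_eq ?_)
    push_cast
    ring
  have hth : 0 < Real.tanh (Y * Z3f.h1 k) := by
    rw [Real.tanh_eq_sinh_div_cosh]
    exact div_pos (Real.sinh_pos_iff.2 (by positivity)) (Real.cosh_pos _)
  have e3 : Z3f.fct k i = (6 * i + 3) * Z3f.h1 k / Real.tanh (Y * Z3f.h1 k) := by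
    unfold Z3f.fct
    rw [← hY, Real.tanh_eq_sinh_div_cosh]
    have hs : 0 < Real.sinh (Y * Z3f.h1 k) := Real.sinh_pos_iff.2 (by positivity)
    have hc : 0 < Real.cosh (Y * Z3f.h1 k) := Real.cosh_pos _
    field_simp
  have hf0 : 0 ≤ Z3f.fct k i := by rw [e3]; positivity
  have h8 := mul_le_mul_of_nonneg_left (h6.trans h5) hf0
  refine h7.trans (le_trans (le_of_eq ?_) h8)
  rw [e3]
  generalize Real.tanh (Y * Z3f.h1 k) = q at hth
  field_simp

lemma final_alg {k g t D Y V X U W P Tk T7 T1 Z TG R S Q A : ℝ} (hk : 26 ≤ k) (hg : 0 ≤ g)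
    (ht : 0 < t) (hD : 0 < D) (hY : 0 < Y) (hV : 0 < V) (hX : 0 < X) (hU : 0 < U) (hW : 0 < W)
    (hP : 0 ≤ P) (hTk : 0 < Tk) (hT7 : 0 < T7) (hT1 : 0 < T1) (hTG : 0 < TG) (hA : 0 ≤ A)
    (h1 : R ^ 2 * D * (Y * V) ^ 2 ≤ Q * (X * U) ^ 2) (h2 : Q ≤ A * D)
    (h3 : X * W * T7 * T1 ≤ Y * Tk) (h5 : U ≤ V * (Z * TG)) (h6 : Z ≤ P * W)
    (h7 : TG ≤ (6 * g + 3) * (t / 2)) (h8 : (k - 7) * Tk ≤ k * T7) (h9 : (k - 1) * Tk ≤ k * T1)
    (hσ : S ^ 2 ≤ 1001 / 1000 * k * (Tk / t) ^ 2)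
    (hnum : 1001 / 1000 * k * A * ((6 * (g + 1) - 3) / 2) ^ 2 * (k / (k - 7)) ^ 2 *
      (k / (k - 1)) ^ 2 * P ^ 2 ≤ (k / 40) ^ 2) : S * R ≤ k / 40 := by
  obtain ⟨B, hB⟩ : ∃ B : ℝ, B = P * ((6 * g + 3) / 2) * (k / (k - 7)) * (k / (k - 1)) := ⟨_, rfl⟩
  have hk7 : 0 < k - 7 := by linarith
  have hk1 : 0 < k - 1 := by linarith
  have hk0 : 0 < k := by linarith
  have hB0 : 0 ≤ B := by rw [hB]; positivity
  -- `U ≤ V P W (6 g + 3) (t/2)`
  have c1 : U ≤ V * (P * W * ((6 * g + 3) * (t / 2))) := by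
    refine h5.trans (mul_le_mul_of_nonneg_left ?_ hV.le)
    exact mul_le_mul h6 h7 hTG.le (by positivity)
  have c2 : X * U * (T7 * T1) ≤ Y * Tk * (V * P * ((6 * g + 3) * (t / 2))) := by
    have e1 := mul_le_mul h3 c1 hU.le (by positivity)
    refine le_of_mul_le_mul_left ?_ hW
    calc W * (X * U * (T7 * T1)) = X * W * T7 * T1 * U := by ring
      _ ≤ _ := e1
      _ = _ := by ring
  have c3 : (k - 7) * (k - 1) * Tk ^ 2 ≤ k ^ 2 * (T7 * T1) := by
    have e1 := mul_le_mul h8 h9 (by positivity) (by positivity)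
    calc _ = (k - 7) * Tk * ((k - 1) * Tk) := by ring
      _ ≤ _ := e1
      _ = _ := by ring
  have c4 : X * U * Tk * ((k - 7) * (k - 1)) ≤ k ^ 2 * (Y * V * P * ((6 * g + 3) * (t / 2))) := by
    refine le_of_mul_le_mul_left ?_ hTk
    calc Tk * (X * U * Tk * ((k - 7) * (k - 1))) = X * U * ((k - 7) * (k - 1) * Tk ^ 2) := by ring
      _ ≤ X * U * (k ^ 2 * (T7 * T1)) := mul_le_mul_of_nonneg_left c3 (by positivity)
      _ = k ^ 2 * (X * U * (T7 * T1)) := by ring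
      _ ≤ k ^ 2 * (Y * Tk * (V * P * ((6 * g + 3) * (t / 2)))) :=
        mul_le_mul_of_nonneg_left c2 (by positivity)
      _ = _ := by ring
  have c5 : X * U * (Tk / t) ≤ Y * V * B := by
    have e1 : X * U * (Tk / t) = X * U * Tk * ((k - 7) * (k - 1)) / (t * ((k - 7) * (k - 1))) := by
      field_simp
    have e2 : Y * V * B = k ^ 2 * (Y * V * P * ((6 * g + 3) * (t / 2))) /
        (t * ((k - 7) * (k - 1))) := by
      rw [hB]; field_simp
    rw [e1, e2]
    exact div_le_div_of_nonneg_right c4 (by positivity)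
  have c6 : R ^ 2 * (Y * V) ^ 2 ≤ A * (X * U) ^ 2 := by
    refine le_of_mul_le_mul_left ?_ hD
    calc D * (R ^ 2 * (Y * V) ^ 2) = R ^ 2 * D * (Y * V) ^ 2 := by ring
      _ ≤ Q * (X * U) ^ 2 := h1
      _ ≤ A * D * (X * U) ^ 2 := mul_le_mul_of_nonneg_right h2 (by positivity)
      _ = _ := by ring
  have c7 : (X * U * (Tk / t)) ^ 2 ≤ (Y * V * B) ^ 2 := pow_le_pow_left₀ (by positivity) c5 2
  have c8 : (S * R) ^ 2 ≤ (k / 40) ^ 2 := by
    refine le_trans ?_ hnum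
    have hYV : 0 < (Y * V) ^ 2 := by positivity
    refine le_of_mul_le_mul_left ?_ hYV
    calc (Y * V) ^ 2 * (S * R) ^ 2 = S ^ 2 * (R ^ 2 * (Y * V) ^ 2) := by ring
      _ ≤ 1001 / 1000 * k * (Tk / t) ^ 2 * (A * (X * U) ^ 2) :=
        mul_le_mul hσ c6 (by positivity) (by positivity)
      _ = 1001 / 1000 * k * A * (X * U * (Tk / t)) ^ 2 := by ring
      _ ≤ 1001 / 1000 * k * A * (Y * V * B) ^ 2 := mul_le_mul_of_nonneg_left c7 (by positivity)
      _ = _ := by rw [hB]; ring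
  have c9 : |S * R| ≤ |k / 40| := sq_le_sq.1 c8
  rw [abs_of_nonneg (show 0 ≤ k / 40 by positivity)] at c9
  exact (le_abs_self _).trans c9

/-- **Z3 for `k t ≤ 1`.** -/
theorem Z3_proof : Z3 Qlo := by
  intro n k a t θ hpar hdom hQ hθ
  obtain ⟨hnk, hao, ha, -⟩ := id hpar
  obtain ⟨hk, ht, ht', h4, -⟩ := hdom
  have hkt : (k : ℝ) * t ≤ 1 := hQ
  have hk' : (26 : ℝ) ≤ k := by exact_mod_cast hk
  obtain ⟨δ, hδ⟩ : ∃ δ, δ = θ - Real.pi / 3 := ⟨_, rfl⟩
  have hθδ : θ = Real.pi / 3 + δ := by rw [hδ]; ring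
  have hδk : (k : ℝ) * |δ| ≤ 1 := by
    rw [hδ]
    have := mul_le_mul_of_nonneg_left hθ (show (0 : ℝ) ≤ k by positivity)
    rwa [mul_one_div_cancel (by positivity)] at this
  -- the main estimates
  have h1 := GG_ratio_le' hnk hao ht θ
  have h2 := Z3d.q_pow_le hk ht hkt hδk
  rw [← hθδ] at h2
  have hDpos : 0 < DD k θ := by
    have := Z3d.DD_all hk hδk
    rw [← hθδ] at this
    exact lt_of_lt_of_le (by positivity) this
  have hpar2 : n % 2 = 0 ∨ k % 2 = 0 := by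
    rcases Nat.even_mul.1 hnk with h | h <;> rw [Nat.even_iff] at h <;> omega
  have h3 := Z3b.num_bound (fun y => tau t (a * y))
    (fun y hy => tau_pos ht (Nat.mul_pos (by omega) hy))
    (fun x y _ hxy => tau_mono ht (Nat.mul_le_mul_left a hxy)) n k (by omega) hpar2
  have h5 := Z3b.den_bound (tau t) (fun y hy => tau_pos ht hy) (fun x y _ hxy => tau_mono ht hxy)
    (fun y => tau_concave y) k
  have hG : k / 2 - k / 3 = (k / 2 - k / 3 - 1) + 1 := by omega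
  obtain ⟨G, hGdef⟩ : ∃ G, G = k / 2 - k / 3 - 1 := ⟨_, rfl⟩
  have h6 : ∏ i ∈ range G, tau t (6 * i + 3) ≤ (∏ i ∈ range G, Z3f.fct k i) *
      ∏ i ∈ range G, tau t (a * (6 * i + max 2 (n - 1))) := by
    rw [← prod_mul_distrib]
    apply prod_le_prod
    · intro i _
      exact (tau_pos ht (by omega)).le
    · intro i hi
      exact fct_bound hpar hk ht h4 hkt (by rw [mem_range] at hi; omega)
  have h7 : tau t (6 * G + 3) ≤ (6 * G + 3) * (t / 2) := by
    unfold tau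
    rw [Real.tanh_eq_sinh_div_cosh]
    refine (tanh_le (by positivity)).trans (le_of_eq ?_)
    push_cast
    ring
  have h8 := ratio_shift (n := n) (k := k) (a := a) (r := 7) ht (by omega) (by omega)
  have h9 := ratio_shift (n := n) (k := k) (a := a) (r := 1) ht (by omega) (by omega)
  have hσ := PIarc.sigma_le hnk hao ha hk ht ht'
  have hnum := Z3f.numeric k hk
  rw [hG, prod_range_succ _ (k / 2 - k / 3 - 1)] at h5
  rw [← hGdef] at h3 h5 hnum hG
  rw [hG] at h2 hnum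
  have hW : 0 < ∏ i ∈ range G, tau t (a * (6 * i + max 2 (n - 1))) :=
    prod_pos fun i _ => tau_pos ht (Nat.mul_pos (by omega) (by omega))
  have hX : 0 < ∏ i ∈ range (k / 3), tau t (a * (3 * (n / 3 + i + 1))) :=
    prod_pos fun i _ => tau_pos ht (Nat.mul_pos (by omega) (by omega))
  have hY : 0 < ∏ i ∈ range (k / 2), tau t (a * (2 * (n / 2 + i + 1))) :=
    prod_pos fun i _ => tau_pos ht (Nat.mul_pos (by omega) (by omega))
  have hU : 0 < ∏ i ∈ range (k / 2), tau t (2 * (i + 1)) :=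
    prod_pos fun i _ => tau_pos ht (by omega)
  have hV : 0 < ∏ i ∈ range (k / 3), tau t (3 * (i + 1)) :=
    prod_pos fun i _ => tau_pos ht (by omega)
  have hZ : 0 < ∏ i ∈ range G, tau t (6 * i + 3) := prod_pos fun i _ => tau_pos ht (by omega)
  have hTG : 0 < tau t (6 * G + 3) := tau_pos ht (by omega)
  have hTk : 0 < tau t (a * (n + k)) := tau_pos ht (Nat.mul_pos (by omega) (by omega))
  have hT7 : 0 < tau t (a * (n + k - 7)) := tau_pos ht (Nat.mul_pos (by omega) (by omega))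
  have hT1 : 0 < tau t (a * (n + k - 1)) := tau_pos ht (Nat.mul_pos (by omega) (by omega))
  have hrho : rho n k a t θ ^ 2 = GG n k a t θ / GG n k a t 0 := by
    unfold rho
    rw [Real.sq_sqrt (div_nonneg (GG_nonneg _ _ _ _ _) (GG_nonneg _ _ _ _ _))]
  have hrho0 : 0 ≤ rho n k a t θ := Real.sqrt_nonneg _
  have hσ' : sigma n k a t ≤ √(1001 / 1000 * k) * (tau t (a * (n + k)) / t) := hσ
  have hσ0 : 0 ≤ sigma n k a t := Real.sqrt_nonneg _
  have hσ2 : sigma n k a t ^ 2 ≤ 1001 / 1000 * k * (tau t (a * (n + k)) / t) ^ 2 := by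
    have h := pow_le_pow_left₀ hσ0 hσ' 2
    rw [mul_pow, Real.sq_sqrt (by positivity)] at h
    exact h
  have hPf : 0 ≤ ∏ i ∈ range G, Z3f.fct k i := by
    have := hZ.trans_le h6
    exact (pos_of_mul_pos_left this hW.le).le
  push_cast at h8 h9 hnum
  rw [← hrho] at h1
  generalize (∏ i ∈ range G, tau t (a * (6 * i + max 2 (n - 1)))) = W at *
  generalize (∏ i ∈ range (k / 3), tau t (a * (3 * (n / 3 + i + 1)))) = X at *
  generalize (∏ i ∈ range (k / 2), tau t (a * (2 * (n / 2 + i + 1)))) = Y at *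
  generalize (∏ i ∈ range (k / 2), tau t (2 * (i + 1))) = U at *
  generalize (∏ i ∈ range (k / 3), tau t (3 * (i + 1))) = V at *
  generalize (∏ i ∈ range G, tau t (6 * i + 3)) = Z at *
  generalize (∏ i ∈ range G, Z3f.fct k i) = P at *
  generalize tau t (6 * G + 3) = TG at *
  generalize tau t (a * (n + k)) = Tk at *
  generalize tau t (a * (n + k - 7)) = T7 at *
  generalize tau t (a * (n + k - 1)) = T1 at *
  generalize DD k θ = D at *
  generalize rho n k a t θ = R at *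
  generalize sigma n k a t = S at *
  generalize ((Real.cosh t + Real.cos θ) / (Real.cosh t + 1)) ^ ((k + 1) / 2) = Q at *
  have hEx : 0 < Real.exp (451 / 5000 * k + 71 / 50) := Real.exp_pos _
  generalize Real.exp (451 / 5000 * k + 71 / 50) = Ex at *
  have hA : 0 ≤ (4 / 3 : ℝ) ^ (G + 1) * Ex := by positivity
  exact final_alg (g := G) hk' (Nat.cast_nonneg G) ht hDpos hY hV hX hU hW hPf hTk hT7 hT1 hTG hA
    h1 h2 h3 h5 h6 h7 h8 h9 hσ2 hnum

end Z3e

end Pool.Agent.SignedQ.An
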