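import Pool.Agent.Lib.MP_cf17a0_co.S1.AsmC
import Pool.Agent.Lib.MP_cf17a0_co.S1.Sig
import Pool.Agent.Lib.MP_cf17a0_co.Mg.G064
import Pool.Agent.Lib.MP_cf17a0_co.Mg.G091
import Pool.Agent.Lib.MP_cf17a0_co.S1.PI
import Pool.Agent.Lib.MP_cf17a0_co.S1.Z3e
import Pool.Agent.Lib.MP_cf17a0_co.Mg.G063
import Pool.Agent.Lib.MP_cf17a0_co.S1.F8
import Pool.Agent.Lib.MP_cf17a0_co.S1.SmallK
import Pool.Agent.Lib.MP_cf17a0_co.Mg.G056
import Pool.Agent.Lib.MP_cf17a0_co.Mg.G049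
import Pool.Agent.Lib.MP_cf17a0_co.Mg.G043
import Pool.Agent.Lib.MP_cf17a0_co.Mg.G028

/-! # The theorem -/

namespace Pool.Agent.SignedQ.An

open Polynomial Finset

theorem out_lo : OUT Qlo := out_of_parts In.INTER_Qlo Far.far_lo Z3e.Z3_proof (PI_proof Qlo)

theorem parts : Parts where
  sig := sig
  core := Core.core
  core' := Core.core_prime
  lo := out_lo
  hi := OUT_Qhi

theorem edge_proof : EDGE := fun n k a _ h26 _ he ha ha3 hf m hm =>
  KC.edge_poly ha ha3 h26 he hf m hm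

theorem all : All where
  parts := parts
  loc := loc
  smallk := smallk
  fd := fd_proof
  edge := edge_proof
  tail := Pool.Agent.Lib.MP_cf17a0_co.S1.tail

end Pool.Agent.SignedQ.An
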