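import Pool.Agent.Lib.MP_cf17a0_co.Mg.G003
import Pool.Agent.Lib.MP_cf17a0_co.Mg.G017

/-! # The arc near `θ = π` (helper78)

For `x = -z = exp (-t - iε)` every pair `(1 - x^b) / (1 - x^j)` is controlled by Lemma E. -/

namespace Pool.Agent.SignedQ.An

open Polynomial Finset Real

namespace NearPi

/-! ## One pair -/

/-- `tanh² w (1 + S / sinh² w) ≤ 1` if `S ≤ 1`. -/
lemma tanh_sq_mul_le {w S : ℝ} (hw : 0 < w) (hS1 : S ≤ 1) :
    tanh w ^ 2 * (1 + S / sinh w ^ 2) ≤ 1 := by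
  have hs : 0 < sinh w := sinh_pos_iff.2 hw
  have hc : 0 < cosh w := cosh_pos w
  have h1 : tanh w ^ 2 * (1 + S / sinh w ^ 2) = (sinh w ^ 2 + S) / cosh w ^ 2 := by
    rw [tanh_eq_sinh_div_cosh]
    field_simp
  rw [h1, div_le_one (by positivity), cosh_sq]
  linarith

lemma tanh_sq_le_one (w : ℝ) : tanh w ^ 2 ≤ 1 := by
  have h := tanh_lt_one w
  have h' := neg_one_lt_tanh w
  nlinarith

/-- triple angle. -/
lemma sinh_three' (u : ℝ) : sinh (3 * u) = sinh u * (3 + 4 * sinh u ^ 2) := by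
  rw [sinh_three_mul]; ring

lemma cosh_three' (u : ℝ) : cosh (3 * u) = cosh u * (1 + 4 * sinh u ^ 2) := by
  rw [cosh_three_mul]
  have h := cosh_sq u
  have e : cosh u ^ 3 = cosh u * cosh u ^ 2 := by ring
  rw [e, h]
  ring

/-- `1/sinh² u - c²/sinh² (cu) ≥ (8/27) tanh² (cu) / sinh² u` for `c ≥ 3`. -/
lemma var_lower {c u : ℝ} (hc : 3 ≤ c) (hu : 0 < u) :
    8 / 27 * tanh (c * u) ^ 2 / sinh u ^ 2 ≤ 1 / sinh u ^ 2 - c ^ 2 / sinh (c * u) ^ 2 := by
  have hcu : 0 < c * u := by positivity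
  -- `v = c u / 3 ≥ u`
  obtain ⟨v, hv⟩ : ∃ v, v = c * u / 3 := ⟨_, rfl⟩
  have hw : c * u = 3 * v := by rw [hv]; ring
  have hv0 : 0 < v := by rw [hv]; positivity
  have huv : u ≤ v := by rw [hv]; nlinarith
  have hsu : 0 < sinh u := sinh_pos_iff.2 hu
  have hsv : 0 < sinh v := sinh_pos_iff.2 hv0
  have hcv : 0 < cosh v := cosh_pos v
  have h1 : 0 ≤ 1 / sinh u ^ 2 - (v / u) ^ 2 / sinh (v / u * u) ^ 2 :=
    CF17.N3.var_nonneg (by rw [le_div_iff₀ hu]; linarith) hu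
  rw [div_mul_cancel₀ v hu.ne'] at h1
  have h2 : (v / u) ^ 2 / sinh v ^ 2 ≤ 1 / sinh u ^ 2 := by linarith
  obtain ⟨S, hS⟩ : ∃ S, S = sinh v ^ 2 := ⟨_, rfl⟩
  have hS0 : 0 < S := by rw [hS]; positivity
  have hc2 : cosh v ^ 2 = 1 + S := by rw [hS, cosh_sq]; ring
  have e1 : sinh (3 * v) ^ 2 = S * (3 + 4 * S) ^ 2 := by
    rw [sinh_three', mul_pow, ← hS]
  have e2 : cosh (3 * v) ^ 2 = (1 + S) * (1 + 4 * S) ^ 2 := by
    rw [cosh_three', mul_pow, ← hS, hc2]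
  have e3 : tanh (3 * v) ^ 2 = S * (3 + 4 * S) ^ 2 / ((1 + S) * (1 + 4 * S) ^ 2) := by
    rw [tanh_eq_sinh_div_cosh, div_pow, e1, e2]
  -- the inequality at `v`
  have h3 : 9 / (3 + 4 * S) ^ 2 ≤ 1 - 8 / 27 * (S * (3 + 4 * S) ^ 2 / ((1 + S) * (1 + 4 * S) ^ 2)) := by
    have hp : 0 < (3 + 4 * S) ^ 2 := by positivity
    have hp2 : 0 < (1 + S) * (1 + 4 * S) ^ 2 := by positivity
    have e4 : 1 - 8 / 27 * (S * (3 + 4 * S) ^ 2 / ((1 + S) * (1 + 4 * S) ^ 2)) - 9 / (3 + 4 * S) ^ 2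
        = 8 * S * (351 * S + 1566 * S ^ 2 + 1824 * S ^ 3 + 608 * S ^ 4) /
          (27 * (3 + 4 * S) ^ 2 * ((1 + S) * (1 + 4 * S) ^ 2)) := by
      field_simp
      ring
    have h5 : 0 ≤ 8 * S * (351 * S + 1566 * S ^ 2 + 1824 * S ^ 3 + 608 * S ^ 4) /
          (27 * (3 + 4 * S) ^ 2 * ((1 + S) * (1 + 4 * S) ^ 2)) := by positivity
    linarith
  rw [hw, e3]
  have hk : 0 ≤ 1 - 8 / 27 * (S * (3 + 4 * S) ^ 2 / ((1 + S) * (1 + 4 * S) ^ 2)) := by
    have : 0 ≤ 9 / (3 + 4 * S) ^ 2 := by positivity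
    linarith
  have h6 : c ^ 2 / sinh (3 * v) ^ 2 = (v / u) ^ 2 / sinh v ^ 2 * (9 / (3 + 4 * S) ^ 2) := by
    have hc' : c = 3 * (v / u) := by
      rw [hv]; field_simp
    rw [e1, ← hS, hc']
    field_simp
    ring
  have h7 : c ^ 2 / sinh (3 * v) ^ 2 ≤
      1 / sinh u ^ 2 * (1 - 8 / 27 * (S * (3 + 4 * S) ^ 2 / ((1 + S) * (1 + 4 * S) ^ 2))) := by
    rw [h6]
    calc (v / u) ^ 2 / sinh v ^ 2 * (9 / (3 + 4 * S) ^ 2)
        ≤ (v / u) ^ 2 / sinh v ^ 2 *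
          (1 - 8 / 27 * (S * (3 + 4 * S) ^ 2 / ((1 + S) * (1 + 4 * S) ^ 2))) :=
          mul_le_mul_of_nonneg_left h3 (by positivity)
      _ ≤ _ := mul_le_mul_of_nonneg_right h2 hk
  have e5 : 8 / 27 * (S * (3 + 4 * S) ^ 2 / ((1 + S) * (1 + 4 * S) ^ 2)) / sinh u ^ 2
      = 1 / sinh u ^ 2 * (8 / 27 * (S * (3 + 4 * S) ^ 2 / ((1 + S) * (1 + 4 * S) ^ 2))) := by ring
  rw [e5]
  linarith

lemma sin_sq_lower {x : ℝ} (hx : π / 2 ≤ x) (hx' : x ≤ 5 / 2) : 355 / 1000 ≤ sin x ^ 2 := by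
  have hpi1 := pi_gt_d2
  have hpi2 := pi_lt_d2
  have h1 : sin (64 / 100) ≤ sin (π - x) := by
    apply sin_le_sin_of_le_of_le_pi_div_two <;> linarith
  have h2 : (64 / 100 : ℝ) - (64 / 100) ^ 3 / 6 < sin (64 / 100) :=
    sin_gt_sub_cube (by norm_num)
  rw [sin_pi_sub] at h1
  have h3 : (596 / 1000 : ℝ) ≤ sin x := by
    have : (596 / 1000 : ℝ) ≤ 64 / 100 - (64 / 100) ^ 3 / 6 := by norm_num
    linarith
  nlinarith

/-- The weight estimate: for `c ≥ 3`, `0 ≤ x ≤ 5/2`. -/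
lemma pair_weight {c x u : ℝ} (hc : 3 ≤ c) (hu : 0 < u) (hx : 0 ≤ x) (hx' : x ≤ 5 / 2) :
    (1 + sin (c * x) ^ 2 / sinh (c * u) ^ 2) *
      (1 + 8 / 27 * (tanh (c * u) ^ 2 * sin x ^ 2) / sinh u ^ 2) ≤ 1 + sin x ^ 2 / sinh u ^ 2 := by
  have hsu : 0 < sinh u := sinh_pos_iff.2 hu
  have hcu : 0 < c * u := by positivity
  have hsw : 0 < sinh (c * u) := sinh_pos_iff.2 hcu
  rcases le_total x (π / 2) with h | h
  · have h1 := CF17.N3.pairE (c := c) (x := x) (u := u) (by linarith) hu hx h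
    have h2 := var_lower hc hu
    have h3 : 1 + 8 / 27 * (tanh (c * u) ^ 2 * sin x ^ 2) / sinh u ^ 2
        ≤ 1 + sin x ^ 2 * (1 / sinh u ^ 2 - c ^ 2 / sinh (c * u) ^ 2) := by
      have h4 := mul_le_mul_of_nonneg_left h2 (sq_nonneg (sin x))
      have e : 8 / 27 * (tanh (c * u) ^ 2 * sin x ^ 2) / sinh u ^ 2
          = sin x ^ 2 * (8 / 27 * tanh (c * u) ^ 2 / sinh u ^ 2) := by ring
      rw [e]
      linarith
    exact le_trans (mul_le_mul_of_nonneg_left h3 (by positivity)) h1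
  · have hs := sin_sq_lower h hx'
    have h1 := tanh_sq_mul_le hcu (sin_sq_le_one (c * x))
    have h2 : c * sinh u ≤ sinh (c * u) := by
      have h3 := CF17.N3.var_nonneg (c := c) (u := u) (by linarith) hu
      rw [sub_nonneg, div_le_div_iff₀ (by positivity) (by positivity)] at h3
      have h4 : (c * sinh u) ^ 2 ≤ sinh (c * u) ^ 2 := by nlinarith
      exact le_of_sq_le_sq h4 hsw.le
    have h3 : sin (c * x) ^ 2 / sinh (c * u) ^ 2 ≤ 1 / (9 * sinh u ^ 2) := by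
      apply div_le_div₀ zero_le_one (sin_sq_le_one _) (by positivity)
      have h5 : 3 * sinh u ≤ sinh (c * u) := by nlinarith
      nlinarith
    have h4 : 1 / (9 * sinh u ^ 2) ≤ 1 / 2 * (sin x ^ 2 / sinh u ^ 2) := by
      rw [one_div, mul_inv, ← one_div, ← one_div]
      have e : 1 / 2 * (sin x ^ 2 / sinh u ^ 2) = (1 / 2 * sin x ^ 2) * (1 / sinh u ^ 2) := by ring
      rw [e]
      apply mul_le_mul_of_nonneg_right _ (by positivity)
      linarith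
    have e : (1 + sin (c * x) ^ 2 / sinh (c * u) ^ 2) *
        (1 + 8 / 27 * (tanh (c * u) ^ 2 * sin x ^ 2) / sinh u ^ 2)
        = 1 + sin (c * x) ^ 2 / sinh (c * u) ^ 2 + 8 / 27 *
          (tanh (c * u) ^ 2 * (1 + sin (c * x) ^ 2 / sinh (c * u) ^ 2)) *
            (sin x ^ 2 / sinh u ^ 2) := by ring
    rw [e]
    have h6 : 8 / 27 * (tanh (c * u) ^ 2 * (1 + sin (c * x) ^ 2 / sinh (c * u) ^ 2)) *
            (sin x ^ 2 / sinh u ^ 2) ≤ 8 / 27 * 1 * (sin x ^ 2 / sinh u ^ 2) := by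
      apply mul_le_mul_of_nonneg_right _ (by positivity)
      linarith
    have h7 : 0 ≤ sin x ^ 2 / sinh u ^ 2 := by positivity
    linarith

/-- The unit estimate. -/
lemma pair_unit {j : ℕ} (hj : 1 ≤ j) {c h e : ℝ} (hc : 3 ≤ c) (hh : 0 < h) (he : 0 ≤ e)
    (hx' : j * e ≤ 5 / 2) :
    (sinh h ^ 2 + sin e ^ 2) * (tanh (c * (j * h)) ^ 2 *
      (1 + sin (c * (j * e)) ^ 2 / sinh (c * (j * h)) ^ 2)) * j ^ 2
      ≤ 18 * (sinh (j * h) ^ 2 + sin (j * e) ^ 2) := by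
  have hj0 : (1 : ℝ) ≤ j := by exact_mod_cast hj
  have hu : 0 < j * h := by positivity
  have hx : 0 ≤ j * e := by positivity
  obtain ⟨x, hxe⟩ : ∃ x, x = j * e := ⟨_, rfl⟩
  obtain ⟨u, hue⟩ : ∃ u, u = j * h := ⟨_, rfl⟩
  rw [← hxe] at hx hx' ⊢
  rw [← hue] at hu ⊢
  have hsu : 0 < sinh u := sinh_pos_iff.2 hu
  have hsh : 0 < sinh h := sinh_pos_iff.2 hh
  have hcu : 0 < c * u := by positivity
  have hsw : 0 < sinh (c * u) := sinh_pos_iff.2 hcu
  -- `j sinh h ≤ sinh (j h)`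
  have h2 : j * sinh h ≤ sinh u := by
    have h3 := CF17.N3.var_nonneg (c := (j : ℝ)) (u := h) hj0 hh
    rw [← hue, sub_nonneg, div_le_div_iff₀ (by positivity) (by positivity)] at h3
    have h4 : (j * sinh h) ^ 2 ≤ sinh u ^ 2 := by nlinarith
    exact le_of_sq_le_sq h4 hsu.le
  have h3 : j ^ 2 * sinh h ^ 2 ≤ sinh u ^ 2 := by
    have : 0 ≤ j * sinh h := by positivity
    nlinarith [mul_self_le_mul_self this h2]
  have h4 : j ^ 2 * sin e ^ 2 ≤ x ^ 2 := by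
    have h5 : |sin e| ≤ |e| := abs_sin_le_abs
    have h6 : sin e ^ 2 ≤ e ^ 2 := sq_le_sq.2 h5
    rw [hxe]
    nlinarith [sq_nonneg (j : ℝ)]
  have hS := tanh_sq_mul_le hcu (sin_sq_le_one (c * x))
  have hS0 : 0 ≤ tanh (c * u) ^ 2 * (1 + sin (c * x) ^ 2 / sinh (c * u) ^ 2) := by positivity
  obtain ⟨M, hM⟩ : ∃ M, M = tanh (c * u) ^ 2 * (1 + sin (c * x) ^ 2 / sinh (c * u) ^ 2) := ⟨_, rfl⟩
  rw [← hM] at hS hS0 ⊢
  rcases le_total x (π / 2) with hcase | hcase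
  · -- `M (sinh² u + 8/27 sin² x) ≤ sinh² u + sin² x`
    have h5 := pair_weight hc hu hx (by linarith)
    have h6 : M * (1 + 8 / 27 * sin x ^ 2 / sinh u ^ 2) ≤ 1 + sin x ^ 2 / sinh u ^ 2 := by
      refine le_trans ?_ h5
      rw [hM]
      have hT := tanh_sq_le_one (c * u)
      have e1 : tanh (c * u) ^ 2 * (1 + sin (c * x) ^ 2 / sinh (c * u) ^ 2) *
          (1 + 8 / 27 * sin x ^ 2 / sinh u ^ 2) = (1 + sin (c * x) ^ 2 / sinh (c * u) ^ 2) *
          (tanh (c * u) ^ 2 + 8 / 27 * (tanh (c * u) ^ 2 * sin x ^ 2) / sinh u ^ 2) := by ring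
      rw [e1]
      apply mul_le_mul_of_nonneg_left _ (by positivity)
      linarith
    have h7 : M * (sinh u ^ 2 + 8 / 27 * sin x ^ 2) ≤ sinh u ^ 2 + sin x ^ 2 := by
      have h8 := mul_le_mul_of_nonneg_right h6 (sq_nonneg (sinh u))
      have e1 : M * (1 + 8 / 27 * sin x ^ 2 / sinh u ^ 2) * sinh u ^ 2
          = M * (sinh u ^ 2 + 8 / 27 * sin x ^ 2) := by field_simp
      have e2 : (1 + sin x ^ 2 / sinh u ^ 2) * sinh u ^ 2 = sinh u ^ 2 + sin x ^ 2 := by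
        field_simp
      rw [e1, e2] at h8
      exact h8
    -- `x² ≤ (18 * 8 / 27) sin² x`
    have h8 : x ^ 2 ≤ 18 * (8 / 27 * sin x ^ 2) := by
      have h9 : 2 / π * x ≤ sin x := mul_le_sin hx hcase
      have hpi2 := pi_lt_d2
      have hs0 : 0 ≤ 2 / π * x := by positivity
      have hs1 : 0 ≤ sin x := hs0.trans h9
      have h10 : x ≤ (63 / 40) * sin x := by
        have e3 : x = π / 2 * (2 / π * x) := by field_simp
        have e4 : π / 2 * (2 / π * x) ≤ π / 2 * sin x := mul_le_mul_of_nonneg_left h9 (by positivity)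
        have e5 : π / 2 * sin x ≤ 63 / 40 * sin x := by
          apply mul_le_mul_of_nonneg_right _ hs1
          linarith
        linarith
      nlinarith
    have h11 : (sinh h ^ 2 + sin e ^ 2) * j ^ 2 ≤ 18 * (sinh u ^ 2 + 8 / 27 * sin x ^ 2) := by
      nlinarith [sq_nonneg (sinh u)]
    calc (sinh h ^ 2 + sin e ^ 2) * M * j ^ 2 = M * ((sinh h ^ 2 + sin e ^ 2) * j ^ 2) := by ring
      _ ≤ M * (18 * (sinh u ^ 2 + 8 / 27 * sin x ^ 2)) := mul_le_mul_of_nonneg_left h11 hS0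
      _ = 18 * (M * (sinh u ^ 2 + 8 / 27 * sin x ^ 2)) := by ring
      _ ≤ _ := by linarith
  · have hs := sin_sq_lower hcase hx'
    have h5 : x ^ 2 ≤ 18 * sin x ^ 2 := by nlinarith
    have h6 : (sinh h ^ 2 + sin e ^ 2) * M * j ^ 2 ≤ (sinh h ^ 2 + sin e ^ 2) * 1 * j ^ 2 := by
      apply mul_le_mul_of_nonneg_right _ (by positivity)
      apply mul_le_mul_of_nonneg_left hS (by positivity)
    nlinarith [sq_nonneg (sin x), sq_nonneg (sinh u)]

/-! ## The factors of `f` near `π` -/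

lemma g2_pi_sub (j : ℕ) (t ε : ℝ) :
    g2 j t (π - ε) = sinh (j * (t / 2)) ^ 2 + sin (j * (ε / 2)) ^ 2 := by
  rcases Nat.even_or_odd j with hj | hj
  · rw [g2_even hj]
    obtain ⟨i, hi⟩ := hj
    have e1 : (j : ℝ) * (π - ε) / 2 = (i : ℝ) * π - j * (ε / 2) := by
      rw [hi]; push_cast; ring
    have e2 : sin ((i : ℝ) * π - j * (ε / 2)) ^ 2 = sin (j * (ε / 2)) ^ 2 := by
      rw [sin_sub, sin_nat_mul_pi, zero_mul, zero_sub, neg_sq, mul_pow]
      have : cos (i * π) ^ 2 = 1 := by rw [cos_sq', sin_nat_mul_pi]; ring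
      rw [this, one_mul]
    rw [e1, e2]
    congr 2
    ring_nf
  · rw [g2_odd hj]
    obtain ⟨i, hi⟩ := hj
    have e1 : (j : ℝ) * (π - ε) / 2 = (i : ℝ) * π + (π / 2 - j * (ε / 2)) := by
      rw [hi]; push_cast; ring
    have e2 : cos ((i : ℝ) * π + (π / 2 - j * (ε / 2))) ^ 2 = sin (j * (ε / 2)) ^ 2 := by
      rw [cos_add, sin_nat_mul_pi, zero_mul, sub_zero, mul_pow, cos_pi_div_two_sub]
      have : cos (i * π) ^ 2 = 1 := by rw [cos_sq', sin_nat_mul_pi]; ring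
      rw [this, one_mul]
    rw [e1, e2]
    congr 2
    ring_nf

/-- the `j`-th factor. -/
noncomputable def F (n a : ℕ) (t ε : ℝ) (j : ℕ) : ℝ :=
  (g2 (a * (n + j)) t (π - ε) / g2 (a * (n + j)) t 0) / (g2 j t (π - ε) / g2 j t 0)

/-- the normalised pair. -/
noncomputable def P (n a : ℕ) (t ε : ℝ) (j : ℕ) : ℝ :=
  (1 + sin ((a * (n + j) : ℕ) * (ε / 2)) ^ 2 / sinh ((a * (n + j) : ℕ) * (t / 2)) ^ 2) /
    (1 + sin (j * (ε / 2)) ^ 2 / sinh (j * (t / 2)) ^ 2)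

/-- the weight. -/
noncomputable def wt (n a : ℕ) (t ε : ℝ) (j : ℕ) : ℝ :=
  1 / (1 + 8 / 27 * (tanh ((a * (n + j) : ℕ) * (t / 2)) ^ 2 * sin (j * (ε / 2)) ^ 2) /
    sinh (j * (t / 2)) ^ 2)

noncomputable def q (t ε : ℝ) : ℝ := (cosh t + cos (π - ε)) / (cosh t + 1)

lemma q_eq (t ε : ℝ) : q t ε = (sinh (t / 2) ^ 2 + sin (ε / 2) ^ 2) / cosh (t / 2) ^ 2 := by
  unfold q
  rw [cos_pi_sub]
  have h1 : cosh t = 2 * sinh (t / 2) ^ 2 + 1 := by
    have := cosh_two_mul (t / 2)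
    rw [show 2 * (t / 2) = t by ring, cosh_sq] at this
    linarith
  have h2 : cos ε = 1 - 2 * sin (ε / 2) ^ 2 := by
    have := cos_two_mul' (ε / 2)
    rw [show 2 * (ε / 2) = ε by ring, cos_sq'] at this
    linarith
  have h3 : cosh (t / 2) ^ 2 = sinh (t / 2) ^ 2 + 1 := cosh_sq _
  rw [h1, h2, h3]
  have h4 : 0 < sinh (t / 2) ^ 2 + 1 := by positivity
  field_simp
  ring

lemma q_nonneg (t ε : ℝ) : 0 ≤ q t ε := by
  rw [q_eq]; positivity

lemma q_le (t ε : ℝ) : q t ε ≤ sinh (t / 2) ^ 2 + sin (ε / 2) ^ 2 := by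
  rw [q_eq]
  apply div_le_self (by positivity)
  have := one_le_cosh (t / 2)
  nlinarith

section

variable {n a : ℕ} {t ε : ℝ} {j : ℕ}

lemma sinh_pos_mul (ht : 0 < t) (hj : 1 ≤ j) : 0 < sinh ((j : ℝ) * (t / 2)) := by
  apply sinh_pos_iff.2
  have : (1 : ℝ) ≤ j := by exact_mod_cast hj
  positivity

lemma P_nonneg : 0 ≤ P n a t ε j := by
  unfold P; positivity

lemma wt_nonneg : 0 ≤ wt n a t ε j := by
  unfold wt; positivity

lemma wt_le_one : wt n a t ε j ≤ 1 := by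
  unfold wt
  rw [div_le_one (by positivity)]
  have : 0 ≤ 8 / 27 * (tanh ((a * (n + j) : ℕ) * (t / 2)) ^ 2 * sin (j * (ε / 2)) ^ 2) /
    sinh (j * (t / 2)) ^ 2 := by positivity
  linarith

lemma b_eq (hj : 1 ≤ j) (y : ℝ) :
    ((a * (n + j) : ℕ) : ℝ) * y = ((a * (n + j) : ℕ) : ℝ) / j * (j * y) := by
  have : (j : ℝ) ≠ 0 := by positivity
  field_simp

lemma c_ge (ha : 3 ≤ a) (hj : 1 ≤ j) : (3 : ℝ) ≤ ((a * (n + j) : ℕ) : ℝ) / j := by
  have hj0 : (0 : ℝ) < j := by positivity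
  rw [le_div_iff₀ hj0]
  have : 3 * j ≤ a * (n + j) := Nat.mul_le_mul ha (Nat.le_add_left j n)
  exact_mod_cast this

lemma P_le_wt (ha : 3 ≤ a) (ht : 0 < t) (hj : 1 ≤ j) (hε : 0 ≤ ε) (hjε : j * ε ≤ 5) :
    P n a t ε j ≤ wt n a t ε j := by
  have hj0 : (0 : ℝ) < j := by positivity
  have h := pair_weight (c := ((a * (n + j) : ℕ) : ℝ) / j) (x := j * (ε / 2)) (u := j * (t / 2))
    (c_ge ha hj) (by positivity) (by positivity) (by linarith)
  rw [← b_eq hj, ← b_eq hj] at h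
  unfold P wt
  rw [div_le_div_iff₀ (by positivity) (by positivity)]
  linarith

/-- the unit. -/
lemma unit_le (ha : 3 ≤ a) (ht : 0 < t) (hj : 1 ≤ j) (hε : 0 ≤ ε) (hjε : j * ε ≤ 5) :
    q t ε * (P n a t ε j * (cosh (j * (t / 2)) ^ 2 / sinh (j * (t / 2)) ^ 2) *
      tanh ((a * (n + j) : ℕ) * (t / 2)) ^ 2) ≤ 18 * cosh (j * (t / 2)) ^ 2 / j ^ 2 := by
  have hj0 : (0 : ℝ) < j := by positivity
  have h := pair_unit (j := j) (c := ((a * (n + j) : ℕ) : ℝ) / j) (h := t / 2) (e := ε / 2) hj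
    (c_ge ha hj) (by positivity) (by positivity) (by linarith)
  rw [← b_eq hj, ← b_eq hj] at h
  have hs : 0 < sinh ((j : ℝ) * (t / 2)) := sinh_pos_mul ht hj
  have hq := q_le t ε
  obtain ⟨M, hM⟩ : ∃ M, M = tanh ((a * (n + j) : ℕ) * (t / 2)) ^ 2 *
      (1 + sin ((a * (n + j) : ℕ) * (ε / 2)) ^ 2 / sinh ((a * (n + j) : ℕ) * (t / 2)) ^ 2) :=
    ⟨_, rfl⟩
  have hM0 : 0 ≤ M := by rw [hM]; positivity
  rw [← hM] at h
  have e1 : q t ε * (P n a t ε j * (cosh (j * (t / 2)) ^ 2 / sinh (j * (t / 2)) ^ 2) *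
      tanh ((a * (n + j) : ℕ) * (t / 2)) ^ 2) =
      cosh (j * (t / 2)) ^ 2 * (q t ε * M / (sinh (j * (t / 2)) ^ 2 + sin (j * (ε / 2)) ^ 2)) := by
    rw [hM]
    unfold P
    have h1 : 1 + sin ((j : ℝ) * (ε / 2)) ^ 2 / sinh (j * (t / 2)) ^ 2 =
        (sinh (j * (t / 2)) ^ 2 + sin (j * (ε / 2)) ^ 2) / sinh (j * (t / 2)) ^ 2 := by
      field_simp
    rw [h1]
    have h2 : sinh ((j : ℝ) * (t / 2)) ^ 2 + sin (j * (ε / 2)) ^ 2 ≠ 0 := by positivity
    field_simp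
  rw [e1]
  have e2 : 18 * cosh ((j : ℝ) * (t / 2)) ^ 2 / j ^ 2 = cosh (j * (t / 2)) ^ 2 * (18 / j ^ 2) := by
    ring
  rw [e2]
  apply mul_le_mul_of_nonneg_left _ (by positivity)
  rw [div_le_div_iff₀ (by positivity) (by positivity)]
  have h3 : q t ε * M * j ^ 2 ≤ (sinh (t / 2) ^ 2 + sin (ε / 2) ^ 2) * M * j ^ 2 := by
    apply mul_le_mul_of_nonneg_right _ (by positivity)
    exact mul_le_mul_of_nonneg_right hq hM0
  linarith

lemma F_eq (ha : 1 ≤ a) (ht : 0 < t) (hj : 1 ≤ j) : F n a t ε j =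
    P n a t ε j * (if Even j then 1 else (cosh (j * (t / 2)) ^ 2 / sinh (j * (t / 2)) ^ 2)) *
      (if Even (a * (n + j)) then 1 else tanh ((a * (n + j) : ℕ) * (t / 2)) ^ 2) := by
  have hb : 1 ≤ a * (n + j) := Nat.mul_pos ha (by omega)
  have hs : 0 < sinh ((j : ℝ) * (t / 2)) := sinh_pos_mul ht hj
  have hsb : 0 < sinh (((a * (n + j) : ℕ) : ℝ) * (t / 2)) := sinh_pos_mul ht hb
  have hcb : 0 < cosh (((a * (n + j) : ℕ) : ℝ) * (t / 2)) := cosh_pos _
  have hcj : 0 < cosh ((j : ℝ) * (t / 2)) := cosh_pos _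
  unfold F P
  rw [g2_pi_sub, g2_pi_sub]
  have e1 : (1 : ℝ) + sin ((j : ℝ) * (ε / 2)) ^ 2 / sinh (j * (t / 2)) ^ 2 =
      (sinh (j * (t / 2)) ^ 2 + sin (j * (ε / 2)) ^ 2) / sinh (j * (t / 2)) ^ 2 := by
    field_simp
  have e2 : (1 : ℝ) + sin (((a * (n + j) : ℕ) : ℝ) * (ε / 2)) ^ 2 /
      sinh (((a * (n + j) : ℕ) : ℝ) * (t / 2)) ^ 2 =
      (sinh (((a * (n + j) : ℕ) : ℝ) * (t / 2)) ^ 2 + sin (((a * (n + j) : ℕ) : ℝ) * (ε / 2)) ^ 2) /
        sinh (((a * (n + j) : ℕ) : ℝ) * (t / 2)) ^ 2 := by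
    field_simp
  have h1 : 0 < sinh ((j : ℝ) * (t / 2)) ^ 2 + sin (j * (ε / 2)) ^ 2 := by positivity
  have h2 : 0 < sinh (((a * (n + j) : ℕ) : ℝ) * (t / 2)) ^ 2 +
      sin (((a * (n + j) : ℕ) : ℝ) * (ε / 2)) ^ 2 := by positivity
  rw [e1, e2, tanh_eq_sinh_div_cosh]
  have z : ∀ m : ℕ, (m : ℝ) * t / 2 = m * (t / 2) := fun m => by ring
  by_cases hej : Even j
  · rw [if_pos hej, g2_zero_even hej, z]
    by_cases heb : Even (a * (n + j))
    · rw [if_pos heb, g2_zero_even heb, z]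
      field_simp
    · rw [if_neg heb, g2_zero_odd (Nat.not_even_iff_odd.1 heb), z]
      field_simp
  · rw [if_neg hej, g2_zero_odd (Nat.not_even_iff_odd.1 hej), z]
    by_cases heb : Even (a * (n + j))
    · rw [if_pos heb, g2_zero_even heb, z]
      field_simp
    · rw [if_neg heb, g2_zero_odd (Nat.not_even_iff_odd.1 heb), z]
      field_simp

/-- `y coth y` is nondecreasing (squared form). -/
lemma coth_mono {y z : ℝ} (hy : 0 < y) (hyz : y ≤ z) :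
    y ^ 2 * (cosh y ^ 2 / sinh y ^ 2) ≤ z ^ 2 * (cosh z ^ 2 / sinh z ^ 2) := by
  have hz : 0 < z := hy.trans_le hyz
  have hsy : 0 < sinh y := sinh_pos_iff.2 hy
  have hsz : 0 < sinh z := sinh_pos_iff.2 hz
  have h := CF17.N3.hyp_mono hy hyz
  have e : ∀ w : ℝ, 0 < sinh w → w ^ 2 * (cosh w ^ 2 / sinh w ^ 2) =
      w ^ 2 / sinh w ^ 2 + w ^ 2 / 3 + 2 / 3 * w ^ 2 := by
    intro w hw
    rw [cosh_sq]
    field_simp
    ring
  rw [e y hsy, e z hsz]
  nlinarith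

lemma tanh_scale {s y : ℝ} (hs : 0 < s) (hs1 : s ≤ 1) (hy : 0 < y) :
    s ^ 2 * tanh y ^ 2 ≤ tanh (s * y) ^ 2 := by
  have hsy : 0 < s * y := by positivity
  have h := coth_mono hsy (show s * y ≤ y by nlinarith)
  have h1 : 0 < sinh y := sinh_pos_iff.2 hy
  have h2 : 0 < sinh (s * y) := sinh_pos_iff.2 hsy
  have h3 : 0 < cosh y := cosh_pos y
  have h4 : 0 < cosh (s * y) := cosh_pos _
  rw [tanh_eq_sinh_div_cosh, tanh_eq_sinh_div_cosh, div_pow, div_pow]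
  rw [mul_pow] at h
  have h5 : s ^ 2 * (cosh (s * y) ^ 2 / sinh (s * y) ^ 2) ≤ cosh y ^ 2 / sinh y ^ 2 := by
    have hy2 : 0 < y ^ 2 := by positivity
    have e : s ^ 2 * y ^ 2 * (cosh (s * y) ^ 2 / sinh (s * y) ^ 2) =
        y ^ 2 * (s ^ 2 * (cosh (s * y) ^ 2 / sinh (s * y) ^ 2)) := by ring
    rw [e] at h
    exact le_of_mul_le_mul_left h hy2
  rw [← mul_div_assoc, div_le_div_iff₀ (by positivity) (by positivity)] at h5
  rw [← mul_div_assoc, div_le_div_iff₀ (by positivity) (by positivity)]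
  linarith

lemma sinh_le_mul {y z B : ℝ} (hy : 0 < y) (hyz : y ≤ z) (hB : sinh z ≤ B * z) :
    sinh y ≤ B * y := by
  have hz : 0 < z := hy.trans_le hyz
  have hsy : 0 < sinh y := sinh_pos_iff.2 hy
  have hsz : 0 < sinh z := sinh_pos_iff.2 hz
  have h3 := CF17.N3.var_nonneg (c := z / y) (u := y) (by rw [le_div_iff₀ hy]; linarith) hy
  rw [div_mul_cancel₀ z hy.ne', sub_nonneg, div_le_div_iff₀ (by positivity) (by positivity)] at h3
  have h4 : (z / y * sinh y) ^ 2 ≤ sinh z ^ 2 := by nlinarith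
  have h5 : z / y * sinh y ≤ sinh z := le_of_sq_le_sq h4 hsz.le
  have h6 : z / y * sinh y ≤ B * z := h5.trans hB
  have h7 : z / y * sinh y = z * (sinh y / y) := by ring
  rw [h7, mul_comm B z] at h6
  have h8 := le_of_mul_le_mul_left h6 hz
  rw [div_le_iff₀ hy] at h8
  exact h8

lemma sin_sq_ge {x : ℝ} (hx : 0 ≤ x) (hx' : x ≤ 5 / 2) : 355 / 6250 * x ^ 2 ≤ sin x ^ 2 := by
  rcases le_total x (π / 2) with hcase | hcase
  · have h9 : 2 / π * x ≤ sin x := mul_le_sin hx hcase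
    have hpi2 := pi_lt_d2
    have hs0 : 0 ≤ 2 / π * x := by positivity
    have h10 : (40 / 63) * x ≤ 2 / π * x := by
      apply mul_le_mul_of_nonneg_right _ hx
      rw [div_le_div_iff₀ (by norm_num) pi_pos]
      linarith
    have h11 : 0 ≤ (40 / 63) * x := by positivity
    nlinarith [mul_self_le_mul_self h11 (h10.trans h9)]
  · have hs := sin_sq_lower hcase hx'
    nlinarith

/-- The weight of an index `l` close to `k`. -/
lemma wt_bound {k l : ℕ} {s D : ℝ} (ha : 3 ≤ a) (ht : 0 < t) (hε : 0 ≤ ε) (hk : 24 ≤ k)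
    (hl1 : k ≤ l + 3) (hl2 : l ≤ k) (hkε : k * ε ≤ 5)
    (hs : sinh (k * (t / 2)) ≤ s * (k * (t / 2))) (hD0 : 0 < D)
    (hD : s ^ 2 ≤ 8 / 27 * (49 / 64) * (355 / 6250) * D ^ 2) :
    wt n a t ε l ≤ 1 / (1 + (ε * tanh ((a * (n + k) : ℕ) * (t / 2)) / (D * t)) ^ 2) := by
  have hl : 1 ≤ l := by omega
  have hl0 : (0 : ℝ) < l := by positivity
  have hk0 : (0 : ℝ) < k := by
    have : 0 < k := by omega
    exact_mod_cast this
  have hlk : (l : ℝ) ≤ k := by exact_mod_cast hl2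
  have hsl : 0 < sinh ((l : ℝ) * (t / 2)) := sinh_pos_mul ht hl
  unfold wt
  apply one_div_le_one_div_of_le (by positivity)
  rw [add_le_add_iff_left]
  -- the four ingredients
  have h1 : sinh ((l : ℝ) * (t / 2)) ≤ s * (l * (t / 2)) :=
    sinh_le_mul (by positivity) (by nlinarith) hs
  have h2 : 355 / 6250 * ((l : ℝ) * (ε / 2)) ^ 2 ≤ sin (l * (ε / 2)) ^ 2 :=
    sin_sq_ge (by positivity) (by nlinarith)
  have hb0 : (0 : ℝ) < ((a * (n + k) : ℕ) : ℝ) := by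
    have : 0 < a * (n + k) := Nat.mul_pos (by omega) (by omega)
    exact_mod_cast this
  have h3 : (7 / 8 : ℝ) ^ 2 * tanh ((a * (n + k) : ℕ) * (t / 2)) ^ 2 ≤
      tanh ((a * (n + l) : ℕ) * (t / 2)) ^ 2 := by
    obtain ⟨r, hr⟩ : ∃ r : ℝ, r = ((a * (n + l) : ℕ) : ℝ) / ((a * (n + k) : ℕ) : ℝ) := ⟨_, rfl⟩
    have hr1 : r ≤ 1 := by
      rw [hr, div_le_one hb0]
      exact_mod_cast Nat.mul_le_mul_left a (by omega)
    have hr2 : 7 / 8 ≤ r := by
      rw [hr, div_le_div_iff₀ (by norm_num) hb0]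
      have : 7 * (a * (n + k)) ≤ (a * (n + l)) * 8 := by
        have h4 : 7 * (n + k) ≤ 8 * (n + l) := by omega
        calc 7 * (a * (n + k)) = a * (7 * (n + k)) := by ring
          _ ≤ a * (8 * (n + l)) := Nat.mul_le_mul_left a h4
          _ = (a * (n + l)) * 8 := by ring
      exact_mod_cast this
    have h4 := tanh_scale (s := r) (y := (a * (n + k) : ℕ) * (t / 2)) (by linarith) hr1
      (by positivity)
    have h5 : r * ((a * (n + k) : ℕ) * (t / 2)) = (a * (n + l) : ℕ) * (t / 2) := by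
      rw [hr, ← mul_assoc, div_mul_cancel₀ _ hb0.ne']
    rw [h5] at h4
    refine le_trans ?_ h4
    apply mul_le_mul_of_nonneg_right _ (by positivity)
    nlinarith
  obtain ⟨T, hT⟩ : ∃ T, T = tanh (((a * (n + k) : ℕ) : ℝ) * (t / 2)) := ⟨_, rfl⟩
  obtain ⟨T', hT'⟩ : ∃ T, T = tanh (((a * (n + l) : ℕ) : ℝ) * (t / 2)) := ⟨_, rfl⟩
  rw [← hT, ← hT'] at h3
  rw [← hT, ← hT']
  rw [div_pow, div_le_div_iff₀ (by positivity) (by positivity)]
  have h6 : sinh ((l : ℝ) * (t / 2)) ^ 2 ≤ (s * (l * (t / 2))) ^ 2 := by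
    apply pow_le_pow_left₀ hsl.le h1
  calc (ε * T) ^ 2 * sinh ((l : ℝ) * (t / 2)) ^ 2 ≤ (ε * T) ^ 2 * (s * (l * (t / 2))) ^ 2 :=
        mul_le_mul_of_nonneg_left h6 (by positivity)
    _ = s ^ 2 * ((ε * T) ^ 2 * (l * (t / 2)) ^ 2) := by ring
    _ ≤ 8 / 27 * (49 / 64) * (355 / 6250) * D ^ 2 * ((ε * T) ^ 2 * (l * (t / 2)) ^ 2) :=
        mul_le_mul_of_nonneg_right hD (by positivity)
    _ = 8 / 27 * (((7 / 8) ^ 2 * T ^ 2) * (355 / 6250 * (l * (ε / 2)) ^ 2)) * (D * t) ^ 2 := by ring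
    _ ≤ 8 / 27 * (T' ^ 2 * sin (l * (ε / 2)) ^ 2) * (D * t) ^ 2 := by
        apply mul_le_mul_of_nonneg_right _ (by positivity)
        apply mul_le_mul_of_nonneg_left _ (by norm_num)
        exact mul_le_mul h3 h2 (by positivity) (by positivity)

lemma F_nonneg (_ha : 1 ≤ a) (_ht : 0 < t) (_hj : 1 ≤ j) : 0 ≤ F n a t ε j := by
  unfold F
  have h1 := g2_nonneg (a * (n + j)) t (π - ε)
  have h2 := g2_nonneg (a * (n + j)) t 0
  have h3 := g2_nonneg j t (π - ε)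
  have h4 := g2_nonneg j t 0
  positivity

/-- one odd `j` with odd `b`. -/
lemma single_step {k : ℕ} (ha : 3 ≤ a) (hao : Odd a) (hn : Even n) (ht : 0 < t) (hε : 0 ≤ ε)
    (hjo : Odd j) (hjk : j ≤ k) (hkε : k * ε ≤ 5) :
    q t ε * F n a t ε j ≤ 18 * cosh (k * (t / 2)) ^ 2 / j ^ 2 := by
  have hj : 1 ≤ j := hjo.pos
  have hj0 : (0 : ℝ) < j := by positivity
  have hjk' : (j : ℝ) ≤ k := by exact_mod_cast hjk
  have h := unit_le (n := n) ha ht hj hε (by nlinarith)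
  rw [F_eq (by omega) ht hj, if_neg (Nat.not_even_iff_odd.2 hjo),
    if_neg (Nat.not_even_iff_odd.2 (hao.mul (hn.add_odd hjo)))]
  refine h.trans ?_
  apply div_le_div_of_nonneg_right _ (by positivity)
  have h1 : cosh ((j : ℝ) * (t / 2)) ≤ cosh (k * (t / 2)) := by
    rw [cosh_le_cosh, abs_of_pos (by positivity), abs_of_nonneg (by positivity)]
    exact mul_le_mul_of_nonneg_right hjk' (by positivity)
  have h2 : 0 < cosh ((j : ℝ) * (t / 2)) := cosh_pos _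
  nlinarith

/-- the pair `(2 i + 1, 2 i + 2)`. -/
lemma pair_step {k : ℕ} (ha : 3 ≤ a) (hao : Odd a) (ht : 0 < t) (hε : 0 ≤ ε)
    (i : ℕ) (hik : 2 * i + 2 ≤ k) (hkε : k * ε ≤ 5) :
    q t ε * (F n a t ε (2 * i + 1) * F n a t ε (2 * i + 2)) ≤
      18 * cosh (k * (t / 2)) ^ 2 / (2 * i + 1 : ℕ) ^ 2 *
        wt n a t ε (if Even n then 2 * i + 2 else 2 * i + 1) := by
  have hk' : ((2 * i + 2 : ℕ) : ℝ) ≤ k := by exact_mod_cast hik
  have hk1 : ((2 * i + 1 : ℕ) : ℝ) ≤ k := by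
    have : 2 * i + 1 ≤ k := by omega
    exact_mod_cast this
  have ho : Odd (2 * i + 1) := ⟨i, rfl⟩
  have he : Even (2 * i + 2) := ⟨i + 1, by ring⟩
  by_cases hn : Even n
  · rw [if_pos hn]
    have h1 := single_step (n := n) ha hao hn ht hε ho (by omega : 2 * i + 1 ≤ k) hkε
    have h2 := P_le_wt (n := n) (j := 2 * i + 2) ha ht (by omega) hε (by nlinarith)
    have h3 : F n a t ε (2 * i + 2) = P n a t ε (2 * i + 2) := by
      rw [F_eq (by omega) ht (by omega), if_pos he, if_pos ((hn.add he).mul_left a)]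
      ring
    rw [h3, ← mul_assoc]
    have h4 : 0 ≤ q t ε * F n a t ε (2 * i + 1) :=
      mul_nonneg (q_nonneg t ε) (F_nonneg (by omega) ht (by omega))
    exact mul_le_mul h1 h2 P_nonneg (h4.trans h1)
  · rw [if_neg hn]
    have hn' : Odd n := Nat.not_even_iff_odd.1 hn
    have hF1 : F n a t ε (2 * i + 1) = P n a t ε (2 * i + 1) *
        (cosh ((2 * i + 1 : ℕ) * (t / 2)) ^ 2 / sinh ((2 * i + 1 : ℕ) * (t / 2)) ^ 2) := by
      rw [F_eq (by omega) ht (by omega), if_neg (Nat.not_even_iff_odd.2 ho),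
        if_pos ((hn'.add_odd ho).mul_left a)]
      ring
    have hF2 : F n a t ε (2 * i + 2) = P n a t ε (2 * i + 2) *
        tanh ((a * (n + (2 * i + 2)) : ℕ) * (t / 2)) ^ 2 := by
      rw [F_eq (by omega) ht (by omega), if_pos he,
        if_neg (Nat.not_even_iff_odd.2 (hao.mul (hn'.add_even he)))]
      ring
    have hP1 := P_le_wt (n := n) (j := 2 * i + 1) ha ht (by omega) hε (by nlinarith)
    have hu := unit_le (n := n) (j := 2 * i + 2) ha ht (by omega) hε (by nlinarith)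
    have j1 : (0 : ℝ) < ((2 * i + 1 : ℕ) : ℝ) := by positivity
    have j2 : (0 : ℝ) < ((2 * i + 2 : ℕ) : ℝ) := by positivity
    have hc := coth_mono (y := ((2 * i + 1 : ℕ) : ℝ) * (t / 2)) (z := ((2 * i + 2 : ℕ) : ℝ) * (t / 2))
      (by positivity) (by
        apply mul_le_mul_of_nonneg_right _ (by positivity)
        push_cast; linarith)
    obtain ⟨x1, hx1⟩ : ∃ x, x = ((2 * i + 1 : ℕ) : ℝ) := ⟨_, rfl⟩
    obtain ⟨x2, hx2⟩ : ∃ x, x = ((2 * i + 2 : ℕ) : ℝ) := ⟨_, rfl⟩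
    rw [← hx1, ← hx2] at hc
    rw [← hx1] at j1 hF1 ⊢
    rw [← hx2] at j2 hu hk'
    obtain ⟨C1, hC1⟩ : ∃ C, C = cosh (x1 * (t / 2)) ^ 2 / sinh (x1 * (t / 2)) ^ 2 := ⟨_, rfl⟩
    obtain ⟨C2, hC2⟩ : ∃ C, C = cosh (x2 * (t / 2)) ^ 2 / sinh (x2 * (t / 2)) ^ 2 := ⟨_, rfl⟩
    rw [← hC1] at hc hF1
    rw [← hC2] at hc hu
    have hC10 : 0 ≤ C1 := by rw [hC1]; positivity
    have hC20 : 0 ≤ C2 := by rw [hC2]; positivity
    obtain ⟨T2, hT2⟩ : ∃ T, T = tanh ((a * (n + (2 * i + 2)) : ℕ) * (t / 2)) ^ 2 := ⟨_, rfl⟩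
    rw [← hT2] at hu hF2
    have hT20 : 0 ≤ T2 := by rw [hT2]; positivity
    rw [hF1, hF2]
    have hc' : x1 ^ 2 * C1 ≤ x2 ^ 2 * C2 := by
      have ht2 : 0 < (t / 2) ^ 2 := by positivity
      have e : ∀ x C : ℝ, (x * (t / 2)) ^ 2 * C = (t / 2) ^ 2 * (x ^ 2 * C) := fun x C => by ring
      rw [e, e] at hc
      exact le_of_mul_le_mul_left hc ht2
    have hP1' := P_nonneg (n := n) (a := a) (t := t) (ε := ε) (j := 2 * i + 1)
    have hP2' := P_nonneg (n := n) (a := a) (t := t) (ε := ε) (j := 2 * i + 2)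
    obtain ⟨P1, hP1e⟩ : ∃ x, x = P n a t ε (2 * i + 1) := ⟨_, rfl⟩
    obtain ⟨P2, hP2e⟩ : ∃ x, x = P n a t ε (2 * i + 2) := ⟨_, rfl⟩
    obtain ⟨Q, hQe⟩ : ∃ x, x = q t ε := ⟨_, rfl⟩
    have hQ0 : 0 ≤ Q := by rw [hQe]; exact q_nonneg t ε
    rw [← hP1e] at hP1 hP1' ⊢
    rw [← hP2e] at hu hP2' ⊢
    rw [← hQe] at hu ⊢
    have h7 : Q * P2 * T2 * (x1 ^ 2 * C1) ≤ 18 * cosh (k * (t / 2)) ^ 2 := by
      have h8 : Q * P2 * T2 * (x1 ^ 2 * C1) ≤ Q * P2 * T2 * (x2 ^ 2 * C2) :=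
        mul_le_mul_of_nonneg_left hc' (by positivity)
      have h9 : Q * (P2 * C2 * T2) * x2 ^ 2 ≤ 18 * cosh (x2 * (t / 2)) ^ 2 := by
        rw [le_div_iff₀ (by positivity)] at hu
        exact hu
      have h10 : cosh (x2 * (t / 2)) ≤ cosh (k * (t / 2)) := by
        rw [cosh_le_cosh, abs_of_pos (by positivity), abs_of_nonneg (by positivity)]
        exact mul_le_mul_of_nonneg_right hk' (by positivity)
      have h11 : 0 < cosh (x2 * (t / 2)) := cosh_pos _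
      have h12 : cosh (x2 * (t / 2)) ^ 2 ≤ cosh (k * (t / 2)) ^ 2 :=
        pow_le_pow_left₀ h11.le h10 2
      linarith
    have h13 : Q * (P1 * C1 * (P2 * T2)) = (Q * P2 * T2 * (x1 ^ 2 * C1)) / x1 ^ 2 * P1 := by
      field_simp
    rw [h13]
    apply mul_le_mul _ hP1 hP1' (by positivity)
    exact div_le_div_of_nonneg_right h7 (by positivity)

end

/-! ## The product -/

/-- pairing of the product. -/
lemma prod_pairs (G : ℕ → ℝ) (M : ℕ) :
    ∏ j ∈ Icc 1 (2 * M), G j = ∏ i ∈ range M, (G (2 * i + 1) * G (2 * i + 2)) := by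
  induction M with
  | zero => simp
  | succ M ih =>
    rw [prod_range_succ, ← ih, show 2 * (M + 1) = 2 * M + 1 + 1 by ring,
      prod_Icc_succ_top (by omega), prod_Icc_succ_top (by omega)]
    ring

/-- the pairs `i < M`, `M ≥ 2`, when the last two carry the weight `w`. -/
lemma prod_bound (B W H : ℕ → ℝ) (w : ℝ) (M : ℕ) (hM : 2 ≤ M) (hB : ∀ i, i < M → 0 ≤ B i)
    (hW0 : ∀ i, i < M → 0 ≤ W i) (hW : ∀ i, i < M → W i ≤ 1)
    (hW1 : ∀ i, i < M → M ≤ i + 2 → W i ≤ w) (hH0 : ∀ i, i < M → 0 ≤ H i)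
    (hH : ∀ i, i < M → H i ≤ B i * W i) :
    ∏ i ∈ range M, H i ≤ (∏ i ∈ range M, B i) * w ^ 2 := by
  obtain ⟨m, rfl⟩ : ∃ m, M = m + 2 := ⟨M - 2, by omega⟩
  have h1 : ∏ i ∈ range m, H i ≤ ∏ i ∈ range m, B i := by
    apply prod_le_prod
    · intro i hi
      exact hH0 i (by have := mem_range.1 hi; omega)
    · intro i hi
      have hi' := mem_range.1 hi
      refine (hH i (by omega)).trans ?_
      exact mul_le_of_le_one_right (hB i (by omega)) (hW i (by omega))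
  rw [prod_range_succ, prod_range_succ, prod_range_succ, prod_range_succ]
  have h2 : H m ≤ B m * w := (hH m (by omega)).trans
    (mul_le_mul_of_nonneg_left (hW1 m (by omega) (by omega)) (hB m (by omega)))
  have h3 : H (m + 1) ≤ B (m + 1) * w := (hH (m + 1) (by omega)).trans
    (mul_le_mul_of_nonneg_left (hW1 (m + 1) (by omega) (by omega)) (hB (m + 1) (by omega)))
  have h0 : 0 ≤ ∏ i ∈ range m, H i :=
    prod_nonneg fun i hi => hH0 i (by have := mem_range.1 hi; omega)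
  calc (∏ i ∈ range m, H i) * H m * H (m + 1)
      ≤ (∏ i ∈ range m, B i) * (B m * w) * (B (m + 1) * w) := by
        apply mul_le_mul _ h3 (hH0 _ (by omega)) _
        · exact mul_le_mul h1 h2 (hH0 _ (by omega)) (h0.trans h1)
        · exact mul_nonneg (h0.trans h1) ((hH0 m (by omega)).trans h2)
    _ = _ := by ring

/-- The main estimate, squared. -/
lemma main_sq {n k a : ℕ} {t ε s D : ℝ} (ha : 3 ≤ a) (hao : Odd a) (hnk : Even (n * k))
    (hk : 24 ≤ k) (ht : 0 < t) (hε : 0 ≤ ε) (hkε : k * ε ≤ 5)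
    (hs : sinh (k * (t / 2)) ≤ s * (k * (t / 2))) (hD0 : 0 < D)
    (hD : s ^ 2 ≤ 8 / 27 * (49 / 64) * (355 / 6250) * D ^ 2) :
    q t ε ^ ((k + 1) / 2) * ∏ j ∈ Icc 1 k, F n a t ε j ≤
      (∏ i ∈ range ((k + 1) / 2), (18 * cosh (k * (t / 2)) ^ 2 / (2 * i + 1 : ℕ) ^ 2)) *
        (1 / (1 + (ε * tanh ((a * (n + k) : ℕ) * (t / 2)) / (D * t)) ^ 2)) ^ 2 := by
  obtain ⟨w, hw⟩ : ∃ w, w = 1 / (1 + (ε * tanh ((a * (n + k) : ℕ) * (t / 2)) / (D * t)) ^ 2) :=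
    ⟨_, rfl⟩
  rw [← hw]
  have hq := q_nonneg t ε
  have hwt : ∀ l, k ≤ l + 3 → l ≤ k → wt n a t ε l ≤ w := by
    intro l h1 h2
    rw [hw]
    exact wt_bound ha ht hε hk h1 h2 hkε hs hD0 hD
  -- the pairs `i < M` with `2 M ≤ k`
  have key : ∀ M, 2 * M ≤ k → k ≤ 2 * M + 1 → (k = 2 * M + 1 → Even n) →
      ∏ i ∈ range M, (q t ε * (F n a t ε (2 * i + 1) * F n a t ε (2 * i + 2))) ≤
        (∏ i ∈ range M, (18 * cosh (k * (t / 2)) ^ 2 / (2 * i + 1 : ℕ) ^ 2)) * w ^ 2 := by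
    intro M h1 h2 h3
    apply prod_bound (W := fun i => wt n a t ε (if Even n then 2 * i + 2 else 2 * i + 1))
    · omega
    · intro i _; positivity
    · intro i _; exact wt_nonneg
    · intro i _; exact wt_le_one
    · intro i hi hi2
      apply hwt
      · split_ifs with hn
        · omega
        · have : k ≠ 2 * M + 1 := fun h => hn (h3 h)
          omega
      · split_ifs <;> omega
    · intro i _
      exact mul_nonneg hq (mul_nonneg (F_nonneg (by omega) ht (by omega))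
        (F_nonneg (by omega) ht (by omega)))
    · intro i hi
      exact pair_step ha hao ht hε i (by omega) hkε
  rcases Nat.even_or_odd k with hke | hko
  · obtain ⟨M, hM⟩ := hke
    have hM2 : k = 2 * M := by omega
    have hK : (k + 1) / 2 = M := by omega
    have e1 : q t ε ^ ((k + 1) / 2) * ∏ j ∈ Icc 1 k, F n a t ε j =
        ∏ i ∈ range M, (q t ε * (F n a t ε (2 * i + 1) * F n a t ε (2 * i + 2))) := by
      rw [prod_mul_distrib, prod_const, card_range, hK, ← prod_pairs, ← hM2]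
    rw [e1, hK]
    exact key M (by omega) (by omega) (fun h => by omega)
  · have hn : Even n := by
      rcases Nat.even_mul.1 hnk with h | h
      · exact h
      · exact absurd h (Nat.not_even_iff_odd.2 hko)
    obtain ⟨M, hM2⟩ := hko
    have hK : (k + 1) / 2 = M + 1 := by omega
    have e1 : q t ε ^ ((k + 1) / 2) * ∏ j ∈ Icc 1 k, F n a t ε j =
        (∏ i ∈ range M, (q t ε * (F n a t ε (2 * i + 1) * F n a t ε (2 * i + 2)))) *
          (q t ε * F n a t ε k) := by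
      rw [prod_mul_distrib, prod_const, card_range, hK, ← prod_pairs]
      have : Icc 1 k = Icc 1 (2 * M + 1) := by rw [hM2]
      rw [this, prod_Icc_succ_top (by omega), ← hM2, pow_succ]
      ring
    rw [e1, hK, prod_range_succ]
    have h1 := key M (by omega) (by omega) (fun _ => hn)
    have h2 := single_step (n := n) (j := k) (k := k) ha hao hn ht hε ⟨M, hM2⟩ le_rfl hkε
    have h3 : 0 ≤ q t ε * F n a t ε k := mul_nonneg hq (F_nonneg (by omega) ht (by omega))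
    have h4 : 0 ≤ ∏ i ∈ range M, (q t ε * (F n a t ε (2 * i + 1) * F n a t ε (2 * i + 2))) :=
      prod_nonneg fun i _ => mul_nonneg hq (mul_nonneg (F_nonneg (by omega) ht (by omega))
        (F_nonneg (by omega) ht (by omega)))
    have h5 := mul_le_mul h1 h2 h3 (h4.trans h1)
    refine h5.trans (le_of_eq ?_)
    rw [show ((2 * M + 1 : ℕ) : ℝ) = (k : ℝ) by rw [hM2]]
    ring

end NearPi

open NearPi in
/-- **The arc near `π`**, general form: `sinh (kt/2) ≤ s (kt/2)`, `D` large enough. -/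
theorem near_pi_gen {n k a : ℕ} (ha : 3 ≤ a) (hao : Odd a) (hnk : Even (n * k)) (hk : 24 ≤ k)
    {f : ℚ[X]} (hf : f * poch (-X : ℚ[X]) k = num n k a) {t ε s D : ℝ} (ht : 0 < t) (hε : 0 ≤ ε)
    (hkε : k * ε ≤ 5) (hs : sinh (k * (t / 2)) ≤ s * (k * (t / 2))) (hD0 : 0 < D)
    (hD : s ^ 2 ≤ 8 / 27 * (49 / 64) * (355 / 6250) * D ^ 2) :
    ‖cev f (pt t (π - ε))‖ / rev f (Real.exp (-t)) ≤
      (∏ i ∈ range ((k + 1) / 2), (17 / 4 * cosh (k * (t / 2)) / (2 * i + 1 : ℕ))) *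
        (1 / (1 + (ε * tanh ((a * (n + k) : ℕ) * (t / 2)) / (D * t)) ^ 2)) := by
  have h1 := ratio_formula (by omega) hf ht (π - ε)
  have h2 := main_sq ha hao hnk hk ht hε hkε hs hD0 hD
  have h3 : (‖cev f (pt t (π - ε))‖ / rev f (Real.exp (-t))) ^ 2 ≤
      ((∏ i ∈ range ((k + 1) / 2), (17 / 4 * cosh (k * (t / 2)) / (2 * i + 1 : ℕ))) *
        (1 / (1 + (ε * tanh ((a * (n + k) : ℕ) * (t / 2)) / (D * t)) ^ 2))) ^ 2 := by
    rw [h1]
    refine h2.trans ?_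
    rw [mul_pow, ← prod_pow]
    apply mul_le_mul_of_nonneg_right _ (by positivity)
    apply prod_le_prod
    · intro i _; positivity
    · intro i _
      rw [div_pow]
      apply div_le_div_of_nonneg_right _ (by positivity)
      have : 0 ≤ cosh (k * (t / 2)) ^ 2 := by positivity
      nlinarith
  refine le_of_sq_le_sq h3 ?_
  positivity

namespace NearPi

lemma exp_half_lt : Real.exp (1 / 2) < 16488 / 10000 := by
  have h := Real.exp_one_lt_d9
  have h1 : Real.exp (1 / 2) ^ 2 = Real.exp 1 := by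
    rw [← Real.exp_nat_mul]; norm_num
  have h2 : Real.exp (1 / 2) ^ 2 < (16488 / 10000) ^ 2 := by
    rw [h1]; refine h.trans ?_; norm_num
  exact lt_of_pow_lt_pow_left₀ 2 (by norm_num) h2

lemma exp_neg_half_gt : 6065 / 10000 < Real.exp (-(1 / 2)) := by
  have h := exp_half_lt
  have h1 : Real.exp (-(1 / 2)) * Real.exp (1 / 2) = 1 := by
    rw [← Real.exp_add]; norm_num
  have h2 : 0 < Real.exp (-(1 / 2)) := Real.exp_pos _
  nlinarith

lemma exp_half_gt : 16487 / 10000 < Real.exp (1 / 2) := by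
  have h := Real.exp_one_gt_d9
  have h1 : Real.exp (1 / 2) ^ 2 = Real.exp 1 := by
    rw [← Real.exp_nat_mul]; norm_num
  have h2 : (16487 / 10000 : ℝ) ^ 2 < Real.exp (1 / 2) ^ 2 := by
    rw [h1]; refine lt_trans ?_ h; norm_num
  exact lt_of_pow_lt_pow_left₀ 2 (Real.exp_pos _).le h2

lemma exp_neg_half_lt : Real.exp (-(1 / 2)) < 6066 / 10000 := by
  have h := exp_half_gt
  have h1 : Real.exp (-(1 / 2)) * Real.exp (1 / 2) = 1 := by
    rw [← Real.exp_add]; norm_num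
  have h2 : 0 < Real.exp (-(1 / 2)) := Real.exp_pos _
  nlinarith

lemma sinh_half_le : sinh (1 / 2) ≤ 21 / 20 * (1 / 2) := by
  rw [Real.sinh_eq]
  have h1 := exp_half_lt
  have h2 := exp_neg_half_gt
  linarith

lemma cosh_half_le : cosh (1 / 2) ≤ 11277 / 10000 := by
  rw [Real.cosh_eq]
  have h1 := exp_half_lt
  have h2 := exp_neg_half_lt
  linarith

lemma exp_two_bounds : 738 / 100 < Real.exp 2 ∧ Real.exp 2 < 73891 / 10000 := by
  have h := Real.exp_one_lt_d9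
  have h' := Real.exp_one_gt_d9
  have h1 : Real.exp 2 = Real.exp 1 ^ 2 := by
    rw [← Real.exp_nat_mul]; norm_num
  rw [h1]
  constructor <;> nlinarith

lemma exp_neg_two_bounds : 1353 / 10000 < Real.exp (-2) ∧ Real.exp (-2) < 1356 / 10000 := by
  obtain ⟨h1, h2⟩ := exp_two_bounds
  have h3 : Real.exp (-2) * Real.exp 2 = 1 := by
    rw [← Real.exp_add]; norm_num
  have h4 : 0 < Real.exp (-2) := Real.exp_pos _
  constructor <;> nlinarith

lemma sinh_two_le : sinh 2 ≤ 363 / 200 * 2 := by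
  rw [Real.sinh_eq]
  have h1 := exp_two_bounds
  have h2 := exp_neg_two_bounds
  linarith [h1.2, h2.1]

lemma cosh_two_le : cosh 2 ≤ 37624 / 10000 := by
  rw [Real.cosh_eq]
  have h1 := exp_two_bounds
  have h2 := exp_neg_two_bounds
  linarith [h1.2, h2.2]

lemma cosh_mono' {x y : ℝ} (hx : 0 ≤ x) (hxy : x ≤ y) : cosh x ≤ cosh y := by
  rw [cosh_le_cosh, abs_of_nonneg hx, abs_of_nonneg (hx.trans hxy)]
  exact hxy

lemma prod_small (K : ℕ) (hK : 12 ≤ K) :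
    ∏ i ∈ range K, ((48 / 10 : ℝ) / (2 * i + 1 : ℕ)) ≤ 1 / 2000 * (1 / 5) ^ (K - 12) := by
  induction K, hK using Nat.le_induction with
  | base =>
    simp only [prod_range_succ, range_zero, prod_empty]
    norm_num
  | succ K hK ih =>
    rw [prod_range_succ, show K + 1 - 12 = (K - 12) + 1 by omega, pow_succ, ← mul_assoc]
    apply mul_le_mul ih _ (by positivity) (by positivity)
    rw [div_le_div_iff₀ (by positivity) (by norm_num)]
    have : (25 : ℝ) ≤ ((2 * K + 1 : ℕ) : ℝ) := by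
      have : 25 ≤ 2 * K + 1 := by omega
      exact_mod_cast this
    linarith

lemma prod_large (K : ℕ) (hK : 30 ≤ K) :
    ∏ i ∈ range K, ((16 : ℝ) / (2 * i + 1 : ℕ)) ≤ 1 / 20000 * (27 / 100) ^ (K - 30) := by
  induction K, hK using Nat.le_induction with
  | base =>
    simp only [prod_range_succ, range_zero, prod_empty]
    norm_num
  | succ K hK ih =>
    rw [prod_range_succ, show K + 1 - 30 = (K - 30) + 1 by omega, pow_succ, ← mul_assoc]
    apply mul_le_mul ih _ (by positivity) (by positivity)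
    rw [div_le_div_iff₀ (by positivity) (by norm_num)]
    have : (61 : ℝ) ≤ ((2 * K + 1 : ℕ) : ℝ) := by
      have : 61 ≤ 2 * K + 1 := by omega
      exact_mod_cast this
    linarith

end NearPi

open NearPi in
/-- **The arc near `π` for `kt ≤ 1`, `k ≥ 24`**. -/
theorem near_pi_one {n k a : ℕ} (ha : 3 ≤ a) (hao : Odd a) (hnk : Even (n * k)) (hk : 24 ≤ k)
    {f : ℚ[X]} (hf : f * poch (-X : ℚ[X]) k = num n k a) {t ε : ℝ} (ht : 0 < t)
    (hkt : k * t ≤ 1) (hε : 0 ≤ ε) (hkε : k * ε ≤ 5) :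
    ‖cev f (pt t (π - ε))‖ / rev f (Real.exp (-t)) ≤
      1 / 2000 * (1 / 5) ^ ((k + 1) / 2 - 12) *
        (1 / (1 + (ε * tanh ((a * (n + k) : ℕ) * (t / 2)) / (10 * t)) ^ 2)) := by
  have hk0 : (0 : ℝ) < k := by
    have : 0 < k := by omega
    exact_mod_cast this
  have hkt2 : (k : ℝ) * (t / 2) ≤ 1 / 2 := by linarith
  have hs : sinh (k * (t / 2)) ≤ 21 / 20 * (k * (t / 2)) :=
    sinh_le_mul (by positivity) hkt2 sinh_half_le
  refine (near_pi_gen ha hao hnk hk hf ht hε hkε hs (by norm_num : (0 : ℝ) < 10)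
    (by norm_num)).trans ?_
  apply mul_le_mul_of_nonneg_right _ (by positivity)
  refine le_trans ?_ (prod_small ((k + 1) / 2) (by omega))
  apply prod_le_prod
  · intro i _; positivity
  · intro i _
    apply div_le_div_of_nonneg_right _ (by positivity)
    have h := (cosh_mono' (show 0 ≤ (k : ℝ) * (t / 2) by positivity) hkt2).trans cosh_half_le
    linarith

open NearPi in
/-- **The arc near `π` for `kt ≤ 4`, `k ≥ 59`**. -/
theorem near_pi_four {n k a : ℕ} (ha : 3 ≤ a) (hao : Odd a) (hnk : Even (n * k)) (hk : 59 ≤ k)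
    {f : ℚ[X]} (hf : f * poch (-X : ℚ[X]) k = num n k a) {t ε : ℝ} (ht : 0 < t)
    (hkt : k * t ≤ 4) (hε : 0 ≤ ε) (hkε : k * ε ≤ 5) :
    ‖cev f (pt t (π - ε))‖ / rev f (Real.exp (-t)) ≤
      1 / 20000 * (27 / 100) ^ ((k + 1) / 2 - 30) *
        (1 / (1 + (ε * tanh ((a * (n + k) : ℕ) * (t / 2)) / (16 * t)) ^ 2)) := by
  have hk0 : (0 : ℝ) < k := by
    have : 0 < k := by omega
    exact_mod_cast this
  have hkt2 : (k : ℝ) * (t / 2) ≤ 2 := by linarith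
  have hs : sinh (k * (t / 2)) ≤ 363 / 200 * (k * (t / 2)) :=
    sinh_le_mul (by positivity) hkt2 sinh_two_le
  refine (near_pi_gen ha hao hnk (by omega) hf ht hε hkε hs (by norm_num : (0 : ℝ) < 16)
    (by norm_num)).trans ?_
  apply mul_le_mul_of_nonneg_right _ (by positivity)
  refine le_trans ?_ (prod_large ((k + 1) / 2) (by omega))
  apply prod_le_prod
  · intro i _; positivity
  · intro i _
    apply div_le_div_of_nonneg_right _ (by positivity)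
    have h := (cosh_mono' (show 0 ≤ (k : ℝ) * (t / 2) by positivity) hkt2).trans cosh_two_le
    linarith

end Pool.Agent.SignedQ.An
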