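import Mathlib

/-!
# The tail lemma, part A: the abstract step
-/

set_option autoImplicit false

namespace Pool.Agent.Lib.MP_cf17a0_co.S1

/-- the growth property: for `m ≤ M`, `P m ≥ 0` and `P (m - s) ≤ A⁻¹ θ ^ s P m` for all lags
`s ≥ k₀` -/
def Grw (P : ℤ → ℝ) (A θ : ℝ) (M : ℤ) (k₀ : ℕ) : Prop :=
  ∀ m ≤ M, 0 ≤ P m ∧ ∀ s : ℕ, k₀ ≤ s → P (m - s) ≤ A⁻¹ * θ ^ s * P m

theorem geo_nonneg {P h : ℤ → ℝ} {p : ℕ} (hp : 1 ≤ p) (h0 : ∀ i < 0, h i = 0)
    (hrec : ∀ i, h i = P i + h (i - p)) {M : ℤ} (hP : ∀ i ≤ M, 0 ≤ P i) :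
    ∀ i ≤ M, 0 ≤ h i := by
  have key : ∀ N : ℕ, ∀ i : ℤ, i < N → i ≤ M → 0 ≤ h i := by
    intro N
    induction N with
    | zero => intro i hi _; rw [h0 i (by exact_mod_cast hi)]
    | succ N ih =>
      intro i hi hiM
      rw [hrec i]
      have h1 := hP i hiM
      have h2 := ih (i - p) (by push_cast at hi; omega) (by omega)
      linarith
  intro i hi
  exact key (i.toNat + 1) i (by push_cast; omega) hi

theorem geo_le {P h : ℤ → ℝ} {p : ℕ} (hp : 1 ≤ p) (h0 : ∀ i < 0, h i = 0)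
    (hrec : ∀ i, h i = P i + h (i - p)) {m : ℤ} {C θ : ℝ} (hC : 0 ≤ C) (hθ0 : 0 < θ) (hθ : θ < 1)
    {y0 : ℕ} (hb : ∀ y : ℕ, y0 ≤ y → P (m - y) ≤ C * θ ^ y) :
    ∀ y : ℕ, y0 ≤ y → h (m - y) ≤ C * θ ^ y / (1 - θ ^ p) := by
  have hθp : θ ^ p < 1 := pow_lt_one₀ hθ0.le hθ (by omega)
  have hpos : 0 < 1 - θ ^ p := by linarith
  have key : ∀ N : ℕ, ∀ y : ℕ, m - y < N → y0 ≤ y → h (m - y) ≤ C * θ ^ y / (1 - θ ^ p) := by
    intro N
    induction N with
    | zero =>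
      intro y hy _
      rw [h0 _ (by exact_mod_cast hy)]
      positivity
    | succ N ih =>
      intro y hy hy0
      have h1 := hb y hy0
      have h2 := ih (y + p) (by push_cast at hy ⊢; omega) (by omega)
      have h3 : h (m - y) = P (m - y) + h (m - (y + p : ℕ)) := by
        rw [hrec (m - y)]
        congr 2
        push_cast
        ring
      rw [h3]
      have h4 : C * θ ^ y / (1 - θ ^ p) = C * θ ^ y + C * θ ^ (y + p) / (1 - θ ^ p) := by
        rw [pow_add]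
        field_simp
        ring
      rw [h4]
      linarith
  intro y hy
  exact key ((m - y).toNat + 1) y (by push_cast; omega) hy

/-- the step from `k` to `k + 2`, with explicit error terms -/
theorem step_abs {P h z u v w : ℤ → ℝ} {A θ : ℝ} {M : ℤ} {k b b' : ℕ} (hA : 0 < A)
    (hθ0 : 0 < θ) (hθ : θ < 1)
    (hP : Grw P A θ M k)
    (h0 : ∀ i < 0, h i = 0) (hrec : ∀ i, h i = P i + h (i - (2 * (k + 1) : ℕ)))
    (z0 : ∀ i < 0, z i = 0) (zrec : ∀ i, z i = P (i - 1) + z (i - (k + 2 : ℕ)))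
    (hu : ∀ i, u i = h i - h (i - (k + 1 : ℕ)) + z i)
    (hv : ∀ i, v i = u i + u (i - b)) (hw : ∀ i, w i = v i - v (i - b'))
    (hb' : k ≤ b') {e1 e2 e3 κ θ' : ℝ}
    (he1 : θ ^ k / (2 * A * (1 - θ ^ (2 * (k + 1)))) ≤ e1)
    (he2 : (θ ^ (k + 2) / (1 - θ ^ (k + 2)) + θ ^ (2 * k + 1) / (1 - θ ^ (2 * (k + 1)))) / 2 ≤ e2)
    (he3 : A⁻¹ * θ ^ b' * (1 + e2) * (1 + θ ^ b) ≤ e3) (hκ0 : 0 ≤ κ)
    (he : 0 ≤ 1 - e1 - e3)
    (hκ : (1 + e2) * (1 + θ ^ b) ≤ κ * (1 - e1 - e3))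
    (hθ' : θ ≤ θ') (hκθ : κ * θ ^ (k + 2) ≤ θ' ^ (k + 2)) :
    Grw w A θ' M (k + 2) := by
  have hAi : 0 < A⁻¹ := inv_pos.2 hA
  have hq1 : θ ^ (2 * (k + 1)) < 1 := pow_lt_one₀ hθ0.le hθ (by omega)
  have hq2 : θ ^ (k + 2) < 1 := pow_lt_one₀ hθ0.le hθ (by omega)
  have hP0 : ∀ i ≤ M, 0 ≤ P i := fun i hi => (hP i hi).1
  have hh0 := geo_nonneg (by omega) h0 hrec hP0
  have hzrec' : ∀ i, z i = (fun j => P (j - 1)) i + z (i - (k + 2 : ℕ)) := zrec
  have hz0 := geo_nonneg (P := fun j => P (j - 1)) (by omega) z0 hzrec' (M := M)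
    (fun i hi => hP0 _ (by omega))
  -- the main estimates
  have main : ∀ m ≤ M, (1 - e1) * (P m + P (m - 1)) ≤ u m ∧
      ∀ s : ℕ, k ≤ s → u (m - s) ≤ A⁻¹ * θ ^ s * (1 + e2) * (P m + P (m - 1)) := by
    intro m hm
    set S := P m + P (m - 1) with hS
    have hPm := hP0 m hm
    have hPm1 := hP0 (m - 1) (by omega)
    have hS0 : 0 ≤ S := by linarith
    -- (a)
    have ha : ∀ y : ℕ, k ≤ y → P (m - 1 - y) ≤ S / (2 * A) * θ ^ y := by
      intro y hy
      have h1 := (hP m hm).2 (y + 1) (by omega)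
      have h2 := (hP (m - 1) (by omega)).2 y hy
      have h3 : m - (y + 1 : ℕ) = m - 1 - y := by push_cast; ring
      rw [h3] at h1
      have h4 : A⁻¹ * θ ^ (y + 1) * P m ≤ A⁻¹ * θ ^ y * P m := by
        refine mul_le_mul_of_nonneg_right (mul_le_mul_of_nonneg_left ?_ hAi.le) hPm
        rw [pow_succ]
        exact mul_le_of_le_one_right (by positivity) hθ.le
      have h5 : S / (2 * A) * θ ^ y = (A⁻¹ * θ ^ y * P m + A⁻¹ * θ ^ y * P (m - 1)) / 2 := by
        rw [hS]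
        field_simp
      rw [h5]
      linarith
    -- (b)
    have hb1 : ∀ y : ℕ, k ≤ y → h (m - 1 - y) ≤ S / (2 * A) * θ ^ y / (1 - θ ^ (2 * (k + 1))) :=
      geo_le (by omega) h0 hrec (by positivity) hθ0 hθ ha
    -- (c)
    have hc1 : ∀ y : ℕ, k ≤ y → z (m - y) ≤ S / (2 * A) * θ ^ y / (1 - θ ^ (k + 2)) :=
      geo_le (P := fun j => P (j - 1)) (by omega) z0 hzrec' (by positivity) hθ0 hθ
        (fun y hy => by
          have := ha y hy
          have h3 : m - 1 - y = m - y - 1 := by ring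
          rw [h3] at this
          exact this)
    constructor
    · -- (d)
      rw [hu m]
      have h1 : P m ≤ h m := by
        rw [hrec m]
        have := hh0 (m - (2 * (k + 1) : ℕ)) (by omega)
        linarith
      have h2 : P (m - 1) ≤ z m := by
        rw [zrec m]
        have := hz0 (m - (k + 2 : ℕ)) (by omega)
        linarith
      have h3 := hb1 k le_rfl
      have h4 : m - 1 - (k : ℤ) = m - (k + 1 : ℕ) := by push_cast; ring
      rw [h4] at h3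
      have h5 : S / (2 * A) * θ ^ k / (1 - θ ^ (2 * (k + 1))) =
          θ ^ k / (2 * A * (1 - θ ^ (2 * (k + 1)))) * S := by
        have : (1 - θ ^ (2 * (k + 1))) ≠ 0 := by linarith
        field_simp
      rw [h5] at h3
      have h6 := mul_le_mul_of_nonneg_right he1 hS0
      nlinarith
    · -- (e)
      intro s hs
      rw [hu (m - s)]
      have h1 : 0 ≤ h (m - s - (k + 1 : ℕ)) := hh0 _ (by omega)
      have h2 := hb1 (s + (2 * k + 1)) (by omega)
      have h3 : m - 1 - ((s + (2 * k + 1) : ℕ) : ℤ) = m - s - (2 * (k + 1) : ℕ) := by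
        push_cast
        ring
      rw [h3] at h2
      have h4 := hc1 (s + (k + 2)) (by omega)
      have h5 : m - ((s + (k + 2) : ℕ) : ℤ) = m - s - (k + 2 : ℕ) := by
        push_cast
        ring
      rw [h5] at h4
      have h6 := (hP m hm).2 s hs
      have h7 := (hP (m - 1) (by omega)).2 s hs
      have h8 : h (m - s) = P (m - s) + h (m - s - (2 * (k + 1) : ℕ)) := hrec _
      have h9 : z (m - s) = P (m - 1 - s) + z (m - s - (k + 2 : ℕ)) := by
        rw [zrec (m - s)]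
        congr 2
        ring
      have h10 : A⁻¹ * θ ^ s * (1 + e2) * S ≥ A⁻¹ * θ ^ s * (1 + (θ ^ (k + 2) / (1 - θ ^ (k + 2)) +
          θ ^ (2 * k + 1) / (1 - θ ^ (2 * (k + 1)))) / 2) * S := by
        refine mul_le_mul_of_nonneg_right (mul_le_mul_of_nonneg_left ?_ (by positivity)) hS0
        linarith
      have h11 : A⁻¹ * θ ^ s * (1 + (θ ^ (k + 2) / (1 - θ ^ (k + 2)) +
          θ ^ (2 * k + 1) / (1 - θ ^ (2 * (k + 1)))) / 2) * S =
          A⁻¹ * θ ^ s * P m + A⁻¹ * θ ^ s * P (m - 1) +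
          S / (2 * A) * θ ^ (s + (2 * k + 1)) / (1 - θ ^ (2 * (k + 1))) +
          S / (2 * A) * θ ^ (s + (k + 2)) / (1 - θ ^ (k + 2)) := by
        have n1 : (1 - θ ^ (2 * (k + 1))) ≠ 0 := by linarith
        have n2 : (1 - θ ^ (k + 2)) ≠ 0 := by linarith
        rw [pow_add θ s (2 * k + 1), pow_add θ s (k + 2)]
        generalize hx1 : θ ^ (2 * (k + 1)) = x1 at *
        generalize hx2 : θ ^ (k + 2) = x2 at *
        generalize hx3 : θ ^ (2 * k + 1) = x3 at *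
        generalize hx4 : θ ^ s = x4 at *
        rw [hS]
        field_simp
        ring
      linarith
  have hS0 : ∀ m ≤ M, 0 ≤ P m + P (m - 1) := fun m hm =>
    add_nonneg (hP0 m hm) (hP0 (m - 1) (by omega))
  have he2' : 0 ≤ e2 := by
    refine le_trans ?_ he2
    have n1 : 0 < (1 - θ ^ (2 * (k + 1))) := by linarith
    have n2 : 0 < (1 - θ ^ (k + 2)) := by linarith
    positivity
  have he3' : 0 ≤ e3 := le_trans (by positivity) he3
  have hu0 : ∀ m ≤ M, 0 ≤ u m := fun m hm => by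
    refine le_trans ?_ (main m hm).1
    exact mul_nonneg (by linarith) (hS0 m hm)
  have hv1 : ∀ m ≤ M, (1 - e1) * (P m + P (m - 1)) ≤ v m ∧
      ∀ s : ℕ, k ≤ s → v (m - s) ≤ A⁻¹ * θ ^ s * (1 + e2) * (1 + θ ^ b) * (P m + P (m - 1)) := by
    intro m hm
    constructor
    · rw [hv m]
      have h1 := (main m hm).1
      have h2 := hu0 (m - b) (by omega)
      linarith
    · intro s hs
      rw [hv (m - s)]
      have h1 := (main m hm).2 s hs
      have h2 := (main m hm).2 (s + b) (by omega)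
      have h3 : m - ((s + b : ℕ) : ℤ) = m - s - b := by push_cast; ring
      rw [h3, pow_add] at h2
      have h4 : A⁻¹ * θ ^ s * (1 + e2) * (1 + θ ^ b) * (P m + P (m - 1)) =
          A⁻¹ * θ ^ s * (1 + e2) * (P m + P (m - 1)) +
          A⁻¹ * (θ ^ s * θ ^ b) * (1 + e2) * (P m + P (m - 1)) := by ring
      linarith
  have hv0 : ∀ m ≤ M, 0 ≤ v m := fun m hm => by
    rw [hv m]
    exact add_nonneg (hu0 m hm) (hu0 (m - b) (by omega))
  intro m hm
  have hS := hS0 m hm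
  have hwm : (1 - e1 - e3) * (P m + P (m - 1)) ≤ w m := by
    rw [hw m]
    have h1 := (hv1 m hm).1
    have h2 := (hv1 m hm).2 b' hb'
    have h3 := mul_le_mul_of_nonneg_right he3 hS
    nlinarith
  refine ⟨le_trans (mul_nonneg he hS) hwm, fun s hs => ?_⟩
  rw [hw (m - s)]
  have h1 := (hv1 m hm).2 s (by omega)
  have h2 := hv0 (m - s - b') (by omega)
  have hθs : κ * θ ^ s ≤ θ' ^ s := by
    obtain ⟨d, rfl⟩ := Nat.exists_eq_add_of_le hs
    rw [pow_add θ (k + 2) d, pow_add θ' (k + 2) d, ← mul_assoc]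
    exact mul_le_mul hκθ (pow_le_pow_left₀ hθ0.le hθ' d) (by positivity)
      (pow_nonneg (hθ0.le.trans hθ') _)
  calc v (m - s) - v (m - s - b') ≤ v (m - s) := by linarith
    _ ≤ A⁻¹ * θ ^ s * (1 + e2) * (1 + θ ^ b) * (P m + P (m - 1)) := h1
    _ = A⁻¹ * θ ^ s * ((1 + e2) * (1 + θ ^ b) * (P m + P (m - 1))) := by ring
    _ ≤ A⁻¹ * θ ^ s * (κ * (1 - e1 - e3) * (P m + P (m - 1))) := by
        refine mul_le_mul_of_nonneg_left (mul_le_mul_of_nonneg_right hκ hS) (by positivity)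
    _ = A⁻¹ * (κ * θ ^ s) * ((1 - e1 - e3) * (P m + P (m - 1))) := by ring
    _ ≤ A⁻¹ * θ' ^ s * w m := by
        refine mul_le_mul (mul_le_mul_of_nonneg_left hθs hAi.le) hwm (mul_nonneg he hS) ?_
        exact mul_nonneg hAi.le (pow_nonneg (hθ0.le.trans hθ') _)

/-- the odd level: `(1 + q) (1 + q ^ b) / (1 + q ^ (k + 1))` -/
theorem odd_abs {P h u v : ℤ → ℝ} {A θ : ℝ} {M : ℤ} {k b : ℕ} (hA : 0 < A)
    (hθ0 : 0 < θ) (hθ : θ < 1)
    (hP : Grw P A θ M k)
    (h0 : ∀ i < 0, h i = 0) (hrec : ∀ i, h i = P i + P (i - 1) + h (i - (2 * (k + 1) : ℕ)))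
    (hu : ∀ i, u i = h i - h (i - (k + 1 : ℕ)))
    (hv : ∀ i, v i = u i + u (i - b))
    (he1 : A⁻¹ * θ ^ (k + 1) ≤ 1 - θ ^ (2 * (k + 1))) :
    ∀ m ≤ M, 0 ≤ v m := by
  have hAi : 0 < A⁻¹ := inv_pos.2 hA
  have hq1 : θ ^ (2 * (k + 1)) < 1 := pow_lt_one₀ hθ0.le hθ (by omega)
  have hP0 : ∀ i ≤ M, 0 ≤ P i := fun i hi => (hP i hi).1
  have hrec' : ∀ i, h i = (fun j => P j + P (j - 1)) i + h (i - (2 * (k + 1) : ℕ)) := hrec
  have hh0 := geo_nonneg (P := fun j => P j + P (j - 1)) (by omega) h0 hrec' (M := M)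
    (fun i hi => add_nonneg (hP0 i hi) (hP0 (i - 1) (by omega)))
  have hu0 : ∀ m ≤ M, 0 ≤ u m := by
    intro m hm
    rw [hu m]
    set S := P m + P (m - 1) with hS
    have hS0 : 0 ≤ S := add_nonneg (hP0 m hm) (hP0 (m - 1) (by omega))
    have h1 : S ≤ h m := by
      rw [hrec m]
      have := hh0 (m - (2 * (k + 1) : ℕ)) (by omega)
      linarith
    have h2 : ∀ y : ℕ, k + 1 ≤ y → (fun j => P j + P (j - 1)) (m - y) ≤ A⁻¹ * S * θ ^ y := by
      intro y hy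
      have h3 := (hP m hm).2 y (by omega)
      have h4 := (hP (m - 1) (by omega)).2 y (by omega)
      have h5 : m - 1 - (y : ℤ) = m - y - 1 := by ring
      rw [h5] at h4
      show P (m - y) + P (m - y - 1) ≤ A⁻¹ * S * θ ^ y
      rw [hS]
      linarith
    have h6 := geo_le (P := fun j => P j + P (j - 1)) (by omega) h0 hrec'
      (mul_nonneg hAi.le hS0) hθ0 hθ h2 (k + 1) le_rfl
    have h7 : A⁻¹ * S * θ ^ (k + 1) / (1 - θ ^ (2 * (k + 1))) ≤ S := by
      rw [div_le_iff₀ (by linarith)]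
      have := mul_le_mul_of_nonneg_right he1 hS0
      linarith
    linarith
  intro m hm
  rw [hv m]
  exact add_nonneg (hu0 m hm) (hu0 (m - b) (by omega))

end Pool.Agent.Lib.MP_cf17a0_co.S1
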