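import Pool.Agent.Lib.MP_cf17a0_co.KD

/-!
# The tail lemma, part E: kernel check of the base `k = 560`

`H_{n,a} = (87 - 88 q) (1+q)^40 ∏ (1 - x^{a(n+v)}) / ∏ (1 - x^v)` (`x = -q`, `v ≤ 560`) has
coefficients `≥ 0` modulo `q^1958`, for all `n` and all odd `a ≥ 3`.
-/

set_option autoImplicit false

namespace Pool.Agent.SignedQ.KB

open PowerSeries Finset
open Pool.Agent.SignedQ.KC (gi gi_mul fs Rep)
open Pool.Agent.SignedQ.KD (mulP mulM divF mulF Nu)

noncomputable section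

/-- one step of the chain in `k` -/
def kst (B W mask k acc : ℕ) : ℕ :=
  divF B W mask (Nat.succ k) (Bool.rec acc (Bool.rec acc (mulP mask B acc) (Nat.ble k 79))
    (Nat.beq (Nat.mod k 2) 0))

/-- the chain in `k`, with a test at each step; at the end `cont` -/
def fch (B W mask msk : ℕ) (cont : ℕ → Bool) (fuel : ℕ) : ℕ → ℕ → Bool :=
  Nat.rec (fun _ acc => cont acc)
    (fun _ ih k acc => Bool.rec false (ih (Nat.succ k) (kst B W mask k acc))
      (Nat.beq (Nat.land (kst B W mask k acc) msk) 0)) fuel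

/-- multiplication by `87 - 88 q` -/
def hst (B mask c : ℕ) : ℕ :=
  Nat.land (Nat.add (Nat.mul 87 c) (Nat.sub (Nat.succ mask)
    (Nat.land (Nat.shiftLeft (Nat.mul 88 c) B) mask))) mask

/-- one step of the chain in `n`, downwards -/
def nst (B W mask a n acc : ℕ) : ℕ :=
  Bool.rec (divF B W mask (Nat.mul a (Nat.add n 561)) (mulF B W mask (Nat.mul a (Nat.succ n)) acc))
    (mulF B W mask (Nat.mul a (Nat.succ n)) acc) (Nat.ble W (Nat.mul B (Nat.mul a (Nat.add n 561))))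

/-- the chain in `n`, downwards -/
def nch (B W mask msk a : ℕ) (N : ℕ) : ℕ → Bool :=
  Nat.rec (fun _ => true)
    (fun n ih acc => Bool.rec false (ih (nst B W mask a n acc))
      (Nat.beq (Nat.land (nst B W mask a n acc) msk) 0)) N

/-- the loop over `a, a + 2, …` -/
def ach (B W mask msk M H : ℕ) (cnt : ℕ) : ℕ → Bool :=
  Nat.rec (fun _ => true)
    (fun _ ih a => Bool.rec false (ih (Nat.add a 2))
      (nch B W mask msk a (Nat.div (Nat.sub M 1) a) H)) cnt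

/-- the whole check for `a = a0, a0 + 2, …` (`cnt` values) -/
def run (B M b a0 cnt : ℕ) : Bool :=
  fch B (B * M) (2 ^ (B * M) - 1) ((2 ^ (B * M) - 1) / (2 ^ B - 1) * (2 ^ B - 2 ^ b))
    (fun g => Bool.rec false
      (ach B (B * M) (2 ^ (B * M) - 1) ((2 ^ (B * M) - 1) / (2 ^ B - 1) * (2 ^ B - 2 ^ b)) M
        (hst B (2 ^ (B * M) - 1) g) cnt a0)
      (Nat.beq (Nat.land (hst B (2 ^ (B * M) - 1) g)
        ((2 ^ (B * M) - 1) / (2 ^ B - 1) * (2 ^ B - 2 ^ b))) 0)) 560 0 1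

/-! ### Specification -/

/-- `0 ≤ P_i < 2^b` for `i < M` -/
def Good (M b : ℕ) (P : ℤ⟦X⟧) : Prop := ∀ i < M, 0 ≤ coeff i P ∧ coeff i P < 2 ^ b

/-- `|P_i| ≤ C` for `i < M` -/
def Bd (M : ℕ) (C : ℤ) (P : ℤ⟦X⟧) : Prop := ∀ i < M, |coeff i P| ≤ C

theorem Good.bd {M b : ℕ} {P : ℤ⟦X⟧} (h : Good M b P) : Bd M (2 ^ b) P := fun i hi => by
  rw [abs_of_nonneg (h i hi).1]
  exact (h i hi).2.le

theorem Bd.signed {M : ℕ} {C : ℤ} {P : ℤ⟦X⟧} (hC : 0 ≤ C) (h : Bd M C P) (s : ℕ) :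
    Bd M C (P * X ^ s) := fun i hi => by
  rw [coeff_mul_X_pow']
  split_ifs with hs
  · exact h _ (by omega)
  · rw [abs_zero]; exact hC

theorem Bd.one_add {M : ℕ} {C : ℤ} {P : ℤ⟦X⟧} (hC : 0 ≤ C) (h : Bd M C P) :
    Bd M (2 * C) (P * (1 + X)) := fun i hi => by
  have h1 := h i hi
  have h2 := h.signed hC 1 i hi
  rw [pow_one] at h2
  rw [mul_add, mul_one, map_add]
  have := abs_add_le (coeff i P) (coeff i (P * X))
  linarith

theorem Bd.factor {M : ℕ} {C : ℤ} {P : ℤ⟦X⟧} (hC : 0 ≤ C) (h : Bd M C P) (b : ℕ) :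
    Bd M (2 * C) (P * (1 - (-X) ^ b)) := fun i hi => by
  have h1 := h i hi
  have h2 := h.signed hC b i hi
  rcases Nat.mod_two_eq_zero_or_one b with hb | hb
  · rw [KC.neg_pow_even' hb, mul_sub, mul_one, map_sub]
    have := abs_sub (coeff i P) (coeff i (P * X ^ b))
    linarith
  · rw [KC.neg_pow_odd' hb, sub_neg_eq_add, mul_add, mul_one, map_add]
    have := abs_add_le (coeff i P) (coeff i (P * X ^ b))
    linarith

theorem Bd.lin {M : ℕ} {D : ℤ} {P : ℤ⟦X⟧} (hD : 0 ≤ D) (h : Bd M D P) :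
    Bd M (175 * D) (P * (87 - 88 * X)) := fun i hi => by
  have h1 := h i hi
  have h2 := h.signed hD 1 i hi
  rw [pow_one] at h2
  have e : P * (87 - 88 * X) = C (87 : ℤ) * P - C (88 : ℤ) * (P * X) := by
    have e1 : (C (87 : ℤ) : ℤ⟦X⟧) = 87 := by simp
    have e2 : (C (88 : ℤ) : ℤ⟦X⟧) = 88 := by simp
    rw [e1, e2]
    ring
  rw [e, map_sub, coeff_C_mul, coeff_C_mul]
  have := abs_sub (87 * coeff i P) (88 * coeff i (P * X))
  rw [abs_mul, abs_mul] at this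
  norm_num at this
  linarith

theorem Bd.dvd {M : ℕ} {C : ℤ} {P : ℤ⟦X⟧} (h : Bd M C P) {j : ℕ} (hj : 1 ≤ j) :
    ∀ i < M, |coeff i (P * gi j)| ≤ (i + 1) * C := by
  intro i
  induction i using Nat.strong_induction_on with
  | _ i ih =>
    intro hi
    have hg := gi_mul hj
    have e : P * gi j = P + (-X) ^ j * (P * gi j) := by
      have : P = (1 - (-X) ^ j) * gi j * P := by rw [hg, one_mul]
      calc P * gi j = (1 - (-X) ^ j) * gi j * P + (-X) ^ j * (P * gi j) := by ring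
        _ = _ := by rw [← this]
    have h1 := h i hi
    have hC : 0 ≤ C := (abs_nonneg _).trans h1
    have h2 : |coeff i ((-X) ^ j * (P * gi j))| ≤ i * C := by
      have h3 : |coeff i (P * gi j * X ^ j)| ≤ i * C := by
        rw [coeff_mul_X_pow']
        split_ifs with hji
        · have h4 := ih (i - j) (by omega) (by omega)
          refine h4.trans (mul_le_mul_of_nonneg_right ?_ hC)
          have : i - j + 1 ≤ i := by omega
          exact_mod_cast this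
        · rw [abs_zero]
          positivity
      rcases Nat.mod_two_eq_zero_or_one j with hb | hb
      · rw [KC.neg_pow_even' hb, mul_comm]
        exact h3
      · rw [KC.neg_pow_odd' hb, neg_mul, map_neg, abs_neg, mul_comm]
        exact h3
    rw [e, map_add]
    have := abs_add_le (coeff i P) (coeff i ((-X) ^ j * (P * gi j)))
    linarith

theorem Bd.dvd' {M : ℕ} {C : ℤ} {P : ℤ⟦X⟧} (hC : 0 ≤ C) (h : Bd M C P) {j : ℕ} (hj : 1 ≤ j) :
    Bd M (M * C) (P * gi j) := fun i hi => by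
  refine (h.dvd hj i hi).trans (mul_le_mul_of_nonneg_right ?_ hC)
  exact_mod_cast hi

/-- a legitimate test -/
theorem good_of_test {B M b S : ℕ} {P : ℤ⟦X⟧} {C : ℤ} (hb : b + 1 ≤ B) (hS : Rep B M S P)
    (hbd : Bd M C P) (hC : 2 * C < 2 ^ B)
    (h : Nat.land S ((2 ^ (B * M) - 1) / (2 ^ B - 1) * (2 ^ B - 2 ^ b)) = 0) : Good M b P := by
  have hD : 2 ^ B - 2 ^ b < 2 ^ B := Nat.sub_lt (by positivity) (by positivity)
  have hdig : ∀ i < M, S / (2 ^ B) ^ i % 2 ^ B < 2 ^ b := fun i hi =>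
    KD.lt_of_land (by omega) (Nat.mod_lt _ (by positivity)) (KD.digit_land hD (by omega) h i hi)
  have hbB : 2 ^ b * 2 ≤ 2 ^ B := by
    rw [← pow_succ]
    exact Nat.pow_le_pow_right (by norm_num) hb
  have h1 := KD.rep_dg B M S
  have key : ∀ i < M, coeff i P - coeff i (KD.dg B M S) = 0 := by
    refine KD.zero_of_small (2 ^ B) Nat.one_le_two_pow M
      (fun i => coeff i P - coeff i (KD.dg B M S)) ?_ ?_
    · have h2 := h1.sub hS
      unfold KC.ev at h2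
      push_cast
      refine (Eq.mp (congrArg _ ?_) h2)
      rw [sub_sub_sub_cancel_left, ← sum_sub_distrib]
      exact sum_congr rfl fun i _ => by ring
    · intro i hi
      have h3 := hbd i hi
      have h4 := hdig i hi
      have h5 : coeff i (KD.dg B M S) = ((S / (2 ^ B) ^ i % 2 ^ B : ℕ) : ℤ) := by
        unfold KD.dg
        rw [coeff_mk, if_pos hi]
      have h6 : ((S / (2 ^ B) ^ i % 2 ^ B : ℕ) : ℤ) < 2 ^ b := by exact_mod_cast h4
      have h7 : (0 : ℤ) ≤ ((S / (2 ^ B) ^ i % 2 ^ B : ℕ) : ℤ) := by positivity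
      have h8 : (2 : ℤ) ^ b * 2 ≤ 2 ^ B := by exact_mod_cast hbB
      show |coeff i P - coeff i (KD.dg B M S)| < ((2 ^ B : ℕ) : ℤ)
      rw [h5]
      push_cast at h6 h7 ⊢
      rw [abs_lt]
      have := abs_le.1 h3
      constructor <;> linarith [this.1, this.2]
  intro i hi
  have h5 : coeff i (KD.dg B M S) = ((S / (2 ^ B) ^ i % 2 ^ B : ℕ) : ℤ) := by
    unfold KD.dg
    rw [coeff_mk, if_pos hi]
  have h6 : coeff i P = ((S / (2 ^ B) ^ i % 2 ^ B : ℕ) : ℤ) := by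
    have := key i hi
    omega
  have h4 := hdig i hi
  rw [h6]
  exact ⟨by positivity, by exact_mod_cast h4⟩

/-- the series of the chain in `k` -/
def Fp : ℕ → ℤ⟦X⟧
  | 0 => 1
  | k + 1 => (if k % 2 = 0 ∧ k ≤ 79 then Fp k * (1 + X) else Fp k) * gi (k + 1)

/-- the series of the chain in `n` -/
def Hs (n a : ℕ) : ℤ⟦X⟧ := Fp 560 * (87 - 88 * X) * Nu n a 560

theorem rep_kst {B M S k : ℕ} (hB : 1 ≤ B) (hM : M ≤ 2 ^ 20) (h : Rep B M S (Fp k)) :
    Rep B M (kst B (B * M) (2 ^ (B * M) - 1) k S) (Fp (k + 1)) := by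
  unfold kst
  rw [KD.divF_eq]
  refine KC.Rep.divF hB hM (Nat.succ_pos k) ?_
  cases hc : Nat.beq (Nat.mod k 2) 0 with
  | true =>
    have hk : k % 2 = 0 := Nat.eq_of_beq_eq_true hc
    cases hd : Nat.ble k 79 with
    | true =>
      have hk2 : k ≤ 79 := Nat.le_of_ble_eq_true hd
      rw [if_pos ⟨hk, hk2⟩]
      have := h.mulP 1
      rw [mul_one, pow_one, ← KD.mulP_eq] at this
      exact this
    | false =>
      have hk2 : ¬ k ≤ 79 := fun h1 => by
        rw [Nat.ble_eq_true_of_le h1] at hd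
        exact Bool.noConfusion hd
      rw [if_neg (fun h1 => hk2 h1.2)]
      exact h
  | false =>
    have hk : ¬ k % 2 = 0 := Nat.ne_of_beq_eq_false hc
    rw [if_neg (fun h1 => hk h1.1)]
    exact h

theorem bd_kst {M b k : ℕ} (h : Good M b (Fp k)) : Bd M (M * (2 * 2 ^ b)) (Fp (k + 1)) := by
  have h1 := h.bd
  have h0 : (0 : ℤ) ≤ 2 ^ b := by positivity
  refine Bd.dvd' (by positivity) ?_ (Nat.succ_pos k)
  split_ifs
  · exact h1.one_add h0
  · intro i hi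
    have := h1 i hi
    linarith

theorem fch_spec {B M b : ℕ} (hB : 1 ≤ B) (hM : M ≤ 2 ^ 20) (hb : b + 1 ≤ B)
    (hC : 2 * ((M : ℤ) * (2 * 2 ^ b)) < 2 ^ B) (cont : ℕ → Bool) (fuel : ℕ) :
    ∀ {k S : ℕ}, Rep B M S (Fp k) → Good M b (Fp k) →
      fch B (B * M) (2 ^ (B * M) - 1) ((2 ^ (B * M) - 1) / (2 ^ B - 1) * (2 ^ B - 2 ^ b)) cont
        fuel k S = true →
      ∃ S', Rep B M S' (Fp (k + fuel)) ∧ Good M b (Fp (k + fuel)) ∧ cont S' = true := by
  induction fuel with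
  | zero =>
    intro k S h1 h2 h3
    exact ⟨S, h1, h2, h3⟩
  | succ fuel ih =>
    intro k S h1 h2 h3
    have h3' : (Bool.rec false (fch B (B * M) (2 ^ (B * M) - 1)
        ((2 ^ (B * M) - 1) / (2 ^ B - 1) * (2 ^ B - 2 ^ b)) cont fuel (Nat.succ k)
          (kst B (B * M) (2 ^ (B * M) - 1) k S))
      (Nat.beq (Nat.land (kst B (B * M) (2 ^ (B * M) - 1) k S)
        ((2 ^ (B * M) - 1) / (2 ^ B - 1) * (2 ^ B - 2 ^ b))) 0) : Bool) = true := h3
    cases hc : Nat.beq (Nat.land (kst B (B * M) (2 ^ (B * M) - 1) k S)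
        ((2 ^ (B * M) - 1) / (2 ^ B - 1) * (2 ^ B - 2 ^ b))) 0 with
    | false =>
      rw [hc] at h3'
      exact absurd h3' (by simp)
    | true =>
      rw [hc] at h3'
      have h4 := rep_kst hB hM h1
      have h5 := good_of_test hb h4 (bd_kst h2) hC (Nat.eq_of_beq_eq_true hc)
      have h6 := ih h4 h5 h3'
      have e : k + 1 + fuel = k + (fuel + 1) := by ring
      rw [e] at h6
      exact h6

theorem rep_hst {B M S : ℕ} {P : ℤ⟦X⟧} (h : Rep B M S P) :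
    Rep B M (hst B (2 ^ (B * M) - 1) S) (P * (87 - 88 * X)) := by
  have e : P * (87 - 88 * X) = C (87 : ℤ) * P - C (88 : ℤ) * (P * X ^ 1) := by
    have e1 : (C (87 : ℤ) : ℤ⟦X⟧) = 87 := by simp
    have e2 : (C (88 : ℤ) : ℤ⟦X⟧) = 88 := by simp
    rw [e1, e2]
    ring
  have hev : ∀ (c : ℤ) (Q : ℤ⟦X⟧), KC.ev M (2 ^ B) (C c * Q) = c * KC.ev M (2 ^ B) Q := by
    intro c Q
    unfold KC.ev
    rw [mul_sum]
    refine sum_congr rfl fun i _ => ?_
    rw [coeff_C_mul]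
    ring
  have h1 := KC.ev_mul_X_pow M (2 ^ B) P 1
  rw [pow_one ((2 : ℤ) ^ B)] at h1
  unfold KC.Rep at *
  rw [e, KC.ev_sub, hev, hev]
  have h2 : hst B (2 ^ (B * M) - 1) S =
      (87 * S + (2 ^ (B * M) - (88 * S * 2 ^ B) % 2 ^ (B * M))) % 2 ^ (B * M) := by
    unfold hst
    show (87 * S + ((2 ^ (B * M) - 1) + 1 - (((88 * S) <<< B) &&& (2 ^ (B * M) - 1)))) &&&
      (2 ^ (B * M) - 1) = _
    rw [Nat.and_two_pow_sub_one_eq_mod, Nat.and_two_pow_sub_one_eq_mod, Nat.shiftLeft_eq,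
      Nat.sub_add_cancel Nat.one_le_two_pow]
  have hlt : (88 * S * 2 ^ B) % 2 ^ (B * M) ≤ 2 ^ (B * M) :=
    (Nat.mod_lt _ (by positivity)).le
  have h4 : ((hst B (2 ^ (B * M) - 1) S : ℕ) : ℤ) =
      (87 * (S : ℤ) + ((2 ^ B) ^ M - (88 * S * 2 ^ B) % (2 ^ B) ^ M)) % (2 ^ B) ^ M := by
    rw [h2]
    push_cast [Nat.cast_sub hlt]
    rw [pow_mul]
  rw [h4]
  set Z : ℤ := (2 ^ B) ^ M
  set y : ℤ := 2 ^ B
  have e1 : Z ∣ (87 * (S : ℤ) + (Z - (88 * S * y) % Z)) % Z -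
      (87 * (S : ℤ) + (Z - (88 * S * y) % Z)) := Int.dvd_sub_self_of_emod_eq rfl
  have e2 : Z ∣ (88 * S * y : ℤ) % Z - (88 * S * y : ℤ) := Int.dvd_sub_self_of_emod_eq rfl
  have e3 := (e1.sub e2).add (dvd_refl Z)
  have h5 := (e3.add (h.mul_left (87 - 88 * y))).add (h1.mul_left 88)
  refine (Eq.mp (congrArg _ ?_) h5)
  ring

theorem Hs_succ (n a : ℕ) (ha : 1 ≤ a) :
    Hs n a = Hs (n + 1) a * (1 - (-X) ^ (a * (n + 1))) * gi (a * (n + 561)) := by
  have h1 : Nu n a 560 * (1 - (-X) ^ (a * (n + 561))) =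
      Nu (n + 1) a 560 * (1 - (-X) ^ (a * (n + 1))) := by
    unfold Nu
    have e1 := prod_range_succ (fun v => (1 - (-X : ℤ⟦X⟧) ^ (a * (n + (v + 1))))) 560
    have e2 := prod_range_succ' (fun v => (1 - (-X : ℤ⟦X⟧) ^ (a * (n + (v + 1))))) 560
    rw [e1] at e2
    rw [zero_add] at e2
    have e3 : ∏ v ∈ range 560, (1 - (-X : ℤ⟦X⟧) ^ (a * (n + (v + 1 + 1)))) =
        ∏ v ∈ range 560, (1 - (-X : ℤ⟦X⟧) ^ (a * (n + 1 + (v + 1)))) :=
      prod_congr rfl fun v _ => by rw [show n + (v + 1 + 1) = n + 1 + (v + 1) by ring]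
    rw [e3] at e2
    exact e2
  have hg := gi_mul (j := a * (n + 561)) (Nat.mul_pos ha (by omega))
  unfold Hs
  calc Fp 560 * (87 - 88 * X) * Nu n a 560 =
      Fp 560 * (87 - 88 * X) * Nu n a 560 *
        ((1 - (-X) ^ (a * (n + 561))) * gi (a * (n + 561))) := by rw [hg, mul_one]
    _ = Fp 560 * (87 - 88 * X) * (Nu n a 560 * (1 - (-X) ^ (a * (n + 561)))) *
        gi (a * (n + 561)) := by ring
    _ = _ := by rw [h1]; ring

theorem nch_spec {B M b a : ℕ} (ha : 1 ≤ a) (hB : 1 ≤ B) (hM : M ≤ 2 ^ 20) (hb : b + 1 ≤ B)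
    (hC : 2 * ((M : ℤ) * (2 * 2 ^ b)) < 2 ^ B) (N : ℕ) :
    ∀ {S : ℕ}, Rep B M S (Hs N a) → Good M b (Hs N a) →
      nch B (B * M) (2 ^ (B * M) - 1) ((2 ^ (B * M) - 1) / (2 ^ B - 1) * (2 ^ B - 2 ^ b)) a
        N S = true →
      ∀ n ≤ N, Good M b (Hs n a) := by
  induction N with
  | zero =>
    intro S _ h2 _ n hn
    obtain rfl : n = 0 := by omega
    exact h2
  | succ N ih =>
    intro S h1 h2 h3 n hn
    have h3' : (Bool.rec false (nch B (B * M) (2 ^ (B * M) - 1)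
        ((2 ^ (B * M) - 1) / (2 ^ B - 1) * (2 ^ B - 2 ^ b)) a N
          (nst B (B * M) (2 ^ (B * M) - 1) a N S))
      (Nat.beq (Nat.land (nst B (B * M) (2 ^ (B * M) - 1) a N S)
        ((2 ^ (B * M) - 1) / (2 ^ B - 1) * (2 ^ B - 2 ^ b))) 0) : Bool) = true := h3
    rcases Nat.lt_or_ge n (N + 1) with hn' | hn'
    swap
    · obtain rfl : n = N + 1 := by omega
      exact h2
    cases hc : Nat.beq (Nat.land (nst B (B * M) (2 ^ (B * M) - 1) a N S)
        ((2 ^ (B * M) - 1) / (2 ^ B - 1) * (2 ^ B - 2 ^ b))) 0 with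
    | false =>
      rw [hc] at h3'
      exact absurd h3' (by simp)
    | true =>
      rw [hc] at h3'
      have h4 : Rep B M (nst B (B * M) (2 ^ (B * M) - 1) a N S) (Hs N a) := by
        have hm : Rep B M (mulF B (B * M) (2 ^ (B * M) - 1) (a * (N + 1)) S)
            (Hs (N + 1) a * (1 - (-X) ^ (a * (N + 1)))) := by
          rw [KD.mulF_eq]
          exact h1.mulF hB (b := a * (N + 1))
        have hj : 1 ≤ a * (N + 561) := Nat.mul_pos ha (by omega)
        unfold nst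
        rw [Hs_succ N a ha]
        cases hd : Nat.ble (B * M) (Nat.mul B (Nat.mul a (Nat.add N 561))) with
        | true =>
          have h7 : B * M ≤ B * (a * (N + 561)) := Nat.le_of_ble_eq_true hd
          have h8 : M ≤ a * (N + 561) := Nat.le_of_mul_le_mul_left h7 (by omega)
          refine hm.congr fun i hi => ?_
          obtain ⟨j, hj'⟩ : ∃ j, a * (N + 561) = j + 1 := ⟨a * (N + 561) - 1, by omega⟩
          rw [hj', KC.coeff_gi_congr (by omega) _ hi]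
        | false =>
          show Rep B M (divF B (B * M) (2 ^ (B * M) - 1) (a * (N + 561))
            (mulF B (B * M) (2 ^ (B * M) - 1) (a * (N + 1)) S)) _
          rw [KD.divF_eq]
          exact KC.Rep.divF hB hM hj hm
      have h0 : (0 : ℤ) ≤ 2 ^ b := by positivity
      have h5 : Bd M (M * (2 * 2 ^ b)) (Hs N a) := by
        rw [Hs_succ N a ha]
        exact Bd.dvd' (by positivity) (h2.bd.factor h0 _) (Nat.mul_pos ha (by omega))
      have h6 := good_of_test hb h4 h5 hC (Nat.eq_of_beq_eq_true hc)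
      exact ih h4 h6 h3' n (by omega)

theorem coeff_Nu_big {M : ℕ} (P : ℤ⟦X⟧) {n a : ℕ} (h : M ≤ a * (n + 1)) (k : ℕ) {i : ℕ}
    (hi : i < M) : coeff i (P * Nu n a k) = coeff i P := by
  induction k with
  | zero => simp [Nu]
  | succ k ih =>
    have e : P * Nu n a (k + 1) = P * Nu n a k * (1 - (-X) ^ (a * (n + (k + 1)))) := by
      unfold Nu
      rw [prod_range_succ, mul_assoc]
    rw [e, KC.coeff_factor_congr (h.trans (Nat.mul_le_mul_left a (by omega))) _ hi, ih]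

/-- what one `a` gives -/
theorem one_a {B M b a H : ℕ} (ha : 1 ≤ a) (hM1 : 1 ≤ M) (hB : 1 ≤ B) (hM : M ≤ 2 ^ 20)
    (hb : b + 1 ≤ B) (hC : 2 * ((M : ℤ) * (2 * 2 ^ b)) < 2 ^ B)
    (hH : Rep B M H (Fp 560 * (87 - 88 * X))) (hG : Good M b (Fp 560 * (87 - 88 * X)))
    (h : nch B (B * M) (2 ^ (B * M) - 1) ((2 ^ (B * M) - 1) / (2 ^ B - 1) * (2 ^ B - 2 ^ b)) a
        ((M - 1) / a) H = true) : ∀ n, Good M b (Hs n a) := by
  have hbig : ∀ n, (M - 1) / a ≤ n → M ≤ a * (n + 1) := by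
    intro n hn
    have h1 := Nat.div_add_mod (M - 1) a
    have h2 := Nat.mod_lt (M - 1) (show 0 < a by omega)
    have h3 := Nat.mul_le_mul_left a hn
    rw [Nat.mul_add, Nat.mul_one]
    omega
  have hgood : ∀ n, (M - 1) / a ≤ n → Good M b (Hs n a) := by
    intro n hn i hi
    unfold Hs
    rw [coeff_Nu_big _ (hbig n hn) 560 hi]
    exact hG i hi
  have hrep : Rep B M H (Hs ((M - 1) / a) a) := by
    refine hH.congr fun i hi => ?_
    unfold Hs
    rw [coeff_Nu_big _ (hbig _ le_rfl) 560 hi]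
  intro n
  rcases le_or_gt n ((M - 1) / a) with h1 | h1
  · exact nch_spec ha hB hM hb hC _ hrep (hgood _ le_rfl) h n h1
  · exact hgood n h1.le

theorem ach_spec {B M b H : ℕ} (hM1 : 1 ≤ M) (hB : 1 ≤ B) (hM : M ≤ 2 ^ 20)
    (hb : b + 1 ≤ B) (hC : 2 * ((M : ℤ) * (2 * 2 ^ b)) < 2 ^ B)
    (hH : Rep B M H (Fp 560 * (87 - 88 * X))) (hG : Good M b (Fp 560 * (87 - 88 * X)))
    (cnt : ℕ) : ∀ {a0 : ℕ}, 1 ≤ a0 →
      ach B (B * M) (2 ^ (B * M) - 1) ((2 ^ (B * M) - 1) / (2 ^ B - 1) * (2 ^ B - 2 ^ b)) M H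
        cnt a0 = true → ∀ c < cnt, ∀ n, Good M b (Hs n (a0 + 2 * c)) := by
  induction cnt with
  | zero => intro a0 _ _ c hc; omega
  | succ cnt ih =>
    intro a0 ha0 h c hc
    have h' : (Bool.rec false (ach B (B * M) (2 ^ (B * M) - 1)
        ((2 ^ (B * M) - 1) / (2 ^ B - 1) * (2 ^ B - 2 ^ b)) M H cnt (a0 + 2))
      (nch B (B * M) (2 ^ (B * M) - 1) ((2 ^ (B * M) - 1) / (2 ^ B - 1) * (2 ^ B - 2 ^ b)) a0
        ((M - 1) / a0) H) : Bool) = true := h
    cases hc' : nch B (B * M) (2 ^ (B * M) - 1) ((2 ^ (B * M) - 1) / (2 ^ B - 1) *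
        (2 ^ B - 2 ^ b)) a0 ((M - 1) / a0) H with
    | false =>
      rw [hc'] at h'
      exact absurd h' (by simp)
    | true =>
      rw [hc'] at h'
      cases c with
      | zero => exact one_a ha0 hM1 hB hM hb hC hH hG hc'
      | succ c =>
        have := ih (by omega) h' c (by omega)
        rw [show a0 + 2 * (c + 1) = a0 + 2 + 2 * c by ring]
        exact this

/-- **Correctness of the check.** -/
theorem run_spec {B M b a0 cnt : ℕ} (hM1 : 1 ≤ M) (hB : 1 ≤ B) (hM : M ≤ 2 ^ 20)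
    (hb : b + 1 ≤ B) (hC : 2 * ((M : ℤ) * (2 * 2 ^ b)) < 2 ^ B)
    (hC' : 2 * (175 * (2 : ℤ) ^ b) < 2 ^ B) (hb1 : 1 ≤ b) (ha0 : 1 ≤ a0)
    (h : run B M b a0 cnt = true) : ∀ c < cnt, ∀ n, Good M b (Hs n (a0 + 2 * c)) := by
  have hg1 : Good M b (Fp 0) := by
    intro i _
    show 0 ≤ coeff i (1 : ℤ⟦X⟧) ∧ coeff i (1 : ℤ⟦X⟧) < 2 ^ b
    rw [coeff_one]
    have : (2 : ℤ) ^ 1 ≤ 2 ^ b := pow_le_pow_right₀ (by norm_num) hb1
    split <;> constructor <;> linarith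
  obtain ⟨S, h1, h2, h3⟩ := fch_spec hB hM hb hC _ 560 (k := 0) (S := 1) (KC.rep_one B M) hg1 h
  rw [Nat.zero_add] at h1 h2
  have h4 := rep_hst h1
  cases hc : Nat.beq (Nat.land (hst B (2 ^ (B * M) - 1) S)
        ((2 ^ (B * M) - 1) / (2 ^ B - 1) * (2 ^ B - 2 ^ b))) 0 with
  | false =>
    rw [hc] at h3
    exact absurd h3 (by simp)
  | true =>
    rw [hc] at h3
    have h0 : (0 : ℤ) ≤ 2 ^ b := by positivity
    have h5 := good_of_test hb h4 (h2.bd.lin h0) hC' (Nat.eq_of_beq_eq_true hc)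
    exact ach_spec hM1 hB hM hb hC h4 h5 cnt ha0 h3

end

end Pool.Agent.SignedQ.KB
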